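import Pool.Agent.W_7d29a1_V.Blk58

/-!
The point to point partition function inside the cone is bounded by a product of five such
functions, two of which have end points with some room.
-/

namespace Pool.Agent.W_7d29a1_V

open Pool.Agent.W_MP_7d29a1_pr Pool.Agent.W_7d29a1_h46 Pool.Agent.W_7d29a1_h46u
  Pool.Agent.W_7d29a1_D2 Pool.Agent.W_7d29a1_D2.B35

variable {d : ℕ}

/-- The initial part of a walk. -/
def pre58 {m n : ℕ} (q : Fin (m + n) → Step d) : Fin m → Step d := fun i => q (Fin.castAdd n i)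

lemma pre58_append {m n : ℕ} (s : Fin m → Step d) (q : Fin n → Step d) :
    pre58 (Fin.append s q) = s := by
  funext i
  exact Fin.append_left s q i

lemma pos_pre58 {m n : ℕ} (q : Fin (m + n) → Step d) {j : ℕ} (hj : j ≤ m) :
    pos (pre58 q) j = pos q j := by
  have h : q = Fin.append (fun i => q (Fin.castAdd n i)) (fun i => q (Fin.natAdd m i)) :=
    Fin.append_castAdd_natAdd.symm
  conv_rhs => rw [h]
  rw [pos_glue_le _ _ hj]
  rfl

/-- One more factor. -/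
lemma ZT_glue58 (β : ℝ) (h : Vec d) (η : Env d) {m n : ℕ} (E : Set (Fin m → Step d))
    (y z : Site d) :
    ZT β h η {q : Fin (m + n) → Step d | pre58 q ∈ E ∧ pos q m = y ∧ pos q (m + n) = z} =
      ZT β h η {p : Fin m → Step d | p ∈ E ∧ pos p m = y} * PP β h (sh m y η) n (z - y) := by
  classical
  unfold PP ZT
  rw [Finset.sum_mul_sum, sum_glue]
  refine Finset.sum_congr rfl fun s _ => Finset.sum_congr rfl fun q _ => ?_
  have h1 : pos (Fin.append s q) m = pos s m := pos_glue_le s q le_rfl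
  have h2 : pos (Fin.append s q) (m + n) = pos s m + pos q n := pos_glue_add s q n
  by_cases hs : s ∈ {p : Fin m → Step d | p ∈ E ∧ pos p m = y}
  · have hs1 : s ∈ E := hs.1
    have hs2 : pos s m = y := hs.2
    rw [if_pos hs]
    by_cases hq : q ∈ {s : Fin n → Step d | pos s n = z - y}
    · have hq1 : pos q n = z - y := hq
      rw [if_pos hq, if_pos, wgt_glue, hs2]
      refine ⟨?_, ?_, ?_⟩
      · rw [pre58_append]; exact hs1
      · rw [h1, hs2]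
      · rw [h2, hs2, hq1]; abel
    · rw [if_neg hq, mul_zero, if_neg]
      rintro ⟨_, _, h5⟩
      refine hq ?_
      change pos q n = z - y
      rw [h2, hs2] at h5
      rw [← h5]; abel
  · rw [if_neg hs, zero_mul, if_neg]
    rintro ⟨h3, h4, _⟩
    rw [pre58_append] at h3
    rw [h1] at h4
    exact hs ⟨h3, h4⟩

/-- The weight of the walks with four prescribed intermediate positions. -/
theorem ZT_five58 (β : ℝ) (h : Vec d) (η : Env d) (t₁ s₁ u s₂ r : ℕ) (y₁ y₂ y₃ y₄ z : Site d) :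
    ZT β h η {q : Fin (t₁ + s₁ + u + s₂ + r) → Step d | pos q t₁ = y₁ ∧ pos q (t₁ + s₁) = y₂ ∧
      pos q (t₁ + s₁ + u) = y₃ ∧ pos q (t₁ + s₁ + u + s₂) = y₄ ∧
      pos q (t₁ + s₁ + u + s₂ + r) = z} =
    PP β h η t₁ y₁ * PP β h (sh t₁ y₁ η) s₁ (y₂ - y₁) *
      PP β h (sh (t₁ + s₁) y₂ η) u (y₃ - y₂) * PP β h (sh (t₁ + s₁ + u) y₃ η) s₂ (y₄ - y₃) *
      PP β h (sh (t₁ + s₁ + u + s₂) y₄ η) r (z - y₄) := by
  have e1 : ZT β h η {p : Fin t₁ → Step d | p ∈ (Set.univ : Set (Fin t₁ → Step d)) ∧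
      pos p t₁ = y₁} = PP β h η t₁ y₁ := by
    unfold PP
    congr 1
    ext p
    simp
  have e2 := ZT_glue58 β h η (n := s₁) (Set.univ : Set (Fin t₁ → Step d)) y₁ y₂
  have e3 := ZT_glue58 β h η (n := u)
    {q : Fin (t₁ + s₁) → Step d | pre58 q ∈ (Set.univ : Set (Fin t₁ → Step d)) ∧ pos q t₁ = y₁}
    y₂ y₃
  have e4 := ZT_glue58 β h η (n := s₂)
    {q : Fin (t₁ + s₁ + u) → Step d | pre58 q ∈
      {q : Fin (t₁ + s₁) → Step d | pre58 q ∈ (Set.univ : Set (Fin t₁ → Step d)) ∧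
        pos q t₁ = y₁} ∧ pos q (t₁ + s₁) = y₂} y₃ y₄
  have e5 := ZT_glue58 β h η (n := r)
    {q : Fin (t₁ + s₁ + u + s₂) → Step d | pre58 q ∈
      {q : Fin (t₁ + s₁ + u) → Step d | pre58 q ∈
        {q : Fin (t₁ + s₁) → Step d | pre58 q ∈ (Set.univ : Set (Fin t₁ → Step d)) ∧
          pos q t₁ = y₁} ∧ pos q (t₁ + s₁) = y₂} ∧ pos q (t₁ + s₁ + u) = y₃} y₄ z
  have s2 : {p : Fin (t₁ + s₁) → Step d | p ∈ {q : Fin (t₁ + s₁) → Step d |
      pre58 q ∈ (Set.univ : Set (Fin t₁ → Step d)) ∧ pos q t₁ = y₁} ∧ pos p (t₁ + s₁) = y₂} =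
      {q : Fin (t₁ + s₁) → Step d | pre58 q ∈ (Set.univ : Set (Fin t₁ → Step d)) ∧
        pos q t₁ = y₁ ∧ pos q (t₁ + s₁) = y₂} := by
    ext p
    simp only [Set.mem_ofPred_eq]
    tauto
  have s3 : {p : Fin (t₁ + s₁ + u) → Step d | p ∈ {q : Fin (t₁ + s₁ + u) → Step d | pre58 q ∈
      {q : Fin (t₁ + s₁) → Step d | pre58 q ∈ (Set.univ : Set (Fin t₁ → Step d)) ∧
        pos q t₁ = y₁} ∧ pos q (t₁ + s₁) = y₂} ∧ pos p (t₁ + s₁ + u) = y₃} =
      {q : Fin (t₁ + s₁ + u) → Step d | pre58 q ∈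
      {q : Fin (t₁ + s₁) → Step d | pre58 q ∈ (Set.univ : Set (Fin t₁ → Step d)) ∧
        pos q t₁ = y₁} ∧ pos q (t₁ + s₁) = y₂ ∧ pos q (t₁ + s₁ + u) = y₃} := by
    ext p
    simp only [Set.mem_ofPred_eq]
    tauto
  have s4 : {p : Fin (t₁ + s₁ + u + s₂) → Step d | p ∈ {q : Fin (t₁ + s₁ + u + s₂) → Step d |
      pre58 q ∈ {q : Fin (t₁ + s₁ + u) → Step d | pre58 q ∈
        {q : Fin (t₁ + s₁) → Step d | pre58 q ∈ (Set.univ : Set (Fin t₁ → Step d)) ∧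
          pos q t₁ = y₁} ∧ pos q (t₁ + s₁) = y₂} ∧ pos q (t₁ + s₁ + u) = y₃} ∧
      pos p (t₁ + s₁ + u + s₂) = y₄} =
      {q : Fin (t₁ + s₁ + u + s₂) → Step d | pre58 q ∈
      {q : Fin (t₁ + s₁ + u) → Step d | pre58 q ∈
        {q : Fin (t₁ + s₁) → Step d | pre58 q ∈ (Set.univ : Set (Fin t₁ → Step d)) ∧
          pos q t₁ = y₁} ∧ pos q (t₁ + s₁) = y₂} ∧ pos q (t₁ + s₁ + u) = y₃ ∧
      pos q (t₁ + s₁ + u + s₂) = y₄} := by
    ext p
    simp only [Set.mem_ofPred_eq]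
    tauto
  rw [s4, e4, s3, e3, s2, e2, e1] at e5
  rw [← e5]
  congr 1
  ext q
  simp only [Set.mem_ofPred_eq, Set.mem_univ, true_and]
  have p1 : pos (pre58 q) (t₁ + s₁ + u) = pos q (t₁ + s₁ + u) := pos_pre58 q (by omega)
  have p2 : pos (pre58 (pre58 q)) (t₁ + s₁) = pos q (t₁ + s₁) := by
    rw [pos_pre58 (pre58 q) (by omega), pos_pre58 q (by omega)]
  have p3 : pos (pre58 (pre58 (pre58 q))) t₁ = pos q t₁ := by
    rw [pos_pre58 (pre58 (pre58 q)) (by omega), pos_pre58 (pre58 q) (by omega),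
      pos_pre58 q (by omega)]
  rw [p1, p2, p3]
  tauto

/-- The same with increasing times. -/
theorem ZT_times58 (β : ℝ) (h : Vec d) (η : Env d) {a₁ a₂ a₃ a₄ t : ℕ} (h₁ : a₁ ≤ a₂)
    (h₂ : a₂ ≤ a₃) (h₃ : a₃ ≤ a₄) (h₄ : a₄ ≤ t) (y₁ y₂ y₃ y₄ z : Site d) :
    ZT β h η {q : Fin t → Step d | pos q a₁ = y₁ ∧ pos q a₂ = y₂ ∧ pos q a₃ = y₃ ∧
      pos q a₄ = y₄ ∧ pos q t = z} =
    PP β h η a₁ y₁ * PP β h (sh a₁ y₁ η) (a₂ - a₁) (y₂ - y₁) *
      PP β h (sh a₂ y₂ η) (a₃ - a₂) (y₃ - y₂) * PP β h (sh a₃ y₃ η) (a₄ - a₃) (y₄ - y₃) *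
      PP β h (sh a₄ y₄ η) (t - a₄) (z - y₄) := by
  obtain ⟨s₁, rfl⟩ := Nat.exists_eq_add_of_le h₁
  obtain ⟨u, rfl⟩ := Nat.exists_eq_add_of_le h₂
  obtain ⟨s₂, rfl⟩ := Nat.exists_eq_add_of_le h₃
  obtain ⟨r, rfl⟩ := Nat.exists_eq_add_of_le h₄
  rw [ZT_five58]
  simp only [Nat.add_sub_cancel_left]

/-- Union bound. -/
lemma ZT_le_sum58 (β : ℝ) (h : Vec d) (η : Env d) {t : ℕ} {ι : Type*} (A : Finset ι)
    (E : Set (Fin t → Step d)) (F : ι → Set (Fin t → Step d))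
    (hE : ∀ q ∈ E, ∃ a ∈ A, q ∈ F a) : ZT β h η E ≤ ∑ a ∈ A, ZT β h η (F a) := by
  classical
  unfold ZT
  rw [Finset.sum_comm]
  refine Finset.sum_le_sum fun q _ => ?_
  have hw : ∀ a ∈ A, 0 ≤ (if q ∈ F a then wgt β h η q else 0) := by
    intro a _
    split_ifs
    · exact (wgt_pos _ _ _ _).le
    · exact le_rfl
  by_cases hq : q ∈ E
  · obtain ⟨a, ha, hqa⟩ := hE q hq
    have h1 := Finset.single_le_sum hw ha
    rw [if_pos hqa] at h1
    rw [if_pos hq]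
    exact h1
  · rw [if_neg hq]
    exact Finset.sum_nonneg hw

lemma exists_term58 {ι : Type*} (A : Finset ι) (x : ι → ℝ) {P : ℝ}
    (hP : 0 < P) (h : P ≤ ∑ a ∈ A, x a) : ∃ a ∈ A, P ≤ A.card * x a := by
  have hA : A.Nonempty := by
    rw [Finset.nonempty_iff_ne_empty]
    rintro rfl
    rw [Finset.sum_empty] at h
    linarith
  obtain ⟨a, ha, hmax⟩ := Finset.exists_max_image A x hA
  refine ⟨a, ha, h.trans ?_⟩
  have h1 := Finset.sum_le_card_nsmul A x (x a) hmax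
  rwa [nsmul_eq_mul] at h1

lemma PP_pos58 (β : ℝ) (h : Vec d) (η : Env d) {t : ℕ} {z : Site d} (hz : Rch t z) :
    0 < PP β h η t z := by
  obtain ⟨q, hq⟩ := hz
  exact ZT_pos β h η ⟨q, hq⟩

lemma rch_of_PP58 {β : ℝ} {h : Vec d} {η : Env d} {t : ℕ} {z : Site d}
    (hz : 0 < PP β h η t z) : Rch t z := by
  classical
  by_contra hcon
  have h1 : PP β h η t z = 0 := by
    unfold PP ZT
    refine Finset.sum_eq_zero fun q _ => if_neg ?_
    intro hq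
    exact hcon ⟨q, hq⟩
  rw [h1] at hz
  exact lt_irrefl _ hz

lemma l1_pos_sub58 {t : ℕ} (q : Fin t → Step d) {i j : ℕ} (hij : i ≤ j) :
    l1 (pos q j - pos q i) ≤ j - i := by
  classical
  have h1 : pos q j - pos q i = ∑ l : Fin t, (if i ≤ (l : ℕ) ∧ (l : ℕ) < j then vec (q l) else 0) := by
    unfold pos
    rw [← Finset.sum_sub_distrib]
    refine Finset.sum_congr rfl fun l _ => ?_
    by_cases h2 : (l : ℕ) < i
    · rw [if_pos (by omega), if_pos h2, if_neg (by omega), sub_self]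
    · by_cases h3 : (l : ℕ) < j
      · rw [if_pos h3, if_neg h2, if_pos (by omega), sub_zero]
      · rw [if_neg h3, if_neg h2, if_neg (by omega), sub_zero]
  rw [h1]
  refine (l1_sum_le58 _ _).trans ?_
  have h2 : ∀ l ∈ (Finset.univ : Finset (Fin t)),
      l1 (if i ≤ (l : ℕ) ∧ (l : ℕ) < j then vec (q l) else (0 : Site d)) =
        if i ≤ (l : ℕ) ∧ (l : ℕ) < j then 1 else 0 := by
    intro l _
    split_ifs
    · exact l1_vec58 _
    · exact l1_zero58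
  rw [Finset.sum_congr rfl h2, Finset.sum_boole, Nat.cast_id]
  have h3 : (Finset.univ.filter
      (fun l : Fin t => i ≤ (l : ℕ) ∧ (l : ℕ) < j)).card ≤ (Finset.Ico i j).card := by
    refine Finset.card_le_card_of_injOn (fun l : Fin t => (l : ℕ)) ?_ ?_
    · intro l hl
      have h4 := (Finset.mem_filter.1 hl).2
      exact Finset.mem_coe.2 (Finset.mem_Ico.2 h4)
    · intro a _ b _ hab
      exact Fin.ext hab
  rwa [Nat.card_Ico] at h3

lemma pos_zero58 {t : ℕ} (q : Fin t → Step d) : pos q 0 = 0 := by simp [pos]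

lemma card_boxF58 (d t : ℕ) : (boxF d t).card = (2 * t + 1) ^ d := by
  unfold boxF
  rw [Fintype.card_piFinset, Finset.prod_const, Finset.card_univ, Fintype.card_fin,
    Int.card_Icc]
  congr 1
  omega

/-- The five factor bound: the walk has two blocks with room. -/
theorem five58 (β : ℝ) (h : Vec d) (η : Env d) {t N : ℕ} (hN : 2 ≤ N) (τ : ℕ → ℕ)
    (hτ : Monotone τ) (h0 : τ 0 = 0) (hτN : τ N = t) (k : ℝ) (hk : 0 ≤ k) {z : Site d}
    (hr : Rch t z) (hz : (l1 z : ℝ) < t - (d + 1) * N * k) :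
    ∃ i j : ℕ, i < j ∧ j < N ∧ ∃ y₁ y₂ y₃ y₄ : Site d,
      Rch (τ i) y₁ ∧ Rch (τ (i + 1) - τ i) (y₂ - y₁) ∧ Rch (τ j - τ (i + 1)) (y₃ - y₂) ∧
      Rch (τ (j + 1) - τ j) (y₄ - y₃) ∧ Rch (t - τ (j + 1)) (z - y₄) ∧
      (l1 ((y₂ - y₁) + (y₄ - y₃)) : ℝ) ≤
        ((τ (i + 1) - τ i : ℕ) : ℝ) + ((τ (j + 1) - τ j : ℕ) : ℝ) - k ∧
      PP β h η t z ≤ ((N : ℝ) ^ 2 * ((2 * t + 1 : ℝ) ^ d) ^ 4) *
        (PP β h η (τ i) y₁ * PP β h (sh (τ i) y₁ η) (τ (i + 1) - τ i) (y₂ - y₁) *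
          PP β h (sh (τ (i + 1)) y₂ η) (τ j - τ (i + 1)) (y₃ - y₂) *
          PP β h (sh (τ j) y₃ η) (τ (j + 1) - τ j) (y₄ - y₃) *
          PP β h (sh (τ (j + 1)) y₄ η) (t - τ (j + 1)) (z - y₄)) := by
  classical
  -- the index set
  let B := boxF d t
  let Q : (ℕ × ℕ) × (Site d × Site d × Site d × Site d) → Prop := fun a =>
    a.1.1 < a.1.2 ∧ (l1 ((a.2.2.1 - a.2.1) + (a.2.2.2.2 - a.2.2.2.1)) : ℝ) ≤
      ((τ (a.1.1 + 1) - τ a.1.1 : ℕ) : ℝ) + ((τ (a.1.2 + 1) - τ a.1.2 : ℕ) : ℝ) - k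
  let A := ((Finset.range N ×ˢ Finset.range N) ×ˢ (B ×ˢ B ×ˢ B ×ˢ B)).filter Q
  let F : (ℕ × ℕ) × (Site d × Site d × Site d × Site d) → Set (Fin t → Step d) := fun a =>
    {q | pos q (τ a.1.1) = a.2.1 ∧ pos q (τ (a.1.1 + 1)) = a.2.2.1 ∧
      pos q (τ a.1.2) = a.2.2.2.1 ∧ pos q (τ (a.1.2 + 1)) = a.2.2.2.2 ∧ pos q t = z}
  have hcover : ∀ q ∈ {q : Fin t → Step d | pos q t = z}, ∃ a ∈ A, q ∈ F a := by
    intro q hq
    have hq' : pos q t = z := hq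
    let b : Fin N → Site d := fun i => pos q (τ (i + 1)) - pos q (τ i)
    have hb : ∀ i, l1 (b i) ≤ τ ((i : ℕ) + 1) - τ i := fun i =>
      l1_pos_sub58 q (hτ (Nat.le_succ _))
    have hsum : ∑ i, b i = z := by
      have h1 : ∑ i : Fin N, b i = ∑ i ∈ Finset.range N, (pos q (τ (i + 1)) - pos q (τ i)) :=
        Fin.sum_univ_eq_sum_range (fun i => pos q (τ (i + 1)) - pos q (τ i)) N
      rw [h1, Finset.sum_range_sub (fun i => pos q (τ i)), hτN, h0, pos_zero58, hq', sub_zero]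
    have hs : ∑ i : Fin N, ((τ ((i : ℕ) + 1) - τ i : ℕ) : ℝ) = t := by
      have h1 : ∑ i : Fin N, ((τ ((i : ℕ) + 1) - τ i : ℕ) : ℝ) =
          ∑ i ∈ Finset.range N, ((τ (i + 1) : ℝ) - τ i) := by
        rw [← Fin.sum_univ_eq_sum_range (fun i => ((τ (i + 1) : ℝ) - τ i)) N]
        refine Finset.sum_congr rfl fun i _ => ?_
        rw [Nat.cast_sub (hτ (Nat.le_succ _))]
      rw [h1, Finset.sum_range_sub (fun i => (τ i : ℝ)), hτN, h0, Nat.cast_zero, sub_zero]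
    obtain ⟨i, j, hij, hl⟩ := block_pair58 hN b (fun i => τ ((i : ℕ) + 1) - τ i) k hk hb (by
      rw [hsum, hs]
      exact hz)
    refine ⟨((i, j), (pos q (τ i), pos q (τ (i + 1)), pos q (τ j), pos q (τ (j + 1)))), ?_, ?_⟩
    · refine Finset.mem_filter.2 ⟨?_, ?_⟩
      · simp only [Finset.mem_product, Finset.mem_range]
        exact ⟨⟨i.2, j.2⟩, pos_mem_box q _, pos_mem_box q _, pos_mem_box q _, pos_mem_box q _⟩
      · exact ⟨hij, hl⟩
    · exact ⟨rfl, rfl, rfl, rfl, hq'⟩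
  have h1 := ZT_le_sum58 β h η A {q : Fin t → Step d | pos q t = z} F hcover
  have hP : 0 < PP β h η t z := PP_pos58 β h η hr
  obtain ⟨⟨⟨i, j⟩, y₁, y₂, y₃, y₄⟩, ha, hle⟩ := exists_term58 A _ hP h1
  have ha' := Finset.mem_filter.1 ha
  have hij : i < j := ha'.2.1
  have hl := ha'.2.2
  have hjN : j < N := by
    have h2 := ha'.1
    simp only [Finset.mem_product, Finset.mem_range] at h2
    exact h2.1.2
  have hF : ZT β h η (F ((i, j), y₁, y₂, y₃, y₄)) =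
      PP β h η (τ i) y₁ * PP β h (sh (τ i) y₁ η) (τ (i + 1) - τ i) (y₂ - y₁) *
          PP β h (sh (τ (i + 1)) y₂ η) (τ j - τ (i + 1)) (y₃ - y₂) *
          PP β h (sh (τ j) y₃ η) (τ (j + 1) - τ j) (y₄ - y₃) *
          PP β h (sh (τ (j + 1)) y₄ η) (t - τ (j + 1)) (z - y₄) :=
    ZT_times58 β h η (hτ (Nat.le_succ i)) (hτ hij) (hτ (Nat.le_succ j))
      (by rw [← hτN]; exact hτ hjN) y₁ y₂ y₃ y₄ z
  have hcard : (A.card : ℝ) ≤ (N : ℝ) ^ 2 * ((2 * t + 1 : ℝ) ^ d) ^ 4 := by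
    have h2 : A.card ≤ N ^ 2 * ((2 * t + 1) ^ d) ^ 4 := by
      refine (Finset.card_filter_le _ _).trans (le_of_eq ?_)
      have h3 : B.card = (2 * t + 1) ^ d := card_boxF58 d t
      rw [Finset.card_product, Finset.card_product, Finset.card_product, Finset.card_product,
        Finset.card_product, Finset.card_range, h3]
      ring
    exact_mod_cast h2
  rw [hF] at hle
  have hprod : 0 ≤ PP β h η (τ i) y₁ * PP β h (sh (τ i) y₁ η) (τ (i + 1) - τ i) (y₂ - y₁) *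
          PP β h (sh (τ (i + 1)) y₂ η) (τ j - τ (i + 1)) (y₃ - y₂) *
          PP β h (sh (τ j) y₃ η) (τ (j + 1) - τ j) (y₄ - y₃) *
          PP β h (sh (τ (j + 1)) y₄ η) (t - τ (j + 1)) (z - y₄) := by
    rw [← hF]
    exact ZT_nonneg _ _ _ _
  have hfin := hle.trans (mul_le_mul_of_nonneg_right hcard hprod)
  -- all factors are positive
  have hne : PP β h η (τ i) y₁ * PP β h (sh (τ i) y₁ η) (τ (i + 1) - τ i) (y₂ - y₁) *
          PP β h (sh (τ (i + 1)) y₂ η) (τ j - τ (i + 1)) (y₃ - y₂) *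
          PP β h (sh (τ j) y₃ η) (τ (j + 1) - τ j) (y₄ - y₃) *
          PP β h (sh (τ (j + 1)) y₄ η) (t - τ (j + 1)) (z - y₄) ≠ 0 := by
    intro h2
    rw [h2, mul_zero] at hle
    exact absurd hle (not_le.2 hP)
  have n4 := left_ne_zero_of_mul hne
  have n3 := left_ne_zero_of_mul n4
  have n2 := left_ne_zero_of_mul n3
  have r1 := left_ne_zero_of_mul n2
  have r2 := right_ne_zero_of_mul n2
  have r3 := right_ne_zero_of_mul n3
  have r4 := right_ne_zero_of_mul n4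
  have r5 := right_ne_zero_of_mul hne
  exact ⟨i, j, hij, hjN, y₁, y₂, y₃, y₄,
    rch_of_PP58 (lt_of_le_of_ne (PP_nonneg _ _ _ _ _) (Ne.symm r1)),
    rch_of_PP58 (lt_of_le_of_ne (PP_nonneg _ _ _ _ _) (Ne.symm r2)),
    rch_of_PP58 (lt_of_le_of_ne (PP_nonneg _ _ _ _ _) (Ne.symm r3)),
    rch_of_PP58 (lt_of_le_of_ne (PP_nonneg _ _ _ _ _) (Ne.symm r4)),
    rch_of_PP58 (lt_of_le_of_ne (PP_nonneg _ _ _ _ _) (Ne.symm r5)), hl, hfin⟩

end Pool.Agent.W_7d29a1_V
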