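import Pool.Agent.W_7d29a1_V.DefsV2

/-!
Reachable sites, the `ℓ¹` norm and the point to point partition function.
-/

namespace Pool.Agent.W_7d29a1_V.R48

open MeasureTheory ProbabilityTheory Filter Topology Pool.Agent.W_MP_7d29a1_pr
  Pool.Agent.W_7d29a1_h46 Pool.Agent.W_7d29a1_h46u Pool.Agent.W_7d29a1_D2
  Pool.Agent.W_7d29a1_D2.B35 Pool.Agent.W_7d29a1_V

variable {d : ℕ}

/-! ### The `ℓ¹` norm -/

lemma l1_zero : l1 (0 : Site d) = 0 := by simp [l1]

lemma l1_neg (z : Site d) : l1 (-z) = l1 z := by simp [l1]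

lemma l1_add_le (z w : Site d) : l1 (z + w) ≤ l1 z + l1 w := by
  unfold l1
  rw [← Finset.sum_add_distrib]
  exact Finset.sum_le_sum fun i _ => Int.natAbs_add_le _ _

lemma l1_sub_le (z w : Site d) : l1 (z - w) ≤ l1 z + l1 w := by
  rw [sub_eq_add_neg]
  have := l1_add_le z (-w)
  rwa [l1_neg] at this

lemma l1_sub_comm (z w : Site d) : l1 (z - w) = l1 (w - z) := by
  rw [← l1_neg, neg_sub]

lemma l1_le_add (z w : Site d) : l1 z ≤ l1 w + l1 (z - w) := by
  have := l1_add_le w (z - w)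
  rwa [add_sub_cancel] at this

lemma l1_eq_zero {z : Site d} : l1 z = 0 ↔ z = 0 := by
  constructor
  · intro h
    ext i
    have h1 : (z i).natAbs ≤ l1 z :=
      Finset.single_le_sum (f := fun i => (z i).natAbs) (fun _ _ => Nat.zero_le _)
        (Finset.mem_univ i)
    rw [h] at h1
    show z i = 0
    omega
  · rintro rfl
    exact l1_zero

lemma natAbs_le_l1 (z : Site d) (i : Fin d) : (z i).natAbs ≤ l1 z :=
  Finset.single_le_sum (f := fun i => (z i).natAbs) (fun _ _ => Nat.zero_le _)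
    (Finset.mem_univ i)

lemma abs_le_l1 (z : Site d) (i : Fin d) : |z i| ≤ (l1 z : ℤ) := by
  have := natAbs_le_l1 z i
  rw [Int.abs_eq_natAbs]
  exact_mod_cast this

lemma l1_update (z : Site d) (i : Fin d) (c : ℤ) :
    l1 (z + Pi.single i c) + (z i).natAbs = l1 z + (z i + c).natAbs := by
  have e1 := Finset.add_sum_erase (Finset.univ : Finset (Fin d))
    (fun j => ((z + Pi.single i c : Site d) j).natAbs) (Finset.mem_univ i)
  have e2 := Finset.add_sum_erase (Finset.univ : Finset (Fin d))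
    (fun j => (z j).natAbs) (Finset.mem_univ i)
  have h1 : ∑ j ∈ (Finset.univ : Finset (Fin d)).erase i, ((z + Pi.single i c : Site d) j).natAbs =
      ∑ j ∈ (Finset.univ : Finset (Fin d)).erase i, (z j).natAbs := by
    refine Finset.sum_congr rfl fun j hj => ?_
    have hj' : j ≠ i := Finset.ne_of_mem_erase hj
    rw [Pi.add_apply, Pi.single_eq_of_ne hj', add_zero]
  have h2 : (z + Pi.single i c : Site d) i = z i + c := by
    rw [Pi.add_apply, Pi.single_eq_same]
  simp only [h2] at e1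
  rw [h1] at e1
  unfold l1
  omega

lemma l1_single (i : Fin d) (c : ℤ) : l1 (Pi.single i c : Site d) = c.natAbs := by
  have := l1_update (0 : Site d) i c
  rw [zero_add, l1_zero] at this
  simpa using this

lemma l1_vec (e : Step d) : l1 (vec e) = 1 := by
  unfold vec
  rw [l1_single]
  split_ifs <;> rfl

lemma cast_l1 (z : Site d) : ((l1 z : ℕ) : ZMod 2) = ∑ i, ((z i : ℤ) : ZMod 2) := by
  unfold l1
  rw [Nat.cast_sum]
  refine Finset.sum_congr rfl fun i _ => ?_
  rcases Int.natAbs_eq (z i) with h | h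
  · conv_rhs => rw [h]
    rw [Int.cast_natCast]
  · conv_rhs => rw [h]
    rw [Int.cast_neg, Int.cast_natCast, ZMod.neg_eq_self_mod_two]

lemma even_iff_cast (n : ℕ) : Even n ↔ ((n : ℕ) : ZMod 2) = 0 :=
  (ZMod.natCast_eq_zero_iff_even).symm

/-- The parity of the `ℓ¹` norm is additive. -/
lemma even_l1_add (z w : Site d) : Even (l1 (z + w)) ↔ Even (l1 z + l1 w) := by
  rw [even_iff_cast, even_iff_cast, Nat.cast_add, cast_l1, cast_l1, cast_l1,
    ← Finset.sum_add_distrib]
  simp only [Pi.add_apply, Int.cast_add]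

lemma even_l1_sub (z w : Site d) : Even (l1 (z - w)) ↔ Even (l1 z + l1 w) := by
  rw [sub_eq_add_neg, even_l1_add, l1_neg]

lemma exists_step {z : Site d} (hz : l1 z ≠ 0) : ∃ e : Step d, l1 (z - vec e) + 1 = l1 z := by
  have h0 : z ≠ 0 := fun h => hz (l1_eq_zero.2 h)
  obtain ⟨i, hi⟩ : ∃ i, z i ≠ 0 := by
    by_contra hc
    push Not at hc
    exact h0 (funext hc)
  rcases lt_or_gt_of_ne hi with h | h
  · refine ⟨(i, false), ?_⟩
    have h1 : z - vec (i, false) = z + Pi.single i (1 : ℤ) := by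
      unfold vec
      rw [sub_eq_add_neg, ← Pi.single_neg]
      simp
    rw [h1]
    have := l1_update z i 1
    omega
  · refine ⟨(i, true), ?_⟩
    have h1 : z - vec (i, true) = z + Pi.single i (-1 : ℤ) := by
      unfold vec
      rw [sub_eq_add_neg, ← Pi.single_neg]
      simp
    rw [h1]
    have := l1_update z i (-1)
    omega

/-! ### Reachable sites -/

lemma pos_one (e : Step d) : pos (fun _ : Fin 1 => e) 1 = vec e := by
  simp [pos]

lemma rch_zero {z : Site d} : Rch 0 z ↔ z = 0 := by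
  constructor
  · rintro ⟨q, rfl⟩
    simp [pos]
  · rintro rfl
    exact ⟨fun i => i.elim0, by simp [pos]⟩

lemma rch_add {s t : ℕ} {z : Site d} : Rch (s + t) z ↔ ∃ x, Rch s x ∧ Rch t (z - x) := by
  constructor
  · rintro ⟨q, rfl⟩
    obtain ⟨⟨a, b⟩, rfl⟩ := (Fin.appendEquiv s t).surjective q
    refine ⟨pos a s, ⟨a, rfl⟩, ⟨b, ?_⟩⟩
    change pos b t = pos (Fin.append a b) (s + t) - pos a s
    rw [pos_glue_add, add_sub_cancel_left]
  · rintro ⟨x, ⟨a, ha⟩, ⟨b, hb⟩⟩
    refine ⟨Fin.append a b, ?_⟩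
    rw [pos_glue_add, ha, hb, add_sub_cancel]

lemma rch_one {z : Site d} : Rch 1 z ↔ ∃ e : Step d, z = vec e := by
  constructor
  · rintro ⟨q, rfl⟩
    exact ⟨q 0, by simp [pos]⟩
  · rintro ⟨e, rfl⟩
    exact ⟨fun _ => e, pos_one e⟩

lemma rch_succ {s : ℕ} {z : Site d} : Rch (s + 1) z ↔ ∃ e : Step d, Rch s (z - vec e) := by
  constructor
  · intro h
    obtain ⟨x, hx, hy⟩ := rch_add.1 h
    obtain ⟨e, he⟩ := rch_one.1 hy
    refine ⟨e, ?_⟩
    rwa [← he, sub_sub_cancel]
  · rintro ⟨e, he⟩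
    refine rch_add.2 ⟨z - vec e, he, rch_one.2 ⟨e, ?_⟩⟩
    rw [sub_sub_cancel]

lemma rch_l1 {s : ℕ} {z : Site d} (h : Rch s z) : l1 z ≤ s ∧ Even (s + l1 z) := by
  induction s generalizing z with
  | zero =>
    rw [rch_zero] at h
    subst h
    rw [l1_zero]
    exact ⟨le_rfl, by simp⟩
  | succ s ih =>
    obtain ⟨e, he⟩ := rch_succ.1 h
    obtain ⟨h1, h2⟩ := ih he
    have h3 := l1_le_add z (vec e)
    rw [l1_vec] at h3
    have h4 : Even (l1 z) ↔ Even (l1 (z - vec e) + 1) := by
      have := even_l1_add (z - vec e) (vec e)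
      rwa [sub_add_cancel, l1_vec] at this
    refine ⟨by omega, ?_⟩
    rw [Nat.even_add] at h2 ⊢
    rw [h4, Nat.even_add_one, Nat.even_add_one, h2]

/-- The sites reachable in `s` steps. -/
theorem rch_iff (hd : 0 < d) {s : ℕ} {z : Site d} : Rch s z ↔ l1 z ≤ s ∧ Even (s + l1 z) := by
  refine ⟨rch_l1, ?_⟩
  induction s generalizing z with
  | zero =>
    rintro ⟨h, -⟩
    exact rch_zero.2 (l1_eq_zero.1 (by omega))
  | succ s ih =>
    rintro ⟨h1, h2⟩
    rw [rch_succ]
    by_cases hz : l1 z = 0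
    · have hz0 : z = 0 := l1_eq_zero.1 hz
      refine ⟨(⟨0, hd⟩, true), ih ?_⟩
      rw [hz0, zero_sub, l1_neg, l1_vec]
      rw [hz, add_zero] at h2
      refine ⟨?_, h2⟩
      rcases Nat.eq_zero_or_pos s with rfl | hs
      · exact absurd h2 (by decide)
      · exact hs
    · obtain ⟨e, he⟩ := exists_step hz
      refine ⟨e, ih ⟨by omega, ?_⟩⟩
      rw [← he] at h2
      have : s + 1 + (l1 (z - vec e) + 1) = s + l1 (z - vec e) + 2 := by ring
      rw [this, Nat.even_add] at h2
      exact h2.2 (by decide)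

/-- An even shift inside the cone. -/
lemma rch_shift (hd : 0 < d) {s : ℕ} {z w : Site d} (hz : Rch s z) (hw : l1 w ≤ s)
    (he : Even (l1 (w - z))) : Rch s w := by
  rw [rch_iff hd]
  refine ⟨hw, ?_⟩
  have h1 := (rch_l1 hz).2
  rw [even_l1_sub] at he
  rw [Nat.even_add] at h1 he ⊢
  rw [h1, he]

lemma rch_neg (hd : 0 < d) {s : ℕ} {z : Site d} (hz : Rch s z) : Rch s (-z) := by
  rw [rch_iff hd, l1_neg]
  exact (rch_l1 hz)

lemma rch_add_two (hd : 0 < d) {s k : ℕ} {z : Site d} (hz : Rch s z) : Rch (s + 2 * k) z := by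
  obtain ⟨h1, h2⟩ := (rch_l1 hz)
  rw [rch_iff hd]
  refine ⟨by omega, ?_⟩
  have : s + 2 * k + l1 z = s + l1 z + 2 * k := by ring
  rw [this]
  exact h2.add (even_two_mul k)

/-- Two displacements of length `s` may be changed into two others with the sum moved by an even
vector, as long as the sum stays in the cone. -/
lemma rch_two {s : ℕ} {c : Site d} (hd : 0 < d) (h1 : l1 c ≤ 2 * s) (h2 : Even (l1 c)) :
    ∃ b b' : Site d, Rch s b ∧ Rch s b' ∧ b + b' = c := by
  have h : Rch (s + s) c := by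
    rw [rch_iff hd]
    refine ⟨by omega, ?_⟩
    rw [← two_mul]
    exact (even_two_mul s).add h2
  obtain ⟨x, hx, hy⟩ := rch_add.1 h
  exact ⟨x, c - x, hx, hy, add_sub_cancel x c⟩

lemma rch_mem {s : ℕ} {z : Site d} (hz : Rch s z) : z ∈ boxF d s := by
  obtain ⟨q, rfl⟩ := hz
  exact pos_mem_box q s

/-! ### The point to point partition function -/

lemma PP_pos {β : ℝ} {h : Vec d} {η : Env d} {s : ℕ} {z : Site d} (hz : Rch s z) :
    0 < PP β h η s z := by
  classical
  obtain ⟨q, hq⟩ := hz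
  unfold PP ZT
  refine Finset.sum_pos' (fun r _ => ?_) ⟨q, Finset.mem_univ q, ?_⟩
  · split_ifs
    · exact (wgt_pos _ _ _ _).le
    · exact le_rfl
  · rw [if_pos (show q ∈ {r : Fin s → Step d | pos r s = z} from hq)]
    exact wgt_pos _ _ _ _

lemma PP_eq_zero {β : ℝ} {h : Vec d} {η : Env d} {s : ℕ} {z : Site d} (hz : ¬ Rch s z) :
    PP β h η s z = 0 := by
  classical
  unfold PP ZT
  refine Finset.sum_eq_zero fun q _ => if_neg fun hq => hz ⟨q, hq⟩

lemma PP_pos_iff {β : ℝ} {h : Vec d} {η : Env d} {s : ℕ} {z : Site d} :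
    0 < PP β h η s z ↔ Rch s z := by
  refine ⟨fun hp => ?_, PP_pos⟩
  by_contra hz
  rw [PP_eq_zero hz] at hp
  exact lt_irrefl _ hp

/-- Chapman - Kolmogorov. -/
lemma PP_add (β : ℝ) (h : Vec d) (η : Env d) (s t : ℕ) (z : Site d) :
    PP β h η (s + t) z = ∑ x ∈ boxF d s, PP β h η s x * PP β h (sh s x η) t (z - x) := by
  classical
  have h1 : ∀ x ∈ boxF d s, PP β h η s x * PP β h (sh s x η) t (z - x) =
      ∑ a : Fin s → Step d, ∑ b : Fin t → Step d,
        (if pos a s = x then (if pos a s + pos b t = z then wgt β h η (Fin.append a b) else 0)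
          else 0) := by
    intro x _
    unfold PP ZT
    rw [Finset.sum_mul_sum]
    refine Finset.sum_congr rfl fun a _ => Finset.sum_congr rfl fun b _ => ?_
    by_cases ha : pos a s = x
    · rw [if_pos (show a ∈ {r : Fin s → Step d | pos r s = x} from ha), if_pos ha]
      by_cases hb : pos b t = z - x
      · rw [if_pos (show b ∈ {r : Fin t → Step d | pos r t = z - x} from hb),
          if_pos (by rw [ha, hb, add_sub_cancel]), wgt_glue, ha]
      · rw [if_neg (show b ∉ {r : Fin t → Step d | pos r t = z - x} from hb), mul_zero,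
          if_neg (fun h => hb (by rw [← h, ha, add_sub_cancel_left]))]
    · rw [if_neg (show a ∉ {r : Fin s → Step d | pos r s = x} from ha), zero_mul, if_neg ha]
  rw [Finset.sum_congr rfl h1, Finset.sum_comm]
  unfold PP ZT
  rw [sum_glue]
  refine Finset.sum_congr rfl fun a _ => ?_
  rw [Finset.sum_comm]
  refine Finset.sum_congr rfl fun b _ => ?_
  rw [Finset.sum_ite_eq, if_pos (pos_mem_box a s)]
  have h2 : (Fin.append a b ∈ {r : Fin (s + t) → Step d | pos r (s + t) = z}) ↔
      pos a s + pos b t = z := by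
    rw [← pos_glue_add]
    rfl
  by_cases hz : pos a s + pos b t = z
  · rw [if_pos (h2.2 hz), if_pos hz]
  · rw [if_neg (fun h => hz (h2.1 h)), if_neg hz]

/-- Splitting of a free partition function. -/
lemma Z_add_PP (β : ℝ) (h : Vec d) (η : Env d) (s t : ℕ) :
    Z β h η (s + t) = ∑ x ∈ boxF d s, PP β h η s x * Z β h (sh s x η) t := by
  classical
  rw [Z_add]
  have h1 : ∀ x ∈ boxF d s, PP β h η s x * Z β h (sh s x η) t =
      ∑ a : Fin s → Step d, if pos a s = x then wgt β h η a * Z β h (sh s (pos a s) η) t else 0 := by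
    intro x _
    unfold PP ZT
    rw [Finset.sum_mul]
    refine Finset.sum_congr rfl fun a _ => ?_
    by_cases ha : pos a s = x
    · rw [if_pos (show a ∈ {r : Fin s → Step d | pos r s = x} from ha), if_pos ha, ha]
    · rw [if_neg (show a ∉ {r : Fin s → Step d | pos r s = x} from ha), zero_mul, if_neg ha]
  rw [Finset.sum_congr rfl h1, Finset.sum_comm]
  refine Finset.sum_congr rfl fun a _ => ?_
  rw [Finset.sum_ite_eq, if_pos (pos_mem_box a s)]

/-- The point to point partition function vanishes outside the box. -/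
lemma PP_eq_zero_of_notMem {β : ℝ} {h : Vec d} {η : Env d} {s : ℕ} {z : Site d}
    (hz : z ∉ boxF d s) : PP β h η s z = 0 :=
  PP_eq_zero fun hr => hz (rch_mem hr)

lemma PP_zero (β : ℝ) (h : Vec d) (η : Env d) : PP β h η 0 0 = 1 := by
  have h1 := Z_eq_sum β h η 0
  rw [Z_zero] at h1
  have h2 : boxF d 0 = {0} := by
    ext x
    rw [mem_boxF, Finset.mem_singleton]
    constructor
    · intro hx
      ext i
      have := hx i
      simp only [Nat.cast_zero, abs_nonpos_iff] at this
      exact this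
    · rintro rfl i
      simp
  rw [h2, Finset.sum_singleton] at h1
  exact h1.symm

lemma sh_sh (t t' : ℕ) (x x' : Site d) (η : Env d) :
    sh t' x' (sh t x η) = sh (t + t') (x + x') η := by
  funext p
  unfold sh
  simp only
  congr 2
  · ring
  · rw [add_comm x x', add_assoc]

end Pool.Agent.W_7d29a1_V.R48
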