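import Pool.Agent.W_7d29a1_V.DimP33

/-!
The exceptional tilts for exponents which are bounded by the order of the upper expansion.
-/

namespace Pool.Agent.W_7d29a1_V.DimP33

open MeasureTheory Filter Topology Set Metric
open Pool.Agent.W_7d29a1_h46 Pool.Agent.W_7d29a1_h46u Pool.Agent.W_7d29a1_D2
open scoped ENNReal NNReal

variable {d : ℕ}

/-- If an upper expansion of order `p` of `L` at `h` with slope `v` gives `nu h v ≤ 2 / (p + 1)` and
`chi h ≤ 1 / (p + 1)`, then outside of a set of dimension `d - 3 + 2 / a` one has `nu h v ≤ a` and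
`chi h ≤ a / 2`. -/
theorem dimN33 (hd : 0 < d) {L : Vec d → ℝ} (hL : ConvexOn ℝ univ L) {K : ℝ}
    (hK : ∀ x y, |L x - L y| ≤ K * ‖x - y‖) {nu : Vec d → Vec d → ℝ} {chi : Vec d → ℝ}
    (hAE : ∀ p : ℝ, 1 < p → ∀ h v : Vec d, (∀ k, L h + inner ℝ v (k - h) ≤ L k) →
      UpG L h v p → nu h v ≤ 2 / (p + 1) ∧ chi h ≤ 1 / (p + 1)) {a : ℝ} (ha : 0 < a) (ha1 : a < 1) :
    dimH {h : Vec d | ¬ ∃ v : Vec d, nu h v ≤ a ∧ chi h ≤ a / 2} ≤
      ENNReal.ofReal ((d : ℝ) - 3 + 2 / a) := by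
  have hp : 1 < 2 / a - 1 := by
    have : 2 < 2 / a := by
      rw [lt_div_iff₀ ha]
      linarith
    linarith
  have h1 := dimP33 hd hL hK hp
  have e1 : (d : ℝ) - 2 + (2 / a - 1) = (d : ℝ) - 3 + 2 / a := by ring
  rw [e1] at h1
  refine le_trans (dimH_mono ?_) h1
  rintro h hh ⟨v, hv, hU⟩
  obtain ⟨h2, h3⟩ := hAE _ hp h v hv hU
  refine hh ⟨v, ?_, ?_⟩
  · refine h2.trans (le_of_eq ?_)
    field_simp
    ring
  · refine h3.trans (le_of_eq ?_)
    field_simp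
    ring

/-- Outside of a set of tilts of dimension `d - 1` the exponents are smaller than `1` and
`1 / 2`. -/
theorem dimN33_one (hd : 0 < d) {L : Vec d → ℝ} (hL : ConvexOn ℝ univ L) {K : ℝ}
    (hK : ∀ x y, |L x - L y| ≤ K * ‖x - y‖) {nu : Vec d → Vec d → ℝ} {chi : Vec d → ℝ}
    (hAE : ∀ p : ℝ, 1 < p → ∀ h v : Vec d, (∀ k, L h + inner ℝ v (k - h) ≤ L k) →
      UpG L h v p → nu h v ≤ 2 / (p + 1) ∧ chi h ≤ 1 / (p + 1)) :
    dimH {h : Vec d | ¬ ∃ v : Vec d, nu h v < 1 ∧ chi h < 1 / 2} ≤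
      ENNReal.ofReal ((d : ℝ) - 1) := by
  have hd1 : (1 : ℝ) ≤ d := by exact_mod_cast hd
  refine le_of_forall_gt_imp_ge_of_dense fun b hb => ?_
  obtain ⟨s, hs1, hs2⟩ := ENNReal.lt_iff_exists_nnreal_btwn.1 hb
  have hs : (d : ℝ) - 1 < (s : ℝ) := by
    rw [← ENNReal.ofReal_coe_nnreal] at hs1
    exact (ENNReal.ofReal_lt_ofReal_iff_of_nonneg (by linarith)).1 hs1
  refine le_trans ?_ hs2.le
  set a : ℝ := 2 / (2 + ((s : ℝ) - (d - 1))) with ha
  have hpos : (0 : ℝ) < 2 + ((s : ℝ) - (d - 1)) := by linarith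
  have ha0 : 0 < a := by positivity
  have ha1 : a < 1 := by
    rw [ha, div_lt_one hpos]
    linarith
  have h1 := dimN33 hd hL hK hAE ha0 ha1
  have e : (d : ℝ) - 3 + 2 / a = s := by
    rw [ha]
    field_simp
    ring
  rw [e, ENNReal.ofReal_coe_nnreal] at h1
  refine le_trans (dimH_mono ?_) h1
  rintro h hh ⟨v, h2, h3⟩
  exact hh ⟨v, h2.trans_lt ha1, by linarith⟩

end Pool.Agent.W_7d29a1_V.DimP33
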