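import Pool.Agent.W_7d29a1_V.AeS70
import Pool.Agent.W_7d29a1_V.DimN33

/-!
**The exceptional tilts**: outside of a set of tilts of Hausdorff dimension `d - 3 + 2 / a` the
wandering exponent is at most `a` and the fluctuation exponent is at most `a / 2`.
-/

namespace Pool.Agent.W_7d29a1_V

open MeasureTheory ProbabilityTheory Filter Topology Set Pool.Agent.W_MP_7d29a1_pr
  Pool.Agent.W_7d29a1_h46 Pool.Agent.W_7d29a1_h46u Pool.Agent.W_7d29a1_D2
open scoped ENNReal NNReal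

/-- The Lipschitz bound of the free energy. -/
theorem lam_lip33 {d : ℕ} {ρ : Measure ℝ} [IsProbabilityMeasure ρ] (hd : 0 < d) (hρ : EM ρ) (β : ℝ)
    (x y : Vec d) : |lam ρ β x - lam ρ β y| ≤ 1 * ‖x - y‖ := by
  have key : ∀ h r : Vec d, lam ρ β (h + r) ≤ lam ρ β h + ‖r‖ := by
    intro h r
    have h1 : ∀ n : ℕ, A ρ β (h + r) n ≤ A ρ β h n + ‖r‖ * n := by
      intro n
      unfold A
      have e1 := (concU hd hρ β (h + r) n).1
      have e2 := (concU hd hρ β h n).1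
      have e3 : ∫ η, X β (h + r) η n ∂(law d ρ) ≤ ∫ η, (X β h η n + ‖r‖ * n) ∂(law d ρ) :=
        integral_mono e1 (e2.add (integrable_const _)) fun η => X_tilt hd β h r η n
      rw [integral_add e2 (integrable_const _), integral_const] at e3
      simpa using e3
    refine LamU_le ρ β (h + r) fun n => ?_
    have h2 := A_le_lam hd hρ β h (n + 1)
    have h3 := h1 (n + 1)
    push_cast at h2 h3
    nlinarith
  have h1 := key x (y - x)
  have h2 := key y (x - y)
  rw [add_sub_cancel] at h1 h2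
  rw [norm_sub_rev] at h1
  rw [abs_le]
  constructor <;> linarith

section
variable {d : ℕ} {Ω : Type*} [MeasurableSpace Ω] {μ : Measure Ω} [IsProbabilityMeasure μ]
  {ρ : Measure ℝ} [IsProbabilityMeasure ρ] {ω : ℕ × Site d → Ω → ℝ} {β : ℝ}

/-- The hypothesis of `dimN33` for the exponents of the polymer. -/
theorem hAE33 (hd : 0 < d) (hω : IID μ ρ ω) (hρ : EM ρ) (hS : ∀ R : ℝ, SpaceV d ρ β R) (p : ℝ)
    (hp : 1 < p) (h v : Vec d) (hv : ∀ k, lam ρ β h + inner ℝ v (k - h) ≤ lam ρ β k)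
    (hU : UpG (lam ρ β) h v p) :
    nuS μ β ω h v ≤ 2 / (p + 1) ∧ chiF μ β ω h ≤ 1 / (p + 1) := by
  refine aeS70 hd hω hρ hp (hS _) (fun k => ?_) hU
  have := hv (h + k)
  rwa [add_sub_cancel_left] at this

/-- **The exceptional tilts, every dimension.** -/
theorem dimF33 (hd : 0 < d) (hω : IID μ ρ ω) (hρ : EM ρ) (hS : ∀ R : ℝ, SpaceV d ρ β R) {a : ℝ}
    (ha : 0 < a) (ha1 : a < 1) :
    dimH {h : Vec d | ¬ ∃ v : Vec d, nuS μ β ω h v ≤ a ∧ chiF μ β ω h ≤ a / 2} ≤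
      ENNReal.ofReal ((d : ℝ) - 3 + 2 / a) :=
  DimP33.dimN33 hd (lam_convex hd hρ β) (lam_lip33 hd hρ β)
    (fun p hp h v hv hU => hAE33 hd hω hρ hS p hp h v hv hU) ha ha1

/-- **The exceptional tilts, every dimension**: the exponents are smaller than `1` and `1 / 2`
outside of a set of tilts of dimension `d - 1`. -/
theorem dimF33_one (hd : 0 < d) (hω : IID μ ρ ω) (hρ : EM ρ) (hS : ∀ R : ℝ, SpaceV d ρ β R) :
    dimH {h : Vec d | ¬ ∃ v : Vec d, nuS μ β ω h v < 1 ∧ chiF μ β ω h < 1 / 2} ≤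
      ENNReal.ofReal ((d : ℝ) - 1) :=
  DimP33.dimN33_one hd (lam_convex hd hρ β) (lam_lip33 hd hρ β)
    (fun p hp h v hv hU => hAE33 hd hω hρ hS p hp h v hv hU)

end

end Pool.Agent.W_7d29a1_V
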