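import Pool.Agent.W_7d29a1_V.DefsA70
import Pool.Agent.W_7d29a1_D2.TrF53
import Pool.Agent.W_7d29a1_D2.Gam46

/-!
The fixed point of the bootstrap: `ν* ≤ 2 / (p + 1)` and `χ ≤ 1 / (p + 1)` at a tilt `h` with slope
`v` and `lam (h + r) ≤ lam h + ⟨v, r⟩ + C ‖r‖ ^ p`.
-/

namespace Pool.Agent.W_7d29a1_V

open MeasureTheory ProbabilityTheory Filter Topology Pool.Agent.W_MP_7d29a1_pr
  Pool.Agent.W_7d29a1_h46 Pool.Agent.W_7d29a1_h46u Pool.Agent.W_7d29a1_D2

variable {d : ℕ} {ρ : Measure ℝ} [IsProbabilityMeasure ρ] {β : ℝ}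

/-- The distance to the fixed point contracts by the factor `(p - 1) / (2 p)`. -/
lemma aX_half {p : ℝ} (hp : 1 < p) (x : ℝ) :
    aX p x / 2 - 1 / (p + 1) = (p - 1) / (2 * p) * (x - 1 / (p + 1)) := by
  have hp0 : p ≠ 0 := by linarith
  have hp1 : p + 1 ≠ 0 := by linarith
  unfold aX
  field_simp
  ring

/-- The orbit of `1 / 2` under `x ↦ aX p x / 2`. -/
noncomputable def orb (p : ℝ) : ℕ → ℝ
  | 0 => 1 / 2
  | k + 1 => aX p (orb p k) / 2

lemma orb_eq {p : ℝ} (hp : 1 < p) (k : ℕ) :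
    orb p k - 1 / (p + 1) = ((p - 1) / (2 * p)) ^ k * (1 / 2 - 1 / (p + 1)) := by
  induction k with
  | zero => simp [orb]
  | succ k ih =>
    show aX p (orb p k) / 2 - 1 / (p + 1) = _
    rw [aX_half hp, ih, pow_succ]
    ring

lemma orb_mem {p : ℝ} (hp : 1 < p) (k : ℕ) : 1 / (p + 1) ≤ orb p k ∧ orb p k ≤ 1 / 2 := by
  have h1 := orb_eq hp k
  have hp0 : 0 < p := by linarith
  have h2 : 0 ≤ (p - 1) / (2 * p) := by
    have : 0 ≤ p - 1 := by linarith
    positivity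
  have h3 : (p - 1) / (2 * p) ≤ 1 := by
    rw [div_le_one (by positivity)]
    linarith
  have h4 : 0 ≤ 1 / 2 - 1 / (p + 1) := by
    rw [sub_nonneg]
    exact one_div_le_one_div_of_le (by norm_num) (by linarith)
  have h5 : ((p - 1) / (2 * p)) ^ k ≤ 1 := pow_le_one₀ h2 h3
  have h6 : 0 ≤ ((p - 1) / (2 * p)) ^ k := pow_nonneg h2 k
  constructor
  · nlinarith
  · nlinarith

lemma orb_lim {p : ℝ} (hp : 1 < p) {x : ℝ} (hx : 1 / (p + 1) < x) : ∃ k, orb p k ≤ x := by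
  have hp0 : 0 < p := by linarith
  have h2 : 0 ≤ (p - 1) / (2 * p) := by
    have : 0 ≤ p - 1 := by linarith
    positivity
  have h3 : (p - 1) / (2 * p) < 1 := by
    rw [div_lt_one (by positivity)]
    linarith
  obtain ⟨k, hk⟩ := exists_pow_lt_of_lt_one (sub_pos.2 hx) h3
  refine ⟨k, ?_⟩
  have h1 := orb_eq hp k
  have h4 : 0 ≤ 1 / 2 - 1 / (p + 1) := by
    rw [sub_nonneg]
    exact one_div_le_one_div_of_le (by norm_num) (by linarith)
  have h4' : 1 / 2 - 1 / (p + 1) ≤ 1 := by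
    have : 0 < 1 / (p + 1) := by positivity
    linarith
  have h6 : 0 ≤ ((p - 1) / (2 * p)) ^ k := pow_nonneg h2 k
  nlinarith

omit [IsProbabilityMeasure ρ] in
/-- Larger exponents are easier. -/
lemma flM_mono {h : Vec d} {p x y : ℝ} (hxy : x ≤ y) (H : FlM ρ β h p x) : FlM ρ β h p y := by
  intro e he q
  obtain ⟨r, hr, C, hC⟩ := H e he q
  refine ⟨r, hr, |C|, fun h' hh' n hn => (hC h' hh' n hn).trans ?_⟩
  have hn1 : (1 : ℝ) ≤ n := by exact_mod_cast hn
  have h1 : (n : ℝ) ^ x ≤ (n : ℝ) ^ y := Real.rpow_le_rpow_of_exponent_le hn1 hxy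
  have h2 : 0 ≤ (n : ℝ) ^ e * ((n : ℝ) ^ x + Real.sqrt (n * ‖h' - h‖ ^ (p - 1))) := by positivity
  have h3 : (n : ℝ) ^ e * ((n : ℝ) ^ x + Real.sqrt (n * ‖h' - h‖ ^ (p - 1))) ≤
      (n : ℝ) ^ e * ((n : ℝ) ^ y + Real.sqrt (n * ‖h' - h‖ ^ (p - 1))) :=
    mul_le_mul_of_nonneg_left (by linarith) (by positivity)
  exact (mul_le_mul_of_nonneg_right (le_abs_self C) (pow_nonneg h2 q)).trans
    (mul_le_mul_of_nonneg_left (pow_le_pow_left₀ h2 h3 q) (abs_nonneg C))

omit [IsProbabilityMeasure ρ] in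
/-- The fixed point. -/
theorem flM_all {h : Vec d} {p : ℝ} (hp : 1 < p) (h0 : FlM ρ β h p (1 / 2))
    (hS : ∀ x : ℝ, 1 / (p + 1) ≤ x → x ≤ 1 / 2 → FlM ρ β h p x → FlM ρ β h p (aX p x / 2))
    {x : ℝ} (hx : 1 / (p + 1) < x) : FlM ρ β h p x := by
  have h1 : ∀ k, FlM ρ β h p (orb p k) := by
    intro k
    induction k with
    | zero => exact h0
    | succ k ih => exact hS _ (orb_mem hp k).1 (orb_mem hp k).2 ih
  obtain ⟨k, hk⟩ := orb_lim hp hx
  exact flM_mono hk (h1 k)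

omit [IsProbabilityMeasure ρ] in
/-- The moments at the tilt `h` itself. -/
theorem flF_of_flM {h : Vec d} {p x y : ℝ} (hp : 1 < p) (hxy : x < y) (H : FlM ρ β h p x) :
    FlF ρ β h y := by
  intro q
  obtain ⟨r, hr, C, hC⟩ := H (y - x) (by linarith) q
  refine ⟨C, fun n hn => ?_⟩
  have hn0 : (0 : ℝ) < n := by exact_mod_cast hn
  have h1 := hC h (by simpa using hr) n hn
  have h2 : ‖h - h‖ ^ (p - 1) = 0 := by
    rw [sub_self, norm_zero, Real.zero_rpow (by linarith)]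
  rw [h2, mul_zero, Real.sqrt_zero, add_zero, ← Real.rpow_add hn0, sub_add_cancel,
    ← Real.rpow_natCast ((n : ℝ) ^ y) q, ← Real.rpow_mul hn0.le] at h1
  exact h1

omit [IsProbabilityMeasure ρ] in
/-- The tube at the tilt `h` itself. -/
theorem tbF_of_tubM {h v : Vec d} {p x a : ℝ} (hp : 1 < p) (ha : aX p x < a)
    (H : TubM ρ β h v p x) : TbF ρ β h v a := by
  intro q
  obtain ⟨r, hr, C, hC⟩ := H (a - aX p x) (by linarith) q
  refine ⟨C, fun n hn => ?_⟩
  have hn0 : (0 : ℝ) < n := by exact_mod_cast hn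
  refine hC h (by simpa using hr) n hn _ (le_of_eq ?_)
  rw [sub_self, norm_zero, Real.zero_rpow (by linarith), mul_zero, zero_add,
    ← Real.rpow_add hn0, sub_add_cancel]

/-- **The bounds of the exponents at a tilt with an upper bound of order `p`.** -/
theorem nu_chi_le {Ω : Type*} [MeasurableSpace Ω] {μ : Measure Ω} [IsProbabilityMeasure μ]
    {ω : ℕ × Site d → Ω → ℝ} (hd : 0 < d) (hω : IID μ ρ ω) (hρ : EM ρ) {h v : Vec d} {p : ℝ}
    (hp : 1 < p) (h0 : FlM ρ β h p (1 / 2))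
    (hS : ∀ x : ℝ, 1 / (p + 1) ≤ x → x ≤ 1 / 2 → TubM ρ β h v p x → FlM ρ β h p (aX p x / 2))
    (hT : ∀ x : ℝ, 1 / (p + 1) ≤ x → x ≤ 1 / 2 → FlM ρ β h p x → TubM ρ β h v p x) :
    nuS μ β ω h v ≤ 2 / (p + 1) ∧ chiF μ β ω h ≤ 1 / (p + 1) := by
  have hp0 : 0 < p := by linarith
  have hall : ∀ x : ℝ, 1 / (p + 1) < x → FlM ρ β h p x := fun x hx =>
    flM_all hp h0 (fun y hy hy' hF => hS y hy hy' (hT y hy hy' hF)) hx
  have hx0 : 0 < 1 / (p + 1) := by positivity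
  constructor
  · refine le_of_forall_gt_imp_ge_of_dense fun a ha => ?_
    -- `x` close to the fixed point, with `aX p x < a`
    obtain ⟨x, hx1, hx2, hx3⟩ : ∃ x : ℝ, 1 / (p + 1) < x ∧ x ≤ 1 / 2 ∧ aX p x < a := by
      have h1 : 1 / (p + 1) < 1 / 2 := one_div_lt_one_div_of_lt (by norm_num) (by linarith)
      refine ⟨min (1 / 2) (1 / (p + 1) + (a - 2 / (p + 1)) / 2), lt_min h1 ?_, min_le_left _ _, ?_⟩
      · linarith
      · have h2 := aX_half hp (min (1 / 2) (1 / (p + 1) + (a - 2 / (p + 1)) / 2))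
        have h3 : min (1 / 2) (1 / (p + 1) + (a - 2 / (p + 1)) / 2) - 1 / (p + 1) ≤
            (a - 2 / (p + 1)) / 2 := by
          have := min_le_right (1 / 2 : ℝ) (1 / (p + 1) + (a - 2 / (p + 1)) / 2)
          linarith
        have h4 : (p - 1) / (2 * p) < 1 := by
          rw [div_lt_one (by positivity)]
          linarith
        have h5 : 0 ≤ (p - 1) / (2 * p) := by
          have : 0 ≤ p - 1 := by linarith
          positivity
        have h6 : 0 < min (1 / 2) (1 / (p + 1) + (a - 2 / (p + 1)) / 2) - 1 / (p + 1) := by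
          rw [sub_pos]
          refine lt_min h1 ?_
          linarith
        have h7 : (p - 1) / (2 * p) *
            (min (1 / 2) (1 / (p + 1) + (a - 2 / (p + 1)) / 2) - 1 / (p + 1)) <
            (a - 2 / (p + 1)) / 2 :=
          lt_of_lt_of_le (mul_lt_of_lt_one_left h6 h4) h3
        have h8 : 2 / (p + 1) = 2 * (1 / (p + 1)) := by ring
        rw [h8] at h2 h7 ⊢
        linarith
    have h1 := tbF_of_tubM hp hx3 (hT x hx1.le hx2 (hall x hx1))
    have ha0 : 0 < a := lt_trans (by positivity) ha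
    exact csInf_le ⟨0, fun y hy => hy.1.le⟩ ((mem_nuSetS hω h v a).2 ⟨ha0, h1⟩)
  · refine le_of_forall_gt_imp_ge_of_dense fun y hy => ?_
    have h1 : FlF ρ β h y :=
      flF_of_flM hp (x := (1 / (p + 1) + y) / 2) (by linarith) (hall _ (by linarith))
    exact csInf_le ⟨0, fun y hy => hy.1.le⟩ ((mem_chiSetF hd hω hρ h y).2 ⟨by linarith, h1⟩)

/-- In terms of the growth exponent. -/
theorem nu_chi_gam {L : Vec d → ℝ} {h v : Vec d} {a b : ℝ} (ha0 : 0 ≤ a) (ha : a ≤ 1)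
    (hb0 : 0 ≤ b) (hb : b ≤ 1 / 2)
    (H : ∀ p : ℝ, 1 < p → UpG L h v p → a ≤ 2 / (p + 1) ∧ b ≤ 1 / (p + 1)) :
    a ≤ 2 / (gam L h v + 1) ∧ b ≤ 1 / (gam L h v + 1) ∧
      (¬ BddAbove {p : ℝ | 1 ≤ p ∧ UpG L h v p} → a = 0 ∧ b = 0) := by
  have hA : ∀ p ∈ {p : ℝ | 1 ≤ p ∧ UpG L h v p}, a * (p + 1) ≤ 2 := by
    rintro p ⟨hp, hU⟩
    rcases hp.eq_or_lt with h1 | h1
    · rw [← h1]
      linarith
    · have := (H p h1 hU).1
      rwa [le_div_iff₀ (by linarith)] at this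
  have hB : ∀ p ∈ {p : ℝ | 1 ≤ p ∧ UpG L h v p}, b * (p + 1) ≤ 1 := by
    rintro p ⟨hp, hU⟩
    rcases hp.eq_or_lt with h1 | h1
    · rw [← h1]
      linarith
    · have := (H p h1 hU).2
      rwa [le_div_iff₀ (by linarith)] at this
  have hg : 0 ≤ gam L h v := Real.sSup_nonneg fun p hp => by linarith [hp.1]
  refine ⟨?_, ?_, fun hbd => ⟨?_, ?_⟩⟩
  · rcases ha0.eq_or_lt with h0 | h0
    · rw [← h0]
      positivity
    · rw [le_div_iff₀ (by linarith)]
      have h1 : gam L h v ≤ 2 / a - 1 := by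
        refine Real.sSup_le (fun p hp => ?_) ?_
        · rw [le_sub_iff_add_le, le_div_iff₀ h0]
          linarith [hA p hp]
        · rw [sub_nonneg, one_le_div h0]
          linarith
      have h2 : gam L h v + 1 ≤ 2 / a := by linarith
      rw [le_div_iff₀ h0] at h2
      linarith
  · rcases hb0.eq_or_lt with h0 | h0
    · rw [← h0]
      positivity
    · rw [le_div_iff₀ (by linarith)]
      have h1 : gam L h v ≤ 1 / b - 1 := by
        refine Real.sSup_le (fun p hp => ?_) ?_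
        · rw [le_sub_iff_add_le, le_div_iff₀ h0]
          linarith [hB p hp]
        · rw [sub_nonneg, one_le_div h0]
          linarith
      have h2 : gam L h v + 1 ≤ 1 / b := by linarith
      rw [le_div_iff₀ h0] at h2
      linarith
  · by_contra hne
    have h0 : 0 < a := lt_of_le_of_ne ha0 (Ne.symm hne)
    refine hbd ⟨2 / a, fun p hp => ?_⟩
    rw [le_div_iff₀ h0]
    linarith [hA p hp]
  · by_contra hne
    have h0 : 0 < b := lt_of_le_of_ne hb0 (Ne.symm hne)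
    refine hbd ⟨1 / b, fun p hp => ?_⟩
    rw [le_div_iff₀ h0]
    linarith [hB p hp]

end Pool.Agent.W_7d29a1_V
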