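import Pool.Agent.W_7d29a1_V.DefsL70
import Pool.Agent.W_7d29a1_V.Fix70

/-!
The fixed point of the bootstrap on one line of tilts.
-/

namespace Pool.Agent.W_7d29a1_V

open MeasureTheory ProbabilityTheory Filter Topology Pool.Agent.W_MP_7d29a1_pr
  Pool.Agent.W_7d29a1_h46 Pool.Agent.W_7d29a1_h46u Pool.Agent.W_7d29a1_D2

variable {d : ℕ} {ρ : Measure ℝ} [IsProbabilityMeasure ρ] {β : ℝ}

omit [IsProbabilityMeasure ρ] in
/-- Larger exponents are easier. -/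
lemma flL_mono {h u : Vec d} {p x y : ℝ} (hxy : x ≤ y) (H : FlL ρ β h u p x) :
    FlL ρ β h u p y := by
  intro e he q
  obtain ⟨r, hr, C, hC⟩ := H e he q
  refine ⟨r, hr, |C|, fun t ht n hn => (hC t ht n hn).trans ?_⟩
  have hn1 : (1 : ℝ) ≤ n := by exact_mod_cast hn
  have h1 : (n : ℝ) ^ x ≤ (n : ℝ) ^ y := Real.rpow_le_rpow_of_exponent_le hn1 hxy
  have h2 : 0 ≤ (n : ℝ) ^ e * ((n : ℝ) ^ x + Real.sqrt (n * |t| ^ (p - 1))) := by positivity
  have h3 : (n : ℝ) ^ e * ((n : ℝ) ^ x + Real.sqrt (n * |t| ^ (p - 1))) ≤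
      (n : ℝ) ^ e * ((n : ℝ) ^ y + Real.sqrt (n * |t| ^ (p - 1))) :=
    mul_le_mul_of_nonneg_left (by linarith) (by positivity)
  exact (mul_le_mul_of_nonneg_right (le_abs_self C) (pow_nonneg h2 q)).trans
    (mul_le_mul_of_nonneg_left (pow_le_pow_left₀ h2 h3 q) (abs_nonneg C))

omit [IsProbabilityMeasure ρ] in
/-- The fixed point. -/
theorem flL_all {h u : Vec d} {p : ℝ} (hp : 1 < p) (h0 : FlL ρ β h u p (1 / 2))
    (hS : ∀ x : ℝ, 1 / (p + 1) ≤ x → x ≤ 1 / 2 → FlL ρ β h u p x → FlL ρ β h u p (aX p x / 2))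
    {x : ℝ} (hx : 1 / (p + 1) < x) : FlL ρ β h u p x := by
  have h1 : ∀ k, FlL ρ β h u p (orb p k) := by
    intro k
    induction k with
    | zero => exact h0
    | succ k ih => exact hS _ (orb_mem hp k).1 (orb_mem hp k).2 ih
  obtain ⟨k, hk⟩ := orb_lim hp hx
  exact flL_mono hk (h1 k)

omit [IsProbabilityMeasure ρ] in
/-- The moments at the tilt `h` itself. -/
theorem flF_of_flL {h u : Vec d} {p x y : ℝ} (hp : 1 < p) (hxy : x < y) (H : FlL ρ β h u p x) :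
    FlF ρ β h y := by
  intro q
  obtain ⟨r, hr, C, hC⟩ := H (y - x) (by linarith) q
  refine ⟨C, fun n hn => ?_⟩
  have hn0 : (0 : ℝ) < n := by exact_mod_cast hn
  have h1 := hC 0 (by simpa using hr) n hn
  have h2 : |(0 : ℝ)| ^ (p - 1) = 0 := by
    rw [abs_zero, Real.zero_rpow (by linarith)]
  rw [h2, mul_zero, Real.sqrt_zero, add_zero, ← Real.rpow_add hn0, sub_add_cancel,
    ← Real.rpow_natCast ((n : ℝ) ^ y) q, ← Real.rpow_mul hn0.le, zero_smul, add_zero] at h1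
  exact h1

/-- **The bound of the exponent on a line with an upper bound of order `p`.** -/
theorem chi_le_line {Ω : Type*} [MeasurableSpace Ω] {μ : Measure Ω} [IsProbabilityMeasure μ]
    {ω : ℕ × Site d → Ω → ℝ} (hd : 0 < d) (hω : IID μ ρ ω) (hρ : EM ρ) {h u : Vec d} {s p : ℝ}
    (hp : 1 < p) (h0 : FlL ρ β h u p (1 / 2))
    (hS : ∀ x : ℝ, 1 / (p + 1) ≤ x → x ≤ 1 / 2 → TubL ρ β h u s p x → FlL ρ β h u p (aX p x / 2))
    (hT : ∀ x : ℝ, 1 / (p + 1) ≤ x → x ≤ 1 / 2 → FlL ρ β h u p x → TubL ρ β h u s p x) :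
    chiF μ β ω h ≤ 1 / (p + 1) := by
  have hp0 : 0 < p := by linarith
  have hall : ∀ x : ℝ, 1 / (p + 1) < x → FlL ρ β h u p x := fun x hx =>
    flL_all hp h0 (fun y hy hy' hF => hS y hy hy' (hT y hy hy' hF)) hx
  have hx0 : 0 < 1 / (p + 1) := by positivity
  refine le_of_forall_gt_imp_ge_of_dense fun y hy => ?_
  have h1 : FlF ρ β h y :=
    flF_of_flL hp (x := (1 / (p + 1) + y) / 2) (by linarith) (hall _ (by linarith))
  exact csInf_le ⟨0, fun y hy => hy.1.le⟩ ((mem_chiSetF hd hω hρ h y).2 ⟨by linarith, h1⟩)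

/-- A direction with a coordinate of absolute value `1`. -/
lemma exists_norm_coord {u : Vec d} (hu : u ≠ 0) : ∃ k : Fin d, u k ≠ 0 := by
  by_contra hcon
  push Not at hcon
  apply hu
  ext k
  simpa using hcon k

/-- Scaling of the direction. -/
lemma line_scale {L : Vec d → ℝ} {h u : Vec d} {s p c : ℝ} (hc : 0 < c)
    (hs : ∀ r : ℝ, L h + s * r ≤ L (h + r • u))
    (hU : ∃ C δ : ℝ, 0 < δ ∧ ∀ r : ℝ, |r| ≤ δ → L (h + r • u) - L h - s * r ≤ C * |r| ^ p) :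
    (∀ r : ℝ, L h + (s * c) * r ≤ L (h + r • (c • u))) ∧
    (∃ C δ : ℝ, 0 < δ ∧ ∀ r : ℝ, |r| ≤ δ → L (h + r • (c • u)) - L h - (s * c) * r ≤
      C * |r| ^ p) := by
  obtain ⟨C, δ, hδ, H⟩ := hU
  refine ⟨fun r => ?_, C * c ^ p, δ / c, div_pos hδ hc, fun r hr => ?_⟩
  · have h1 := hs (r * c)
    rw [smul_smul]
    linarith
  · have h1 : |r * c| ≤ δ := by
      rw [abs_mul, abs_of_pos hc]
      rwa [le_div_iff₀ hc] at hr
    have h2 := H (r * c) h1
    rw [abs_mul, abs_of_pos hc, Real.mul_rpow (abs_nonneg r) hc.le] at h2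
    rw [smul_smul]
    have h3 : C * (|r| ^ p * c ^ p) = C * c ^ p * |r| ^ p := by ring
    rw [h3] at h2
    linarith

end Pool.Agent.W_7d29a1_V
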