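import Pool.Agent.W_7d29a1_V.DefsV2

/-!
# The fluctuations are at most the square root of the width of the tube

`tubeV`: `SpaceV → TubeV`. The logarithms of the partition functions of the tube around the source
`0` and of its translate around the source `2 x e_k`, `2 x > 2 W`, are independent with the same
law, and they are close to the logarithms of the partition functions of the two sources.
-/

namespace Pool.Agent.W_7d29a1_V

open MeasureTheory ProbabilityTheory Filter Topology Pool.Agent.W_MP_7d29a1_pr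
  Pool.Agent.W_7d29a1_h46 Pool.Agent.W_7d29a1_h46u Pool.Agent.W_7d29a1_D2
  Pool.Agent.W_7d29a1_D2.B35

namespace Tube67

/-! ### Truncation -/

/-- The truncation to `[-N, N]`. -/
noncomputable def clp (N t : ℝ) : ℝ := max (-N) (min N t)

lemma clp_le {N : ℝ} (hN : 0 ≤ N) (t : ℝ) : |clp N t| ≤ N := by
  unfold clp
  rw [abs_le]
  exact ⟨le_max_left _ _, max_le (by linarith) (min_le_left _ _)⟩

lemma clp_lip (N s t : ℝ) : |clp N s - clp N t| ≤ |s - t| := by
  unfold clp
  refine (abs_max_sub_max_le_max _ _ _ _).trans ?_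
  rw [sub_self, abs_zero]
  refine max_le (abs_nonneg _) ((abs_min_sub_min_le_max _ _ _ _).trans ?_)
  rw [sub_self, abs_zero]
  exact max_le (abs_nonneg _) le_rfl

lemma clp_near {N : ℝ} (hN : 0 < N) (t : ℝ) : |t - clp N t| ≤ t ^ 2 / N := by
  unfold clp
  rcases le_total t N with h1 | h1
  · rw [min_eq_right h1]
    rcases le_total (-N) t with h2 | h2
    · rw [max_eq_right h2, sub_self, abs_zero]
      positivity
    · rw [max_eq_left h2, le_div_iff₀ hN, abs_of_nonpos (by linarith)]
      nlinarith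
  · rw [min_eq_left h1, max_eq_right (by linarith), le_div_iff₀ hN, abs_of_nonneg (by linarith)]
    nlinarith

lemma measurable_clp (N : ℝ) : Measurable (clp N) := by
  unfold clp
  fun_prop

/-- Powers of a sum of three terms. -/
lemma pow3 {a b c : ℝ} (ha : 0 ≤ a) (hb : 0 ≤ b) (hc : 0 ≤ c) (q : ℕ) :
    (a + b + c) ^ q ≤ 3 ^ q * (a ^ q + b ^ q + c ^ q) := by
  have h1 : a + b + c ≤ 3 * max a (max b c) := by
    have h2 := le_max_left a (max b c)
    have h3 := (le_max_left b c).trans (le_max_right a (max b c))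
    have h4 := (le_max_right b c).trans (le_max_right a (max b c))
    linarith
  have h2 : (max a (max b c)) ^ q ≤ a ^ q + b ^ q + c ^ q := by
    have ea := pow_nonneg ha q
    have eb := pow_nonneg hb q
    have ec := pow_nonneg hc q
    rcases max_cases a (max b c) with ⟨h, _⟩ | ⟨h, _⟩
    · rw [h]
      linarith
    · rw [h]
      rcases max_cases b c with ⟨h', _⟩ | ⟨h', _⟩ <;> rw [h'] <;> linarith
  calc (a + b + c) ^ q ≤ (3 * max a (max b c)) ^ q := pow_le_pow_left₀ (by positivity) h1 q
    _ = 3 ^ q * (max a (max b c)) ^ q := mul_pow _ _ _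
    _ ≤ _ := mul_le_mul_of_nonneg_left h2 (by positivity)

/-! ### Independent copies -/

variable {d : ℕ} {ρ : Measure ℝ} [IsProbabilityMeasure ρ]

/-- Jensen with an independent copy: functions of disjoint sets of sites with the same mean. -/
lemma indep_copy (S : Set (ℕ × Site d)) {F G : Env d → ℝ} (hF : Measurable F) (hG : Measurable G)
    (hFS : DependsOn F S) (hGS : DependsOn G Sᶜ) {K : ℝ} (hFK : ∀ η, |F η| ≤ K)
    (hGK : ∀ η, |G η| ≤ K) (hm : ∫ η, G η ∂(law d ρ) = ∫ η, F η ∂(law d ρ)) (p : ℕ) :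
    ∫ η, (F η - ∫ ξ, F ξ ∂(law d ρ)) ^ (2 * p) ∂(law d ρ) ≤
      ∫ η, (F η - G η) ^ (2 * p) ∂(law d ρ) := by
  classical
  have hσ : Function.Injective (fun p : ℕ × Site d =>
      if p ∈ S then (Sum.inl p : (ℕ × Site d) ⊕ (ℕ × Site d)) else Sum.inr p) := by
    intro p q h
    simp only at h
    split_ifs at h <;> simp_all
  have hmp : MeasurePreserving (fun w : Env d × Env d => fun p => Sum.elim w.1 w.2
      (if p ∈ S then (Sum.inl p : (ℕ × Site d) ⊕ (ℕ × Site d)) else Sum.inr p))
      ((law d ρ).prod (law d ρ)) (law d ρ) := LawU_elim hσ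
  have hmeas : Measurable fun η => (F η - G η) ^ (2 * p) := (hF.sub hG).pow_const _
  have h1 : ∫ w : Env d × Env d, (F w.1 - G w.2) ^ (2 * p) ∂((law d ρ).prod (law d ρ)) =
      ∫ η, (F η - G η) ^ (2 * p) ∂(law d ρ) := by
    rw [← LawU_integral hmp (F := fun η => (F η - G η) ^ (2 * p)) hmeas.aestronglyMeasurable]
    refine integral_congr_ae (Filter.Eventually.of_forall fun w => ?_)
    simp only
    congr 2
    · exact (hFS fun p hp => by rw [if_pos hp]; rfl).symm
    · exact (hGS fun p hp => by rw [if_neg hp]; rfl).symm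
  have hb : ∀ w : Env d × Env d, ‖(F w.1 - G w.2) ^ (2 * p)‖ ≤ (2 * K) ^ (2 * p) := by
    intro w
    rw [norm_pow, Real.norm_eq_abs]
    refine pow_le_pow_left₀ (abs_nonneg _) ((abs_sub _ _).trans ?_) _
    have := hFK w.1
    have := hGK w.2
    linarith
  have hmw : Measurable fun w : Env d × Env d => (F w.1 - G w.2) ^ (2 * p) :=
    ((hF.comp measurable_fst).sub (hG.comp measurable_snd)).pow_const _
  have hint : Integrable (fun w : Env d × Env d => (F w.1 - G w.2) ^ (2 * p))
      ((law d ρ).prod (law d ρ)) :=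
    (integrable_const ((2 * K) ^ (2 * p))).mono' hmw.aestronglyMeasurable
      (Filter.Eventually.of_forall hb)
  rw [← h1, integral_prod _ hint]
  have hGi : Integrable G (law d ρ) :=
    (integrable_const K).mono' hG.aestronglyMeasurable (Filter.Eventually.of_forall hGK)
  refine integral_mono ?_ hint.integral_prod_left fun η => ?_
  · refine (integrable_const ((2 * K) ^ (2 * p))).mono'
      ((hF.sub_const _).pow_const _).aestronglyMeasurable (Filter.Eventually.of_forall fun η => ?_)
    rw [norm_pow, Real.norm_eq_abs]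
    refine pow_le_pow_left₀ (abs_nonneg _) ((abs_sub _ _).trans ?_) _
    have e1 := hFK η
    have e2 : |∫ ξ, F ξ ∂(law d ρ)| ≤ K := by
      rw [← Real.norm_eq_abs]
      have := norm_integral_le_of_norm_le_const (μ := law d ρ) (f := F) (C := K)
        (Filter.Eventually.of_forall hFK)
      simpa using this
    linarith
  · -- Jensen
    have hconv : ConvexOn ℝ Set.univ fun t : ℝ => t ^ (2 * p) := (even_two_mul p).convexOn_pow
    have hsub : Integrable (fun ξ => F η - G ξ) (law d ρ) := (integrable_const _).sub hGi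
    have hi : Integrable ((fun t : ℝ => t ^ (2 * p)) ∘ fun ξ => F η - G ξ) (law d ρ) := by
      refine (integrable_const ((2 * K) ^ (2 * p))).mono'
        ((hG.const_sub (F η)).pow_const _).aestronglyMeasurable
        (Filter.Eventually.of_forall fun ξ => hb (η, ξ))
    have h2 := hconv.map_integral_le (μ := law d ρ) (f := fun ξ => F η - G ξ)
      (continuous_pow (2 * p)).continuousOn isClosed_univ
      (Filter.Eventually.of_forall fun _ => Set.mem_univ _) hsub hi
    rw [integral_sub (integrable_const _) hGi, integral_const, hm] at h2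
    simpa using h2

/-! ### The logarithm of the partition function of the tube -/

/-- The truncated logarithm of the partition function of the tube. -/
noncomputable def TT (ρ : Measure ℝ) (β : ℝ) (h v : Vec d) (n : ℕ) (W : ℝ) (η : Env d) : ℝ :=
  A ρ β h n + clp n (Real.log (ZT β h η (tube d n v W)) - A ρ β h n)

lemma measurable_TT (β : ℝ) (h v : Vec d) (n : ℕ) (W : ℝ) : Measurable (TT ρ β h v n W) := by
  unfold TT
  exact ((measurable_clp n).comp (((measurable_ZT β h _).log).sub_const _)).const_add _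

lemma TT_le (β : ℝ) (h v : Vec d) (n : ℕ) (W : ℝ) (η : Env d) :
    |TT ρ β h v n W η| ≤ |A ρ β h n| + n := by
  unfold TT
  refine (abs_add_le _ _).trans ?_
  have := clp_le (Nat.cast_nonneg (α := ℝ) n) (Real.log (ZT β h η (tube d n v W)) - A ρ β h n)
  linarith

/-- The sites of the tube. -/
def ST (v : Vec d) (W : ℝ) : Set (ℕ × Site d) := {p | ‖emb p.2 - (p.1 : ℝ) • v‖ ≤ W}

lemma TT_congr {β : ℝ} {h v : Vec d} {n : ℕ} {W : ℝ} {η η' : Env d}
    (hη : ∀ p ∈ ST v W, η p = η' p) : TT ρ β h v n W η = TT ρ β h v n W η' := by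
  unfold TT
  rw [ZT_congr (η := η) (η' := η')]
  intro s hs p hp
  refine hη p ?_
  unfold sites at hp
  rw [Finset.mem_image] at hp
  obtain ⟨i, _, rfl⟩ := hp
  exact hs _ i.2

lemma TT_dep (β : ℝ) (h v : Vec d) (n : ℕ) (W : ℝ) : DependsOn (TT ρ β h v n W) (ST v W) :=
  fun _ _ hη => TT_congr hη

lemma norm_emb_src (k : Fin d) (x : ℕ) : ‖emb (src k x)‖ = 2 * x := by
  have h1 : emb (src k x) = EuclideanSpace.single k (2 * (x : ℝ)) := by
    ext j
    unfold emb src
    by_cases hj : j = k
    · subst hj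
      simp
    · simp [hj]
  rw [h1, EuclideanSpace.norm_single, Real.norm_eq_abs, abs_of_nonneg (by positivity)]

lemma TT_dep' (β : ℝ) (h v : Vec d) (n : ℕ) {W : ℝ} {k : Fin d} {x : ℕ} (hx : W < x) :
    DependsOn (fun η : Env d => TT ρ β h v n W (sh 0 (src k x) η)) (ST v W)ᶜ := by
  intro η η' hη
  refine TT_congr fun p hp => ?_
  refine hη (p.1 + 0, p.2 + src k x) ?_
  intro hcon
  unfold ST at hp hcon
  simp only [Set.mem_ofPred_eq] at hp hcon
  have h1 : emb (src k x) = (emb (p.2 + src k x) - ((p.1 + 0 : ℕ) : ℝ) • v) -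
      (emb p.2 - (p.1 : ℝ) • v) := by
    have h2 : emb (p.2 + src k x) = emb p.2 + emb (src k x) := by
      ext j
      unfold emb
      simp
    rw [h2, Nat.add_zero]
    abel
  have h3 := norm_sub_le (emb (p.2 + src k x) - ((p.1 + 0 : ℕ) : ℝ) • v) (emb p.2 - (p.1 : ℝ) • v)
  rw [← h1, norm_emb_src] at h3
  linarith

/-- The distance between the two logarithms. -/
lemma TT_near (hd : 0 < d) (β : ℝ) (h v : Vec d) {n : ℕ} (hn : 1 ≤ n) (W : ℝ) (η : Env d) :
    |X β h η n - TT ρ β h v n W η| ≤ (X β h η n - A ρ β h n) ^ 2 / n +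
      1 + 4 * n * (1 - PolT β h η (tube d n v W)) := by
  have hn0 : (0 : ℝ) < n := by exact_mod_cast hn
  set y : ℝ := X β h η n - A ρ β h n with hy
  set t : ℝ := Real.log (ZT β h η (tube d n v W)) - A ρ β h n with ht
  have hP1 := PolT_le_one β h η (tube d n v W)
  have h0 : X β h η n - TT ρ β h v n W η = (y - clp n y) + (clp n y - clp n t) := by
    unfold TT
    rw [hy, ht]
    ring
  have h1 := clp_near hn0 y
  have h2 : |clp n y - clp n t| ≤ 1 + 4 * n * (1 - PolT β h η (tube d n v W)) := by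
    rcases lt_or_ge (PolT β h η (tube d n v W)) (1 / 2) with hP | hP
    · have h3 : |clp n y - clp n t| ≤ 2 * n := by
        refine (abs_sub _ _).trans ?_
        have e1 := clp_le hn0.le y
        have e2 := clp_le hn0.le t
        linarith
      nlinarith
    · have h4 : |y - t| ≤ 1 := by
        have hZ : 0 < Z β h η n := ZT_univ_pos hd β h η
        have hT : Z β h η n / 2 ≤ ZT β h η (tube d n v W) := by
          have e0 : PolT β h η (tube d n v W) = ZT β h η (tube d n v W) / Z β h η n := rfl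
          rw [e0, le_div_iff₀ hZ] at hP
          linarith
        have hT' : ZT β h η (tube d n v W) ≤ Z β h η n := ZT_mono β h η (Set.subset_univ _)
        have e1 : y - t = Real.log (Z β h η n) - Real.log (ZT β h η (tube d n v W)) := by
          rw [hy, ht]
          unfold X
          ring
        have e2 : Real.log (ZT β h η (tube d n v W)) ≤ Real.log (Z β h η n) :=
          Real.log_le_log (by linarith) hT'
        have e3 : Real.log (Z β h η n) - Real.log 2 ≤ Real.log (ZT β h η (tube d n v W)) := by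
          rw [← Real.log_div hZ.ne' (by norm_num)]
          exact Real.log_le_log (by linarith) hT
        have e4 : Real.log 2 < 1 := by
          have := Real.log_two_lt_d9
          linarith
        rw [e1, abs_of_nonneg (by linarith)]
        linarith
      have h5 := clp_lip n y t
      have h6 : 0 ≤ 4 * n * (1 - PolT β h η (tube d n v W)) := by
        have : 0 ≤ 1 - PolT β h η (tube d n v W) := by linarith
        positivity
      linarith
  rw [h0]
  refine (abs_add_le _ _).trans ?_
  linarith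

/-- The integral of a sum of three functions. -/
lemma int3 {a b c : Env d → ℝ} (ha : Integrable a (law d ρ)) (hb : Integrable b (law d ρ))
    (hc : Integrable c (law d ρ)) : ∫ η, (a η + b η + c η) ∂(law d ρ) =
      ∫ η, a η ∂(law d ρ) + ∫ η, b η ∂(law d ρ) + ∫ η, c η ∂(law d ρ) := by
  have h1 : Integrable (fun η => a η + b η) (law d ρ) := ha.add hb
  rw [integral_add h1 hc, integral_add ha hb]

/-- The moments of the distance between the two logarithms. -/
lemma near_mom (hd : 0 < d) (hρ : EM ρ) (β : ℝ) {r : ℕ} (hr : 1 ≤ r) :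
    ∃ C : ℝ, 0 ≤ C ∧ ∀ (h v : Vec d) (n : ℕ), 1 ≤ n → ∀ W : ℝ,
      ∫ η, (1 - PolT β h η (tube d n v W)) ∂(law d ρ) ≤ (n : ℝ) ^ (-(r : ℝ)) →
      Integrable (fun η => |X β h η n - TT ρ β h v n W η| ^ r) (law d ρ) ∧
      ∫ η, |X β h η n - TT ρ β h v n W η| ^ r ∂(law d ρ) ≤ C := by
  obtain ⟨C0, hC0, h0⟩ := momU (ρ := ρ) hd hρ β (2 * r)
  refine ⟨3 ^ r * (C0 + 1 + 4 ^ r), by positivity, fun h v n hn W hP => ?_⟩
  have hn0 : (0 : ℝ) < n := by exact_mod_cast hn
  obtain ⟨hi, hb⟩ := h0 h n hn
  have hPi : Integrable (fun η => 1 - PolT β h η (tube d n v W)) (law d ρ) := by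
    refine (integrable_const (1 : ℝ)).mono' ((measurable_PolT β h _).const_sub 1).aestronglyMeasurable
      (Filter.Eventually.of_forall fun η => ?_)
    rw [Real.norm_eq_abs, abs_le]
    have e1 := PolT_le_one β h η (tube d n v W)
    have e2 := PolT_nonneg β h η (tube d n v W)
    exact ⟨by linarith, by linarith⟩
  set g : Env d → ℝ := fun η => 3 ^ r * (|X β h η n - A ρ β h n| ^ (2 * r) / (n : ℝ) ^ r + 1 +
    (4 * n) ^ r * (1 - PolT β h η (tube d n v W))) with hg
  have hgi : Integrable g (law d ρ) :=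
    (((hi.div_const _).add (integrable_const 1)).add (hPi.const_mul _)).const_mul _
  have hle : ∀ η, |X β h η n - TT ρ β h v n W η| ^ r ≤ g η := by
    intro η
    have e1 := PolT_le_one β h η (tube d n v W)
    have e2 := PolT_nonneg β h η (tube d n v W)
    have e3 : 0 ≤ 1 - PolT β h η (tube d n v W) := by linarith
    have h1 := pow_le_pow_left₀ (abs_nonneg _) (TT_near (ρ := ρ) hd β h v hn W η) r
    refine h1.trans ((pow3 (by positivity) zero_le_one (by positivity) r).trans ?_)
    rw [hg]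
    refine mul_le_mul_of_nonneg_left ?_ (by positivity)
    have e4 : ((X β h η n - A ρ β h n) ^ 2 / n) ^ r =
        |X β h η n - A ρ β h n| ^ (2 * r) / (n : ℝ) ^ r := by
      rw [div_pow, pow_mul, sq_abs]
    have e5 : (4 * (n : ℝ) * (1 - PolT β h η (tube d n v W))) ^ r ≤
        (4 * n) ^ r * (1 - PolT β h η (tube d n v W)) := by
      rw [mul_pow]
      refine mul_le_mul_of_nonneg_left ?_ (by positivity)
      exact pow_le_of_le_one e3 (by linarith) (by omega)
    rw [e4, one_pow]
    linarith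
  have hm : Measurable fun η => |X β h η n - TT ρ β h v n W η| ^ r :=
    ((((measurable_X β h n).sub (measurable_TT β h v n W))).abs).pow_const r
  have hint : Integrable (fun η => |X β h η n - TT ρ β h v n W η| ^ r) (law d ρ) :=
    hgi.mono' hm.aestronglyMeasurable (Filter.Eventually.of_forall fun η => by
      rw [Real.norm_eq_abs, abs_of_nonneg (by positivity)]
      exact hle η)
  refine ⟨hint, (integral_mono hint hgi hle).trans ?_⟩
  rw [hg, integral_const_mul]
  refine mul_le_mul_of_nonneg_left ?_ (by positivity)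
  rw [int3 (hi.div_const _) (integrable_const 1) (hPi.const_mul _), integral_const_mul,
    integral_div]
  have k1 : (∫ η, |X β h η n - A ρ β h n| ^ (2 * r) ∂(law d ρ)) / (n : ℝ) ^ r ≤ C0 := by
    rw [div_le_iff₀ (by positivity)]
    refine hb.trans (le_of_eq ?_)
    congr 1
    rw [← Real.rpow_natCast]
    congr 1
    push_cast
    ring
  have k2 : (4 * (n : ℝ)) ^ r * ∫ η, (1 - PolT β h η (tube d n v W)) ∂(law d ρ) ≤ 4 ^ r := by
    refine (mul_le_mul_of_nonneg_left hP (by positivity)).trans (le_of_eq ?_)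
    rw [mul_pow, mul_assoc, Real.rpow_neg hn0.le, Real.rpow_natCast,
      mul_inv_cancel₀ (by positivity), mul_one]
  have k3 : ∫ _ : Env d, (1 : ℝ) ∂(law d ρ) = 1 := by simp
  rw [k3]
  linarith

/-- The square of an integral. -/
lemma sq_int {f : Env d → ℝ} (hf : Integrable f (law d ρ))
    (hf2 : Integrable (fun η => f η ^ 2) (law d ρ)) :
    (∫ η, f η ∂(law d ρ)) ^ 2 ≤ ∫ η, f η ^ 2 ∂(law d ρ) :=
  (even_two.convexOn_pow : ConvexOn ℝ Set.univ fun t : ℝ => t ^ 2).map_integral_le
    (μ := law d ρ) (f := f) (continuous_pow 2).continuousOn isClosed_univ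
    (Filter.Eventually.of_forall fun _ => Set.mem_univ _) hf hf2

/-- The main estimate. -/
lemma main67 (hd : 0 < d) (hρ : EM ρ) (β : ℝ) (h v : Vec d) {n : ℕ} (hn : 1 ≤ n) {W : ℝ}
    (k : Fin d) {x : ℕ} (hx : W < x) {q : ℕ} (hq : 1 ≤ q) {C1 : ℝ}
    (hi : Integrable (fun η => |X β h η n - TT ρ β h v n W η| ^ (2 * q)) (law d ρ))
    (hC : ∫ η, |X β h η n - TT ρ β h v n W η| ^ (2 * q) ∂(law d ρ) ≤ C1) :
    ∫ η, |X β h η n - A ρ β h n| ^ (2 * q) ∂(law d ρ) ≤
      3 ^ (2 * q) * (C1 + 3 ^ (2 * q) * (C1 + Mo ρ β h n k q x + C1) + (1 + C1) ^ (2 * q)) := by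
  set F : Env d → ℝ := TT ρ β h v n W with hF
  set G : Env d → ℝ := fun η => F (sh 0 (src k x) η) with hG
  have mF : Measurable F := measurable_TT β h v n W
  have mG : Measurable G := mF.comp (measurable_sh _ _)
  have mX : Measurable fun η : Env d => X β h η n := measurable_X β h n
  have mX' : Measurable fun η : Env d => X β h (sh 0 (src k x) η) n := mX.comp (measurable_sh _ _)
  have hev : Even (2 * q) := even_two_mul q
  have hEG : ∫ η, G η ∂(law d ρ) = ∫ η, F η ∂(law d ρ) := integral_sh 0 (src k x) mF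
  have hcopy := indep_copy (ρ := ρ) (ST v W) mF mG (TT_dep β h v n W) (TT_dep' β h v n hx)
    (K := |A ρ β h n| + n) (fun η => TT_le β h v n W η) (fun η => TT_le β h v n W _) hEG q
  set m : ℝ := ∫ η, F η ∂(law d ρ) with hm
  -- moments
  obtain ⟨C0, hC0, h0⟩ := momU (ρ := ρ) hd hρ β (2 * q)
  obtain ⟨hXi, _⟩ := h0 h n hn
  have hXi' : Integrable (fun η => |X β h (sh 0 (src k x) η) n - A ρ β h n| ^ (2 * q)) (law d ρ) :=
    (mp_sh 0 (src k x)).integrable_comp_of_integrable hXi
  have hi' : Integrable (fun η => |X β h (sh 0 (src k x) η) n - G η| ^ (2 * q)) (law d ρ) :=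
    (mp_sh 0 (src k x)).integrable_comp_of_integrable hi
  have hC' : ∫ η, |X β h (sh 0 (src k x) η) n - G η| ^ (2 * q) ∂(law d ρ) ≤ C1 := by
    refine le_trans (le_of_eq ?_) hC
    exact integral_sh 0 (src k x) (F := fun η => |X β h η n - F η| ^ (2 * q))
      (((mX.sub mF).abs).pow_const _)
  have hUs : ∀ η : Env d, Us β h n k x η - Us β h n k 0 η =
      X β h (sh 0 (src k x) η) n - X β h η n := by
    intro η
    unfold Us
    have : src k 0 = (0 : Site d) := by
      unfold src
      simp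
    rw [this, TubV_sh]
  have hMo : Mo ρ β h n k q x = ∫ η, |X β h (sh 0 (src k x) η) n - X β h η n| ^ (2 * q) ∂(law d ρ) := by
    unfold Mo
    refine integral_congr_ae (Filter.Eventually.of_forall fun η => ?_)
    simp only
    rw [hUs, hev.pow_abs]
  have hBi : Integrable (fun η => |X β h (sh 0 (src k x) η) n - X β h η n| ^ (2 * q)) (law d ρ) := by
    refine ((hXi'.add hXi).const_mul (3 ^ (2 * q))).mono'
      (((mX'.sub mX).abs).pow_const _).aestronglyMeasurable
      (Filter.Eventually.of_forall fun η => ?_)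
    rw [Real.norm_eq_abs, abs_of_nonneg (by positivity)]
    have e1 : |X β h (sh 0 (src k x) η) n - X β h η n| ≤
        |X β h (sh 0 (src k x) η) n - A ρ β h n| + |X β h η n - A ρ β h n| + 0 := by
      rw [add_zero]
      have := abs_sub (X β h (sh 0 (src k x) η) n - A ρ β h n) (X β h η n - A ρ β h n)
      rwa [sub_sub_sub_cancel_right] at this
    refine (pow_le_pow_left₀ (abs_nonneg _) e1 _).trans ((pow3 (abs_nonneg _) (abs_nonneg _)
      le_rfl _).trans ?_)
    rw [zero_pow (by omega), add_zero]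
    exact le_rfl
  -- the difference of the two copies
  have hFG : ∫ η, (F η - G η) ^ (2 * q) ∂(law d ρ) ≤
      3 ^ (2 * q) * (C1 + Mo ρ β h n k q x + C1) := by
    have hdom : Integrable (fun η => 3 ^ (2 * q) * (|X β h η n - F η| ^ (2 * q) +
        |X β h (sh 0 (src k x) η) n - X β h η n| ^ (2 * q) +
        |X β h (sh 0 (src k x) η) n - G η| ^ (2 * q))) (law d ρ) :=
      ((hi.add hBi).add hi').const_mul _
    have hle : ∀ η, (F η - G η) ^ (2 * q) ≤ 3 ^ (2 * q) * (|X β h η n - F η| ^ (2 * q) +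
        |X β h (sh 0 (src k x) η) n - X β h η n| ^ (2 * q) +
        |X β h (sh 0 (src k x) η) n - G η| ^ (2 * q)) := by
      intro η
      rw [← hev.pow_abs]
      refine (pow_le_pow_left₀ (abs_nonneg _) ?_ _).trans (pow3 (abs_nonneg _) (abs_nonneg _)
        (abs_nonneg _) _)
      have e1 : F η - G η = -(X β h η n - F η) - (X β h (sh 0 (src k x) η) n - X β h η n) +
          (X β h (sh 0 (src k x) η) n - G η) := by ring
      rw [e1]
      refine (abs_add_le _ _).trans ?_
      have e2 := abs_sub (-(X β h η n - F η)) (X β h (sh 0 (src k x) η) n - X β h η n)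
      rw [abs_neg] at e2
      linarith
    have hFGi : Integrable (fun η => (F η - G η) ^ (2 * q)) (law d ρ) :=
      hdom.mono' ((mF.sub mG).pow_const _).aestronglyMeasurable
        (Filter.Eventually.of_forall fun η => by
          rw [Real.norm_eq_abs, abs_of_nonneg (hev.pow_nonneg _)]
          exact hle η)
    refine (integral_mono hFGi hdom hle).trans ?_
    rw [integral_const_mul, int3 hi hBi hi', ← hMo]
    refine mul_le_mul_of_nonneg_left ?_ (by positivity)
    linarith
  -- the means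
  have hC1 : 0 ≤ C1 := (integral_nonneg fun η => by positivity).trans hC
  have hFi : Integrable F (law d ρ) :=
    (integrable_const (|A ρ β h n| + n)).mono' mF.aestronglyMeasurable
      (Filter.Eventually.of_forall fun η => TT_le β h v n W η)
  have habs : Integrable (fun η => |X β h η n - F η|) (law d ρ) := by
    refine ((integrable_const (1 : ℝ)).add hi).mono' ((mX.sub mF).abs).aestronglyMeasurable
      (Filter.Eventually.of_forall fun η => ?_)
    rw [Real.norm_eq_abs, abs_abs]
    rcases le_total (|X β h η n - F η|) 1 with h1 | h1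
    · exact h1.trans (le_add_of_nonneg_right (by positivity))
    · have := le_self_pow₀ h1 (show 2 * q ≠ 0 by omega)
      simp only [Pi.add_apply]
      linarith
  have hmean : |m - A ρ β h n| ≤ 1 + C1 := by
    have hsub : Integrable (fun η => X β h η n - F η) (law d ρ) :=
      habs.mono (mX.sub mF).aestronglyMeasurable (Filter.Eventually.of_forall fun η => by
        rw [Real.norm_eq_abs, Real.norm_eq_abs, abs_abs])
    have hXint : Integrable (fun η => X β h η n) (law d ρ) := by
      have := hsub.add hFi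
      refine this.congr (Filter.Eventually.of_forall fun η => ?_)
      simp
    have e1 : A ρ β h n - m = ∫ η, (X β h η n - F η) ∂(law d ρ) := by
      rw [integral_sub hXint hFi]
      rfl
    rw [abs_sub_comm, e1]
    refine (abs_integral_le_integral_abs).trans ?_
    have e2 : ∫ η, |X β h η n - F η| ∂(law d ρ) ≤
        ∫ η, (1 + |X β h η n - F η| ^ (2 * q)) ∂(law d ρ) := by
      refine integral_mono habs ((integrable_const (1 : ℝ)).add hi) fun η => ?_
      rcases le_total (|X β h η n - F η|) 1 with h1 | h1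
      · exact h1.trans (le_add_of_nonneg_right (by positivity))
      · have := le_self_pow₀ h1 (show 2 * q ≠ 0 by omega)
        simp only
        linarith
    refine e2.trans ?_
    rw [integral_add (integrable_const _) hi]
    simp only [integral_const, probReal_univ, smul_eq_mul, mul_one]
    linarith
  -- the end
  have hFm : Integrable (fun η => |F η - m| ^ (2 * q)) (law d ρ) := by
    refine (integrable_const ((|A ρ β h n| + n + |m|) ^ (2 * q))).mono'
      (((mF.sub_const m).abs).pow_const _).aestronglyMeasurable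
      (Filter.Eventually.of_forall fun η => ?_)
    rw [Real.norm_eq_abs, abs_of_nonneg (by positivity)]
    refine pow_le_pow_left₀ (abs_nonneg _) ((abs_sub _ _).trans ?_) _
    have := TT_le (ρ := ρ) β h v n W η
    rw [← hF] at this
    linarith
  have hend : ∀ η, |X β h η n - A ρ β h n| ^ (2 * q) ≤ 3 ^ (2 * q) *
      (|X β h η n - F η| ^ (2 * q) + |F η - m| ^ (2 * q) + (1 + C1) ^ (2 * q)) := by
    intro η
    refine (pow_le_pow_left₀ (abs_nonneg _) ?_ _).trans (pow3 (abs_nonneg _) (abs_nonneg _)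
      (by positivity) _)
    have e1 : X β h η n - A ρ β h n = (X β h η n - F η) + (F η - m) + (m - A ρ β h n) := by ring
    rw [e1]
    refine (abs_add_le _ _).trans ?_
    have := abs_add_le (X β h η n - F η) (F η - m)
    linarith
  have hdom : Integrable (fun η => 3 ^ (2 * q) * (|X β h η n - F η| ^ (2 * q) +
      |F η - m| ^ (2 * q) + (1 + C1) ^ (2 * q))) (law d ρ) :=
    ((hi.add hFm).add (integrable_const _)).const_mul _
  refine (integral_mono hXi hdom hend).trans ?_
  rw [integral_const_mul, int3 hi hFm (integrable_const _)]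
  refine mul_le_mul_of_nonneg_left ?_ (by positivity)
  have e3 : ∫ η, |F η - m| ^ (2 * q) ∂(law d ρ) = ∫ η, (F η - m) ^ (2 * q) ∂(law d ρ) := by
    refine integral_congr_ae (Filter.Eventually.of_forall fun η => ?_)
    exact hev.pow_abs _
  have e4 : ∫ _ : Env d, (1 + C1) ^ (2 * q) ∂(law d ρ) = (1 + C1) ^ (2 * q) := by simp
  rw [e3, e4]
  have e5 := hcopy.trans hFG
  linarith

end Tube67

variable {d : ℕ} {ρ : Measure ℝ} [IsProbabilityMeasure ρ]

open Tube67 in
/-- U12: the fluctuations of the free energy are at most the square root of the wandering. -/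
theorem tubeV (hd : 0 < d) (hρ : EM ρ) (β R : ℝ) (hS : SpaceV d ρ β R) : TubeV d ρ β R := by
  intro ε q hε
  rcases Nat.eq_zero_or_pos q with rfl | hq
  · exact ⟨0, 1, fun h hh v n hn W hW hWn hP => by simp⟩
  obtain ⟨C1, hC1, h1⟩ := near_mom (ρ := ρ) hd hρ β (r := 2 * q) (by omega)
  obtain ⟨C3, h3⟩ := hS (2 * ε) (by linarith) q
  obtain ⟨C2, hC2, h2⟩ := momU (ρ := ρ) hd hρ β (2 * q)
  obtain ⟨C4, hC4, h4⟩ := momU (ρ := ρ) hd hρ β q
  set K : ℝ := 3 ^ (2 * q) * (C1 + 3 ^ (2 * q) * (C1 + C1) + (1 + C1) ^ (2 * q)) with hK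
  set K' : ℝ := 3 ^ (2 * q) * 3 ^ (2 * q) * (3 * |C3|) ^ q with hK'
  have hK0 : 0 ≤ K := by positivity
  have hK'0 : 0 ≤ K' := by positivity
  refine ⟨2 * q, 1 + K + K', fun h hh v n hn W hW hWn hP => ?_⟩
  have hn0 : (0 : ℝ) < n := by exact_mod_cast hn
  have hn1 : (1 : ℝ) ≤ n := by exact_mod_cast hn
  have hW0 : 0 < W := by linarith
  obtain ⟨hi, hC⟩ := h1 h v n hn W (by exact_mod_cast hP)
  set k : Fin d := ⟨0, hd⟩
  set x : ℕ := ⌊W⌋₊ + 1 with hx
  have hx1 : W < x := by
    have := Nat.lt_floor_add_one W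
    rw [hx]
    push_cast
    linarith
  have hx2 : (x : ℝ) ≤ W + 1 := by
    have := Nat.floor_le hW0.le
    rw [hx]
    push_cast
    linarith
  have hx3 : x ≤ 5 * n := by
    have e1 : (x : ℝ) ≤ 5 * n := by linarith
    exact_mod_cast e1
  have hmain := main67 hd hρ β h v hn k hx1 hq hi hC
  have hMo := h3 h hh n hn k x hx3
  set Y : ℝ := (W * (n : ℝ) ^ (2 * ε)) ^ q with hY
  have hne : 1 ≤ (n : ℝ) ^ (2 * ε) := Real.one_le_rpow hn1 (by linarith)
  have hWn1 : 1 ≤ W * (n : ℝ) ^ (2 * ε) := by nlinarith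
  have hY1 : 1 ≤ Y := one_le_pow₀ hWn1
  have hMo2 : Mo ρ β h n k q x ≤ (3 * |C3|) ^ q * Y := by
    refine hMo.trans ?_
    rw [hY, ← mul_pow]
    have e1 : C3 * ((x : ℝ) + 1) * (n : ℝ) ^ (2 * ε) ≤ 3 * |C3| * (W * (n : ℝ) ^ (2 * ε)) := by
      have e2 : C3 * ((x : ℝ) + 1) ≤ |C3| * (3 * W) := by
        calc C3 * ((x : ℝ) + 1) ≤ |C3| * ((x : ℝ) + 1) :=
              mul_le_mul_of_nonneg_right (le_abs_self _) (by positivity)
          _ ≤ _ := mul_le_mul_of_nonneg_left (by linarith) (abs_nonneg _)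
      calc C3 * ((x : ℝ) + 1) * (n : ℝ) ^ (2 * ε) ≤ |C3| * (3 * W) * (n : ℝ) ^ (2 * ε) :=
            mul_le_mul_of_nonneg_right e2 (by positivity)
        _ = _ := by ring
    have e3 : |C3 * ((x : ℝ) + 1) * (n : ℝ) ^ (2 * ε)| ≤ 3 * |C3| * (W * (n : ℝ) ^ (2 * ε)) := by
      rw [abs_mul, abs_mul, abs_of_nonneg (show (0 : ℝ) ≤ (x : ℝ) + 1 by positivity),
        abs_of_nonneg (show (0 : ℝ) ≤ (n : ℝ) ^ (2 * ε) by positivity)]
      calc |C3| * ((x : ℝ) + 1) * (n : ℝ) ^ (2 * ε) ≤ |C3| * (3 * W) * (n : ℝ) ^ (2 * ε) :=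
            mul_le_mul_of_nonneg_right (mul_le_mul_of_nonneg_left (by linarith) (abs_nonneg _))
              (by positivity)
        _ = _ := by ring
    calc (C3 * ((x : ℝ) + 1) * (n : ℝ) ^ (2 * ε)) ^ q
        ≤ |(C3 * ((x : ℝ) + 1) * (n : ℝ) ^ (2 * ε)) ^ q| := le_abs_self _
      _ = |C3 * ((x : ℝ) + 1) * (n : ℝ) ^ (2 * ε)| ^ q := abs_pow _ _
      _ ≤ _ := pow_le_pow_left₀ (abs_nonneg _) e3 _
  have hbound : ∫ η, |X β h η n - A ρ β h n| ^ (2 * q) ∂(law d ρ) ≤
      ((1 + K + K') * Real.sqrt W * (n : ℝ) ^ ε) ^ (2 * q) := by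
    have e1 : ((1 + K + K') * Real.sqrt W * (n : ℝ) ^ ε) ^ (2 * q) = (1 + K + K') ^ (2 * q) * Y := by
      rw [mul_assoc, mul_pow]
      congr 1
      rw [hY, pow_mul, mul_pow, Real.sq_sqrt hW0.le, ← Real.rpow_natCast ((n : ℝ) ^ ε) 2,
        ← Real.rpow_mul hn0.le]
      congr 3
      push_cast
      ring
    have e2 : 3 ^ (2 * q) * (C1 + 3 ^ (2 * q) * (C1 + Mo ρ β h n k q x + C1) +
        (1 + C1) ^ (2 * q)) ≤ K + K' * Y := by
      have e3 : 3 ^ (2 * q) * (C1 + 3 ^ (2 * q) * (C1 + Mo ρ β h n k q x + C1) +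
        (1 + C1) ^ (2 * q)) = K + 3 ^ (2 * q) * 3 ^ (2 * q) * Mo ρ β h n k q x := by
        rw [hK]
        ring
      rw [e3]
      have e4 := mul_le_mul_of_nonneg_left hMo2 (show (0 : ℝ) ≤ 3 ^ (2 * q) * 3 ^ (2 * q) by
        positivity)
      rw [hK']
      linarith
    have e5 : 1 + K + K' ≤ (1 + K + K') ^ (2 * q) :=
      le_self_pow₀ (by linarith) (by omega)
    rw [e1]
    refine hmain.trans (e2.trans ?_)
    have e6 : K + K' * Y ≤ (1 + K + K') * Y := by nlinarith
    exact e6.trans (mul_le_mul_of_nonneg_right e5 (by linarith))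
  -- from the power `2 q` to the power `q`
  obtain ⟨hi2, _⟩ := h2 h n hn
  obtain ⟨hi4, _⟩ := h4 h n hn
  have hpow : ∀ η, (|X β h η n - A ρ β h n| ^ q) ^ 2 = |X β h η n - A ρ β h n| ^ (2 * q) := by
    intro η
    rw [← pow_mul, mul_comm]
  have hsq := sq_int (ρ := ρ) hi4 (by
    refine hi2.congr (Filter.Eventually.of_forall fun η => ?_)
    exact (hpow η).symm)
  simp only [hpow] at hsq
  have hfin := hsq.trans hbound
  have e7 : ((1 + K + K') * Real.sqrt W * (n : ℝ) ^ ε) ^ (2 * q) =
      (((1 + K + K') * Real.sqrt W * (n : ℝ) ^ ε) ^ q) ^ 2 := by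
    rw [← pow_mul, mul_comm q 2]
  rw [e7] at hfin
  exact le_of_sq_le_sq hfin (by positivity)

end Pool.Agent.W_7d29a1_V
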