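import Pool.Agent.W_7d29a1_V.DefsL70
import Pool.Agent.W_7d29a1_V.Tube67

/-!
# The fluctuations are at most the square root of the width of the slab

`slbV96`: `SpaceV → SlbV` in the direction `u` with `1 ≤ |u k|`. The logarithms of the partition
functions of the slab around the source `0` and of its translate around the source `2 x e_k`,
`2 x |u k| > 2 W`, are independent with the same law, and they are close to the logarithms of the
partition functions of the two sources.
-/

namespace Pool.Agent.W_7d29a1_V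

open MeasureTheory ProbabilityTheory Filter Topology Pool.Agent.W_MP_7d29a1_pr
  Pool.Agent.W_7d29a1_h46 Pool.Agent.W_7d29a1_h46u Pool.Agent.W_7d29a1_D2
  Pool.Agent.W_7d29a1_D2.B35

namespace SlbL96

open Tube67

variable {d : ℕ} {ρ : Measure ℝ} [IsProbabilityMeasure ρ]

/-! ### The logarithm of the partition function of the slab -/

/-- The truncated logarithm of the partition function of the slab. -/
noncomputable def TS (ρ : Measure ℝ) (β : ℝ) (h u : Vec d) (s : ℝ) (n : ℕ) (W : ℝ) (η : Env d) : ℝ :=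
  A ρ β h n + clp n (Real.log (ZT β h η (slb d n u s W)) - A ρ β h n)

lemma measurable_TS (β : ℝ) (h u : Vec d) (s : ℝ) (n : ℕ) (W : ℝ) : Measurable (TS ρ β h u s n W) := by
  unfold TS
  exact ((measurable_clp n).comp (((measurable_ZT β h _).log).sub_const _)).const_add _

lemma TS_le (β : ℝ) (h u : Vec d) (s : ℝ) (n : ℕ) (W : ℝ) (η : Env d) :
    |TS ρ β h u s n W η| ≤ |A ρ β h n| + n := by
  unfold TS
  refine (abs_add_le _ _).trans ?_
  have := clp_le (Nat.cast_nonneg (α := ℝ) n) (Real.log (ZT β h η (slb d n u s W)) - A ρ β h n)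
  linarith

/-- The sites of the slab. -/
def SS (u : Vec d) (s W : ℝ) : Set (ℕ × Site d) := {p | |inner ℝ u (emb p.2) - (p.1 : ℝ) * s| ≤ W}

lemma TS_congr {β : ℝ} {h u : Vec d} {s : ℝ} {n : ℕ} {W : ℝ} {η η' : Env d}
    (hη : ∀ p ∈ SS u s W, η p = η' p) : TS ρ β h u s n W η = TS ρ β h u s n W η' := by
  unfold TS
  rw [ZT_congr (η := η) (η' := η')]
  intro s hs p hp
  refine hη p ?_
  unfold sites at hp
  rw [Finset.mem_image] at hp
  obtain ⟨i, _, rfl⟩ := hp
  exact hs _ i.2

lemma TS_dep (β : ℝ) (h u : Vec d) (s : ℝ) (n : ℕ) (W : ℝ) : DependsOn (TS ρ β h u s n W) (SS u s W) :=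
  fun _ _ hη => TS_congr hη

lemma inner_src (u : Vec d) (k : Fin d) (x : ℕ) : inner ℝ u (emb (src k x)) = u k * (2 * x) := by
  have h1 : emb (src k x) = EuclideanSpace.single k (2 * (x : ℝ)) := by
    ext j
    unfold emb src
    by_cases hj : j = k
    · subst hj
      simp
    · simp [hj]
  rw [h1, EuclideanSpace.inner_single_right]
  simp
  ring

lemma TS_dep' (β : ℝ) (h u : Vec d) (s : ℝ) (n : ℕ) {W : ℝ} {k : Fin d} (hk : 1 ≤ |u k|) {x : ℕ}
    (hx : W < x) :
    DependsOn (fun η : Env d => TS ρ β h u s n W (sh 0 (src k x) η)) (SS u s W)ᶜ := by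
  intro η η' hη
  refine TS_congr fun p hp => ?_
  refine hη (p.1 + 0, p.2 + src k x) ?_
  intro hcon
  unfold SS at hp hcon
  simp only [Set.mem_ofPred_eq] at hp hcon
  have h1 : inner ℝ u (emb (src k x)) =
      (inner ℝ u (emb (p.2 + src k x)) - ((p.1 + 0 : ℕ) : ℝ) * s) -
      (inner ℝ u (emb p.2) - (p.1 : ℝ) * s) := by
    have h2 : emb (p.2 + src k x) = emb p.2 + emb (src k x) := by
      ext j
      unfold emb
      simp
    rw [h2, Nat.add_zero, inner_add_right]
    ring
  have h3 := abs_sub (inner ℝ u (emb (p.2 + src k x)) - ((p.1 + 0 : ℕ) : ℝ) * s)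
    (inner ℝ u (emb p.2) - (p.1 : ℝ) * s)
  rw [← h1, inner_src, abs_mul, abs_of_nonneg (show (0 : ℝ) ≤ 2 * x by positivity)] at h3
  have h4 : (2 * (x : ℝ)) ≤ |u k| * (2 * x) := le_mul_of_one_le_left (by positivity) hk
  linarith

/-- The distance between the two logarithms. -/
lemma TS_near (hd : 0 < d) (β : ℝ) (h u : Vec d) (s : ℝ) {n : ℕ} (hn : 1 ≤ n) (W : ℝ) (η : Env d) :
    |X β h η n - TS ρ β h u s n W η| ≤ (X β h η n - A ρ β h n) ^ 2 / n +
      1 + 4 * n * (1 - PolT β h η (slb d n u s W)) := by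
  have hn0 : (0 : ℝ) < n := by exact_mod_cast hn
  set y : ℝ := X β h η n - A ρ β h n with hy
  set t : ℝ := Real.log (ZT β h η (slb d n u s W)) - A ρ β h n with ht
  have hP1 := PolT_le_one β h η (slb d n u s W)
  have h0 : X β h η n - TS ρ β h u s n W η = (y - clp n y) + (clp n y - clp n t) := by
    unfold TS
    rw [hy, ht]
    ring
  have h1 := clp_near hn0 y
  have h2 : |clp n y - clp n t| ≤ 1 + 4 * n * (1 - PolT β h η (slb d n u s W)) := by
    rcases lt_or_ge (PolT β h η (slb d n u s W)) (1 / 2) with hP | hP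
    · have h3 : |clp n y - clp n t| ≤ 2 * n := by
        refine (abs_sub _ _).trans ?_
        have e1 := clp_le hn0.le y
        have e2 := clp_le hn0.le t
        linarith
      nlinarith
    · have h4 : |y - t| ≤ 1 := by
        have hZ : 0 < Z β h η n := ZT_univ_pos hd β h η
        have hT : Z β h η n / 2 ≤ ZT β h η (slb d n u s W) := by
          have e0 : PolT β h η (slb d n u s W) = ZT β h η (slb d n u s W) / Z β h η n := rfl
          rw [e0, le_div_iff₀ hZ] at hP
          linarith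
        have hT' : ZT β h η (slb d n u s W) ≤ Z β h η n := ZT_mono β h η (Set.subset_univ _)
        have e1 : y - t = Real.log (Z β h η n) - Real.log (ZT β h η (slb d n u s W)) := by
          rw [hy, ht]
          unfold X
          ring
        have e2 : Real.log (ZT β h η (slb d n u s W)) ≤ Real.log (Z β h η n) :=
          Real.log_le_log (by linarith) hT'
        have e3 : Real.log (Z β h η n) - Real.log 2 ≤ Real.log (ZT β h η (slb d n u s W)) := by
          rw [← Real.log_div hZ.ne' (by norm_num)]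
          exact Real.log_le_log (by linarith) hT
        have e4 : Real.log 2 < 1 := by
          have := Real.log_two_lt_d9
          linarith
        rw [e1, abs_of_nonneg (by linarith)]
        linarith
      have h5 := clp_lip n y t
      have h6 : 0 ≤ 4 * n * (1 - PolT β h η (slb d n u s W)) := by
        have : 0 ≤ 1 - PolT β h η (slb d n u s W) := by linarith
        positivity
      linarith
  rw [h0]
  refine (abs_add_le _ _).trans ?_
  linarith

/-- The moments of the distance between the two logarithms. -/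
lemma near_mom (hd : 0 < d) (hρ : EM ρ) (β : ℝ) {r : ℕ} (hr : 1 ≤ r) :
    ∃ C : ℝ, 0 ≤ C ∧ ∀ (h u : Vec d) (s : ℝ) (n : ℕ), 1 ≤ n → ∀ W : ℝ,
      ∫ η, (1 - PolT β h η (slb d n u s W)) ∂(law d ρ) ≤ (n : ℝ) ^ (-(r : ℝ)) →
      Integrable (fun η => |X β h η n - TS ρ β h u s n W η| ^ r) (law d ρ) ∧
      ∫ η, |X β h η n - TS ρ β h u s n W η| ^ r ∂(law d ρ) ≤ C := by
  obtain ⟨C0, hC0, h0⟩ := momU (ρ := ρ) hd hρ β (2 * r)
  refine ⟨3 ^ r * (C0 + 1 + 4 ^ r), by positivity, fun h u s n hn W hP => ?_⟩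
  have hn0 : (0 : ℝ) < n := by exact_mod_cast hn
  obtain ⟨hi, hb⟩ := h0 h n hn
  have hPi : Integrable (fun η => 1 - PolT β h η (slb d n u s W)) (law d ρ) := by
    refine (integrable_const (1 : ℝ)).mono' ((measurable_PolT β h _).const_sub 1).aestronglyMeasurable
      (Filter.Eventually.of_forall fun η => ?_)
    rw [Real.norm_eq_abs, abs_le]
    have e1 := PolT_le_one β h η (slb d n u s W)
    have e2 := PolT_nonneg β h η (slb d n u s W)
    exact ⟨by linarith, by linarith⟩
  set g : Env d → ℝ := fun η => 3 ^ r * (|X β h η n - A ρ β h n| ^ (2 * r) / (n : ℝ) ^ r + 1 +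
    (4 * n) ^ r * (1 - PolT β h η (slb d n u s W))) with hg
  have hgi : Integrable g (law d ρ) :=
    (((hi.div_const _).add (integrable_const 1)).add (hPi.const_mul _)).const_mul _
  have hle : ∀ η, |X β h η n - TS ρ β h u s n W η| ^ r ≤ g η := by
    intro η
    have e1 := PolT_le_one β h η (slb d n u s W)
    have e2 := PolT_nonneg β h η (slb d n u s W)
    have e3 : 0 ≤ 1 - PolT β h η (slb d n u s W) := by linarith
    have h1 := pow_le_pow_left₀ (abs_nonneg _) (TS_near (ρ := ρ) hd β h u s hn W η) r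
    refine h1.trans ((pow3 (by positivity) zero_le_one (by positivity) r).trans ?_)
    rw [hg]
    refine mul_le_mul_of_nonneg_left ?_ (by positivity)
    have e4 : ((X β h η n - A ρ β h n) ^ 2 / n) ^ r =
        |X β h η n - A ρ β h n| ^ (2 * r) / (n : ℝ) ^ r := by
      rw [div_pow, pow_mul, sq_abs]
    have e5 : (4 * (n : ℝ) * (1 - PolT β h η (slb d n u s W))) ^ r ≤
        (4 * n) ^ r * (1 - PolT β h η (slb d n u s W)) := by
      rw [mul_pow]
      refine mul_le_mul_of_nonneg_left ?_ (by positivity)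
      exact pow_le_of_le_one e3 (by linarith) (by omega)
    rw [e4, one_pow]
    linarith
  have hm : Measurable fun η => |X β h η n - TS ρ β h u s n W η| ^ r :=
    ((((measurable_X β h n).sub (measurable_TS β h u s n W))).abs).pow_const r
  have hint : Integrable (fun η => |X β h η n - TS ρ β h u s n W η| ^ r) (law d ρ) :=
    hgi.mono' hm.aestronglyMeasurable (Filter.Eventually.of_forall fun η => by
      rw [Real.norm_eq_abs, abs_of_nonneg (by positivity)]
      exact hle η)
  refine ⟨hint, (integral_mono hint hgi hle).trans ?_⟩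
  rw [hg, integral_const_mul]
  refine mul_le_mul_of_nonneg_left ?_ (by positivity)
  rw [int3 (hi.div_const _) (integrable_const 1) (hPi.const_mul _), integral_const_mul,
    integral_div]
  have k1 : (∫ η, |X β h η n - A ρ β h n| ^ (2 * r) ∂(law d ρ)) / (n : ℝ) ^ r ≤ C0 := by
    rw [div_le_iff₀ (by positivity)]
    refine hb.trans (le_of_eq ?_)
    congr 1
    rw [← Real.rpow_natCast]
    congr 1
    push_cast
    ring
  have k2 : (4 * (n : ℝ)) ^ r * ∫ η, (1 - PolT β h η (slb d n u s W)) ∂(law d ρ) ≤ 4 ^ r := by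
    refine (mul_le_mul_of_nonneg_left hP (by positivity)).trans (le_of_eq ?_)
    rw [mul_pow, mul_assoc, Real.rpow_neg hn0.le, Real.rpow_natCast,
      mul_inv_cancel₀ (by positivity), mul_one]
  have k3 : ∫ _ : Env d, (1 : ℝ) ∂(law d ρ) = 1 := by simp
  rw [k3]
  linarith

/-- The main estimate. -/
lemma main96 (hd : 0 < d) (hρ : EM ρ) (β : ℝ) (h u : Vec d) (s : ℝ) {n : ℕ} (hn : 1 ≤ n) {W : ℝ}
    {k : Fin d} (hk : 1 ≤ |u k|) {x : ℕ} (hx : W < x) {q : ℕ} (hq : 1 ≤ q) {C1 : ℝ}
    (hi : Integrable (fun η => |X β h η n - TS ρ β h u s n W η| ^ (2 * q)) (law d ρ))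
    (hC : ∫ η, |X β h η n - TS ρ β h u s n W η| ^ (2 * q) ∂(law d ρ) ≤ C1) :
    ∫ η, |X β h η n - A ρ β h n| ^ (2 * q) ∂(law d ρ) ≤
      3 ^ (2 * q) * (C1 + 3 ^ (2 * q) * (C1 + Mo ρ β h n k q x + C1) + (1 + C1) ^ (2 * q)) := by
  set F : Env d → ℝ := TS ρ β h u s n W with hF
  set G : Env d → ℝ := fun η => F (sh 0 (src k x) η) with hG
  have mF : Measurable F := measurable_TS β h u s n W
  have mG : Measurable G := mF.comp (measurable_sh _ _)
  have mX : Measurable fun η : Env d => X β h η n := measurable_X β h n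
  have mX' : Measurable fun η : Env d => X β h (sh 0 (src k x) η) n := mX.comp (measurable_sh _ _)
  have hev : Even (2 * q) := even_two_mul q
  have hEG : ∫ η, G η ∂(law d ρ) = ∫ η, F η ∂(law d ρ) := integral_sh 0 (src k x) mF
  have hcopy := indep_copy (ρ := ρ) (SS u s W) mF mG (TS_dep β h u s n W) (TS_dep' β h u s n hk hx)
    (K := |A ρ β h n| + n) (fun η => TS_le β h u s n W η) (fun η => TS_le β h u s n W _) hEG q
  set m : ℝ := ∫ η, F η ∂(law d ρ) with hm
  -- moments
  obtain ⟨C0, hC0, h0⟩ := momU (ρ := ρ) hd hρ β (2 * q)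
  obtain ⟨hXi, _⟩ := h0 h n hn
  have hXi' : Integrable (fun η => |X β h (sh 0 (src k x) η) n - A ρ β h n| ^ (2 * q)) (law d ρ) :=
    (mp_sh 0 (src k x)).integrable_comp_of_integrable hXi
  have hi' : Integrable (fun η => |X β h (sh 0 (src k x) η) n - G η| ^ (2 * q)) (law d ρ) :=
    (mp_sh 0 (src k x)).integrable_comp_of_integrable hi
  have hC' : ∫ η, |X β h (sh 0 (src k x) η) n - G η| ^ (2 * q) ∂(law d ρ) ≤ C1 := by
    refine le_trans (le_of_eq ?_) hC
    exact integral_sh 0 (src k x) (F := fun η => |X β h η n - F η| ^ (2 * q))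
      (((mX.sub mF).abs).pow_const _)
  have hUs : ∀ η : Env d, Us β h n k x η - Us β h n k 0 η =
      X β h (sh 0 (src k x) η) n - X β h η n := by
    intro η
    unfold Us
    have : src k 0 = (0 : Site d) := by
      unfold src
      simp
    rw [this, TubV_sh]
  have hMo : Mo ρ β h n k q x = ∫ η, |X β h (sh 0 (src k x) η) n - X β h η n| ^ (2 * q) ∂(law d ρ) := by
    unfold Mo
    refine integral_congr_ae (Filter.Eventually.of_forall fun η => ?_)
    simp only
    rw [hUs, hev.pow_abs]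
  have hBi : Integrable (fun η => |X β h (sh 0 (src k x) η) n - X β h η n| ^ (2 * q)) (law d ρ) := by
    refine ((hXi'.add hXi).const_mul (3 ^ (2 * q))).mono'
      (((mX'.sub mX).abs).pow_const _).aestronglyMeasurable
      (Filter.Eventually.of_forall fun η => ?_)
    rw [Real.norm_eq_abs, abs_of_nonneg (by positivity)]
    have e1 : |X β h (sh 0 (src k x) η) n - X β h η n| ≤
        |X β h (sh 0 (src k x) η) n - A ρ β h n| + |X β h η n - A ρ β h n| + 0 := by
      rw [add_zero]
      have := abs_sub (X β h (sh 0 (src k x) η) n - A ρ β h n) (X β h η n - A ρ β h n)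
      rwa [sub_sub_sub_cancel_right] at this
    refine (pow_le_pow_left₀ (abs_nonneg _) e1 _).trans ((pow3 (abs_nonneg _) (abs_nonneg _)
      le_rfl _).trans ?_)
    rw [zero_pow (by omega), add_zero]
    exact le_rfl
  -- the difference of the two copies
  have hFG : ∫ η, (F η - G η) ^ (2 * q) ∂(law d ρ) ≤
      3 ^ (2 * q) * (C1 + Mo ρ β h n k q x + C1) := by
    have hdom : Integrable (fun η => 3 ^ (2 * q) * (|X β h η n - F η| ^ (2 * q) +
        |X β h (sh 0 (src k x) η) n - X β h η n| ^ (2 * q) +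
        |X β h (sh 0 (src k x) η) n - G η| ^ (2 * q))) (law d ρ) :=
      ((hi.add hBi).add hi').const_mul _
    have hle : ∀ η, (F η - G η) ^ (2 * q) ≤ 3 ^ (2 * q) * (|X β h η n - F η| ^ (2 * q) +
        |X β h (sh 0 (src k x) η) n - X β h η n| ^ (2 * q) +
        |X β h (sh 0 (src k x) η) n - G η| ^ (2 * q)) := by
      intro η
      rw [← hev.pow_abs]
      refine (pow_le_pow_left₀ (abs_nonneg _) ?_ _).trans (pow3 (abs_nonneg _) (abs_nonneg _)
        (abs_nonneg _) _)
      have e1 : F η - G η = -(X β h η n - F η) - (X β h (sh 0 (src k x) η) n - X β h η n) +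
          (X β h (sh 0 (src k x) η) n - G η) := by ring
      rw [e1]
      refine (abs_add_le _ _).trans ?_
      have e2 := abs_sub (-(X β h η n - F η)) (X β h (sh 0 (src k x) η) n - X β h η n)
      rw [abs_neg] at e2
      linarith
    have hFGi : Integrable (fun η => (F η - G η) ^ (2 * q)) (law d ρ) :=
      hdom.mono' ((mF.sub mG).pow_const _).aestronglyMeasurable
        (Filter.Eventually.of_forall fun η => by
          rw [Real.norm_eq_abs, abs_of_nonneg (hev.pow_nonneg _)]
          exact hle η)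
    refine (integral_mono hFGi hdom hle).trans ?_
    rw [integral_const_mul, int3 hi hBi hi', ← hMo]
    refine mul_le_mul_of_nonneg_left ?_ (by positivity)
    linarith
  -- the means
  have hC1 : 0 ≤ C1 := (integral_nonneg fun η => by positivity).trans hC
  have hFi : Integrable F (law d ρ) :=
    (integrable_const (|A ρ β h n| + n)).mono' mF.aestronglyMeasurable
      (Filter.Eventually.of_forall fun η => TS_le β h u s n W η)
  have habs : Integrable (fun η => |X β h η n - F η|) (law d ρ) := by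
    refine ((integrable_const (1 : ℝ)).add hi).mono' ((mX.sub mF).abs).aestronglyMeasurable
      (Filter.Eventually.of_forall fun η => ?_)
    rw [Real.norm_eq_abs, abs_abs]
    rcases le_total (|X β h η n - F η|) 1 with h1 | h1
    · exact h1.trans (le_add_of_nonneg_right (by positivity))
    · have := le_self_pow₀ h1 (show 2 * q ≠ 0 by omega)
      simp only [Pi.add_apply]
      linarith
  have hmean : |m - A ρ β h n| ≤ 1 + C1 := by
    have hsub : Integrable (fun η => X β h η n - F η) (law d ρ) :=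
      habs.mono (mX.sub mF).aestronglyMeasurable (Filter.Eventually.of_forall fun η => by
        rw [Real.norm_eq_abs, Real.norm_eq_abs, abs_abs])
    have hXint : Integrable (fun η => X β h η n) (law d ρ) := by
      have := hsub.add hFi
      refine this.congr (Filter.Eventually.of_forall fun η => ?_)
      simp
    have e1 : A ρ β h n - m = ∫ η, (X β h η n - F η) ∂(law d ρ) := by
      rw [integral_sub hXint hFi]
      rfl
    rw [abs_sub_comm, e1]
    refine (abs_integral_le_integral_abs).trans ?_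
    have e2 : ∫ η, |X β h η n - F η| ∂(law d ρ) ≤
        ∫ η, (1 + |X β h η n - F η| ^ (2 * q)) ∂(law d ρ) := by
      refine integral_mono habs ((integrable_const (1 : ℝ)).add hi) fun η => ?_
      rcases le_total (|X β h η n - F η|) 1 with h1 | h1
      · exact h1.trans (le_add_of_nonneg_right (by positivity))
      · have := le_self_pow₀ h1 (show 2 * q ≠ 0 by omega)
        simp only
        linarith
    refine e2.trans ?_
    rw [integral_add (integrable_const _) hi]
    simp only [integral_const, probReal_univ, smul_eq_mul, mul_one]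
    linarith
  -- the end
  have hFm : Integrable (fun η => |F η - m| ^ (2 * q)) (law d ρ) := by
    refine (integrable_const ((|A ρ β h n| + n + |m|) ^ (2 * q))).mono'
      (((mF.sub_const m).abs).pow_const _).aestronglyMeasurable
      (Filter.Eventually.of_forall fun η => ?_)
    rw [Real.norm_eq_abs, abs_of_nonneg (by positivity)]
    refine pow_le_pow_left₀ (abs_nonneg _) ((abs_sub _ _).trans ?_) _
    have := TS_le (ρ := ρ) β h u s n W η
    rw [← hF] at this
    linarith
  have hend : ∀ η, |X β h η n - A ρ β h n| ^ (2 * q) ≤ 3 ^ (2 * q) *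
      (|X β h η n - F η| ^ (2 * q) + |F η - m| ^ (2 * q) + (1 + C1) ^ (2 * q)) := by
    intro η
    refine (pow_le_pow_left₀ (abs_nonneg _) ?_ _).trans (pow3 (abs_nonneg _) (abs_nonneg _)
      (by positivity) _)
    have e1 : X β h η n - A ρ β h n = (X β h η n - F η) + (F η - m) + (m - A ρ β h n) := by ring
    rw [e1]
    refine (abs_add_le _ _).trans ?_
    have := abs_add_le (X β h η n - F η) (F η - m)
    linarith
  have hdom : Integrable (fun η => 3 ^ (2 * q) * (|X β h η n - F η| ^ (2 * q) +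
      |F η - m| ^ (2 * q) + (1 + C1) ^ (2 * q))) (law d ρ) :=
    ((hi.add hFm).add (integrable_const _)).const_mul _
  refine (integral_mono hXi hdom hend).trans ?_
  rw [integral_const_mul, int3 hi hFm (integrable_const _)]
  refine mul_le_mul_of_nonneg_left ?_ (by positivity)
  have e3 : ∫ η, |F η - m| ^ (2 * q) ∂(law d ρ) = ∫ η, (F η - m) ^ (2 * q) ∂(law d ρ) := by
    refine integral_congr_ae (Filter.Eventually.of_forall fun η => ?_)
    exact hev.pow_abs _
  have e4 : ∫ _ : Env d, (1 + C1) ^ (2 * q) ∂(law d ρ) = (1 + C1) ^ (2 * q) := by simp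
  rw [e3, e4]
  have e5 := hcopy.trans hFG
  linarith

end SlbL96

variable {d : ℕ} {ρ : Measure ℝ} [IsProbabilityMeasure ρ]

open Tube67 SlbL96 in
/-- U12: the fluctuations of the free energy are at most the square root of the wandering. -/
theorem slbV96 (hd : 0 < d) (hρ : EM ρ) (β R : ℝ) {u : Vec d} {k : Fin d} (hk : 1 ≤ |u k|)
    (hS : SpaceV d ρ β R) : SlbV d ρ β R u := by
  intro ε q hε
  rcases Nat.eq_zero_or_pos q with rfl | hq
  · exact ⟨0, 1, fun h hh s n hn W hW hWn hP => by simp⟩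
  obtain ⟨C1, hC1, h1⟩ := SlbL96.near_mom (ρ := ρ) hd hρ β (r := 2 * q) (by omega)
  obtain ⟨C3, h3⟩ := hS (2 * ε) (by linarith) q
  obtain ⟨C2, hC2, h2⟩ := momU (ρ := ρ) hd hρ β (2 * q)
  obtain ⟨C4, hC4, h4⟩ := momU (ρ := ρ) hd hρ β q
  set K : ℝ := 3 ^ (2 * q) * (C1 + 3 ^ (2 * q) * (C1 + C1) + (1 + C1) ^ (2 * q)) with hK
  set K' : ℝ := 3 ^ (2 * q) * 3 ^ (2 * q) * (3 * |C3|) ^ q with hK'
  have hK0 : 0 ≤ K := by positivity
  have hK'0 : 0 ≤ K' := by positivity
  refine ⟨2 * q, 1 + K + K', fun h hh s n hn W hW hWn hP => ?_⟩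
  have hn0 : (0 : ℝ) < n := by exact_mod_cast hn
  have hn1 : (1 : ℝ) ≤ n := by exact_mod_cast hn
  have hW0 : 0 < W := by linarith
  obtain ⟨hi, hC⟩ := h1 h u s n hn W (by exact_mod_cast hP)
  set x : ℕ := ⌊W⌋₊ + 1 with hx
  have hx1 : W < x := by
    have := Nat.lt_floor_add_one W
    rw [hx]
    push_cast
    linarith
  have hx2 : (x : ℝ) ≤ W + 1 := by
    have := Nat.floor_le hW0.le
    rw [hx]
    push_cast
    linarith
  have hx3 : x ≤ 5 * n := by
    have e1 : (x : ℝ) ≤ 5 * n := by linarith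
    exact_mod_cast e1
  have hmain := main96 hd hρ β h u s hn hk hx1 hq hi hC
  have hMo := h3 h hh n hn k x hx3
  set Y : ℝ := (W * (n : ℝ) ^ (2 * ε)) ^ q with hY
  have hne : 1 ≤ (n : ℝ) ^ (2 * ε) := Real.one_le_rpow hn1 (by linarith)
  have hWn1 : 1 ≤ W * (n : ℝ) ^ (2 * ε) := by nlinarith
  have hY1 : 1 ≤ Y := one_le_pow₀ hWn1
  have hMo2 : Mo ρ β h n k q x ≤ (3 * |C3|) ^ q * Y := by
    refine hMo.trans ?_
    rw [hY, ← mul_pow]
    have e1 : C3 * ((x : ℝ) + 1) * (n : ℝ) ^ (2 * ε) ≤ 3 * |C3| * (W * (n : ℝ) ^ (2 * ε)) := by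
      have e2 : C3 * ((x : ℝ) + 1) ≤ |C3| * (3 * W) := by
        calc C3 * ((x : ℝ) + 1) ≤ |C3| * ((x : ℝ) + 1) :=
              mul_le_mul_of_nonneg_right (le_abs_self _) (by positivity)
          _ ≤ _ := mul_le_mul_of_nonneg_left (by linarith) (abs_nonneg _)
      calc C3 * ((x : ℝ) + 1) * (n : ℝ) ^ (2 * ε) ≤ |C3| * (3 * W) * (n : ℝ) ^ (2 * ε) :=
            mul_le_mul_of_nonneg_right e2 (by positivity)
        _ = _ := by ring
    have e3 : |C3 * ((x : ℝ) + 1) * (n : ℝ) ^ (2 * ε)| ≤ 3 * |C3| * (W * (n : ℝ) ^ (2 * ε)) := by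
      rw [abs_mul, abs_mul, abs_of_nonneg (show (0 : ℝ) ≤ (x : ℝ) + 1 by positivity),
        abs_of_nonneg (show (0 : ℝ) ≤ (n : ℝ) ^ (2 * ε) by positivity)]
      calc |C3| * ((x : ℝ) + 1) * (n : ℝ) ^ (2 * ε) ≤ |C3| * (3 * W) * (n : ℝ) ^ (2 * ε) :=
            mul_le_mul_of_nonneg_right (mul_le_mul_of_nonneg_left (by linarith) (abs_nonneg _))
              (by positivity)
        _ = _ := by ring
    calc (C3 * ((x : ℝ) + 1) * (n : ℝ) ^ (2 * ε)) ^ q
        ≤ |(C3 * ((x : ℝ) + 1) * (n : ℝ) ^ (2 * ε)) ^ q| := le_abs_self _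
      _ = |C3 * ((x : ℝ) + 1) * (n : ℝ) ^ (2 * ε)| ^ q := abs_pow _ _
      _ ≤ _ := pow_le_pow_left₀ (abs_nonneg _) e3 _
  have hbound : ∫ η, |X β h η n - A ρ β h n| ^ (2 * q) ∂(law d ρ) ≤
      ((1 + K + K') * Real.sqrt W * (n : ℝ) ^ ε) ^ (2 * q) := by
    have e1 : ((1 + K + K') * Real.sqrt W * (n : ℝ) ^ ε) ^ (2 * q) = (1 + K + K') ^ (2 * q) * Y := by
      rw [mul_assoc, mul_pow]
      congr 1
      rw [hY, pow_mul, mul_pow, Real.sq_sqrt hW0.le, ← Real.rpow_natCast ((n : ℝ) ^ ε) 2,
        ← Real.rpow_mul hn0.le]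
      congr 3
      push_cast
      ring
    have e2 : 3 ^ (2 * q) * (C1 + 3 ^ (2 * q) * (C1 + Mo ρ β h n k q x + C1) +
        (1 + C1) ^ (2 * q)) ≤ K + K' * Y := by
      have e3 : 3 ^ (2 * q) * (C1 + 3 ^ (2 * q) * (C1 + Mo ρ β h n k q x + C1) +
        (1 + C1) ^ (2 * q)) = K + 3 ^ (2 * q) * 3 ^ (2 * q) * Mo ρ β h n k q x := by
        rw [hK]
        ring
      rw [e3]
      have e4 := mul_le_mul_of_nonneg_left hMo2 (show (0 : ℝ) ≤ 3 ^ (2 * q) * 3 ^ (2 * q) by
        positivity)
      rw [hK']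
      linarith
    have e5 : 1 + K + K' ≤ (1 + K + K') ^ (2 * q) :=
      le_self_pow₀ (by linarith) (by omega)
    rw [e1]
    refine hmain.trans (e2.trans ?_)
    have e6 : K + K' * Y ≤ (1 + K + K') * Y := by nlinarith
    exact e6.trans (mul_le_mul_of_nonneg_right e5 (by linarith))
  -- from the power `2 q` to the power `q`
  obtain ⟨hi2, _⟩ := h2 h n hn
  obtain ⟨hi4, _⟩ := h4 h n hn
  have hpow : ∀ η, (|X β h η n - A ρ β h n| ^ q) ^ 2 = |X β h η n - A ρ β h n| ^ (2 * q) := by
    intro η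
    rw [← pow_mul, mul_comm]
  have hsq := sq_int (ρ := ρ) hi4 (by
    refine hi2.congr (Filter.Eventually.of_forall fun η => ?_)
    exact (hpow η).symm)
  simp only [hpow] at hsq
  have hfin := hsq.trans hbound
  have e7 : ((1 + K + K') * Real.sqrt W * (n : ℝ) ^ ε) ^ (2 * q) =
      (((1 + K + K') * Real.sqrt W * (n : ℝ) ^ ε) ^ q) ^ 2 := by
    rw [← pow_mul, mul_comm q 2]
  rw [e7] at hfin
  exact le_of_sq_le_sq hfin (by positivity)

end Pool.Agent.W_7d29a1_V
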