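import Pool.Agent.W_7d29a1_V.AeB7

/-!
Bootstrap at one tilt, part (b): the tubes at the tilts near `h`, with the slope `v` of `h`:
conclusion.
-/

namespace Pool.Agent.W_7d29a1_V

open MeasureTheory ProbabilityTheory Filter Topology Pool.Agent.W_MP_7d29a1_pr
  Pool.Agent.W_7d29a1_h46 Pool.Agent.W_7d29a1_h46u Pool.Agent.W_7d29a1_D2

namespace Ae7

variable {d : ℕ} {ρ : Measure ℝ} [IsProbabilityMeasure ρ]

/-- The real inequalities for `t = max a (n ^ ((x - 1) / p))`. -/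
theorem arithM {p x a : ℝ} (hp : 1 < p) (hx : 1 / (p + 1) ≤ x) (ha : 0 ≤ a)
    {n : ℕ} (hn : 1 ≤ n) {t : ℝ} (ht : t = max a ((n : ℝ) ^ ((x - 1) / p))) :
    (n : ℝ) ^ x ≤ n * t ^ p ∧
    Real.sqrt (n * (2 * t) ^ (p - 1)) ≤ (2 : ℝ) ^ ((p - 1) / 2) * (n * t ^ p) ∧
    n * t ^ p ≤ t * (n * a ^ (p - 1) + (n : ℝ) ^ aX p x) := by
  have hn1 : (1 : ℝ) ≤ n := by exact_mod_cast hn
  have hn0 : (0 : ℝ) < n := by linarith
  have hp0 : 0 < p := by linarith
  have hp1 : 0 < p - 1 := by linarith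
  obtain ⟨b, hb⟩ : ∃ b : ℝ, b = (n : ℝ) ^ ((x - 1) / p) := ⟨_, rfl⟩
  have hb0 : 0 < b := by
    rw [hb]
    exact Real.rpow_pos_of_pos hn0 _
  rw [← hb] at ht
  have hbt : b ≤ t := by
    rw [ht]
    exact le_max_right _ _
  have ht0 : 0 < t := lt_of_lt_of_le hb0 hbt
  have hbp : n * b ^ p = (n : ℝ) ^ x := by
    rw [hb, ← Real.rpow_mul hn0.le]
    have e1 : (n : ℝ) * (n : ℝ) ^ ((x - 1) / p * p) = (n : ℝ) ^ (1 + (x - 1) / p * p) := by
      rw [Real.rpow_add hn0, Real.rpow_one]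
    rw [e1]
    congr 1
    field_simp
    ring
  refine ⟨?_, ?_, ?_⟩
  · rw [← hbp]
    exact mul_le_mul_of_nonneg_left (Real.rpow_le_rpow hb0.le hbt hp0.le) hn0.le
  · have h1 : 1 ≤ n * t ^ (p + 1) := by
      have e1 : 1 ≤ n * b ^ (p + 1) := by
        rw [hb, ← Real.rpow_mul hn0.le]
        have e2 : (n : ℝ) * (n : ℝ) ^ ((x - 1) / p * (p + 1)) =
            (n : ℝ) ^ (1 + (x - 1) / p * (p + 1)) := by
          rw [Real.rpow_add hn0, Real.rpow_one]
        rw [e2]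
        refine Real.one_le_rpow hn1 ?_
        have e3 : 1 + (x - 1) / p * (p + 1) = (x * (p + 1) - 1) / p := by
          field_simp
          ring
        rw [e3]
        refine div_nonneg ?_ hp0.le
        rw [div_le_iff₀ (by linarith)] at hx
        linarith
      exact e1.trans (mul_le_mul_of_nonneg_left
        (Real.rpow_le_rpow hb0.le hbt (by linarith)) hn0.le)
    have h2 : Real.sqrt (n * (2 * t) ^ (p - 1)) ≤
        Real.sqrt (((2 : ℝ) ^ ((p - 1) / 2) * (n * t ^ p)) ^ 2) := by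
      refine Real.sqrt_le_sqrt ?_
      have e1 : ((2 : ℝ) ^ ((p - 1) / 2) * (n * t ^ p)) ^ 2 =
          (n * (2 * t) ^ (p - 1)) * (n * t ^ (p + 1)) := by
        have a1 : ((2 : ℝ) ^ ((p - 1) / 2)) ^ 2 = (2 : ℝ) ^ (p - 1) := by
          rw [← Real.rpow_natCast, ← Real.rpow_mul (by norm_num)]
          congr 1
          push_cast
          ring
        have a2 : (t ^ p) ^ 2 = t ^ (p - 1) * t ^ (p + 1) := by
          rw [← Real.rpow_natCast, ← Real.rpow_mul ht0.le, ← Real.rpow_add ht0]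
          congr 1
          push_cast
          ring
        rw [mul_pow, mul_pow, a1, a2, Real.mul_rpow (by norm_num) ht0.le]
        ring
      rw [e1]
      exact le_mul_of_one_le_right (by positivity) h1
    refine h2.trans (le_of_eq ?_)
    exact Real.sqrt_sq (by positivity)
  · have h1 : t ^ (p - 1) ≤ a ^ (p - 1) + b ^ (p - 1) := by
      have hb1 : 0 ≤ b ^ (p - 1) := Real.rpow_nonneg hb0.le _
      have ha1 : 0 ≤ a ^ (p - 1) := Real.rpow_nonneg ha _
      rcases max_choice a b with h2 | h2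
      · rw [ht, h2]
        linarith
      · rw [ht, h2]
        linarith
    have h2 : (n : ℝ) * b ^ (p - 1) = (n : ℝ) ^ aX p x := by
      rw [hb, ← Real.rpow_mul hn0.le]
      have e1 : (n : ℝ) * (n : ℝ) ^ ((x - 1) / p * (p - 1)) =
          (n : ℝ) ^ (1 + (x - 1) / p * (p - 1)) := by
        rw [Real.rpow_add hn0, Real.rpow_one]
      rw [e1]
      congr 1
      unfold aX
      ring
    rw [← h2, ← mul_add]
    have h3 : t ^ p = t * t ^ (p - 1) := by
      have e1 : t ^ (1 + (p - 1)) = t ^ (1 : ℝ) * t ^ (p - 1) := Real.rpow_add ht0 _ _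
      rw [Real.rpow_one] at e1
      rw [← e1]
      congr 1
      ring
    rw [h3]
    have h4 := mul_le_mul_of_nonneg_left h1 (mul_nonneg hn0.le ht0.le)
    calc n * (t * t ^ (p - 1)) = n * t * t ^ (p - 1) := by ring
      _ ≤ n * t * (a ^ (p - 1) + b ^ (p - 1)) := h4
      _ = _ := by ring

end Ae7

open Ae7

variable {d : ℕ} {ρ : Measure ℝ} [IsProbabilityMeasure ρ]

/-- **(b)** The tubes at the tilts near `h`. -/
theorem tubM7 (hd : 0 < d) (hρ : EM ρ) {β : ℝ} {h v : Vec d} {p x : ℝ} (hp : 1 < p)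
    (hv : ∀ k : Vec d, lam ρ β h + inner ℝ v k ≤ lam ρ β (h + k)) (hU : UpG (lam ρ β) h v p)
    (hx : 1 / (p + 1) ≤ x) (hx1 : x ≤ 1 / 2) (hF : FlM ρ β h p x) : TubM ρ β h v p x := by
  intro e he Q
  have hd0 : (0 : ℝ) < d := by exact_mod_cast hd
  have hx0 : 0 < x := lt_of_lt_of_le (by positivity) hx
  obtain ⟨ε, hε, hεe, hε1⟩ : ∃ ε : ℝ, 0 < ε ∧ 3 * ε ≤ e ∧ ε < 1 / 2 := by
    refine ⟨min (e / 3) (1 / 4), lt_min (by linarith) (by norm_num), ?_, ?_⟩
    · have := min_le_left (e / 3) (1 / 4)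
      linarith
    · have := min_le_right (e / 3) (1 / 4)
      linarith
  obtain ⟨r₁, hr₁, C₁, hC₁, H₁⟩ := rateM hd hρ hx0.le hx1 hF hε hε1
  obtain ⟨r₂, hr₂, C₂, hC₂, H₂⟩ := probM hd hρ hp.le hx0.le hF hε Q
  obtain ⟨C₃, δ, hδ, H₃⟩ := hU
  obtain ⟨S, hS⟩ : ∃ S : ℝ, S = (2 : ℝ) ^ ((p - 1) / 2) := ⟨_, rfl⟩
  have hS0 : 0 < S := by
    rw [hS]
    positivity
  obtain ⟨C', hC'⟩ : ∃ C' : ℝ, C' = |C₃| * 2 ^ p + 3 * (1 + S) + C₁ * (1 + S) := ⟨_, rfl⟩
  have hC'0 : 0 ≤ C' := by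
    rw [hC']
    positivity
  -- large `n`
  have hcast := tendsto_natCast_atTop_atTop (R := ℝ)
  have hsmall : ∀ᶠ n : ℕ in atTop, (n : ℝ) ^ ((x - 1) / p) < min (r₂ / 2) (δ / 2) := by
    have h0 : 0 < (1 - x) / p := div_pos (by linarith) (by linarith)
    have h1 := (tendsto_rpow_neg_atTop h0).comp hcast
    have h2 := h1.eventually (gt_mem_nhds (show (0 : ℝ) < min (r₂ / 2) (δ / 2) from
      lt_min (by linarith) (by linarith)))
    refine h2.mono fun n hn => ?_
    have e1 : (x - 1) / p = -((1 - x) / p) := by ring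
    rw [e1]
    exact hn
  have hbig : ∀ᶠ n : ℕ in atTop, (d : ℝ) * C' ≤ (n : ℝ) ^ (2 * ε) :=
    ((tendsto_rpow_atTop (show 0 < 2 * ε by linarith)).comp hcast).eventually
      (eventually_ge_atTop _)
  obtain ⟨N, hN⟩ := eventually_atTop.1
    ((hsmall.and hbig).and (TubW_asym d hd C' hC'0 hx0 hε Q))
  refine ⟨min r₁ (min (r₂ / 2) (δ / 2)), lt_min hr₁ (lt_min (by linarith) (by linarith)),
    max (C₂ + 4 * d) ((N : ℝ) ^ (Q : ℝ)), fun h' hh' n hn W hW => ?_⟩
  have hh1 : ‖h' - h‖ < r₁ := hh'.trans_le (min_le_left _ _)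
  have hh2 : ‖h' - h‖ < min (r₂ / 2) (δ / 2) := hh'.trans_le (min_le_right _ _)
  have hn1 : (1 : ℝ) ≤ n := by exact_mod_cast hn
  have hn0 : (0 : ℝ) < n := by linarith
  have hq0 : 0 ≤ (n : ℝ) ^ (-(Q : ℝ)) := Real.rpow_nonneg hn0.le _
  have hint : ∀ η : Env d, 1 - PolT β h' η (tube d n v W) ≤ 1 := fun η => by
    have := PolT_nonneg β h' η (tube d n v W)
    linarith
  have hint0 : ∀ η : Env d, 0 ≤ 1 - PolT β h' η (tube d n v W) := fun η => by
    have := PolT_le_one β h' η (tube d n v W)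
    linarith
  rcases lt_or_ge n N with hnN | hnN
  · -- small n
    have h1 : ∫ η, (1 - PolT β h' η (tube d n v W)) ∂(law d ρ) ≤ 1 := by
      have h2 := integral_mono_of_nonneg (μ := law d ρ) (Eventually.of_forall hint0)
        (integrable_const (1 : ℝ)) (Eventually.of_forall hint)
      refine h2.trans (le_of_eq ?_)
      simp
    refine h1.trans ?_
    have h3 : 1 ≤ (N : ℝ) ^ (Q : ℝ) * (n : ℝ) ^ (-(Q : ℝ)) := by
      rw [Real.rpow_neg hn0.le, ← div_eq_mul_inv, one_le_div (Real.rpow_pos_of_pos hn0 _)]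
      exact Real.rpow_le_rpow hn0.le (by exact_mod_cast hnN.le) (Nat.cast_nonneg Q)
    exact h3.trans (mul_le_mul_of_nonneg_right (le_max_right _ _) hq0)
  · obtain ⟨⟨ht1, hb1⟩, hasym⟩ := hN n hnN
    obtain ⟨t, ht⟩ : ∃ t : ℝ, t = max ‖h' - h‖ ((n : ℝ) ^ ((x - 1) / p)) := ⟨_, rfl⟩
    obtain ⟨A1, A2, A3⟩ := arithM hp hx (norm_nonneg (h' - h)) hn ht
    have hat : ‖h' - h‖ ≤ t := by
      rw [ht]
      exact le_max_left _ _
    have ht0 : 0 < t := by
      have h1 : 0 < (n : ℝ) ^ ((x - 1) / p) := Real.rpow_pos_of_pos hn0 _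
      rw [ht]
      exact lt_of_lt_of_le h1 (le_max_right _ _)
    have htl : t < min (r₂ / 2) (δ / 2) := by
      rw [ht]
      exact max_lt hh2 ht1
    have htr : t < r₂ / 2 := htl.trans_le (min_le_left _ _)
    have htδ : t < δ / 2 := htl.trans_le (min_le_right _ _)
    rw [← hS] at A2
    obtain ⟨T, hT⟩ : ∃ T : ℝ, T = n * t ^ p := ⟨_, rfl⟩
    rw [← hT] at A1 A2 A3
    have hT0 : 0 < T := by
      rw [hT]
      positivity
    have hmdt : ∀ a : ℝ, 0 ≤ a → a ≤ 2 * t → md x (a ^ (p - 1)) n ≤ (1 + S) * T := by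
      intro a ha hat'
      refine (md_mono_t (Real.rpow_le_rpow ha hat' (by linarith)) n).trans ?_
      unfold md
      linarith
    have hyε : 0 < (n : ℝ) ^ ε := Real.rpow_pos_of_pos hn0 _
    have hyε1 : 1 ≤ (n : ℝ) ^ ε := Real.one_le_rpow hn1 hε.le
    obtain ⟨u, hu⟩ : ∃ u : ℝ, u = (n : ℝ) ^ ε * ((1 + S) * T) := ⟨_, rfl⟩
    have hbad := H₂ h' t ht0.le (by linarith) n u hn (by
      rw [hu]
      exact mul_le_mul_of_nonneg_left (hmdt _ (by positivity) (by linarith)) hyε.le)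
    have hR : n * lam ρ β h' - A ρ β h' n ≤ C₁ * u := by
      refine (H₁ h' hh1 n hn).trans (mul_le_mul_of_nonneg_left ?_ hC₁)
      rw [hu]
      exact mul_le_mul_of_nonneg_left (hmdt _ (norm_nonneg _) (by linarith)) hyε.le
    have hE : ∀ j : Fin d, ∀ s : ℝ, |s| = t →
        lam ρ β (h' + s • ej j) ≤ lam ρ β h' + v j * s + |C₃| * (2 * t) ^ p := by
      intro j s hs
      have hej : ‖ej j‖ = 1 := by
        unfold ej
        simp
      have e1 : ‖(h' - h) + s • ej j‖ ≤ 2 * t := by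
        refine (norm_add_le _ _).trans ?_
        rw [norm_smul, hej, mul_one, Real.norm_eq_abs, hs]
        linarith
      have e2 := H₃ ((h' - h) + s • ej j) (by linarith)
      have e3 : C₃ * ‖(h' - h) + s • ej j‖ ^ p ≤ |C₃| * (2 * t) ^ p :=
        mul_le_mul (le_abs_self _) (Real.rpow_le_rpow (norm_nonneg _) e1 (by linarith))
          (Real.rpow_nonneg (norm_nonneg _) _) (abs_nonneg _)
      have e4 : gap (lam ρ β) h v ((h' - h) + s • ej j) =
          lam ρ β (h' + s • ej j) - lam ρ β h - (inner ℝ v (h' - h) + v j * s) := by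
        unfold gap
        have f1 : h + ((h' - h) + s • ej j) = h' + s • ej j := by abel
        have f2 : inner ℝ v ((h' - h) + s • ej j) = inner ℝ v (h' - h) + v j * s := by
          rw [inner_add_right, real_inner_smul_right]
          unfold ej
          rw [EuclideanSpace.inner_single_right]
          simp
          ring
        rw [f1, f2]
      have e5 := hv (h' - h)
      have e6 : h + (h' - h) = h' := by abel
      rw [e6] at e5
      rw [e4] at e2
      linarith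
    have hexp : n * (|C₃| * (2 * t) ^ p) + 3 * u + C₁ * u - t * (W / d) ≤
        C' * (n : ℝ) ^ (x + ε) - (n : ℝ) ^ (x + 3 * ε) / d := by
      obtain ⟨y, hy⟩ : ∃ y : ℝ, y = (n : ℝ) ^ ε := ⟨_, rfl⟩
      have f1 : (n : ℝ) ^ (x + ε) = (n : ℝ) ^ x * y := by rw [hy, Real.rpow_add hn0]
      have f2 : (n : ℝ) ^ (x + 3 * ε) = (n : ℝ) ^ x * (n : ℝ) ^ (3 * ε) := Real.rpow_add hn0 _ _
      have f3 : (n : ℝ) ^ (3 * ε) = y * (n : ℝ) ^ (2 * ε) := by
        rw [hy, ← Real.rpow_add hn0]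
        congr 1
        ring
      have f4 : n * (|C₃| * (2 * t) ^ p) = |C₃| * 2 ^ p * T := by
        rw [hT, Real.mul_rpow (by norm_num) ht0.le]
        ring
      have f5 : (n : ℝ) ^ (3 * ε) * T ≤ t * W := by
        have g1 : (n : ℝ) ^ (3 * ε) ≤ (n : ℝ) ^ e := Real.rpow_le_rpow_of_exponent_le hn1 hεe
        have g2 : (n : ℝ) ^ (3 * ε) * T ≤ (n : ℝ) ^ e *
            (t * (n * ‖h' - h‖ ^ (p - 1) + (n : ℝ) ^ aX p x)) :=
          mul_le_mul g1 A3 hT0.le (Real.rpow_nonneg hn0.le _)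
        have g3 := mul_le_mul_of_nonneg_left hW ht0.le
        linarith
      have f6 : t * (W / d) = t * W / d := by ring
      have f7 : (n : ℝ) ^ (3 * ε) * T / d ≤ t * W / d :=
        div_le_div_of_nonneg_right f5 hd0.le
      have f8 : |C₃| * 2 ^ p * T ≤ |C₃| * 2 ^ p * T * y :=
        le_mul_of_one_le_right (by positivity) (by rw [hy]; exact hyε1)
      have f9 : n * (|C₃| * (2 * t) ^ p) + 3 * u + C₁ * u ≤ C' * y * T := by
        rw [f4, hu, hC', ← hy]
        nlinarith [f8]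
      have f10 : C' * y ≤ (n : ℝ) ^ (3 * ε) / d := by
        rw [le_div_iff₀ hd0, f3]
        have g1 : 0 ≤ y := by
          rw [hy]
          exact hyε.le
        nlinarith [mul_le_mul_of_nonneg_left hb1 g1]
      have f11 : (C' * y - (n : ℝ) ^ (3 * ε) / d) * T ≤
          (C' * y - (n : ℝ) ^ (3 * ε) / d) * (n : ℝ) ^ x :=
        mul_le_mul_of_nonpos_left A1 (by linarith)
      rw [f1, f2, f6]
      have f12 : (n : ℝ) ^ (3 * ε) * T / d = (n : ℝ) ^ (3 * ε) / d * T := by ring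
      have f13 : (n : ℝ) ^ x * (n : ℝ) ^ (3 * ε) / d = (n : ℝ) ^ (3 * ε) / d * (n : ℝ) ^ x := by
        ring
      rw [f12] at f7
      rw [f13]
      linarith
    have hmain := TubW_split (μ := law d ρ)
      (f := fun η => 1 - PolT β h' η (tube d n v W)) hint
      (G := {η | GdU ρ β h' t u n η}) (b := 4 * d * (n : ℝ) ^ (-(Q : ℝ)))
      (by positivity)
      (fun η hη => (tube_goodM hd hρ ht0 (by positivity) hE hR hη).trans
        ((mul_le_mul_of_nonneg_left (Real.exp_le_exp.2 hexp) (by positivity)).trans hasym))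
      hint0
    have hset : ({η | GdU ρ β h' t u n η} : Set (Env d))ᶜ =
        {η | ¬ GdU ρ β h' t u n η} := rfl
    rw [hset] at hmain
    refine hmain.trans ?_
    calc (law d ρ).real {η | ¬ GdU ρ β h' t u n η} +
          4 * d * (n : ℝ) ^ (-(Q : ℝ)) ≤ C₂ * (n : ℝ) ^ (-(Q : ℝ)) +
          4 * d * (n : ℝ) ^ (-(Q : ℝ)) := add_le_add hbad le_rfl
      _ = (C₂ + 4 * d) * (n : ℝ) ^ (-(Q : ℝ)) := by ring
      _ ≤ _ := mul_le_mul_of_nonneg_right (le_max_left _ _) hq0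

end Pool.Agent.W_7d29a1_V
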