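import Pool.Agent.W_7d29a1_V.DefsA70

/-!
The bootstrap on one line of tilts `h + t u` with `lam (h + t u) ≤ lam h + s t + C |t| ^ p`:
definitions and the statements of its steps. The tube is replaced by the slab
`|⟨u, S_i⟩ - i s| ≤ W`.
-/

namespace Pool.Agent.W_7d29a1_V

open MeasureTheory ProbabilityTheory Filter Topology Pool.Agent.W_MP_7d29a1_pr
  Pool.Agent.W_7d29a1_h46 Pool.Agent.W_7d29a1_h46u Pool.Agent.W_7d29a1_D2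

/-- The walks in the slab `|⟨u, S_i⟩ - i s| ≤ W`. -/
def slb (d n : ℕ) (u : Vec d) (s W : ℝ) : Set (Fin n → Step d) :=
  {q | ∀ i ≤ n, |inner ℝ u (emb (pos q i)) - i * s| ≤ W}

/-- The moments at the tilts `h + t u` near `h` are those of a variable of size
`n ^ x + (n |t| ^ (p - 1)) ^ (1 / 2)`, up to `n ^ e`. -/
def FlL {d : ℕ} (ρ : Measure ℝ) (β : ℝ) (h u : Vec d) (p x : ℝ) : Prop :=
  ∀ e : ℝ, 0 < e → ∀ q : ℕ, ∃ r : ℝ, 0 < r ∧ ∃ C : ℝ, ∀ t : ℝ, |t| < r → ∀ n : ℕ, 1 ≤ n →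
    ∫ η, |X β (h + t • u) η n - A ρ β (h + t • u) n| ^ q ∂(law d ρ) ≤
      C * ((n : ℝ) ^ e * ((n : ℝ) ^ x + Real.sqrt (n * |t| ^ (p - 1)))) ^ q

/-- The polymer at the tilts `h + t u` near `h` stays in the slab of width
`n ^ e (n |t| ^ (p - 1) + n ^ (1 + (x - 1) (p - 1) / p))` around `i s`. -/
def TubL {d : ℕ} (ρ : Measure ℝ) (β : ℝ) (h u : Vec d) (s p x : ℝ) : Prop :=
  ∀ e : ℝ, 0 < e → ∀ Q : ℕ, ∃ r : ℝ, 0 < r ∧ ∃ C : ℝ, ∀ t : ℝ, |t| < r → ∀ n : ℕ, 1 ≤ n →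
    ∀ W : ℝ, (n : ℝ) ^ e * (n * |t| ^ (p - 1) + (n : ℝ) ^ aX p x) ≤ W →
      ∫ η, (1 - PolT β (h + t • u) η (slb d n u s W)) ∂(law d ρ) ≤ C * (n : ℝ) ^ (-(Q : ℝ))

/-- The fluctuations of the free energy are at most the square root of the width of the slab. -/
def SlbV (d : ℕ) (ρ : Measure ℝ) (β R : ℝ) (u : Vec d) : Prop :=
  ∀ (ε : ℝ) (q : ℕ), 0 < ε → ∃ (Q : ℕ) (C : ℝ), ∀ h : Vec d, ‖h‖ ≤ R →
  ∀ (s : ℝ) (n : ℕ), 1 ≤ n → ∀ W : ℝ, 1 ≤ W → W ≤ n →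
    ∫ η, (1 - PolT β h η (slb d n u s W)) ∂(law d ρ) ≤ (n : ℝ) ^ (-(Q : ℝ)) →
    ∫ η, |X β h η n - A ρ β h n| ^ q ∂(law d ρ) ≤ (C * Real.sqrt W * (n : ℝ) ^ ε) ^ q

/-- The good event on the line for the parameters `t`, `w`. -/
structure GdL7 {d : ℕ} (ρ : Measure ℝ) (β : ℝ) (h u : Vec d) (t w : ℝ) (n : ℕ) (η : Env d) :
    Prop where
  side : ∀ i ≤ n, |X β (h + t • u) η i - A ρ β (h + t • u) i| ≤ w ∧
    |X β (h + (-t) • u) η i - A ρ β (h + (-t) • u) i| ≤ w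
  mid : ∀ i ≤ n, ∀ y ∈ boxF d n, |X β h (sh i y η) (n - i) - A ρ β h (n - i)| ≤ w

end Pool.Agent.W_7d29a1_V
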