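import Pool.Agent.W_7d29a1_V.AeLC7
import Pool.Agent.W_7d29a1_V.AeLA96

/-!
Bootstrap on one line of tilts, part (b): conclusion.
-/

namespace Pool.Agent.W_7d29a1_V

open MeasureTheory ProbabilityTheory Filter Topology Pool.Agent.W_MP_7d29a1_pr
  Pool.Agent.W_7d29a1_h46 Pool.Agent.W_7d29a1_h46u Pool.Agent.W_7d29a1_D2

variable {d : ℕ} {ρ : Measure ℝ} [IsProbabilityMeasure ρ]

/-- **(b)** The slabs at the tilts `h + t u`. -/
theorem tubL7 (hd : 0 < d) (hρ : EM ρ) {β : ℝ} {h u : Vec d} {s p x : ℝ} (hp : 1 < p)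
    (hs : ∀ r : ℝ, lam ρ β h + s * r ≤ lam ρ β (h + r • u))
    (hU : ∃ C δ : ℝ, 0 < δ ∧ ∀ r : ℝ, |r| ≤ δ →
      lam ρ β (h + r • u) - lam ρ β h - s * r ≤ C * |r| ^ p)
    (hx : 1 / (p + 1) ≤ x) (hx1 : x ≤ 1 / 2) (hF : FlL ρ β h u p x) : TubL ρ β h u s p x := by
  have hx0 : 0 ≤ x := le_trans (by positivity) hx
  exact tubL_of7 hd hρ hp hs hU hx hx1 (fun ε hε hε1 => Ae96.rateL hd hρ hx0 hx1 hF hε hε1)
    (fun ε hε Q => Ae96.probL hd hρ hp.le hx0 hF hε Q)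

end Pool.Agent.W_7d29a1_V
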