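import Pool.Agent.W_7d29a1_D2.Defs46

/-!
Second differences of a convex function on `ℝ^d`: the directions, the averages, the total mass.
-/

namespace Pool.Agent.W_7d29a1_V.DimP33

open MeasureTheory Filter Topology Set Metric
open Pool.Agent.W_7d29a1_h46 Pool.Agent.W_7d29a1_h46u Pool.Agent.W_7d29a1_D2
open scoped ENNReal NNReal

variable {d : ℕ}

/-- The second difference. -/
def sd (L : Vec d → ℝ) (r h : Vec d) : ℝ := L (h + r) + L (h - r) - 2 * L h

lemma sd_nonneg {L : Vec d → ℝ} (hL : ConvexOn ℝ univ L) (r h : Vec d) : 0 ≤ sd L r h := by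
  have h1 := hL.2 (mem_univ (h + r)) (mem_univ (h - r)) (show (0 : ℝ) ≤ 1 / 2 by norm_num)
    (show (0 : ℝ) ≤ 1 / 2 by norm_num) (by norm_num)
  have h2 : (1 / 2 : ℝ) • (h + r) + (1 / 2 : ℝ) • (h - r) = h := by
    rw [smul_add, smul_sub]
    have : (1 / 2 : ℝ) • h + (1 / 2 : ℝ) • h = h := by
      rw [← add_smul]; norm_num
    calc (1 / 2 : ℝ) • h + (1 / 2 : ℝ) • r + ((1 / 2 : ℝ) • h - (1 / 2 : ℝ) • r)
        = (1 / 2 : ℝ) • h + (1 / 2 : ℝ) • h := by abel
      _ = h := this
  rw [h2] at h1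
  simp only [smul_eq_mul] at h1
  unfold sd
  linarith

lemma sd_neg (L : Vec d → ℝ) (r h : Vec d) : sd L (-r) h = sd L r h := by
  unfold sd
  rw [sub_neg_eq_add, ← sub_eq_add_neg]
  ring

lemma sd_smul {L : Vec d → ℝ} (hL : ConvexOn ℝ univ L) {t : ℝ} (h0 : 0 ≤ t) (h1 : t ≤ 1)
    (r h : Vec d) : sd L (t • r) h ≤ t * sd L r h := by
  have a1 := hL.2 (mem_univ h) (mem_univ (h + r)) (show (0 : ℝ) ≤ 1 - t by linarith) h0 (by ring)
  have a2 := hL.2 (mem_univ h) (mem_univ (h - r)) (show (0 : ℝ) ≤ 1 - t by linarith) h0 (by ring)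
  have e1 : (1 - t) • h + t • (h + r) = h + t • r := by
    rw [smul_add, sub_smul, one_smul]; abel
  have e2 : (1 - t) • h + t • (h - r) = h - t • r := by
    rw [smul_sub, sub_smul, one_smul]; abel
  rw [e1] at a1
  rw [e2] at a2
  simp only [smul_eq_mul] at a1 a2
  unfold sd
  nlinarith

lemma sum_ej (r : Vec d) : ∑ j : Fin d, (r j) • ej j = r := by
  ext i
  simp [ej, Finset.sum_apply, Pi.single_apply]

lemma sd_sum (hd : 0 < d) {L : Vec d → ℝ} (hL : ConvexOn ℝ univ L) (r h : Vec d) :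
    sd L r h ≤ ∑ j : Fin d, (1 / (d : ℝ)) * sd L (((d : ℝ) * r j) • ej j) h := by
  have hd' : (0 : ℝ) < d := by exact_mod_cast hd
  have hw : ∑ _j : Fin d, (1 / (d : ℝ)) = 1 := by
    rw [Finset.sum_const, Finset.card_univ, Fintype.card_fin, nsmul_eq_mul]
    field_simp
  have key : ∀ e : ℝ, L (h + e • r) ≤
      ∑ j : Fin d, (1 / (d : ℝ)) * L (h + e • (((d : ℝ) * r j) • ej j)) := by
    intro e
    have h1 := hL.map_sum_le (t := Finset.univ) (w := fun _ : Fin d => 1 / (d : ℝ))
      (p := fun j => h + e • (((d : ℝ) * r j) • ej j)) (fun _ _ => by positivity) hw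
      (fun _ _ => mem_univ _)
    have h2 : ∑ j : Fin d, (1 / (d : ℝ)) • (h + e • (((d : ℝ) * r j) • ej j)) = h + e • r := by
      simp only [smul_add]
      rw [Finset.sum_add_distrib, ← Finset.sum_smul, hw, one_smul]
      congr 1
      have h3 : ∀ j : Fin d, (1 / (d : ℝ)) • e • (((d : ℝ) * r j) • ej j) =
          e • ((r j) • (ej j : Vec d)) := by
        intro j
        rw [smul_smul, smul_smul, smul_smul]
        congr 1
        field_simp
      rw [Finset.sum_congr rfl fun j _ => h3 j, ← Finset.smul_sum, sum_ej]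
    rw [h2] at h1
    simpa only [smul_eq_mul] using h1
  have k1 := key 1
  have k2 := key (-1)
  simp only [one_smul, neg_smul, ← sub_eq_add_neg] at k1 k2
  unfold sd
  have e3 : ∑ j : Fin d, (1 / (d : ℝ)) * (L (h + ((d : ℝ) * r j) • ej j) +
      L (h - ((d : ℝ) * r j) • ej j) - 2 * L h) =
      ∑ j : Fin d, (1 / (d : ℝ)) * L (h + ((d : ℝ) * r j) • ej j) +
        ∑ j : Fin d, (1 / (d : ℝ)) * L (h - ((d : ℝ) * r j) • ej j) - 2 * L h := by
    rw [← Finset.sum_add_distrib]
    have : 2 * L h = ∑ _j : Fin d, (1 / (d : ℝ)) * (2 * L h) := by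
      rw [← Finset.sum_mul, hw, one_mul]
    rw [this, ← Finset.sum_sub_distrib]
    refine Finset.sum_congr rfl fun j _ => ?_
    rw [← this]
    ring
  rw [e3]
  linarith

/-- One coordinate direction dominates all the second differences at a point. -/
lemma exists_dir (hd : 0 < d) {L : Vec d → ℝ} (hL : ConvexOn ℝ univ L) {S : ℝ} (hS : 0 < S)
    (h : Vec d) : ∃ j : Fin d, ∀ r : Vec d, (d : ℝ) * ‖r‖ ≤ S →
      sd L r h ≤ ((d : ℝ) * ‖r‖ / S) * sd L (S • ej j) h := by
  have hd' : (0 : ℝ) < d := by exact_mod_cast hd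
  haveI : Nonempty (Fin d) := ⟨⟨0, hd⟩⟩
  obtain ⟨j, -, hj⟩ := Finset.exists_max_image (Finset.univ : Finset (Fin d))
    (fun j => sd L (S • ej j) h) Finset.univ_nonempty
  refine ⟨j, fun r hr => ?_⟩
  have hA : 0 ≤ sd L (S • ej j) h := sd_nonneg hL _ _
  refine (sd_sum hd hL r h).trans ?_
  have h1 : ∀ i : Fin d, sd L (((d : ℝ) * r i) • ej i) h ≤
      ((d : ℝ) * ‖r‖ / S) * sd L (S • ej j) h := by
    intro i
    have hri : |r i| ≤ ‖r‖ := by
      have := PiLp.norm_apply_le r i
      simpa [Real.norm_eq_abs] using this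
    have h2 : sd L (((d : ℝ) * r i) • ej i) h = sd L (((d : ℝ) * |r i| / S) • (S • ej i)) h := by
      rw [smul_smul, div_mul_cancel₀ _ hS.ne']
      rcases le_total 0 (r i) with h3 | h3
      · rw [abs_of_nonneg h3]
      · rw [abs_of_nonpos h3, mul_neg, neg_smul, sd_neg]
    rw [h2]
    have h4 : 0 ≤ (d : ℝ) * |r i| / S := by positivity
    have h5 : (d : ℝ) * |r i| / S ≤ (d : ℝ) * ‖r‖ / S := by gcongr
    have h6 : (d : ℝ) * ‖r‖ / S ≤ 1 := by rw [div_le_one hS]; exact hr
    refine (sd_smul hL h4 (h5.trans h6) _ _).trans ?_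
    exact mul_le_mul h5 (hj i (Finset.mem_univ _)) (sd_nonneg hL _ _) (h4.trans h5)
  have h7 : ∑ i : Fin d, (1 / (d : ℝ)) * sd L (((d : ℝ) * r i) • ej i) h ≤
      ∑ _i : Fin d, (1 / (d : ℝ)) * (((d : ℝ) * ‖r‖ / S) * sd L (S • ej j) h) :=
    Finset.sum_le_sum fun i _ => mul_le_mul_of_nonneg_left (h1 i) (by positivity)
  refine h7.trans (le_of_eq ?_)
  rw [Finset.sum_const, Finset.card_univ, Fintype.card_fin, nsmul_eq_mul]
  field_simp

/-- In a small ball the second difference of the dominating direction is large on average. -/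
lemma pair_le {L : Vec d → ℝ} (hL : ConvexOn ℝ univ L) {S : ℝ} {h u : Vec d} {j : Fin d}
    (hu : sd L u h ≤ (1 / 2) * sd L (S • ej j) h) :
    sd L (S • ej j) h ≤ sd L (S • ej j) (h + u) + sd L (S • ej j) (h - u) := by
  have h1 := sd_nonneg hL u (h + S • ej j)
  have h2 := sd_nonneg hL u (h - S • ej j)
  unfold sd at h1 h2 hu ⊢
  have e1 : h + S • ej j + u = h + u + S • ej j := by abel
  have e2 : h + S • ej j - u = h - u + S • ej j := by abel
  have e3 : h - S • ej j + u = h + u - S • ej j := by abel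
  have e4 : h - S • ej j - u = h - u - S • ej j := by abel
  rw [e1, e2] at h1
  rw [e3, e4] at h2
  linarith

/-- The subgradients exist. -/
lemma exists_sub {L : Vec d → ℝ} (hL : ConvexOn ℝ univ L) (h : Vec d) :
    ∃ v : Vec d, ∀ k, L h + inner ℝ v (k - h) ≤ L k := by
  have hc : Continuous L := by
    have := hL.continuousOn isOpen_univ
    rwa [← continuousOn_univ]
  have hopen : IsOpen {p : Vec d × ℝ | L p.1 < p.2} :=
    isOpen_lt (hc.comp continuous_fst) continuous_snd
  have hconv : Convex ℝ {p : Vec d × ℝ | L p.1 < p.2} := by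
    have := hL.convex_strict_epigraph
    simpa using this
  obtain ⟨f, hf⟩ := geometric_hahn_banach_open_point hconv hopen
    (x := (h, L h)) (by simp)
  set c : ℝ := f (0, 1) with hcdef
  set u : Vec d →L[ℝ] ℝ := f.comp (ContinuousLinearMap.inl ℝ (Vec d) ℝ) with hu
  have hfe : ∀ (k : Vec d) (t : ℝ), f (k, t) = u k + t * c := by
    intro k t
    have : ((k, t) : Vec d × ℝ) = (k, 0) + t • (0, 1) := by simp
    rw [this, map_add, map_smul]
    simp [hu, hcdef]
  have hc0 : c < 0 := by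
    have h1 := hf (h, L h + 1) (by simp)
    rw [hfe, hfe] at h1
    linarith
  have hall : ∀ k, u k + L k * c ≤ u h + L h * c := by
    intro k
    by_contra hcon
    push Not at hcon
    set g := u k + L k * c - (u h + L h * c) with hg
    have hg0 : 0 < g := by linarith
    have h1 := hf (k, L k + g / (2 * (-c))) (by
      simp only [mem_setOf_eq]
      have : 0 < g / (2 * (-c)) := div_pos hg0 (by linarith)
      linarith)
    rw [hfe, hfe] at h1
    have hcne : c ≠ 0 := hc0.ne
    have h2 : (L k + g / (2 * (-c))) * c = L k * c - g / 2 := by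
      field_simp
      ring
    rw [h2] at h1
    linarith
  refine ⟨(-c)⁻¹ • (InnerProductSpace.toDual ℝ (Vec d)).symm u, fun k => ?_⟩
  rw [real_inner_smul_left, InnerProductSpace.toDual_symm_apply, map_sub]
  have h1 := hall k
  have h2 : (0 : ℝ) < -c := by linarith
  have h3 : (-c)⁻¹ * (u k - u h) ≤ L k - L h := by
    rw [inv_mul_le_iff₀ h2]
    nlinarith
  linarith

end Pool.Agent.W_7d29a1_V.DimP33
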