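import Pool.Agent.W_7d29a1_V.DefsV2
import Pool.Agent.W_7d29a1_UD.Cost62

/-!
STORM V: the masses in `ℝ≥0∞` of `W_7d29a1_UD/Cost62` are the partition functions of `h46u` / `B35`.
-/

namespace Pool.Agent.W_7d29a1_V.Bri62

open Pool.Agent.W_MP_7d29a1_pr Pool.Agent.W_7d29a1_h46 Pool.Agent.W_7d29a1_h46u
  Pool.Agent.W_7d29a1_D2.B35
open Pool.Agent.W_7d29a1_UD (stp Lr Fr Dp Dm TT MM Rel)
open scoped ENNReal

variable {d : ℕ}

/-- The step weights. -/
noncomputable def pE (h : Vec d) (s : Step d) : ℝ≥0∞ := ENNReal.ofReal (Real.exp (inner ℝ h (emb (vec s))))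

/-- The site weights. -/
noncomputable def WE (β : ℝ) (η : Env d) (i : ℕ) (y : Site d) : ℝ≥0∞ :=
  ENNReal.ofReal (Real.exp (β * η (i, y)))

theorem sum_one (F : (Fin 1 → Step d) → ℝ) : ∑ s : Fin 1 → Step d, F s = ∑ a : Step d, F fun _ => a := by
  rw [← (Equiv.funUnique (Fin 1) (Step d)).symm.sum_comp]
  rfl

theorem pos_one (a : Step d) : pos (fun _ : Fin 1 => a) 1 = vec a := by
  unfold pos
  rw [Fin.sum_univ_one]
  simp

theorem wgt_one (β : ℝ) (h : Vec d) (η : Env d) (a : Step d) :
    wgt β h η (fun _ : Fin 1 => a) =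
      Real.exp (inner ℝ h (emb (vec a))) * Real.exp (β * η (1, vec a)) := by
  unfold wgt energy
  rw [Fin.sum_univ_one, ← Real.exp_add]
  have h1 : pos (fun _ : Fin 1 => a) ((0 : Fin 1) + 1 : ℕ) = vec a := by
    simpa using pos_one a
  have h2 : ((((0 : Fin 1) : ℕ) + 1, pos (fun _ : Fin 1 => a) ((0 : Fin 1) + 1 : ℕ)) : ℕ × Site d) =
      (1, vec a) := by
    rw [h1]
    rfl
  rw [h2, pos_one]

theorem sh_sh (i j : ℕ) (x y : Site d) (η : Env d) : sh i y (sh j x η) = sh (i + j) (y + x) η := by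
  funext p
  unfold sh
  simp only [add_assoc]

/-- First step. -/
theorem Z_front (β : ℝ) (h : Vec d) (η : Env d) (r : ℕ) :
    Z β h η (r + 1) = ∑ a : Step d, Real.exp (inner ℝ h (emb (vec a))) * Real.exp (β * η (1, vec a)) *
      Z β h (sh 1 (vec a) η) r := by
  rw [add_comm r 1, Z_add, sum_one]
  refine Finset.sum_congr rfl fun a _ => ?_
  rw [wgt_one, pos_one]

theorem fr_eq (β : ℝ) (h : Vec d) (η : Env d) (r : ℕ) : ∀ (j : ℕ) (v : Site d),
    Fr (pE h) (WE β η) r j v = ENNReal.ofReal (Z β h (sh j v η) r) := by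
  induction r with
  | zero =>
    intro j v
    rw [Z_zero, ENNReal.ofReal_one]
    rfl
  | succ r ih =>
    intro j v
    show ∑ s, pE h s * WE β η (j + 1) (v + vec s) * Fr (pE h) (WE β η) r (j + 1) (v + vec s) = _
    rw [Z_front, ENNReal.ofReal_sum_of_nonneg fun a _ => by
      exact mul_nonneg (mul_nonneg (Real.exp_pos _).le (Real.exp_pos _).le) (ZT_nonneg _ _ _ _)]
    refine Finset.sum_congr rfl fun s _ => ?_
    rw [ih, ENNReal.ofReal_mul (mul_nonneg (Real.exp_pos _).le (Real.exp_pos _).le),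
      ENNReal.ofReal_mul (Real.exp_pos _).le, sh_sh]
    unfold pE WE sh
    simp only [add_comm 1 j, add_comm (vec s) v]

open Classical in
theorem PP_zero (β : ℝ) (h : Vec d) (η : Env d) (z : Site d) :
    PP β h η 0 z = if z = 0 then 1 else 0 := by
  have h0 : ∀ s : Fin 0 → Step d, pos s 0 = 0 := fun s => by
    unfold pos
    exact Finset.sum_of_isEmpty _
  split_ifs with hz
  · subst hz
    have h1 : ({s : Fin 0 → Step d | pos s 0 = 0} : Set (Fin 0 → Step d)) = Set.univ := by
      ext s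
      simp [h0 s]
    unfold PP
    rw [h1]
    exact Z_zero β h η
  · unfold PP ZT
    refine Finset.sum_eq_zero fun s _ => if_neg fun hs => hz ?_
    have h2 : pos s 0 = z := hs
    rw [← h2, h0]

/-- Last step. -/
theorem PP_back (β : ℝ) (h : Vec d) (η : Env d) (i : ℕ) (z : Site d) :
    PP β h η (i + 1) z = Real.exp (β * η (i + 1, z)) *
      ∑ a : Step d, Real.exp (inner ℝ h (emb (vec a))) * PP β h η i (z - vec a) := by
  classical
  unfold PP ZT
  rw [sum_glue, Finset.sum_comm, sum_one, Finset.mul_sum]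
  refine Finset.sum_congr rfl fun a _ => ?_
  rw [Finset.mul_sum, Finset.mul_sum]
  refine Finset.sum_congr rfl fun s _ => ?_
  have h1 : pos (Fin.append s fun _ : Fin 1 => a) (i + 1) = pos s i + vec a := by
    rw [pos_glue_add, pos_one]
  by_cases hs : pos s i + vec a = z
  · rw [if_pos (show (Fin.append s fun _ : Fin 1 => a) ∈
        {s : Fin (i + 1) → Step d | pos s (i + 1) = z} from h1.trans hs),
      if_pos (show s ∈ {s : Fin i → Step d | pos s i = z - vec a} from eq_sub_of_add_eq hs),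
      wgt_glue, wgt_one]
    have h2 : sh i (pos s i) η (1, vec a) = η (i + 1, z) := by
      unfold sh
      simp only
      rw [add_comm 1 i, add_comm (vec a), hs]
    rw [h2]
    ring
  · have h4 : ¬ (Fin.append s fun _ : Fin 1 => a) ∈
        {s : Fin (i + 1) → Step d | pos s (i + 1) = z} := fun hq => hs (h1.symm.trans hq)
    have h5 : ¬ s ∈ {s : Fin i → Step d | pos s i = z - vec a} := by
      intro hq
      have h3 : pos s i = z - vec a := hq
      exact hs (by rw [h3, sub_add_cancel])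
    rw [if_neg h4, if_neg h5]
    ring

theorem lr_add' (β : ℝ) (h : Vec d) (η : Env d) (f : Site d → ℝ≥0∞) (j m : ℕ) : ∀ v : Site d,
    Lr (pE h) (WE β η) f (j + m) v =
      ∑' w, Lr (pE h) (WE β η) f j w * ENNReal.ofReal (PP β h (sh j w η) m (v - w)) := by
  classical
  induction m with
  | zero =>
    intro v
    rw [tsum_eq_single v]
    · rw [sub_self, PP_zero, if_pos rfl, ENNReal.ofReal_one, mul_one]
      rfl
    · intro w hw
      rw [PP_zero, if_neg (sub_ne_zero.2 hw.symm), ENNReal.ofReal_zero, mul_zero]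
  | succ m ih =>
    intro v
    show stp (pE h) (WE β η (j + m + 1)) (Lr (pE h) (WE β η) f (j + m)) v = _
    unfold stp
    simp only [ih]
    have h1 : ∀ w, Lr (pE h) (WE β η) f j w * ENNReal.ofReal (PP β h (sh j w η) (m + 1) (v - w)) =
        ∑ s, WE β η (j + m + 1) v * (pE h s * (Lr (pE h) (WE β η) f j w *
          ENNReal.ofReal (PP β h (sh j w η) m (v - vec s - w)))) := by
      intro w
      have h2 : sh j w η (m + 1, v - w) = η (j + m + 1, v) := by
        unfold sh
        simp only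
        rw [sub_add_cancel]
        congr 2
        omega
      rw [PP_back, h2, ENNReal.ofReal_mul (Real.exp_pos _).le,
        ENNReal.ofReal_sum_of_nonneg fun a _ => mul_nonneg (Real.exp_pos _).le (PP_nonneg _ _ _ _ _),
        Finset.mul_sum, Finset.mul_sum]
      refine Finset.sum_congr rfl fun s _ => ?_
      rw [ENNReal.ofReal_mul (Real.exp_pos _).le, sub_right_comm v w (vec s)]
      unfold pE WE
      ring
    simp only [h1]
    rw [Summable.tsum_finsetSum fun _ _ => ENNReal.summable, Finset.mul_sum]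
    refine Finset.sum_congr rfl fun s _ => ?_
    rw [ENNReal.tsum_mul_left, ENNReal.tsum_mul_left]

theorem lr_add (β : ℝ) (h : Vec d) (η : Env d) (z : Site d) {i m : ℕ} (hm : m ≤ i) (v : Site d) :
    Lr (pE h) (WE β η) (W_7d29a1_UD.src z) i v =
      ∑' w, Lr (pE h) (WE β η) (W_7d29a1_UD.src z) (i - m) w *
        ENNReal.ofReal (PP β h (sh (i - m) w η) m (v - w)) := by
  have h1 := lr_add' β h η (W_7d29a1_UD.src z) (i - m) m v
  rwa [Nat.sub_add_cancel hm] at h1

theorem lr_eq (β : ℝ) (h : Vec d) (η : Env d) (z : Site d) (i : ℕ) (y : Site d) :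
    Lr (pE h) (WE β η) (W_7d29a1_UD.src z) i y =
      ENNReal.ofReal (PP β h (sh 0 z η) i (y - z)) := by
  have h1 := lr_add' β h η (W_7d29a1_UD.src z) 0 i y
  rw [zero_add] at h1
  rw [h1]
  show ∑' w, W_7d29a1_UD.src z w * ENNReal.ofReal (PP β h (sh 0 w η) i (y - w)) = _
  rw [W_7d29a1_UD.tsum_src]

theorem sh_zero (η : Env d) : sh 0 (0 : Site d) η = η := by
  funext p
  unfold sh
  simp

end Pool.Agent.W_7d29a1_V.Bri62
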