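import Pool.Agent.W_7d29a1_V.DefsV2
import Pool.Agent.W_7d29a1_V.Rch48
import Pool.Agent.W_7d29a1_V.Bri62

/-!
STORM V (MP_7d29a1_pr), leaf badsum27: the lost sites where the backward comparison fails carry a negligible part of the
polymer of the source `X`. (helper27)
-/

set_option autoImplicit false

namespace Pool.Agent.W_7d29a1_V.Bad27

open MeasureTheory ProbabilityTheory Filter Topology Pool.Agent.W_MP_7d29a1_pr
  Pool.Agent.W_7d29a1_h46 Pool.Agent.W_7d29a1_h46u Pool.Agent.W_7d29a1_D2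
  Pool.Agent.W_7d29a1_D2.B35 Pool.Agent.W_7d29a1_V Pool.Agent.W_7d29a1_V.R48

open Pool.Agent.W_7d29a1_UD (Lr Fr TT)

open scoped ENNReal

variable {d : ℕ}

/-! ### Geometry -/

theorem l1_src (k : Fin d) (x : ℕ) : l1 (src k x) = 2 * x := by
  unfold src
  rw [l1_single]
  omega

theorem src_mem (k : Fin d) {x n : ℕ} (hx : x ≤ 5 * n) : src k x ∈ boxF d (10 * n) := by
  rw [mem_boxF]
  intro i
  have h1 := abs_le_l1 (src k x) i
  rw [l1_src] at h1
  push_cast at h1 ⊢
  have : (x : ℤ) ≤ 5 * n := by exact_mod_cast hx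
  omega

theorem mem_box_add {a b n : ℕ} {x y : Site d} (hx : x ∈ boxF d a) (hy : y ∈ boxF d b) (h : a + b ≤ n) :
    x + y ∈ boxF d n := by
  rw [mem_boxF] at *
  intro i
  have h1 := hx i
  have h2 := hy i
  have h3 := abs_add_le (x i) (y i)
  have h4 : (a : ℤ) + b ≤ n := by exact_mod_cast h
  show |x i + y i| ≤ n
  omega

section

variable {β : ℝ} {h : Vec d} {η : Env d} {n m : ℕ} {κ C : ℝ} {p : Step d → ℝ≥0∞} {W : ℕ → Site d → ℝ≥0∞}

open Classical in
/-- The weight of the extreme windows of length `m` from `(j, w)` to `(j + m, v)`. -/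
noncomputable def ext (β : ℝ) (h : Vec d) (η : Env d) (m : ℕ) (κ : ℝ) (j : ℕ) (w v : Site d) : ℝ≥0∞ :=
  if (1 - κ) * m < (l1 (v - w) : ℝ) then ENNReal.ofReal (PP β h (sh j w η) m (v - w)) else 0

/-- The extreme windows from one site. -/
theorem ext_le (hN : NSn β h n m κ C η)
    (hfr : ∀ r j v, Fr p W r j v = ENNReal.ofReal (Z β h (sh j v η) r)) {i : ℕ} (hmi : m ≤ i) (hin : i ≤ n)
    {w : Site d} (hw : w ∈ boxF d (20 * n)) :
    ∑' v, ext β h η m κ (i - m) w v * Fr p W (n - i) i v ≤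
      ENNReal.ofReal (Real.exp (-(κ * m / 2))) * Fr p W (n - (i - m)) (i - m) w := by
  classical
  rw [← (Equiv.addLeft w).tsum_eq]
  have e1 : i - m + m = i := Nat.sub_add_cancel hmi
  have h1 : ∀ z : Site d, ext β h η m κ (i - m) w (Equiv.addLeft w z) * Fr p W (n - i) i (Equiv.addLeft w z) =
      (if (1 - κ) * m < (l1 z : ℝ) then ENNReal.ofReal (PP β h (sh (i - m) w η) m z) else 0) *
        ENNReal.ofReal (Z β h (sh (i - m + m) (w + z) η) (n - (i - m + m))) := fun z => by
    rw [e1]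
    unfold ext
    rw [Equiv.coe_addLeft, add_sub_cancel_left, hfr]
  rw [tsum_congr h1, tsum_eq_sum (s := (boxF d m).filter fun z => (1 - κ) * m < (l1 z : ℝ))]
  · have h2 := hN.ext (i - m) (by omega) w hw
    rw [hfr, ← ENNReal.ofReal_mul (Real.exp_pos _).le]
    refine le_trans (le_of_eq ?_) (ENNReal.ofReal_le_ofReal h2)
    rw [ENNReal.ofReal_sum_of_nonneg]
    · refine Finset.sum_congr rfl fun z hz => ?_
      rw [if_pos (Finset.mem_filter.1 hz).2, ENNReal.ofReal_mul (PP_nonneg _ _ _ _ _)]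
    · intro z _
      exact mul_nonneg (PP_nonneg _ _ _ _ _) (ZT_nonneg _ _ _ _)
  · intro z hz
    by_cases h3 : (1 - κ) * m < (l1 z : ℝ)
    · rw [if_pos h3]
      have h4 : z ∉ boxF d m := fun h5 => hz (Finset.mem_filter.2 ⟨h5, h3⟩)
      rw [PP_eq_zero_of_notMem h4, ENNReal.ofReal_zero, zero_mul]
    · rw [if_neg h3, zero_mul]

/-- **The backward comparison up to the extreme windows.** -/
theorem back (hd : 0 < d) (hN : NSn β h n m κ C η) (hκm : 2 ≤ κ * m)
    (hadd : ∀ z i v, m ≤ i → Lr p W (W_7d29a1_UD.src z) i v =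
      ∑' w, Lr p W (W_7d29a1_UD.src z) (i - m) w * ENNReal.ofReal (PP β h (sh (i - m) w η) m (v - w)))
    (hlr : ∀ z i y, Lr p W (W_7d29a1_UD.src z) i y = ENNReal.ofReal (PP β h (sh 0 z η) i (y - z)))
    {X : Site d} (hX : X ∈ boxF d (10 * n)) {u : Site d} (hu : l1 u = 2) {i : ℕ} (hmi : m ≤ i) (hin : i ≤ n)
    (v : Site d) : Lr p W (W_7d29a1_UD.src X) i v ≤
      ∑' w, Lr p W (W_7d29a1_UD.src X) (i - m) w * ext β h η m κ (i - m) w v +
        ENNReal.ofReal (Real.exp (2 * C * m)) * Lr p W (W_7d29a1_UD.src X) i (v - u) := by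
  classical
  rw [hadd X i v hmi, hadd X i (v - u) hmi, ← ENNReal.tsum_mul_left, ← ENNReal.tsum_add]
  refine ENNReal.tsum_le_tsum fun w => ?_
  by_cases h0 : Lr p W (W_7d29a1_UD.src X) (i - m) w = 0
  · rw [h0, zero_mul]
    exact bot_le
  have hw1 : Rch (i - m) (w - X) := by
    by_contra h1
    refine h0 ?_
    rw [hlr, PP_eq_zero h1, ENNReal.ofReal_zero]
  have hw : w ∈ boxF d (20 * n) := by
    have h2 := mem_box_add hX (rch_mem hw1) (n := 20 * n) (by omega)
    rwa [add_sub_cancel] at h2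
  by_cases h1 : (1 - κ) * m < (l1 (v - w) : ℝ)
  · unfold ext
    rw [if_pos h1]
    exact le_self_add
  · refine le_trans ?_ le_add_self
    rw [mul_left_comm]
    refine mul_le_mul_right ?_ _
    rw [← ENNReal.ofReal_mul (Real.exp_pos _).le]
    refine ENNReal.ofReal_le_ofReal ?_
    by_cases h2 : Rch m (v - w)
    · have h3 : (l1 (v - w) : ℝ) + 2 ≤ m := by
        have := not_lt.1 h1
        nlinarith
      have h3' : l1 (v - w) + 2 ≤ m := by exact_mod_cast h3
      have h4 : Rch m (v - u - w) := by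
        refine rch_shift hd h2 ?_ ?_
        · have h5 := l1_sub_le (v - w) u
          have e1 : v - w - u = v - u - w := by abel
          rw [e1, hu] at h5
          omega
        · have e1 : v - u - w - (v - w) = -u := by abel
          rw [e1, l1_neg, hu]
          exact even_two
      have h5 := (hN.loc (i - m) m le_rfl (by omega) w hw (v - w) h2).2
      have h6 := (hN.loc (i - m) m le_rfl (by omega) w hw (v - u - w) h4).1
      calc PP β h (sh (i - m) w η) m (v - w) ≤ Real.exp (C * m) := h5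
        _ = Real.exp (2 * C * m) * Real.exp (-(C * m)) := by
          rw [← Real.exp_add]
          congr 1
          ring
        _ ≤ _ := mul_le_mul_of_nonneg_left h6 (Real.exp_pos _).le
    · rw [PP_eq_zero h2]
      exact mul_nonneg (Real.exp_pos _).le (PP_nonneg _ _ _ _ _)

open Classical in
/-- **The bad lost sites carry a negligible mass.** -/
theorem badsum_core (hd : 0 < d) (hN : NSn β h n m κ C η) (hm : 1 ≤ m) (hκm : 2 ≤ κ * m)
    (hfr : ∀ r j v, Fr p W r j v = ENNReal.ofReal (Z β h (sh j v η) r))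
    (hlr : ∀ z i y, Lr p W (W_7d29a1_UD.src z) i y = ENNReal.ofReal (PP β h (sh 0 z η) i (y - z)))
    (hadd : ∀ z i v, m ≤ i → Lr p W (W_7d29a1_UD.src z) i v =
      ∑' w, Lr p W (W_7d29a1_UD.src z) (i - m) w * ENNReal.ofReal (PP β h (sh (i - m) w η) m (v - w)))
    {x : ℕ} (hx : 2 * m ≤ x) (hx5 : x ≤ 5 * n) (k : Fin d) (c : ℝ≥0∞) :
    ∑ i ∈ Finset.range (n + 1), ∑' v, (if v ∉ TT p W (src k x) c i ∧ v - src k 1 ∈ TT p W (src k x) c i ∧
      ¬ Lr p W (W_7d29a1_UD.src (src k x)) i v ≤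
        ENNReal.ofReal (2 * Real.exp (2 * C * m)) * Lr p W (W_7d29a1_UD.src (src k x)) i (v - src k 1)
      then c * Lr p W (W_7d29a1_UD.src (src k x)) i v else 0) * Fr p W (n - i) i v ≤
      c * ENNReal.ofReal (2 * (n + 1) * Real.exp (-(κ * m / 2))) * Fr p W n 0 (src k x) := by
  set X := src k x with hXdef
  set u := src k 1 with hudef
  have hX : X ∈ boxF d (10 * n) := src_mem k hx5
  have hu : l1 u = 2 := l1_src k 1
  have hlX : l1 X = 2 * x := l1_src k x
  have key : ∀ i ∈ Finset.range (n + 1), ∑' v, (if v ∉ TT p W X c i ∧ v - u ∈ TT p W X c i ∧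
      ¬ Lr p W (W_7d29a1_UD.src X) i v ≤
        ENNReal.ofReal (2 * Real.exp (2 * C * m)) * Lr p W (W_7d29a1_UD.src X) i (v - u)
      then c * Lr p W (W_7d29a1_UD.src X) i v else 0) * Fr p W (n - i) i v ≤
      c * ENNReal.ofReal (2 * Real.exp (-(κ * m / 2))) * Fr p W n 0 X := by
    intro i hi
    have hin : i ≤ n := Nat.lt_succ_iff.1 (Finset.mem_range.1 hi)
    by_cases hmi : m ≤ i
    · -- the windows
      have h1 : ∀ v, (if v ∉ TT p W X c i ∧ v - u ∈ TT p W X c i ∧
          ¬ Lr p W (W_7d29a1_UD.src X) i v ≤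
            ENNReal.ofReal (2 * Real.exp (2 * C * m)) * Lr p W (W_7d29a1_UD.src X) i (v - u)
          then c * Lr p W (W_7d29a1_UD.src X) i v else 0) * Fr p W (n - i) i v ≤
          (2 * c) * ∑' w, Lr p W (W_7d29a1_UD.src X) (i - m) w *
            (ext β h η m κ (i - m) w v * Fr p W (n - i) i v) := by
        intro v
        split_ifs with hb
        · have h2 := back hd hN hκm hadd hlr hX hu hmi hin v
          set A := Lr p W (W_7d29a1_UD.src X) i v with hA
          set B := ∑' w, Lr p W (W_7d29a1_UD.src X) (i - m) w * ext β h η m κ (i - m) w v with hB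
          set D := ENNReal.ofReal (Real.exp (2 * C * m)) * Lr p W (W_7d29a1_UD.src X) i (v - u) with hD
          have hAt : A ≠ ∞ := by
            rw [hA, hlr]
            exact ENNReal.ofReal_ne_top
          have h3 : 2 * D ≤ A := by
            have h4 := (not_le.1 hb.2.2).le
            rw [ENNReal.ofReal_mul (by norm_num), mul_assoc] at h4
            have e2 : ENNReal.ofReal 2 = 2 := by simp
            rw [e2] at h4
            exact h4
          have h4 : A ≤ 2 * B := by
            have h5 : A + A ≤ 2 * B + A := by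
              calc A + A = 2 * A := (two_mul A).symm
                _ ≤ 2 * (B + D) := mul_le_mul_right h2 _
                _ = 2 * B + 2 * D := mul_add _ _ _
                _ ≤ 2 * B + A := add_le_add le_rfl h3
            exact (ENNReal.add_le_add_iff_right hAt).1 h5
          calc c * A * Fr p W (n - i) i v ≤ c * (2 * B) * Fr p W (n - i) i v :=
                mul_le_mul_left (mul_le_mul_right h4 _) _
            _ = (2 * c) * (B * Fr p W (n - i) i v) := by ring
            _ = _ := by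
                rw [hB, ← ENNReal.tsum_mul_right]
                congr 1
                exact tsum_congr fun w => by ring
        · rw [zero_mul]
          exact bot_le
      refine (ENNReal.tsum_le_tsum h1).trans ?_
      rw [ENNReal.tsum_mul_left, ENNReal.tsum_comm]
      have h2 : ∀ w, ∑' v, Lr p W (W_7d29a1_UD.src X) (i - m) w *
          (ext β h η m κ (i - m) w v * Fr p W (n - i) i v) ≤
          ENNReal.ofReal (Real.exp (-(κ * m / 2))) *
            (Lr p W (W_7d29a1_UD.src X) (i - m) w * Fr p W (n - (i - m)) (i - m) w) := by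
        intro w
        rw [ENNReal.tsum_mul_left]
        by_cases h0 : Lr p W (W_7d29a1_UD.src X) (i - m) w = 0
        · rw [h0, zero_mul]
          exact bot_le
        have hw1 : Rch (i - m) (w - X) := by
          by_contra h1
          refine h0 ?_
          rw [hlr, PP_eq_zero h1, ENNReal.ofReal_zero]
        have hw : w ∈ boxF d (20 * n) := by
          have h2 := mem_box_add hX (rch_mem hw1) (n := 20 * n) (by omega)
          rwa [add_sub_cancel] at h2
        refine (mul_le_mul_right (ext_le hN hfr hmi hin hw) _).trans (le_of_eq ?_)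
        ring
      refine (mul_le_mul_right (ENNReal.tsum_le_tsum h2) _).trans (le_of_eq ?_)
      rw [ENNReal.tsum_mul_left, W_7d29a1_UD.dual p W (W_7d29a1_UD.src X) n (i - m) (by omega),
        W_7d29a1_UD.tsum_src, ENNReal.ofReal_mul (by norm_num)]
      have e2 : ENNReal.ofReal 2 = 2 := by simp
      rw [e2]
      ring
    · -- no lost sites
      refine le_trans (le_of_eq ?_) bot_le
      refine ENNReal.tsum_eq_zero.2 fun v => ?_
      split_ifs with hb
      · by_cases h0 : Lr p W (W_7d29a1_UD.src X) i v = 0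
        · rw [h0, mul_zero, zero_mul]
        exfalso
        have h1 : Rch i (v - X) := by
          by_contra h1
          refine h0 ?_
          rw [hlr, PP_eq_zero h1, ENNReal.ofReal_zero]
        have h2 : Rch i (v - u - 0) := by
          by_contra h2
          have h3 : c * Lr p W (W_7d29a1_UD.src X) i (v - u) < Lr p W (W_7d29a1_UD.src 0) i (v - u) := hb.2.1
          rw [hlr 0, PP_eq_zero h2, ENNReal.ofReal_zero] at h3
          exact absurd h3 (not_lt.2 bot_le)
        rw [sub_zero] at h2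
        have h3 := (rch_l1 h1).1
        have h4 := (rch_l1 h2).1
        have h5 := l1_sub_le (v - u + u) (v - X)
        have h6 := l1_add_le (v - u) u
        have e1 : v - u + u - (v - X) = X := by abel
        rw [e1, hlX] at h5
        rw [hu] at h6
        omega
      · rw [zero_mul]
  refine (Finset.sum_le_sum key).trans (le_of_eq ?_)
  rw [Finset.sum_const, Finset.card_range, nsmul_eq_mul]
  have e1 : ENNReal.ofReal (2 * (n + 1) * Real.exp (-(κ * m / 2))) =
      ((n + 1 : ℕ) : ℝ≥0∞) * ENNReal.ofReal (2 * Real.exp (-(κ * m / 2))) := by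
    rw [← ENNReal.ofReal_natCast, ← ENNReal.ofReal_mul (Nat.cast_nonneg _)]
    congr 1
    push_cast
    ring
  rw [e1]
  ring

end

open Pool.Agent.W_7d29a1_V.Bri62 (pE WE fr_eq lr_eq lr_add)

open Classical in
/-- **badsum27**: the lost sites where the backward comparison fails carry a negligible part of the polymer of `X`. -/
theorem badsum27 (hd : 0 < d) {β : ℝ} {h : Vec d} {η : Env d} {n m : ℕ} {κ C : ℝ} (hN : NSn β h n m κ C η)
    (hm : 1 ≤ m) (hκm : 2 ≤ κ * m) {x : ℕ} (hx : 2 * m ≤ x) (hx5 : x ≤ 5 * n) (k : Fin d) (c : ℝ≥0∞) :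
    ∑ i ∈ Finset.range (n + 1), ∑' v, (if v ∉ TT (pE h) (WE β η) (src k x) c i ∧
      v - src k 1 ∈ TT (pE h) (WE β η) (src k x) c i ∧
      ¬ Lr (pE h) (WE β η) (W_7d29a1_UD.src (src k x)) i v ≤ ENNReal.ofReal (2 * Real.exp (2 * C * m)) *
        Lr (pE h) (WE β η) (W_7d29a1_UD.src (src k x)) i (v - src k 1)
      then c * Lr (pE h) (WE β η) (W_7d29a1_UD.src (src k x)) i v else 0) * Fr (pE h) (WE β η) (n - i) i v ≤
      c * ENNReal.ofReal (2 * (n + 1) * Real.exp (-(κ * m / 2))) * Fr (pE h) (WE β η) n 0 (src k x) :=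
  badsum_core hd hN hm hκm (fr_eq β h η) (lr_eq β h η) (fun z _ v hmi => lr_add β h η z hmi v) hx hx5 k c

open Classical in
/-- **badsum27, any larger ratio.** -/
theorem badsum27_le (hd : 0 < d) {β : ℝ} {h : Vec d} {η : Env d} {n m : ℕ} {κ C : ℝ} (hN : NSn β h n m κ C η)
    (hm : 1 ≤ m) (hκm : 2 ≤ κ * m) {x : ℕ} (hx : 2 * m ≤ x) (hx5 : x ≤ 5 * n) (k : Fin d) (c : ℝ≥0∞) {R1 : ℝ≥0∞}
    (hR1 : ENNReal.ofReal (2 * Real.exp (2 * C * m)) ≤ R1) :
    ∑ i ∈ Finset.range (n + 1), ∑' v, (if v ∉ TT (pE h) (WE β η) (src k x) c i ∧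
      v - src k 1 ∈ TT (pE h) (WE β η) (src k x) c i ∧
      ¬ Lr (pE h) (WE β η) (W_7d29a1_UD.src (src k x)) i v ≤
        R1 * Lr (pE h) (WE β η) (W_7d29a1_UD.src (src k x)) i (v - src k 1)
      then c * Lr (pE h) (WE β η) (W_7d29a1_UD.src (src k x)) i v else 0) * Fr (pE h) (WE β η) (n - i) i v ≤
      c * ENNReal.ofReal (2 * (n + 1) * Real.exp (-(κ * m / 2))) * Fr (pE h) (WE β η) n 0 (src k x) := by
  refine le_trans ?_ (badsum27 hd hN hm hκm hx hx5 k c)
  refine Finset.sum_le_sum fun i _ => ENNReal.tsum_le_tsum fun v => mul_le_mul_left ?_ _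
  split_ifs with h1 h2 h2
  · exact le_rfl
  · exact absurd ⟨h1.1, h1.2.1, fun h3 => h1.2.2 (h3.trans (mul_le_mul_left hR1 _))⟩ h2
  · exact bot_le
  · exact le_rfl

open Classical in
/-- **badsum27, the form of `far_neg`**: the forward comparison holds wherever the mass of `X` is not zero. -/
theorem badsum27_far (hd : 0 < d) {β : ℝ} {h : Vec d} {η : Env d} {n m : ℕ} {κ C : ℝ} (hN : NSn β h n m κ C η)
    (hm : 1 ≤ m) (hκm : 2 ≤ κ * m) {x : ℕ} (hx : 2 * m ≤ x) (hx5 : x ≤ 5 * n) (k : Fin d) (c : ℝ≥0∞) {R1 : ℝ≥0∞}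
    (hR1 : ENNReal.ofReal (2 * Real.exp (2 * C * m)) ≤ R1)
    (hlip : ∀ i, i ≤ n → ∀ v, Lr (pE h) (WE β η) (W_7d29a1_UD.src (src k x)) i v ≠ 0 →
      Fr (pE h) (WE β η) (n - i) i v ≤ R1 * Fr (pE h) (WE β η) (n - i) i (v - src k 1)) :
    ∑ i ∈ Finset.range (n + 1), ∑' v, (if v ∉ TT (pE h) (WE β η) (src k x) c i ∧
      v - src k 1 ∈ TT (pE h) (WE β η) (src k x) c i ∧
      ¬ (Lr (pE h) (WE β η) (W_7d29a1_UD.src (src k x)) i v ≤
        R1 * Lr (pE h) (WE β η) (W_7d29a1_UD.src (src k x)) i (v - src k 1) ∧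
        Fr (pE h) (WE β η) (n - i) i v ≤ R1 * Fr (pE h) (WE β η) (n - i) i (v - src k 1))
      then c * Lr (pE h) (WE β η) (W_7d29a1_UD.src (src k x)) i v else 0) * Fr (pE h) (WE β η) (n - i) i v ≤
      c * ENNReal.ofReal (2 * (n + 1) * Real.exp (-(κ * m / 2))) * Fr (pE h) (WE β η) n 0 (src k x) := by
  refine le_trans ?_ (badsum27_le hd hN hm hκm hx hx5 k c hR1)
  refine Finset.sum_le_sum fun i hi => ENNReal.tsum_le_tsum fun v => mul_le_mul_left ?_ _
  have hin : i ≤ n := Nat.lt_succ_iff.1 (Finset.mem_range.1 hi)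
  split_ifs with h1 h2 h2
  · exact le_rfl
  · by_cases h0 : Lr (pE h) (WE β η) (W_7d29a1_UD.src (src k x)) i v = 0
    · rw [h0, mul_zero]
    · exact absurd ⟨h1.1, h1.2.1, fun h3 => h1.2.2 ⟨h3, hlip i hin v h0⟩⟩ h2
  · exact bot_le
  · exact le_rfl

end Pool.Agent.W_7d29a1_V.Bad27
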