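import Pool.Agent.W_7d29a1_V.DefsV2
import Pool.Agent.W_7d29a1_UD.Cost62

/-!
`2 χ ≤ ν*` in every dimension: good levels and the relation of the two environments in the letters of
`UD.Cost62`. Everything over the statement `hlr` (forward masses are point to point partition functions).
-/

set_option autoImplicit false

namespace Pool.Agent.W_7d29a1_V.Good95

open MeasureTheory ProbabilityTheory Filter Topology Pool.Agent.W_MP_7d29a1_pr
  Pool.Agent.W_7d29a1_h46 Pool.Agent.W_7d29a1_h46u Pool.Agent.W_7d29a1_D2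
  Pool.Agent.W_7d29a1_D2.B35
open scoped ENNReal

variable {d : ℕ}

lemma sh_zero (η : Env d) : sh 0 0 η = η := by
  funext p
  unfold sh
  simp

/-- Two different masses: the sum is at most `4 / g` times the difference. -/
lemma good_abs {A B g : ℝ} (hA : 0 ≤ A) (hB : 0 ≤ B) (hg : 0 < g) (hg1 : g ≤ 1)
    (h : (1 + g) * B ≤ A ∨ (1 + g) * A ≤ B) :
    ENNReal.ofReal A + ENNReal.ofReal B ≤ ENNReal.ofReal (4 / g) *
      ((ENNReal.ofReal A - ENNReal.ofReal B) + (ENNReal.ofReal B - ENNReal.ofReal A)) := by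
  have key : ∀ {A B : ℝ}, 0 ≤ A → 0 ≤ B → (1 + g) * B ≤ A →
      ENNReal.ofReal A + ENNReal.ofReal B ≤ ENNReal.ofReal (4 / g) *
        (ENNReal.ofReal A - ENNReal.ofReal B) := by
    intro A B hA hB h
    rw [← ENNReal.ofReal_add hA hB, ← ENNReal.ofReal_sub A hB,
      ← ENNReal.ofReal_mul (by positivity)]
    apply ENNReal.ofReal_le_ofReal
    rw [div_mul_eq_mul_div, le_div_iff₀ hg]
    nlinarith [mul_nonneg hg.le hB, mul_nonneg hg.le hA]
  rcases h with h | h
  · exact (key hA hB h).trans (mul_le_mul_right le_self_add _)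
  · rw [add_comm (ENNReal.ofReal A)]
    exact (key hB hA h).trans (mul_le_mul_right le_add_self _)

section

variable {β : ℝ} {h : Vec d} {k : Fin d} {x : ℕ} {a : ℝ} {η : Env d} {p : Step d → ℝ≥0∞}
  {W : ℕ → Site d → ℝ≥0∞}

/-- Left sites are the sites which are not `rt`. -/
theorem mem_TT95 (hlr : ∀ (z : Site d) (i : ℕ) (y : Site d), W_7d29a1_UD.Lr p W (W_7d29a1_UD.src z) i y =
      ENNReal.ofReal (PP β h (sh 0 z η) i (y - z))) (i : ℕ) (y : Site d) :
    y ∈ W_7d29a1_UD.TT p W (src k x) (ENNReal.ofReal (Real.exp (-a))) i ↔ ¬ rt β h k x a η (i, y) := by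
  unfold W_7d29a1_UD.TT rt
  rw [Set.mem_setOf_eq, hlr, hlr, sub_zero, sh_zero, ← ENNReal.ofReal_mul (Real.exp_pos _).le,
    ENNReal.ofReal_lt_ofReal_iff_of_nonneg (mul_nonneg (Real.exp_pos _).le (PP_nonneg _ _ _ _ _)),
    not_le]

/-- **The second environment is relabelled from the first one.** -/
theorem rel95 (hlr : ∀ (z : Site d) (i : ℕ) (y : Site d), W_7d29a1_UD.Lr p W (W_7d29a1_UD.src z) i y =
      ENNReal.ofReal (PP β h (sh 0 z η) i (y - z))) (ξ : Env d) {W1 : ℕ → Site d → ℝ≥0∞}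
    (hW : ∀ i y, W i y = ENNReal.ofReal (Real.exp (β * η (i, y))))
    (hW1 : ∀ i y, W1 i y = ENNReal.ofReal (Real.exp (β * om β h k x a η ξ (i, y)))) :
    W_7d29a1_UD.Rel p W W1 (src k x) (src k 1) (ENNReal.ofReal (Real.exp (-a))) := by
  classical
  constructor
  · intro i y _ hy
    have h1 : ¬ rt β h k x a η (i, y) := (mem_TT95 hlr i y).1 hy
    rw [hW, hW1]
    unfold om
    rw [if_neg h1]
  · intro i y _ hy hyu
    have h1 : rt β h k x a η (i, y) := by
      by_contra hcon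
      exact hy ((mem_TT95 hlr i y).2 hcon)
    have h2 : rt β h k x a η (i, y + src k 1) := by
      by_contra hcon
      exact hyu ((mem_TT95 hlr i (y + src k 1)).2 hcon)
    rw [hW, hW1]
    unfold om
    rw [if_pos h1, if_pos h2]

/-- **Good levels.** -/
theorem good95 (hlr : ∀ (z : Site d) (i : ℕ) (y : Site d), W_7d29a1_UD.Lr p W (W_7d29a1_UD.src z) i y =
      ENNReal.ofReal (PP β h (sh 0 z η) i (y - z))) {g : ℝ} (hg : 0 < g) (hg1 : g ≤ 1) {n : ℕ}
    (hG : GdL β h n k x g a η) : ∀ i ≤ n, ∀ y, W_7d29a1_UD.Lr p W (W_7d29a1_UD.src 0) i y +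
      ENNReal.ofReal (Real.exp (-a)) * W_7d29a1_UD.Lr p W (W_7d29a1_UD.src (src k x)) i y ≤
      ENNReal.ofReal (4 / g) * (W_7d29a1_UD.Dp p W (src k x) (ENNReal.ofReal (Real.exp (-a))) i y +
        W_7d29a1_UD.Dm p W (src k x) (ENNReal.ofReal (Real.exp (-a))) i y) := by
  intro i hi y
  unfold W_7d29a1_UD.Dp W_7d29a1_UD.Dm
  rw [hlr, hlr, sub_zero, sh_zero, ← ENNReal.ofReal_mul (Real.exp_pos _).le]
  exact good_abs (PP_nonneg _ _ _ _ _) (mul_nonneg (Real.exp_pos _).le (PP_nonneg _ _ _ _ _)) hg hg1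
    (hG i hi y)

end

end Pool.Agent.W_7d29a1_V.Good95
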