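import Pool.Agent.W_7d29a1_V.Bri62
import Pool.Agent.W_7d29a1_V.Rch48

/-!
Cost of one step of the source: reachability of the masses and the Lipschitz bound of the futures.
-/

namespace Pool.Agent.W_7d29a1_V.Lip36

open Pool.Agent.W_MP_7d29a1_pr Pool.Agent.W_7d29a1_h46 Pool.Agent.W_7d29a1_h46u
  Pool.Agent.W_7d29a1_D2.B35 Pool.Agent.W_7d29a1_V.Bri62 Pool.Agent.W_7d29a1_V.R48
open Pool.Agent.W_7d29a1_UD (stp Lr Fr Dp Dm TT MM Rel)
open scoped ENNReal

variable {d : ℕ}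

/-- A positive mass: the site can be reached. -/
theorem reach36 {β : ℝ} {h : Vec d} {η : Env d} {z y : Site d} {i : ℕ}
    (hL : Lr (pE h) (WE β η) (W_7d29a1_UD.src z) i y ≠ 0) : Rch i (y - z) := by
  by_contra hc
  apply hL
  rw [lr_eq, PP_eq_zero hc, ENNReal.ofReal_zero]

theorem reach36_l1 {β : ℝ} {h : Vec d} {η : Env d} {z y : Site d} {i : ℕ}
    (hL : Lr (pE h) (WE β η) (W_7d29a1_UD.src z) i y ≠ 0) :
    l1 (y - z) ≤ i ∧ Even (i + l1 (y - z)) := rch_l1 (reach36 hL)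

lemma l1_src36 (k : Fin d) (x : ℕ) : l1 (src k x) = 2 * x := by
  unfold src
  rw [l1_single]
  omega

/-- A site near a source lies in the box. -/
theorem box36 {n i x : ℕ} (k : Fin d) (hx : x ≤ 5 * n) (hi : i ≤ n) {v w : Site d}
    (hv : l1 (v - src k x) ≤ i) (hw : l1 (v - w) ≤ 9 * n) : w ∈ boxF d (20 * n) := by
  rw [mem_boxF]
  intro j
  have h1 := abs_le_l1 (v - src k x) j
  have h2 := abs_le_l1 (v - w) j
  have h3 := abs_le_l1 (src k x) j
  rw [l1_src36] at h3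
  rw [Pi.sub_apply, abs_le] at h1 h2
  rw [abs_le] at h3
  rw [abs_le]
  have h4 : (l1 (v - src k x) : ℤ) ≤ n := by exact_mod_cast hv.trans hi
  have h5 : (l1 (v - w) : ℤ) ≤ 9 * n := by exact_mod_cast hw
  have h6 : ((2 * x : ℕ) : ℤ) ≤ 10 * n := by
    push_cast
    omega
  push_cast at h3 h6 ⊢
  constructor <;> linarith [h1.1, h1.2, h2.1, h2.2, h3.1, h3.2]

/-- The Lipschitz bound of the free energies as a bound of the partition functions. -/
theorem lipZ36 (hd : 0 < d) {β : ℝ} {h : Vec d} {n m : ℕ} {κ C : ℝ} {η : Env d}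
    (hN : NSn β h n m κ C η) {i : ℕ} (hi : i ≤ n) {w w' : Site d} (hw : w ∈ boxF d (20 * n))
    (hw' : w' ∈ boxF d (20 * n)) (he : Even (l1 (w - w'))) :
    Fr (pE h) (WE β η) (n - i) i w ≤
      ENNReal.ofReal (Real.exp (C * ((l1 (w - w') : ℝ) + m))) * Fr (pE h) (WE β η) (n - i) i w' := by
  have h1 := hN.lip i hi w hw w' hw' he
  rw [fr_eq, fr_eq, ← ENNReal.ofReal_mul (Real.exp_pos _).le]
  refine ENNReal.ofReal_le_ofReal ?_
  have h2 : Z β h (sh i w η) (n - i) = Real.exp (X β h (sh i w η) (n - i)) := TubV_exp hd β h _ _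
  have h3 : Z β h (sh i w' η) (n - i) = Real.exp (X β h (sh i w' η) (n - i)) := TubV_exp hd β h _ _
  rw [h2, h3, ← Real.exp_add]
  refine Real.exp_le_exp.2 ?_
  linarith

/-- The future of a site and of its neighbour. -/
theorem lip36 (hd : 0 < d) {β : ℝ} {h : Vec d} {n m : ℕ} {κ C : ℝ} {η : Env d}
    (hN : NSn β h n m κ C η) (hn : 1 ≤ n) {k : Fin d} {x i : ℕ} (hi : i ≤ n) (hx : x ≤ 5 * n)
    {v : Site d} (hL : Lr (pE h) (WE β η) (W_7d29a1_UD.src (src k x)) i v ≠ 0) :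
    Fr (pE h) (WE β η) (n - i) i v ≤
      ENNReal.ofReal (Real.exp (C * ((m : ℝ) + 2))) * Fr (pE h) (WE β η) (n - i) i (v - src k 1) := by
  have h1 := (reach36_l1 hL).1
  have e1 : v - (v - src k 1) = src k 1 := sub_sub_cancel v (src k 1)
  have h2 : l1 (v - (v - src k 1)) = 2 := by rw [e1, l1_src36]
  have h3 : v ∈ boxF d (20 * n) := box36 k hx hi h1 (by rw [sub_self, l1_zero]; exact Nat.zero_le _)
  have h4 : v - src k 1 ∈ boxF d (20 * n) := box36 k hx hi h1 (by rw [h2]; omega)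
  have h5 := lipZ36 hd hN hi h3 h4 (by rw [h2]; exact even_two)
  rw [h2] at h5
  have h6 : C * (((2 : ℕ) : ℝ) + m) = C * ((m : ℝ) + 2) := by
    push_cast
    ring
  rwa [h6] at h5

/-- The other direction. -/
theorem lip36' (hd : 0 < d) {β : ℝ} {h : Vec d} {n m : ℕ} {κ C : ℝ} {η : Env d}
    (hN : NSn β h n m κ C η) (hn : 1 ≤ n) {k : Fin d} {x i : ℕ} (hi : i ≤ n) (hx : x ≤ 5 * n)
    {v : Site d} (hL : Lr (pE h) (WE β η) (W_7d29a1_UD.src (src k x)) i v ≠ 0) :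
    Fr (pE h) (WE β η) (n - i) i (v - src k 1) ≤
      ENNReal.ofReal (Real.exp (C * ((m : ℝ) + 2))) * Fr (pE h) (WE β η) (n - i) i v := by
  have h1 := (reach36_l1 hL).1
  have e1 : v - (v - src k 1) = src k 1 := sub_sub_cancel v (src k 1)
  have h2 : l1 (v - (v - src k 1)) = 2 := by rw [e1, l1_src36]
  have h2' : l1 ((v - src k 1) - v) = 2 := by rw [l1_sub_comm, h2]
  have h3 : v ∈ boxF d (20 * n) := box36 k hx hi h1 (by rw [sub_self, l1_zero]; exact Nat.zero_le _)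
  have h4 : v - src k 1 ∈ boxF d (20 * n) := box36 k hx hi h1 (by rw [h2]; omega)
  have h5 := lipZ36 hd hN hi h4 h3 (by rw [h2']; exact even_two)
  rw [h2'] at h5
  have h6 : C * (((2 : ℕ) : ℝ) + m) = C * ((m : ℝ) + 2) := by
    push_cast
    ring
  rwa [h6] at h5

/-- A site which can be reached from both sources lies in a late row. -/
theorem late36 {β : ℝ} {h : Vec d} {η : Env d} {k : Fin d} {x i : ℕ} {v w : Site d}
    (hL : Lr (pE h) (WE β η) (W_7d29a1_UD.src (src k x)) i v ≠ 0)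
    (h0 : Lr (pE h) (WE β η) (W_7d29a1_UD.src 0) i w ≠ 0) (hvw : l1 (v - w) ≤ 2) :
    x ≤ i + 1 := by
  have h1 := (reach36_l1 hL).1
  have h2 := (reach36_l1 h0).1
  rw [sub_zero] at h2
  have h3 : l1 (src k x) ≤ l1 (v - src k x) + l1 v := by
    have := l1_sub_le v (v - src k x)
    rw [sub_sub_cancel] at this
    omega
  have h4 : l1 v ≤ l1 (v - w) + l1 w := by
    have := l1_add_le (v - w) w
    rwa [sub_add_cancel] at this
  rw [l1_src36] at h3
  omega

end Pool.Agent.W_7d29a1_V.Lip36
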