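import Pool.Agent.W_7d29a1_V.Bri62
import Pool.Agent.W_7d29a1_V.Good95
import Pool.Agent.W_7d29a1_V.Bad27
import Pool.Agent.W_7d29a1_V.Lip36

/-!
STORM V: `costV`, assembly.
-/

namespace Pool.Agent.W_7d29a1_V.CostV62

open Filter Topology Pool.Agent.W_MP_7d29a1_pr Pool.Agent.W_7d29a1_h46 Pool.Agent.W_7d29a1_h46u
  Pool.Agent.W_7d29a1_D2.B35 Pool.Agent.W_7d29a1_V.Bri62
open Pool.Agent.W_7d29a1_UD (stp Lr Fr Dp Dm TT MM Rel cost62 far_pos far_neg)
open scoped ENNReal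

variable {d : ℕ}

theorem rel30 (β : ℝ) (h : Vec d) (k : Fin d) {x : ℕ} (_ : 1 ≤ x) (a : ℝ) (η ξ : Env d) :
    Rel (pE h) (WE β η) (WE β (om β h k x a η ξ)) (src k x) (src k 1)
      (ENNReal.ofReal (Real.exp (-a))) := by
  exact Good95.rel95 (fun z i y => lr_eq β h η z i y) ξ (fun _ _ => rfl) (fun _ _ => rfl)

theorem good30 (β : ℝ) (h : Vec d) {n : ℕ} (k : Fin d) {x : ℕ} {g a : ℝ} (hg : 0 < g) (hg1 : g ≤ 1)
    {η : Env d} (hG : GdL β h n k x g a η) : ∀ i ≤ n, ∀ y,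
    Lr (pE h) (WE β η) (W_7d29a1_UD.src 0) i y + ENNReal.ofReal (Real.exp (-a)) *
      Lr (pE h) (WE β η) (W_7d29a1_UD.src (src k x)) i y ≤
      ENNReal.ofReal (4 / g) * (Dp (pE h) (WE β η) (src k x) (ENNReal.ofReal (Real.exp (-a))) i y +
        Dm (pE h) (WE β η) (src k x) (ENNReal.ofReal (Real.exp (-a))) i y) :=
  Good95.good95 (fun z i y => lr_eq β h η z i y) hg hg1 hG

theorem src_sub (k : Fin d) {x : ℕ} (hx : 1 ≤ x) : src k x - src k 1 = src k (x - 1) := by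
  unfold src
  rw [← Pi.single_sub]
  congr 1
  push_cast [hx]
  ring

theorem za_eq (β : ℝ) (h : Vec d) (n : ℕ) (k : Fin d) (a : ℝ) (x : ℕ) (η : Env d) :
    ENNReal.ofReal (Za β h n k a x η) = Fr (pE h) (WE β η) n 0 0 +
      ENNReal.ofReal (Real.exp (-a)) * Fr (pE h) (WE β η) n 0 (src k x) := by
  have h1 : 0 ≤ Z β h η n := ZT_nonneg _ _ _ _
  have h2 : 0 ≤ Z β h (sh 0 (src k x) η) n := ZT_nonneg _ _ _ _
  unfold Za
  rw [fr_eq, fr_eq, sh_zero, ENNReal.ofReal_add h1 (mul_nonneg (Real.exp_pos _).le h2),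
    ENNReal.ofReal_mul (Real.exp_pos _).le]

theorem za_pos (hd : 0 < d) (β : ℝ) (h : Vec d) (n : ℕ) (k : Fin d) (a : ℝ) (x : ℕ) (η : Env d) :
    0 < Za β h n k a x η :=
  add_pos (Z_pos hd β h η n) (mul_pos (Real.exp_pos _) (Z_pos hd β h _ n))

/-- The real form of the cost at a good level. -/
theorem cost_real (hd : 0 < d) {β : ℝ} {h : Vec d} {n m : ℕ} {κ C : ℝ} {η : Env d}
    (hN : NSn β h n m κ C η) (hm : 1 ≤ m) (hk : 0 < κ) (hk2 : 2 ≤ κ * m) (hC : 0 < C) {x : ℕ}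
    (h2 : 2 * m ≤ x) (h5 : x ≤ 5 * n) (k : Fin d) (a : ℝ) (ξ : Env d) {g : ℝ} (hg : 0 < g)
    (hg1 : g ≤ 1) (hG : GdL β h n k x g a η) :
    Za β h n k a x η ≤ 4 / g * ((1 + 2 * Real.exp (2 * C * m) * (4 / g)) *
      Za β h n k a (x - 1) (om β h k x a η ξ) +
      2 * (n + 1) * Real.exp (-(κ * m / 2)) * Za β h n k a x η) := by
  classical
  have hx : 1 ≤ x := by omega
  have hQ : (1 : ℝ) ≤ 4 / g := by
    rw [le_div_iff₀ hg]
    linarith
  have hR1 : (1 : ℝ) ≤ 2 * Real.exp (2 * C * m) := by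
    have : (1 : ℝ) ≤ Real.exp (2 * C * m) := Real.one_le_exp (by positivity)
    linarith
  have h1 := cost62 (rel30 β h k hx a η ξ) (Q := ENNReal.ofReal (4 / g))
    (R1 := ENNReal.ofReal (2 * Real.exp (2 * C * m)))
    (by rw [← ENNReal.ofReal_one]; exact ENNReal.ofReal_le_ofReal hQ)
    (by rw [← ENNReal.ofReal_one]; exact ENNReal.ofReal_le_ofReal hR1) n (good30 β h k hg hg1 hG)
  have h3 := Bad27.badsum27 hd hN hm hk2 h2 h5 k (ENNReal.ofReal (Real.exp (-a)))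
  have hZ0 := (za_pos hd β h n k a x η).le
  have hZ1 := (za_pos hd β h n k a (x - 1) (om β h k x a η ξ)).le
  have h4 : ENNReal.ofReal (Real.exp (-a)) * ENNReal.ofReal (2 * (n + 1) * Real.exp (-(κ * m / 2))) *
        Fr (pE h) (WE β η) n 0 (src k x) ≤
      ENNReal.ofReal (2 * (n + 1) * Real.exp (-(κ * m / 2))) *
        ENNReal.ofReal (Za β h n k a x η) := by
    rw [za_eq, mul_comm (ENNReal.ofReal (Real.exp (-a))), mul_assoc]
    exact mul_le_mul' le_rfl le_add_self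
  rw [← za_eq, src_sub k hx, ← za_eq] at h1
  have h6 := h1.trans (mul_le_mul' le_rfl (add_le_add le_rfl (h3.trans h4)))
  have ht : (0 : ℝ) ≤ 2 * (n + 1) * Real.exp (-(κ * m / 2)) := by positivity
  rw [← ENNReal.ofReal_one, ← ENNReal.ofReal_mul (by linarith), ← ENNReal.ofReal_add (by norm_num)
    (by positivity), ← ENNReal.ofReal_mul (by positivity), ← ENNReal.ofReal_mul ht,
    ← ENNReal.ofReal_add (by positivity) (by positivity), ← ENNReal.ofReal_mul (by positivity)] at h6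
  exact (ENNReal.ofReal_le_ofReal_iff (by positivity)).1 h6

theorem ev_exp (s : ℝ) {b δ : ℝ} (hb : 0 < b) (hδ : 0 < δ) {D : ℝ} (hD : 0 < D) :
    ∀ᶠ n : ℕ in atTop, D * (n : ℝ) ^ s ≤ Real.exp (b * (n : ℝ) ^ δ) := by
  have h1 := tendsto_rpow_mul_exp_neg_mul_atTop_nhds_zero (s / δ) b hb
  have h2 : Tendsto (fun n : ℕ => (n : ℝ) ^ δ) atTop atTop :=
    (tendsto_rpow_atTop hδ).comp tendsto_natCast_atTop_atTop
  have h3 := (h1.comp h2).eventually_lt_const (show (0 : ℝ) < 1 / D by positivity)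
  filter_upwards [h3] with n hn
  have h4 : ((n : ℝ) ^ δ) ^ (s / δ) = (n : ℝ) ^ s := by
    rw [← Real.rpow_mul (Nat.cast_nonneg n)]
    congr 1
    field_simp
  have h5 : (n : ℝ) ^ s * Real.exp (-b * (n : ℝ) ^ δ) < 1 / D := by
    have h6 := hn
    simp only [Function.comp_apply, h4] at h6
    exact h6
  rw [lt_div_iff₀ hD] at h5
  have h7 : Real.exp (-b * (n : ℝ) ^ δ) * Real.exp (b * (n : ℝ) ^ δ) = 1 := by
    rw [← Real.exp_add]
    simp
  have h8 := Real.exp_pos (b * (n : ℝ) ^ δ)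
  calc D * (n : ℝ) ^ s = (n : ℝ) ^ s * D * (Real.exp (-b * (n : ℝ) ^ δ) *
        Real.exp (b * (n : ℝ) ^ δ)) := by rw [h7]; ring
    _ = (n : ℝ) ^ s * Real.exp (-b * (n : ℝ) ^ δ) * D * Real.exp (b * (n : ℝ) ^ δ) := by ring
    _ ≤ 1 * Real.exp (b * (n : ℝ) ^ δ) := mul_le_mul_of_nonneg_right h5.le h8.le
    _ = _ := one_mul _

theorem mm_le (δ : ℝ) (n : ℕ) : (n : ℝ) ^ δ ≤ mm δ n := Nat.le_ceil _

/-- U5. -/
theorem costV (hd : 0 < d) (β : ℝ) : CostV d β := by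
  intro δ κ C K hδ _ hκ _ hC hK
  refine ⟨2 + 2 * C, by positivity, ?_⟩
  have h2 : Tendsto (fun n : ℕ => (n : ℝ) ^ δ) atTop atTop :=
    (tendsto_rpow_atTop hδ).comp tendsto_natCast_atTop_atTop
  have hev := ((ev_exp (K + 1) (show 0 < κ / 2 by positivity) hδ (show (0 : ℝ) < 32 by norm_num)).and
    ((ev_exp (2 * K) (show (0 : ℝ) < 2 by norm_num) hδ (show (0 : ℝ) < 128 by norm_num)).and
    ((h2.eventually_ge_atTop (max 1 (2 / κ))).and (eventually_ge_atTop 1))))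
  obtain ⟨n₀, hn₀⟩ := eventually_atTop.1 hev
  refine ⟨n₀, fun h n hn k x hx2 hx5 a η ξ hN hG => ?_⟩
  obtain ⟨e1, e2, e3, e4⟩ := hn₀ n hn
  have hn1 : (1 : ℝ) ≤ n := by exact_mod_cast e4
  have hn0 : (0 : ℝ) < n := by linarith
  set m := mm δ n with hm
  have hmn : (n : ℝ) ^ δ ≤ m := mm_le δ n
  have hm1r : (1 : ℝ) ≤ m := ((le_max_left _ _).trans e3).trans hmn
  have hm1 : 1 ≤ m := by exact_mod_cast hm1r
  have hk2 : 2 ≤ κ * m := by
    have h4 : 2 / κ ≤ m := ((le_max_right _ _).trans e3).trans hmn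
    rw [div_le_iff₀ hκ] at h4
    linarith
  have hg : (0 : ℝ) < (n : ℝ) ^ (-K) := Real.rpow_pos_of_pos hn0 _
  have hg1 : (n : ℝ) ^ (-K) ≤ 1 := Real.rpow_le_one_of_one_le_of_nonpos hn1 (by linarith)
  have hQ : 4 / (n : ℝ) ^ (-K) = 4 * (n : ℝ) ^ K := by
    rw [Real.rpow_neg hn0.le, div_inv_eq_mul]
  have hmain := cost_real hd hN hm1 hκ hk2 hC hx2 hx5 k a ξ hg hg1 hG
  rw [hQ] at hmain
  have hnK : (1 : ℝ) ≤ (n : ℝ) ^ K := Real.one_le_rpow hn1 hK.le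
  set Zη := Za β h n k a x η with hZη
  set Zω := Za β h n k a (x - 1) (om β h k x a η ξ) with hZω
  have hZη0 : 0 < Zη := za_pos hd β h n k a x η
  have hZω0 : 0 < Zω := za_pos hd β h n k a (x - 1) (om β h k x a η ξ)
  have ht : 4 * (n : ℝ) ^ K * (2 * (n + 1) * Real.exp (-(κ * m / 2))) ≤ 1 / 2 := by
    have h5 : 32 * (n : ℝ) ^ (K + 1) ≤ Real.exp (κ * m / 2) := by
      refine e1.trans (Real.exp_le_exp.2 ?_)
      have := mul_le_mul_of_nonneg_left hmn (show 0 ≤ κ / 2 by positivity)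
      linarith
    have h6 : Real.exp (-(κ * m / 2)) * Real.exp (κ * m / 2) = 1 := by
      rw [← Real.exp_add]
      simp
    have h7 : 4 * (n : ℝ) ^ K * (2 * (n + 1)) ≤ 16 * (n : ℝ) ^ (K + 1) := by
      rw [Real.rpow_add hn0, Real.rpow_one]
      nlinarith
    have h8 := Real.exp_pos (-(κ * m / 2))
    calc 4 * (n : ℝ) ^ K * (2 * (n + 1) * Real.exp (-(κ * m / 2)))
        = 4 * (n : ℝ) ^ K * (2 * (n + 1)) * Real.exp (-(κ * m / 2)) := by ring
      _ ≤ 16 * (n : ℝ) ^ (K + 1) * Real.exp (-(κ * m / 2)) := mul_le_mul_of_nonneg_right h7 h8.le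
      _ ≤ (Real.exp (κ * m / 2) / 2) * Real.exp (-(κ * m / 2)) :=
          mul_le_mul_of_nonneg_right (by linarith) h8.le
      _ = 1 / 2 := by rw [div_mul_eq_mul_div, mul_comm, h6]
  have hR : Zη ≤ 128 * (n : ℝ) ^ (2 * K) * Real.exp (2 * C * m) * Zω := by
    have hE : (1 : ℝ) ≤ Real.exp (2 * C * m) := Real.one_le_exp (by positivity)
    have h9 : 4 * (n : ℝ) ^ K * ((1 + 2 * Real.exp (2 * C * m) * (4 * (n : ℝ) ^ K)) * Zω) ≤
        64 * (n : ℝ) ^ (2 * K) * Real.exp (2 * C * m) * Zω := by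
      have h10 : (n : ℝ) ^ (2 * K) = (n : ℝ) ^ K * (n : ℝ) ^ K := by
        rw [two_mul, Real.rpow_add hn0]
      have h11 : 1 + 2 * Real.exp (2 * C * m) * (4 * (n : ℝ) ^ K) ≤
          16 * (Real.exp (2 * C * m) * (n : ℝ) ^ K) := by
        have : 1 ≤ Real.exp (2 * C * m) * (n : ℝ) ^ K := one_le_mul_of_one_le_of_one_le hE hnK
        linarith
      rw [h10]
      calc 4 * (n : ℝ) ^ K * ((1 + 2 * Real.exp (2 * C * m) * (4 * (n : ℝ) ^ K)) * Zω)
          ≤ 4 * (n : ℝ) ^ K * ((16 * (Real.exp (2 * C * m) * (n : ℝ) ^ K)) * Zω) := by gcongr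
        _ = _ := by ring
    have h12 : 4 * (n : ℝ) ^ K * (2 * (n + 1) * Real.exp (-(κ * m / 2)) * Zη) ≤ 1 / 2 * Zη := by
      have := mul_le_mul_of_nonneg_right ht hZη0.le
      linarith
    have h13 : Zη ≤ 4 * (n : ℝ) ^ K * ((1 + 2 * Real.exp (2 * C * m) * (4 * (n : ℝ) ^ K)) * Zω) +
        4 * (n : ℝ) ^ K * (2 * (n + 1) * Real.exp (-(κ * m / 2)) * Zη) := by
      rw [← mul_add]
      exact hmain
    linarith
  have hfin : Zη ≤ Real.exp ((2 + 2 * C) * m) * Zω := by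
    refine hR.trans (mul_le_mul_of_nonneg_right ?_ hZω0.le)
    have h14 : 128 * (n : ℝ) ^ (2 * K) ≤ Real.exp (2 * m) := by
      refine e2.trans (Real.exp_le_exp.2 ?_)
      linarith
    calc 128 * (n : ℝ) ^ (2 * K) * Real.exp (2 * C * m) ≤ Real.exp (2 * m) * Real.exp (2 * C * m) :=
          mul_le_mul_of_nonneg_right h14 (Real.exp_pos _).le
      _ = Real.exp ((2 + 2 * C) * m) := by
          rw [← Real.exp_add]
          congr 1
          ring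
  have h15 := Real.log_le_log hZη0 hfin
  rw [Real.log_mul (Real.exp_pos _).ne' hZω0.ne', Real.log_exp] at h15
  linarith

end Pool.Agent.W_7d29a1_V.CostV62
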