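import Pool.Agent.W_7d29a1_V.Bad27
import Pool.Agent.W_7d29a1_V.Good95
import Pool.Agent.W_7d29a1_V.Lip36

/-!
STORM V (MP_7d29a1_pr), leaves farV and costV: the assembly in real numbers. (helper27)
-/

set_option autoImplicit false

namespace Pool.Agent.W_7d29a1_V.Far27

open MeasureTheory ProbabilityTheory Filter Topology Pool.Agent.W_MP_7d29a1_pr
  Pool.Agent.W_7d29a1_h46 Pool.Agent.W_7d29a1_h46u Pool.Agent.W_7d29a1_D2
  Pool.Agent.W_7d29a1_D2.B35 Pool.Agent.W_7d29a1_V Pool.Agent.W_7d29a1_V.R48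

open Pool.Agent.W_7d29a1_UD (Lr Fr TT Rel)

open Pool.Agent.W_7d29a1_V.Bri62 (pE WE fr_eq lr_eq lr_add sh_zero)

open scoped ENNReal

variable {d : ℕ}

theorem src_sub_one (k : Fin d) {x : ℕ} (hx : 1 ≤ x) : src k x - src k 1 = src k (x - 1) := by
  unfold src
  rw [← Pi.single_sub]
  congr 1
  push_cast [Nat.cast_sub hx]
  ring

theorem src_zero (k : Fin d) : src k 0 = 0 := by
  unfold src
  simp

/-- The second environment is relabelled from the first one. -/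
theorem rel27 (β : ℝ) (h : Vec d) (k : Fin d) (x : ℕ) (a : ℝ) (η ξ : Env d) :
    Rel (pE h) (WE β η) (WE β (om β h k x a η ξ)) (src k x) (src k 1) (ENNReal.ofReal (Real.exp (-a))) :=
  Good95.rel95 (lr_eq β h η) ξ (fun _ _ => rfl) (fun _ _ => rfl)

theorem Z_nn (β : ℝ) (h : Vec d) (η : Env d) (n : ℕ) : 0 ≤ Z β h η n := ZT_nonneg _ _ _ _

theorem cZ_nn (a β : ℝ) (h : Vec d) (η : Env d) (n : ℕ) : 0 ≤ Real.exp (-a) * Z β h η n :=
  mul_nonneg (Real.exp_pos _).le (ZT_nonneg _ _ _ _)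

/-- The mass of both sources as an element of `ℝ≥0∞`. -/
theorem za_eq (β : ℝ) (h : Vec d) (n : ℕ) (k : Fin d) (a : ℝ) (x : ℕ) (η : Env d) :
    Fr (pE h) (WE β η) n 0 0 + ENNReal.ofReal (Real.exp (-a)) * Fr (pE h) (WE β η) n 0 (src k x) =
      ENNReal.ofReal (Za β h n k a x η) := by
  unfold Za
  rw [fr_eq, fr_eq, sh_zero, ENNReal.ofReal_add (Z_nn β h η n) (cZ_nn a β h _ n),
    ENNReal.ofReal_mul (Real.exp_pos _).le]

theorem Za_pos (hd : 0 < d) (β : ℝ) (h : Vec d) (n : ℕ) (k : Fin d) (a : ℝ) (x : ℕ) (η : Env d) :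
    0 < Za β h n k a x η :=
  add_pos_of_pos_of_nonneg (ZT_univ_pos hd β h η) (cZ_nn a β h _ n)

theorem Za_nn (β : ℝ) (h : Vec d) (n : ℕ) (k : Fin d) (a : ℝ) (x : ℕ) (η : Env d) :
    0 ≤ Za β h n k a x η := add_nonneg (Z_nn β h η n) (cZ_nn a β h _ n)

/-- **FAR+ in real numbers.** -/
theorem far_pos_real (β : ℝ) (h : Vec d) (n : ℕ) (k : Fin d) {x : ℕ} (hx : 1 ≤ x) (a : ℝ) (η ξ : Env d) :
    Z β h η n ≤ Za β h n k a (x - 1) (om β h k x a η ξ) + Real.exp (-a) * Z β h (sh 0 (src k x) η) n := by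
  have h1 := W_7d29a1_UD.far_pos (rel27 β h k x a η ξ) n
  rw [src_sub_one k hx, za_eq, fr_eq, fr_eq, sh_zero, ← ENNReal.ofReal_mul (Real.exp_pos _).le,
    ← ENNReal.ofReal_add (Za_nn _ _ _ _ _ _ _) (cZ_nn a β h _ n)] at h1
  exact (ENNReal.ofReal_le_ofReal_iff (add_nonneg (Za_nn _ _ _ _ _ _ _) (cZ_nn a β h _ n))).1 h1

theorem ofR {R : ℝ} (hR : 0 ≤ R) (n : ℕ) :
    1 + ((n : ℝ≥0∞) + 1) * ENNReal.ofReal R ^ 2 = ENNReal.ofReal (1 + (n + 1) * R ^ 2) := by
  rw [ENNReal.ofReal_add zero_le_one (by positivity), ENNReal.ofReal_mul (by positivity : (0 : ℝ) ≤ (n : ℝ) + 1),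
    ENNReal.ofReal_pow hR, ENNReal.ofReal_add (Nat.cast_nonneg _) zero_le_one, ENNReal.ofReal_natCast,
    ENNReal.ofReal_one]

/-- **FAR- in real numbers.** -/
theorem far_neg_real (hd : 0 < d) {β : ℝ} {h : Vec d} {n m : ℕ} {κ C : ℝ} {η : Env d} (hN : NSn β h n m κ C η)
    (hC : 0 < C) (hm : 1 ≤ m) (hn : 1 ≤ n) (hκm : 2 ≤ κ * m) (k : Fin d) {x : ℕ} (hx : 2 * m ≤ x) (hx5 : x ≤ 5 * n)
    (a : ℝ) (ξ : Env d) :
    Real.exp (-a) * Z β h (sh 0 (src k x) η) n ≤ Za β h n k a (x - 1) (om β h k x a η ξ) +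
      (1 + (n + 1) * (2 * Real.exp (3 * C * m)) ^ 2) * Z β h η n +
        2 * (n + 1) * Real.exp (-(κ * m / 2)) * (Real.exp (-a) * Z β h (sh 0 (src k x) η) n) := by
  classical
  have hm' : (1 : ℝ) ≤ m := by exact_mod_cast hm
  have h1 := W_7d29a1_UD.far_neg (rel27 β h k x a η ξ) (ENNReal.ofReal (2 * Real.exp (3 * C * m))) n
  have h2 := Bad27.badsum27_far hd hN hm hκm hx hx5 k (ENNReal.ofReal (Real.exp (-a)))
    (R1 := ENNReal.ofReal (2 * Real.exp (3 * C * m)))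
    (ENNReal.ofReal_le_ofReal (mul_le_mul_of_nonneg_left (Real.exp_le_exp.2 (by nlinarith)) (by norm_num)))
    (by
      intro i hi v hv
      refine (Lip36.lip36 hd hN hn hi hx5 hv).trans (mul_le_mul_left (ENNReal.ofReal_le_ofReal ?_) _)
      have e1 : Real.exp (C * ((m : ℝ) + 2)) ≤ Real.exp (3 * C * m) := Real.exp_le_exp.2 (by nlinarith)
      have e2 := Real.exp_pos (3 * C * m)
      linarith)
  have h3 := h1.trans (add_le_add le_rfl h2)
  rw [src_sub_one k (by omega), za_eq, fr_eq, fr_eq, sh_zero] at h3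
  have e1 := ofR (R := 2 * Real.exp (3 * C * m)) (by positivity) n
  have p0 : 0 ≤ 1 + ((n : ℝ) + 1) * (2 * Real.exp (3 * C * m)) ^ 2 := by positivity
  have p1 : 0 ≤ 2 * ((n : ℝ) + 1) * Real.exp (-(κ * m / 2)) := by positivity
  have p2 := Z_nn β h η n
  have p3 := cZ_nn a β h (sh 0 (src k x) η) n
  have p4 := Za_nn β h n k a (x - 1) (om β h k x a η ξ)
  have e2 : ENNReal.ofReal (Real.exp (-a)) * ENNReal.ofReal (2 * (n + 1) * Real.exp (-(κ * m / 2))) *
      ENNReal.ofReal (Z β h (sh 0 (src k x) η) n) =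
      ENNReal.ofReal (2 * (n + 1) * Real.exp (-(κ * m / 2)) * (Real.exp (-a) * Z β h (sh 0 (src k x) η) n)) := by
    rw [ENNReal.ofReal_mul p1, ENNReal.ofReal_mul (Real.exp_pos _).le]
    ring
  rw [e1, e2, ← ENNReal.ofReal_mul (Real.exp_pos _).le, ← ENNReal.ofReal_mul p0, ← ENNReal.ofReal_add p4
    (mul_nonneg p0 p2), ← ENNReal.ofReal_add (add_nonneg p4 (mul_nonneg p0 p2)) (mul_nonneg p1 p3)] at h3
  exact (ENNReal.ofReal_le_ofReal_iff (by positivity)).1 h3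

/-! ### Numbers -/

theorem log_ratio {A B M ε : ℝ} (hM : 0 < M) (hAp : 0 < A) (hB : 0 < B) (hA : A ≤ (1 + ε) * M) (hB' : (1 - ε) * M ≤ B)
    (h0 : 0 ≤ ε) (h3 : ε ≤ 1 / 3) : Real.log A ≤ Real.log B + 3 * ε := by
  rw [← Real.log_exp (3 * ε), ← Real.log_mul hB.ne' (Real.exp_pos _).ne']
  refine Real.log_le_log hAp (hA.trans ?_)
  have h1 : 1 + 3 * ε ≤ Real.exp (3 * ε) := by
    have := Real.add_one_le_exp (3 * ε)
    linarith
  have h2 : 1 + ε ≤ (1 - ε) * (1 + 3 * ε) := by nlinarith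
  have h4 : 0 ≤ 1 - ε := by linarith
  calc (1 + ε) * M ≤ ((1 - ε) * (1 + 3 * ε)) * M := mul_le_mul_of_nonneg_right h2 hM.le
    _ ≤ ((1 - ε) * Real.exp (3 * ε)) * M :=
      mul_le_mul_of_nonneg_right (mul_le_mul_of_nonneg_left h1 h4) hM.le
    _ = ((1 - ε) * M) * Real.exp (3 * ε) := by ring
    _ ≤ B * Real.exp (3 * ε) := mul_le_mul_of_nonneg_right hB' (Real.exp_pos _).le

theorem le_mm (δ : ℝ) (n : ℕ) : (n : ℝ) ^ δ ≤ mm δ n := Nat.le_ceil _

/-- The scale beats every power. -/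
theorem ev_pow {δ κ : ℝ} (hδ : 0 < δ) (hκ : 0 < κ) (A K : ℝ) :
    ∀ᶠ n : ℕ in atTop, A * (n : ℝ) ^ K ≤ Real.exp (κ * mm δ n) := by
  have h1 : Tendsto (fun n : ℕ => (n : ℝ) ^ δ) atTop atTop :=
    (tendsto_rpow_atTop hδ).comp tendsto_natCast_atTop_atTop
  have h2 := (tendsto_rpow_mul_exp_neg_mul_atTop_nhds_zero (K / δ) κ hκ).comp h1
  have h3 : ∀ᶠ n : ℕ in atTop, ((n : ℝ) ^ δ) ^ (K / δ) * Real.exp (-κ * (n : ℝ) ^ δ) < 1 / (|A| + 1) :=
    h2.eventually (gt_mem_nhds (by positivity))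
  filter_upwards [h3] with n hn
  have e1 : ((n : ℝ) ^ δ) ^ (K / δ) = (n : ℝ) ^ K := by
    rw [← Real.rpow_mul (Nat.cast_nonneg _), mul_div_cancel₀ K hδ.ne']
  rw [e1, lt_div_iff₀ (by positivity)] at hn
  have h4 : (0 : ℝ) ≤ (n : ℝ) ^ K := Real.rpow_nonneg (Nat.cast_nonneg _) _
  have h5 : Real.exp (κ * (n : ℝ) ^ δ) ≤ Real.exp (κ * mm δ n) :=
    Real.exp_le_exp.2 (mul_le_mul_of_nonneg_left (le_mm δ n) hκ.le)
  refine le_trans ?_ h5
  have h6 : Real.exp (-κ * (n : ℝ) ^ δ) * Real.exp (κ * (n : ℝ) ^ δ) = 1 := by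
    rw [← Real.exp_add]
    simp
  have h7 : A * (n : ℝ) ^ K ≤ (n : ℝ) ^ K * (|A| + 1) := by nlinarith [le_abs_self A]
  calc A * (n : ℝ) ^ K ≤ (n : ℝ) ^ K * (|A| + 1) := h7
    _ = ((n : ℝ) ^ K * Real.exp (-κ * (n : ℝ) ^ δ) * (|A| + 1)) * Real.exp (κ * (n : ℝ) ^ δ) := by
      rw [mul_right_comm, mul_assoc _ (Real.exp (-κ * (n : ℝ) ^ δ)) _, h6, mul_one]
    _ ≤ 1 * Real.exp (κ * (n : ℝ) ^ δ) := mul_le_mul_of_nonneg_right hn.le (Real.exp_pos _).le
    _ = _ := one_mul _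

theorem ev_mm {δ : ℝ} (hδ : 0 < δ) (A : ℝ) : ∀ᶠ n : ℕ in atTop, A ≤ mm δ n := by
  have h1 : Tendsto (fun n : ℕ => (n : ℝ) ^ δ) atTop atTop :=
    (tendsto_rpow_atTop hδ).comp tendsto_natCast_atTop_atTop
  filter_upwards [h1.eventually_ge_atTop A] with n hn
  exact hn.trans (le_mm δ n)

/-- **U6**. -/
theorem farV (hd : 0 < d) (β : ℝ) : FarV d β := by
  intro δ κ C hδ hδ1 hκ hκ2 hC
  refine ⟨6 * C + κ / 2, κ / 4, by positivity, by positivity, ?_⟩
  obtain ⟨n₀, hn₀⟩ := eventually_atTop.1 (((ev_mm hδ (2 / κ)).and (ev_mm hδ 1)).and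
    ((ev_pow hδ (κ := κ / 4) (by positivity) 42 1).and (eventually_ge_atTop 1)))
  refine ⟨n₀, fun h n hn k x hx hx5 a η ξ hN hfar => ?_⟩
  obtain ⟨⟨hm2, hm1⟩, hexp, hn1⟩ := hn₀ n hn
  set m := mm δ n with hmdef
  have hm : 1 ≤ m := by exact_mod_cast hm1
  have hκm : 2 ≤ κ * m := by
    rw [div_le_iff₀ hκ] at hm2
    linarith
  rw [Real.rpow_one] at hexp
  have hn1' : (1 : ℝ) ≤ n := by exact_mod_cast hn1
  set ψ0 := Z β h η n with hψ0
  set ψX := Z β h (sh 0 (src k x) η) n with hψX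
  have p0 : 0 < ψ0 := ZT_univ_pos hd β h η
  have pX : 0 < ψX := ZT_univ_pos hd β h (sh 0 (src k x) η)
  have hUs0 : Us β h n k 0 η = Real.log ψ0 := by
    unfold Us X
    rw [src_zero, sh_zero]
  have hUsX : Us β h n k x η = Real.log ψX := rfl
  rw [hUs0, hUsX] at hfar
  set ε : ℝ := 7 * (n + 1) * Real.exp (-(κ * m / 2)) with hε
  have hε0 : 0 ≤ ε := by positivity
  have e3 : 3 * ε ≤ Real.exp (-(κ / 4 * m)) := by
    have h1 : 3 * ε ≤ (42 * n) * Real.exp (-(κ * m / 2)) := by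
      rw [hε]
      have := Real.exp_pos (-(κ * m / 2))
      nlinarith
    refine h1.trans ?_
    calc (42 * (n : ℝ)) * Real.exp (-(κ * m / 2)) ≤ Real.exp (κ / 4 * m) * Real.exp (-(κ * m / 2)) :=
          mul_le_mul_of_nonneg_right hexp (Real.exp_pos _).le
      _ = Real.exp (-(κ / 4 * m)) := by
          rw [← Real.exp_add]
          congr 1
          ring
  have e4 : Real.exp (-(κ / 4 * m)) ≤ 1 := Real.exp_le_one_iff.2 (by
    have : 0 ≤ κ / 4 * m := by positivity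
    linarith)
  have hε3 : ε ≤ 1 / 3 := by linarith
  have e5 : Real.exp (-((6 * C + κ / 2) * m)) ≤ Real.exp (-(κ * m / 2)) := Real.exp_le_exp.2 (by nlinarith)
  have e6 : Real.exp (-((6 * C + κ / 2) * m)) ≤ ε := by
    refine e5.trans ?_
    rw [hε]
    have := Real.exp_pos (-(κ * m / 2))
    nlinarith
  have hZom := Za_pos hd β h n k a (x - 1) (om β h k x a η ξ)
  have hZa := Za_pos hd β h n k a x η
  have hZa' : Za β h n k a x η = ψ0 + Real.exp (-a) * ψX := rfl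
  suffices hS : Real.log (Za β h n k a x η) ≤ Real.log (Za β h n k a (x - 1) (om β h k x a η ξ)) + 3 * ε by
    linarith
  rcases le_abs.1 hfar with hc | hc
  · -- the level is far above
    have h1 : Real.exp (-a) * ψX ≤ ε * ψ0 := by
      have h2 : Real.exp (-a) * ψX = Real.exp (Real.log ψX - Real.log ψ0 - a) * ψ0 := by
        rw [sub_sub, add_comm (Real.log ψ0), ← sub_sub, Real.exp_sub, Real.exp_log p0, Real.exp_sub, Real.exp_log pX,
          Real.exp_neg]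
        field_simp
      rw [h2]
      refine mul_le_mul_of_nonneg_right (le_trans (Real.exp_le_exp.2 ?_) e6) p0.le
      linarith
    refine log_ratio p0 hZa hZom ?_ ?_ hε0 hε3
    · rw [hZa']
      linarith
    · have h2 := far_pos_real β h n k (x := x) (by omega) a η ξ
      rw [← hψ0, ← hψX] at h2
      linarith
  · -- the level is far below
    set M := Real.exp (-a) * ψX with hM
    have hMp : 0 < M := mul_pos (Real.exp_pos _) pX
    have h1 : ψ0 ≤ Real.exp (-((6 * C + κ / 2) * m)) * M := by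
      have h2 : ψ0 = Real.exp (a - (Real.log ψX - Real.log ψ0)) * M := by
        rw [hM, ← mul_assoc, ← Real.exp_add]
        have : a - (Real.log ψX - Real.log ψ0) + -a = Real.log ψ0 - Real.log ψX := by ring
        rw [this, Real.exp_sub, Real.exp_log p0, Real.exp_log pX]
        field_simp
      rw [h2]
      refine mul_le_mul_of_nonneg_right (Real.exp_le_exp.2 ?_) hMp.le
      linarith
    refine log_ratio hMp hZa hZom ?_ ?_ hε0 hε3
    · rw [hZa']
      have := mul_le_mul_of_nonneg_right e6 hMp.le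
      linarith
    · have h2 := far_neg_real hd hN hC hm hn1 hκm k hx hx5 a ξ
      rw [← hψ0, ← hψX, ← hM] at h2
      have h3 : (1 + ((n : ℝ) + 1) * (2 * Real.exp (3 * C * m)) ^ 2) * ψ0 ≤
          (5 * (n + 1) * Real.exp (-(κ * m / 2))) * M := by
        have h4 : (2 * Real.exp (3 * C * m)) ^ 2 = 4 * Real.exp (6 * C * m) := by
          rw [mul_pow, ← Real.exp_nat_mul]
          norm_num
          ring
        have h5 : (1 : ℝ) ≤ (n + 1) * Real.exp (6 * C * m) := by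
          have : 1 ≤ Real.exp (6 * C * m) := Real.one_le_exp (by positivity)
          nlinarith
        have h6 : 1 + ((n : ℝ) + 1) * (2 * Real.exp (3 * C * m)) ^ 2 ≤ 5 * (n + 1) * Real.exp (6 * C * m) := by
          rw [h4]
          linarith
        calc (1 + ((n : ℝ) + 1) * (2 * Real.exp (3 * C * m)) ^ 2) * ψ0
            ≤ (5 * (n + 1) * Real.exp (6 * C * m)) * (Real.exp (-((6 * C + κ / 2) * m)) * M) :=
              mul_le_mul h6 h1 p0.le (by positivity)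
          _ = (5 * (n + 1)) * (Real.exp (6 * C * m) * Real.exp (-((6 * C + κ / 2) * m))) * M := by ring
          _ = (5 * (n + 1) * Real.exp (-(κ * m / 2))) * M := by
              rw [← Real.exp_add]
              congr 3
              ring
      have h7 : (1 - ε) * M = M - (5 * (n + 1) * Real.exp (-(κ * m / 2))) * M -
          2 * (n + 1) * Real.exp (-(κ * m / 2)) * M := by
        rw [hε]
        ring
      rw [h7]
      linarith

end Pool.Agent.W_7d29a1_V.Far27
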