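import Pool.Agent.W_7d29a1_V.DefsV2
import Pool.Agent.W_7d29a1_h46u.LawU

/-!
The law of the new environment: a predictable injective choice of sites of an independent
environment is an independent environment.
-/

namespace Pool.Agent.W_7d29a1_V.Law2

open MeasureTheory ProbabilityTheory Filter Topology Pool.Agent.W_MP_7d29a1_pr
  Pool.Agent.W_7d29a1_h46 Pool.Agent.W_7d29a1_h46u Pool.Agent.W_7d29a1_D2
  Pool.Agent.W_7d29a1_D2.B35

section General

variable {ι J : Type*} {ρ : Measure ℝ} [IsProbabilityMeasure ρ]

open Classical in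
/-- The function `G` on `S`, the function `G'` off `S`. -/
noncomputable def sp (S : Set J) (G G' : J → ℝ) : J → ℝ := fun q => if q ∈ S then G q else G' q

lemma sp_mem {S : Set J} {G G' : J → ℝ} {q : J} (h : q ∈ S) : sp S G G' q = G q := if_pos h

lemma sp_not {S : Set J} {G G' : J → ℝ} {q : J} (h : q ∉ S) : sp S G G' q = G' q := if_neg h

lemma mp_sp (S : Set J) :
    MeasurePreserving (fun w : (J → ℝ) × (J → ℝ) => sp S w.1 w.2)
      ((Measure.infinitePi fun _ : J => ρ).prod (Measure.infinitePi fun _ : J => ρ))
      (Measure.infinitePi fun _ : J => ρ) := by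
  classical
  have hσ : Function.Injective (fun p : J =>
      if p ∈ S then (Sum.inl p : J ⊕ J) else Sum.inr p) := by
    intro p q h
    simp only at h
    split_ifs at h <;> simp_all
  have he : (fun w : (J → ℝ) × (J → ℝ) => sp S w.1 w.2) =
      fun w : (J → ℝ) × (J → ℝ) => fun p => Sum.elim w.1 w.2
      (if p ∈ S then (Sum.inl p : J ⊕ J) else Sum.inr p) := by
    funext w p
    by_cases h : p ∈ S
    · rw [sp_mem h, if_pos h]; rfl
    · rw [sp_not h, if_neg h]; rfl
  rw [he]
  exact LawU_elim hσ

open Classical in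
/-- The choice `σ` on the rows before `N`, the fixed choice `e` on the other rows. -/
noncomputable def TN (r : ι → ℕ) (e : ι → J) (σ : (J → ℝ) → ι → J) (N : ℕ) (G : J → ℝ) : ι → ℝ :=
  fun p => if r p < N then G (σ G p) else G (e p)

/-- A predictable injective choice of sites. -/
theorem select (r : ι → ℕ) (rJ : J → ℕ) (e : ι → J) (he : Function.Injective e)
    (her : ∀ p, rJ (e p) = r p) (σ : (J → ℝ) → ι → J) (hσ : ∀ G, Function.Injective (σ G))
    (hr : ∀ G p, rJ (σ G p) = r p)
    (hdep : ∀ G G' p, (∀ q, rJ q < r p → G q = G' q) → σ G p = σ G' p)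
    (hm : ∀ p, Measurable (fun w : (J → ℝ) × (J → ℝ) => w.2 (σ w.1 p))) :
    MeasurePreserving (fun (G : J → ℝ) (p : ι) => G (σ G p)) (Measure.infinitePi fun _ : J => ρ)
      (Measure.infinitePi fun _ : ι => ρ) := by
  classical
  have hm1 : ∀ p, Measurable (fun G : J → ℝ => G (σ G p)) := fun p =>
    (hm p).comp (measurable_id.prodMk measurable_id)
  have hTm : ∀ N, Measurable (TN r e σ N) := by
    intro N
    refine measurable_pi_iff.2 fun p => ?_
    unfold TN
    by_cases h : r p < N
    · simp only [if_pos h]
      exact hm1 p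
    · simp only [if_neg h]
      exact measurable_pi_apply _
  have key : ∀ N, MeasurePreserving (TN r e σ N) (Measure.infinitePi fun _ : J => ρ)
      (Measure.infinitePi fun _ : ι => ρ) := by
    intro N
    induction N with
    | zero =>
      have h0 : TN r e σ 0 = fun (G : J → ℝ) (p : ι) => G (e p) := by
        funext G p
        unfold TN
        rw [if_neg (Nat.not_lt_zero _)]
      rw [h0]
      exact LawU_reindex he
    | succ N ih =>
      set S : Set J := {q | rJ q ≠ N} with hS
      set S' : Set ι := {p | r p ≠ N} with hS'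
      have hcomp : (TN r e σ (N + 1)) ∘ (fun w : (J → ℝ) × (J → ℝ) => sp S w.1 w.2) =
          fun w : (J → ℝ) × (J → ℝ) => sp S' (TN r e σ N w.1) (fun p => w.2 (σ w.1 p)) := by
        funext w p
        simp only [Function.comp]
        have hdp : r p ≤ N → σ (sp S w.1 w.2) p = σ w.1 p := by
          intro hp
          refine hdep _ _ p fun q hq => ?_
          have : q ∈ S := by
            simp only [hS, Set.mem_ofPred_eq]
            omega
          exact sp_mem this
        rcases lt_trichotomy (r p) N with h | h | h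
        · have h1 : p ∈ S' := by
            simp only [hS', Set.mem_ofPred_eq]
            omega
          rw [sp_mem h1]
          unfold TN
          rw [if_pos (by omega), if_pos h, hdp h.le]
          refine sp_mem ?_
          simp only [hS, Set.mem_ofPred_eq, hr]
          omega
        · have h1 : p ∉ S' := by
            simp only [hS', Set.mem_ofPred_eq]
            omega
          rw [sp_not h1]
          unfold TN
          rw [if_pos (by omega), hdp h.le]
          refine sp_not ?_
          simp only [hS, Set.mem_ofPred_eq, hr]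
          omega
        · have h1 : p ∈ S' := by
            simp only [hS', Set.mem_ofPred_eq]
            omega
          rw [sp_mem h1]
          unfold TN
          rw [if_neg (by omega), if_neg (by omega)]
          refine sp_mem ?_
          simp only [hS, Set.mem_ofPred_eq, her]
          omega
      have hgm : Measurable (Function.uncurry
          (fun (G : J → ℝ) (G' : J → ℝ) (p : ι) => G' (σ G p))) :=
        measurable_pi_iff.2 fun p => hm p
      have hsk : MeasurePreserving (fun w : (J → ℝ) × (J → ℝ) =>
          (TN r e σ N w.1, fun p => w.2 (σ w.1 p)))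
          ((Measure.infinitePi fun _ : J => ρ).prod (Measure.infinitePi fun _ : J => ρ))
          ((Measure.infinitePi fun _ : ι => ρ).prod (Measure.infinitePi fun _ : ι => ρ)) :=
        MeasurePreserving.skew_product ih hgm
          (Filter.Eventually.of_forall fun G => (LawU_reindex (hσ G)).map_eq)
      have h2 := (mp_sp (ρ := ρ) S').comp hsk
      refine ⟨hTm (N + 1), ?_⟩
      have h3 := (mp_sp (ρ := ρ) S).map_eq
      have h4 : Measure.map (TN r e σ (N + 1)) (Measure.map (fun w : (J → ℝ) × (J → ℝ) =>
          sp S w.1 w.2) ((Measure.infinitePi fun _ : J => ρ).prod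
          (Measure.infinitePi fun _ : J => ρ))) = Measure.infinitePi fun _ : ι => ρ := by
        rw [Measure.map_map (hTm _) (mp_sp (ρ := ρ) S).measurable, hcomp]
        exact h2.map_eq
      rw [h3] at h4
      exact h4
  have hTm' : Measurable (fun (G : J → ℝ) (p : ι) => G (σ G p)) := measurable_pi_iff.2 hm1
  refine ⟨hTm', ?_⟩
  apply Measure.eq_infinitePi
  intro s t ht
  have hms : MeasurableSet (Set.pi (s : Set ι) t) := .pi s.countable_toSet fun i _ => ht i
  rw [Measure.map_apply hTm' hms]
  have hpre : (fun (G : J → ℝ) (p : ι) => G (σ G p)) ⁻¹' (Set.pi (s : Set ι) t) =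
      (TN r e σ (s.sup r + 1)) ⁻¹' (Set.pi (s : Set ι) t) := by
    ext G
    simp only [Set.mem_preimage, Set.mem_pi, Finset.mem_coe]
    refine forall₂_congr fun p hp => ?_
    have h1 : r p < s.sup r + 1 := Nat.lt_succ_of_le (Finset.le_sup (f := r) hp)
    unfold TN
    rw [if_pos h1]
  rw [hpre, (key _).measure_preimage hms.nullMeasurableSet,
    Measure.infinitePi_pi _ (fun i _ => ht _)]

end General

variable {d : ℕ}

open Classical in
/-- The environment on the rows before `m`. -/
noncomputable def z0 (m : ℕ) (η : Env d) : Env d := fun p => if p.1 < m then η p else 0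

open Classical in
/-- The weight of the last site. -/
noncomputable def c0 (β : ℝ) (m : ℕ) (t : ℝ) : ℝ := if m = 0 then 1 else Real.exp (β * t)

lemma c0_pos (β : ℝ) (m : ℕ) (t : ℝ) : 0 < c0 β m t := by
  unfold c0
  split_ifs
  · exact one_pos
  · exact Real.exp_pos _

/-- The weight of the last site factors out. -/
lemma PP_last (β : ℝ) (h : Vec d) (η : Env d) (m : ℕ) (z : Site d) :
    PP β h η m z = c0 β m (η (m, z)) * PP β h (z0 m η) m z := by
  classical
  unfold PP ZT
  rw [Finset.mul_sum]
  refine Finset.sum_congr rfl fun s _ => ?_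
  by_cases hs : s ∈ {s : Fin m → Step d | pos s m = z}
  · rw [if_pos hs, if_pos hs]
    have h1 : pos s m = z := hs
    unfold wgt c0
    cases m with
    | zero =>
      rw [if_pos rfl, one_mul]
      unfold energy
      simp
    | succ m =>
      rw [if_neg (Nat.succ_ne_zero m), ← Real.exp_add]
      congr 1
      have h2 : energy η s = energy (z0 (m + 1) η) s + η (m + 1, z) := by
        unfold energy
        rw [Fin.sum_univ_castSucc, Fin.sum_univ_castSucc]
        have h3 : ∀ i : Fin m, z0 (m + 1) η (((Fin.castSucc i : Fin (m + 1)) : ℕ) + 1,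
            pos s (((Fin.castSucc i : Fin (m + 1)) : ℕ) + 1)) =
            η (((Fin.castSucc i : Fin (m + 1)) : ℕ) + 1,
            pos s (((Fin.castSucc i : Fin (m + 1)) : ℕ) + 1)) := by
          intro i
          unfold z0
          rw [if_pos]
          have := i.2
          simp only [Fin.val_castSucc]
          omega
        have h4 : z0 (m + 1) η (((Fin.last m : Fin (m + 1)) : ℕ) + 1,
            pos s (((Fin.last m : Fin (m + 1)) : ℕ) + 1)) = 0 := by
          unfold z0
          rw [if_neg]
          simp
        rw [Finset.sum_congr rfl (fun i _ => h3 i), h4, add_zero]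
        congr 1
        simp only [Fin.val_last]
        rw [h1]
      rw [h2]
      ring
  · rw [if_neg hs, if_neg hs, mul_zero]

lemma z0_congr {m : ℕ} {η η' : Env d} (h : ∀ q : ℕ × Site d, q.1 < m → η q = η' q) :
    z0 m η = z0 m η' := by
  funext p
  unfold z0
  by_cases hp : p.1 < m
  · rw [if_pos hp, if_pos hp, h p hp]
  · rw [if_neg hp, if_neg hp]

/-- The type of a site depends on the earlier rows only. -/
lemma rt_iff (β : ℝ) (h : Vec d) (k : Fin d) (x : ℕ) (a : ℝ) (η : Env d) (p : ℕ × Site d) :
    rt β h k x a η p ↔ PP β h (z0 p.1 η) p.1 p.2 ≤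
      Real.exp (-a) * PP β h (z0 p.1 (sh 0 (src k x) η)) p.1 (p.2 - src k x) := by
  unfold rt
  rw [PP_last β h η p.1 p.2, PP_last β h (sh 0 (src k x) η) p.1 (p.2 - src k x)]
  have h1 : (sh 0 (src k x) η) (p.1, p.2 - src k x) = η (p.1, p.2) := by
    unfold sh
    simp
  rw [h1]
  have hc := c0_pos β p.1 (η (p.1, p.2))
  rw [← mul_assoc, mul_comm (Real.exp (-a)), mul_assoc]
  exact mul_le_mul_iff_right₀ hc

lemma rt_congr (β : ℝ) (h : Vec d) (k : Fin d) (x : ℕ) (a : ℝ) {η η' : Env d} (p : ℕ × Site d)
    (hη : ∀ q : ℕ × Site d, q.1 < p.1 → η q = η' q) :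
    rt β h k x a η p ↔ rt β h k x a η' p := by
  rw [rt_iff, rt_iff, z0_congr hη]
  have h2 : z0 p.1 (sh 0 (src k x) η) = z0 p.1 (sh 0 (src k x) η') := by
    refine z0_congr fun q hq => ?_
    unfold sh
    exact hη _ (by simpa using hq)
  rw [h2]

lemma measurableSet_rt (β : ℝ) (h : Vec d) (k : Fin d) (x : ℕ) (a : ℝ) (p : ℕ × Site d) :
    MeasurableSet {η : Env d | rt β h k x a η p} := by
  unfold rt PP
  exact measurableSet_le (measurable_ZT β h _)
    (((measurable_ZT β h _).comp (measurable_sh 0 (src k x))).const_mul _)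

open Classical in
/-- The choice of the sites of the new environment. -/
noncomputable def sig (β : ℝ) (h : Vec d) (k : Fin d) (x : ℕ) (a : ℝ)
    (G : (ℕ × Site d) ⊕ (ℕ × Site d) → ℝ) (p : ℕ × Site d) : (ℕ × Site d) ⊕ (ℕ × Site d) :=
  if rt β h k x a (fun q => G (Sum.inl q)) p then
    (if rt β h k x a (fun q => G (Sum.inl q)) (p.1, p.2 + src k 1) then
      Sum.inl (p.1, p.2 + src k 1) else Sum.inr p)
  else Sum.inl p

/-- U2. -/
theorem lawV {d : ℕ} {ρ : Measure ℝ} [IsProbabilityMeasure ρ] (β : ℝ) : LawV d ρ β := by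
  classical
  intro h k x a
  have hsel := select (ρ := ρ) (ι := ℕ × Site d) (J := (ℕ × Site d) ⊕ (ℕ × Site d))
    (fun p => p.1) (fun q => Sum.elim (fun p : ℕ × Site d => p.1) (fun p : ℕ × Site d => p.1) q)
    Sum.inl Sum.inl_injective (fun p => rfl) (sig β h k x a) ?_ ?_ ?_ ?_
  · have h1 : MeasurePreserving (fun (w : Env d × Env d) (p : (ℕ × Site d) ⊕ (ℕ × Site d)) =>
        Sum.elim w.1 w.2 p) ((law d ρ).prod (law d ρ)) (Measure.infinitePi fun _ => ρ) :=
      ⟨LawU_meas, LawU_map_elim⟩
    have h2 := hsel.comp h1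
    have h3 : (fun w : Env d × Env d => om β h k x a w.1 w.2) =
        (fun (G : (ℕ × Site d) ⊕ (ℕ × Site d) → ℝ) (p : ℕ × Site d) => G (sig β h k x a G p)) ∘
          (fun (w : Env d × Env d) (p : (ℕ × Site d) ⊕ (ℕ × Site d)) => Sum.elim w.1 w.2 p) := by
      funext w p
      simp only [Function.comp, om, sig, Sum.elim_inl]
      have h4 : (fun q => w.1 q) = w.1 := rfl
      by_cases hp : rt β h k x a w.1 p
      · by_cases hp' : rt β h k x a w.1 (p.1, p.2 + src k 1)
        · simp only [if_pos hp, if_pos hp', Sum.elim_inl]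
        · simp only [if_pos hp, if_neg hp', Sum.elim_inr]
      · simp only [if_neg hp, Sum.elim_inl]
    rw [h3]
    exact h2
  · intro G p q hpq
    have hadd : ∀ p q : ℕ × Site d, (p.1, p.2 + src k 1) = (q.1, q.2 + src k 1) → p = q := by
      intro p q hh
      simp only [Prod.mk.injEq, add_left_inj] at hh
      exact Prod.ext hh.1 hh.2
    have hcross : ∀ p q : ℕ × Site d, rt β h k x a (fun q => G (Sum.inl q)) p →
        rt β h k x a (fun q => G (Sum.inl q)) (p.1, p.2 + src k 1) →
        ¬ rt β h k x a (fun q => G (Sum.inl q)) q →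
        (Sum.inl (p.1, p.2 + src k 1) : (ℕ × Site d) ⊕ (ℕ × Site d)) = Sum.inl q → False := by
      intro p q _ h2 h3 hh
      have hh' := Sum.inl_injective hh
      rw [hh'] at h2
      exact h3 h2
    unfold sig at hpq
    by_cases h1 : rt β h k x a (fun q => G (Sum.inl q)) p
    · by_cases h2 : rt β h k x a (fun q => G (Sum.inl q)) (p.1, p.2 + src k 1)
      · by_cases h3 : rt β h k x a (fun q => G (Sum.inl q)) q
        · by_cases h4 : rt β h k x a (fun q => G (Sum.inl q)) (q.1, q.2 + src k 1)
          · simp only [if_pos h1, if_pos h2, if_pos h3, if_pos h4] at hpq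
            exact hadd p q (Sum.inl_injective hpq)
          · simp only [if_pos h1, if_pos h2, if_pos h3, if_neg h4] at hpq
            simp at hpq
        · simp only [if_pos h1, if_pos h2, if_neg h3] at hpq
          exact absurd (hcross p q h1 h2 h3 hpq) id
      · by_cases h3 : rt β h k x a (fun q => G (Sum.inl q)) q
        · by_cases h4 : rt β h k x a (fun q => G (Sum.inl q)) (q.1, q.2 + src k 1)
          · simp only [if_pos h1, if_neg h2, if_pos h3, if_pos h4] at hpq
            simp at hpq
          · simp only [if_pos h1, if_neg h2, if_pos h3, if_neg h4] at hpq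
            exact Sum.inr_injective hpq
        · simp only [if_pos h1, if_neg h2, if_neg h3] at hpq
          simp at hpq
    · by_cases h3 : rt β h k x a (fun q => G (Sum.inl q)) q
      · by_cases h4 : rt β h k x a (fun q => G (Sum.inl q)) (q.1, q.2 + src k 1)
        · simp only [if_neg h1, if_pos h3, if_pos h4] at hpq
          exact absurd (hcross q p h3 h4 h1 hpq.symm) id
        · simp only [if_neg h1, if_pos h3, if_neg h4] at hpq
          simp at hpq
      · simp only [if_neg h1, if_neg h3] at hpq
        exact Sum.inl_injective hpq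
  · intro G p
    unfold sig
    split_ifs <;> rfl
  · intro G G' p hG
    have h1 : rt β h k x a (fun q => G (Sum.inl q)) p ↔
        rt β h k x a (fun q => G' (Sum.inl q)) p :=
      rt_congr β h k x a p fun q hq => hG (Sum.inl q) hq
    have h2 : rt β h k x a (fun q => G (Sum.inl q)) (p.1, p.2 + src k 1) ↔
        rt β h k x a (fun q => G' (Sum.inl q)) (p.1, p.2 + src k 1) :=
      rt_congr β h k x a (p.1, p.2 + src k 1) fun q hq => hG (Sum.inl q) hq
    unfold sig
    simp only [h1, h2]
  · intro p
    have hproj : Measurable (fun (w : ((ℕ × Site d) ⊕ (ℕ × Site d) → ℝ) ×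
        ((ℕ × Site d) ⊕ (ℕ × Site d) → ℝ)) (q : ℕ × Site d) => w.1 (Sum.inl q)) :=
      measurable_pi_iff.2 fun q => (measurable_pi_apply _).comp measurable_fst
    have hrt : ∀ p : ℕ × Site d, MeasurableSet {w : ((ℕ × Site d) ⊕ (ℕ × Site d) → ℝ) ×
        ((ℕ × Site d) ⊕ (ℕ × Site d) → ℝ) | rt β h k x a (fun q => w.1 (Sum.inl q)) p} :=
      fun p => hproj (measurableSet_rt β h k x a p)
    have he : (fun w : ((ℕ × Site d) ⊕ (ℕ × Site d) → ℝ) × ((ℕ × Site d) ⊕ (ℕ × Site d) → ℝ) =>
        w.2 (sig β h k x a w.1 p)) = fun w =>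
        if rt β h k x a (fun q => w.1 (Sum.inl q)) p then
          (if rt β h k x a (fun q => w.1 (Sum.inl q)) (p.1, p.2 + src k 1) then
            w.2 (Sum.inl (p.1, p.2 + src k 1)) else w.2 (Sum.inr p))
        else w.2 (Sum.inl p) := by
      funext w
      unfold sig
      split_ifs <;> rfl
    rw [he]
    exact Measurable.ite (hrt p) (Measurable.ite (hrt _)
      ((measurable_pi_apply _).comp measurable_snd) ((measurable_pi_apply _).comp measurable_snd))
      ((measurable_pi_apply _).comp measurable_snd)

end Pool.Agent.W_7d29a1_V.Law2
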