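import Pool.Agent.W_7d29a1_V.LipC74

/-!
Lemma A: the means of the point to point partition functions are Lipschitz inside the cone.
-/

namespace Pool.Agent.W_7d29a1_V.MeanLip74

open MeasureTheory ProbabilityTheory Filter Topology Pool.Agent.W_MP_7d29a1_pr
  Pool.Agent.W_7d29a1_h46 Pool.Agent.W_7d29a1_h46u Pool.Agent.W_7d29a1_D2
  Pool.Agent.W_7d29a1_D2.B35 Pool.Agent.W_7d29a1_V Pool.Agent.W_7d29a1_V.LipA74
  Pool.Agent.W_7d29a1_V.LipB74 Pool.Agent.W_7d29a1_V.LipC74

variable {d : ℕ}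

lemma pos_succ {t : ℕ} (q : Fin t → Step d) {j : ℕ} (hj : j < t) :
    pos q (j + 1) = pos q j + vec (q ⟨j, hj⟩) := by
  classical
  have h1 : pos q (j + 1) - pos q j = ∑ l : Fin t, if (l : ℕ) = j then vec (q l) else 0 := by
    unfold pos
    rw [← Finset.sum_sub_distrib]
    refine Finset.sum_congr rfl fun l _ => ?_
    by_cases h2 : (l : ℕ) < j
    · rw [if_pos (by omega), if_pos h2, if_neg (by omega), sub_self]
    · by_cases h3 : (l : ℕ) = j
      · rw [if_pos (by omega), if_neg h2, if_pos h3, sub_zero]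
      · rw [if_neg (by omega), if_neg h2, if_neg h3, sub_zero]
  rw [Finset.sum_eq_single (⟨j, hj⟩ : Fin t), if_pos rfl] at h1
  · rw [← h1]
    abel
  · intro l _ hl
    rw [if_neg]
    intro h
    exact hl (Fin.ext h)
  · intro h
    exact absurd (Finset.mem_univ _) h

/-- The pieces of a walk. -/
lemma rch_sub {t : ℕ} (q : Fin t → Step d) {a s : ℕ} (h : a + s ≤ t) :
    Rch s (pos q (a + s) - pos q a) := by
  refine ⟨fun i => q ⟨a + i, by have := i.2; omega⟩, ?_⟩
  have h1 : ∀ j : ℕ, j ≤ s → pos (fun i : Fin s => q ⟨a + i, by have := i.2; omega⟩) j =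
      pos q (a + j) - pos q a := by
    intro j
    induction j with
    | zero =>
      intro _
      rw [pos_zero', add_zero, sub_self]
    | succ j ih =>
      intro hj
      rw [pos_succ _ (show j < s by omega), ih (by omega), ← add_assoc,
        pos_succ q (show a + j < t by omega)]
      simp only
      abel
  exact h1 s le_rfl

/-- The mass of the walks through four given points. -/
lemma class_le (β : ℝ) (h : Vec d) (η : Env d) {t : ℕ} (a s g r : ℕ)
    (ht : a + (s + (g + (s + (r + 0)))) = t) (x0 x1 x2 x3 z : Site d) :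
    ZT β h η {q : Fin t → Step d | pos q a = x0 ∧ pos q (a + s) = x1 ∧ pos q (a + s + g) = x2 ∧
      pos q (a + s + g + s) = x3 ∧ pos q t = z} ≤
      ch β h η [(a, x0), (s, x1 - x0), (g, x2 - x1), (s, x3 - x2), (r, z - x3)] := by
  subst ht
  refine ZT_le_ch β h [(a, x0), (s, x1 - x0), (g, x2 - x1), (s, x3 - x2), (r, z - x3)] η _ ?_
  rintro q ⟨h0, h1, h2, h3, h4⟩
  refine ⟨?_, ?_, ?_, ?_, ?_, trivial⟩
  · simp only [zero_add]
    exact h0
  · simp only [zero_add]
    rw [show x0 + (x1 - x0) = x1 by abel]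
    exact h1
  · simp only [zero_add]
    rw [show x0 + (x1 - x0) + (x2 - x1) = x2 by abel]
    exact h2
  · simp only [zero_add]
    rw [show x0 + (x1 - x0) + (x2 - x1) + (x3 - x2) = x3 by abel]
    exact h3
  · simp only [zero_add]
    rw [show x0 + (x1 - x0) + (x2 - x1) + (x3 - x2) + (z - x3) = z by abel,
      show a + s + g + s + r = a + (s + (g + (s + (r + 0)))) by ring]
    exact h4

/-- The logarithm of the number of classes. -/
lemma log_card {t c : ℕ} (ht : 1 ≤ t) (hc : c ≤ t ^ 2 * ((2 * t + 1) ^ d) ^ 4) :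
    Real.log c ≤ (8 + 16 * d) * Real.sqrt t := by
  have ht' : (1 : ℝ) ≤ t := by exact_mod_cast ht
  have h0 : (c : ℝ) ≤ (2 * (t : ℝ) + 1) ^ (2 + 4 * d) := by
    have h1 : c ≤ (2 * t + 1) ^ (2 + 4 * d) := by
      refine hc.trans ?_
      rw [pow_add, mul_comm 4 d, pow_mul]
      exact Nat.mul_le_mul_right _ (Nat.pow_le_pow_left (by omega) 2)
    exact_mod_cast h1
  have h2 : Real.log (2 * (t : ℝ) + 1) ≤ 4 * Real.sqrt t := by
    have h3 : (2 * (t : ℝ) + 1) = Real.sqrt (2 * t + 1) ^ 2 := (Real.sq_sqrt (by positivity)).symm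
    rw [h3, Real.log_pow]
    have h4 : 0 < Real.sqrt (2 * (t : ℝ) + 1) := Real.sqrt_pos.2 (by positivity)
    have h5 := Real.log_le_sub_one_of_pos h4
    have h6 : Real.sqrt (2 * (t : ℝ) + 1) ≤ 2 * Real.sqrt t := by
      rw [show (2 : ℝ) = Real.sqrt 4 by
        rw [show (4 : ℝ) = 2 ^ 2 by norm_num, Real.sqrt_sq (by norm_num)],
        ← Real.sqrt_mul (by norm_num)]
      refine Real.sqrt_le_sqrt ?_
      rw [show Real.sqrt 4 = 2 by
        rw [show (4 : ℝ) = 2 ^ 2 by norm_num, Real.sqrt_sq (by norm_num)]]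
      linarith
    push_cast
    linarith
  rcases Nat.eq_zero_or_pos c with hc0 | hc0
  · rw [hc0, Nat.cast_zero, Real.log_zero]
    positivity
  · have h3 : Real.log c ≤ Real.log ((2 * (t : ℝ) + 1) ^ (2 + 4 * d)) :=
      Real.log_le_log (by exact_mod_cast hc0) h0
    rw [Real.log_pow] at h3
    refine h3.trans ?_
    have h4 := mul_le_mul_of_nonneg_left h2 (Nat.cast_nonneg (α := ℝ) (2 + 4 * d))
    refine h4.trans (le_of_eq ?_)
    push_cast
    ring

/-- The deterministic core: one good environment. -/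
lemma core (hd : 0 < d) {ρ : Measure ℝ} {β : ℝ} {h : Vec d} {n : ℕ} {ε : ℝ} {η : Env d}
    (hG : GoodV ρ β h n ε η) (hε : 0 < ε) (hn : 1 ≤ n) {C₀ : ℝ}
    (hC₀ : ∀ (s : ℕ) (z : Site d), Rch s z → |aM ρ β h s z| ≤ C₀ * s) {t s N K : ℕ} (ht : t ≤ n)
    (ht1 : 1 ≤ t) (hN : 2 ≤ N) (hNs : N * s ≤ t) {z ζ : Site d} (hz : Rch t z)
    (hζ : Even (l1 ζ)) (hζK : l1 ζ ≤ K)
    (hc : l1 z + (t - N * s) + (d + 1) * (N * K) ≤ N * s) :
    aM ρ β h t z - 4 * (C₀ * s) - (20 + 16 * d) * (Real.sqrt t * (n : ℝ) ^ ε) ≤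
      aM ρ β h t (z + ζ) := by
  classical
  set E : ℝ := Real.sqrt t * (n : ℝ) ^ ε with hE
  set S : Set (Fin t → Step d) := {q | pos q t = z} with hS
  set P : Finset ((ℕ × ℕ) × (Site d × Site d × Site d × Site d)) :=
    ((Finset.range N ×ˢ Finset.range N) ×ˢ
      (boxF d t ×ˢ boxF d t ×ˢ boxF d t ×ˢ boxF d t)).filter (fun p => p.1.1 < p.1.2 ∧
        l1 ((p.2.2.1 - p.2.1) + (p.2.2.2.2 - p.2.2.2.1)) + K ≤ 2 * s) with hP
  obtain ⟨q₀, hq₀⟩ := hz
  have hcov : ∀ q ∈ S, ∃ p ∈ P, q ∈ (fun p : (ℕ × ℕ) × (Site d × Site d × Site d × Site d) =>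
      {q : Fin t → Step d | pos q (p.1.1 * s) = p.2.1 ∧ pos q ((p.1.1 + 1) * s) = p.2.2.1 ∧
        pos q (p.1.2 * s) = p.2.2.2.1 ∧ pos q ((p.1.2 + 1) * s) = p.2.2.2.2 ∧ pos q t = z}) p := by
    intro q hq
    have hq' : pos q t = z := hq
    obtain ⟨i, j, hij, hj, hb⟩ := walk_pigeon hN q hNs (by rw [hq']; exact hc)
    refine ⟨((i, j), (pos q (i * s), pos q ((i + 1) * s), pos q (j * s), pos q ((j + 1) * s))),
      ?_, rfl, rfl, rfl, rfl, hq'⟩
    rw [hP, Finset.mem_filter]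
    refine ⟨?_, hij, hb⟩
    simp only [Finset.mem_product, Finset.mem_range]
    exact ⟨⟨by omega, hj⟩, pos_mem_box _ _, pos_mem_box _ _, pos_mem_box _ _, pos_mem_box _ _⟩
  obtain ⟨p, hp, hle⟩ := exists_class β h η S P _ hcov ⟨q₀, hq₀⟩
  obtain ⟨⟨i, j⟩, x0, x1, x2, x3⟩ := p
  rw [hP, Finset.mem_filter] at hp
  obtain ⟨hp1, hij, hb⟩ := hp
  simp only at hij hb hle
  simp only [Finset.mem_product, Finset.mem_range] at hp1
  obtain ⟨⟨_, hjN⟩, _⟩ := hp1
  -- the positions in time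
  obtain ⟨g, rfl⟩ : ∃ g, j = i + 1 + g := ⟨j - (i + 1), by omega⟩
  have hjs : (i + 1 + g + 1) * s ≤ t := (Nat.mul_le_mul_right s (by omega)).trans hNs
  obtain ⟨r, hr⟩ : ∃ r, t = (i + 1 + g + 1) * s + r := ⟨t - (i + 1 + g + 1) * s, by omega⟩
  have ht' : i * s + (s + (g * s + (s + (r + 0)))) = t := by
    rw [hr]
    ring
  have e1 : (i + 1) * s = i * s + s := by ring
  have e2 : (i + 1 + g) * s = i * s + s + g * s := by ring
  have e3 : (i + 1 + g + 1) * s = i * s + s + g * s + s := by ring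
  rw [e1, e2, e3] at hle
  have hS0 : 0 < ZT β h η S := ZT_pos β h η ⟨q₀, hq₀⟩
  -- the class is not empty
  obtain ⟨q, hq⟩ : {q : Fin t → Step d | pos q (i * s) = x0 ∧ pos q (i * s + s) = x1 ∧
      pos q (i * s + s + g * s) = x2 ∧ pos q (i * s + s + g * s + s) = x3 ∧
        pos q t = z}.Nonempty := by
    by_contra hcon
    rw [Set.not_nonempty_iff_eq_empty] at hcon
    rw [hcon] at hle
    have h1 : ZT β h η (∅ : Set (Fin t → Step d)) = 0 := by
      unfold ZT
      exact Finset.sum_eq_zero fun q _ => if_neg (Set.notMem_empty q)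
    rw [h1, mul_zero] at hle
    linarith
  obtain ⟨h0, h1, h2, h3, h4⟩ := hq
  have t1 : i * s + s + g * s + s + r = t := by rw [← ht']; ring
  have r0 : Rch (i * s) x0 := by
    have h5 := rch_sub q (a := 0) (s := i * s) (by omega)
    rwa [zero_add, h0, pos_zero', sub_zero] at h5
  have r1 : Rch s (x1 - x0) := by
    have h5 := rch_sub q (a := i * s) (s := s) (by omega)
    rwa [h1, h0] at h5
  have r2 : Rch (g * s) (x2 - x1) := by
    have h5 := rch_sub q (a := i * s + s) (s := g * s) (by omega)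
    rwa [h2, h1] at h5
  have r3 : Rch s (x3 - x2) := by
    have h5 := rch_sub q (a := i * s + s + g * s) (s := s) (by omega)
    rwa [h3, h2] at h5
  have r4 : Rch r (z - x3) := by
    have h5 := rch_sub q (a := i * s + s + g * s + s) (s := r) (by omega)
    rwa [t1, h4, h3] at h5
  -- the new pair of blocks
  obtain ⟨y, y', hy, hy', hyy⟩ := rch_split hd (s := s) (t := s)
    (z := ((x1 - x0) + (x3 - x2)) + ζ)
    ((l1_add_le _ _).trans (by omega)) (by
      have h5 := l1_mod ((x1 - x0) + (x3 - x2)) ζ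
      have h6 := l1_mod (x1 - x0) (x3 - x2)
      have h7 := (rch_l1 r1).2
      have h8 := (rch_l1 r3).2
      obtain ⟨c, hc⟩ := hζ
      omega)
  set L : List (ℕ × Site d) :=
    [(i * s, x0), (s, x1 - x0), (g * s, x2 - x1), (s, x3 - x2), (r, z - x3)] with hL
  set L' : List (ℕ × Site d) :=
    [(i * s, x0), (s, y), (g * s, x2 - x1), (s, y'), (r, z - x3)] with hL'
  have hlen : len L = t := ht'
  have hlen' : len L' = t := ht'
  have hdsp' : dsp L' = z + ζ := by
    change x0 + (y + (x2 - x1 + (y' + (z - x3 + 0)))) = z + ζ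
    have h5 : y' = ((x1 - x0) + (x3 - x2)) + ζ - y := by rw [← hyy]; abel
    rw [h5]
    abel
  have hLr : ∀ p ∈ L, Rch p.1 p.2 := by
    intro p hp
    simp only [hL, List.mem_cons, List.not_mem_nil, or_false] at hp
    rcases hp with rfl | rfl | rfl | rfl | rfl
    · exact r0
    · exact r1
    · exact r2
    · exact r3
    · exact r4
  have hLr' : ∀ p ∈ L', Rch p.1 p.2 := by
    intro p hp
    simp only [hL', List.mem_cons, List.not_mem_nil, or_false] at hp
    rcases hp with rfl | rfl | rfl | rfl | rfl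
    · exact r0
    · exact hy
    · exact r2
    · exact hy'
    · exact r4
  have hLt : ∀ p ∈ L, (p.1 : ℝ) ≤ t := by
    intro p hp
    simp only [hL, List.mem_cons, List.not_mem_nil, or_false] at hp
    rcases hp with rfl | rfl | rfl | rfl | rfl <;> simp only <;> exact_mod_cast (by omega)
  have hLt' : ∀ p ∈ L', (p.1 : ℝ) ≤ t := by
    intro p hp
    simp only [hL', List.mem_cons, List.not_mem_nil, or_false] at hp
    rcases hp with rfl | rfl | rfl | rfl | rfl <;> simp only <;> exact_mod_cast (by omega)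
  have g1 := ch_log hG L hLr hLt 0 0 (by rw [l1_zero]) (by omega)
  have g2 := ch_log hG L' hLr' hLt' 0 0 (by rw [l1_zero]) (by omega)
  rw [sh_zero] at g1 g2
  have hlL : (L.length : ℝ) = 5 := by rw [hL]; norm_num
  have hlL' : (L'.length : ℝ) = 5 := by rw [hL']; norm_num
  rw [hlL] at g1
  rw [hlL'] at g2
  -- upper bound for the old end point
  have u1 : PP β h η t z ≤ (P.card : ℝ) * ch β h η L := by
    refine hle.trans (mul_le_mul_of_nonneg_left ?_ (Nat.cast_nonneg _))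
    exact class_le β h η (i * s) s (g * s) r ht' x0 x1 x2 x3 z
  have u2 := hG 0 t (by omega) 0 (TubV_zero _) z ⟨q₀, hq₀⟩
  have u3 := hG 0 t (by omega) 0 (TubV_zero _) (z + ζ) (by
    have h5 : Rch (len L') (dsp L') := by
      have h6 := rch_add r0 (rch_add hy (rch_add r2 (rch_add hy' (rch_add r4 rch_zero))))
      exact h6
    rwa [hlen', hdsp'] at h5)
  rw [sh_zero] at u2 u3
  have u4 : ch β h η L' ≤ PP β h η t (z + ζ) := by
    have h5 := ch_le β h L' η
    rwa [hlen', hdsp'] at h5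
  have hPP : 0 < PP β h η t z := hS0
  have hch : 0 < ch β h η L := ch_pos β h L η hLr
  have hch' : 0 < ch β h η L' := ch_pos β h L' η hLr'
  have hcard0 : (0 : ℝ) < P.card := by
    rcases (Nat.cast_nonneg (α := ℝ) P.card).lt_or_eq with h5 | h5
    · exact h5
    · rw [← h5, zero_mul] at u1
      linarith
  have u5 : Real.log (PP β h η t z) ≤ Real.log P.card + Real.log (ch β h η L) := by
    rw [← Real.log_mul hcard0.ne' hch.ne']
    exact Real.log_le_log hPP u1
  have u6 : Real.log (ch β h η L') ≤ Real.log (PP β h η t (z + ζ)) := Real.log_le_log hch' u4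
  -- the number of classes
  have u7 : Real.log P.card ≤ (8 + 16 * d) * E := by
    have hs1 : 1 ≤ s := by
      rcases Nat.eq_zero_or_pos s with h5 | h5
      · rw [h5, mul_zero] at hc
        omega
      · exact h5
    have hNt : N ≤ t := (Nat.le_mul_of_pos_right N hs1).trans hNs
    have h5 : P.card ≤ t ^ 2 * ((2 * t + 1) ^ d) ^ 4 := by
      refine (Finset.card_filter_le _ _).trans ?_
      simp only [Finset.card_product, Finset.card_range, card_boxF]
      calc N * N * ((2 * t + 1) ^ d * ((2 * t + 1) ^ d * ((2 * t + 1) ^ d * (2 * t + 1) ^ d)))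
          = N * N * ((2 * t + 1) ^ d) ^ 4 := by ring
        _ ≤ t ^ 2 * ((2 * t + 1) ^ d) ^ 4 := by
            rw [sq]
            exact Nat.mul_le_mul_right _ (Nat.mul_le_mul hNt hNt)
    refine (log_card ht1 h5).trans ?_
    refine mul_le_mul_of_nonneg_left ?_ (by positivity)
    rw [hE]
    exact le_mul_of_one_le_right (Real.sqrt_nonneg _)
      (Real.one_le_rpow (by exact_mod_cast hn) hε.le)
  -- the means
  have m1 : sa ρ β h L = aM ρ β h (i * s) x0 + (aM ρ β h s (x1 - x0) +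
      (aM ρ β h (g * s) (x2 - x1) + (aM ρ β h s (x3 - x2) + (aM ρ β h r (z - x3) + 0)))) := rfl
  have m2 : sa ρ β h L' = aM ρ β h (i * s) x0 + (aM ρ β h s y +
      (aM ρ β h (g * s) (x2 - x1) + (aM ρ β h s y' + (aM ρ β h r (z - x3) + 0)))) := rfl
  have b1 := abs_le.1 (hC₀ s _ r1)
  have b2 := abs_le.1 (hC₀ s _ r3)
  have b3 := abs_le.1 (hC₀ s _ hy)
  have b4 := abs_le.1 (hC₀ s _ hy')
  have g1' := abs_le.1 g1
  have g2' := abs_le.1 g2
  have u2' := abs_le.1 u2
  have u3' := abs_le.1 u3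
  linarith [b1.1, b1.2, b2.1, b2.2, b3.1, b4.1, g1'.2, g2'.1, u2'.1, u3'.2]

/-- There is a good environment. -/
lemma exists_good {ρ : Measure ℝ} [IsProbabilityMeasure ρ] {β : ℝ} {h : Vec d} {n : ℕ} {ε C : ℝ}
    (hn : 1 ≤ n) (hC : C < n)
    (hP : (law d ρ).real {η | ¬ GoodV ρ β h n ε η} ≤ C * (n : ℝ) ^ (-((1 : ℕ) : ℝ))) :
    ∃ η : Env d, GoodV ρ β h n ε η := by
  by_contra hcon
  push Not at hcon
  have h1 : {η : Env d | ¬ GoodV ρ β h n ε η} = Set.univ := Set.eq_univ_of_forall hcon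
  rw [h1, probReal_univ, Nat.cast_one, Real.rpow_neg_one] at hP
  have hn' : (0 : ℝ) < n := by exact_mod_cast hn
  have h2 : C * (n : ℝ)⁻¹ < 1 := by
    rw [← div_eq_mul_inv, div_lt_one hn']
    exact hC
  linarith

/-- Lemma A: the means are Lipschitz inside the cone. -/
theorem meanLipV {d : ℕ} {ρ : Measure ℝ} [IsProbabilityMeasure ρ] (hd : 0 < d) (β R : ℝ)
    (hC : ConcV d ρ β R) : MeanLipV d ρ β R := by
  obtain ⟨⟨C₁, hC₁⟩, hG⟩ := hC
  intro ε κ hε hκ hκ1
  obtain ⟨C₂, hC₂⟩ := hG ε 1 hε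
  set c₀ : ℕ := ⌈2 * ((d : ℝ) + 1) / κ⌉₊ with hc₀
  have hc1 : 2 * ((d : ℝ) + 1) / κ ≤ c₀ := Nat.le_ceil _
  have hc2 : 0 < c₀ := Nat.ceil_pos.2 (by positivity)
  have hc3 : 2 * ((d : ℝ) + 1) ≤ κ * c₀ := by
    rw [div_le_iff₀ hκ] at hc1
    linarith
  have hc0 : (0 : ℝ) < c₀ := by exact_mod_cast hc2
  refine ⟨8 * |C₁| * c₀ + (20 + 16 * d) + 2 * c₀ * (4 / κ + 1), by positivity,
    ⌈|C₂|⌉₊ + 2, ?_⟩
  intro h hR n t hn ht z ζ hz hzl hζ k hk hζk hkt
  have hC₁' : ∀ (s : ℕ) (z : Site d), Rch s z → |aM ρ β h s z| ≤ |C₁| * s := fun s z hz =>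
    (hC₁ h hR s z hz).trans (mul_le_mul_of_nonneg_right (le_abs_self _) (Nat.cast_nonneg _))
  have hn1 : 1 ≤ n := by omega
  have hC2n : C₂ < n := by
    have h1 := Nat.le_ceil |C₂|
    have h2 : ((⌈|C₂|⌉₊ + 2 : ℕ) : ℝ) ≤ n := by exact_mod_cast hn
    push_cast at h2
    have h3 := le_abs_self C₂
    linarith
  obtain ⟨η, hη⟩ := exists_good hn1 hC2n (hC₂ h hR n hn1)
  set K : ℕ := ⌈k⌉₊ with hK
  have hK1 : k ≤ K := Nat.le_ceil _
  have hK2 : (K : ℝ) ≤ 2 * k := by
    have h1 := Nat.ceil_lt_add_one (show 0 ≤ k by linarith)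
    rw [hK]
    linarith
  have hK0 : 1 ≤ K := by
    have h1 : (0 : ℝ) < K := by linarith
    exact_mod_cast h1
  set s : ℕ := c₀ * K with hs
  have hs0 : 0 < s := Nat.mul_pos hc2 hK0
  have hsR : (s : ℝ) = c₀ * K := by rw [hs]; push_cast; rfl
  have hsR0 : (0 : ℝ) < s := by exact_mod_cast hs0
  have hE : 0 ≤ Real.sqrt t * (n : ℝ) ^ ε :=
    mul_nonneg (Real.sqrt_nonneg _) (Real.rpow_nonneg (Nat.cast_nonneg _) _)
  have hts : (s : ℝ) * (4 / κ + 1) ≤ t := by
    have h1 : (s : ℝ) * (4 / κ + 1) ≤ 2 * c₀ * (4 / κ + 1) * k := by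
      rw [hsR]
      have h2 : 0 < 4 / κ + 1 := by positivity
      have h3 : (c₀ : ℝ) * (4 / κ + 1) * K ≤ (c₀ : ℝ) * (4 / κ + 1) * (2 * k) :=
        mul_le_mul_of_nonneg_left hK2 (by positivity)
      linarith
    have h2 : 0 ≤ (8 * |C₁| * c₀ + (20 + 16 * d)) * k := by positivity
    linarith
  set N : ℕ := t / s with hN
  have hN1 : t < (N + 1) * s := by
    have h1 := Nat.lt_mul_div_succ t hs0
    rw [mul_comm]
    exact h1
  have hN1R : (t : ℝ) < (N + 1) * s := by exact_mod_cast hN1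
  have hNs : N * s ≤ t := Nat.div_mul_le_self t s
  have hNR : 4 / κ < N := by
    have h1 : (s : ℝ) * (4 / κ + 1) < s * (N + 1) := by linarith
    have h2 := lt_of_mul_lt_mul_left h1 hsR0.le
    linarith
  have hNκ : 4 < κ * N := by
    rw [div_lt_iff₀ hκ] at hNR
    linarith
  have hN2 : 2 ≤ N := by
    have h1 : (4 : ℝ) < N := by
      have h2 : κ * N ≤ 1 * N := mul_le_mul_of_nonneg_right hκ1.le (Nat.cast_nonneg _)
      linarith
    have h2 : (4 : ℕ) < N := by exact_mod_cast h1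
    omega
  have ht1 : 1 ≤ t := by
    have h1 : 0 < t := lt_of_lt_of_le (Nat.mul_pos (by omega) hs0) hNs
    exact h1
  have hζK : l1 ζ ≤ K := by
    have h1 : (l1 ζ : ℝ) ≤ K := hζk.trans hK1
    exact_mod_cast h1
  have hcond : l1 z + (t - N * s) + (d + 1) * (N * K) ≤ N * s := by
    have h1 : ((t - N * s : ℕ) : ℝ) = t - N * s := by
      rw [Nat.cast_sub hNs]
      push_cast
      rfl
    have h2 : (l1 z : ℝ) + (t - N * s) + (d + 1) * (N * K) ≤ N * s := by
      have h3 : (t : ℝ) - N * s ≤ s := by linarith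
      have h4 : 2 * (s : ℝ) ≤ κ * N * s / 2 := by nlinarith
      have h5 : ((d : ℝ) + 1) * (N * K) ≤ κ * N * s / 2 := by
        rw [hsR]
        have h6 : 0 ≤ (N : ℝ) * K := by positivity
        have h7 := mul_le_mul_of_nonneg_right hc3 h6
        linarith
      have h6 : 0 ≤ (t : ℝ) - N * s := by
        have : ((N * s : ℕ) : ℝ) ≤ t := by exact_mod_cast hNs
        push_cast at this
        linarith
      nlinarith
    have h3 : ((l1 z + (t - N * s) + (d + 1) * (N * K) : ℕ) : ℝ) ≤ ((N * s : ℕ) : ℝ) := by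
      push_cast [h1]
      exact h2
    exact_mod_cast h3
  have hcore := core hd hη hε hn1 hC₁' ht ht1 hN2 hNs hz hζ hζK hcond
  have h1 : 4 * (|C₁| * s) ≤ 8 * |C₁| * c₀ * k := by
    rw [hsR]
    have h2 : 4 * (|C₁| * (c₀ * K)) = 4 * |C₁| * c₀ * K := by ring
    have h3 : 4 * |C₁| * c₀ * (K : ℝ) ≤ 4 * |C₁| * c₀ * (2 * k) :=
      mul_le_mul_of_nonneg_left hK2 (by positivity)
    linarith
  have h2 : 0 ≤ ((20 + 16 * (d : ℝ)) + 2 * c₀ * (4 / κ + 1)) * k := by positivity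
  have h3 : 0 ≤ (8 * |C₁| * c₀ + 2 * c₀ * (4 / κ + 1)) * (Real.sqrt t * (n : ℝ) ^ ε) :=
    mul_nonneg (by positivity) hE
  linarith

end Pool.Agent.W_7d29a1_V.MeanLip74
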