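import Pool.Agent.W_7d29a1_V.Rch48

/-!
The loss of the last steps of a point to point partition function, in the mean.
-/

namespace Pool.Agent.W_7d29a1_V

open MeasureTheory ProbabilityTheory Filter Topology Pool.Agent.W_MP_7d29a1_pr
  Pool.Agent.W_7d29a1_h46 Pool.Agent.W_7d29a1_h46u Pool.Agent.W_7d29a1_D2
  Pool.Agent.W_7d29a1_D2.B35 Pool.Agent.W_7d29a1_V.R48

variable {d : ℕ}

/-- One of the terms of a sum is at least the sum divided by the number of terms. -/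
lemma exists_big31 {α : Type*} {s : Finset α} {f : α → ℝ} (hs : 0 < ∑ x ∈ s, f x) :
    ∃ x ∈ s, 0 < f x ∧ ∑ y ∈ s, f y ≤ s.card * f x := by
  have hne : s.Nonempty := by
    by_contra hc
    rw [Finset.not_nonempty_iff_eq_empty] at hc
    rw [hc, Finset.sum_empty] at hs
    exact lt_irrefl _ hs
  obtain ⟨x, hx, hmax⟩ := s.exists_max_image f hne
  have h1 : ∑ y ∈ s, f y ≤ s.card * f x := by
    have := Finset.sum_le_card_nsmul s f (f x) hmax
    rwa [nsmul_eq_mul] at this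
  refine ⟨x, hx, ?_, h1⟩
  by_contra hc
  push Not at hc
  have : (s.card : ℝ) * f x ≤ 0 := mul_nonpos_of_nonneg_of_nonpos (Nat.cast_nonneg _) hc
  linarith

/-- The last `2 j` steps cost `O(j)`, up to the fluctuations. -/
theorem stI31 {ρ : Measure ℝ} [IsProbabilityMeasure ρ] {β R : ℝ} (hC : ConcV d ρ β R) :
    ∀ ε : ℝ, 0 < ε → ∃ C : ℝ, 0 < C ∧ ∃ n₀ : ℕ, ∀ h : Vec d, ‖h‖ ≤ R → ∀ n t j : ℕ,
      n₀ ≤ n → t ≤ n → 2 * j ≤ t → ∀ z : Site d, Rch t z → ∃ u : Site d,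
        Rch (t - 2 * j) u ∧ Rch (2 * j) (z - u) ∧
          aM ρ β h t z ≤ aM ρ β h (t - 2 * j) u + C * j + C * (Real.sqrt t * (n : ℝ) ^ ε) := by
  intro ε hε
  obtain ⟨⟨C₁, hC₁⟩, hC2⟩ := hC
  obtain ⟨C₂, hC₂⟩ := hC2 ε 1 hε
  obtain ⟨n₁, hn₁⟩ := exists_nat_gt C₂
  set c₃ : ℝ := (d : ℝ) * ((3 : ℝ) ^ ε / ε) with hc₃
  have hc₃0 : 0 ≤ c₃ := by positivity
  refine ⟨2 * |C₁| + 3 + c₃, by positivity, n₁ + 1, ?_⟩
  intro h hh n t j hn htn hjt z hz
  have hn1 : 1 ≤ n := by omega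
  have hn0 : (0 : ℝ) < n := by exact_mod_cast hn1
  -- a good environment
  obtain ⟨η, hη⟩ : ∃ η : Env d, GoodV ρ β h n ε η := by
    by_contra hc
    push Not at hc
    have h1 : {η : Env d | ¬ GoodV ρ β h n ε η} = Set.univ := by
      ext η
      simp [hc η]
    have h2 := hC₂ h hh n hn1
    rw [h1, probReal_univ] at h2
    have h3 : C₂ * (n : ℝ) ^ (-((1 : ℕ) : ℝ)) < 1 := by
      rw [Nat.cast_one, Real.rpow_neg_one]
      rw [← div_eq_mul_inv, div_lt_one hn0]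
      have : (n₁ : ℝ) < n := by
        have : n₁ < n := by omega
        exact_mod_cast this
      linarith
    linarith
  -- the largest term of the Chapman - Kolmogorov sum
  have hsplit := PP_add β h η (t - 2 * j) (2 * j) z
  rw [Nat.sub_add_cancel hjt] at hsplit
  have hpos : 0 < PP β h η t z := PP_pos hz
  rw [hsplit] at hpos
  obtain ⟨u, hu, hu0, hu1⟩ := exists_big31 hpos
  rw [← hsplit] at hu1
  have hP1 : 0 < PP β h η (t - 2 * j) u := by
    rcases (PP_nonneg β h η (t - 2 * j) u).eq_or_lt with h0 | h0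
    · rw [← h0, zero_mul] at hu0
      exact absurd hu0 (lt_irrefl _)
    · exact h0
  have hP2 : 0 < PP β h (sh (t - 2 * j) u η) (2 * j) (z - u) := by
    rcases (PP_nonneg β h (sh (t - 2 * j) u η) (2 * j) (z - u)).eq_or_lt with h0 | h0
    · rw [← h0, mul_zero] at hu0
      exact absurd hu0 (lt_irrefl _)
    · exact h0
  have hR1 : Rch (t - 2 * j) u := PP_pos_iff.1 hP1
  have hR2 : Rch (2 * j) (z - u) := PP_pos_iff.1 hP2
  refine ⟨u, hR1, hR2, ?_⟩
  -- logarithms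
  have hcard : ((boxF d (t - 2 * j)).card : ℝ) ≤ (2 * (t : ℝ) + 1) ^ d := by
    rw [card_boxF]
    have h1 : (2 * (t - 2 * j) + 1) ^ d ≤ (2 * t + 1) ^ d := Nat.pow_le_pow_left (by omega) d
    exact_mod_cast h1
  have hcard0 : (0 : ℝ) < (boxF d (t - 2 * j)).card := by
    have : 0 < (boxF d (t - 2 * j)).card := Finset.card_pos.2 ⟨u, hu⟩
    exact_mod_cast this
  have hlog : Real.log (PP β h η t z) ≤ Real.log ((boxF d (t - 2 * j)).card : ℝ) +
      (Real.log (PP β h η (t - 2 * j) u) +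
        Real.log (PP β h (sh (t - 2 * j) u η) (2 * j) (z - u))) := by
    rw [← Real.log_mul hP1.ne' hP2.ne', ← Real.log_mul hcard0.ne' (mul_pos hP1 hP2).ne']
    exact Real.log_le_log (PP_pos hz) hu1

  have hnε : 0 < (n : ℝ) ^ ε := Real.rpow_pos_of_pos hn0 ε
  have hlogcard : Real.log ((boxF d (t - 2 * j)).card : ℝ) ≤
      c₃ * (Real.sqrt t * (n : ℝ) ^ ε) := by
    rcases Nat.eq_zero_or_pos t with ht | ht
    · subst ht
      have h1 : (boxF d (0 - 2 * j)).card = 1 := by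
        rw [card_boxF]
        simp
      rw [h1]
      simp
    · have ht1 : (1 : ℝ) ≤ t := by exact_mod_cast ht
      have htn' : (t : ℝ) ≤ n := by exact_mod_cast htn
      have h1 : Real.log ((boxF d (t - 2 * j)).card : ℝ) ≤ d * Real.log (3 * (n : ℝ)) := by
        rw [← Real.log_pow]
        refine Real.log_le_log hcard0 (hcard.trans ?_)
        gcongr
        linarith
      have h2 : Real.log (3 * (n : ℝ)) ≤ (3 : ℝ) ^ ε / ε * (n : ℝ) ^ ε := by
        have := Real.log_le_rpow_div (x := 3 * (n : ℝ)) (by positivity) hε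
        rw [Real.mul_rpow (by norm_num) hn0.le] at this
        calc Real.log (3 * (n : ℝ)) ≤ (3 : ℝ) ^ ε * (n : ℝ) ^ ε / ε := this
          _ = (3 : ℝ) ^ ε / ε * (n : ℝ) ^ ε := by ring
      have h3 : 1 ≤ Real.sqrt t := Real.one_le_sqrt.2 ht1
      calc Real.log ((boxF d (t - 2 * j)).card : ℝ) ≤ d * Real.log (3 * (n : ℝ)) := h1
        _ ≤ d * ((3 : ℝ) ^ ε / ε * (n : ℝ) ^ ε) := by gcongr
        _ = c₃ * (1 * (n : ℝ) ^ ε) := by rw [hc₃]; ring
        _ ≤ c₃ * (Real.sqrt t * (n : ℝ) ^ ε) := by gcongr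
  -- the good event
  have hsh0 : sh 0 (0 : Site d) η = η := by
    funext p
    simp [sh]
  have h00 : (0 : Site d) ∈ boxF d (n ^ 2) := by
    rw [mem_boxF]
    intro i
    simp
  have hg1 := hη 0 t (by omega) 0 h00 z hz
  rw [hsh0] at hg1
  have hg2 := hη 0 (t - 2 * j) (by omega) 0 h00 u hR1
  rw [hsh0] at hg2
  have huN : u ∈ boxF d (n ^ 2) := by
    have h1 := rch_mem hR1
    rw [mem_boxF] at h1 ⊢
    intro i
    refine (h1 i).trans ?_
    have h2 : t - 2 * j ≤ n ^ 2 :=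
      (Nat.sub_le _ _).trans (htn.trans (Nat.le_self_pow (by norm_num) n))
    exact_mod_cast h2
  have hg3 := hη (t - 2 * j) (2 * j) (by omega) u huN (z - u) hR2
  have ha := hC₁ h hh (2 * j) (z - u) hR2
  rw [abs_le] at hg1 hg2 hg3 ha
  have hs1 : Real.sqrt ((t - 2 * j : ℕ) : ℝ) ≤ Real.sqrt t :=
    Real.sqrt_le_sqrt (by exact_mod_cast Nat.sub_le _ _)
  have hs2 : Real.sqrt ((2 * j : ℕ) : ℝ) ≤ Real.sqrt t :=
    Real.sqrt_le_sqrt (by exact_mod_cast hjt)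
  have hm1 : Real.sqrt ((t - 2 * j : ℕ) : ℝ) * (n : ℝ) ^ ε ≤ Real.sqrt t * (n : ℝ) ^ ε :=
    mul_le_mul_of_nonneg_right hs1 hnε.le
  have hm2 : Real.sqrt ((2 * j : ℕ) : ℝ) * (n : ℝ) ^ ε ≤ Real.sqrt t * (n : ℝ) ^ ε :=
    mul_le_mul_of_nonneg_right hs2 hnε.le
  have hc1 : C₁ * ((2 * j : ℕ) : ℝ) ≤ 2 * |C₁| * j := by
    push_cast
    have h1 := le_abs_self C₁
    have h2 : (0 : ℝ) ≤ j := Nat.cast_nonneg j
    nlinarith
  have e1 : (2 * |C₁| + 3 + c₃) * (j : ℝ) + (2 * |C₁| + 3 + c₃) * (Real.sqrt t * (n : ℝ) ^ ε) ≥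
      2 * |C₁| * j + (3 + c₃) * (Real.sqrt t * (n : ℝ) ^ ε) := by
    have h2 : (0 : ℝ) ≤ j := Nat.cast_nonneg j
    have h3 : 0 ≤ Real.sqrt t * (n : ℝ) ^ ε := by positivity
    have h4 := abs_nonneg C₁
    nlinarith
  have e2 := ha.2
  linarith [hg1.1, hg2.2, hg3.2]

end Pool.Agent.W_7d29a1_V
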