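import Pool.Agent.W_7d29a1_V.Rch48

/-!
The means are steep at the boundary of the cone: the assembly of the two halves.
-/

namespace Pool.Agent.W_7d29a1_V

open MeasureTheory ProbabilityTheory Filter Topology Pool.Agent.W_MP_7d29a1_pr
  Pool.Agent.W_7d29a1_h46 Pool.Agent.W_7d29a1_h46u Pool.Agent.W_7d29a1_D2
  Pool.Agent.W_7d29a1_D2.B35 Pool.Agent.W_7d29a1_V.R48

variable {d : ℕ}

/-- From the loss of the last steps and the gain of the insertions to steepness. -/
theorem steep31 (hd : 0 < d) {ρ : Measure ℝ} {β R : ℝ}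
    (hI : ∀ ε : ℝ, 0 < ε → ∃ C : ℝ, 0 < C ∧ ∃ n₀ : ℕ, ∀ h : Vec d, ‖h‖ ≤ R → ∀ n t j : ℕ,
      n₀ ≤ n → t ≤ n → 2 * j ≤ t → ∀ z : Site d, Rch t z → ∃ u : Site d,
        Rch (t - 2 * j) u ∧ Rch (2 * j) (z - u) ∧
          aM ρ β h t z ≤ aM ρ β h (t - 2 * j) u + C * j + C * (Real.sqrt t * (n : ℝ) ^ ε))
    (hB : ∃ C : ℝ, 0 < C ∧ ∀ h : Vec d, ‖h‖ ≤ R → ∀ t k l : ℕ, 2 ≤ l → k * l ≤ t →
      ∀ u : Site d, Rch (t - 2 * k) u →
        aM ρ β h (t - 2 * k) u + k * Real.log ((l : ℝ) - 1) - ((t : ℝ) - l1 u) * Real.log 2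
          - C * k ≤ aM ρ β h t u) : MeanSteepV d ρ β R := by
  intro ε hε
  obtain ⟨C₁, hC₁, n₀, hI⟩ := hI ε hε
  obtain ⟨C₂, hC₂, hB⟩ := hB
  refine ⟨Real.log 4 + 5 * Real.log 2 + 2 * C₁ + 2 * C₂, ?_, n₀, ?_⟩
  · have h4 : 0 < Real.log 4 := Real.log_pos (by norm_num)
    have h2 : 0 < Real.log 2 := Real.log_pos (by norm_num)
    positivity
  intro κ hκ hκ8 h hh n t hn htn hκt z hz hlz
  have ht8 : (8 : ℝ) < t := by
    by_contra hc
    push Not at hc
    nlinarith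
  -- the number of insertions
  obtain ⟨k, hk1, hk2⟩ : ∃ k : ℕ, κ * t ≤ k ∧ (k : ℝ) ≤ 2 * (κ * t) := by
    refine ⟨⌈κ * t⌉₊, Nat.le_ceil _, ?_⟩
    have := (Nat.ceil_lt_add_one (show 0 ≤ κ * t by positivity)).le
    linarith
  have hk0 : (0 : ℝ) < k := by linarith
  have hk0' : 0 < k := by exact_mod_cast hk0
  -- the length of the blocks
  have hkl : k * (t / k) ≤ t := Nat.mul_div_le t k
  have hlge : 1 / (2 * κ) - 1 < ((t / k : ℕ) : ℝ) := by
    have h1 : t < k * (t / k + 1) := by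
      have := Nat.lt_mul_div_succ t hk0'
      simpa using this
    have h2 : (t : ℝ) < k * (((t / k : ℕ) : ℝ) + 1) := by exact_mod_cast h1
    have h3 : (t : ℝ) < 2 * (κ * t) * (((t / k : ℕ) : ℝ) + 1) := by
      refine h2.trans_le ?_
      exact mul_le_mul_of_nonneg_right hk2 (by positivity)
    have h4 : 1 < 2 * κ * (((t / k : ℕ) : ℝ) + 1) := by
      have ht0 : (0 : ℝ) < t := by linarith
      by_contra hc
      push Not at hc
      nlinarith
    have h5 : 1 / (2 * κ) < ((t / k : ℕ) : ℝ) + 1 := by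
      rw [div_lt_iff₀ (by positivity)]
      linarith
    linarith
  have hinv : 4 < 1 / (2 * κ) := by
    rw [lt_div_iff₀ (by positivity)]
    linarith
  have hl1 : 1 / (4 * κ) ≤ ((t / k : ℕ) : ℝ) - 1 := by
    have h1 : 1 / (4 * κ) = 1 / (2 * κ) / 2 := by
      field_simp
      ring
    rw [h1]
    linarith
  have hl2 : 2 ≤ t / k := by
    have h1 : (2 : ℝ) ≤ ((t / k : ℕ) : ℝ) := by linarith
    exact_mod_cast h1
  have hkt : 2 * k ≤ t := by
    have : k * 2 ≤ k * (t / k) := Nat.mul_le_mul_left k hl2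
    omega
  obtain ⟨u, hu1, hu2, hu3⟩ := hI h hh n t k hn htn hkt z hz
  have hu4 := hB h hh t k (t / k) hl2 hkl u hu1
  have hdist : l1 (u - z) ≤ 2 * k ∧ Even (l1 (u - z)) := by
    obtain ⟨h1, h2⟩ := rch_l1 hu2
    rw [l1_sub_comm]
    refine ⟨h1, ?_⟩
    rw [Nat.even_add] at h2
    exact h2.1 (even_two_mul k)
  have hRu : Rch t u := by
    have := rch_add_two hd (k := k) hu1
    rwa [Nat.sub_add_cancel hkt] at this
  refine ⟨u, hRu, hdist.2, ?_, ?_⟩
  · have h1 : ((l1 (u - z) : ℕ) : ℝ) ≤ 2 * k := by exact_mod_cast hdist.1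
    linarith
  · -- the numbers
    have hlu : (t : ℝ) - l1 u ≤ 5 * (κ * t) := by
      have h1 : l1 z ≤ l1 u + l1 (z - u) := l1_le_add z u
      have h2 : l1 (z - u) ≤ 2 * k := by
        rw [l1_sub_comm]
        exact hdist.1
      have h3 : (l1 z : ℝ) ≤ l1 u + 2 * k := by
        have : l1 z ≤ l1 u + 2 * k := by omega
        exact_mod_cast this
      linarith
    have hlog2 : 0 < Real.log 2 := Real.log_pos (by norm_num)
    have hlogl : Real.log (1 / κ) - Real.log 4 ≤ Real.log (((t / k : ℕ) : ℝ) - 1) := by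
      have h1 : Real.log (1 / κ) - Real.log 4 = Real.log (1 / (4 * κ)) := by
        rw [← Real.log_div (by positivity) (by norm_num)]
        congr 1
        field_simp
      rw [h1]
      exact Real.log_le_log (by positivity) hl1
    have hlogk : 0 ≤ Real.log (1 / κ) - Real.log 4 := by
      have h1 : Real.log 4 ≤ Real.log (1 / κ) := by
        refine Real.log_le_log (by norm_num) ?_
        rw [le_div_iff₀ hκ]
        linarith
      linarith
    have e1 : κ * t * (Real.log (1 / κ) - Real.log 4) ≤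
        k * Real.log (((t / k : ℕ) : ℝ) - 1) := by
      calc κ * t * (Real.log (1 / κ) - Real.log 4) ≤ k * (Real.log (1 / κ) - Real.log 4) :=
            mul_le_mul_of_nonneg_right hk1 hlogk
        _ ≤ k * Real.log (((t / k : ℕ) : ℝ) - 1) := mul_le_mul_of_nonneg_left hlogl hk0.le
    have e2 : ((t : ℝ) - l1 u) * Real.log 2 ≤ 5 * (κ * t) * Real.log 2 :=
      mul_le_mul_of_nonneg_right hlu hlog2.le
    have e3 : C₂ * k ≤ 2 * C₂ * (κ * t) := by nlinarith
    have e4 : C₁ * k ≤ 2 * C₁ * (κ * t) := by nlinarith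
    have hs : 0 ≤ Real.sqrt t * (n : ℝ) ^ ε := by positivity
    have e5 : C₁ * (Real.sqrt t * (n : ℝ) ^ ε) ≤
        (Real.log 4 + 5 * Real.log 2 + 2 * C₁ + 2 * C₂) * (Real.sqrt t * (n : ℝ) ^ ε) := by
      refine mul_le_mul_of_nonneg_right ?_ hs
      have h4 : 0 < Real.log 4 := Real.log_pos (by norm_num)
      nlinarith
    have e6 : κ * t * (Real.log (1 / κ) - (Real.log 4 + 5 * Real.log 2 + 2 * C₁ + 2 * C₂)) =
        κ * t * (Real.log (1 / κ) - Real.log 4) - 5 * (κ * t) * Real.log 2 - 2 * C₁ * (κ * t)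
          - 2 * C₂ * (κ * t) := by ring
    rw [e6]
    linarith

end Pool.Agent.W_7d29a1_V
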