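import Pool.Agent.W_7d29a1_V.Ins16
import Pool.Agent.W_7d29a1_V.StI31
import Pool.Agent.W_7d29a1_V.Steep31

/-!
Leaf U9: the means are steep at the boundary of the cone.
-/

namespace Pool.Agent.W_7d29a1_V

open MeasureTheory ProbabilityTheory Pool.Agent.W_7d29a1_h46u

/-- **Leaf U9.** -/
theorem meanSteepV {d : ℕ} {ρ : Measure ℝ} [IsProbabilityMeasure ρ] (hd : 0 < d) (hρ : EM ρ)
    (β R : ℝ) : MeanSteepV d ρ β R :=
  steep31 hd (stI31 (ConcV16.concV hd hρ β R)) (Ins16.hB16 hd hρ β R)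

end Pool.Agent.W_7d29a1_V
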