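import Pool.Agent.W_7d29a1_V.NsA26
import Pool.Agent.W_7d29a1_V.Rch48

/-!
The leaf `NSV` (no steep places) from the leaves `ConcV`, `MeanLipV`, `MeanSteepV`.
-/

namespace Pool.Agent.W_7d29a1_V.Ns46

open MeasureTheory ProbabilityTheory Filter Topology Pool.Agent.W_MP_7d29a1_pr
  Pool.Agent.W_7d29a1_h46 Pool.Agent.W_7d29a1_h46u Pool.Agent.W_7d29a1_D2
  Pool.Agent.W_7d29a1_D2.B35

variable {d : ℕ} {ρ : Measure ℝ} [IsProbabilityMeasure ρ] {β R : ℝ}

lemma rc_iff (hd : 0 < d) {t : ℕ} {z : Site d} : NsA26.Rc t z ↔ Rch t z := by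
  rw [R48.rch_iff hd, Nat.even_iff]
  unfold NsA26.Rc
  constructor
  · rintro ⟨h1, h2⟩
    exact ⟨h1, by omega⟩
  · rintro ⟨h1, h2⟩
    exact ⟨h1, by omega⟩

lemma mem_boxF' {r : ℕ} {w : Site d} : w ∈ boxF d r ↔ ∀ c, (w c).natAbs ≤ r := by
  unfold boxF
  rw [Fintype.mem_piFinset]
  refine forall_congr' fun c => ?_
  rw [Finset.mem_Icc]
  omega

lemma bx_box {M j r : ℕ} {w : Site d} (h : NsA26.Bx M j w) (hr : M + j ≤ r) : w ∈ boxF d r := by
  rw [mem_boxF']
  exact fun c => (h c).trans hr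

lemma box_bx {M j : ℕ} {w : Site d} (h : w ∈ boxF d M) : NsA26.Bx M j w := by
  rw [mem_boxF'] at h
  exact fun c => (h c).trans (Nat.le_add_right _ _)

open Classical in
lemma sum_Dz (hd : 0 < d) (β : ℝ) (h : Vec d) (η : Env d) (t : ℕ) (g : Site d → ℝ) :
    ∑ z ∈ boxF d t, PP β h η t z * g z = ∑ z ∈ NsA26.Dz d t, PP β h η t z * g z := by
  unfold NsA26.Dz
  have hb : (Fintype.piFinset fun _ : Fin d => Finset.Icc (-(t : ℤ)) t) = boxF d t := rfl
  rw [hb]
  refine (Finset.sum_filter_of_ne fun z _ hz => ?_).symm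
  rw [rc_iff hd]
  by_contra hr
  exact hz (by rw [R48.PP_eq_zero hr, zero_mul])

theorem nsV46 (hd : 0 < d) (β R : ℝ) (hC : ConcV d ρ β R) (hL : MeanLipV d ρ β R)
    (hS : MeanSteepV d ρ β R) : NSV d ρ β R := by
  classical
  intro δ hδ0 hδ1
  obtain ⟨⟨Ca, hCa⟩, hconc⟩ := hC
  have hε : (0 : ℝ) < δ / 8 := by positivity
  obtain ⟨CB, hCB, nB, hB⟩ := hS (δ / 8) hε
  have hA : ∀ kap : ℝ, ∃ C : ℝ, 0 ≤ C ∧ (0 < kap → kap < 1 / 8 → ∀ h : Vec d, ‖h‖ ≤ R →
      ∀ n : ℕ, NsA26.LemA n (aM ρ β h) ((n : ℝ) ^ (δ / 8)) kap C) := by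
    intro kap
    by_cases hk : 0 < kap ∧ kap < 1 / 8
    · obtain ⟨C, hC0, n₀, hC⟩ := hL (δ / 8) kap hε hk.1 (by linarith [hk.2])
      refine ⟨max C n₀ + 1, by positivity, fun _ _ h hh n t ht z ζ hz hlz hζ k hk1 hζk hCk => ?_⟩
      have hm : (0 : ℝ) ≤ max C n₀ := hC0.le.trans (le_max_left _ _)
      have hCle : C ≤ max C n₀ + 1 := (le_max_left _ _).trans (by linarith)
      have hnle : (n₀ : ℝ) < max C n₀ + 1 := by
        have := le_max_right C (n₀ : ℝ)
        linarith
      rcases lt_or_ge n n₀ with hn | hn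
      · exfalso
        have h1 : (max C n₀ + 1) * 1 ≤ (max C n₀ + 1) * k :=
          mul_le_mul_of_nonneg_left hk1 (by linarith)
        have h2 : (t : ℝ) ≤ n := by exact_mod_cast ht
        have h3 : (n : ℝ) < n₀ := by exact_mod_cast hn
        linarith
      · have e1 := hC h hh n t hn ht z ζ ((rc_iff hd).1 hz) hlz hζ k hk1 hζk
          ((mul_le_mul_of_nonneg_right hCle (by linarith)).trans hCk)
        have h3 : (0 : ℝ) ≤ Real.sqrt t * (n : ℝ) ^ (δ / 8) := by positivity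
        have h4 := mul_le_mul_of_nonneg_right hCle h3
        have h5 := mul_le_mul_of_nonneg_right hCle (show (0 : ℝ) ≤ k by linarith)
        linarith
    · exact ⟨0, le_rfl, fun h1 h2 => absurd ⟨h1, h2⟩ hk⟩
  choose CA hCA0 hCA using hA
  obtain ⟨κ, C, hκ0, hκ1, hC0, n1, H⟩ := NsA26.nsA (d := d) (C0 := max Ca 0) (CB := CB)
    (CA := CA) hd (le_max_right _ _) hCB.le hCA0 hδ0 hδ1
  refine ⟨κ, C, hκ0, hκ1, hC0, fun q => ?_⟩
  obtain ⟨C1, hC1⟩ := hconc (δ / 8) q hε
  set N : ℕ := max (max n1 nB) 21 with hN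
  have hN1 : 1 ≤ N := le_trans (by norm_num) (le_max_right _ _)
  refine ⟨max C1 ((N : ℝ) ^ q), fun h hh n hn => ?_⟩
  have hn0 : (0 : ℝ) < n := by exact_mod_cast hn
  have hnq : (0 : ℝ) < (n : ℝ) ^ (-(q : ℝ)) := Real.rpow_pos_of_pos hn0 _
  rcases lt_or_ge n N with hlt | hge
  · refine measureReal_le_one.trans ?_
    have h1 : (N : ℝ) ^ q * (n : ℝ) ^ (-(q : ℝ)) ≤
        max C1 ((N : ℝ) ^ q) * (n : ℝ) ^ (-(q : ℝ)) :=
      mul_le_mul_of_nonneg_right (le_max_right _ _) hnq.le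
    refine le_trans ?_ h1
    rw [Real.rpow_neg hn0.le, Real.rpow_natCast, ← div_eq_mul_inv, one_le_div (by positivity)]
    exact pow_le_pow_left₀ hn0.le (by exact_mod_cast hlt.le) q
  · have hn1 : n1 ≤ n := (le_max_left _ _).trans ((le_max_left _ _).trans hge)
    have hnB : nB ≤ n := (le_max_right _ _).trans ((le_max_left _ _).trans hge)
    have h21 : 21 ≤ n := (le_max_right _ _).trans hge
    have hkey : ∀ η : Env d, GoodV ρ β h n (δ / 8) η → NSn β h n (mm δ n) κ C η := by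
      intro η hη
      obtain ⟨r1, r2, r3⟩ := H n hn1 (20 * n) (fun j t w z => PP β h (sh j w η) t z)
        (fun j w => Z β h (sh j w η) (n - j)) (aM ρ β h)
        { E1 := Real.one_le_rpow (by exact_mod_cast hn) hε.le
          C00 := le_max_right _ _
          Tpos := fun j t w z hz => R48.PP_pos ((rc_iff hd).1 hz)
          Fpos := fun j w => Z_pos hd _ _ _ _
          Fn := fun w => by
            simp only [Nat.sub_self]
            exact Z_zero _ _ _
          dec := fun j t w hjt => by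
            have e1 : n - j = t + (n - (j + t)) := by omega
            show Z β h (sh j w η) (n - j) = _
            rw [e1, R48.Z_add_PP, sum_Dz hd]
            refine Finset.sum_congr rfl fun z _ => ?_
            rw [R48.sh_sh]
          good := fun j t w z hjt hw hz => by
            have e1 : 20 * n + j ≤ n ^ 2 := by nlinarith
            have := hη j t hjt w (bx_box hw e1) z ((rc_iff hd).1 hz)
            rwa [mul_comm] at this
          abd := fun t z ht hz => (hCa h hh t z ((rc_iff hd).1 hz)).trans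
            (mul_le_mul_of_nonneg_right (le_max_left _ _) (Nat.cast_nonneg _)) }
        (fun kap k1 k2 => hCA kap k1 k2 h hh n)
        (fun kap k1 k2 t ht z hz hlz hkt => by
          obtain ⟨u, hu1, -, hu3, hu4⟩ := hB kap k1 k2 h hh n t hnB ht hkt z ((rc_iff hd).1 hz) hlz
          exact ⟨u, (rc_iff hd).2 hu1, hu3, hu4⟩)
      refine ⟨fun j hj w hw => ?_, fun j s hs hjs w hw z hz => ?_, fun j hj w hw w' hw' he => ?_⟩
      · refine le_trans (le_of_eq ?_) (r1 j w hj (box_bx hw))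
        have e2 : ∀ S : Finset (Site d), ∑ z ∈ S.filter (fun z => (1 - κ) * (mm δ n : ℝ) < (l1 z : ℝ)),
            PP β h (sh j w η) (mm δ n) z * Z β h (sh (j + mm δ n) (w + z) η) (n - (j + mm δ n)) =
            ∑ z ∈ S, PP β h (sh j w η) (mm δ n) z *
              (if (1 - κ) * (mm δ n : ℝ) < (l1 z : ℝ) then
                Z β h (sh (j + mm δ n) (w + z) η) (n - (j + mm δ n)) else 0) := by
          intro S
          rw [Finset.sum_filter]
          refine Finset.sum_congr rfl fun z _ => ?_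
          split_ifs <;> simp
        rw [e2, sum_Dz hd, ← e2]
      · exact r2 j s w z hs hjs (box_bx hw) ((rc_iff hd).2 hz)
      · exact r3 j w w' hj (box_bx hw) (box_bx hw') he
    refine (measureReal_mono ?_).trans ((hC1 h hh n hn).trans
      (mul_le_mul_of_nonneg_right (le_max_left _ _) hnq.le))
    intro η hη hg
    exact hη (hkey η hg)

end Pool.Agent.W_7d29a1_V.Ns46
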