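import Pool.Agent.W_7d29a1_V.DefsV2
import Pool.Agent.W_7d29a1_h46.Win
import Pool.Agent.W_7d29a1_h46u.ConcV
import Pool.Agent.W_7d29a1_h46u.FreeV
import Pool.Agent.W_7d29a1_h46u.StrA

/-!
The wandering exponent is at least `1 / (d + 1)`, for every tilt, around every direction.
-/

namespace Pool.Agent.W_7d29a1_V.NuLow34

open MeasureTheory ProbabilityTheory Filter Topology Pool.Agent.W_MP_7d29a1_pr
  Pool.Agent.W_7d29a1_h46 Pool.Agent.W_7d29a1_h46u Pool.Agent.W_7d29a1_D2
  Pool.Agent.W_7d29a1_D2.B35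

variable {d : ℕ} {ρ : Measure ℝ} [IsProbabilityMeasure ρ]

lemma log_tube_near {n : ℕ} (hd : 0 < d) {β : ℝ} {h : Vec d} {η : Env d}
    {T : Set (Fin n → Step d)} (hP : 1 / 2 ≤ PolT β h η T) :
    X β h η n - Real.log 2 ≤ Real.log (ZT β h η T) ∧ Real.log (ZT β h η T) ≤ X β h η n := by
  have hZ : 0 < ZT β h η (Set.univ : Set (Fin n → Step d)) := ZT_univ_pos hd β h η
  have h1 : 1 / 2 * ZT β h η (Set.univ : Set (Fin n → Step d)) ≤ ZT β h η T := by
    unfold PolT at hP
    rwa [le_div_iff₀ hZ] at hP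
  have h2 : ZT β h η T ≤ ZT β h η (Set.univ : Set (Fin n → Step d)) :=
    ZT_mono β h η (Set.subset_univ T)
  have h3 : 0 < ZT β h η T := lt_of_lt_of_le (by positivity) h1
  refine ⟨?_, Real.log_le_log h3 h2⟩
  have h4 := Real.log_le_log (by positivity) h1
  rw [Real.log_mul (by norm_num) hZ.ne', one_div, Real.log_inv] at h4
  unfold X Z
  linarith

lemma emb_src_coord (k : Fin d) (x : ℕ) (y : Site d) :
    (emb (y + src k x)) k = (emb y) k + 2 * (x : ℝ) := by
  unfold emb src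
  simp

lemma us_zero (β : ℝ) (h : Vec d) (n : ℕ) (k : Fin d) (η : Env d) :
    Us β h n k 0 η = X β h η n := by
  have : sh 0 (src k 0) η = η := by
    funext p
    unfold sh src
    simp
  unfold Us
  rw [this]

lemma us_sq_integrable (hd : 0 < d) (hρ : EM ρ) (β : ℝ) (h : Vec d) {n : ℕ} (hn : 1 ≤ n)
    (k : Fin d) (x : ℕ) :
    Integrable (fun η => (Us β h n k x η - Us β h n k 0 η) ^ 2) (law d ρ) := by
  obtain ⟨C, _, hC⟩ := momU hd hρ β 2 (ρ := ρ)
  have h1 := (hC h n hn).1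
  have hm : Measurable (fun η : Env d => X β h η n - A ρ β h n) :=
    (measurable_X β h n).sub_const _
  have h2 : MemLp (fun η : Env d => X β h η n - A ρ β h n) 2 (law d ρ) := by
    rw [memLp_two_iff_integrable_sq hm.aestronglyMeasurable]
    refine h1.congr (Filter.Eventually.of_forall fun η => ?_)
    exact sq_abs _
  have h3 := h2.comp_measurePreserving (mp_sh (d := d) (ρ := ρ) 0 (src k x))
  have h4 := h2.comp_measurePreserving (mp_sh (d := d) (ρ := ρ) 0 (src k 0))
  have h5 := (h3.sub h4).integrable_sq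
  refine h5.congr (Filter.Eventually.of_forall fun η => ?_)
  simp only [Pi.sub_apply, Function.comp_apply]
  unfold Us
  ring

/-- Chebyshev for the difference of the two sources. -/
lemma us_cheb (hd : 0 < d) (hρ : EM ρ) (β : ℝ) (h : Vec d) {n : ℕ} (hn : 1 ≤ n)
    (k : Fin d) (x : ℕ) {s : ℝ} (hs : 0 < s) :
    (law d ρ).real {η | s < |Us β h n k x η - Us β h n k 0 η|} ≤ Mo ρ β h n k 1 x / s ^ 2 := by
  have hI := us_sq_integrable hd hρ β h hn k x
  have h1 := mul_meas_ge_le_integral_of_nonneg (μ := law d ρ)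
    (f := fun η => (Us β h n k x η - Us β h n k 0 η) ^ 2)
    (Filter.Eventually.of_forall fun η => sq_nonneg _) hI (s ^ 2)
  have h2 : (law d ρ).real {η | s < |Us β h n k x η - Us β h n k 0 η|} ≤
      (law d ρ).real {η | s ^ 2 ≤ (Us β h n k x η - Us β h n k 0 η) ^ 2} := by
    refine measureReal_mono ?_
    intro η hη
    change s ^ 2 ≤ (Us β h n k x η - Us β h n k 0 η) ^ 2
    have hη' : s < |Us β h n k x η - Us β h n k 0 η| := hη
    rw [← sq_abs (Us β h n k x η - Us β h n k 0 η)]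
    exact pow_le_pow_left₀ hs.le hη'.le 2
  have h3 : s ^ 2 * (law d ρ).real {η | s ^ 2 ≤ (Us β h n k x η - Us β h n k 0 η) ^ 2} ≤
      Mo ρ β h n k 1 x := by
    have : Mo ρ β h n k 1 x = ∫ η, (Us β h n k x η - Us β h n k 0 η) ^ 2 ∂(law d ρ) := by
      unfold Mo
      simp
    rw [this]
    exact h1
  rw [le_div_iff₀ (by positivity)]
  calc (law d ρ).real {η | s < |Us β h n k x η - Us β h n k 0 η|} * s ^ 2
      ≤ (law d ρ).real {η | s ^ 2 ≤ (Us β h n k x η - Us β h n k 0 η) ^ 2} * s ^ 2 :=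
        mul_le_mul_of_nonneg_right h2 (by positivity)
    _ ≤ _ := by rw [mul_comm]; exact h3

/-- One scale: two disjoint parallel tubes. -/
theorem core34 (hd : 0 < d) {β ε c : ℝ} (hf : FluctAt ρ β ε c) {κ r s : ℝ} {n : ℕ}
    (hr : 0 < r) (hκ : κ ≤ 1 / 2) (hκε : 3 * κ ≤ ε) (h v : Vec d)
    (k : Fin d) {x : ℕ} (hx : r < x)
    (hP : (law d ρ).real {η | ¬ (1 - κ ≤ PolT β h η (tube d n v r))} ≤ κ)
    (hQ : (law d ρ).real {η | s < |Us β h n k x η - Us β h n k 0 η|} ≤ κ) :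
    c * n ≤ 2 * (s + Real.log 2) * Real.sqrt (n * (2 * r + 1) ^ d) := by
  classical
  have hκ1 : (0 : ℝ) ≤ κ := le_trans measureReal_nonneg hP
  set T := tube d n v r with hT
  set V := VT d n 0 v r with hV
  set B := V.image (fun p : ℕ × Site d => (p.1, p.2 + src k x)) with hB
  have hVB : Disjoint V B := by
    rw [Finset.disjoint_left]
    intro p hp hpB
    rw [hB, Finset.mem_image] at hpB
    obtain ⟨q, hq, rfl⟩ := hpB
    have h1 := (Finset.mem_filter.1 hp).2.2
    have h2 := (Finset.mem_filter.1 hq).2.2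
    have h3 := (abs_apply_le_norm (emb (q.2 + src k x) - ((q.1 : ℕ) : ℝ) • v) k).trans h1
    have h4 := (abs_apply_le_norm (emb q.2 - ((q.1 : ℕ) : ℝ) • v) k).trans h2
    rw [PiLp.sub_apply, emb_src_coord] at h3
    rw [PiLp.sub_apply] at h4
    rw [abs_le] at h3 h4
    linarith [h3.2, h4.1]
  have hsitesV : ∀ t ∈ T, sites t ⊆ V := by
    intro t ht p hp
    obtain ⟨i, _, rfl⟩ := Finset.mem_image.1 hp
    rw [hV, siteOf_mem_VT]
    exact ⟨by omega, ht _ i.2⟩
  by_cases hne : T.Nonempty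
  swap
  · -- the tube is empty: impossible
    exfalso
    have he : T = ∅ := Set.not_nonempty_iff_eq_empty.1 hne
    have h1 : {η : Env d | ¬ (1 - κ ≤ PolT β h η T)} = Set.univ := by
      ext η
      simp only [Set.mem_ofPred_eq, Set.mem_univ, iff_true]
      have : PolT β h η T = 0 := by
        unfold PolT ZT
        rw [he]
        simp
      rw [this]
      linarith
    rw [h1, probReal_univ] at hP
    linarith
  set F : Env d → ℝ := fun η => Real.log (ZT β h (sh 0 (src k x) η) T) with hF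
  have hFm : Measurable F :=
    Real.measurable_log.comp ((measurable_ZT β h T).comp (measurable_sh 0 (src k x)))
  have hFc : ∀ η η' : Env d, (∀ p ∈ B, η p = η' p) → F η = F η' := by
    intro η η' hη
    have : ZT β h (sh 0 (src k x) η) T = ZT β h (sh 0 (src k x) η') T := by
      refine ZT_congr fun t ht p hp => ?_
      have hpV := hsitesV t ht hp
      unfold sh
      rw [Nat.add_zero]
      exact hη _ (Finset.mem_image_of_mem _ hpV)
    simp only [hF, this]
  -- the bad set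
  have hbad : {η : Env d | Real.log (ZT β h η T) - F η ∉
      Set.Icc (-(s + Real.log 2)) (s + Real.log 2)} ⊆
      ({η | ¬ (1 - κ ≤ PolT β h η T)} ∪
        (sh 0 (src k x)) ⁻¹' {η | ¬ (1 - κ ≤ PolT β h η T)}) ∪
        {η | s < |Us β h n k x η - Us β h n k 0 η|} := by
    intro η hη
    by_contra hcon
    rw [Set.mem_union, Set.mem_union, not_or, not_or] at hcon
    have h1 : 1 - κ ≤ PolT β h η T := not_not.1 hcon.1.1
    have h2 : 1 - κ ≤ PolT β h (sh 0 (src k x) η) T := not_not.1 hcon.1.2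
    have h3 : |Us β h n k x η - Us β h n k 0 η| ≤ s := not_lt.1 hcon.2
    have h4 := log_tube_near hd (T := T) (n := n) (β := β) (h := h) (η := η) (by linarith)
    have h5 := log_tube_near hd (T := T) (n := n) (β := β) (h := h)
      (η := sh 0 (src k x) η) (by linarith)
    rw [us_zero] at h3
    unfold Us at h3
    rw [abs_le] at h3
    apply hη
    simp only [hF, Set.mem_Icc]
    constructor
    · linarith [h4.1, h5.2, h3.2]
    · linarith [h4.2, h5.1, h3.1]
  have hSm : MeasurableSet {η : Env d | ¬ (1 - κ ≤ PolT β h η T)} :=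
    (measurableSet_le measurable_const (measurable_PolT β h T)).compl
  have hshift : (law d ρ).real ((sh 0 (src k x)) ⁻¹' {η | ¬ (1 - κ ≤ PolT β h η T)}) ≤ κ := by
    rw [(mp_sh (d := d) (ρ := ρ) 0 (src k x)).measureReal_preimage hSm.nullMeasurableSet]
    exact hP
  have hε : 0 ≤ ε := by linarith
  have hmeas : (law d ρ) {η | Real.log (ZT β h η T) - F η ∉
      Set.Icc (-(s + Real.log 2)) (s + Real.log 2)} ≤ ENNReal.ofReal ε := by
    rw [ENNReal.le_ofReal_iff_toReal_le (measure_ne_top _ _) hε]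
    change (law d ρ).real _ ≤ ε
    have e1 := measureReal_mono (μ := law d ρ) hbad
    have e2 := measureReal_union_le (μ := law d ρ) ({η | ¬ (1 - κ ≤ PolT β h η T)} ∪
        (sh 0 (src k x)) ⁻¹' {η | ¬ (1 - κ ≤ PolT β h η T)})
        {η | s < |Us β h n k x η - Us β h n k 0 η|}
    have e3 := measureReal_union_le (μ := law d ρ) {η | ¬ (1 - κ ≤ PolT β h η T)}
        ((sh 0 (src k x)) ⁻¹' {η | ¬ (1 - κ ≤ PolT β h η T)})
    linarith
  have key := cond_fluct (Ω := Env d) (μ := law d ρ) (ω := fun p η => η p) (FreeV_iid (ρ := ρ)) hf h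
    (V := V) (B := B) hVB hne (fun t ht => (hsitesV t ht).trans Finset.subset_union_left)
    (N := n - 0) (fun t ht => card_sites_VT ht) (F := F) hFm hFc
    (-(s + Real.log 2)) (s + Real.log 2) hmeas
  rw [Nat.sub_zero] at key
  have hcard : Real.sqrt V.card ≤ Real.sqrt (n * (2 * r + 1) ^ d) :=
    Real.sqrt_le_sqrt (card_VT_le hr.le)
  have hs0 : 0 ≤ s + Real.log 2 := by
    by_contra hcon
    push Not at hcon
    have h1 : {η : Env d | s < |Us β h n k x η - Us β h n k 0 η|} = Set.univ := by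
      ext η
      simp only [Set.mem_ofPred_eq, Set.mem_univ, iff_true]
      have := abs_nonneg (Us β h n k x η - Us β h n k 0 η)
      have := Real.log_pos (show (1 : ℝ) < 2 by norm_num)
      linarith
    rw [h1, probReal_univ] at hQ
    linarith
  refine key.trans ?_
  have e1 : s + Real.log 2 - -(s + Real.log 2) = 2 * (s + Real.log 2) := by ring
  rw [e1]
  exact mul_le_mul_of_nonneg_left hcard (by linarith)

lemma no_lin34 {c K b : ℝ} (hc : 0 < c) (hb : b < 1) {n₀ : ℕ}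
    (H : ∀ n : ℕ, n₀ ≤ n → c * n ≤ K * (n : ℝ) ^ b) : False := by
  have ht : Tendsto (fun n : ℕ => (n : ℝ) ^ (1 - b)) atTop atTop :=
    (tendsto_rpow_atTop (by linarith)).comp tendsto_natCast_atTop_atTop
  obtain ⟨n, hn1, hn2⟩ := ((ht.eventually_gt_atTop (K / c)).and
    (eventually_ge_atTop (max n₀ 1))).exists
  have hn0 : n₀ ≤ n := (le_max_left _ _).trans hn2
  have hn : 1 ≤ n := (le_max_right _ _).trans hn2
  have hn' : (0 : ℝ) < n := by exact_mod_cast hn
  have h1 := H n hn0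
  have h2 : 0 < (n : ℝ) ^ b := Real.rpow_pos_of_pos hn' b
  have h3 : (n : ℝ) = (n : ℝ) ^ (1 - b) * (n : ℝ) ^ b := by
    rw [← Real.rpow_add hn', sub_add_cancel, Real.rpow_one]
  rw [div_lt_iff₀ hc] at hn1
  have h4 : K * (n : ℝ) ^ b < c * n := by
    calc K * (n : ℝ) ^ b < ((n : ℝ) ^ (1 - b) * c) * (n : ℝ) ^ b :=
          mul_lt_mul_of_pos_right hn1 h2
      _ = c * ((n : ℝ) ^ (1 - b) * (n : ℝ) ^ b) := by ring
      _ = c * n := by rw [← h3]
  linarith

/-- `ν(h, v) ≥ 1 / (d + 1)` for every tilt and every direction, in every dimension. -/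
theorem nuT_ge34 {Ω : Type*} [MeasurableSpace Ω] {μ : Measure Ω} [IsProbabilityMeasure μ]
    {ω : ℕ × Site d → Ω → ℝ} (hd : 0 < d) (hω : IID μ ρ ω) (hnc : ∀ c : ℝ, ρ {c} ≠ 1)
    (hρ : EM ρ) {β : ℝ} (hβ : 0 < β) {h : Vec d} (hS : SpaceV d ρ β ‖h‖) (v : Vec d) :
    1 / ((d : ℝ) + 1) ≤ nuT μ β ω h v := by
  by_contra hcon
  push Not at hcon
  obtain ⟨a, ha1, ha2⟩ := exists_between hcon
  have h0 : 0 ≤ nuT μ β ω h v := Real.sInf_nonneg fun b hb => hb.1.le
  have ha0 : 0 < a := lt_of_le_of_lt h0 ha1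
  have hd1 : (0 : ℝ) < (d : ℝ) + 1 := by positivity
  have had : a * ((d : ℝ) + 1) < 1 := (lt_div_iff₀ hd1).1 ha2
  have hdr : (1 : ℝ) ≤ d := by exact_mod_cast hd
  have ha1' : a ≤ 1 := by nlinarith
  obtain ⟨ε, hε, c, hc, hf⟩ := fluct ρ hnc β hβ (hρ β)
  set κ : ℝ := min (1 / 2) (ε / 3) with hκd
  have hκ : 0 < κ := lt_min (by norm_num) (by positivity)
  have hκ2 : κ ≤ 1 / 2 := min_le_left _ _
  have hκε : 3 * κ ≤ ε := by
    have := min_le_right (1 / 2 : ℝ) (ε / 3)
    rw [← hκd] at this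
    linarith
  obtain ⟨n₀, hn₀⟩ := exists_n0T hd hω.meas (β := β) (h := h) (v := v) ha1 hκ
  set e : ℝ := (1 - a * ((d : ℝ) + 1)) / 2 with he
  have he0 : 0 < e := by
    rw [he]
    linarith
  obtain ⟨C, hC⟩ := hS e he0 1
  set S : ℝ := Real.sqrt (3 * (|C| + 1) / κ) with hSd
  have hS2 : S ^ 2 = 3 * (|C| + 1) / κ := Real.sq_sqrt (by positivity)
  have hS0 : 0 < S := Real.sqrt_pos.2 (by positivity)
  set k : Fin d := ⟨0, hd⟩
  refine no_lin34 (c := c) (K := 2 * (S + 1) * Real.sqrt (3 ^ d)) (b := (1 + a * (d + 1) + e) / 2)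
    (n₀ := max n₀ 1) hc (by rw [he]; linarith) fun n hn => ?_
  have hn0 : n₀ ≤ n := (le_max_left _ _).trans hn
  have hn1 : 1 ≤ n := (le_max_right _ _).trans hn
  have hn1r : (1 : ℝ) ≤ n := by exact_mod_cast hn1
  have hn0r : (0 : ℝ) < n := by linarith
  set r : ℝ := (n : ℝ) ^ a with hr
  have hr1 : 1 ≤ r := Real.one_le_rpow hn1r ha0.le
  have hrn : r ≤ n := by
    rw [hr]
    calc (n : ℝ) ^ a ≤ (n : ℝ) ^ (1 : ℝ) := Real.rpow_le_rpow_of_exponent_le hn1r ha1'
      _ = n := Real.rpow_one _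
  set x : ℕ := ⌊r⌋₊ + 1 with hx
  have hrx : r < x := by
    rw [hx]
    push_cast
    exact Nat.lt_floor_add_one r
  have hxr : (x : ℝ) ≤ r + 1 := by
    rw [hx]
    push_cast
    linarith [Nat.floor_le (show (0 : ℝ) ≤ r by linarith)]
  have hx5 : x ≤ 5 * n := by
    have : (x : ℝ) ≤ (5 * n : ℕ) := by
      push_cast
      linarith
    exact_mod_cast this
  have hMo := hC h le_rfl n hn1 k x hx5
  rw [pow_one] at hMo
  set s : ℝ := S * (n : ℝ) ^ ((a + e) / 2) with hs
  have hpe : 0 < (n : ℝ) ^ ((a + e) / 2) := Real.rpow_pos_of_pos hn0r _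
  have hs0 : 0 < s := mul_pos hS0 hpe
  have hs2 : s ^ 2 = 3 * (|C| + 1) / κ * (r * (n : ℝ) ^ e) := by
    rw [hs, mul_pow, hS2]
    congr 1
    rw [hr, ← Real.rpow_natCast ((n : ℝ) ^ ((a + e) / 2)) 2, ← Real.rpow_mul hn0r.le,
      ← Real.rpow_add hn0r]
    congr 1
    push_cast
    ring
  have hQ : (law d ρ).real {η | s < |Us β h n k x η - Us β h n k 0 η|} ≤ κ := by
    refine (us_cheb hd hρ β h hn1 k x hs0).trans ?_
    rw [div_le_iff₀ (by positivity)]
    have hne : 0 < (n : ℝ) ^ e := Real.rpow_pos_of_pos hn0r _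
    have h1 : C * ((x : ℝ) + 1) * (n : ℝ) ^ e ≤ (|C| + 1) * (3 * r) * (n : ℝ) ^ e := by
      apply mul_le_mul_of_nonneg_right _ hne.le
      apply mul_le_mul
      · linarith [le_abs_self C]
      · linarith
      · positivity
      · positivity
    refine (hMo.trans h1).trans (le_of_eq ?_)
    rw [hs2]
    field_simp
  have hP : (law d ρ).real {η | ¬ (1 - κ ≤ PolT β h η (tube d n v r))} ≤ κ := by
    have hSm : MeasurableSet {η : Env d | ¬ (1 - κ ≤ PolT β h η (tube d n v r))} :=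
      (measurableSet_le measurable_const (measurable_PolT β h _)).compl
    rw [← (mp_env hω).measureReal_preimage hSm.nullMeasurableSet]
    exact hn₀ n hn0
  have key := core34 hd hf (by linarith : (0 : ℝ) < r) hκ2 hκε h v k hrx hP hQ
  refine key.trans ?_
  have hl2 : Real.log 2 ≤ 1 := by
    have := Real.log_two_lt_d9
    linarith
  have hp1 : 1 ≤ (n : ℝ) ^ ((a + e) / 2) := Real.one_le_rpow hn1r (by positivity)
  have e1 : s + Real.log 2 ≤ (S + 1) * (n : ℝ) ^ ((a + e) / 2) := by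
    rw [hs]
    nlinarith
  have e2 : Real.sqrt (n * (2 * r + 1) ^ d) ≤
      Real.sqrt (3 ^ d) * (n : ℝ) ^ ((1 + a * d) / 2) := by
    have e3 : (n : ℝ) * (2 * r + 1) ^ d ≤ 3 ^ d * (n : ℝ) ^ (1 + a * d) := by
      calc (n : ℝ) * (2 * r + 1) ^ d ≤ n * (3 * r) ^ d := by
            apply mul_le_mul_of_nonneg_left _ hn0r.le
            exact pow_le_pow_left₀ (by positivity) (by linarith) d
        _ = 3 ^ d * (n : ℝ) ^ (1 + a * d) := by
            rw [mul_pow, hr, ← Real.rpow_natCast ((n : ℝ) ^ a) d, ← Real.rpow_mul hn0r.le,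
              Real.rpow_add hn0r, Real.rpow_one]
            ring
    refine (Real.sqrt_le_sqrt e3).trans (le_of_eq ?_)
    rw [Real.sqrt_mul (by positivity), Real.sqrt_eq_rpow ((n : ℝ) ^ (1 + a * d)),
      ← Real.rpow_mul hn0r.le]
    congr 2
    ring
  have e4 : (n : ℝ) ^ ((1 + a * (d + 1) + e) / 2) =
      (n : ℝ) ^ ((a + e) / 2) * (n : ℝ) ^ ((1 + a * d) / 2) := by
    rw [← Real.rpow_add hn0r]
    congr 1
    ring
  rw [e4]
  calc 2 * (s + Real.log 2) * Real.sqrt (n * (2 * r + 1) ^ d)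
      ≤ 2 * ((S + 1) * (n : ℝ) ^ ((a + e) / 2)) *
          (Real.sqrt (3 ^ d) * (n : ℝ) ^ ((1 + a * d) / 2)) := by
        apply mul_le_mul _ e2 (Real.sqrt_nonneg _) (by positivity)
        linarith
    _ = _ := by ring

end Pool.Agent.W_7d29a1_V.NuLow34
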