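import Pool.Agent.W_7d29a1_V.DefsV2

/-!
The spatial fluctuations of the free energy are at most diffusive: from one step of the source and
the absence of steep places to all distances and all moments.
-/

namespace Pool.Agent.W_7d29a1_V.Space36

open MeasureTheory ProbabilityTheory Filter Topology Pool.Agent.W_MP_7d29a1_pr
  Pool.Agent.W_7d29a1_h46 Pool.Agent.W_7d29a1_h46u Pool.Agent.W_7d29a1_D2
  Pool.Agent.W_7d29a1_D2.B35 Pool.Agent.W_7d29a1_V

variable {d : ℕ} {ρ : Measure ℝ} [IsProbabilityMeasure ρ]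

lemma meas_Us (β : ℝ) (h : Vec d) (n : ℕ) (k : Fin d) (x : ℕ) :
    Measurable fun η : Env d => Us β h n k x η :=
  (measurable_X β h n).comp (measurable_sh 0 (src k x))

lemma sub_pow_le (a b : ℝ) (q : ℕ) : |a - b| ^ q ≤ 2 ^ q * (|a| ^ q + |b| ^ q) := by
  have h1 : |a - b| ≤ 2 * max |a| |b| := by
    have h2 := abs_sub a b
    have h3 := le_max_left |a| |b|
    have h4 := le_max_right |a| |b|
    linarith
  have h5 : |a - b| ^ q ≤ (2 * max |a| |b|) ^ q := pow_le_pow_left₀ (abs_nonneg _) h1 q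
  refine h5.trans ?_
  rw [mul_pow]
  refine mul_le_mul_of_nonneg_left ?_ (by positivity)
  rcases le_total |a| |b| with h6 | h6
  · rw [max_eq_right h6]
    have : 0 ≤ |a| ^ q := by positivity
    linarith
  · rw [max_eq_left h6]
    have : 0 ≤ |b| ^ q := by positivity
    linarith

/-- Crude moments of the difference of two sources, uniformly in the tilt. -/
theorem crude (hd : 0 < d) (hρ : EM ρ) (β : ℝ) (q : ℕ) :
    ∃ C : ℝ, 0 ≤ C ∧ ∀ (h : Vec d) (n : ℕ), 1 ≤ n → ∀ (k : Fin d) (x : ℕ),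
      Integrable (fun η => |Us β h n k x η - Us β h n k 0 η| ^ q) (law d ρ) ∧
      ∫ η, |Us β h n k x η - Us β h n k 0 η| ^ q ∂(law d ρ) ≤ C * (n : ℝ) ^ ((1 / 2 : ℝ) * q) := by
  obtain ⟨C, hC, hm⟩ := momU (ρ := ρ) hd hρ β q
  refine ⟨2 ^ q * (C + C), by positivity, fun h n hn k x => ?_⟩
  obtain ⟨i0, c0⟩ := hm h n hn
  have key : ∀ y : ℕ, Integrable (fun η => |Us β h n k y η - A ρ β h n| ^ q) (law d ρ) ∧
      ∫ η, |Us β h n k y η - A ρ β h n| ^ q ∂(law d ρ) ≤ C * (n : ℝ) ^ ((1 / 2 : ℝ) * q) := by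
    intro y
    have hmp := mp_sh (ρ := ρ) 0 (src k y)
    refine ⟨hmp.integrable_comp_of_integrable i0, ?_⟩
    have hF : Measurable fun η : Env d => |X β h η n - A ρ β h n| ^ q :=
      (((measurable_X β h n).sub_const _).abs).pow_const q
    have h1 := integral_sh (ρ := ρ) 0 (src k y) hF
    exact h1.le.trans c0
  obtain ⟨i1, c1⟩ := key x
  obtain ⟨i2, c2⟩ := key 0
  have hb : ∀ η : Env d, |Us β h n k x η - Us β h n k 0 η| ^ q ≤
      2 ^ q * (|Us β h n k x η - A ρ β h n| ^ q + |Us β h n k 0 η - A ρ β h n| ^ q) := by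
    intro η
    have h1 := sub_pow_le (Us β h n k x η - A ρ β h n) (Us β h n k 0 η - A ρ β h n) q
    rwa [sub_sub_sub_cancel_right] at h1
  have hs : Integrable (fun η => 2 ^ q * (|Us β h n k x η - A ρ β h n| ^ q +
      |Us β h n k 0 η - A ρ β h n| ^ q)) (law d ρ) := (i1.add i2).const_mul _
  have hi : Integrable (fun η => |Us β h n k x η - Us β h n k 0 η| ^ q) (law d ρ) := by
    refine hs.mono' ?_ (Filter.Eventually.of_forall fun η => ?_)
    · exact ((((meas_Us β h n k x).sub (meas_Us β h n k 0)).abs).pow_const q).aestronglyMeasurable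
    · rw [Real.norm_eq_abs, abs_of_nonneg (by positivity)]
      exact hb η
  refine ⟨hi, ?_⟩
  have h2 := integral_mono hi hs hb
  rw [integral_const_mul, integral_add i1 i2] at h2
  refine h2.trans ?_
  rw [mul_assoc, add_mul]
  exact mul_le_mul_of_nonneg_left (add_le_add c1 c2) (by positivity)

omit [IsProbabilityMeasure ρ] in
lemma Mo_eq (β : ℝ) (h : Vec d) (n : ℕ) (k : Fin d) (p x : ℕ) :
    Mo ρ β h n k p x = ∫ η, |Us β h n k x η - Us β h n k 0 η| ^ (2 * p) ∂(law d ρ) := by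
  unfold Mo
  refine integral_congr_ae (Filter.Eventually.of_forall fun η => ?_)
  change (Us β h n k x η - Us β h n k 0 η) ^ (2 * p) = |Us β h n k x η - Us β h n k 0 η| ^ (2 * p)
  rw [pow_mul, pow_mul, sq_abs]

lemma Mo_zero (β : ℝ) (h : Vec d) (n : ℕ) (k : Fin d) (x : ℕ) : Mo ρ β h n k 0 x = 1 := by
  unfold Mo
  simp

lemma l1_src (k : Fin d) (x : ℕ) : l1 (src k x) = 2 * x := by
  unfold l1 src
  rw [Finset.sum_eq_single k]
  · rw [Pi.single_eq_same]
    omega
  · intro i _ hi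
    rw [Pi.single_eq_of_ne hi]
    rfl
  · intro hk
    exact absurd (Finset.mem_univ k) hk

lemma l1_neg (z : Site d) : l1 (-z) = l1 z := by
  unfold l1
  simp

lemma src_zero (k : Fin d) : src k 0 = 0 := by
  unfold src
  simp

lemma src_mem (k : Fin d) {n x : ℕ} (hx : x ≤ 5 * n) : src k x ∈ boxF d (20 * n) := by
  rw [mem_boxF]
  intro j
  unfold src
  by_cases hj : j = k
  · rw [hj, Pi.single_eq_same, abs_of_nonneg (by positivity)]
    push_cast
    omega
  · rw [Pi.single_eq_of_ne hj]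
    simp

/-- On the good event the near sources are close. -/
lemma near {β : ℝ} {h : Vec d} {n m : ℕ} {κ C : ℝ} {η : Env d} (hN : NSn β h n m κ C η)
    (hC : 0 < C) (k : Fin d) {x : ℕ} (hx : x ≤ 5 * n) (hxm : x ≤ 2 * m) :
    |Us β h n k x η - Us β h n k 0 η| ≤ 5 * C * m := by
  have h1 := hN.lip 0 (Nat.zero_le n) (src k x) (src_mem k hx) (src k 0)
    (src_mem k (Nat.zero_le _)) (by rw [src_zero, sub_zero, l1_src]; exact even_two_mul x)
  have h2 := hN.lip 0 (Nat.zero_le n) (src k 0) (src_mem k (Nat.zero_le _)) (src k x)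
    (src_mem k hx) (by rw [src_zero, zero_sub, l1_neg, l1_src]; exact even_two_mul x)
  rw [Nat.sub_zero] at h1 h2
  rw [src_zero, sub_zero, l1_src] at h1
  rw [src_zero, zero_sub, l1_neg, l1_src] at h2
  have h3 : ((2 * x : ℕ) : ℝ) + m ≤ 5 * m := by
    have h4 : (x : ℝ) ≤ 2 * m := by exact_mod_cast hxm
    push_cast
    linarith
  have h5 : C * (((2 * x : ℕ) : ℝ) + m) ≤ 5 * C * m := by
    have := mul_le_mul_of_nonneg_left h3 hC.le
    linarith
  unfold Us
  rw [src_zero, abs_le]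
  constructor <;> linarith

lemma mm_pos {δ : ℝ} {n : ℕ} (hn : 1 ≤ n) : 1 ≤ mm δ n := by
  unfold mm
  rw [Nat.one_le_ceil_iff]
  exact Real.rpow_pos_of_pos (by exact_mod_cast hn) _

/-- The moments of the near sources. -/
theorem base (hd : 0 < d) (hρ : EM ρ) (β R : ℝ) (hN : NSV d ρ β R) {δ : ℝ} (hδ : 0 < δ)
    (hδ1 : δ < 1) (p : ℕ) :
    ∃ B : ℝ, 0 ≤ B ∧ ∀ h : Vec d, ‖h‖ ≤ R → ∀ n : ℕ, 1 ≤ n → ∀ (k : Fin d) (x : ℕ),
      x ≤ 5 * n → x ≤ 2 * mm δ n → Mo ρ β h n k p x ≤ B * (mm δ n : ℝ) ^ (2 * p) := by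
  obtain ⟨κ, C, hκ, hκ2, hC, hq⟩ := hN δ hδ hδ1
  obtain ⟨C', hC'⟩ := hq (2 * p)
  obtain ⟨D, hD, hcr⟩ := crude (ρ := ρ) hd hρ β (4 * p)
  obtain ⟨D2, hD2, hcr2⟩ := crude (ρ := ρ) hd hρ β (2 * p)
  refine ⟨(5 * C) ^ (2 * p) + (D + |C'|), by positivity, fun h hh n hn k x hx hxm => ?_⟩
  have hn' : (0 : ℝ) < n := by exact_mod_cast hn
  have hm1 : (1 : ℝ) ≤ mm δ n := by exact_mod_cast mm_pos (δ := δ) hn
  set μ := law d ρ with hμ
  set f : Env d → ℝ := fun η => |Us β h n k x η - Us β h n k 0 η| with hf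
  set B := toMeasurable μ {η : Env d | ¬ NSn β h n (mm δ n) κ C η} with hB
  have hBm : MeasurableSet B := measurableSet_toMeasurable _ _
  have hBμ : μ.real B ≤ C' * (n : ℝ) ^ (-((2 * p : ℕ) : ℝ)) := by
    have h1 := hC' h hh n hn
    unfold Measure.real at h1 ⊢
    rwa [hB, measure_toMeasurable]
  obtain ⟨i4, c4⟩ := hcr h n hn k x
  obtain ⟨i2, c2⟩ := hcr2 h n hn k x
  set L : ℝ := (n : ℝ) ^ (2 * p) with hL
  have hLp : 0 < L := by positivity
  have hpt : ∀ η : Env d, f η ^ (2 * p) ≤ (5 * C * mm δ n) ^ (2 * p) +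
      (L⁻¹ * f η ^ (4 * p) + L * B.indicator (fun _ => (1 : ℝ)) η) := by
    intro η
    have hf0 : 0 ≤ f η := abs_nonneg _
    by_cases hη : η ∈ B
    · rw [Set.indicator_of_mem hη]
      have h1 : f η ^ (2 * p) ≤ L⁻¹ * f η ^ (4 * p) + L * 1 := by
        have h2 : f η ^ (4 * p) = (f η ^ (2 * p)) ^ 2 := by
          rw [← pow_mul]
          congr 1
          ring
        rw [h2]
        set y := f η ^ (2 * p)
        have hy : 0 ≤ y := by positivity
        rcases le_total y L with h3 | h3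
        · have : 0 ≤ L⁻¹ * y ^ 2 := by positivity
          linarith
        · have h4 : L⁻¹ * y ^ 2 = (L⁻¹ * y) * y := by ring
          have h5 : 1 ≤ L⁻¹ * y := by
            rw [inv_mul_eq_div, le_div_iff₀ hLp]
            linarith
          rw [h4]
          nlinarith
      have h6 : 0 ≤ (5 * C * mm δ n) ^ (2 * p) := by positivity
      linarith
    · rw [Set.indicator_of_notMem hη]
      have h1 : NSn β h n (mm δ n) κ C η := by
        by_contra h2
        exact hη (subset_toMeasurable _ _ h2)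
      have h2 : f η ≤ 5 * C * mm δ n := near h1 hC k hx hxm
      have h3 : f η ^ (2 * p) ≤ (5 * C * mm δ n) ^ (2 * p) := pow_le_pow_left₀ hf0 h2 _
      have h4 : 0 ≤ L⁻¹ * f η ^ (4 * p) := by positivity
      linarith
  have hind : Integrable (fun η => L * B.indicator (fun _ => (1 : ℝ)) η) μ :=
    ((integrable_const (1 : ℝ)).indicator hBm).const_mul L
  have hi4 : Integrable (fun η => L⁻¹ * f η ^ (4 * p)) μ := i4.const_mul _
  have hs4 : Integrable (fun η => L⁻¹ * f η ^ (4 * p) +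
      L * B.indicator (fun _ => (1 : ℝ)) η) μ := hi4.add hind
  have hr : Integrable (fun η => (5 * C * mm δ n) ^ (2 * p) +
      (L⁻¹ * f η ^ (4 * p) + L * B.indicator (fun _ => (1 : ℝ)) η)) μ :=
    (integrable_const _).add hs4
  have h1 := integral_mono i2 hr hpt
  have h2 : ∫ η, ((5 * C * mm δ n) ^ (2 * p) +
      (L⁻¹ * f η ^ (4 * p) + L * B.indicator (fun _ => (1 : ℝ)) η)) ∂μ =
      (5 * C * mm δ n) ^ (2 * p) + (L⁻¹ * ∫ η, f η ^ (4 * p) ∂μ + L * μ.real B) := by
    rw [integral_add (integrable_const _) hs4,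
      integral_add hi4 hind, integral_const_mul, integral_const_mul]
    simp [hBm]
  rw [h2] at h1
  rw [Mo_eq]
  refine h1.trans ?_
  have h3 : L⁻¹ * ∫ η, f η ^ (4 * p) ∂μ ≤ D := by
    have h4 : (n : ℝ) ^ ((1 / 2 : ℝ) * ((4 * p : ℕ) : ℝ)) = L := by
      rw [hL, ← Real.rpow_natCast]
      congr 1
      push_cast
      ring
    rw [h4] at c4
    rw [inv_mul_eq_div, div_le_iff₀ hLp]
    exact c4
  have h5 : L * μ.real B ≤ |C'| := by
    have h6 : L * (n : ℝ) ^ (-((2 * p : ℕ) : ℝ)) = 1 := by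
      rw [hL, Real.rpow_neg hn'.le, Real.rpow_natCast]
      exact mul_inv_cancel₀ (by positivity)
    calc L * μ.real B ≤ L * (C' * (n : ℝ) ^ (-((2 * p : ℕ) : ℝ))) :=
          mul_le_mul_of_nonneg_left hBμ hLp.le
      _ = C' * (L * (n : ℝ) ^ (-((2 * p : ℕ) : ℝ))) := by ring
      _ = C' := by rw [h6, mul_one]
      _ ≤ |C'| := le_abs_self _
  have h7 : (1 : ℝ) ≤ (mm δ n : ℝ) ^ (2 * p) := one_le_pow₀ hm1
  have h8 : (D + |C'|) ≤ (D + |C'|) * (mm δ n : ℝ) ^ (2 * p) :=
    le_mul_of_one_le_right (by positivity) h7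
  rw [mul_pow, add_mul]
  linarith

/-- The induction. -/
theorem main (hd : 0 < d) (hρ : EM ρ) (β R : ℝ) (hS : StepV d ρ β R) (hN : NSV d ρ β R)
    {δ : ℝ} (hδ : 0 < δ) (hδ1 : δ < 1) (p : ℕ) :
    ∃ D : ℝ, 0 ≤ D ∧ ∃ n₀ : ℕ, ∀ h : Vec d, ‖h‖ ≤ R → ∀ n : ℕ, n₀ ≤ n → 1 ≤ n →
      ∀ (k : Fin d) (x : ℕ), x ≤ 5 * n →
        Mo ρ β h n k p x ≤ D * ((mm δ n : ℝ) ^ 2 * ((x : ℝ) + 1)) ^ p := by
  induction p with
  | zero =>
    refine ⟨1, zero_le_one, 0, fun h _ n _ _ k x _ => ?_⟩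
    rw [Mo_zero]
    simp
  | succ p ih =>
    obtain ⟨D, hD, n1, hih⟩ := ih
    obtain ⟨C, n2, hst⟩ := hS δ hδ hδ1 (p + 1) (Nat.le_add_left 1 p)
    obtain ⟨B, hB, hba⟩ := base hd hρ β R hN hδ hδ1 (p + 1)
    refine ⟨B + |C| * (2 * D + 1), by positivity, max n1 n2, fun h hh n hn hn1 k N hN5 => ?_⟩
    have hm1 : (1 : ℝ) ≤ mm δ n := by exact_mod_cast mm_pos (δ := δ) hn1
    set m : ℝ := (mm δ n : ℝ) with hm
    set T : ℝ := m ^ 2 * ((N : ℝ) + 1) with hT
    have hT0 : 0 ≤ T := by positivity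
    have hmT : m ^ 2 ≤ T := by
      rw [hT]
      refine le_mul_of_one_le_right (by positivity) ?_
      have : (0 : ℝ) ≤ N := Nat.cast_nonneg N
      linarith
    set W : ℝ := |C| * m ^ 2 * ((2 * D + 1) * T ^ p) with hW
    have hW0 : 0 ≤ W := by positivity
    have hlow : ∀ y : ℕ, y ≤ N → Mo ρ β h n k p y ≤ D * T ^ p := by
      intro y hy
      refine (hih h hh n ((le_max_left _ _).trans hn) hn1 k y (hy.trans hN5)).trans ?_
      refine mul_le_mul_of_nonneg_left ?_ hD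
      refine pow_le_pow_left₀ (by positivity) ?_ p
      rw [hT]
      refine mul_le_mul_of_nonneg_left ?_ (by positivity)
      have : (y : ℝ) ≤ N := by exact_mod_cast hy
      linarith
    have hind : ∀ y : ℕ, y ≤ N → Mo ρ β h n k (p + 1) y ≤ B * m ^ (2 * (p + 1)) + y * W := by
      intro y
      induction y with
      | zero =>
        intro _
        have h1 := hba h hh n hn1 k 0 (Nat.zero_le _) (Nat.zero_le _)
        simpa using h1
      | succ y ihy =>
        intro hy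
        by_cases hc : y + 1 ≤ 2 * mm δ n
        · have h1 := hba h hh n hn1 k (y + 1) (hy.trans hN5) hc
          have h2 : 0 ≤ ((y + 1 : ℕ) : ℝ) * W := by positivity
          linarith
        · have h1 := hst h hh n ((le_max_right _ _).trans hn) k (y + 1) (by omega) (hy.trans hN5)
          rw [Nat.add_sub_cancel, Nat.add_sub_cancel] at h1
          have h2 := ihy (by omega)
          have h3 := hlow (y + 1) hy
          have h4 := hlow y (by omega)
          have h5 : m ^ (2 * p) ≤ T ^ p := by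
            rw [pow_mul]
            exact pow_le_pow_left₀ (by positivity) hmT p
          have h6 : C * m ^ 2 * (Mo ρ β h n k p (y + 1) + Mo ρ β h n k p y + m ^ (2 * p)) ≤ W := by
            have h7 : 0 ≤ Mo ρ β h n k p (y + 1) + Mo ρ β h n k p y + m ^ (2 * p) := by
              have h8 : ∀ z : ℕ, 0 ≤ Mo ρ β h n k p z := by
                intro z
                rw [Mo_eq]
                exact integral_nonneg fun η => by positivity
              have h9 := h8 (y + 1)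
              have h10 := h8 y
              positivity
            calc C * m ^ 2 * (Mo ρ β h n k p (y + 1) + Mo ρ β h n k p y + m ^ (2 * p))
                ≤ |C| * m ^ 2 * (Mo ρ β h n k p (y + 1) + Mo ρ β h n k p y + m ^ (2 * p)) := by
                  refine mul_le_mul_of_nonneg_right ?_ h7
                  exact mul_le_mul_of_nonneg_right (le_abs_self C) (by positivity)
              _ ≤ |C| * m ^ 2 * ((2 * D + 1) * T ^ p) := by
                  refine mul_le_mul_of_nonneg_left ?_ (by positivity)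
                  linarith
              _ = W := rfl
          have h11 : (((y + 1 : ℕ) : ℝ)) * W = y * W + W := by
            push_cast
            ring
          rw [h11]
          linarith
    have hfin := hind N (le_refl N)
    refine hfin.trans ?_
    have h1 : m ^ (2 * (p + 1)) ≤ T ^ (p + 1) := by
      rw [pow_mul]
      exact pow_le_pow_left₀ (by positivity) hmT (p + 1)
    have h2 : (N : ℝ) * W ≤ |C| * (2 * D + 1) * T ^ (p + 1) := by
      have h3 : (N : ℝ) * W = |C| * (2 * D + 1) * ((m ^ 2 * N) * T ^ p) := by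
        rw [hW]
        ring
      rw [h3, pow_succ' T p]
      refine mul_le_mul_of_nonneg_left ?_ (by positivity)
      refine mul_le_mul_of_nonneg_right ?_ (by positivity)
      rw [hT]
      refine mul_le_mul_of_nonneg_left ?_ (by positivity)
      linarith
    calc B * m ^ (2 * (p + 1)) + N * W ≤ B * T ^ (p + 1) + |C| * (2 * D + 1) * T ^ (p + 1) :=
          add_le_add (mul_le_mul_of_nonneg_left h1 hB) h2
      _ = (B + |C| * (2 * D + 1)) * T ^ (p + 1) := by ring

/-- U11: the spatial fluctuations are at most diffusive. -/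
theorem spaceV (hd : 0 < d) (hρ : EM ρ) (β R : ℝ) (hS : StepV d ρ β R)
    (hN : NSV d ρ β R) : SpaceV d ρ β R := by
  intro ε hε p
  set δ : ℝ := min (ε / 2) (1 / 2) with hδd
  have hδ : 0 < δ := lt_min (by linarith) (by norm_num)
  have hδ1 : δ < 1 := lt_of_le_of_lt (min_le_right _ _) (by norm_num)
  obtain ⟨D, hD, n0, hmain⟩ := main hd hρ β R hS hN hδ hδ1 p
  obtain ⟨E, hE, hcr⟩ := crude (ρ := ρ) hd hρ β (2 * p)
  refine ⟨4 * (1 + D) + (1 + E) * n0, fun h hh n hn k x hx => ?_⟩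
  have hn' : (0 : ℝ) < n := by exact_mod_cast hn
  have hn1 : (1 : ℝ) ≤ n := by exact_mod_cast hn
  have hx0 : (0 : ℝ) ≤ x := Nat.cast_nonneg x
  rcases Nat.eq_zero_or_pos p with hp | hp
  · subst hp
    rw [Mo_zero]
    simp
  have hne : (1 : ℝ) ≤ (n : ℝ) ^ ε := Real.one_le_rpow hn1 hε.le
  have hn0 : (0 : ℝ) ≤ n0 := Nat.cast_nonneg n0
  have hpow : ∀ a : ℝ, 1 ≤ a → a ≤ a ^ p := fun a ha => le_self_pow₀ ha (by omega)
  by_cases hnn : n0 ≤ n
  · refine (hmain h hh n hnn hn k x hx).trans ?_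
    have h1 : (mm δ n : ℝ) ≤ 2 * (n : ℝ) ^ δ := by
      have h2 : (mm δ n : ℝ) < (n : ℝ) ^ δ + 1 := Nat.ceil_lt_add_one (by positivity)
      have h3 : (1 : ℝ) ≤ (n : ℝ) ^ δ := Real.one_le_rpow hn1 hδ.le
      linarith
    have h4 : (mm δ n : ℝ) ^ 2 ≤ 4 * (n : ℝ) ^ ε := by
      have h5 : (mm δ n : ℝ) ^ 2 ≤ (2 * (n : ℝ) ^ δ) ^ 2 :=
        pow_le_pow_left₀ (Nat.cast_nonneg _) h1 2
      have h6 : ((n : ℝ) ^ δ) ^ 2 ≤ (n : ℝ) ^ ε := by
        rw [← Real.rpow_natCast, ← Real.rpow_mul hn'.le]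
        refine Real.rpow_le_rpow_of_exponent_le hn1 ?_
        have := min_le_left (ε / 2) (1 / 2 : ℝ)
        push_cast
        linarith
      rw [mul_pow] at h5
      linarith
    have h7 : (mm δ n : ℝ) ^ 2 * ((x : ℝ) + 1) ≤ 4 * (n : ℝ) ^ ε * ((x : ℝ) + 1) :=
      mul_le_mul_of_nonneg_right h4 (by linarith)
    calc D * ((mm δ n : ℝ) ^ 2 * ((x : ℝ) + 1)) ^ p
        ≤ (1 + D) ^ p * (4 * (n : ℝ) ^ ε * ((x : ℝ) + 1)) ^ p := by
          refine mul_le_mul ?_ (pow_le_pow_left₀ (by positivity) h7 p) (by positivity)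
            (by positivity)
          have := hpow (1 + D) (by linarith)
          linarith
      _ = ((1 + D) * (4 * (n : ℝ) ^ ε * ((x : ℝ) + 1))) ^ p :=
          (mul_pow (1 + D) (4 * (n : ℝ) ^ ε * ((x : ℝ) + 1)) p).symm
      _ ≤ ((4 * (1 + D) + (1 + E) * n0) * ((x : ℝ) + 1) * (n : ℝ) ^ ε) ^ p := by
          refine pow_le_pow_left₀ (by positivity) ?_ p
          have h8 : 0 ≤ (1 + E) * n0 * ((x : ℝ) + 1) * (n : ℝ) ^ ε := by positivity
          nlinarith
  · rw [Mo_eq]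
    obtain ⟨_, c1⟩ := hcr h n hn k x
    refine c1.trans ?_
    have h1 : (n : ℝ) ^ ((1 / 2 : ℝ) * ((2 * p : ℕ) : ℝ)) = (n : ℝ) ^ p := by
      rw [← Real.rpow_natCast (n : ℝ) p]
      congr 1
      push_cast
      ring
    rw [h1]
    have h2 : (n : ℝ) ≤ n0 := by
      have : n ≤ n0 := by omega
      exact_mod_cast this
    calc E * (n : ℝ) ^ p ≤ (1 + E) ^ p * (n0 : ℝ) ^ p := by
          refine mul_le_mul ?_ (pow_le_pow_left₀ hn'.le h2 p) (by positivity) (by positivity)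
          have := hpow (1 + E) (by linarith)
          linarith
      _ = ((1 + E) * n0) ^ p := (mul_pow (1 + E) (n0 : ℝ) p).symm
      _ ≤ ((4 * (1 + D) + (1 + E) * n0) * ((x : ℝ) + 1) * (n : ℝ) ^ ε) ^ p := by
          refine pow_le_pow_left₀ (by positivity) ?_ p
          have h8 : 0 ≤ (1 + E) * (n0 : ℝ) := by positivity
          have h9 : (1 + E) * (n0 : ℝ) ≤ (4 * (1 + D) + (1 + E) * n0) := by linarith
          have h10 : (1 : ℝ) ≤ ((x : ℝ) + 1) * (n : ℝ) ^ ε := by nlinarith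
          have h11 : 0 ≤ 4 * (1 + D) + (1 + E) * (n0 : ℝ) := by positivity
          calc (1 + E) * (n0 : ℝ) ≤ (4 * (1 + D) + (1 + E) * n0) * 1 := by linarith
            _ ≤ (4 * (1 + D) + (1 + E) * n0) * (((x : ℝ) + 1) * (n : ℝ) ^ ε) :=
                mul_le_mul_of_nonneg_left h10 h11
            _ = _ := by ring

end Pool.Agent.W_7d29a1_V.Space36
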