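import Pool.Agent.W_7d29a1_V.DefsV2
import Pool.Agent.W_7d29a1_h46u.ConcV
import Pool.Agent.W_7d29a1_h46u.LamU

/-!
Moments of the sources and of the mixtures (for the leaf `StepV` of the frame `DefsV2`).
-/

namespace Pool.Agent.W_7d29a1_V.Mom47

open MeasureTheory ProbabilityTheory Filter Topology Pool.Agent.W_MP_7d29a1_pr
  Pool.Agent.W_7d29a1_h46 Pool.Agent.W_7d29a1_h46u Pool.Agent.W_7d29a1_D2
  Pool.Agent.W_7d29a1_D2.B35 Pool.Agent.W_7d29a1_V

variable {d : ℕ} {ρ : Measure ℝ} [IsProbabilityMeasure ρ]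

lemma meas_Us (β : ℝ) (h : Vec d) (n : ℕ) (k : Fin d) (x : ℕ) : Measurable (Us β h n k x) :=
  (measurable_X β h n).comp (measurable_sh 0 (src k x))

lemma int_Us (hd : 0 < d) (hρ : EM ρ) (β : ℝ) (h : Vec d) (n : ℕ) (k : Fin d) (x : ℕ) :
    Integrable (Us β h n k x) (law d ρ) :=
  (mp_sh (ρ := ρ) 0 (src k x)).integrable_comp_of_integrable (concU hd hρ β h n).1

lemma mean_Us (β : ℝ) (h : Vec d) (n : ℕ) (k : Fin d) (x : ℕ) :
    ∫ η, Us β h n k x η ∂(law d ρ) = A ρ β h n :=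
  integral_sh 0 (src k x) (measurable_X β h n)

lemma meas_Za (β : ℝ) (h : Vec d) (n : ℕ) (k : Fin d) (a : ℝ) (x : ℕ) :
    Measurable (Za β h n k a x) :=
  (measurable_Z β h n).add
    (((measurable_Z β h n).comp (measurable_sh 0 (src k x))).const_mul _)

/-- The central moments of one source. -/
lemma mom_Us (hd : 0 < d) (hρ : EM ρ) (β : ℝ) (q : ℕ) :
    ∃ C : ℝ, 0 ≤ C ∧ ∀ (h : Vec d) (n : ℕ), 1 ≤ n → ∀ (k : Fin d) (x : ℕ),
      Integrable (fun η => |Us β h n k x η - A ρ β h n| ^ q) (law d ρ) ∧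
      ∫ η, |Us β h n k x η - A ρ β h n| ^ q ∂(law d ρ) ≤ C * (n : ℝ) ^ ((1 / 2 : ℝ) * q) := by
  obtain ⟨C, hC, H⟩ := momU hd hρ β q
  refine ⟨C, hC, fun h n hn k x => ?_⟩
  obtain ⟨h1, h2⟩ := H h n hn
  have hm : Measurable fun η : Env d => |X β h η n - A ρ β h n| ^ q :=
    (((measurable_X β h n).sub_const _).abs).pow_const q
  refine ⟨(mp_sh (ρ := ρ) 0 (src k x)).integrable_comp_of_integrable h1, ?_⟩
  have h3 := integral_sh (ρ := ρ) 0 (src k x) hm
  exact h3.le.trans h2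

/-- The means are linear, uniformly in the tilt. -/
lemma A_abs (hd : 0 < d) (hρ : EM ρ) (β R : ℝ) : ∃ C : ℝ, 0 < C ∧ ∀ h : Vec d, ‖h‖ ≤ R →
    ∀ n : ℕ, |A ρ β h n| ≤ C * n := by
  obtain ⟨c, hc⟩ := A_le_lin hd hρ β (0 : Vec d)
  have hlow : ∀ n : ℕ, (n : ℝ) * A ρ β (0 : Vec d) 1 ≤ A ρ β (0 : Vec d) n + 0 := by
    intro n
    induction n with
    | zero =>
      have h1 := A_add_le hd hρ β (0 : Vec d) 0 0
      have h2 : A ρ β (0 : Vec d) 0 = 0 := by
        unfold A X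
        simp [Z_zero]
      rw [h2]
      simp
    | succ n ih =>
      have h1 := A_add_le hd hρ β (0 : Vec d) n 1
      push_cast
      linarith
  refine ⟨|c| + |A ρ β (0 : Vec d) 1| + |R| + 1, by positivity, fun h hh n => ?_⟩
  have hn : (0 : ℝ) ≤ n := Nat.cast_nonneg n
  have hR : ‖h‖ * n ≤ |R| * n := mul_le_mul_of_nonneg_right (hh.trans (le_abs_self R)) hn
  have t1 : A ρ β h n ≤ A ρ β (0 : Vec d) n + ‖h‖ * n := by
    unfold A
    have i0 := (concU hd hρ β (0 : Vec d) n).1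
    have ih := (concU hd hρ β h n).1
    have e1 : ∫ η, (X β (0 : Vec d) η n + ‖h‖ * n) ∂(law d ρ) =
        ∫ η, X β (0 : Vec d) η n ∂(law d ρ) + ‖h‖ * n := by
      rw [integral_add i0 (integrable_const _), integral_const]
      simp
    rw [← e1]
    refine integral_mono ih (i0.add (integrable_const _)) fun η => ?_
    have h1 := X_tilt hd β (0 : Vec d) h η n
    rwa [zero_add] at h1
  have t2 : A ρ β (0 : Vec d) n ≤ A ρ β h n + ‖h‖ * n := by
    unfold A
    have i0 := (concU hd hρ β (0 : Vec d) n).1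
    have ih := (concU hd hρ β h n).1
    have e1 : ∫ η, (X β h η n + ‖h‖ * n) ∂(law d ρ) =
        ∫ η, X β h η n ∂(law d ρ) + ‖h‖ * n := by
      rw [integral_add ih (integrable_const _), integral_const]
      simp
    rw [← e1]
    refine integral_mono i0 (ih.add (integrable_const _)) fun η => ?_
    have h1 := X_tilt hd β h (-h) η n
    rwa [add_neg_cancel, norm_neg] at h1
  have h3 := hc n
  have h4 := hlow n
  have h5 : c * n ≤ |c| * n := mul_le_mul_of_nonneg_right (le_abs_self c) hn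
  have h6 : -(|A ρ β (0 : Vec d) 1| * n) ≤ (n : ℝ) * A ρ β (0 : Vec d) 1 := by
    have := mul_le_mul_of_nonneg_right (neg_abs_le (A ρ β (0 : Vec d) 1)) hn
    linarith
  have h7 : 0 ≤ |c| * n := by positivity
  have h8 : 0 ≤ |A ρ β (0 : Vec d) 1| * n := by positivity
  rw [abs_le]
  constructor
  · nlinarith
  · nlinarith

/-- The second moment of the logarithm of the partition function. -/
lemma sq_Us (hd : 0 < d) (hρ : EM ρ) (β R : ℝ) : ∃ C : ℝ, 0 < C ∧ ∀ h : Vec d, ‖h‖ ≤ R →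
    ∀ n : ℕ, 1 ≤ n → ∀ (k : Fin d) (x : ℕ),
      Integrable (fun η => Us β h n k x η ^ 2) (law d ρ) ∧
      ∫ η, Us β h n k x η ^ 2 ∂(law d ρ) ≤ C * (n : ℝ) ^ 2 := by
  obtain ⟨C0, hC0, H0⟩ := mom_Us hd hρ β 2
  obtain ⟨C1, hC1, H1⟩ := A_abs hd hρ β R
  refine ⟨2 * C0 + 2 * C1 ^ 2, by positivity, fun h hh n hn k x => ?_⟩
  obtain ⟨i2, b2⟩ := H0 h n hn k x
  have hn1 : (1 : ℝ) ≤ n := by exact_mod_cast hn
  have e1 : (n : ℝ) ^ ((1 / 2 : ℝ) * (2 : ℕ)) = n := by
    rw [show (1 / 2 : ℝ) * (2 : ℕ) = 1 by push_cast; norm_num, Real.rpow_one]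
  rw [e1] at b2
  have hpt : ∀ η, Us β h n k x η ^ 2 ≤
      2 * |Us β h n k x η - A ρ β h n| ^ 2 + 2 * A ρ β h n ^ 2 := by
    intro η
    rw [sq_abs]
    nlinarith [sq_nonneg (Us β h n k x η - 2 * A ρ β h n)]
  have hint : Integrable (fun η => 2 * |Us β h n k x η - A ρ β h n| ^ 2 + 2 * A ρ β h n ^ 2)
      (law d ρ) := (i2.const_mul 2).add (integrable_const _)
  have hi : Integrable (fun η => Us β h n k x η ^ 2) (law d ρ) := by
    refine hint.mono' ((meas_Us β h n k x).pow_const 2).aestronglyMeasurable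
      (Filter.Eventually.of_forall fun η => ?_)
    rw [Real.norm_eq_abs, abs_of_nonneg (sq_nonneg _)]
    exact hpt η
  refine ⟨hi, ?_⟩
  have h1 : ∫ η, Us β h n k x η ^ 2 ∂(law d ρ) ≤
      2 * ∫ η, |Us β h n k x η - A ρ β h n| ^ 2 ∂(law d ρ) + 2 * A ρ β h n ^ 2 := by
    refine (integral_mono hi hint hpt).trans (le_of_eq ?_)
    rw [integral_add (i2.const_mul 2) (integrable_const _), integral_const_mul, integral_const]
    simp
  have h2 : A ρ β h n ^ 2 ≤ C1 ^ 2 * (n : ℝ) ^ 2 := by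
    rw [← mul_pow, ← sq_abs (A ρ β h n)]
    exact pow_le_pow_left₀ (abs_nonneg _) (H1 h hh n) 2
  have h3 : C0 * (n : ℝ) ≤ C0 * (n : ℝ) ^ 2 := by
    refine mul_le_mul_of_nonneg_left ?_ hC0
    nlinarith
  nlinarith

lemma log_Za (hd : 0 < d) (β : ℝ) (h : Vec d) (n : ℕ) (k : Fin d) (a : ℝ) (x : ℕ) (η : Env d) :
    Real.log (Za β h n k a x η) ^ 2 ≤
      4 * (1 + Us β h n k 0 η ^ 2 + a ^ 2 + Us β h n k x η ^ 2) := by
  have e0 : sh 0 (src k 0) η = η := by
    funext p
    simp [sh, src]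
  have hX0 : Us β h n k 0 η = X β h η n := by
    unfold Us
    rw [e0]
  have hZ0 := Z_pos hd β h η n
  have hZx := Z_pos hd β h (sh 0 (src k x) η) n
  have x0 : Z β h η n = Real.exp (Us β h n k 0 η) := by
    rw [hX0]
    unfold X
    rw [Real.exp_log hZ0]
  have xx : Z β h (sh 0 (src k x) η) n = Real.exp (Us β h n k x η) := by
    unfold Us X
    rw [Real.exp_log hZx]
  obtain ⟨u, hu⟩ : ∃ u, u = Us β h n k 0 η := ⟨_, rfl⟩
  obtain ⟨v, hv⟩ : ∃ v, v = Us β h n k x η := ⟨_, rfl⟩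
  have hZa : Za β h n k a x η = Real.exp u + Real.exp (-a) * Real.exp v := by
    unfold Za
    rw [x0, xx, hu, hv]
  rw [hZa, ← hu, ← hv]
  have hM : |Real.log (Real.exp u + Real.exp (-a) * Real.exp v)| ≤ 1 + |u| + |a| + |v| := by
    have hpos : 0 < Real.exp u + Real.exp (-a) * Real.exp v := by positivity
    rw [abs_le]
    constructor
    · rw [Real.le_log_iff_exp_le hpos]
      have h1 : Real.exp (-(1 + |u| + |a| + |v|)) ≤ Real.exp u := by
        apply Real.exp_le_exp.2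
        have := neg_abs_le u
        have := abs_nonneg a
        have := abs_nonneg v
        linarith
      have h2 : 0 < Real.exp (-a) * Real.exp v := by positivity
      linarith
    · rw [Real.log_le_iff_le_exp hpos]
      have h1 : Real.exp u ≤ Real.exp (|u| + |a| + |v|) := by
        apply Real.exp_le_exp.2
        have := le_abs_self u
        have := abs_nonneg a
        have := abs_nonneg v
        linarith
      have h2 : Real.exp (-a) * Real.exp v ≤ Real.exp (|u| + |a| + |v|) := by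
        rw [← Real.exp_add]
        apply Real.exp_le_exp.2
        have := neg_abs_le a
        have := abs_nonneg u
        have := le_abs_self v
        linarith
      have h3 : (2 : ℝ) ≤ Real.exp 1 := by
        have := Real.add_one_le_exp (1 : ℝ)
        linarith
      have h4 : Real.exp (1 + |u| + |a| + |v|) = Real.exp 1 * Real.exp (|u| + |a| + |v|) := by
        rw [← Real.exp_add]
        congr 1
        ring
      rw [h4]
      have h5 := Real.exp_pos (|u| + |a| + |v|)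
      nlinarith
  have h1 : Real.log (Real.exp u + Real.exp (-a) * Real.exp v) ^ 2 ≤
      (1 + |u| + |a| + |v|) ^ 2 := by
    rw [← sq_abs (Real.log _)]
    exact pow_le_pow_left₀ (abs_nonneg _) hM 2
  refine h1.trans ?_
  have hu2 : |u| ^ 2 = u ^ 2 := sq_abs u
  have ha2 : |a| ^ 2 = a ^ 2 := sq_abs a
  have hv2 : |v| ^ 2 = v ^ 2 := sq_abs v
  nlinarith [sq_nonneg (1 - |u|), sq_nonneg (1 - |a|), sq_nonneg (1 - |v|),
    sq_nonneg (|u| - |a|), sq_nonneg (|u| - |v|), sq_nonneg (|a| - |v|)]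

lemma log_mix (u v a : ℝ) :
    |Real.log (Real.exp u + Real.exp (-a) * Real.exp v)| ≤ 1 + |u| + |a| + |v| := by
  have hpos : 0 < Real.exp u + Real.exp (-a) * Real.exp v := by positivity
  rw [abs_le]
  constructor
  · rw [Real.le_log_iff_exp_le hpos]
    have h1 : Real.exp (-(1 + |u| + |a| + |v|)) ≤ Real.exp u := by
      apply Real.exp_le_exp.2
      have := neg_abs_le u
      have := abs_nonneg a
      have := abs_nonneg v
      linarith
    have h2 : 0 < Real.exp (-a) * Real.exp v := by positivity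
    linarith
  · rw [Real.log_le_iff_le_exp hpos]
    have h1 : Real.exp u ≤ Real.exp (|u| + |a| + |v|) := by
      apply Real.exp_le_exp.2
      have := le_abs_self u
      have := abs_nonneg a
      have := abs_nonneg v
      linarith
    have h2 : Real.exp (-a) * Real.exp v ≤ Real.exp (|u| + |a| + |v|) := by
      rw [← Real.exp_add]
      apply Real.exp_le_exp.2
      have := neg_abs_le a
      have := abs_nonneg u
      have := le_abs_self v
      linarith
    have h3 : (2 : ℝ) ≤ Real.exp 1 := by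
      have := Real.add_one_le_exp (1 : ℝ)
      linarith
    have h4 : Real.exp (1 + |u| + |a| + |v|) = Real.exp 1 * Real.exp (|u| + |a| + |v|) := by
      rw [← Real.exp_add]
      congr 1
      ring
    rw [h4]
    have h5 := Real.exp_pos (|u| + |a| + |v|)
    nlinarith

/-- The centred form, uniform in all tilts. -/
lemma log_Za_c (hd : 0 < d) (β : ℝ) (h : Vec d) (n : ℕ) (k : Fin d) (a : ℝ) (x : ℕ) (η : Env d)
    (m : ℝ) : (Real.log (Za β h n k a x η) - m) ^ 2 ≤
      4 * ((1 + a ^ 2) + (|Us β h n k 0 η - m| ^ 2 + |Us β h n k x η - m| ^ 2)) := by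
  have e0 : sh 0 (src k 0) η = η := by
    funext p
    simp [sh, src]
  have hX0 : Us β h n k 0 η = X β h η n := by
    unfold Us
    rw [e0]
  have hZ0 := Z_pos hd β h η n
  have hZx := Z_pos hd β h (sh 0 (src k x) η) n
  have x0 : Z β h η n = Real.exp (Us β h n k 0 η) := by
    rw [hX0]
    unfold X
    rw [Real.exp_log hZ0]
  have xx : Z β h (sh 0 (src k x) η) n = Real.exp (Us β h n k x η) := by
    unfold Us X
    rw [Real.exp_log hZx]
  obtain ⟨u, hu⟩ : ∃ u, u = Us β h n k 0 η := ⟨_, rfl⟩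
  obtain ⟨v, hv⟩ : ∃ v, v = Us β h n k x η := ⟨_, rfl⟩
  have hZa : Za β h n k a x η =
      Real.exp m * (Real.exp (u - m) + Real.exp (-a) * Real.exp (v - m)) := by
    have e1 : Real.exp m * Real.exp (u - m) = Real.exp u := by
      rw [← Real.exp_add]
      congr 1
      ring
    have e2 : Real.exp m * Real.exp (v - m) = Real.exp v := by
      rw [← Real.exp_add]
      congr 1
      ring
    unfold Za
    rw [x0, xx, ← hu, ← hv, mul_add, e1, mul_left_comm, e2]
  have hlog : Real.log (Za β h n k a x η) - m =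
      Real.log (Real.exp (u - m) + Real.exp (-a) * Real.exp (v - m)) := by
    have hpos : 0 < Real.exp (u - m) + Real.exp (-a) * Real.exp (v - m) := by positivity
    rw [hZa, Real.log_mul (Real.exp_pos m).ne' hpos.ne', Real.log_exp]
    ring
  rw [hlog, ← hu, ← hv]
  have h1 : Real.log (Real.exp (u - m) + Real.exp (-a) * Real.exp (v - m)) ^ 2 ≤
      (1 + |u - m| + |a| + |v - m|) ^ 2 := by
    rw [← sq_abs (Real.log _)]
    exact pow_le_pow_left₀ (abs_nonneg _) (log_mix (u - m) (v - m) a) 2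
  refine h1.trans ?_
  have ha2 : |a| ^ 2 = a ^ 2 := sq_abs a
  nlinarith [sq_nonneg (1 - |u - m|), sq_nonneg (1 - |a|), sq_nonneg (1 - |v - m|),
    sq_nonneg (|u - m| - |a|), sq_nonneg (|u - m| - |v - m|), sq_nonneg (|a| - |v - m|)]

/-- The second moment of the centred logarithm of the mixture, uniform in all tilts. -/
theorem momC47 (hd : 0 < d) (hρ : EM ρ) (β : ℝ) :
    ∃ C : ℝ, 0 < C ∧ ∀ (h : Vec d) (n : ℕ), 1 ≤ n → ∀ (k : Fin d) (x : ℕ) (a : ℝ),
      Integrable (fun η => (Real.log (Za β h n k a x η) - A ρ β h n) ^ 2) (law d ρ) ∧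
      ∫ η, (Real.log (Za β h n k a x η) - A ρ β h n) ^ 2 ∂(law d ρ) ≤
        C * ((n : ℝ) ^ 2 + a ^ 2) := by
  obtain ⟨C0, hC0, H0⟩ := mom_Us hd hρ β 2
  refine ⟨4 + 8 * C0, by positivity, fun h n hn k x a => ?_⟩
  obtain ⟨ix, bx⟩ := H0 h n hn k x
  obtain ⟨i0, b0⟩ := H0 h n hn k 0
  have hn1 : (1 : ℝ) ≤ n := by exact_mod_cast hn
  have e1 : (n : ℝ) ^ ((1 / 2 : ℝ) * (2 : ℕ)) = n := by
    rw [show (1 / 2 : ℝ) * (2 : ℕ) = 1 by push_cast; norm_num, Real.rpow_one]
  rw [e1] at bx b0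
  have i4 : Integrable (fun η => 4 * ((1 + a ^ 2) + (|Us β h n k 0 η - A ρ β h n| ^ 2 +
      |Us β h n k x η - A ρ β h n| ^ 2))) (law d ρ) :=
    ((integrable_const _).add (i0.add ix)).const_mul 4
  have hi : Integrable (fun η => (Real.log (Za β h n k a x η) - A ρ β h n) ^ 2) (law d ρ) := by
    refine i4.mono' (((Real.measurable_log.comp (meas_Za β h n k a x)).sub_const _).pow_const
      2).aestronglyMeasurable (Filter.Eventually.of_forall fun η => ?_)
    rw [Real.norm_eq_abs, abs_of_nonneg (sq_nonneg _)]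
    exact log_Za_c hd β h n k a x η _
  refine ⟨hi, (integral_mono hi i4 fun η => log_Za_c hd β h n k a x η _).trans ?_⟩
  have e3 : ∫ η, ((1 + a ^ 2) + (|Us β h n k 0 η - A ρ β h n| ^ 2 +
      |Us β h n k x η - A ρ β h n| ^ 2)) ∂(law d ρ) = ∫ _ : Env d, (1 + a ^ 2) ∂(law d ρ) +
        ∫ η, (|Us β h n k 0 η - A ρ β h n| ^ 2 + |Us β h n k x η - A ρ β h n| ^ 2)
          ∂(law d ρ) :=
    integral_add (integrable_const _) (i0.add ix)
  rw [integral_const_mul, e3, integral_add i0 ix, integral_const]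
  have hb : C0 * (n : ℝ) ≤ C0 * (n : ℝ) ^ 2 := by
    refine mul_le_mul_of_nonneg_left ?_ hC0
    nlinarith
  have hnn : (1 : ℝ) ≤ (n : ℝ) ^ 2 := by nlinarith
  have h9 := mul_nonneg hC0 (sq_nonneg a)
  simp only [probReal_univ, smul_eq_mul, one_mul]
  nlinarith [sq_nonneg a]

/-- All moments which the leaf `StepV` needs. -/
theorem mom47 (hd : 0 < d) (hρ : EM ρ) (β R : ℝ) :
    (∀ (h : Vec d) (n : ℕ) (k : Fin d) (x : ℕ), Measurable (Us β h n k x) ∧
      Integrable (Us β h n k x) (law d ρ) ∧ ∫ η, Us β h n k x η ∂(law d ρ) = A ρ β h n) ∧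
    (∀ q : ℕ, ∃ C : ℝ, 0 < C ∧ ∀ (h : Vec d) (n : ℕ), 1 ≤ n → ∀ (k : Fin d) (x : ℕ),
      Integrable (fun η => (Us β h n k x η - Us β h n k 0 η) ^ (2 * q)) (law d ρ) ∧
      ∫ η, (Us β h n k x η - Us β h n k 0 η) ^ (2 * q) ∂(law d ρ) ≤ C * (n : ℝ) ^ (2 * q)) ∧
    ∃ C : ℝ, 0 < C ∧ ∀ h : Vec d, ‖h‖ ≤ R → ∀ n : ℕ, 1 ≤ n → ∀ (k : Fin d) (x : ℕ) (a : ℝ),
      Measurable (Za β h n k a x) ∧
      Integrable (fun η => Real.log (Za β h n k a x η) ^ 2) (law d ρ) ∧
      ∫ η, Real.log (Za β h n k a x η) ^ 2 ∂(law d ρ) ≤ C * ((n : ℝ) ^ 2 + a ^ 2) := by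
  refine ⟨fun h n k x => ⟨meas_Us β h n k x, int_Us hd hρ β h n k x, mean_Us β h n k x⟩, ?_, ?_⟩
  · intro q
    obtain ⟨C0, hC0, H0⟩ := mom_Us hd hρ β (2 * q)
    refine ⟨2 ^ (2 * q - 1) * (C0 + C0) + 1, by positivity, fun h n hn k x => ?_⟩
    obtain ⟨ix, bx⟩ := H0 h n hn k x
    obtain ⟨i0, b0⟩ := H0 h n hn k 0
    have hn1 : (1 : ℝ) ≤ n := by exact_mod_cast hn
    have e1 : (n : ℝ) ^ ((1 / 2 : ℝ) * (2 * q : ℕ)) ≤ (n : ℝ) ^ (2 * q) := by
      rw [← Real.rpow_natCast]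
      refine Real.rpow_le_rpow_of_exponent_le hn1 ?_
      push_cast
      have : (0 : ℝ) ≤ q := Nat.cast_nonneg q
      linarith
    have hpt : ∀ η, (Us β h n k x η - Us β h n k 0 η) ^ (2 * q) ≤ 2 ^ (2 * q - 1) *
        (|Us β h n k x η - A ρ β h n| ^ (2 * q) + |Us β h n k 0 η - A ρ β h n| ^ (2 * q)) := by
      intro η
      have h1 : (Us β h n k x η - Us β h n k 0 η) ^ (2 * q) =
          |Us β h n k x η - Us β h n k 0 η| ^ (2 * q) := by
        rw [pow_mul, pow_mul, sq_abs]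
      rw [h1]
      refine le_trans ?_ (add_pow_le (abs_nonneg _) (abs_nonneg _) (2 * q))
      refine pow_le_pow_left₀ (abs_nonneg _) ?_ _
      have h2 := abs_sub (Us β h n k x η - A ρ β h n) (Us β h n k 0 η - A ρ β h n)
      have h3 : Us β h n k x η - A ρ β h n - (Us β h n k 0 η - A ρ β h n) =
          Us β h n k x η - Us β h n k 0 η := by ring
      rw [h3] at h2
      exact h2
    have hint : Integrable (fun η => 2 ^ (2 * q - 1) *
        (|Us β h n k x η - A ρ β h n| ^ (2 * q) + |Us β h n k 0 η - A ρ β h n| ^ (2 * q)))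
        (law d ρ) := (ix.add i0).const_mul _
    have hi : Integrable (fun η => (Us β h n k x η - Us β h n k 0 η) ^ (2 * q)) (law d ρ) := by
      refine hint.mono' (((meas_Us β h n k x).sub (meas_Us β h n k 0)).pow_const
        (2 * q)).aestronglyMeasurable (Filter.Eventually.of_forall fun η => ?_)
      rw [Real.norm_eq_abs, abs_of_nonneg (Even.pow_nonneg (even_two_mul q) _)]
      exact hpt η
    refine ⟨hi, (integral_mono hi hint hpt).trans ?_⟩
    rw [integral_const_mul, integral_add ix i0]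
    have hp : (0 : ℝ) < 2 ^ (2 * q - 1) := by positivity
    have hnq : (0 : ℝ) ≤ (n : ℝ) ^ (2 * q) := by positivity
    have h5 : C0 * (n : ℝ) ^ ((1 / 2 : ℝ) * (2 * q : ℕ)) ≤ C0 * (n : ℝ) ^ (2 * q) :=
      mul_le_mul_of_nonneg_left e1 hC0
    have h6 := mul_le_mul_of_nonneg_left (add_le_add (bx.trans h5) (b0.trans h5)) hp.le
    nlinarith
  · obtain ⟨C1, hC1, H1⟩ := sq_Us hd hρ β R
    refine ⟨4 + 8 * C1, by positivity, fun h hh n hn k x a => ⟨meas_Za β h n k a x, ?_⟩⟩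
    obtain ⟨ix, bx⟩ := H1 h hh n hn k x
    obtain ⟨i0, b0⟩ := H1 h hh n hn k 0
    have hn1 : (1 : ℝ) ≤ n := by exact_mod_cast hn
    have i4 : Integrable (fun η => 4 * (1 + Us β h n k 0 η ^ 2 + a ^ 2 + Us β h n k x η ^ 2))
        (law d ρ) :=
      ((((integrable_const _).add i0).add (integrable_const _)).add ix).const_mul 4
    have hi : Integrable (fun η => Real.log (Za β h n k a x η) ^ 2) (law d ρ) := by
      refine i4.mono' ((Real.measurable_log.comp (meas_Za β h n k a x)).pow_const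
        2).aestronglyMeasurable (Filter.Eventually.of_forall fun η => ?_)
      rw [Real.norm_eq_abs, abs_of_nonneg (sq_nonneg _)]
      exact log_Za hd β h n k a x η
    refine ⟨hi, (integral_mono hi i4 fun η => log_Za hd β h n k a x η).trans ?_⟩
    have e1 : ∫ η, 4 * (1 + Us β h n k 0 η ^ 2 + a ^ 2 + Us β h n k x η ^ 2) ∂(law d ρ) =
        4 * ((1 + a ^ 2) + (∫ η, Us β h n k 0 η ^ 2 ∂(law d ρ) +
          ∫ η, Us β h n k x η ^ 2 ∂(law d ρ))) := by
      have e2 : (fun η => 4 * (1 + Us β h n k 0 η ^ 2 + a ^ 2 + Us β h n k x η ^ 2)) =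
          fun η => 4 * ((1 + a ^ 2) + (Us β h n k 0 η ^ 2 + Us β h n k x η ^ 2)) := by
        funext η
        ring
      have e3 : ∫ η, ((1 + a ^ 2) + (Us β h n k 0 η ^ 2 + Us β h n k x η ^ 2)) ∂(law d ρ) =
          ∫ _ : Env d, (1 + a ^ 2) ∂(law d ρ) +
            ∫ η, (Us β h n k 0 η ^ 2 + Us β h n k x η ^ 2) ∂(law d ρ) :=
        integral_add (integrable_const _) (i0.add ix)
      rw [e2, integral_const_mul, e3, integral_add i0 ix, integral_const]
      simp
    rw [e1]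
    nlinarith [sq_nonneg a]

end Pool.Agent.W_7d29a1_V.Mom47
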