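import Mathlib

/-!
The truncated level integral with a polynomial weight.
-/

namespace Pool.Agent.W_7d29a1_V.Pol92

open MeasureTheory

/-- The level integral of the positive part, weight `a ^ (2 r)`, levels in `[-A, A]`. -/
noncomputable def FA (r : ℕ) (A b : ℝ) : ℝ := ∫ a in (-A)..A, a ^ (2 * r) * max (b - a) 0

lemma int_lin (r : ℕ) (b x y : ℝ) :
    ∫ a in x..y, a ^ (2 * r) * (b - a) =
      (b * (y ^ (2 * r + 1) / (2 * r + 1)) - y ^ (2 * r + 2) / (2 * r + 2)) -
        (b * (x ^ (2 * r + 1) / (2 * r + 1)) - x ^ (2 * r + 2) / (2 * r + 2)) := by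
  have h1 : ∀ a : ℝ, a ^ (2 * r) * (b - a) = b * a ^ (2 * r) - a ^ (2 * r + 1) := by
    intro a
    ring
  rw [intervalIntegral.integral_congr fun a _ => h1 a, intervalIntegral.integral_sub,
    intervalIntegral.integral_const_mul, integral_pow, integral_pow]
  · push_cast
    ring
  · exact (by fun_prop : Continuous fun a : ℝ => b * a ^ (2 * r)).intervalIntegrable _ _
  · exact (by fun_prop : Continuous fun a : ℝ => a ^ (2 * r + 1)).intervalIntegrable _ _

/-- The value of `FA` with the truncated end point. -/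
lemma FA_eq (r : ℕ) {A : ℝ} (hA : 0 < A) (b : ℝ) :
    FA r A b = ∫ a in (-A)..(max (-A) (min b A)), a ^ (2 * r) * (b - a) := by
  obtain ⟨c, hc⟩ : ∃ c : ℝ, c = max (-A) (min b A) := ⟨_, rfl⟩
  have hc1 : -A ≤ c := hc ▸ le_max_left _ _
  have hc2 : c ≤ A := hc ▸ max_le (by linarith) (min_le_right _ _)
  rw [← hc]
  unfold FA
  have hcont : Continuous fun a : ℝ => a ^ (2 * r) * max (b - a) 0 := by fun_prop
  rw [← intervalIntegral.integral_add_adjacent_intervals (hcont.intervalIntegrable (-A) c)
    (hcont.intervalIntegrable c A)]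
  have h1 : ∫ a in (-A)..c, a ^ (2 * r) * max (b - a) 0 = ∫ a in (-A)..c, a ^ (2 * r) * (b - a) := by
    refine intervalIntegral.integral_congr_ae (Filter.Eventually.of_forall fun a ha => ?_)
    rw [Set.uIoc_of_le hc1] at ha
    have h2 : a ≤ b := by
      have h3 : a ≤ c := ha.2
      have h4 : -A < a := ha.1
      rcases le_total (-A) (min b A) with h | h
      · have h5 : c = min b A := by rw [hc, max_eq_right h]
        exact h3.trans (h5.le.trans (min_le_left _ _))
      · have h5 : c = -A := by rw [hc, max_eq_left h]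
        linarith
    show a ^ (2 * r) * max (b - a) 0 = a ^ (2 * r) * (b - a)
    rw [max_eq_left (by linarith)]
  have h2 : ∫ a in c..A, a ^ (2 * r) * max (b - a) 0 = 0 := by
    rw [intervalIntegral.integral_congr_ae (g := fun _ => (0 : ℝ))]
    · simp
    · refine Filter.Eventually.of_forall fun a ha => ?_
      rw [Set.uIoc_of_le hc2] at ha
      have h3 : b ≤ a := by
        have h4 : c < a := ha.1
        have h5 : a ≤ A := ha.2
        rcases le_total b A with h | h
        · have h6 : b ≤ c := by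
            rw [hc, min_eq_left h]
            exact le_max_right _ _
          linarith
        · have h6 : A ≤ c := by
            rw [hc, min_eq_right h]
            exact le_max_right _ _
          linarith
      show a ^ (2 * r) * max (b - a) 0 = 0
      rw [max_eq_right (by linarith), mul_zero]
  rw [h1, h2, add_zero]

lemma rest_nonneg (r : ℕ) (b c : ℝ) : 0 ≤ ∫ a in c..b, a ^ (2 * r) * (b - a) := by
  rcases le_total c b with h | h
  · refine intervalIntegral.integral_nonneg h fun a ha => ?_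
    exact mul_nonneg (by rw [pow_mul]; positivity) (by linarith [ha.2])
  · rw [intervalIntegral.integral_symm]
    have h1 : (-∫ a in b..c, a ^ (2 * r) * (b - a)) = ∫ a in b..c, a ^ (2 * r) * (a - b) := by
      rw [← intervalIntegral.integral_neg]
      refine intervalIntegral.integral_congr fun a _ => ?_
      show -(a ^ (2 * r) * (b - a)) = a ^ (2 * r) * (a - b)
      ring
    rw [h1]
    refine intervalIntegral.integral_nonneg h fun a ha => ?_
    exact mul_nonneg (by rw [pow_mul]; positivity) (by linarith [ha.1])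

theorem pol92 (r : ℕ) {A : ℝ} (hA : 0 < A) (b : ℝ) :
    FA r A b ≤ b ^ (2 * r + 2) / ((2 * r + 2) * (2 * r + 1)) + b * (A ^ (2 * r + 1) / (2 * r + 1)) +
        A ^ (2 * r + 2) / (2 * r + 2) ∧
      b ^ (2 * r + 2) / ((2 * r + 2) * (2 * r + 1)) + b * (A ^ (2 * r + 1) / (2 * r + 1)) +
        A ^ (2 * r + 2) / (2 * r + 2) - 3 * (b ^ (4 * r + 4) / A ^ (2 * r + 2)) ≤ FA r A b := by
  obtain ⟨c, hc⟩ : ∃ c : ℝ, c = max (-A) (min b A) := ⟨_, rfl⟩
  have hF : FA r A b = ∫ a in (-A)..c, a ^ (2 * r) * (b - a) := by rw [hc, FA_eq r hA b]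
  have hcont : Continuous fun a : ℝ => a ^ (2 * r) * (b - a) := by fun_prop
  have hr1 : (0 : ℝ) < 2 * r + 1 := by positivity
  have hr2 : (0 : ℝ) < 2 * r + 2 := by positivity
  have hP : b ^ (2 * r + 2) / ((2 * r + 2) * (2 * r + 1)) + b * (A ^ (2 * r + 1) / (2 * r + 1)) +
      A ^ (2 * r + 2) / (2 * r + 2) = ∫ a in (-A)..b, a ^ (2 * r) * (b - a) := by
    rw [int_lin]
    have e1 : (-A) ^ (2 * r + 1) = -A ^ (2 * r + 1) := Odd.neg_pow ⟨r, rfl⟩ A
    have e2 : (-A) ^ (2 * r + 2) = A ^ (2 * r + 2) := Even.neg_pow ⟨r + 1, by ring⟩ A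
    rw [e1, e2]
    field_simp
    ring
  have hsum : (∫ a in (-A)..c, a ^ (2 * r) * (b - a)) + ∫ a in c..b, a ^ (2 * r) * (b - a) =
      ∫ a in (-A)..b, a ^ (2 * r) * (b - a) :=
    intervalIntegral.integral_add_adjacent_intervals (hcont.intervalIntegrable _ _)
      (hcont.intervalIntegrable _ _)
  have h0 := rest_nonneg r b c
  rw [hP, hF]
  refine ⟨by linarith, ?_⟩
  have h3 : 0 ≤ b ^ (4 * r + 4) / A ^ (2 * r + 2) := by
    have : b ^ (4 * r + 4) = (b ^ (2 * r + 2)) ^ 2 := by
      rw [← pow_mul]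
      congr 1
      ring
    rw [this]
    positivity
  have hrest : ∫ a in c..b, a ^ (2 * r) * (b - a) ≤ 3 * (b ^ (4 * r + 4) / A ^ (2 * r + 2)) := by
    by_cases hb : |b| ≤ A
    · have hb' := abs_le.1 hb
      have h4 : c = b := by rw [hc, min_eq_left hb'.2, max_eq_right hb'.1]
      rw [h4, intervalIntegral.integral_same]
      positivity
    · rw [not_le] at hb
      have hc2 : c ^ (2 * r + 2) = A ^ (2 * r + 2) ∧ 0 ≤ b * (c ^ (2 * r + 1) / (2 * r + 1)) := by
        rcases le_total 0 b with h | h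
        · rw [abs_of_nonneg h] at hb
          have h4 : c = A := by rw [hc, min_eq_right hb.le, max_eq_right (by linarith)]
          rw [h4]
          exact ⟨rfl, by positivity⟩
        · rw [abs_of_nonpos h] at hb
          have h4 : c = -A := by
            rw [hc, min_eq_left (by linarith), max_eq_left (by linarith)]
          rw [h4]
          refine ⟨Even.neg_pow ⟨r + 1, by ring⟩ A, ?_⟩
          rw [Odd.neg_pow ⟨r, rfl⟩ A, neg_div]
          have h5 : 0 ≤ -b * (A ^ (2 * r + 1) / (2 * r + 1)) :=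
            mul_nonneg (by linarith) (by positivity)
          linarith
      have hB : A ^ (2 * r + 2) ≤ b ^ (2 * r + 2) := by
        have h5 : A ^ (2 * r + 2) ≤ |b| ^ (2 * r + 2) := pow_le_pow_left₀ hA.le hb.le _
        rwa [Even.pow_abs ⟨r + 1, by ring⟩] at h5
      have hA' : 0 < A ^ (2 * r + 2) := by positivity
      have hB2 : b ^ (2 * r + 2) ≤ b ^ (4 * r + 4) / A ^ (2 * r + 2) := by
        rw [le_div_iff₀ hA']
        have h6 : b ^ (4 * r + 4) = b ^ (2 * r + 2) * b ^ (2 * r + 2) := by
          rw [← pow_add]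
          congr 1
          ring
        rw [h6]
        exact mul_le_mul_of_nonneg_left hB (by linarith)
      have hB0 : 0 ≤ b ^ (2 * r + 2) := by linarith
      have hr0 : (0 : ℝ) ≤ r := Nat.cast_nonneg r
      rw [int_lin, hc2.1]
      have h7 : b * (b ^ (2 * r + 1) / (2 * r + 1)) ≤ b ^ (2 * r + 2) := by
        have e1 : b * (b ^ (2 * r + 1) / (2 * r + 1)) = b ^ (2 * r + 2) / (2 * r + 1) := by ring
        rw [e1]
        exact div_le_self hB0 (by linarith)
      have h8 : 0 ≤ b ^ (2 * r + 2) / (2 * r + 2) := by positivity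
      have h9 : A ^ (2 * r + 2) / (2 * r + 2) ≤ A ^ (2 * r + 2) :=
        div_le_self hA'.le (by linarith)
      linarith [hc2.2]
  linarith

end Pool.Agent.W_7d29a1_V.Pol92
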