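import Pool.Agent.W_7d29a1_V.StepL60
import Pool.Agent.W_7d29a1_V.Pol92
import Pool.Agent.W_7d29a1_V.Mom47

/-!
`2 χ ≤ ν*` in every dimension: one step of the source, all even moments.
-/

namespace Pool.Agent.W_7d29a1_V.Step60

open MeasureTheory ProbabilityTheory Filter Topology Pool.Agent.W_MP_7d29a1_pr
  Pool.Agent.W_7d29a1_h46 Pool.Agent.W_7d29a1_h46u Pool.Agent.W_7d29a1_D2
  Pool.Agent.W_7d29a1_D2.B35 Pool.Agent.W_7d29a1_V Pool.Agent.W_7d29a1_V.Abs60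

variable {d : ℕ} {ρ : Measure ℝ} [IsProbabilityMeasure ρ]

/-- Stretched exponentials beat powers. -/
lemma ev_exp {c δ : ℝ} (hc : 0 < c) (hδ : 0 < δ) (k : ℕ) :
    ∀ᶠ n : ℕ in atTop, 4 * (n : ℝ) ^ k * Real.exp (-(c * (n : ℝ) ^ δ)) ≤ 1 := by
  have h1 := tendsto_rpow_mul_exp_neg_mul_atTop_nhds_zero ((k : ℝ) / δ) c hc
  have h2 : Tendsto (fun n : ℕ => (n : ℝ) ^ δ) atTop atTop :=
    (tendsto_rpow_atTop hδ).comp tendsto_natCast_atTop_atTop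
  have h3 := (h1.comp h2).const_mul 4
  rw [mul_zero] at h3
  have h4 := h3.eventually (gt_mem_nhds (show (0 : ℝ) < 1 by norm_num))
  filter_upwards [h4] with n hn
  have hn0 : (0 : ℝ) ≤ n := Nat.cast_nonneg n
  have h5 : ((n : ℝ) ^ δ) ^ ((k : ℝ) / δ) = (n : ℝ) ^ k := by
    rw [← Real.rpow_mul hn0, mul_div_cancel₀ _ hδ.ne', Real.rpow_natCast]
  simp only [Function.comp] at hn
  rw [h5] at hn
  have h6 : -(c * (n : ℝ) ^ δ) = -c * (n : ℝ) ^ δ := by ring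
  rw [h6]
  calc 4 * (n : ℝ) ^ k * Real.exp (-c * (n : ℝ) ^ δ)
      = 4 * ((n : ℝ) ^ k * Real.exp (-c * (n : ℝ) ^ δ)) := by ring
    _ ≤ 1 := hn.le

lemma le_mm (δ : ℝ) (n : ℕ) : (n : ℝ) ^ δ ≤ mm δ n := Nat.le_ceil _

/-- The numbers. -/
lemma num_fin (r d n : ℕ) (hn : 1 ≤ n) {m Cm IB IB' J S IE MB M2 C' e0 PT g : ℝ} (hm : 1 ≤ m)
    (hCm : 0 < Cm) (hIB : 0 ≤ IB) (hIB' : 0 ≤ IB') (hMB : 0 < MB) (hM2 : 0 < M2)
    (hIE : IE ≤ MB * (n : ℝ) ^ (2 * (2 * r + 2)))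
    (he0 : 2 * (n : ℝ) ^ (4 * r + 2) * e0 ≤ 1)
    (hPT : PT ≤ C' * ((n : ℝ) ^ (8 * r + 8))⁻¹) (hg : g = ((n : ℝ) ^ (8 * r + 7 + d))⁻¹)
    (hmain : J ≤ S + (2 * r + 2) * (2 * r + 1) *
      (3 * (IE / ((n : ℝ) ^ 2) ^ (2 * r + 2)) +
        2 * (Cm * m) * (Cm * m + 1) * (4 ^ r * (IB + IB' + (Cm * m) ^ (2 * r))) +
        2 * ((n : ℝ) ^ 2) ^ (2 * r + 1) * (e0 + M2 * ((n : ℝ) ^ 2 + (n : ℝ) ^ 4) /
          (n : ℝ) ^ (4 * r + 6)) + (n : ℝ) ^ (4 * r + 6) * (((n : ℝ) ^ 2) ^ (2 * r) *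
          (2 * g * ((n + 1) * (2 * n + 1) ^ d)) + 2 * ((n : ℝ) ^ 2) ^ (2 * r + 1) * PT))) :
    J ≤ S + ((2 * r + 2) * (2 * r + 1) * (3 * MB + 1 + 4 * M2 + 4 * 3 ^ d + 2 * |C'| +
      2 * Cm * (Cm + 1) * (4 ^ r * (1 + Cm ^ (2 * r))))) * m ^ 2 *
      (IB + IB' + m ^ (2 * r)) := by
  have hn1 : (1 : ℝ) ≤ n := by exact_mod_cast hn
  have hn0 : (0 : ℝ) < n := by linarith
  refine hmain.trans ?_
  have a1 : 3 * (IE / ((n : ℝ) ^ 2) ^ (2 * r + 2)) ≤ 3 * MB := by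
    refine mul_le_mul_of_nonneg_left ?_ (by norm_num)
    rw [div_le_iff₀ (by positivity), ← pow_mul]
    exact hIE
  have a3 : 2 * ((n : ℝ) ^ 2) ^ (2 * r + 1) * (e0 + M2 * ((n : ℝ) ^ 2 + (n : ℝ) ^ 4) /
      (n : ℝ) ^ (4 * r + 6)) ≤ 1 + 4 * M2 := by
    have h1 : ((n : ℝ) ^ 2) ^ (2 * r + 1) = (n : ℝ) ^ (4 * r + 2) := by
      rw [← pow_mul]; ring_nf
    rw [h1, mul_add]
    refine add_le_add he0 ?_
    have h2 : (n : ℝ) ^ 2 ≤ (n : ℝ) ^ 4 := pow_le_pow_right₀ hn1 (by norm_num)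
    have h3 : (n : ℝ) ^ (4 * r + 6) = (n : ℝ) ^ (4 * r + 2) * (n : ℝ) ^ 4 := by
      rw [← pow_add]
    rw [h3, mul_div_assoc', div_le_iff₀ (by positivity)]
    have h4 : 0 ≤ (n : ℝ) ^ (4 * r + 2) := by positivity
    have h5 : (n : ℝ) ^ (4 * r + 2) * (n : ℝ) ^ 2 ≤ (n : ℝ) ^ (4 * r + 2) * (n : ℝ) ^ 4 :=
      mul_le_mul_of_nonneg_left h2 h4
    nlinarith
  have a4 : (n : ℝ) ^ (4 * r + 6) * (((n : ℝ) ^ 2) ^ (2 * r) *
      (2 * g * ((n + 1) * (2 * n + 1) ^ d))) ≤ 4 * 3 ^ d := by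
    have h1 : (n : ℝ) + 1 ≤ 2 * n := by linarith
    have h2 : (2 * (n : ℝ) + 1) ^ d ≤ (3 * n) ^ d :=
      pow_le_pow_left₀ (by positivity) (by linarith) d
    have h3 : ((n : ℝ) + 1) * (2 * n + 1) ^ d ≤ (2 * n) * (3 * n) ^ d :=
      mul_le_mul h1 h2 (by positivity) (by positivity)
    have h4 : (n : ℝ) ^ (4 * r + 6) * (((n : ℝ) ^ 2) ^ (2 * r) *
        (2 * g * ((n + 1) * (2 * n + 1) ^ d))) =
        (n : ℝ) ^ (8 * r + 6) * 2 * g * (((n : ℝ) + 1) * (2 * n + 1) ^ d) := by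
      rw [← pow_mul]
      have : (n : ℝ) ^ (8 * r + 6) = (n : ℝ) ^ (4 * r + 6) * (n : ℝ) ^ (2 * (2 * r)) := by
        rw [← pow_add]; ring_nf
      rw [this]
      ring
    have hg0 : 0 < g := by rw [hg]; positivity
    rw [h4]
    calc (n : ℝ) ^ (8 * r + 6) * 2 * g * (((n : ℝ) + 1) * (2 * n + 1) ^ d)
        ≤ (n : ℝ) ^ (8 * r + 6) * 2 * g * ((2 * n) * (3 * n) ^ d) :=
          mul_le_mul_of_nonneg_left h3 (by positivity)
      _ = 4 * 3 ^ d * ((n : ℝ) ^ (8 * r + 7 + d) * g) := by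
          rw [mul_pow]
          have : (n : ℝ) ^ (8 * r + 7 + d) = (n : ℝ) ^ (8 * r + 6) * n * (n : ℝ) ^ d := by
            rw [← pow_succ, ← pow_add]
          rw [this]
          ring
      _ = 4 * 3 ^ d := by
          rw [hg, mul_inv_cancel₀ (by positivity), mul_one]
  have a5 : (n : ℝ) ^ (4 * r + 6) * (2 * ((n : ℝ) ^ 2) ^ (2 * r + 1) * PT) ≤ 2 * |C'| := by
    have h1 : (n : ℝ) ^ (4 * r + 6) * (2 * ((n : ℝ) ^ 2) ^ (2 * r + 1) * PT) =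
        2 * (n : ℝ) ^ (8 * r + 8) * PT := by
      rw [← pow_mul]
      have : (n : ℝ) ^ (8 * r + 8) = (n : ℝ) ^ (4 * r + 6) * (n : ℝ) ^ (2 * (2 * r + 1)) := by
        rw [← pow_add]; ring_nf
      rw [this]
      ring
    rw [h1]
    calc 2 * (n : ℝ) ^ (8 * r + 8) * PT
        ≤ 2 * (n : ℝ) ^ (8 * r + 8) * (C' * ((n : ℝ) ^ (8 * r + 8))⁻¹) :=
          mul_le_mul_of_nonneg_left hPT (by positivity)
      _ = 2 * C' := by field_simp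
      _ ≤ 2 * |C'| := by linarith [le_abs_self C']
  have hS1 : 1 ≤ m ^ 2 * (IB + IB' + m ^ (2 * r)) := by
    have h1 : 1 ≤ m ^ 2 := one_le_pow₀ hm
    have h2 : 1 ≤ m ^ (2 * r) := one_le_pow₀ hm
    nlinarith
  have a2 : 2 * (Cm * m) * (Cm * m + 1) * (4 ^ r * (IB + IB' + (Cm * m) ^ (2 * r))) ≤
      2 * Cm * (Cm + 1) * (4 ^ r * (1 + Cm ^ (2 * r))) * (m ^ 2 * (IB + IB' + m ^ (2 * r))) := by
    have h1 : 2 * (Cm * m) * (Cm * m + 1) ≤ 2 * Cm * (Cm + 1) * m ^ 2 := by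
      nlinarith [mul_pos hCm (show (0 : ℝ) < m by linarith)]
    have h2 : 4 ^ r * (IB + IB' + (Cm * m) ^ (2 * r)) ≤
        (4 ^ r * (1 + Cm ^ (2 * r))) * (IB + IB' + m ^ (2 * r)) := by
      rw [mul_pow, mul_assoc]
      refine mul_le_mul_of_nonneg_left ?_ (by positivity)
      have h3 : 0 ≤ Cm ^ (2 * r) := by positivity
      have h4 : 0 ≤ m ^ (2 * r) := by positivity
      nlinarith [mul_nonneg h3 hIB, mul_nonneg h3 hIB']
    have h5 : 0 ≤ 4 ^ r * (IB + IB' + (Cm * m) ^ (2 * r)) := by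
      have : 0 ≤ (Cm * m) ^ (2 * r) := by rw [pow_mul]; positivity
      positivity
    calc _ ≤ (2 * Cm * (Cm + 1) * m ^ 2) *
          ((4 ^ r * (1 + Cm ^ (2 * r))) * (IB + IB' + m ^ (2 * r))) :=
          mul_le_mul h1 h2 h5 (by positivity)
      _ = _ := by ring
  have hK0 : 0 ≤ 3 * MB + 1 + 4 * M2 + 4 * 3 ^ d + 2 * |C'| := by positivity
  have a6 : 3 * MB + 1 + 4 * M2 + 4 * 3 ^ d + 2 * |C'| ≤
      (3 * MB + 1 + 4 * M2 + 4 * 3 ^ d + 2 * |C'|) * (m ^ 2 * (IB + IB' + m ^ (2 * r))) :=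
    le_mul_of_one_le_right hK0 hS1
  have hc : (0 : ℝ) ≤ (2 * r + 2) * (2 * r + 1) := by positivity
  have a7 : 3 * (IE / ((n : ℝ) ^ 2) ^ (2 * r + 2)) +
        2 * (Cm * m) * (Cm * m + 1) * (4 ^ r * (IB + IB' + (Cm * m) ^ (2 * r))) +
        2 * ((n : ℝ) ^ 2) ^ (2 * r + 1) * (e0 + M2 * ((n : ℝ) ^ 2 + (n : ℝ) ^ 4) /
          (n : ℝ) ^ (4 * r + 6)) + (n : ℝ) ^ (4 * r + 6) * (((n : ℝ) ^ 2) ^ (2 * r) *
          (2 * g * ((n + 1) * (2 * n + 1) ^ d)) + 2 * ((n : ℝ) ^ 2) ^ (2 * r + 1) * PT) ≤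
      (3 * MB + 1 + 4 * M2 + 4 * 3 ^ d + 2 * |C'| +
      2 * Cm * (Cm + 1) * (4 ^ r * (1 + Cm ^ (2 * r)))) * (m ^ 2 *
      (IB + IB' + m ^ (2 * r))) := by
    rw [mul_add ((n : ℝ) ^ (4 * r + 6)), add_mul]
    linarith
  have a8 := mul_le_mul_of_nonneg_left a7 hc
  refine (add_le_add_right a8 S).trans (le_of_eq ?_)
  ring

/-- **U3**: one step of the source. -/
theorem stepV (hd : 0 < d) (hρ : EM ρ) (β R : ℝ) (hL : LawV d ρ β) (hC : CostV d β)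
    (hF : FarV d β) (hN : NSV d ρ β R) : StepV d ρ β R := by
  intro δ hδ0 hδ1 p hp
  obtain ⟨κ, C0, hκ0, hκ1, hC0, hNq⟩ := hN δ hδ0 hδ1
  obtain ⟨r, rfl⟩ : ∃ r, p = r + 1 := ⟨p - 1, by omega⟩
  obtain ⟨C', hN'⟩ := hNq (8 * r + 8)
  obtain ⟨C2, hC2, n2, hcost⟩ := hC δ κ C0 ((8 * r + 7 + d : ℕ) : ℝ) hδ0 hδ1 hκ0 hκ1 hC0
    (by exact_mod_cast Nat.succ_pos _ |>.trans_le (by omega : 1 ≤ 8 * r + 7 + d))
  obtain ⟨C1, c1, hC1, hc1, n1, hfar⟩ := hF δ κ C0 hδ0 hδ1 hκ0 hκ1 hC0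
  obtain ⟨mU, mB, M2, hM2, mZ⟩ := Mom47.mom47 (d := d) (ρ := ρ) hd hρ β R
  obtain ⟨MB, hMB, mB'⟩ := mB (2 * r + 2)
  have hCm : 0 < C1 + C2 := by positivity
  have hcmin : 0 < min c1 (C1 + C2) := lt_min hc1 hCm
  obtain ⟨n3, hn3⟩ := eventually_atTop.1 (ev_exp hcmin hδ0 (4 * r + 2))
  refine ⟨(2 * r + 2) * (2 * r + 1) * (3 * MB + 1 + 4 * M2 + 4 * 3 ^ d + 2 * |C'| +
      2 * (C1 + C2) * ((C1 + C2) + 1) * (4 ^ r * (1 + (C1 + C2) ^ (2 * r)))),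
    max (max n1 n2) (max n3 1), fun h hh n hn k x hx1 hx2 => ?_⟩
  have hnn1 : n1 ≤ n := (le_max_left _ _).trans ((le_max_left _ _).trans hn)
  have hnn2 : n2 ≤ n := (le_max_right _ _).trans ((le_max_left _ _).trans hn)
  have hnn3 : n3 ≤ n := (le_max_left _ _).trans ((le_max_right _ _).trans hn)
  have hn1 : 1 ≤ n := (le_max_right _ _).trans ((le_max_right _ _).trans hn)
  have hnr : (1 : ℝ) ≤ n := by exact_mod_cast hn1
  have hn0 : (0 : ℝ) < n := by linarith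
  set m : ℝ := (mm δ n : ℝ) with hm
  have hm1 : 1 ≤ m := by
    have h1 := Space36.mm_pos (δ := δ) hn1
    rw [hm]
    exact_mod_cast h1
  set Γ : ℝ := (C1 + C2) * m with hΓ
  have hΓ0 : 0 ≤ Γ := by rw [hΓ]; positivity
  set μ := law d ρ with hμ
  set B : Env d → ℝ := fun η => Us β h n k x η - Us β h n k 0 η with hB
  set B' : Env d → ℝ := fun η => Us β h n k (x - 1) η - Us β h n k 0 η with hB'
  have hBm : Measurable B := (mU h n k x).1.sub (mU h n k 0).1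
  have hBm' : Measurable B' := (mU h n k (x - 1)).1.sub (mU h n k 0).1
  have iB : Integrable (fun η => B η ^ (4 * r + 4)) μ := by
    have := (mB' h n hn1 k x).1
    have e : 2 * (2 * r + 2) = 4 * r + 4 := by ring
    rw [e] at this
    exact this
  have iB' : Integrable (fun η => B' η ^ (4 * r + 4)) μ := by
    have := (mB' h n hn1 k (x - 1)).1
    have e : 2 * (2 * r + 2) = 4 * r + 4 := by ring
    rw [e] at this
    exact this
  have m1 : ∫ η, B η ∂μ = ∫ η, B' η ∂μ := by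
    rw [hB, hB']
    simp only
    rw [integral_sub (mU h n k x).2.1 (mU h n k 0).2.1,
      integral_sub (mU h n k (x - 1)).2.1 (mU h n k 0).2.1, (mU h n k x).2.2,
      (mU h n k (x - 1)).2.2]
  set T : Set (Env d) := toMeasurable μ {η | ¬ NSn β h n (mm δ n) κ C0 η} with hT
  have hTm : MeasurableSet T := measurableSet_toMeasurable _ _
  have hTP : μ.real T ≤ C' * ((n : ℝ) ^ (8 * r + 8))⁻¹ := by
    have h1 : μ.real T = μ.real {η | ¬ NSn β h n (mm δ n) κ C0 η} := by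
      rw [hT]
      unfold Measure.real
      rw [measure_toMeasurable]
    rw [h1]
    refine (hN' h hh n hn1).trans (le_of_eq ?_)
    rw [Real.rpow_neg hn0.le, Real.rpow_natCast]
  set g : ℝ := (n : ℝ) ^ (-(((8 * r + 7 + d : ℕ) : ℝ))) with hg
  have hg' : g = ((n : ℝ) ^ (8 * r + 7 + d))⁻¹ := by
    rw [hg, Real.rpow_neg hn0.le, Real.rpow_natCast]
  have hg0 : 0 < g := by rw [hg']; positivity
  set s : ℝ := (n : ℝ) ^ (4 * r + 6) with hs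
  have hs0 : 0 < s := by rw [hs]; positivity
  have hnA : (0 : ℝ) < (n : ℝ) ^ 2 := by positivity
  have hF1 : ∀ b : ℝ, ∫ a in Set.Ioc (-((n : ℝ) ^ 2)) ((n : ℝ) ^ 2),
      a ^ (2 * r) * max (b - a) 0 ≤ PA r ((n : ℝ) ^ 2) b := by
    intro b
    have h1 := (Pol92.pol92 r hnA b).1
    unfold Pol92.FA at h1
    rw [intervalIntegral.integral_of_le (by linarith)] at h1
    exact h1
  have hF2 : ∀ b : ℝ, PA r ((n : ℝ) ^ 2) b - 3 * (b ^ (4 * r + 4) /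
      ((n : ℝ) ^ 2) ^ (2 * r + 2)) ≤ ∫ a in Set.Ioc (-((n : ℝ) ^ 2)) ((n : ℝ) ^ 2),
      a ^ (2 * r) * max (b - a) 0 := by
    intro b
    have h1 := (Pol92.pol92 r hnA b).2
    unfold Pol92.FA at h1
    rw [intervalIntegral.integral_of_le (by linarith)] at h1
    exact h1
  have hD : ∀ a, |a| ≤ (n : ℝ) ^ 2 → ∫ η, max (B η - a) 0 ∂μ - ∫ η, max (B' η - a) 0 ∂μ ≤
      ∫ η, G B B' Γ (Real.exp (-(c1 * m)) + Real.exp (-Γ) +
        M2 * ((n : ℝ) ^ 2 + (n : ℝ) ^ 4) / s) s (BadS β h n k x g) T a η ∂μ := by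
    intro a ha
    have z1 := mZ h hh n hn1 k x a
    have z2 := mZ h hh n hn1 k (x - 1) a
    have ha2 : a ^ 2 ≤ (n : ℝ) ^ 4 := by
      have h1 : |a| ^ 2 ≤ ((n : ℝ) ^ 2) ^ 2 := pow_le_pow_left₀ (abs_nonneg a) ha 2
      rw [sq_abs] at h1
      calc a ^ 2 ≤ ((n : ℝ) ^ 2) ^ 2 := h1
        _ = (n : ℝ) ^ 4 := by ring
    refine level hd hρ β h n 0 k x a (hL h k x a) hΓ0 (Real.exp_pos _).le hs0 hTm ?_ ?_ ?_ ?_
    · simpa using z1.2.1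
    · simpa using z2.2.1
    · simp only [sub_zero]
      have h1 := z1.2.2
      have h2 := z2.2.2
      have h3 : M2 * ((n : ℝ) ^ 2 + a ^ 2) ≤ M2 * ((n : ℝ) ^ 2 + (n : ℝ) ^ 4) :=
        mul_le_mul_of_nonneg_left (by linarith) hM2.le
      linarith
    · intro η ξ hη hGd
      have hNS : NSn β h n (mm δ n) κ C0 η := by
        by_contra hcon
        exact hη (subset_toMeasurable _ _ hcon)
      by_cases hnear : |a - (Us β h n k x η - Us β h n k 0 η)| < Γ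
      · rw [if_pos hnear, mul_one]
        have h1 := hcost h n hnn2 k x hx1 hx2 a η ξ hNS hGd
        have h2 : C2 * m ≤ Γ := by
          rw [hΓ]
          have : 0 ≤ C1 * m := by positivity
          linarith
        have h3 := Real.exp_pos (-(c1 * m))
        rw [← hm] at h1
        linarith
      · rw [if_neg hnear, mul_zero, zero_add]
        have h2 : C1 * m ≤ Γ := by
          rw [hΓ]
          have : 0 ≤ C2 * m := by positivity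
          linarith
        exact hfar h n hnn1 k x hx1 hx2 a η ξ hNS (by
          rw [← hm]
          exact h2.trans (not_lt.1 hnear))
  have hV0 : 0 ≤ 2 * g * (((n : ℝ) + 1) * (2 * n + 1) ^ d) := by positivity
  have hee : 0 ≤ Real.exp (-(c1 * m)) + Real.exp (-Γ) +
        M2 * ((n : ℝ) ^ 2 + (n : ℝ) ^ 4) / s := by positivity
  have hmain := abs60 μ hBm hBm' r iB iB' m1 hnA hΓ0 hee hs0.le hV0
    (Bad := BadS β h n k x g) (Lev14.measurableSet_bad14 β h n k x g)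
    (fun η => Lev14.badlev14 β h n k x hg0 η) hTm hF1 hF2 hD
  have hIB : 0 ≤ ∫ η, B η ^ (2 * r) ∂μ := integral_nonneg fun η => by
    change 0 ≤ B η ^ (2 * r)
    rw [pow_mul]
    positivity
  have hIB' : 0 ≤ ∫ η, B' η ^ (2 * r) ∂μ := integral_nonneg fun η => by
    change 0 ≤ B' η ^ (2 * r)
    rw [pow_mul]
    positivity
  have hIE : ∫ η, B η ^ (4 * r + 4) ∂μ ≤ MB * (n : ℝ) ^ (2 * (2 * r + 2)) := by
    have := (mB' h n hn1 k x).2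
    have e : 2 * (2 * r + 2) = 4 * r + 4 := by ring
    rw [e] at this ⊢
    exact this
  have he0 : 2 * (n : ℝ) ^ (4 * r + 2) * (Real.exp (-(c1 * m)) + Real.exp (-Γ)) ≤ 1 := by
    have h1 := hn3 n hnn3
    have hmn := le_mm δ n
    rw [← hm] at hmn
    have hnd : 0 ≤ (n : ℝ) ^ δ := Real.rpow_nonneg hn0.le _
    have h2 : Real.exp (-(c1 * m)) ≤ Real.exp (-(min c1 (C1 + C2) * (n : ℝ) ^ δ)) := by
      refine Real.exp_le_exp.2 (neg_le_neg ?_)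
      exact mul_le_mul (min_le_left _ _) hmn hnd hc1.le
    have h3 : Real.exp (-Γ) ≤ Real.exp (-(min c1 (C1 + C2) * (n : ℝ) ^ δ)) := by
      refine Real.exp_le_exp.2 (neg_le_neg ?_)
      rw [hΓ]
      exact mul_le_mul (min_le_right _ _) hmn hnd hCm.le
    have h4 : 0 ≤ 2 * (n : ℝ) ^ (4 * r + 2) := by positivity
    calc 2 * (n : ℝ) ^ (4 * r + 2) * (Real.exp (-(c1 * m)) + Real.exp (-Γ))
        ≤ 2 * (n : ℝ) ^ (4 * r + 2) * (Real.exp (-(min c1 (C1 + C2) * (n : ℝ) ^ δ)) +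
          Real.exp (-(min c1 (C1 + C2) * (n : ℝ) ^ δ))) :=
          mul_le_mul_of_nonneg_left (add_le_add h2 h3) h4
      _ = 4 * (n : ℝ) ^ (4 * r + 2) * Real.exp (-(min c1 (C1 + C2) * (n : ℝ) ^ δ)) := by ring
      _ ≤ 1 := h1
  have hfin := num_fin r d n hn1 hm1 hCm hIB hIB' hMB hM2 hIE he0 hTP hg' hmain
  have e1 : 2 * (r + 1) = 2 * r + 2 := by ring
  unfold Mo
  rw [e1, Nat.add_sub_cancel]
  exact hfin

end Pool.Agent.W_7d29a1_V.Step60
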