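import Pool.Agent.W_7d29a1_V.NuLow34

/-!
The fluctuations of the free energy are in probability at most the square root of the wandering,
for the wandering exponent of the problem, for every tilt, around every direction.
-/

namespace Pool.Agent.W_7d29a1_V

open MeasureTheory ProbabilityTheory Filter Topology Pool.Agent.W_MP_7d29a1_pr
  Pool.Agent.W_7d29a1_h46 Pool.Agent.W_7d29a1_h46u Pool.Agent.W_7d29a1_D2
  Pool.Agent.W_7d29a1_D2.B35 Pool.Agent.W_7d29a1_V.NuLow34

variable {d : ℕ} {ρ : Measure ℝ} [IsProbabilityMeasure ρ]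

/-- If two functions of disjoint sets of sites are close, then the first is nearly constant. -/
lemma indep_point34 (S : Set (ℕ × Site d)) {F G : Env d → ℝ} (hF : Measurable F)
    (hG : Measurable G) (hFS : DependsOn F S) (hGS : DependsOn G Sᶜ) (t : ℝ) :
    ∃ m : ℝ, (law d ρ).real {η | t < |F η - m|} ≤ (law d ρ).real {η | t < |F η - G η|} := by
  classical
  have hσ : Function.Injective (fun p : ℕ × Site d =>
      if p ∈ S then (Sum.inl p : (ℕ × Site d) ⊕ (ℕ × Site d)) else Sum.inr p) := by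
    intro p q h
    simp only at h
    split_ifs at h <;> simp_all
  have hmp : MeasurePreserving (fun w : Env d × Env d => fun p => Sum.elim w.1 w.2
      (if p ∈ S then (Sum.inl p : (ℕ × Site d) ⊕ (ℕ × Site d)) else Sum.inr p))
      ((law d ρ).prod (law d ρ)) (law d ρ) := LawU_elim hσ
  set A : Set (Env d × Env d) := {w | t < |F w.1 - G w.2|} with hA
  have hAm : MeasurableSet A :=
    measurableSet_lt measurable_const
      (((hF.comp measurable_fst).sub (hG.comp measurable_snd)).abs)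
  have hBm : MeasurableSet {η : Env d | t < |F η - G η|} :=
    measurableSet_lt measurable_const ((hF.sub hG).abs)
  have hpre : (fun w : Env d × Env d => fun p => Sum.elim w.1 w.2
      (if p ∈ S then (Sum.inl p : (ℕ × Site d) ⊕ (ℕ × Site d)) else Sum.inr p)) ⁻¹'
      {η : Env d | t < |F η - G η|} = A := by
    ext w
    have e1 : F (fun p => Sum.elim w.1 w.2
        (if p ∈ S then (Sum.inl p : (ℕ × Site d) ⊕ (ℕ × Site d)) else Sum.inr p)) = F w.1 :=
      hFS fun p hp => by rw [if_pos hp]; rfl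
    have e2 : G (fun p => Sum.elim w.1 w.2
        (if p ∈ S then (Sum.inl p : (ℕ × Site d) ⊕ (ℕ × Site d)) else Sum.inr p)) = G w.2 :=
      hGS fun p hp => by rw [if_neg hp]; rfl
    change t < |F _ - G _| ↔ t < |F w.1 - G w.2|
    rw [e1, e2]
  have hmass : ((law d ρ).prod (law d ρ)) A = (law d ρ) {η : Env d | t < |F η - G η|} := by
    rw [← hpre]
    exact hmp.measure_preimage hBm.nullMeasurableSet
  rw [Measure.prod_apply_symm hAm] at hmass
  obtain ⟨y, hy⟩ := exists_le_lintegral (μ := law d ρ)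
    (f := fun y => (law d ρ) ((fun x => (x, y)) ⁻¹' A))
    (measurable_measure_prodMk_right hAm).aemeasurable
  rw [hmass] at hy
  exact ⟨G y, ENNReal.toReal_mono (measure_ne_top _ _) hy⟩

/-- One scale: the free energy is nearly constant up to the difference of two sources. -/
lemma core_typ34 (hd : 0 < d) {β r s : ℝ} {n : ℕ} (h v : Vec d) (k : Fin d) {x : ℕ}
    (hx : r < x) :
    ∃ m : ℝ, ∀ κ : ℝ, κ ≤ 1 / 2 →
      (law d ρ).real {η | ¬ (1 - κ ≤ PolT β h η (tube d n v r))} ≤ κ →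
      (law d ρ).real {η | s < |Us β h n k x η - Us β h n k 0 η|} ≤ κ →
      (law d ρ).real {η | s + 2 * Real.log 2 < |X β h η n - m|} ≤ 4 * κ := by
  classical
  set T := tube d n v r with hT
  set V := VT d n 0 v r with hV
  have hsitesV : ∀ t ∈ T, sites t ⊆ V := by
    intro t ht p hp
    obtain ⟨i, _, rfl⟩ := Finset.mem_image.1 hp
    rw [hV, siteOf_mem_VT]
    exact ⟨by omega, ht _ i.2⟩
  set F : Env d → ℝ := fun η => Real.log (ZT β h η T) with hF
  set G : Env d → ℝ := fun η => Real.log (ZT β h (sh 0 (src k x) η) T) with hG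
  have hFm : Measurable F := Real.measurable_log.comp (measurable_ZT β h T)
  have hGm : Measurable G :=
    Real.measurable_log.comp ((measurable_ZT β h T).comp (measurable_sh 0 (src k x)))
  have hFS : DependsOn F (V : Set (ℕ × Site d)) := by
    intro η η' hη
    have : ZT β h η T = ZT β h η' T := ZT_congr fun t ht p hp =>
      hη p (Finset.mem_coe.2 (hsitesV t ht hp))
    simp only [hF, this]
  have hGS : DependsOn G (V : Set (ℕ × Site d))ᶜ := by
    intro η η' hη
    have : ZT β h (sh 0 (src k x) η) T = ZT β h (sh 0 (src k x) η') T := by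
      refine ZT_congr fun t ht p hp => ?_
      have hpV := hsitesV t ht hp
      unfold sh
      rw [Nat.add_zero]
      refine hη _ fun hpB => ?_
      have h1 := (Finset.mem_filter.1 (Finset.mem_coe.1 hpB)).2.2
      have h2 := (Finset.mem_filter.1 hpV).2.2
      have h3 := (abs_apply_le_norm (emb (p.2 + src k x) - ((p.1 : ℕ) : ℝ) • v) k).trans h1
      have h4 := (abs_apply_le_norm (emb p.2 - ((p.1 : ℕ) : ℝ) • v) k).trans h2
      rw [PiLp.sub_apply, emb_src_coord] at h3
      rw [PiLp.sub_apply] at h4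
      rw [abs_le] at h3 h4
      linarith [h3.2, h4.1]
    simp only [hG, this]
  obtain ⟨m, hm⟩ := indep_point34 (ρ := ρ) (V : Set (ℕ × Site d)) hFm hGm hFS hGS
    (s + Real.log 2)
  refine ⟨m, fun κ hκ hP hQ => ?_⟩
  have hSm : MeasurableSet {η : Env d | ¬ (1 - κ ≤ PolT β h η T)} :=
    (measurableSet_le measurable_const (measurable_PolT β h T)).compl
  have hshift : (law d ρ).real ((sh 0 (src k x)) ⁻¹' {η | ¬ (1 - κ ≤ PolT β h η T)}) ≤ κ := by
    rw [(mp_sh (d := d) (ρ := ρ) 0 (src k x)).measureReal_preimage hSm.nullMeasurableSet]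
    exact hP
  have hbad : {η : Env d | s + Real.log 2 < |F η - G η|} ⊆
      ({η | ¬ (1 - κ ≤ PolT β h η T)} ∪
        (sh 0 (src k x)) ⁻¹' {η | ¬ (1 - κ ≤ PolT β h η T)}) ∪
        {η | s < |Us β h n k x η - Us β h n k 0 η|} := by
    intro η hη
    by_contra hcon
    rw [Set.mem_union, Set.mem_union, not_or, not_or] at hcon
    have h1 : 1 - κ ≤ PolT β h η T := not_not.1 hcon.1.1
    have h2 : 1 - κ ≤ PolT β h (sh 0 (src k x) η) T := not_not.1 hcon.1.2
    have h3 : |Us β h n k x η - Us β h n k 0 η| ≤ s := not_lt.1 hcon.2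
    have h4 := log_tube_near hd (T := T) (n := n) (β := β) (h := h) (η := η) (by linarith)
    have h5 := log_tube_near hd (T := T) (n := n) (β := β) (h := h)
      (η := sh 0 (src k x) η) (by linarith)
    rw [us_zero] at h3
    unfold Us at h3
    rw [abs_le] at h3
    have h6 : |F η - G η| ≤ s + Real.log 2 := by
      simp only [hF, hG]
      rw [abs_le]
      constructor
      · linarith [h4.1, h5.2, h3.2]
      · linarith [h4.2, h5.1, h3.1]
    exact absurd hη (not_lt.2 h6)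
  have hmain : {η : Env d | s + 2 * Real.log 2 < |X β h η n - m|} ⊆
      {η | ¬ (1 - κ ≤ PolT β h η T)} ∪ {η | s + Real.log 2 < |F η - m|} := by
    intro η hη
    by_contra hcon
    rw [Set.mem_union, not_or] at hcon
    have h1 : 1 - κ ≤ PolT β h η T := not_not.1 hcon.1
    have h2 : |F η - m| ≤ s + Real.log 2 := not_lt.1 hcon.2
    have h4 := log_tube_near hd (T := T) (n := n) (β := β) (h := h) (η := η) (by linarith)
    have hl : 0 < Real.log 2 := Real.log_pos (by norm_num)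
    have h5 : |X β h η n - m| ≤ s + 2 * Real.log 2 := by
      simp only [hF] at h2
      rw [abs_le] at h2 ⊢
      constructor
      · linarith [h4.2, h2.1]
      · linarith [h4.1, h2.2]
    exact absurd hη (not_lt.2 h5)
  have e1 := measureReal_mono (μ := law d ρ) hbad
  have e2 := measureReal_union_le (μ := law d ρ) ({η | ¬ (1 - κ ≤ PolT β h η T)} ∪
      (sh 0 (src k x)) ⁻¹' {η | ¬ (1 - κ ≤ PolT β h η T)})
      {η | s < |Us β h n k x η - Us β h n k 0 η|}
  have e3 := measureReal_union_le (μ := law d ρ) {η | ¬ (1 - κ ≤ PolT β h η T)}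
      ((sh 0 (src k x)) ⁻¹' {η | ¬ (1 - κ ≤ PolT β h η T)})
  have e4 := measureReal_mono (μ := law d ρ) hmain
  have e5 := measureReal_union_le (μ := law d ρ) {η | ¬ (1 - κ ≤ PolT β h η T)}
      {η | s + Real.log 2 < |F η - m|}
  linarith

lemma cheb_X34 (hd : 0 < d) (hρ : EM ρ) (β : ℝ) (h : Vec d) :
    ∃ C : ℝ, 0 ≤ C ∧ ∀ n : ℕ, 1 ≤ n → ∀ t : ℝ, 0 < t →
      (law d ρ).real {η | t ≤ |X β h η n - A ρ β h n|} ≤ C * n / t ^ 2 := by
  obtain ⟨C, hC0, hC⟩ := momU hd hρ β 2 (ρ := ρ)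
  refine ⟨C, hC0, fun n hn t ht => ?_⟩
  obtain ⟨hI, hM⟩ := hC h n hn
  have h1 := mul_meas_ge_le_integral_of_nonneg (μ := law d ρ)
    (f := fun η => |X β h η n - A ρ β h n| ^ 2)
    (Filter.Eventually.of_forall fun η => sq_nonneg _) hI (t ^ 2)
  have h2 : (law d ρ).real {η | t ≤ |X β h η n - A ρ β h n|} ≤
      (law d ρ).real {η | t ^ 2 ≤ |X β h η n - A ρ β h n| ^ 2} := by
    refine measureReal_mono ?_
    intro η hη
    change t ^ 2 ≤ |X β h η n - A ρ β h n| ^ 2
    exact pow_le_pow_left₀ ht.le hη 2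
  have h3 : (n : ℝ) ^ ((1 / 2 : ℝ) * ((2 : ℕ) : ℝ)) = n := by
    rw [show (1 / 2 : ℝ) * ((2 : ℕ) : ℝ) = 1 by norm_num, Real.rpow_one]
  rw [h3] at hM
  rw [le_div_iff₀ (by positivity)]
  calc (law d ρ).real {η | t ≤ |X β h η n - A ρ β h n|} * t ^ 2
      ≤ (law d ρ).real {η | t ^ 2 ≤ |X β h η n - A ρ β h n| ^ 2} * t ^ 2 :=
        mul_le_mul_of_nonneg_right h2 (by positivity)
    _ = t ^ 2 * (law d ρ).real {η | t ^ 2 ≤ |X β h η n - A ρ β h n| ^ 2} := mul_comm _ _
    _ ≤ _ := h1.trans hM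

/-- From convergence in probability of `X` with respect to the law of the environment. -/
lemma typ_transfer34 {Ω : Type*} [MeasurableSpace Ω] {μ : Measure Ω} [IsProbabilityMeasure μ]
    {ω : ℕ × Site d → Ω → ℝ} (hd : 0 < d) (hω : IID μ ρ ω) {β : ℝ} {h : Vec d} {a : ℝ}
    {m : ℕ → ℝ}
    (H : ∀ ε : ℝ, 0 < ε → ∀ δ : ℝ, 0 < δ → ∃ N : ℕ, ∀ n : ℕ, N ≤ n →
      (law d ρ).real {η | ε * (n : ℝ) ^ (a / 2) ≤ |X β h η n - m n|} ≤ δ) :
    ∃ m' : ℕ → ℝ, ∀ ε : ℝ, 0 < ε → Tendsto (fun n : ℕ => μ.real {x | ε * (n : ℝ) ^ (a / 2) ≤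
      |Real.log (Zn β h (fun p => ω p x) n) - m' n|}) atTop (𝓝 0) := by
  refine ⟨fun n => m n - Real.log ((2 * d : ℝ) ^ n), fun ε hε => ?_⟩
  have hset : ∀ n : ℕ, μ.real {x | ε * (n : ℝ) ^ (a / 2) ≤
      |Real.log (Zn β h (fun p => ω p x) n) - (m n - Real.log ((2 * d : ℝ) ^ n))|} =
      (law d ρ).real {η | ε * (n : ℝ) ^ (a / 2) ≤ |X β h η n - m n|} := by
    intro n
    have hSm : MeasurableSet {η : Env d | ε * (n : ℝ) ^ (a / 2) ≤ |X β h η n - m n|} :=
      measurableSet_le measurable_const (((measurable_X β h n).sub_const _).abs)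
    rw [← (mp_env hω).measureReal_preimage hSm.nullMeasurableSet]
    congr 1
    ext x
    simp only [Set.mem_ofPred_eq, Set.mem_preimage]
    rw [StrA_log hd, sub_sub_sub_cancel_right]
  simp only [hset]
  rw [Metric.tendsto_atTop]
  intro δ hδ
  obtain ⟨N, hN⟩ := H ε hε (δ / 2) (by linarith)
  refine ⟨N, fun n hn => ?_⟩
  rw [Real.dist_eq, sub_zero, abs_of_nonneg measureReal_nonneg]
  exact lt_of_le_of_lt (hN n hn) (by linarith)

/-- `χ ≤ ν / 2` in probability, for the wandering exponent of the problem: if `ν(h, v) < a` then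
`(log Z_n - m_n) / n ^ (a / 2) → 0` in probability, for every tilt and every direction. -/
theorem typ34 {Ω : Type*} [MeasurableSpace Ω] {μ : Measure Ω} [IsProbabilityMeasure μ]
    {ω : ℕ × Site d → Ω → ℝ} (hd : 0 < d) (hω : IID μ ρ ω) (hρ : EM ρ) {β : ℝ} {h : Vec d}
    (hS : SpaceV d ρ β ‖h‖) {v : Vec d} {a : ℝ} (ha : nuT μ β ω h v < a) :
    ∃ m : ℕ → ℝ, ∀ ε : ℝ, 0 < ε → Tendsto (fun n : ℕ => μ.real {x | ε * (n : ℝ) ^ (a / 2) ≤
      |Real.log (Zn β h (fun p => ω p x) n) - m n|}) atTop (𝓝 0) := by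
  have h0 : 0 ≤ nuT μ β ω h v := Real.sInf_nonneg fun b hb => hb.1.le
  rcases lt_or_ge 1 a with ha1 | ha1
  · -- `a > 1`: concentration
    obtain ⟨C, hC0, hC⟩ := cheb_X34 hd hρ β h (ρ := ρ)
    refine typ_transfer34 hd hω (m := fun n => A ρ β h n) fun ε hε δ hδ => ?_
    have ht : Tendsto (fun n : ℕ => (n : ℝ) ^ (a - 1)) atTop atTop :=
      (tendsto_rpow_atTop (by linarith)).comp tendsto_natCast_atTop_atTop
    obtain ⟨N, hN⟩ := Filter.eventually_atTop.1 ((ht.eventually_ge_atTop (C / ε ^ 2 / δ)).and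
      (eventually_ge_atTop 1))
    refine ⟨N, fun n hn => ?_⟩
    obtain ⟨h1, h2⟩ := hN n hn
    have hn0 : (0 : ℝ) < n := by exact_mod_cast h2
    have hp : 0 < (n : ℝ) ^ (a / 2) := Real.rpow_pos_of_pos hn0 _
    refine (hC n h2 _ (mul_pos hε hp)).trans ?_
    have e1 : (ε * (n : ℝ) ^ (a / 2)) ^ 2 = ε ^ 2 * ((n : ℝ) ^ (a - 1) * n) := by
      rw [mul_pow]
      congr 1
      have e2 : (n : ℝ) ^ (a - 1) * n = (n : ℝ) ^ a := by
        nth_rewrite 2 [← Real.rpow_one (n : ℝ)]
        rw [← Real.rpow_add hn0, sub_add_cancel]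
      rw [e2, ← Real.rpow_natCast ((n : ℝ) ^ (a / 2)) 2, ← Real.rpow_mul hn0.le]
      congr 1
      push_cast
      ring
    rw [e1, div_le_iff₀ (by positivity)]
    have h3 : C / ε ^ 2 ≤ (n : ℝ) ^ (a - 1) * δ := by
      rwa [div_le_iff₀ hδ] at h1
    rw [div_le_iff₀ (by positivity)] at h3
    calc C * n ≤ (n : ℝ) ^ (a - 1) * δ * ε ^ 2 * n :=
          mul_le_mul_of_nonneg_right h3 hn0.le
      _ = _ := by ring
  · -- `a ≤ 1`
    obtain ⟨b, hb1, hb2⟩ := exists_between ha
    have hb0 : 0 < b := lt_of_le_of_lt h0 hb1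
    have ha0 : 0 < a := hb0.trans hb2
    set k : Fin d := ⟨0, hd⟩
    set e : ℝ := (a - b) / 4 with he
    have he0 : 0 < e := by
      rw [he]
      linarith
    obtain ⟨C, hC⟩ := hS e he0 1
    have hx : ∀ n : ℕ, (n : ℝ) ^ b < ((⌊(n : ℝ) ^ b⌋₊ + 1 : ℕ) : ℝ) := by
      intro n
      push_cast
      exact Nat.lt_floor_add_one _
    choose m hm using fun n : ℕ => core_typ34 (ρ := ρ) hd (β := β) (r := (n : ℝ) ^ b)
      (s := (n : ℝ) ^ ((a + b) / 4)) (n := n) h v k (hx n)
    refine typ_transfer34 hd hω (m := m) fun ε hε δ hδ => ?_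
    set κ : ℝ := min (1 / 2) (δ / 4) with hκd
    have hκ : 0 < κ := lt_min (by norm_num) (by positivity)
    have hκ2 : κ ≤ 1 / 2 := min_le_left _ _
    have hκδ : 4 * κ ≤ δ := by
      have := min_le_right (1 / 2 : ℝ) (δ / 4)
      rw [← hκd] at this
      linarith
    obtain ⟨n₀, hn₀⟩ := exists_n0T hd hω.meas (β := β) (h := h) (v := v) hb1 hκ
    have ht1 : Tendsto (fun n : ℕ => (n : ℝ) ^ e) atTop atTop :=
      (tendsto_rpow_atTop he0).comp tendsto_natCast_atTop_atTop
    obtain ⟨N, hN⟩ := Filter.eventually_atTop.1 (((ht1.eventually_ge_atTop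
      (3 * (|C| + 1) / κ)).and (ht1.eventually_gt_atTop ((1 + 2 * Real.log 2) / ε))).and
      (eventually_ge_atTop (max n₀ 1)))
    refine ⟨N, fun n hn => ?_⟩
    obtain ⟨⟨h1, h2⟩, h3⟩ := hN n hn
    have hn0 : n₀ ≤ n := (le_max_left _ _).trans h3
    have hn1 : 1 ≤ n := (le_max_right _ _).trans h3
    have hn1r : (1 : ℝ) ≤ n := by exact_mod_cast hn1
    have hn0r : (0 : ℝ) < n := by linarith
    have hP : (law d ρ).real {η | ¬ (1 - κ ≤ PolT β h η (tube d n v ((n : ℝ) ^ b)))} ≤ κ := by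
      have hSm : MeasurableSet {η : Env d | ¬ (1 - κ ≤
          PolT β h η (tube d n v ((n : ℝ) ^ b)))} :=
        (measurableSet_le measurable_const (measurable_PolT β h _)).compl
      rw [← (mp_env hω).measureReal_preimage hSm.nullMeasurableSet]
      exact hn₀ n hn0
    set r : ℝ := (n : ℝ) ^ b with hr
    have hr1 : 1 ≤ r := Real.one_le_rpow hn1r hb0.le
    have hrn : r ≤ n := by
      rw [hr]
      calc (n : ℝ) ^ b ≤ (n : ℝ) ^ (1 : ℝ) :=
            Real.rpow_le_rpow_of_exponent_le hn1r (by linarith)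
        _ = n := Real.rpow_one _
    set x : ℕ := ⌊r⌋₊ + 1 with hxd
    have hxr : (x : ℝ) ≤ r + 1 := by
      rw [hxd]
      push_cast
      linarith [Nat.floor_le (show (0 : ℝ) ≤ r by linarith)]
    have hx5 : x ≤ 5 * n := by
      have : (x : ℝ) ≤ (5 * n : ℕ) := by
        push_cast
        linarith
      exact_mod_cast this
    have hMo := hC h le_rfl n hn1 k x hx5
    rw [pow_one] at hMo
    set s : ℝ := (n : ℝ) ^ ((a + b) / 4) with hs
    have hs0 : 0 < s := Real.rpow_pos_of_pos hn0r _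
    have hs1 : 1 ≤ s := Real.one_le_rpow hn1r (by positivity)
    have hne : 0 < (n : ℝ) ^ e := Real.rpow_pos_of_pos hn0r _
    have hs2 : s ^ 2 = r * (n : ℝ) ^ e * (n : ℝ) ^ e := by
      rw [hs, hr, ← Real.rpow_natCast ((n : ℝ) ^ ((a + b) / 4)) 2, ← Real.rpow_mul hn0r.le,
        ← Real.rpow_add hn0r, ← Real.rpow_add hn0r]
      congr 1
      rw [he]
      push_cast
      ring
    have hQ : (law d ρ).real {η | s < |Us β h n k x η - Us β h n k 0 η|} ≤ κ := by
      refine (us_cheb hd hρ β h hn1 k x hs0).trans ?_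
      rw [div_le_iff₀ (by positivity)]
      have e1 : C * ((x : ℝ) + 1) * (n : ℝ) ^ e ≤ (|C| + 1) * (3 * r) * (n : ℝ) ^ e := by
        apply mul_le_mul_of_nonneg_right _ hne.le
        apply mul_le_mul
        · linarith [le_abs_self C]
        · linarith
        · positivity
        · positivity
      refine (hMo.trans e1).trans ?_
      rw [hs2]
      rw [div_le_iff₀ hκ] at h1
      calc (|C| + 1) * (3 * r) * (n : ℝ) ^ e = 3 * (|C| + 1) * (r * (n : ℝ) ^ e) := by ring
        _ ≤ (n : ℝ) ^ e * κ * (r * (n : ℝ) ^ e) :=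
            mul_le_mul_of_nonneg_right h1 (by positivity)
        _ = _ := by ring
    refine le_trans (measureReal_mono ?_) ((hm n κ hκ2 hP hQ).trans hκδ)
    intro η hη
    have hη' : ε * (n : ℝ) ^ (a / 2) ≤ |X β h η n - m n| := hη
    change s + 2 * Real.log 2 < |X β h η n - m n|
    refine lt_of_lt_of_le ?_ hη'
    have e2 : (n : ℝ) ^ (a / 2) = s * (n : ℝ) ^ e := by
      rw [hs, ← Real.rpow_add hn0r]
      congr 1
      rw [he]
      ring
    have hl : 0 < Real.log 2 := Real.log_pos (by norm_num)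
    rw [div_lt_iff₀ hε] at h2
    rw [e2]
    calc s + 2 * Real.log 2 ≤ s * (1 + 2 * Real.log 2) := by nlinarith
      _ < s * ((n : ℝ) ^ e * ε) := mul_lt_mul_of_pos_left h2 hs0
      _ = _ := by ring

end Pool.Agent.W_7d29a1_V
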