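import Pool.Agent.W_7d29a1_V.VMainS53
import Pool.Agent.W_7d29a1_V.Step60
import Pool.Agent.W_7d29a1_V.Far27
import Pool.Agent.W_7d29a1_V.CostV62
import Pool.Agent.W_7d29a1_V.MeanSteep16
import Pool.Agent.W_7d29a1_V.MeanLip74
import Pool.Agent.W_7d29a1_V.Law2
import Pool.Agent.W_7d29a1_V.Space36
import Pool.Agent.W_7d29a1_V.NuLow34
import Pool.Agent.W_7d29a1_V.Typ34
import Pool.Agent.W_7d29a1_V.AeS70
import Pool.Agent.W_7d29a1_V.Ns46

/-!
The exponents in every dimension: the chain of the leaves.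
-/

namespace Pool.Agent.W_7d29a1_V

open MeasureTheory ProbabilityTheory Filter Topology Pool.Agent.W_MP_7d29a1_pr
  Pool.Agent.W_7d29a1_h46 Pool.Agent.W_7d29a1_h46u Pool.Agent.W_7d29a1_D2

variable {d : ℕ} {ρ : Measure ℝ} [IsProbabilityMeasure ρ]

/-- No steep places. -/
theorem nsV46 (hd : 0 < d) (hρ : EM ρ) (β R : ℝ) : NSV d ρ β R :=
  Ns46.nsV46 hd β R (ConcV16.concV hd hρ β R)
    (MeanLip74.meanLipV hd β R (ConcV16.concV hd hρ β R)) (meanSteepV hd hρ β R)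

/-- **The spatial fluctuations are at most diffusive, in every dimension.** -/
theorem spaceV46 (hd : 0 < d) (hρ : EM ρ) (β R : ℝ) : SpaceV d ρ β R :=
  Space36.spaceV hd hρ β R (Step60.stepV hd hρ β R (Law2.lawV β) (CostV62.costV hd β)
    (Far27.farV hd β) (nsV46 hd hρ β R)) (nsV46 hd hρ β R)

variable {Ω : Type*} [MeasurableSpace Ω] {μ : Measure Ω} [IsProbabilityMeasure μ]
  {ω : ℕ × Site d → Ω → ℝ}

/-- `2 χ* ≤ ν*` at every tilt and every direction. -/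
theorem V_main46 (hd : 0 < d) (hω : IID μ ρ ω) (hρ : EM ρ) (β : ℝ) (h v : Vec d) :
    2 * chiF μ β ω h ≤ nuS μ β ω h v :=
  V_main_of_space hd hω hρ β (fun R => spaceV46 hd hρ β R) h v

/-- The exponents at a tilt with an upper power bound of the free energy. -/
theorem AE_main46 (hd : 0 < d) (hω : IID μ ρ ω) (hρ : EM ρ) {β : ℝ} {h v : Vec d} {p : ℝ}
    (hp : 1 < p) (hsub : ∀ k : Vec d, lam ρ β h + inner ℝ v k ≤ lam ρ β (h + k))
    (hU : UpG (lam ρ β) h v p) :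
    nuS μ β ω h v ≤ 2 / (p + 1) ∧ chiF μ β ω h ≤ 1 / (p + 1) :=
  aeS70 hd hω hρ hp (spaceV46 hd hρ β (‖h‖ + 1)) hsub hU

/-- `1 / (d + 1) ≤ ν` at every tilt and every direction. -/
theorem N_main46 (hd : 0 < d) (hω : IID μ ρ ω) (hnc : ∀ c : ℝ, ρ {c} ≠ 1) (hρ : EM ρ) {β : ℝ}
    (hβ : 0 < β) (h v : Vec d) : 1 / ((d : ℝ) + 1) ≤ nuT μ β ω h v :=
  NuLow34.nuT_ge34 hd hω hnc hρ hβ (spaceV46 hd hρ β ‖h‖) v

/-- The typical fluctuations are at most of order `n ^ (ν / 2)`. -/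
theorem typ_main46 (hd : 0 < d) (hω : IID μ ρ ω) (hρ : EM ρ) {β : ℝ} {h v : Vec d} {a : ℝ}
    (ha : nuT μ β ω h v < a) : ∃ m : ℕ → ℝ, ∀ ε : ℝ, 0 < ε → Tendsto (fun n : ℕ =>
      μ.real {x | ε * (n : ℝ) ^ (a / 2) ≤ |Real.log (Zn β h (fun p => ω p x) n) - m n|})
      atTop (𝓝 0) :=
  typ34 hd hω hρ (spaceV46 hd hρ β ‖h‖) ha

end Pool.Agent.W_7d29a1_V
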