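import Pool.Agent.W_7d29a1_V.Main46
import Pool.Agent.W_7d29a1_D2.FinD46
import Pool.Agent.W_7d29a1_D2.GamE46

/-!
The exponents and the growth exponent: common lemmas of the final theorems.
-/

namespace Pool.Agent.W_7d29a1_V

open MeasureTheory ProbabilityTheory Filter Topology Pool.Agent.W_MP_7d29a1_pr
  Pool.Agent.W_7d29a1_h46 Pool.Agent.W_7d29a1_h46u Pool.Agent.W_7d29a1_D2

section
variable {d : ℕ} {ρ : Measure ℝ} [IsProbabilityMeasure ρ] {Ω : Type*} [MeasurableSpace Ω]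
  {μ : Measure Ω} [IsProbabilityMeasure μ] {ω : ℕ × Site d → Ω → ℝ}

/-- The bounds of the exponents from an upper power bound of the free energy, all powers. -/
theorem up46 (hd : 0 < d) (hω : IID μ ρ ω) (hρ : EM ρ) {β : ℝ} {h v : Vec d} {p : ℝ}
    (hp : 1 ≤ p) (hU : UpG (lam ρ β) h v p) :
    (p + 1) * nuS μ β ω h v ≤ 2 ∧ (p + 1) * chiF μ β ω h ≤ 1 := by
  rcases hp.eq_or_lt with h1 | h1
  · rw [← h1]
    have e1 := nuS_le_one46 (μ := μ) (ω := ω) (β := β) hd h v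
    have e2 := (expA34_F_le_S (μ := μ) (ω := ω) (β := β) hd hω hρ h).trans
      (chiS_le_half (μ := μ) (ω := ω) (β := β) hd hω hρ h)
    constructor <;> linarith
  · have e0 : 0 < p + 1 := by linarith
    obtain ⟨e1, e2⟩ := AE_main46 hd hω hρ (β := β) (h := h) (v := v) h1 (fun k => by
      have := gap_nonneg46 (lam_convex hd hρ β) h1 hU k
      unfold gap at this
      linarith) hU
    rw [le_div_iff₀ e0] at e1 e2
    constructor <;> linarith

/-- The growth exponent is bounded at every tilt. -/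
theorem bdd_gam46 (hd : 0 < d) (hω : IID μ ρ ω) (hnc : ∀ c : ℝ, ρ {c} ≠ 1) (hρ : EM ρ) {β : ℝ}
    (hβ : 0 < β) (h v : Vec d) : ∀ p ∈ {p : ℝ | 1 ≤ p ∧ UpG (lam ρ β) h v p},
      p ≤ 2 * (d : ℝ) + 1 := by
  rintro p ⟨hp, hU⟩
  have e1 := (up46 hd hω hρ hp hU).1
  have e2 := (N_main46 hd hω hnc hρ hβ h v).trans
    (nuT_le_nuS (μ := μ) (ω := ω) (β := β) hd hω h v)
  have e3 : (p + 1) * (1 / ((d : ℝ) + 1)) ≤ 2 :=
    (mul_le_mul_of_nonneg_left e2 (by linarith)).trans e1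
  have e4 : (0 : ℝ) < (d : ℝ) + 1 := by positivity
  rw [mul_one_div, div_le_iff₀ e4] at e3
  linarith

theorem lip46 (hd : 0 < d) (hρ : EM ρ) (β : ℝ) :
    ∃ C : ℝ, ∀ h r : Vec d, (lam ρ β (h + r) : ℝ) ≤ lam ρ β h + C * ‖r‖ :=
  ⟨1, fun h r => lam_lip46 hd hρ β h r⟩

theorem one46 (hd : 0 < d) (hρ : EM ρ) (β : ℝ) (h v : Vec d) :
    ∃ p : ℝ, 1 ≤ p ∧ UpG (lam ρ β) h v p := ⟨1, le_rfl, UpG_one (lip46 hd hρ β) h v⟩

end

end Pool.Agent.W_7d29a1_V
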