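import Pool.Agent.W_7d29a1_V.DefsV2
import Pool.Agent.W_7d29a1_h46u.LamU

/-!
Concentration of the point to point partition functions.
-/

namespace Pool.Agent.W_7d29a1_V

open MeasureTheory ProbabilityTheory Filter Topology Pool.Agent.W_MP_7d29a1_pr
  Pool.Agent.W_7d29a1_h46 Pool.Agent.W_7d29a1_h46u Pool.Agent.W_7d29a1_D2
  Pool.Agent.W_7d29a1_D2.B35

variable {d : ℕ} {ρ : Measure ℝ} [IsProbabilityMeasure ρ]

/-- The partition function of a set of walks as a function of the rows. -/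
noncomputable def Conc42_Z (β : ℝ) (h : Vec d) (n : ℕ) (T : Finset (Fin n → Step d))
    (ξ : Fin n → Site d → ℝ) : ℝ :=
  ∑ s ∈ T, Real.exp (inner ℝ h (emb (pos s n)) +
    β * ∑ i : Fin n, ξ i (pos s ((i : ℕ) + 1)))

lemma Conc42_upd (β : ℝ) (h : Vec d) (n : ℕ) (T : Finset (Fin n → Step d)) (i : Fin n)
    (ξ : Fin n → Site d → ℝ) (u : Site d → ℝ) : Conc42_Z β h n T (Function.update ξ i u) =
      ∑ s ∈ T, Real.exp (β * u (pos s ((i : ℕ) + 1))) * ConcU_w β h n i ξ s := by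
  unfold Conc42_Z
  refine Finset.sum_congr rfl fun s _ => ?_
  have h1 : ∑ j : Fin n, Function.update ξ i u j (pos s ((j : ℕ) + 1)) =
      u (pos s ((i : ℕ) + 1)) + ∑ j ∈ Finset.univ.erase i, ξ j (pos s ((j : ℕ) + 1)) := by
    rw [← Finset.add_sum_erase _ _ (Finset.mem_univ i), Function.update_self]
    congr 1
    refine Finset.sum_congr rfl fun j hj => ?_
    rw [Function.update_of_ne (Finset.ne_of_mem_erase hj)]
  rw [h1]
  unfold ConcU_w
  rw [← Real.exp_add]
  congr 1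
  ring

/-- One row, for the walks in a set `T`. -/
theorem Conc42_row (hρ : EM ρ) (β : ℝ) (h : Vec d) (n : ℕ) {T : Finset (Fin n → Step d)}
    (hT : T.Nonempty) (i : Fin n) :
    ∃ G : (Fin n → Site d → ℝ) → ℝ, Measurable G ∧
      (∀ ξ u, G (Function.update ξ i u) = G ξ) ∧
      ∀ ξ, Integrable (fun u =>
          Real.exp (2 * |Real.log (Conc42_Z β h n T (Function.update ξ i u)) - G ξ|))
          (Measure.infinitePi fun _ : Site d => ρ) ∧
        ∫ u, Real.exp (2 * |Real.log (Conc42_Z β h n T (Function.update ξ i u)) - G ξ|)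
          ∂(Measure.infinitePi fun _ : Site d => ρ) ≤ Kc β ρ := by
  refine ⟨fun ξ => Real.log (∑ s ∈ T, ConcU_w β h n i ξ s), ?_, ?_, ?_⟩
  · exact Real.measurable_log.comp (Finset.measurable_sum _ fun s _ => ConcU_meas β h n i s)
  · intro ξ u
    simp only [ConcU_upd]
  intro ξ
  obtain ⟨w, hw⟩ : ∃ w : (Fin n → Step d) → ℝ, w = ConcU_w β h n i ξ := ⟨_, rfl⟩
  obtain ⟨U, hU⟩ : ∃ U : ℝ, U = ∑ s ∈ T, w s := ⟨_, rfl⟩
  have hw0 : ∀ s, 0 < w s := fun s => by rw [hw]; exact ConcU_w_pos _ _ _ _ _ _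
  have hU0 : 0 < U := by
    rw [hU]
    exact Finset.sum_pos (fun s _ => hw0 s) hT
  -- the bound
  obtain ⟨B, hB⟩ : ∃ B : (Site d → ℝ) → ℝ, B = fun u => ∑ s ∈ T, (w s / U) *
      (Real.exp (2 * β * u (pos s ((i : ℕ) + 1))) +
        Real.exp (-(2 * β) * u (pos s ((i : ℕ) + 1)))) := ⟨_, rfl⟩
  have hle : ∀ u : Site d → ℝ, Real.exp (2 * |Real.log (Conc42_Z β h n T
      (Function.update ξ i u)) - Real.log (∑ s ∈ T, ConcU_w β h n i ξ s)|) ≤ B u := by
    intro u
    rw [Conc42_upd, ← hw]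
    have h1 := (ConcU_alg T w (fun s => β * u (pos s ((i : ℕ) + 1)))
      (fun s _ => (hw0 s).le) (by rw [← hU]; exact hU0)).2
    refine h1.trans ?_
    rw [← hU, hB, Finset.sum_div]
    refine Finset.sum_le_sum fun s _ => ?_
    rw [mul_div_right_comm]
    refine mul_le_mul_of_nonneg_left ?_ (div_nonneg (hw0 s).le hU0.le)
    have h2 := ConcU_exp_abs (β * u (pos s ((i : ℕ) + 1)))
    have e1 : 2 * (β * u (pos s ((i : ℕ) + 1))) = 2 * β * u (pos s ((i : ℕ) + 1)) := by ring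
    rw [e1] at h2
    rw [show -(2 * β * u (pos s ((i : ℕ) + 1))) = -(2 * β) * u (pos s ((i : ℕ) + 1)) by ring] at h2
    exact h2
  have hI : ∀ s : Fin n → Step d, Integrable (fun u : Site d → ℝ => (w s / U) *
      (Real.exp (2 * β * u (pos s ((i : ℕ) + 1))) +
        Real.exp (-(2 * β) * u (pos s ((i : ℕ) + 1)))))
      (Measure.infinitePi fun _ : Site d => ρ) := fun s =>
    ((ConcU_int hρ _ _).1.add (ConcU_int hρ _ _).1).const_mul _
  have hBI : Integrable B (Measure.infinitePi fun _ : Site d => ρ) := by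
    rw [hB]
    exact integrable_finsetSum _ fun s _ => hI s
  have hBv : ∫ u, B u ∂(Measure.infinitePi fun _ : Site d => ρ) = Kc β ρ := by
    rw [hB, integral_finsetSum _ fun s _ => hI s]
    have h3 : ∀ s : Fin n → Step d, ∫ u : Site d → ℝ, (w s / U) *
        (Real.exp (2 * β * u (pos s ((i : ℕ) + 1))) +
          Real.exp (-(2 * β) * u (pos s ((i : ℕ) + 1))))
        ∂(Measure.infinitePi fun _ : Site d => ρ) = (w s / U) * Kc β ρ := by
      intro s
      rw [integral_const_mul, integral_add (ConcU_int hρ _ _).1 (ConcU_int hρ _ _).1,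
        (ConcU_int hρ _ _).2, (ConcU_int hρ _ _).2]
      unfold Kc
      rw [← integral_add (hρ _) (hρ _)]
      congr 1
      refine integral_congr_ae (Filter.Eventually.of_forall fun t => ?_)
      change Real.exp (2 * β * t) + Real.exp (-(2 * β) * t) =
        Real.exp (2 * β * t) + Real.exp (-(2 * β * t))
      rw [neg_mul]
    rw [Finset.sum_congr rfl fun s _ => h3 s, ← Finset.sum_mul, ← Finset.sum_div, ← hU,
      div_self hU0.ne', one_mul]
  have hmeas : Measurable fun u : Site d → ℝ =>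
      Real.exp (2 * |Real.log (Conc42_Z β h n T (Function.update ξ i u)) -
        Real.log (∑ s ∈ T, ConcU_w β h n i ξ s)|) := by
    have h4 : Measurable fun u : Site d → ℝ => Conc42_Z β h n T (Function.update ξ i u) := by
      simp only [Conc42_upd]
      refine Finset.measurable_sum _ fun s _ => ?_
      have h6 : Measurable fun u : Site d → ℝ => u (pos s ((i : ℕ) + 1)) :=
        measurable_pi_apply _
      exact (Real.measurable_exp.comp (h6.const_mul β)).mul_const _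
    have h5 := ((Real.measurable_log.comp h4).sub_const
      (Real.log (∑ s ∈ T, ConcU_w β h n i ξ s)))
    exact Real.measurable_exp.comp ((measurable_norm.comp h5).const_mul 2)
  have hint : Integrable (fun u : Site d → ℝ =>
      Real.exp (2 * |Real.log (Conc42_Z β h n T (Function.update ξ i u)) -
        Real.log (∑ s ∈ T, ConcU_w β h n i ξ s)|)) (Measure.infinitePi fun _ : Site d => ρ) := by
    refine hBI.mono' hmeas.aestronglyMeasurable (Filter.Eventually.of_forall fun u => ?_)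
    rw [Real.norm_eq_abs, abs_of_pos (Real.exp_pos _)]
    exact hle u
  refine ⟨hint, ?_⟩
  rw [← hBv]
  exact integral_mono hint hBI hle

theorem Conc42_meas (β : ℝ) (h : Vec d) (n : ℕ) (T : Finset (Fin n → Step d)) :
    Measurable fun ξ : Fin n → Site d → ℝ => Real.log (Conc42_Z β h n T ξ) := by
  refine Real.measurable_log.comp ?_
  unfold Conc42_Z
  refine Finset.measurable_sum _ fun s _ => Real.measurable_exp.comp ?_
  refine (Measurable.const_mul (Finset.measurable_sum _ fun i _ => ?_) β).const_add _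
  exact (measurable_pi_apply _).comp (measurable_pi_apply i)

open Classical in
theorem Conc42_PP (β : ℝ) (h : Vec d) (η : Env d) (n : ℕ) (z : Site d) :
    PP β h η n z = Conc42_Z β h n (Finset.univ.filter fun s : Fin n → Step d => pos s n = z)
      (fun (i : Fin n) (y : Site d) => η ((i : ℕ) + 1, y)) := by
  unfold PP ZT Conc42_Z
  rw [Finset.sum_filter]
  refine Finset.sum_congr rfl fun s _ => ?_
  by_cases hs : pos s n = z
  · rw [if_pos hs, if_pos (show s ∈ {s : Fin n → Step d | pos s n = z} from hs)]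
    rfl
  · rw [if_neg hs, if_neg (show ¬ s ∈ {s : Fin n → Step d | pos s n = z} from hs)]

lemma Conc42_measP (β : ℝ) (h : Vec d) (n : ℕ) (z : Site d) :
    Measurable fun η : Env d => Real.log (PP β h η n z) :=
  Real.measurable_log.comp (measurable_ZT β h _)

/-- Exponential moments. -/
theorem Conc42_exp (hρ : EM ρ) (β : ℝ) (h : Vec d) (n : ℕ) {z : Site d} (hz : Rch n z) :
    Integrable (fun η => Real.log (PP β h η n z)) (law d ρ) ∧ ∀ θ : ℝ, |θ| ≤ 1 →
      Integrable (fun η => Real.exp (θ * (Real.log (PP β h η n z) - aM ρ β h n z))) (law d ρ) ∧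
      ∫ η, Real.exp (θ * (Real.log (PP β h η n z) - aM ρ β h n z)) ∂(law d ρ) ≤
        Real.exp (Kc β ρ ^ 2 * θ ^ 2 * n) := by
  classical
  obtain ⟨T, hT⟩ : ∃ T : Finset (Fin n → Step d),
      T = Finset.univ.filter fun s : Fin n → Step d => pos s n = z := ⟨_, rfl⟩
  have hTn : T.Nonempty := by
    obtain ⟨q, hq⟩ := hz
    refine ⟨q, ?_⟩
    rw [hT, Finset.mem_filter]
    exact ⟨Finset.mem_univ _, hq⟩
  have hPP : ∀ η : Env d, Real.log (Conc42_Z β h n T
      (fun (i : Fin n) (y : Site d) => η ((i : ℕ) + 1, y))) = Real.log (PP β h η n z) := by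
    intro η
    rw [Conc42_PP β h η n z, hT]
  have hmp := mp_rows (d := d) (ρ := ρ) n
  have hFm := Conc42_meas (d := d) β h n T
  obtain ⟨h1, h2⟩ := conc_pi n (fun ξ : Fin n → Site d → ℝ => Real.log (Conc42_Z β h n T ξ)) hFm
    (fun i => Conc42_row hρ β h n hTn i)
  have hA : ∫ ξ, Real.log (Conc42_Z β h n T ξ)
      ∂(Measure.pi fun _ : Fin n => Measure.infinitePi fun _ : Site d => ρ) = aM ρ β h n z := by
    rw [← hmp.map_eq, integral_map hmp.measurable.aemeasurable hFm.aestronglyMeasurable]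
    unfold aM
    exact integral_congr_ae (Filter.Eventually.of_forall fun η => hPP η)
  rw [hA] at h2
  have e0 : (fun η : Env d => Real.log (PP β h η n z)) =
      (fun ξ : Fin n → Site d → ℝ => Real.log (Conc42_Z β h n T ξ)) ∘
      (fun (η : Env d) (i : Fin n) (y : Site d) => η ((i : ℕ) + 1, y)) := by
    funext η
    exact (hPP η).symm
  refine ⟨?_, fun θ hθ => ?_⟩
  · rw [e0]
    exact hmp.integrable_comp_of_integrable h1
  · obtain ⟨h3, h4⟩ := h2 θ hθ
    have e1 : (fun η : Env d => Real.exp (θ * (Real.log (PP β h η n z) - aM ρ β h n z))) =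
        (fun ξ : Fin n → Site d → ℝ =>
          Real.exp (θ * (Real.log (Conc42_Z β h n T ξ) - aM ρ β h n z))) ∘
        (fun (η : Env d) (i : Fin n) (y : Site d) => η ((i : ℕ) + 1, y)) := by
      funext η
      simp only [Function.comp]
      rw [hPP η]
    refine ⟨?_, ?_⟩
    · rw [e1]
      exact hmp.integrable_comp_of_integrable h3
    · have h5 : ∫ η, Real.exp (θ * (Real.log (PP β h η n z) - aM ρ β h n z)) ∂(law d ρ) =
          ∫ ξ, Real.exp (θ * (Real.log (Conc42_Z β h n T ξ) - aM ρ β h n z))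
            ∂(Measure.pi fun _ : Fin n => Measure.infinitePi fun _ : Site d => ρ) := by
        have hm2 : Measurable fun ξ : Fin n → Site d → ℝ =>
            Real.exp (θ * (Real.log (Conc42_Z β h n T ξ) - aM ρ β h n z)) :=
          Real.measurable_exp.comp ((hFm.sub_const _).const_mul θ)
        rw [← hmp.map_eq, integral_map hmp.measurable.aemeasurable hm2.aestronglyMeasurable]
        exact integral_congr_ae (Filter.Eventually.of_forall fun η => by
          simp only [hPP η])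
      rw [h5]
      exact h4

/-- All moments, uniformly in the tilt. -/
theorem Conc42_mom (hρ : EM ρ) (β : ℝ) (q : ℕ) :
    ∃ C : ℝ, 0 ≤ C ∧ ∀ (h : Vec d) (n : ℕ) (z : Site d), 1 ≤ n → Rch n z →
      Integrable (fun η => |Real.log (PP β h η n z) - aM ρ β h n z| ^ q) (law d ρ) ∧
      ∫ η, |Real.log (PP β h η n z) - aM ρ β h n z| ^ q ∂(law d ρ) ≤ C * Real.sqrt n ^ q := by
  refine ⟨2 * (q.factorial : ℝ) * Real.exp (Kc β ρ ^ 2), by positivity, fun h n z hn hz => ?_⟩
  have hn' : (0 : ℝ) < n := by exact_mod_cast hn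
  have hn1 : (1 : ℝ) ≤ n := by exact_mod_cast hn
  have hs : 0 < Real.sqrt n := Real.sqrt_pos.2 hn'
  have hs1 : 1 ≤ Real.sqrt n := by
    rw [show (1 : ℝ) = Real.sqrt 1 by simp]
    exact Real.sqrt_le_sqrt hn1
  have hsq : Real.sqrt n ^ 2 = n := Real.sq_sqrt hn'.le
  obtain ⟨θ, hθdef⟩ : ∃ θ : ℝ, θ = (Real.sqrt n)⁻¹ := ⟨_, rfl⟩
  have hθ : 0 < θ := by
    rw [hθdef]
    exact inv_pos.2 hs
  have hθ1 : |θ| ≤ 1 := by
    rw [abs_of_pos hθ, hθdef]
    exact inv_le_one_of_one_le₀ hs1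
  have hθn : θ ^ 2 * n = 1 := by
    rw [hθdef, inv_pow, hsq]
    exact inv_mul_cancel₀ hn'.ne'
  obtain ⟨hi, hc⟩ := Conc42_exp hρ β h n hz
  obtain ⟨i1, c1⟩ := hc θ hθ1
  obtain ⟨i2, c2⟩ := hc (-θ) (by rw [abs_neg]; exact hθ1)
  have k1 : Kc β ρ ^ 2 * θ ^ 2 * n = Kc β ρ ^ 2 := by
    rw [mul_assoc, hθn, mul_one]
  have k2 : Kc β ρ ^ 2 * (-θ) ^ 2 * n = Kc β ρ ^ 2 := by
    rw [neg_sq, k1]
  rw [k1] at c1
  rw [k2] at c2
  -- pointwise bound
  have hb : ∀ y : ℝ, |y| ^ q ≤ (q.factorial : ℝ) * Real.sqrt n ^ q *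
      (Real.exp (θ * y) + Real.exp (-θ * y)) := by
    intro y
    have h1 : (θ * |y|) ^ q / (q.factorial : ℝ) ≤ Real.exp (θ * |y|) :=
      Real.pow_div_factorial_le_exp _ (mul_nonneg hθ.le (abs_nonneg y)) q
    have h2 : Real.exp (θ * |y|) ≤ Real.exp (θ * y) + Real.exp (-θ * y) := by
      rcases abs_cases y with ⟨h3, _⟩ | ⟨h3, _⟩
      · rw [h3]
        have := Real.exp_pos (-θ * y)
        linarith
      · rw [h3]
        have h4 : θ * -y = -θ * y := by ring
        rw [h4]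
        have := Real.exp_pos (θ * y)
        linarith
    have hf : (0 : ℝ) < q.factorial := by exact_mod_cast q.factorial_pos
    rw [div_le_iff₀ hf] at h1
    have h5 : |y| = Real.sqrt n * (θ * |y|) := by
      rw [hθdef, ← mul_assoc, mul_inv_cancel₀ hs.ne', one_mul]
    have h6 : |y| ^ q = Real.sqrt n ^ q * (θ * |y|) ^ q := by
      rw [← mul_pow, ← h5]
    rw [h6]
    have h7 : (θ * |y|) ^ q ≤ (Real.exp (θ * y) + Real.exp (-θ * y)) * q.factorial :=
      h1.trans (mul_le_mul_of_nonneg_right h2 hf.le)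
    calc Real.sqrt n ^ q * (θ * |y|) ^ q ≤
        Real.sqrt n ^ q * ((Real.exp (θ * y) + Real.exp (-θ * y)) * q.factorial) :=
          mul_le_mul_of_nonneg_left h7 (by positivity)
      _ = _ := by ring
  have hsum : Integrable (fun η => (q.factorial : ℝ) * Real.sqrt n ^ q *
      (Real.exp (θ * (Real.log (PP β h η n z) - aM ρ β h n z)) +
        Real.exp (-θ * (Real.log (PP β h η n z) - aM ρ β h n z))))
      (law d ρ) := (i1.add i2).const_mul _
  have hint : Integrable (fun η => |Real.log (PP β h η n z) - aM ρ β h n z| ^ q)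
      (law d ρ) := by
    refine hsum.mono' ?_ (Filter.Eventually.of_forall fun η => ?_)
    · exact ((((Conc42_measP β h n z).sub_const _).abs).pow_const q).aestronglyMeasurable
    · rw [Real.norm_eq_abs, abs_of_nonneg (by positivity)]
      exact hb _
  refine ⟨hint, ?_⟩
  have h8 : ∫ η, |Real.log (PP β h η n z) - aM ρ β h n z| ^ q ∂(law d ρ) ≤
      ∫ η, (q.factorial : ℝ) * Real.sqrt n ^ q *
      (Real.exp (θ * (Real.log (PP β h η n z) - aM ρ β h n z)) +
      Real.exp (-θ * (Real.log (PP β h η n z) - aM ρ β h n z))) ∂(law d ρ) :=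
    integral_mono hint hsum (fun η => hb _)
  rw [integral_const_mul, integral_add i1 i2] at h8
  refine h8.trans ?_
  have h10 : (0 : ℝ) ≤ (q.factorial : ℝ) * Real.sqrt n ^ q := by positivity
  have h11 := mul_le_mul_of_nonneg_left (add_le_add c1 c2) h10
  refine h11.trans (le_of_eq ?_)
  ring

/-! Tails. -/

lemma Conc42_zero (β : ℝ) (h : Vec d) (η : Env d) {z : Site d} (hz : Rch 0 z) :
    Real.log (PP β h η 0 z) = 0 := by
  classical
  obtain ⟨q, hq⟩ := hz
  have hq' : q = default := Subsingleton.elim _ _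
  subst hq'
  unfold PP ZT
  rw [Fintype.sum_unique, if_pos (show (default : Fin 0 → Step d) ∈
    {s : Fin 0 → Step d | pos s 0 = z} from hq)]
  have h1 : pos (default : Fin 0 → Step d) 0 = 0 := Finset.sum_of_isEmpty _
  have h2 : energy η (default : Fin 0 → Step d) = 0 := Finset.sum_of_isEmpty _
  have h3 : emb (0 : Site d) = 0 := by
    ext j
    simp [emb]
  unfold wgt
  rw [h1, h2, h3, inner_zero_right, mul_zero, add_zero, Real.exp_zero, Real.log_one]

theorem Conc42_tail (hρ : EM ρ) (β : ℝ) {ε : ℝ} (hε : 0 < ε) (q : ℕ) :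
    ∃ C : ℝ, 0 ≤ C ∧ ∀ (h : Vec d) (n s : ℕ) (z : Site d), 1 ≤ n → Rch s z →
      ∀ (j : ℕ) (w : Site d),
      (law d ρ).real {η | Real.sqrt s * (n : ℝ) ^ ε <
        |Real.log (PP β h (sh j w η) s z) - aM ρ β h s z|} ≤ C * (n : ℝ) ^ (-(q : ℝ)) := by
  obtain ⟨Q, hQ⟩ := exists_nat_ge ((q : ℝ) / ε)
  have hQ' : (q : ℝ) ≤ ε * Q := by
    rw [div_le_iff₀ hε] at hQ
    linarith
  obtain ⟨C₀, hC00, hC₀⟩ := Conc42_mom (d := d) hρ β Q
  refine ⟨C₀, hC00, fun h n s z hn hz j w => ?_⟩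
  have hn1 : (1 : ℝ) ≤ n := by exact_mod_cast hn
  have hn0 : (0 : ℝ) < n := by linarith
  have hrhs : 0 ≤ C₀ * (n : ℝ) ^ (-(q : ℝ)) := mul_nonneg hC00 (Real.rpow_nonneg hn0.le _)
  rcases Nat.eq_zero_or_pos s with hs0 | hs0
  · subst hs0
    have h1 : ∀ η : Env d, Real.log (PP β h η 0 z) = 0 := fun η => Conc42_zero β h η hz
    have h2 : aM ρ β h 0 z = 0 := by
      unfold aM
      simp only [h1]
      exact integral_zero _ _
    have h3 : {η : Env d | Real.sqrt ((0 : ℕ) : ℝ) * (n : ℝ) ^ ε <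
        |Real.log (PP β h (sh j w η) 0 z) - aM ρ β h 0 z|} = ∅ := by
      rw [Set.eq_empty_iff_forall_notMem]
      intro η hη
      have hη' : Real.sqrt ((0 : ℕ) : ℝ) * (n : ℝ) ^ ε <
        |Real.log (PP β h (sh j w η) 0 z) - aM ρ β h 0 z| := hη
      rw [h1, h2, sub_zero, abs_zero, Nat.cast_zero, Real.sqrt_zero, zero_mul] at hη'
      exact lt_irrefl _ hη'
    rw [h3, measureReal_empty]
    exact hrhs
  · obtain ⟨hint, hmean⟩ := hC₀ h s z hs0 hz
    have hs1 : (0 : ℝ) < s := by exact_mod_cast hs0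
    have hsq : 0 < Real.sqrt s := Real.sqrt_pos.2 hs1
    obtain ⟨u, hu⟩ : ∃ u : ℝ, u = Real.sqrt s * (n : ℝ) ^ ε := ⟨_, rfl⟩
    have hu0 : 0 < u := by
      rw [hu]
      exact mul_pos hsq (Real.rpow_pos_of_pos hn0 _)
    rw [← hu]
    have hmeasY : Measurable fun η : Env d => |Real.log (PP β h η s z) - aM ρ β h s z| :=
      ((Conc42_measP β h s z).sub_const _).abs
    have hset : MeasurableSet {η : Env d | u < |Real.log (PP β h η s z) - aM ρ β h s z|} :=
      measurableSet_lt measurable_const hmeasY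
    have hshift : (law d ρ).real
        {η | u < |Real.log (PP β h (sh j w η) s z) - aM ρ β h s z|} =
        (law d ρ).real {η | u < |Real.log (PP β h η s z) - aM ρ β h s z|} := by
      rw [measureReal_def, measureReal_def, ← (mp_sh (ρ := ρ) j w).measure_preimage
        hset.nullMeasurableSet]
      rfl
    rw [hshift]
    have hmk := mul_meas_ge_le_integral_of_nonneg (μ := law d ρ)
      (f := fun η => |Real.log (PP β h η s z) - aM ρ β h s z| ^ Q)
      (Filter.Eventually.of_forall fun η => pow_nonneg (abs_nonneg _) Q) hint (u ^ Q)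
    have hsub : (law d ρ).real {η | u < |Real.log (PP β h η s z) - aM ρ β h s z|} ≤
        (law d ρ).real {η | u ^ Q ≤ |Real.log (PP β h η s z) - aM ρ β h s z| ^ Q} := by
      refine measureReal_mono fun η hη => ?_
      have hη' : u < |Real.log (PP β h η s z) - aM ρ β h s z| := hη
      exact pow_le_pow_left₀ hu0.le hη'.le Q
    have h6 : u ^ Q * (law d ρ).real {η | u < |Real.log (PP β h η s z) - aM ρ β h s z|} ≤
        C₀ * Real.sqrt s ^ Q :=
      (mul_le_mul_of_nonneg_left hsub (pow_nonneg hu0.le Q)).trans (hmk.trans hmean)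
    have h7 : C₀ * Real.sqrt s ^ Q ≤ u ^ Q * (C₀ * (n : ℝ) ^ (-(q : ℝ))) := by
      have h8 : (1 : ℝ) ≤ (n : ℝ) ^ (ε * Q) * (n : ℝ) ^ (-(q : ℝ)) := by
        rw [← Real.rpow_add hn0]
        exact Real.one_le_rpow hn1 (by linarith)
      have h9 : u ^ Q = Real.sqrt s ^ Q * (n : ℝ) ^ (ε * Q) := by
        rw [hu, mul_pow, Real.rpow_mul hn0.le, Real.rpow_natCast]
      rw [h9]
      have h10 := mul_le_mul_of_nonneg_left h8 (mul_nonneg hC00 (pow_nonneg hsq.le Q))
      calc C₀ * Real.sqrt s ^ Q = C₀ * Real.sqrt s ^ Q * 1 := (mul_one _).symm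
        _ ≤ C₀ * Real.sqrt s ^ Q * ((n : ℝ) ^ (ε * Q) * (n : ℝ) ^ (-(q : ℝ))) := h10
        _ = Real.sqrt s ^ Q * (n : ℝ) ^ (ε * Q) * (C₀ * (n : ℝ) ^ (-(q : ℝ))) := by ring
    exact le_of_mul_le_mul_left (h6.trans h7) (pow_pos hu0 Q)

/-! The means. -/

/-- The dependence on the tilt. -/
lemma Conc42_tilt (β : ℝ) (h : Vec d) (η : Env d) (s : ℕ) {z : Site d} (hz : Rch s z) :
    Real.log (PP β h η s z) = inner ℝ h (emb z) + Real.log (PP β 0 η s z) := by
  have h1 := PP_tilt β 0 h η s z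
  rw [zero_add] at h1
  have h2 : 0 < PP β 0 η s z := ZT_pos β 0 η hz
  rw [h1, Real.log_mul (Real.exp_pos _).ne' h2.ne', Real.log_exp]

lemma Conc42_aM (hρ : EM ρ) (β : ℝ) (h : Vec d) (s : ℕ) {z : Site d} (hz : Rch s z) :
    aM ρ β h s z = inner ℝ h (emb z) + aM ρ β 0 s z := by
  unfold aM
  have h1 : ∀ η : Env d, Real.log (PP β h η s z) = inner ℝ h (emb z) +
      Real.log (PP β 0 η s z) := fun η => Conc42_tilt β h η s hz
  simp only [h1]
  rw [integral_add (integrable_const _) (Conc42_exp hρ β 0 s hz).1, integral_const]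
  simp

omit [IsProbabilityMeasure ρ] in
lemma Conc42_id (hρ : EM ρ) : Integrable (fun t : ℝ => t) ρ := by
  have h1 : Integrable (fun t : ℝ => Real.exp (1 * t) + Real.exp (-1 * t)) ρ :=
    (hρ 1).add (hρ (-1))
  refine h1.mono' measurable_id.aestronglyMeasurable (Filter.Eventually.of_forall fun t => ?_)
  rw [Real.norm_eq_abs, one_mul, neg_one_mul]
  have h2 := Real.add_one_le_exp t
  have h3 := Real.add_one_le_exp (-t)
  have h4 := Real.exp_pos t
  have h5 := Real.exp_pos (-t)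
  rcases abs_cases t with ⟨h6, _⟩ | ⟨h6, _⟩
  · rw [h6]
    linarith
  · rw [h6]
    linarith

lemma Conc42_energy (hρ : EM ρ) {s : ℕ} (q : Fin s → Step d) :
    Integrable (fun η : Env d => energy η q) (law d ρ) ∧
      ∫ η, energy η q ∂(law d ρ) = s * ∫ t, t ∂ρ := by
  have hmp : ∀ p : ℕ × Site d, MeasurePreserving (Function.eval p) (law d ρ) ρ := fun p =>
    measurePreserving_eval_infinitePi (fun _ : ℕ × Site d => ρ) p
  have h1 : ∀ p : ℕ × Site d, Integrable (fun η : Env d => η p) (law d ρ) := fun p =>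
    (hmp p).integrable_comp_of_integrable (Conc42_id hρ)
  have h2 : ∀ p : ℕ × Site d, ∫ η : Env d, η p ∂(law d ρ) = ∫ t, t ∂ρ := fun p =>
    LawU_integral (hmp p) (F := fun t : ℝ => t) measurable_id.aestronglyMeasurable
  unfold energy
  refine ⟨integrable_finsetSum _ fun i _ => h1 _, ?_⟩
  rw [integral_finsetSum _ fun i _ => h1 _, Finset.sum_congr rfl fun i _ => h2 _]
  simp

/-- The means are at most linear. -/
theorem Conc42_mean (hd : 0 < d) (hρ : EM ρ) (β R : ℝ) : ∃ C : ℝ, ∀ h : Vec d, ‖h‖ ≤ R →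
    ∀ (s : ℕ) (z : Site d), Rch s z → |aM ρ β h s z| ≤ C * s := by
  obtain ⟨c, hc⟩ := A_le_lin hd hρ β (0 : Vec d)
  refine ⟨R + (|c| + |β * ∫ t, t ∂ρ|), fun h hh s z hz => ?_⟩
  rw [Conc42_aM hρ β h s hz]
  have hs : (0 : ℝ) ≤ s := Nat.cast_nonneg s
  have h1 : |inner ℝ h (emb z)| ≤ R * s := by
    refine (abs_real_inner_le_norm _ _).trans (mul_le_mul hh ?_ (norm_nonneg _)
      ((norm_nonneg h).trans hh))
    obtain ⟨q, hq⟩ := hz
    rw [← hq, norm_emb]
    exact nrm_pos_le q s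
  have h2 : aM ρ β 0 s z ≤ |c| * s := by
    have h3 : aM ρ β 0 s z ≤ A ρ β (0 : Vec d) s := by
      refine integral_mono (Conc42_exp hρ β 0 s hz).1 (concU hd hρ β 0 s).1 fun η => ?_
      exact Real.log_le_log (ZT_pos β 0 η hz) (PP_le_Z β 0 η s z)
    exact h3.trans ((hc s).trans (mul_le_mul_of_nonneg_right (le_abs_self c) hs))
  have h4 : -(|β * ∫ t, t ∂ρ| * s) ≤ aM ρ β 0 s z := by
    obtain ⟨q, hq⟩ := hz
    obtain ⟨e1, e2⟩ := Conc42_energy (d := d) hρ q
    have h5 : ∫ η, β * energy η q ∂(law d ρ) ≤ aM ρ β 0 s z := by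
      refine integral_mono (e1.const_mul β) (Conc42_exp hρ β 0 s ⟨q, hq⟩).1 fun η => ?_
      classical
      have h6 : wgt β 0 η q ≤ PP β 0 η s z := by
        unfold PP ZT
        have h7 := Finset.single_le_sum (f := fun r : Fin s → Step d =>
          if r ∈ {r : Fin s → Step d | pos r s = z} then wgt β 0 η r else 0)
          (fun r _ => by
            split_ifs
            · exact (wgt_pos _ _ _ _).le
            · exact le_rfl) (Finset.mem_univ q)
        rw [if_pos (show q ∈ {r : Fin s → Step d | pos r s = z} from hq)] at h7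
        refine h7.trans (le_of_eq (Finset.sum_congr rfl fun r _ => ?_))
        by_cases hr : r ∈ {r : Fin s → Step d | pos r s = z}
        · rw [if_pos hr, if_pos hr]
        · rw [if_neg hr, if_neg hr]
      have h8 := Real.log_le_log (wgt_pos β 0 η q) h6
      unfold wgt at h8
      rw [Real.log_exp, inner_zero_left, zero_add] at h8
      exact h8
    rw [integral_const_mul, e2] at h5
    have h9 : -(|β * ∫ t, t ∂ρ| * s) ≤ β * (s * ∫ t, t ∂ρ) := by
      have h10 : β * (s * ∫ t, t ∂ρ) = (β * ∫ t, t ∂ρ) * s := by ring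
      rw [h10, ← neg_mul]
      exact mul_le_mul_of_nonneg_right (neg_abs_le _) hs
    exact h9.trans h5
  have h11 : 0 ≤ |c| * s := mul_nonneg (abs_nonneg _) hs
  have h12 : 0 ≤ |β * ∫ t, t ∂ρ| * s := mul_nonneg (abs_nonneg _) hs
  have h13 : |aM ρ β 0 s z| ≤ |c| * s + |β * ∫ t, t ∂ρ| * s := by
    rw [abs_le]
    constructor <;> linarith
  refine (abs_add_le _ _).trans ?_
  have h14 : (R + (|c| + |β * ∫ t, t ∂ρ|)) * s = R * s + (|c| * s + |β * ∫ t, t ∂ρ| * s) := by
    ring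
  rw [h14]
  linarith

/-! The union bound. -/

theorem Conc42_good (hρ : EM ρ) (β : ℝ) {ε : ℝ} (hε : 0 < ε) (q : ℕ) :
    ∃ C : ℝ, ∀ (h : Vec d) (n : ℕ), 1 ≤ n →
      (law d ρ).real {η | ¬ GoodV ρ β h n ε η} ≤ C * (n : ℝ) ^ (-(q : ℝ)) := by
  classical
  obtain ⟨C₀, hC₀, hT⟩ := Conc42_tail (d := d) hρ β hε (q + 3 * d + 2)
  refine ⟨4 * 9 ^ d * C₀, fun h n hn => ?_⟩
  have hn1 : (1 : ℝ) ≤ n := by exact_mod_cast hn
  have hn0 : (0 : ℝ) < n := by linarith
  obtain ⟨B, hB⟩ : ∃ B : ℝ, B = C₀ * (n : ℝ) ^ (-((q + 3 * d + 2 : ℕ) : ℝ)) := ⟨_, rfl⟩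
  have hB0 : 0 ≤ B := by
    rw [hB]
    exact mul_nonneg hC₀ (Real.rpow_nonneg hn0.le _)
  obtain ⟨S, hS⟩ : ∃ S : (ℕ × ℕ) × (Site d × Site d) → Set (Env d), S = fun a =>
      if Rch a.1.2 a.2.2 then {η | Real.sqrt a.1.2 * (n : ℝ) ^ ε <
        |Real.log (PP β h (sh a.1.1 a.2.1 η) a.1.2 a.2.2) - aM ρ β h a.1.2 a.2.2|}
      else ∅ := ⟨_, rfl⟩
  obtain ⟨I, hI⟩ : ∃ I : Finset ((ℕ × ℕ) × (Site d × Site d)),
      I = ((Finset.range (n + 1)) ×ˢ (Finset.range (n + 1))) ×ˢ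
        (boxF d (n ^ 2) ×ˢ boxF d n) := ⟨_, rfl⟩
  have h1 : ∀ a ∈ I, (law d ρ).real (S a) ≤ B := by
    intro a _
    rw [hS]
    simp only
    split_ifs with hr
    · rw [hB]
      exact hT h n a.1.2 a.2.2 hn hr a.1.1 a.2.1
    · rw [measureReal_empty]
      exact hB0
  have hsub : {η | ¬ GoodV ρ β h n ε η} ⊆ ⋃ a ∈ I, S a := by
    intro η hη
    by_contra hcon
    rw [Set.mem_iUnion₂] at hcon
    apply hη
    intro j s hjs w hw z hz
    by_contra hc
    refine hcon ⟨((j, s), (w, z)), ?_, ?_⟩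
    · rw [hI]
      refine Finset.mem_product.2 ⟨Finset.mem_product.2 ⟨Finset.mem_range.2 ?_,
        Finset.mem_range.2 ?_⟩, Finset.mem_product.2 ⟨hw, ?_⟩⟩
      · change j < n + 1
        omega
      · change s < n + 1
        omega
      · obtain ⟨r, hr⟩ := hz
        have h2 : z ∈ boxF d s := by
          rw [← hr]
          exact pos_mem_box r s
        exact TubV_box (show s ≤ n by omega) h2
    · rw [hS]
      simp only
      rw [if_pos hz]
      exact not_le.1 hc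
  have h3 : (law d ρ).real {η | ¬ GoodV ρ β h n ε η} ≤
      ((n : ℝ) + 1) ^ 2 * ((2 * (n : ℝ) ^ 2 + 1) ^ d * (2 * (n : ℝ) + 1) ^ d) * B := by
    refine (measureReal_mono hsub (measure_ne_top _ _)).trans ?_
    refine (measureReal_biUnion_finset_le _ _).trans ((Finset.sum_le_sum h1).trans
      (le_of_eq ?_))
    rw [Finset.sum_const, hI, Finset.card_product, Finset.card_product, Finset.card_product,
      Finset.card_range, card_boxF, card_boxF, nsmul_eq_mul]
    push_cast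
    ring
  have h4 : ((n : ℝ) + 1) ^ 2 ≤ (2 * n) ^ 2 :=
    pow_le_pow_left₀ (by positivity) (by linarith) 2
  have h5 : (2 * (n : ℝ) ^ 2 + 1) ^ d ≤ (3 * (n : ℝ) ^ 2) ^ d := by
    refine pow_le_pow_left₀ (by positivity) ?_ d
    have h6 : (1 : ℝ) ≤ (n : ℝ) ^ 2 := one_le_pow₀ hn1
    linarith
  have h7 : (2 * (n : ℝ) + 1) ^ d ≤ (3 * (n : ℝ)) ^ d :=
    pow_le_pow_left₀ (by positivity) (by linarith) d
  have h8 : ((n : ℝ) + 1) ^ 2 * ((2 * (n : ℝ) ^ 2 + 1) ^ d * (2 * (n : ℝ) + 1) ^ d) ≤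
      (2 * n) ^ 2 * ((3 * (n : ℝ) ^ 2) ^ d * (3 * (n : ℝ)) ^ d) :=
    mul_le_mul h4 (mul_le_mul h5 h7 (by positivity) (by positivity)) (by positivity)
      (by positivity)
  have h9 : (2 * (n : ℝ)) ^ 2 * ((3 * (n : ℝ) ^ 2) ^ d * (3 * (n : ℝ)) ^ d) =
      4 * 9 ^ d * (n : ℝ) ^ (3 * d + 2) := by
    have e1 : (9 : ℝ) ^ d = 3 ^ d * 3 ^ d := by
      rw [← mul_pow]
      norm_num
    have e2 : (n : ℝ) ^ (3 * d + 2) = ((n : ℝ) ^ 2) ^ d * (n : ℝ) ^ d * (n : ℝ) ^ 2 := by
      rw [← pow_mul, ← pow_add, ← pow_add]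
      congr 1
      ring
    rw [mul_pow, mul_pow, mul_pow, e1, e2]
    ring
  have h10 : (n : ℝ) ^ (3 * d + 2) * B ≤ C₀ * (n : ℝ) ^ (-(q : ℝ)) := by
    rw [hB]
    have e1 : (n : ℝ) ^ (3 * d + 2) * (n : ℝ) ^ (-((q + 3 * d + 2 : ℕ) : ℝ)) =
        (n : ℝ) ^ (-(q : ℝ)) := by
      rw [← Real.rpow_natCast, ← Real.rpow_add hn0]
      congr 1
      push_cast
      ring
    calc (n : ℝ) ^ (3 * d + 2) * (C₀ * (n : ℝ) ^ (-((q + 3 * d + 2 : ℕ) : ℝ)))
        = C₀ * ((n : ℝ) ^ (3 * d + 2) * (n : ℝ) ^ (-((q + 3 * d + 2 : ℕ) : ℝ))) := by ring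
      _ = C₀ * (n : ℝ) ^ (-(q : ℝ)) := by rw [e1]
      _ ≤ C₀ * (n : ℝ) ^ (-(q : ℝ)) := le_rfl
  have h11 := mul_le_mul_of_nonneg_right (h8.trans (le_of_eq h9)) hB0
  have h12 := mul_le_mul_of_nonneg_left h10 (show (0 : ℝ) ≤ 4 * 9 ^ d by positivity)
  calc (law d ρ).real {η | ¬ GoodV ρ β h n ε η} ≤
      ((n : ℝ) + 1) ^ 2 * ((2 * (n : ℝ) ^ 2 + 1) ^ d * (2 * (n : ℝ) + 1) ^ d) * B := h3
    _ ≤ 4 * 9 ^ d * (n : ℝ) ^ (3 * d + 2) * B := h11
    _ = 4 * 9 ^ d * ((n : ℝ) ^ (3 * d + 2) * B) := by ring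
    _ ≤ 4 * 9 ^ d * (C₀ * (n : ℝ) ^ (-(q : ℝ))) := h12
    _ = 4 * 9 ^ d * C₀ * (n : ℝ) ^ (-(q : ℝ)) := by ring

/-- U7. -/
theorem concV (hd : 0 < d) (hρ : EM ρ) (β R : ℝ) : ConcV d ρ β R := by
  refine ⟨Conc42_mean hd hρ β R, fun ε q hε => ?_⟩
  obtain ⟨C, hC⟩ := Conc42_good (d := d) hρ β hε q
  exact ⟨C, fun h _ n hn => hC h n hn⟩

end Pool.Agent.W_7d29a1_V
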