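import Pool.Agent.W_7d29a1_V.P20d
import Pool.Agent.W_7d29a1_V.Main46

/-!
The lower power bound of the free energy at every tilt and every small scale.
-/

namespace Pool.Agent.W_7d29a1_V

open MeasureTheory ProbabilityTheory Filter Topology Pool.Agent.W_MP_7d29a1_pr
  Pool.Agent.W_7d29a1_h46 Pool.Agent.W_7d29a1_h46u Pool.Agent.W_7d29a1_D2

variable {d : ℕ}

/-- The gap of a convex function is convex along the rays from the origin. -/
lemma gap_ray46 {L : Vec d → ℝ} (hL : ConvexOn ℝ Set.univ L) (h v r : Vec d) {t : ℝ}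
    (ht : 0 ≤ t) (ht1 : t ≤ 1) : gap L h v (t • r) ≤ t * gap L h v r := by
  have h1 := hL.2 (Set.mem_univ (h + r)) (Set.mem_univ h) ht (show (0 : ℝ) ≤ 1 - t by linarith)
    (by ring)
  have h2 : t • (h + r) + (1 - t) • h = h + t • r := by
    rw [smul_add, sub_smul, one_smul]
    abel
  rw [h2] at h1
  unfold gap
  rw [inner_smul_right]
  simp only [smul_eq_mul] at h1
  linarith

/-- A direction with a negative gap makes the gap grow linearly in the opposite direction. -/
lemma loA_of_neg46 {L : Vec d → ℝ} (hL : ConvexOn ℝ Set.univ L) {h v k : Vec d}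
    (hk : gap L h v k < 0) {p : ℝ} (hp : 1 ≤ p) : LoA L h v p := by
  have hk0 : k ≠ 0 := by
    rintro rfl
    unfold gap at hk
    simp at hk
  have hn : 0 < ‖k‖ := norm_pos_iff.2 hk0
  have hc : 0 < -gap L h v k / ‖k‖ := div_pos (by linarith) hn
  refine ⟨-gap L h v k / ‖k‖, hc, 1, one_pos, fun s hs hs1 => ⟨-(s / ‖k‖) • k, ?_, ?_⟩⟩
  · rw [neg_smul, norm_neg, norm_smul, Real.norm_eq_abs, abs_of_pos (by positivity)]
    field_simp
  · -- `h` lies between `h + k` and `h - t k`
    set t : ℝ := s / ‖k‖ with ht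
    have ht0 : 0 < t := by positivity
    have h1 : L h ≤ (t / (1 + t)) * L (h + k) + (1 / (1 + t)) * L (h + (-t) • k) := by
      have e1 : (t / (1 + t)) • (h + k) + (1 / (1 + t)) • (h + (-t) • k) = h := by
        have e2 : (1 + t) ≠ 0 := by positivity
        rw [smul_add, smul_add, smul_smul, add_add_add_comm, ← add_smul, ← add_smul]
        have e3 : t / (1 + t) + 1 / (1 + t) = 1 := by field_simp; ring
        have e4 : t / (1 + t) + 1 / (1 + t) * -t = 0 := by field_simp; ring
        rw [e3, e4, one_smul, zero_smul, add_zero]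
      have e5 := hL.2 (Set.mem_univ (h + k)) (Set.mem_univ (h + (-t) • k))
        (show (0 : ℝ) ≤ t / (1 + t) by positivity) (show (0 : ℝ) ≤ 1 / (1 + t) by positivity)
        (by field_simp; ring)
      rw [e1] at e5
      simpa [smul_eq_mul] using e5
    have h5 : (1 + t) * L h ≤ t * L (h + k) + L (h + (-t) • k) := by
      have e6 : (1 + t) * ((t / (1 + t)) * L (h + k) + (1 / (1 + t)) * L (h + (-t) • k)) =
          t * L (h + k) + L (h + (-t) • k) := by
        have e2 : (1 + t) ≠ 0 := by positivity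
        field_simp
      rw [← e6]
      exact mul_le_mul_of_nonneg_left h1 (by positivity)
    have h6 : t * -gap L h v k ≤ gap L h v ((-t) • k) := by
      unfold gap
      rw [inner_smul_right]
      linarith
    have h7 : s ^ p ≤ s := by
      calc s ^ p ≤ s ^ (1 : ℝ) := Real.rpow_le_rpow_of_exponent_ge hs hs1 hp
        _ = s := Real.rpow_one s
    calc -gap L h v k / ‖k‖ * s ^ p ≤ -gap L h v k / ‖k‖ * s :=
          mul_le_mul_of_nonneg_left h7 hc.le
      _ = t * -gap L h v k := by rw [ht]; ring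
      _ ≤ gap L h v ((-t) • k) := h6

/-- From the ball to the sphere. -/
lemma loA_of_ball46 {L : Vec d → ℝ} (hL : ConvexOn ℝ Set.univ L) {h v : Vec d}
    {p s₀ : ℝ} (hs₀ : 0 < s₀)
    (H : ∀ s : ℝ, 0 < s → s ≤ s₀ → ∃ r : Vec d, ‖r‖ ≤ s ∧ s ^ p ≤ gap L h v r) :
    LoA L h v p := by
  refine ⟨1, one_pos, s₀, hs₀, fun s hs hss => ?_⟩
  obtain ⟨r, hr, hg⟩ := H s hs hss
  have hsp : 0 < s ^ p := Real.rpow_pos_of_pos hs _
  have hr0 : r ≠ 0 := by
    rintro rfl
    unfold gap at hg
    simp at hg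
    linarith
  have hn : 0 < ‖r‖ := norm_pos_iff.2 hr0
  refine ⟨(s / ‖r‖) • r, ?_, ?_⟩
  · rw [norm_smul, Real.norm_eq_abs, abs_of_pos (by positivity)]
    field_simp
  · have h1 := gap_ray46 hL h v ((s / ‖r‖) • r) (t := ‖r‖ / s) (by positivity)
      (by rw [div_le_one hs]; exact hr)
    rw [smul_smul, show ‖r‖ / s * (s / ‖r‖) = 1 by field_simp, one_smul] at h1
    have h2 : 0 ≤ gap L h v ((s / ‖r‖) • r) := by
      by_contra hcon
      have h3 : ‖r‖ / s * gap L h v ((s / ‖r‖) • r) < 0 :=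
        mul_neg_of_pos_of_neg (by positivity) (not_le.1 hcon)
      linarith
    have h3 : ‖r‖ / s * gap L h v ((s / ‖r‖) • r) ≤ 1 * gap L h v ((s / ‖r‖) • r) :=
      mul_le_mul_of_nonneg_right (by rw [div_le_one hs]; exact hr) h2
    rw [one_mul]
    linarith

/-- **The lower power bound at every tilt, every direction, every small scale.** -/
theorem loA46 {ρ : Measure ℝ} [IsProbabilityMeasure ρ] (hd : 0 < d)
    (hnc : ∀ c : ℝ, ρ {c} ≠ 1) (hρ : EM ρ) {β : ℝ} (hβ : 0 < β) (h v : Vec d) {p : ℝ}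
    (hp : 2 * (d : ℝ) + 1 < p) : LoA (lam ρ β) h v p := by
  have hconv : ConvexOn ℝ Set.univ (lam ρ β : Vec d → ℝ) := lam_convex hd hρ β
  by_cases hv : ∀ k : Vec d, 0 ≤ gap (lam ρ β) h v k
  · obtain ⟨s₀, hs₀, H⟩ := P20.one_scale20 hd hnc hρ hβ (h := h) (v := v)
      (spaceV46 hd hρ β (‖h‖ + 1)) (fun k => by
        have := hv k
        unfold gap at this
        linarith) (show 0 < p - (2 * (d : ℝ) + 1) by linarith)
    refine loA_of_ball46 hconv hs₀ fun s hs hss => ?_
    obtain ⟨r, hr, hg⟩ := H s hs hss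
    rw [add_sub_cancel] at hg
    exact ⟨r, hr, hg⟩
  · push Not at hv
    obtain ⟨k, hk⟩ := hv
    refine loA_of_neg46 hconv hk ?_
    have : (0 : ℝ) ≤ d := Nat.cast_nonneg d
    linarith

end Pool.Agent.W_7d29a1_V
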