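import Pool.Agent.W_7d29a1_V.DefsV2
import Pool.Agent.W_7d29a1_h46u.ConcV
import Pool.Agent.W_7d29a1_h46u.LamU

/-!
Concentration of all point to point partition functions (leaf U7 of the frame `DefsV2`).
-/

namespace Pool.Agent.W_7d29a1_V.ConcV16

open MeasureTheory ProbabilityTheory Filter Topology Pool.Agent.W_MP_7d29a1_pr
  Pool.Agent.W_7d29a1_h46 Pool.Agent.W_7d29a1_h46u Pool.Agent.W_7d29a1_D2
  Pool.Agent.W_7d29a1_D2.B35 Pool.Agent.W_7d29a1_V

variable {d : ℕ} {ρ : Measure ℝ} [IsProbabilityMeasure ρ]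

/-- The partition function of a finite set of walks as a function of the rows. -/
noncomputable def ZrT {d : ℕ} (β : ℝ) (h : Vec d) (n : ℕ) (T : Finset (Fin n → Step d))
    (ξ : Fin n → Site d → ℝ) : ℝ :=
  ∑ s ∈ T, Real.exp (inner ℝ h (emb (pos s n)) +
    β * ∑ i : Fin n, ξ i (pos s ((i : ℕ) + 1)))

lemma ZrT_upd (β : ℝ) (h : Vec d) (n : ℕ) (T : Finset (Fin n → Step d)) (i : Fin n)
    (ξ : Fin n → Site d → ℝ) (u : Site d → ℝ) : ZrT β h n T (Function.update ξ i u) =
      ∑ s ∈ T, Real.exp (β * u (pos s ((i : ℕ) + 1))) * ConcU_w β h n i ξ s := by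
  unfold ZrT
  refine Finset.sum_congr rfl fun s _ => ?_
  have h1 : ∑ j : Fin n, Function.update ξ i u j (pos s ((j : ℕ) + 1)) =
      u (pos s ((i : ℕ) + 1)) + ∑ j ∈ Finset.univ.erase i, ξ j (pos s ((j : ℕ) + 1)) := by
    rw [← Finset.add_sum_erase _ _ (Finset.mem_univ i), Function.update_self]
    congr 1
    refine Finset.sum_congr rfl fun j hj => ?_
    rw [Function.update_of_ne (Finset.ne_of_mem_erase hj)]
  rw [h1]
  unfold ConcU_w
  rw [← Real.exp_add]
  congr 1
  ring

theorem row_boundT (hρ : EM ρ) (β : ℝ) (h : Vec d) (n : ℕ) {T : Finset (Fin n → Step d)}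
    (hT : T.Nonempty) (i : Fin n) :
    ∃ G : (Fin n → Site d → ℝ) → ℝ, Measurable G ∧
      (∀ ξ u, G (Function.update ξ i u) = G ξ) ∧
      ∀ ξ, Integrable (fun u => Real.exp (2 * |Real.log (ZrT β h n T (Function.update ξ i u)) - G ξ|))
          (Measure.infinitePi fun _ : Site d => ρ) ∧
        ∫ u, Real.exp (2 * |Real.log (ZrT β h n T (Function.update ξ i u)) - G ξ|)
          ∂(Measure.infinitePi fun _ : Site d => ρ) ≤ Kc β ρ := by
  classical
  refine ⟨fun ξ => Real.log (∑ s ∈ T, ConcU_w β h n i ξ s), ?_, ?_, ?_⟩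
  · exact Real.measurable_log.comp (Finset.measurable_sum _ fun s _ => ConcU_meas β h n i s)
  · intro ξ u
    simp only [ConcU_upd]
  intro ξ
  obtain ⟨w, hw⟩ : ∃ w : (Fin n → Step d) → ℝ, w = ConcU_w β h n i ξ := ⟨_, rfl⟩
  obtain ⟨U, hU⟩ : ∃ U : ℝ, U = ∑ s ∈ T, w s := ⟨_, rfl⟩
  have hw0 : ∀ s, 0 < w s := fun s => by rw [hw]; exact ConcU_w_pos _ _ _ _ _ _
  have hU0 : 0 < U := by
    rw [hU]
    exact Finset.sum_pos (fun s _ => hw0 s) hT
  -- the bound
  obtain ⟨B, hB⟩ : ∃ B : (Site d → ℝ) → ℝ, B = fun u => ∑ s ∈ T, (w s / U) *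
      (Real.exp (2 * β * u (pos s ((i : ℕ) + 1))) +
        Real.exp (-(2 * β) * u (pos s ((i : ℕ) + 1)))) := ⟨_, rfl⟩
  have hle : ∀ u : Site d → ℝ, Real.exp (2 * |Real.log (ZrT β h n T (Function.update ξ i u)) -
      Real.log (∑ s ∈ T, ConcU_w β h n i ξ s)|) ≤ B u := by
    intro u
    rw [ZrT_upd, ← hw]
    have h1 := (ConcU_alg T w (fun s => β * u (pos s ((i : ℕ) + 1)))
      (fun s _ => (hw0 s).le) (by rw [← hU]; exact hU0)).2
    refine h1.trans ?_
    rw [← hU, hB, Finset.sum_div]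
    refine Finset.sum_le_sum fun s _ => ?_
    rw [mul_div_right_comm]
    refine mul_le_mul_of_nonneg_left ?_ (div_nonneg (hw0 s).le hU0.le)
    have h2 := ConcU_exp_abs (β * u (pos s ((i : ℕ) + 1)))
    have e1 : 2 * (β * u (pos s ((i : ℕ) + 1))) = 2 * β * u (pos s ((i : ℕ) + 1)) := by ring
    rw [e1] at h2
    rw [show -(2 * β * u (pos s ((i : ℕ) + 1))) = -(2 * β) * u (pos s ((i : ℕ) + 1)) by ring] at h2
    exact h2
  have hI : ∀ s : Fin n → Step d, Integrable (fun u : Site d → ℝ => (w s / U) *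
      (Real.exp (2 * β * u (pos s ((i : ℕ) + 1))) +
        Real.exp (-(2 * β) * u (pos s ((i : ℕ) + 1)))))
      (Measure.infinitePi fun _ : Site d => ρ) := fun s =>
    ((ConcU_int hρ _ _).1.add (ConcU_int hρ _ _).1).const_mul _
  have hBI : Integrable B (Measure.infinitePi fun _ : Site d => ρ) := by
    rw [hB]
    exact integrable_finsetSum _ fun s _ => hI s
  have hBv : ∫ u, B u ∂(Measure.infinitePi fun _ : Site d => ρ) = Kc β ρ := by
    rw [hB, integral_finsetSum _ fun s _ => hI s]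
    have h3 : ∀ s : Fin n → Step d, ∫ u : Site d → ℝ, (w s / U) *
        (Real.exp (2 * β * u (pos s ((i : ℕ) + 1))) +
          Real.exp (-(2 * β) * u (pos s ((i : ℕ) + 1))))
        ∂(Measure.infinitePi fun _ : Site d => ρ) = (w s / U) * Kc β ρ := by
      intro s
      rw [integral_const_mul, integral_add (ConcU_int hρ _ _).1 (ConcU_int hρ _ _).1,
        (ConcU_int hρ _ _).2, (ConcU_int hρ _ _).2]
      unfold Kc
      rw [← integral_add (hρ _) (hρ _)]
      congr 1
      refine integral_congr_ae (Filter.Eventually.of_forall fun t => ?_)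
      change Real.exp (2 * β * t) + Real.exp (-(2 * β) * t) =
        Real.exp (2 * β * t) + Real.exp (-(2 * β * t))
      rw [neg_mul]
    rw [Finset.sum_congr rfl fun s _ => h3 s, ← Finset.sum_mul, ← Finset.sum_div, ← hU,
      div_self hU0.ne', one_mul]
  have hmeas : Measurable fun u : Site d → ℝ =>
      Real.exp (2 * |Real.log (ZrT β h n T (Function.update ξ i u)) -
        Real.log (∑ s ∈ T, ConcU_w β h n i ξ s)|) := by
    have h4 : Measurable fun u : Site d → ℝ => ZrT β h n T (Function.update ξ i u) := by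
      simp only [ZrT_upd]
      refine Finset.measurable_sum _ fun s _ => ?_
      have h6 : Measurable fun u : Site d → ℝ => u (pos s ((i : ℕ) + 1)) :=
        measurable_pi_apply _
      exact (Real.measurable_exp.comp (h6.const_mul β)).mul_const _
    have h5 := ((Real.measurable_log.comp h4).sub_const
      (Real.log (∑ s ∈ T, ConcU_w β h n i ξ s)))
    exact Real.measurable_exp.comp ((measurable_norm.comp h5).const_mul 2)
  have hint : Integrable (fun u : Site d → ℝ =>
      Real.exp (2 * |Real.log (ZrT β h n T (Function.update ξ i u)) -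
        Real.log (∑ s ∈ T, ConcU_w β h n i ξ s)|)) (Measure.infinitePi fun _ : Site d => ρ) := by
    refine hBI.mono' hmeas.aestronglyMeasurable (Filter.Eventually.of_forall fun u => ?_)
    rw [Real.norm_eq_abs, abs_of_pos (Real.exp_pos _)]
    exact hle u
  refine ⟨hint, ?_⟩
  rw [← hBv]
  exact integral_mono hint hBI hle

lemma ZrT_meas (β : ℝ) (h : Vec d) (n : ℕ) (T : Finset (Fin n → Step d)) :
    Measurable fun ξ : Fin n → Site d → ℝ => Real.log (ZrT β h n T ξ) := by
  refine Real.measurable_log.comp ?_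
  unfold ZrT
  refine Finset.measurable_sum _ fun s _ => Real.measurable_exp.comp ?_
  refine (Measurable.const_mul (Finset.measurable_sum _ fun i _ => ?_) β).const_add _
  exact (measurable_pi_apply _).comp (measurable_pi_apply i)

open Classical in
/-- The walks of length `m` from the origin to `z`. -/
noncomputable def Wk {d : ℕ} (m : ℕ) (z : Site d) : Finset (Fin m → Step d) :=
  Finset.univ.filter fun s => pos s m = z

lemma PP_eq (β : ℝ) (h : Vec d) (η : Env d) (m : ℕ) (z : Site d) :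
    PP β h η m z = ∑ s ∈ Wk m z, wgt β h η s := by
  classical
  unfold PP ZT Wk
  rw [Finset.sum_filter]
  refine Finset.sum_congr rfl fun s _ => ?_
  by_cases hs : pos s m = z
  · rw [if_pos hs, if_pos (show s ∈ {s : Fin m → Step d | pos s m = z} from hs)]
  · rw [if_neg hs, if_neg (show ¬ s ∈ {s : Fin m → Step d | pos s m = z} from hs)]

lemma Wk_ne {m : ℕ} {z : Site d} (hz : Rch m z) : (Wk m z).Nonempty := by
  classical
  obtain ⟨q, hq⟩ := hz
  exact ⟨q, Finset.mem_filter.2 ⟨Finset.mem_univ _, hq⟩⟩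

lemma PP_ZrT (β : ℝ) (h : Vec d) (η : Env d) (m : ℕ) (z : Site d) :
    ZrT β h m (Wk m z) (fun (i : Fin m) (y : Site d) => η ((i : ℕ) + 1, y)) = PP β h η m z := by
  rw [PP_eq]
  rfl

lemma PP_meas (β : ℝ) (h : Vec d) (m : ℕ) (z : Site d) :
    Measurable fun η : Env d => PP β h η m z := measurable_ZT β h _

/-- Exponential moments of the point to point partition functions. -/
theorem expP (hρ : EM ρ) (β : ℝ) (h : Vec d) (n : ℕ) {z : Site d} (hz : Rch n z) :
    Integrable (fun η => Real.log (PP β h η n z)) (law d ρ) ∧ ∀ θ : ℝ, |θ| ≤ 1 →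
      Integrable (fun η => Real.exp (θ * (Real.log (PP β h η n z) - aM ρ β h n z))) (law d ρ) ∧
      ∫ η, Real.exp (θ * (Real.log (PP β h η n z) - aM ρ β h n z)) ∂(law d ρ) ≤
        Real.exp (Kc β ρ ^ 2 * θ ^ 2 * n) := by
  have hmp := mp_rows (d := d) (ρ := ρ) n
  have hFm := ZrT_meas (d := d) β h n (Wk n z)
  obtain ⟨h1, h2⟩ := conc_pi n (fun ξ : Fin n → Site d → ℝ => Real.log (ZrT β h n (Wk n z) ξ)) hFm
    (fun i => row_boundT hρ β h n (Wk_ne hz) i)
  have hA : ∫ ξ, Real.log (ZrT β h n (Wk n z) ξ)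
      ∂(Measure.pi fun _ : Fin n => Measure.infinitePi fun _ : Site d => ρ) = aM ρ β h n z := by
    rw [← hmp.map_eq, integral_map hmp.measurable.aemeasurable hFm.aestronglyMeasurable]
    unfold aM
    exact integral_congr_ae (Filter.Eventually.of_forall fun η => by
      simp only [PP_ZrT])
  rw [hA] at h2
  have e0 : (fun η : Env d => Real.log (PP β h η n z)) =
      (fun ξ : Fin n → Site d → ℝ => Real.log (ZrT β h n (Wk n z) ξ)) ∘
      (fun (η : Env d) (i : Fin n) (y : Site d) => η ((i : ℕ) + 1, y)) := by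
    funext η
    simp only [Function.comp, PP_ZrT]
  refine ⟨?_, fun θ hθ => ?_⟩
  · rw [e0]
    exact hmp.integrable_comp_of_integrable h1
  · obtain ⟨h3, h4⟩ := h2 θ hθ
    have e1 : (fun η : Env d => Real.exp (θ * (Real.log (PP β h η n z) - aM ρ β h n z))) =
        (fun ξ : Fin n → Site d → ℝ => Real.exp (θ * (Real.log (ZrT β h n (Wk n z) ξ) -
          aM ρ β h n z))) ∘
        (fun (η : Env d) (i : Fin n) (y : Site d) => η ((i : ℕ) + 1, y)) := by
      funext η
      simp only [Function.comp, PP_ZrT]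
    refine ⟨?_, ?_⟩
    · rw [e1]
      exact hmp.integrable_comp_of_integrable h3
    · have h5 : ∫ η, Real.exp (θ * (Real.log (PP β h η n z) - aM ρ β h n z)) ∂(law d ρ) =
          ∫ ξ, Real.exp (θ * (Real.log (ZrT β h n (Wk n z) ξ) - aM ρ β h n z))
            ∂(Measure.pi fun _ : Fin n => Measure.infinitePi fun _ : Site d => ρ) := by
        have hm2 : Measurable fun ξ : Fin n → Site d → ℝ =>
            Real.exp (θ * (Real.log (ZrT β h n (Wk n z) ξ) - aM ρ β h n z)) :=
          Real.measurable_exp.comp ((hFm.sub_const _).const_mul θ)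
        rw [← hmp.map_eq, integral_map hmp.measurable.aemeasurable hm2.aestronglyMeasurable]
        exact integral_congr_ae (Filter.Eventually.of_forall fun η => by
          simp only [PP_ZrT])
      rw [h5]
      exact h4

/-- All moments, uniformly in the tilt and in the end point. -/
theorem momP (hρ : EM ρ) (β : ℝ) (q : ℕ) :
    ∃ C : ℝ, 0 ≤ C ∧ ∀ (h : Vec d) (n : ℕ) (z : Site d), 1 ≤ n → Rch n z →
      Integrable (fun η => |Real.log (PP β h η n z) - aM ρ β h n z| ^ q) (law d ρ) ∧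
      ∫ η, |Real.log (PP β h η n z) - aM ρ β h n z| ^ q ∂(law d ρ) ≤
        C * Real.sqrt n ^ q := by
  refine ⟨2 * (q.factorial : ℝ) * Real.exp (Kc β ρ ^ 2), by positivity, fun h n z hn hz => ?_⟩
  have hn' : (0 : ℝ) < n := by exact_mod_cast hn
  have hn1 : (1 : ℝ) ≤ n := by exact_mod_cast hn
  have hs : 0 < Real.sqrt n := Real.sqrt_pos.2 hn'
  have hs1 : 1 ≤ Real.sqrt n := by
    rw [show (1 : ℝ) = Real.sqrt 1 by simp]
    exact Real.sqrt_le_sqrt hn1
  have hsq : Real.sqrt n ^ 2 = n := Real.sq_sqrt hn'.le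
  set θ : ℝ := (Real.sqrt n)⁻¹ with hθdef
  have hθ : 0 < θ := inv_pos.2 hs
  have hθ1 : |θ| ≤ 1 := by
    rw [abs_of_pos hθ]
    exact inv_le_one_of_one_le₀ hs1
  have hθn : θ ^ 2 * n = 1 := by
    rw [hθdef, inv_pow, hsq]
    exact inv_mul_cancel₀ hn'.ne'
  obtain ⟨hi, hc⟩ := expP hρ β h n hz
  obtain ⟨i1, c1⟩ := hc θ hθ1
  obtain ⟨i2, c2⟩ := hc (-θ) (by rw [abs_neg]; exact hθ1)
  have k1 : Kc β ρ ^ 2 * θ ^ 2 * n = Kc β ρ ^ 2 := by
    rw [mul_assoc, hθn, mul_one]
  have k2 : Kc β ρ ^ 2 * (-θ) ^ 2 * n = Kc β ρ ^ 2 := by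
    rw [neg_sq, k1]
  rw [k1] at c1
  rw [k2] at c2
  -- pointwise bound
  have hb : ∀ y : ℝ, |y| ^ q ≤ (q.factorial : ℝ) * Real.sqrt n ^ q *
      (Real.exp (θ * y) + Real.exp (-θ * y)) := by
    intro y
    have h1 : (θ * |y|) ^ q / (q.factorial : ℝ) ≤ Real.exp (θ * |y|) :=
      Real.pow_div_factorial_le_exp _ (mul_nonneg hθ.le (abs_nonneg y)) q
    have h2 : Real.exp (θ * |y|) ≤ Real.exp (θ * y) + Real.exp (-θ * y) := by
      rcases abs_cases y with ⟨h3, _⟩ | ⟨h3, _⟩
      · rw [h3]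
        have := Real.exp_pos (-θ * y)
        linarith
      · rw [h3]
        have h4 : θ * -y = -θ * y := by ring
        rw [h4]
        have := Real.exp_pos (θ * y)
        linarith
    have hf : (0 : ℝ) < q.factorial := by exact_mod_cast q.factorial_pos
    rw [div_le_iff₀ hf] at h1
    have h5 : |y| = Real.sqrt n * (θ * |y|) := by
      rw [hθdef, ← mul_assoc, mul_inv_cancel₀ hs.ne', one_mul]
    have h6 : |y| ^ q = Real.sqrt n ^ q * (θ * |y|) ^ q := by
      rw [← mul_pow, ← h5]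
    rw [h6]
    have h7 : (θ * |y|) ^ q ≤ (Real.exp (θ * y) + Real.exp (-θ * y)) * q.factorial :=
      h1.trans (mul_le_mul_of_nonneg_right h2 hf.le)
    calc Real.sqrt n ^ q * (θ * |y|) ^ q ≤
        Real.sqrt n ^ q * ((Real.exp (θ * y) + Real.exp (-θ * y)) * q.factorial) :=
          mul_le_mul_of_nonneg_left h7 (by positivity)
      _ = _ := by ring
  have hsum : Integrable (fun η => (q.factorial : ℝ) * Real.sqrt n ^ q *
      (Real.exp (θ * (Real.log (PP β h η n z) - aM ρ β h n z)) +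
        Real.exp (-θ * (Real.log (PP β h η n z) - aM ρ β h n z))))
      (law d ρ) := (i1.add i2).const_mul _
  have hX : Measurable fun η : Env d => Real.log (PP β h η n z) :=
    Real.measurable_log.comp (PP_meas β h n z)
  have hint : Integrable (fun η => |Real.log (PP β h η n z) - aM ρ β h n z| ^ q) (law d ρ) := by
    refine hsum.mono' ?_ (Filter.Eventually.of_forall fun η => ?_)
    · exact (((hX.sub_const _).abs).pow_const q).aestronglyMeasurable
    · rw [Real.norm_eq_abs, abs_of_nonneg (by positivity)]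
      exact hb _
  refine ⟨hint, ?_⟩
  have h8 : ∫ η, |Real.log (PP β h η n z) - aM ρ β h n z| ^ q ∂(law d ρ) ≤
      ∫ η, (q.factorial : ℝ) * Real.sqrt n ^ q *
      (Real.exp (θ * (Real.log (PP β h η n z) - aM ρ β h n z)) +
        Real.exp (-θ * (Real.log (PP β h η n z) - aM ρ β h n z))) ∂(law d ρ) :=
    integral_mono hint hsum (fun η => hb _)
  rw [integral_const_mul, integral_add i1 i2] at h8
  refine h8.trans ?_
  have h10 : (0 : ℝ) ≤ (q.factorial : ℝ) * Real.sqrt n ^ q := by positivity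
  have h11 := mul_le_mul_of_nonneg_left (add_le_add c1 c2) h10
  refine h11.trans (le_of_eq ?_)
  ring

/-- One point to point partition function, started anywhere. -/
theorem tailP (hρ : EM ρ) (β : ℝ) (q : ℕ) :
    ∃ C : ℝ, 0 ≤ C ∧ ∀ (h : Vec d) (j : ℕ) (w : Site d) (n : ℕ) (z : Site d) (t : ℝ), 1 ≤ n →
      Rch n z → 0 < t →
      (law d ρ).real {η | Real.sqrt n * t < |Real.log (PP β h (sh j w η) n z) - aM ρ β h n z|} ≤
        C * (t ^ q)⁻¹ := by
  obtain ⟨C, hC, H⟩ := momP (d := d) (ρ := ρ) hρ β q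
  refine ⟨C, hC, fun h j w n z t hn hz ht => ?_⟩
  obtain ⟨h1, h2⟩ := H h n z hn hz
  have hn' : (0 : ℝ) < n := by exact_mod_cast hn
  have hs : 0 < Real.sqrt n := Real.sqrt_pos.2 hn'
  have hm : MeasurableSet {η : Env d | Real.sqrt n * t <
      |Real.log (PP β h η n z) - aM ρ β h n z|} := by
    refine measurableSet_lt measurable_const ?_
    exact ((Real.measurable_log.comp (PP_meas β h n z)).sub_const _).abs
  have e1 : (law d ρ).real {η | Real.sqrt n * t <
      |Real.log (PP β h (sh j w η) n z) - aM ρ β h n z|} =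
      (law d ρ).real {η : Env d | Real.sqrt n * t <
        |Real.log (PP β h η n z) - aM ρ β h n z|} := by
    rw [measureReal_def, measureReal_def, ← (mp_sh (ρ := ρ) j w).measure_preimage
      hm.nullMeasurableSet]
    rfl
  rw [e1]
  have hpos : 0 < (Real.sqrt n * t) ^ q := pow_pos (mul_pos hs ht) q
  have h3 := mul_meas_ge_le_integral_of_nonneg (μ := law d ρ)
    (f := fun η => |Real.log (PP β h η n z) - aM ρ β h n z| ^ q)
    (Filter.Eventually.of_forall fun η => by positivity) h1 ((Real.sqrt n * t) ^ q)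
  have h4 : (law d ρ).real {η : Env d | Real.sqrt n * t <
      |Real.log (PP β h η n z) - aM ρ β h n z|} ≤
      (law d ρ).real {η : Env d | (Real.sqrt n * t) ^ q ≤
        |Real.log (PP β h η n z) - aM ρ β h n z| ^ q} := by
    refine measureReal_mono ?_ (measure_ne_top _ _)
    intro η hη
    have hη' : Real.sqrt n * t < |Real.log (PP β h η n z) - aM ρ β h n z| := hη
    exact pow_le_pow_left₀ (mul_pos hs ht).le hη'.le q
  refine h4.trans ?_
  have h5 : (Real.sqrt n * t) ^ q * (law d ρ).real {η : Env d | (Real.sqrt n * t) ^ q ≤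
        |Real.log (PP β h η n z) - aM ρ β h n z| ^ q} ≤ C * Real.sqrt n ^ q := h3.trans h2
  rw [← div_eq_mul_inv, le_div_iff₀ (pow_pos ht q)]
  have h6 : 0 < Real.sqrt n ^ q := pow_pos hs q
  refine le_of_mul_le_mul_left ?_ h6
  refine (le_of_eq ?_).trans (h5.trans (le_of_eq (mul_comm _ _)))
  rw [mul_pow (Real.sqrt n) t q]
  ring

/-- Union bound. -/
lemma unionP {n : ℕ} (hn : 1 ≤ n) {S : ℕ → ℕ → Site d → Site d → Set (Env d)} {B : ℝ}
    (hB : 0 ≤ B) (hS : ∀ j ≤ n, ∀ s ≤ n, ∀ w ∈ boxF d (n ^ 2), ∀ z ∈ boxF d n,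
      (law d ρ).real (S j s w z) ≤ B) :
    (law d ρ).real {η | ¬ ∀ j ≤ n, ∀ s ≤ n, ∀ w ∈ boxF d (n ^ 2), ∀ z ∈ boxF d n,
      η ∉ S j s w z} ≤ 4 * 9 ^ d * (n : ℝ) ^ (2 + 3 * d) * B := by
  classical
  have hsub : {η | ¬ ∀ j ≤ n, ∀ s ≤ n, ∀ w ∈ boxF d (n ^ 2), ∀ z ∈ boxF d n,
      η ∉ S j s w z} ⊆
      ⋃ a ∈ (Finset.range (n + 1) ×ˢ Finset.range (n + 1)) ×ˢ (boxF d (n ^ 2) ×ˢ boxF d n),
        S a.1.1 a.1.2 a.2.1 a.2.2 := by
    intro η hη
    by_contra hcon
    apply hη
    intro j hj s hs w hw z hz hc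
    apply hcon
    rw [Set.mem_iUnion₂]
    exact ⟨((j, s), (w, z)), Finset.mem_product.2 ⟨Finset.mem_product.2
      ⟨Finset.mem_range.2 (Nat.lt_succ_iff.2 hj), Finset.mem_range.2 (Nat.lt_succ_iff.2 hs)⟩,
      Finset.mem_product.2 ⟨hw, hz⟩⟩, hc⟩
  have hn1 : (1 : ℝ) ≤ n := by exact_mod_cast hn
  have hcount : ((n : ℝ) + 1) * ((n : ℝ) + 1) * ((2 * (n : ℝ) ^ 2 + 1) ^ d *
      (2 * (n : ℝ) + 1) ^ d) ≤ 4 * 9 ^ d * (n : ℝ) ^ (2 + 3 * d) := by
    have h4 : (n : ℝ) + 1 ≤ 2 * n := by linarith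
    have h5 : (2 * (n : ℝ) + 1) ^ d ≤ 3 ^ d * (n : ℝ) ^ d := by
      rw [← mul_pow]
      exact pow_le_pow_left₀ (by positivity) (by linarith) d
    have h6 : (2 * (n : ℝ) ^ 2 + 1) ^ d ≤ 3 ^ d * ((n : ℝ) ^ 2) ^ d := by
      rw [← mul_pow]
      refine pow_le_pow_left₀ (by positivity) ?_ d
      nlinarith
    calc ((n : ℝ) + 1) * ((n : ℝ) + 1) * ((2 * (n : ℝ) ^ 2 + 1) ^ d * (2 * (n : ℝ) + 1) ^ d)
        ≤ ((2 * n) * (2 * n)) * ((3 ^ d * ((n : ℝ) ^ 2) ^ d) * (3 ^ d * (n : ℝ) ^ d)) := by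
          refine mul_le_mul (mul_le_mul h4 h4 (by positivity) (by positivity))
            (mul_le_mul h6 h5 (by positivity) (by positivity)) (by positivity) (by positivity)
      _ = 4 * 9 ^ d * (n : ℝ) ^ (2 + 3 * d) := by
          have h7 : (9 : ℝ) ^ d = 3 ^ d * 3 ^ d := by
            rw [← mul_pow]
            norm_num
          rw [h7, pow_add, pow_mul, ← pow_mul]
          have h8 : ((n : ℝ) ^ 3) ^ d = (n : ℝ) ^ (2 * d) * (n : ℝ) ^ d := by
            rw [← pow_mul, ← pow_add]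
            congr 1
            ring
          rw [h8]
          ring
  calc (law d ρ).real {η | ¬ ∀ j ≤ n, ∀ s ≤ n, ∀ w ∈ boxF d (n ^ 2), ∀ z ∈ boxF d n,
      η ∉ S j s w z}
      ≤ (law d ρ).real (⋃ a ∈ (Finset.range (n + 1) ×ˢ Finset.range (n + 1)) ×ˢ
          (boxF d (n ^ 2) ×ˢ boxF d n), S a.1.1 a.1.2 a.2.1 a.2.2) :=
        measureReal_mono hsub (measure_ne_top _ _)
    _ ≤ ∑ a ∈ (Finset.range (n + 1) ×ˢ Finset.range (n + 1)) ×ˢ (boxF d (n ^ 2) ×ˢ boxF d n),
          (law d ρ).real (S a.1.1 a.1.2 a.2.1 a.2.2) := measureReal_biUnion_finset_le _ _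
    _ ≤ ∑ a ∈ (Finset.range (n + 1) ×ˢ Finset.range (n + 1)) ×ˢ (boxF d (n ^ 2) ×ˢ boxF d n),
          B := by
        refine Finset.sum_le_sum fun a ha => ?_
        have h1 := Finset.mem_product.1 ha
        have h2 := Finset.mem_product.1 h1.1
        have h3 := Finset.mem_product.1 h1.2
        exact hS a.1.1 (Nat.lt_succ_iff.1 (Finset.mem_range.1 h2.1)) a.1.2
          (Nat.lt_succ_iff.1 (Finset.mem_range.1 h2.2)) a.2.1 h3.1 a.2.2 h3.2
    _ = ((n : ℝ) + 1) * ((n : ℝ) + 1) * ((2 * (n : ℝ) ^ 2 + 1) ^ d * (2 * (n : ℝ) + 1) ^ d) *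
          B := by
        rw [Finset.sum_const, Finset.card_product, Finset.card_product, Finset.card_product,
          Finset.card_range, card_boxF, card_boxF, nsmul_eq_mul]
        push_cast
        ring
    _ ≤ 4 * 9 ^ d * (n : ℝ) ^ (2 + 3 * d) * B := mul_le_mul_of_nonneg_right hcount hB

lemma log_zero {z : Site d} (hz : Rch 0 z) (β : ℝ) (h : Vec d) (η : Env d) :
    Real.log (PP β h η 0 z) = 0 := by
  classical
  obtain ⟨q, hq⟩ := hz
  have h0 : z = 0 := by
    rw [← hq]
    exact Finset.sum_of_isEmpty _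
  have h1 : PP β h η 0 z = Z β h η 0 := by
    rw [PP_eq, Z_eq]
    refine Finset.sum_subset (Finset.subset_univ _) fun s _ hs => ?_
    exfalso
    apply hs
    refine Finset.mem_filter.2 ⟨Finset.mem_univ _, ?_⟩
    rw [h0]
    exact Finset.sum_of_isEmpty _
  rw [h1, Z_zero, Real.log_one]

/-- The mean of the energy of a walk. -/
lemma int_energy (hρ : EM ρ) {n : ℕ} (s : Fin n → Step d) :
    Integrable (fun η : Env d => energy η s) (law d ρ) ∧
      ∫ η, energy η s ∂(law d ρ) = n * ∫ t, t ∂ρ := by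
  have hid : Integrable (fun t : ℝ => t) ρ := by
    have h1 : Integrable (fun t : ℝ => Real.exp (1 * t) + Real.exp (-1 * t)) ρ :=
      (hρ 1).add (hρ (-1))
    refine h1.mono' measurable_id.aestronglyMeasurable (Filter.Eventually.of_forall fun t => ?_)
    rw [Real.norm_eq_abs]
    have h2 := Real.add_one_le_exp t
    have h3 := Real.add_one_le_exp (-t)
    rw [one_mul, neg_one_mul]
    rcases abs_cases t with ⟨h4, _⟩ | ⟨h4, _⟩ <;> rw [h4]
    · linarith [Real.exp_pos (-t)]
    · linarith [Real.exp_pos t]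
  have hp : ∀ p : ℕ × Site d, MeasurePreserving (Function.eval p) (law d ρ) ρ := fun p =>
    measurePreserving_eval_infinitePi (fun _ : ℕ × Site d => ρ) p
  have hI : ∀ p : ℕ × Site d, Integrable (fun η : Env d => η p) (law d ρ) := fun p =>
    ((hp p).integrable_comp hid.aestronglyMeasurable).2 hid
  have hV : ∀ p : ℕ × Site d, ∫ η : Env d, η p ∂(law d ρ) = ∫ t, t ∂ρ := by
    intro p
    have h1 := integral_map (μ := law d ρ) (hp p).measurable.aemeasurable
      (f := fun t : ℝ => t) (by rw [(hp p).map_eq]; exact hid.aestronglyMeasurable)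
    rw [(hp p).map_eq] at h1
    exact h1.symm
  constructor
  · unfold energy
    exact integrable_finsetSum _ fun i _ => hI _
  · unfold energy
    rw [integral_finsetSum _ fun i _ => hI _, Finset.sum_congr rfl fun i _ => hV _,
      Finset.sum_const, Finset.card_univ, Fintype.card_fin, nsmul_eq_mul]

/-- **Leaf U7.** -/
theorem concV (hd : 0 < d) (hρ : EM ρ) (β R : ℝ) : Pool.Agent.W_7d29a1_V.ConcV d ρ β R := by
  constructor
  · -- the means are linear
    refine ⟨|lam ρ β (0 : Vec d)| + R + (R + |β| * |∫ t, t ∂ρ|), fun h hR s z hz => ?_⟩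
    have hR0 : 0 ≤ R := (norm_nonneg h).trans hR
    have hs0 : (0 : ℝ) ≤ s := Nat.cast_nonneg s
    obtain ⟨hi, -⟩ := expP hρ β h s hz
    obtain ⟨q, hq⟩ := id hz
    have hup : aM ρ β h s z ≤ s * lam ρ β (0 : Vec d) + R * s := by
      have h0 : aM ρ β h s z ≤ A ρ β h s := by
        unfold aM A
        refine integral_mono hi (concU hd hρ β h s).1 fun η => ?_
        have h1 : 0 < PP β h η s z := by
          rw [PP_eq]
          exact Finset.sum_pos (fun s _ => wgt_pos _ _ _ _) (Wk_ne hz)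
        exact Real.log_le_log h1 (PP_le_Z β h η s z)
      have h1 : A ρ β h s ≤ A ρ β (0 : Vec d) s + R * s := by
        have h2 : ∫ η, X β h η s ∂(law d ρ) ≤
            ∫ η, (X β (0 : Vec d) η s + R * s) ∂(law d ρ) := by
          refine integral_mono (concU hd hρ β h s).1
            ((concU hd hρ β (0 : Vec d) s).1.add (integrable_const _)) fun η => ?_
          have h3 := X_tilt hd β (0 : Vec d) h η s
          rw [zero_add] at h3
          have h4 : ‖h‖ * s ≤ R * s := mul_le_mul_of_nonneg_right hR hs0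
          change X β h η s ≤ X β (0 : Vec d) η s + R * s
          linarith
        rw [integral_add (concU hd hρ β (0 : Vec d) s).1 (integrable_const _)] at h2
        simpa [A] using h2
      have h2 := A_le_lam hd hρ β (0 : Vec d) s
      linarith
    obtain ⟨e1, e2⟩ := int_energy (d := d) hρ q
    have hlo : inner ℝ h (emb z) + β * (s * ∫ t, t ∂ρ) ≤ aM ρ β h s z := by
      have h1 : ∫ η, (inner ℝ h (emb z) + β * energy η q) ∂(law d ρ) ≤ aM ρ β h s z := by
        unfold aM
        refine integral_mono ((integrable_const _).add (e1.const_mul β)) hi fun η => ?_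
        have h2 : wgt β h η q ≤ PP β h η s z := by
          rw [PP_eq]
          refine Finset.single_le_sum (f := fun s => wgt β h η s)
            (fun s _ => (wgt_pos _ _ _ _).le) ?_
          classical
          exact Finset.mem_filter.2 ⟨Finset.mem_univ _, hq⟩
        have h3 : Real.log (wgt β h η q) = inner ℝ h (emb z) + β * energy η q := by
          unfold wgt
          rw [Real.log_exp, hq]
        change inner ℝ h (emb z) + β * energy η q ≤ Real.log (PP β h η s z)
        rw [← h3]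
        exact Real.log_le_log (wgt_pos _ _ _ _) h2
      rw [integral_add (integrable_const _) (e1.const_mul β), integral_const_mul, e2] at h1
      simpa using h1
    have hin : |inner ℝ h (emb z)| ≤ R * s := by
      refine (abs_real_inner_le_norm _ _).trans (mul_le_mul hR ?_ (norm_nonneg _) hR0)
      rw [norm_emb, ← hq]
      exact nrm_pos_le q s
    have h4 := (abs_le.1 hin).1
    have h5 : |β * (s * ∫ t, t ∂ρ)| = |β| * |∫ t, t ∂ρ| * s := by
      rw [abs_mul, abs_mul, abs_of_nonneg hs0]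
      ring
    have h6 := neg_abs_le (β * (s * ∫ t, t ∂ρ))
    have h7 : s * lam ρ β (0 : Vec d) ≤ |lam ρ β (0 : Vec d)| * s := by
      rw [mul_comm]
      exact mul_le_mul_of_nonneg_right (le_abs_self _) hs0
    have h8 : 0 ≤ |β| * |∫ t, t ∂ρ| * s := by positivity
    have h9 : 0 ≤ |lam ρ β (0 : Vec d)| * s := by positivity
    have h10 : 0 ≤ R * s := by positivity
    have e3 : (|lam ρ β (0 : Vec d)| + R + (R + |β| * |∫ t, t ∂ρ|)) * s =
        |lam ρ β (0 : Vec d)| * s + R * s + (R * s + |β| * |∫ t, t ∂ρ| * s) := by ring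
    rw [abs_le, e3]
    constructor
    · linarith
    · linarith
  · intro ε q hε
    obtain ⟨Q, hQ⟩ := exists_nat_ge (((q : ℝ) + (2 + 3 * d : ℕ)) / ε)
    have hQ' : (q : ℝ) + (2 + 3 * d : ℕ) ≤ ε * Q := by
      rw [div_le_iff₀ hε] at hQ
      linarith
    obtain ⟨C, hC, H⟩ := tailP (d := d) (ρ := ρ) hρ β Q
    refine ⟨4 * 9 ^ d * C, fun h _ n hn => ?_⟩
    have hn1 : (1 : ℝ) ≤ n := by exact_mod_cast hn
    have hn0 : (0 : ℝ) < n := by linarith
    have hne : 0 < (n : ℝ) ^ ε := Real.rpow_pos_of_pos hn0 _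
    classical
    obtain ⟨S, hSd⟩ : ∃ S : ℕ → ℕ → Site d → Site d → Set (Env d), S = fun j s w z =>
        if 1 ≤ s ∧ Rch s z then {η | Real.sqrt s * (n : ℝ) ^ ε <
          |Real.log (PP β h (sh j w η) s z) - aM ρ β h s z|} else ∅ := ⟨_, rfl⟩
    have hS : ∀ j ≤ n, ∀ s ≤ n, ∀ w ∈ boxF d (n ^ 2), ∀ z ∈ boxF d n,
        (law d ρ).real (S j s w z) ≤ C * (((n : ℝ) ^ ε) ^ Q)⁻¹ := by
      intro j _ s _ w _ z _
      rw [hSd]
      simp only
      split_ifs with hc
      · exact H h j w s z _ hc.1 hc.2 hne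
      · rw [measureReal_empty]
        positivity
    have hU := unionP (d := d) (ρ := ρ) hn (B := C * (((n : ℝ) ^ ε) ^ Q)⁻¹) (by positivity) hS
    have hsub : {η | ¬ GoodV ρ β h n ε η} ⊆ {η | ¬ ∀ j ≤ n, ∀ s ≤ n, ∀ w ∈ boxF d (n ^ 2),
        ∀ z ∈ boxF d n, η ∉ S j s w z} := by
      intro η hη hcon
      apply hη
      intro j s hjs w hw z hz
      rcases Nat.eq_zero_or_pos s with rfl | hs
      · have h1 : aM ρ β h 0 z = 0 := by
          unfold aM
          simp only [log_zero hz, integral_zero]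
        rw [log_zero hz, h1]
        simp
      · have hzn : z ∈ boxF d n := by
          obtain ⟨p, hp⟩ := id hz
          rw [← hp]
          exact TubV_box (by omega) (pos_mem_box p s)
        have h2 := hcon j (by omega) s (by omega) w hw z hzn
        rw [hSd] at h2
        simp only at h2
        rw [if_pos ⟨hs, hz⟩] at h2
        exact not_lt.1 h2
    refine (measureReal_mono hsub (measure_ne_top _ _)).trans (hU.trans ?_)
    have e1 : (((n : ℝ) ^ ε) ^ Q)⁻¹ = (n : ℝ) ^ (-(ε * Q)) := by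
      rw [← Real.rpow_natCast ((n : ℝ) ^ ε) Q, ← Real.rpow_mul hn0.le, Real.rpow_neg hn0.le]
    have e2 : (n : ℝ) ^ (2 + 3 * d) * (n : ℝ) ^ (-(ε * Q)) ≤ (n : ℝ) ^ (-(q : ℝ)) := by
      rw [← Real.rpow_natCast (n : ℝ) (2 + 3 * d), ← Real.rpow_add hn0]
      refine Real.rpow_le_rpow_of_exponent_le hn1 ?_
      linarith
    rw [e1]
    calc 4 * 9 ^ d * (n : ℝ) ^ (2 + 3 * d) * (C * (n : ℝ) ^ (-(ε * Q)))
        = 4 * 9 ^ d * C * ((n : ℝ) ^ (2 + 3 * d) * (n : ℝ) ^ (-(ε * Q))) := by ring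
      _ ≤ 4 * 9 ^ d * C * (n : ℝ) ^ (-(q : ℝ)) :=
          mul_le_mul_of_nonneg_left e2 (by positivity)

end Pool.Agent.W_7d29a1_V.ConcV16
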