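import Pool.Agent.W_7d29a1_D2.Defs46
import Pool.Agent.W_7d29a1_D2.Blk35

/-!
`2 χ ≤ ν*` in every dimension: definitions and frozen statements of the leaves.
-/

namespace Pool.Agent.W_7d29a1_V

open MeasureTheory ProbabilityTheory Filter Topology Pool.Agent.W_MP_7d29a1_pr
  Pool.Agent.W_7d29a1_h46 Pool.Agent.W_7d29a1_h46u Pool.Agent.W_7d29a1_D2
  Pool.Agent.W_7d29a1_D2.B35

/-- The `ℓ¹` norm on the lattice. -/
def l1 {d : ℕ} (z : Site d) : ℕ := ∑ i, (z i).natAbs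

/-- The site `z` can be reached in `s` steps. -/
def Rch {d : ℕ} (s : ℕ) (z : Site d) : Prop := ∃ q : Fin s → Step d, pos q s = z

/-- The mean of the logarithm of the point to point partition function. -/
noncomputable def aM {d : ℕ} (ρ : Measure ℝ) (β : ℝ) (h : Vec d) (s : ℕ) (z : Site d) : ℝ :=
  ∫ η, Real.log (PP β h η s z) ∂(law d ρ)

/-- The good environments: all point to point partition functions are close to their means. -/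
def GoodV {d : ℕ} (ρ : Measure ℝ) (β : ℝ) (h : Vec d) (n : ℕ) (ε : ℝ) (η : Env d) : Prop :=
  ∀ j s : ℕ, j + s ≤ n → ∀ w ∈ boxF d (n ^ 2), ∀ z : Site d, Rch s z →
    |Real.log (PP β h (sh j w η) s z) - aM ρ β h s z| ≤ Real.sqrt s * (n : ℝ) ^ ε

/-- No steep places at the scale `m`. -/
structure NSn {d : ℕ} (β : ℝ) (h : Vec d) (n m : ℕ) (κ C : ℝ) (η : Env d) : Prop where
  ext : ∀ j : ℕ, j + m ≤ n → ∀ w ∈ boxF d (20 * n),
    ∑ z ∈ (boxF d m).filter (fun z => (1 - κ) * m < (l1 z : ℝ)),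
      PP β h (sh j w η) m z * Z β h (sh (j + m) (w + z) η) (n - (j + m)) ≤
        Real.exp (-(κ * m / 2)) * Z β h (sh j w η) (n - j)
  loc : ∀ j s : ℕ, s ≤ m → j + s ≤ n → ∀ w ∈ boxF d (20 * n), ∀ z : Site d, Rch s z →
    Real.exp (-(C * m)) ≤ PP β h (sh j w η) s z ∧ PP β h (sh j w η) s z ≤ Real.exp (C * m)
  lip : ∀ j : ℕ, j ≤ n → ∀ w ∈ boxF d (20 * n), ∀ w' ∈ boxF d (20 * n), Even (l1 (w - w')) →
    X β h (sh j w η) (n - j) ≤ X β h (sh j w' η) (n - j) + C * ((l1 (w - w') : ℝ) + m)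

/-- The source at `2 x e_k`. -/
def src {d : ℕ} (k : Fin d) (x : ℕ) : Site d := Pi.single k (2 * (x : ℤ))

/-- The logarithm of the partition function of the source `2 x e_k`. -/
noncomputable def Us {d : ℕ} (β : ℝ) (h : Vec d) (n : ℕ) (k : Fin d) (x : ℕ) (η : Env d) : ℝ :=
  X β h (sh 0 (src k x) η) n

/-- The mixture of the sources `0` and `2 x e_k` at the level `a`. -/
noncomputable def Za {d : ℕ} (β : ℝ) (h : Vec d) (n : ℕ) (k : Fin d) (a : ℝ) (x : ℕ)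
    (η : Env d) : ℝ :=
  Z β h η n + Real.exp (-a) * Z β h (sh 0 (src k x) η) n

/-- The site `p` is a right site: the source `2 x e_k` dominates the source `0` there. -/
def rt {d : ℕ} (β : ℝ) (h : Vec d) (k : Fin d) (x : ℕ) (a : ℝ) (η : Env d) (p : ℕ × Site d) :
    Prop :=
  PP β h η p.1 p.2 ≤ Real.exp (-a) * PP β h (sh 0 (src k x) η) p.1 (p.2 - src k x)

open Classical in
/-- The new environment: the right sites are moved by `-2 e_k`, the left sites stay, the holes are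
filled by the second environment. -/
noncomputable def om {d : ℕ} (β : ℝ) (h : Vec d) (k : Fin d) (x : ℕ) (a : ℝ) (η ξ : Env d) :
    Env d := fun p =>
  if rt β h k x a η p then
    (if rt β h k x a η (p.1, p.2 + src k 1) then η (p.1, p.2 + src k 1) else ξ p)
  else η p

/-- Good levels: no site has nearly equal weights from both sources. -/
def GdL {d : ℕ} (β : ℝ) (h : Vec d) (n : ℕ) (k : Fin d) (x : ℕ) (g a : ℝ) (η : Env d) : Prop :=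
  ∀ i : ℕ, i ≤ n → ∀ y : Site d,
    (1 + g) * (Real.exp (-a) * PP β h (sh 0 (src k x) η) i (y - src k x)) ≤ PP β h η i y ∨
    (1 + g) * PP β h η i y ≤ Real.exp (-a) * PP β h (sh 0 (src k x) η) i (y - src k x)

/-- The scale `⌈n ^ δ⌉`. -/
noncomputable def mm (δ : ℝ) (n : ℕ) : ℕ := ⌈(n : ℝ) ^ δ⌉₊

/-! ### The frozen statements of the leaves: everything is uniform in the tilt `h`, `‖h‖ ≤ R`. -/

section Leaves

variable (d : ℕ) (ρ : Measure ℝ) (β R : ℝ)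

/-- U7: concentration of the point to point partition functions. -/
def ConcV : Prop :=
  (∃ C : ℝ, ∀ h : Vec d, ‖h‖ ≤ R → ∀ (s : ℕ) (z : Site d), Rch s z → |aM ρ β h s z| ≤ C * s) ∧
  ∀ (ε : ℝ) (q : ℕ), 0 < ε → ∃ C : ℝ, ∀ h : Vec d, ‖h‖ ≤ R → ∀ n : ℕ, 1 ≤ n →
    (law d ρ).real {η | ¬ GoodV ρ β h n ε η} ≤ C * (n : ℝ) ^ (-(q : ℝ))

/-- U8: the means are Lipschitz inside the cone. -/
def MeanLipV : Prop := ∀ ε κ : ℝ, 0 < ε → 0 < κ → κ < 1 → ∃ C : ℝ, 0 < C ∧ ∃ n₀ : ℕ,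
  ∀ h : Vec d, ‖h‖ ≤ R → ∀ n t : ℕ, n₀ ≤ n → t ≤ n → ∀ z ζ : Site d, Rch t z →
    (l1 z : ℝ) ≤ (1 - κ) * t → Even (l1 ζ) → ∀ k : ℝ, 1 ≤ k → (l1 ζ : ℝ) ≤ k → C * k ≤ t →
      aM ρ β h t z - C * k - C * (Real.sqrt t * (n : ℝ) ^ ε) ≤ aM ρ β h t (z + ζ)

/-- U9: the means are steep at the boundary of the cone. -/
def MeanSteepV : Prop := ∀ ε : ℝ, 0 < ε → ∃ C : ℝ, 0 < C ∧ ∃ n₀ : ℕ, ∀ κ : ℝ, 0 < κ → κ < 1 / 8 →
  ∀ h : Vec d, ‖h‖ ≤ R → ∀ n t : ℕ, n₀ ≤ n → t ≤ n → 1 ≤ κ * t → ∀ z : Site d, Rch t z →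
    (1 - κ) * t ≤ (l1 z : ℝ) →
    ∃ u : Site d, Rch t u ∧ Even (l1 (u - z)) ∧ (l1 (u - z) : ℝ) ≤ 4 * κ * t ∧
      aM ρ β h t z + κ * t * (Real.log (1 / κ) - C) - C * (Real.sqrt t * (n : ℝ) ^ ε) ≤
        aM ρ β h t u

/-- U10: no steep places, with overwhelming probability. -/
def NSV : Prop := ∀ δ : ℝ, 0 < δ → δ < 1 → ∃ κ C : ℝ, 0 < κ ∧ κ < 1 / 2 ∧ 0 < C ∧
  ∀ q : ℕ, ∃ C' : ℝ, ∀ h : Vec d, ‖h‖ ≤ R → ∀ n : ℕ, 1 ≤ n →
    (law d ρ).real {η | ¬ NSn β h n (mm δ n) κ C η} ≤ C' * (n : ℝ) ^ (-(q : ℝ))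

/-- U2: the law of the new environment. -/
def LawV : Prop := ∀ (h : Vec d) (k : Fin d) (x : ℕ) (a : ℝ),
  MeasurePreserving (fun w : Env d × Env d => om β h k x a w.1 w.2)
    ((law d ρ).prod (law d ρ)) (law d ρ)

/-- U5: the cost at a good level (deterministic). -/
def CostV : Prop := ∀ δ κ C K : ℝ, 0 < δ → δ < 1 → 0 < κ → κ < 1 / 2 → 0 < C → 0 < K →
  ∃ C' : ℝ, 0 < C' ∧ ∃ n₀ : ℕ, ∀ (h : Vec d) (n : ℕ), n₀ ≤ n → ∀ (k : Fin d) (x : ℕ),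
    2 * mm δ n ≤ x → x ≤ 5 * n → ∀ (a : ℝ) (η ξ : Env d), NSn β h n (mm δ n) κ C η →
      GdL β h n k x ((n : ℝ) ^ (-K)) a η →
      Real.log (Za β h n k a x η) ≤
        Real.log (Za β h n k a (x - 1) (om β h k x a η ξ)) + C' * mm δ n

/-- U6: the cost at a level far from the difference of the two sources (deterministic). -/
def FarV : Prop := ∀ δ κ C : ℝ, 0 < δ → δ < 1 → 0 < κ → κ < 1 / 2 → 0 < C →
  ∃ C' c' : ℝ, 0 < C' ∧ 0 < c' ∧ ∃ n₀ : ℕ, ∀ (h : Vec d) (n : ℕ), n₀ ≤ n →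
    ∀ (k : Fin d) (x : ℕ), 2 * mm δ n ≤ x → x ≤ 5 * n → ∀ (a : ℝ) (η ξ : Env d),
      NSn β h n (mm δ n) κ C η →
      C' * mm δ n ≤ |a - (Us β h n k x η - Us β h n k 0 η)| →
      Real.log (Za β h n k a x η) ≤
        Real.log (Za β h n k a (x - 1) (om β h k x a η ξ)) + Real.exp (-(c' * mm δ n))

/-- The even moments of the difference of the sources `0` and `2 x e_k`. -/
noncomputable def Mo {d : ℕ} (ρ : Measure ℝ) (β : ℝ) (h : Vec d) (n : ℕ) (k : Fin d) (p x : ℕ) :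
    ℝ := ∫ η, (Us β h n k x η - Us β h n k 0 η) ^ (2 * p) ∂(law d ρ)

/-- U3: one step of the source. -/
def StepV : Prop := ∀ δ : ℝ, 0 < δ → δ < 1 → ∀ p : ℕ, 1 ≤ p → ∃ C : ℝ, ∃ n₀ : ℕ,
  ∀ h : Vec d, ‖h‖ ≤ R → ∀ n : ℕ, n₀ ≤ n → ∀ (k : Fin d) (x : ℕ), 2 * mm δ n ≤ x → x ≤ 5 * n →
    Mo ρ β h n k p x ≤ Mo ρ β h n k p (x - 1) + C * (mm δ n : ℝ) ^ 2 *
      (Mo ρ β h n k (p - 1) x + Mo ρ β h n k (p - 1) (x - 1) + (mm δ n : ℝ) ^ (2 * (p - 1)))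

/-- U11: the spatial fluctuations are at most diffusive. -/
def SpaceV : Prop := ∀ ε : ℝ, 0 < ε → ∀ p : ℕ, ∃ C : ℝ, ∀ h : Vec d, ‖h‖ ≤ R → ∀ n : ℕ, 1 ≤ n →
  ∀ (k : Fin d) (x : ℕ), x ≤ 5 * n → Mo ρ β h n k p x ≤ (C * ((x : ℝ) + 1) * (n : ℝ) ^ ε) ^ p

/-- U12: the fluctuations of the free energy are at most the square root of the wandering, for
every `n` and every radius `W` of the tube. -/
def TubeV : Prop := ∀ (ε : ℝ) (q : ℕ), 0 < ε → ∃ (Q : ℕ) (C : ℝ), ∀ h : Vec d, ‖h‖ ≤ R →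
  ∀ (v : Vec d) (n : ℕ), 1 ≤ n → ∀ W : ℝ, 1 ≤ W → W ≤ n →
    ∫ η, (1 - PolT β h η (tube d n v W)) ∂(law d ρ) ≤ (n : ℝ) ^ (-(Q : ℝ)) →
    ∫ η, |X β h η n - A ρ β h n| ^ q ∂(law d ρ) ≤ (C * Real.sqrt W * (n : ℝ) ^ ε) ^ q

/-- U12': the fluctuations of the free energy are at most the square root of the wandering. -/
def VarV : Prop := ∀ h v : Vec d, ‖h‖ ≤ R → ∀ a x : ℝ, 0 < a → a < 1 → TbF ρ β h v a →
  a < 2 * x → FlF ρ β h x

end Leaves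

end Pool.Agent.W_7d29a1_V
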