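import Pool.Agent.W_7d29a1_V.LipA74

/-!
Among the blocks of a walk which is not extreme there are two blocks with opposite parts.
-/

namespace Pool.Agent.W_7d29a1_V.LipB74

open MeasureTheory ProbabilityTheory Filter Topology Pool.Agent.W_MP_7d29a1_pr
  Pool.Agent.W_7d29a1_h46 Pool.Agent.W_7d29a1_h46u Pool.Agent.W_7d29a1_D2
  Pool.Agent.W_7d29a1_D2.B35 Pool.Agent.W_7d29a1_V Pool.Agent.W_7d29a1_V.LipA74

variable {d : ℕ}

lemma opp (x y : Site d) (c : Fin d) (m : ℕ) (h1 : (m : ℤ) ≤ x c) (h2 : (m : ℤ) ≤ -y c) :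
    l1 (x + y) + 2 * m ≤ l1 x + l1 y := by
  classical
  unfold l1
  rw [← Finset.sum_add_distrib, ← Finset.sum_erase_add _ _ (Finset.mem_univ c),
    ← Finset.sum_erase_add (a := c) (Finset.univ) (fun j => (x j).natAbs + (y j).natAbs)
      (Finset.mem_univ c)]
  have h3 : ∑ j ∈ Finset.univ.erase c, ((x + y) j).natAbs ≤
      ∑ j ∈ Finset.univ.erase c, ((x j).natAbs + (y j).natAbs) :=
    Finset.sum_le_sum fun i _ => Int.natAbs_add_le _ _
  have h4 : ((x + y) c).natAbs + 2 * m ≤ (x c).natAbs + (y c).natAbs := by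
    rw [Pi.add_apply]
    omega
  omega

/-- Two of the blocks waste at least `K`. -/
lemma pigeon {N s K : ℕ} (hN : 2 ≤ N) (b : ℕ → Site d) (hb : ∀ i, l1 (b i) ≤ s)
    (hsum : l1 (∑ i ∈ Finset.range N, b i) + (d + 1) * (N * K) ≤ N * s) :
    ∃ i j, i < j ∧ j < N ∧ l1 (b i + b j) + K ≤ 2 * s := by
  by_contra hcon
  push Not at hcon
  have h : ∀ i j, i < N → j < N → i ≠ j → 2 * s < l1 (b i + b j) + K := by
    intro i j hi hj hij
    rcases lt_or_gt_of_ne hij with h1 | h1
    · exact hcon i j h1 hj
    · rw [add_comm (b i)]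
      exact hcon j i h1 hi
  have hK : 1 ≤ K := by
    have h1 := h 0 1 (by omega) (by omega) (by omega)
    have h2 := l1_add_le (b 0) (b 1)
    have h3 := hb 0
    have h4 := hb 1
    omega
  have hbig : ∀ i ∈ Finset.range N, s + 1 ≤ l1 (b i) + K := by
    intro i hi
    rw [Finset.mem_range] at hi
    obtain ⟨j, hj, hij⟩ : ∃ j, j < N ∧ i ≠ j := by
      by_cases h0 : i = 0
      · exact ⟨1, by omega, by omega⟩
      · exact ⟨0, by omega, h0⟩
    have h1 := h i j hi hj hij
    have h2 := l1_add_le (b i) (b j)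
    have h4 := hb j
    omega
  have hc : ∀ c : Fin d, ∑ i ∈ Finset.range N, (b i c).natAbs ≤
      (∑ i ∈ Finset.range N, b i c).natAbs + N * K := by
    intro c
    by_cases hP : ∃ i, i < N ∧ K ≤ 2 * (b i c).toNat
    · obtain ⟨i₀, hi₀, hK0⟩ := hP
      have h1 : ∀ j ∈ Finset.range N, (((b j c).natAbs : ℕ) : ℤ) ≤ b j c + K := by
        intro j hj
        rw [Finset.mem_range] at hj
        by_cases hji : j = i₀
        · rw [hji]
          omega
        · have h2 := opp (b i₀) (b j) c (min (b i₀ c).toNat (-(b j c)).toNat) (by omega)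
          have h3 := h i₀ j hi₀ hj (Ne.symm hji)
          have h4 := hb i₀
          have h5 := hb j
          by_cases h6 : 0 ≤ b j c
          · omega
          · have h7 := h2 (by omega)
            omega
      have h2 : ((∑ i ∈ Finset.range N, (b i c).natAbs : ℕ) : ℤ) ≤
          ∑ i ∈ Finset.range N, b i c + N * K := by
        push_cast
        have h3 := Finset.sum_le_sum h1
        rw [Finset.sum_add_distrib, Finset.sum_const, Finset.card_range, nsmul_eq_mul] at h3
        push_cast at h3
        exact h3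
      have h3 : ((N * K : ℕ) : ℤ) = (N : ℤ) * K := by push_cast; rfl
      omega
    · push Not at hP
      have h1 : ∀ j ∈ Finset.range N, (((b j c).natAbs : ℕ) : ℤ) ≤ -(b j c) + K := by
        intro j hj
        rw [Finset.mem_range] at hj
        have h2 := hP j hj
        omega
      have h2 : ((∑ i ∈ Finset.range N, (b i c).natAbs : ℕ) : ℤ) ≤
          -(∑ i ∈ Finset.range N, b i c) + N * K := by
        push_cast
        have h3 := Finset.sum_le_sum h1
        rw [Finset.sum_add_distrib, Finset.sum_const, Finset.card_range, nsmul_eq_mul,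
          Finset.sum_neg_distrib] at h3
        push_cast at h3
        exact h3
      have h3 : ((N * K : ℕ) : ℤ) = (N : ℤ) * K := by push_cast; rfl
      omega
  have h1 : ∑ i ∈ Finset.range N, l1 (b i) ≤ l1 (∑ i ∈ Finset.range N, b i) + d * (N * K) := by
    unfold l1
    rw [Finset.sum_comm]
    refine (Finset.sum_le_sum fun c _ => hc c).trans ?_
    rw [Finset.sum_add_distrib, Finset.sum_const, Finset.card_univ, Fintype.card_fin, smul_eq_mul]
    refine Nat.add_le_add_right (le_of_eq ?_) _
    refine Finset.sum_congr rfl fun c _ => ?_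
    rw [Finset.sum_apply]
  have h2 : N * (s + 1) ≤ ∑ i ∈ Finset.range N, l1 (b i) + N * K := by
    have h3 := Finset.sum_le_sum hbig
    rw [Finset.sum_const, Finset.card_range, smul_eq_mul, Finset.sum_add_distrib,
      Finset.sum_const, Finset.card_range, smul_eq_mul] at h3
    exact h3
  have h3 : (d + 1) * (N * K) = d * (N * K) + N * K := by ring
  have h4 : N * (s + 1) = N * s + N := by ring
  omega

lemma pos_succ_sub {t : ℕ} (q : Fin t → Step d) (j : ℕ) : l1 (pos q (j + 1) - pos q j) ≤ 1 := by
  classical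
  have h1 : pos q (j + 1) - pos q j = ∑ l : Fin t, if (l : ℕ) = j then vec (q l) else 0 := by
    unfold pos
    rw [← Finset.sum_sub_distrib]
    refine Finset.sum_congr rfl fun l _ => ?_
    by_cases h2 : (l : ℕ) < j
    · rw [if_pos (by omega), if_pos h2, if_neg (by omega), sub_self]
    · by_cases h3 : (l : ℕ) = j
      · rw [if_pos (by omega), if_neg h2, if_pos h3, sub_zero]
      · rw [if_neg (by omega), if_neg h2, if_neg h3, sub_zero]
  rw [h1]
  by_cases hj : j < t
  · rw [Finset.sum_eq_single (⟨j, hj⟩ : Fin t)]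
    · rw [if_pos rfl, l1_vec]
    · intro l _ hl
      rw [if_neg]
      intro h
      exact hl (Fin.ext h)
    · intro h
      exact absurd (Finset.mem_univ _) h
  · rw [Finset.sum_eq_zero]
    · rw [l1_zero]
      omega
    · intro l _
      have := l.2
      rw [if_neg (by omega)]

lemma pos_sub {t : ℕ} (q : Fin t → Step d) (a s : ℕ) : l1 (pos q (a + s) - pos q a) ≤ s := by
  induction s with
  | zero => rw [add_zero, sub_self, l1_zero]
  | succ s ih =>
    have h1 : pos q (a + (s + 1)) - pos q a =
        (pos q (a + s + 1) - pos q (a + s)) + (pos q (a + s) - pos q a) := by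
      rw [← add_assoc]
      abel
    rw [h1]
    have h2 := l1_add_le (pos q (a + s + 1) - pos q (a + s)) (pos q (a + s) - pos q a)
    have h3 := pos_succ_sub q (a + s)
    omega

lemma pos_zero' {t : ℕ} (q : Fin t → Step d) : pos q 0 = 0 := by
  unfold pos
  simp

/-- The two blocks of a walk. -/
lemma walk_pigeon {t s N K : ℕ} (hN : 2 ≤ N) (q : Fin t → Step d) (hNs : N * s ≤ t)
    (h : l1 (pos q t) + (t - N * s) + (d + 1) * (N * K) ≤ N * s) :
    ∃ i j, i < j ∧ j < N ∧
      l1 ((pos q ((i + 1) * s) - pos q (i * s)) + (pos q ((j + 1) * s) - pos q (j * s))) + K ≤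
        2 * s := by
  refine pigeon hN (fun i => pos q ((i + 1) * s) - pos q (i * s)) (fun i => ?_) ?_
  · have h1 := pos_sub q (i * s) s
    rw [show (i + 1) * s = i * s + s by ring]
    exact h1
  · have h1 : ∑ i ∈ Finset.range N, (pos q ((i + 1) * s) - pos q (i * s)) = pos q (N * s) := by
      rw [Finset.sum_range_sub (fun i => pos q (i * s)), zero_mul, pos_zero', sub_zero]
    rw [h1]
    have h2 := pos_sub q (N * s) (t - N * s)
    rw [show N * s + (t - N * s) = t by omega] at h2
    have h3 := l1_sub_le (pos q t) (pos q t - pos q (N * s))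
    rw [sub_sub_cancel] at h3
    omega

end Pool.Agent.W_7d29a1_V.LipB74
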