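import Pool.Agent.W_7d29a1_V.DefsV2

/-!
The `ℓ¹` norm on the lattice and the sites that can be reached in `s` steps.
-/

namespace Pool.Agent.W_7d29a1_V.LipA74

open MeasureTheory ProbabilityTheory Filter Topology Pool.Agent.W_MP_7d29a1_pr
  Pool.Agent.W_7d29a1_h46 Pool.Agent.W_7d29a1_h46u Pool.Agent.W_7d29a1_D2
  Pool.Agent.W_7d29a1_D2.B35 Pool.Agent.W_7d29a1_V

variable {d : ℕ}

lemma l1_zero : l1 (0 : Site d) = 0 := by simp [l1]

lemma l1_eq_zero {z : Site d} (h : l1 z = 0) : z = 0 := by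
  funext i
  unfold l1 at h
  rw [Finset.sum_eq_zero_iff] at h
  exact Int.natAbs_eq_zero.1 (h i (Finset.mem_univ i))

lemma l1_neg (z : Site d) : l1 (-z) = l1 z := by simp [l1]

lemma l1_add_le (x y : Site d) : l1 (x + y) ≤ l1 x + l1 y := by
  unfold l1
  rw [← Finset.sum_add_distrib]
  exact Finset.sum_le_sum fun i _ => Int.natAbs_add_le _ _

lemma l1_sub_le (x y : Site d) : l1 (x - y) ≤ l1 x + l1 y := by
  rw [sub_eq_add_neg, ← l1_neg y]
  exact l1_add_le x (-y)

/-- The parity of the `ℓ¹` norm is additive. -/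
lemma l1_mod (x y : Site d) : l1 (x + y) % 2 = (l1 x + l1 y) % 2 := by
  unfold l1
  rw [← Finset.sum_add_distrib]
  have h1 : ∀ s : Finset (Fin d), (∑ i ∈ s, (x i + y i).natAbs) % 2 =
      (∑ i ∈ s, ((x i).natAbs + (y i).natAbs)) % 2 := by
    intro s
    classical
    induction s using Finset.induction_on with
    | empty => simp
    | insert a s ha ih =>
      rw [Finset.sum_insert ha, Finset.sum_insert ha]
      have h2 : (x a + y a).natAbs % 2 = ((x a).natAbs + (y a).natAbs) % 2 := by omega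
      omega
  exact h1 Finset.univ

lemma l1_vec (e : Step d) : l1 (vec e) = 1 := by
  unfold l1 vec
  rw [Finset.sum_eq_single e.1]
  · rw [Pi.single_eq_same]
    cases e.2 <;> rfl
  · intro i _ hi
    rw [Pi.single_eq_of_ne hi]
    rfl
  · intro h
    exact absurd (Finset.mem_univ _) h

lemma l1_coord (z : Site d) (i : Fin d) : (z i).natAbs ≤ l1 z := by
  unfold l1
  exact Finset.single_le_sum (f := fun i => (z i).natAbs) (fun _ _ => Nat.zero_le _)
    (Finset.mem_univ i)

lemma mem_box_of_l1 {z : Site d} {n : ℕ} (h : l1 z ≤ n) : z ∈ boxF d n := by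
  rw [mem_boxF]
  intro j
  have h1 := l1_coord z j
  have h2 : |z j| = ((z j).natAbs : ℤ) := Int.abs_eq_natAbs _
  have h3 : ((z j).natAbs : ℤ) ≤ n := by exact_mod_cast h1.trans h
  rw [h2]
  exact h3

/-- Remove the first step. -/
lemma pos_cons (e : Step d) {n : ℕ} (q : Fin n → Step d) :
    pos (Fin.cons e q : Fin (n + 1) → Step d) (n + 1) = vec e + pos q n := by
  unfold pos
  rw [Fin.sum_univ_succ]
  congr 1
  refine Finset.sum_congr rfl fun l _ => ?_
  have hl := l.2
  rw [Fin.cons_succ, Fin.val_succ, if_pos (by omega), if_pos hl]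

lemma rch_zero : Rch 0 (0 : Site d) := ⟨fun i => i.elim0, by unfold pos; simp⟩

lemma rch_succ {s : ℕ} {z : Site d} (e : Step d) (h : Rch s z) : Rch (s + 1) (vec e + z) := by
  obtain ⟨q, hq⟩ := h
  exact ⟨Fin.cons e q, by rw [pos_cons, hq]⟩

lemma rch_add {s t : ℕ} {x y : Site d} (hx : Rch s x) (hy : Rch t y) : Rch (s + t) (x + y) := by
  obtain ⟨q, hq⟩ := hx
  obtain ⟨r, hr⟩ := hy
  exact ⟨Fin.append q r, by rw [pos_glue_add, hq, hr]⟩

lemma rch_pos {s : ℕ} (q : Fin s → Step d) : Rch s (pos q s) := ⟨q, rfl⟩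

/-- A reachable site has norm at most the time, and the parity of the time. -/
lemma rch_l1 {s : ℕ} : ∀ {z : Site d}, Rch s z → l1 z ≤ s ∧ l1 z % 2 = s % 2 := by
  induction s with
  | zero =>
    rintro z ⟨q, hq⟩
    have h1 : pos q 0 = 0 := by unfold pos; simp
    rw [← hq, h1, l1_zero]
    exact ⟨le_rfl, rfl⟩
  | succ s ih =>
    rintro z ⟨q, hq⟩
    have h1 : (Fin.cons (q 0) (Fin.tail q) : Fin (s + 1) → Step d) = q := Fin.cons_self_tail q
    rw [← h1, pos_cons] at hq
    have h2 := ih (rch_pos (Fin.tail q))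
    have h3 := l1_add_le (vec (q 0)) (pos (Fin.tail q) s)
    have h4 := l1_mod (vec (q 0)) (pos (Fin.tail q) s)
    rw [l1_vec] at h3 h4
    rw [← hq]
    omega

/-- The step towards the origin. -/
lemma exists_step {z : Site d} (hz : z ≠ 0) : ∃ e : Step d, l1 (z - vec e) + 1 = l1 z := by
  classical
  obtain ⟨i, hi⟩ : ∃ i, z i ≠ 0 := by
    by_contra h
    push Not at h
    exact hz (funext h)
  refine ⟨(i, decide (0 < z i)), ?_⟩
  unfold l1
  rw [← Finset.sum_erase_add _ _ (Finset.mem_univ i), ← Finset.sum_erase_add (a := i)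
    (Finset.univ) (fun j => (z j).natAbs) (Finset.mem_univ i)]
  have h1 : ∑ x ∈ Finset.univ.erase i, ((z - vec (i, decide (0 < z i))) x).natAbs =
      ∑ x ∈ Finset.univ.erase i, (z x).natAbs := by
    refine Finset.sum_congr rfl fun x hx => ?_
    have hx' : x ≠ i := Finset.ne_of_mem_erase hx
    have h2 : (vec (i, decide (0 < z i)) : Site d) x = 0 := by
      unfold vec
      exact Pi.single_eq_of_ne hx' _
    rw [Pi.sub_apply, h2, sub_zero]
  have h3 : (vec (i, decide (0 < z i)) : Site d) i = if 0 < z i then 1 else -1 := by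
    unfold vec
    rw [Pi.single_eq_same]
    by_cases h : 0 < z i <;> simp [h]
  rw [h1, Pi.sub_apply, h3]
  by_cases h : 0 < z i
  · rw [if_pos h]
    omega
  · rw [if_neg h]
    omega

/-- The reachable sites. -/
lemma rch_of (hd : 0 < d) (s : ℕ) : ∀ z : Site d, l1 z ≤ s → l1 z % 2 = s % 2 → Rch s z := by
  induction s with
  | zero =>
    intro z h1 _
    have h2 : z = 0 := l1_eq_zero (by omega)
    rw [h2]
    exact rch_zero
  | succ s ih =>
    intro z h1 h2
    by_cases hz : z = 0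
    · rw [hz, l1_zero] at h2
      have h3 : Rch s (z - vec ((⟨0, hd⟩, true) : Step d)) := by
        have h4 := l1_vec ((⟨0, hd⟩, true) : Step d)
        refine ih _ ?_ ?_
        · rw [hz, zero_sub, l1_neg, h4]
          omega
        · rw [hz, zero_sub, l1_neg, h4]
          omega
      have h5 := rch_succ ((⟨0, hd⟩, true) : Step d) h3
      rwa [add_sub_cancel] at h5
    · obtain ⟨e, he⟩ := exists_step hz
      have h5 := rch_succ e (ih (z - vec e) (by omega) (by omega))
      rwa [add_sub_cancel] at h5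

/-- Splitting a site reachable in `s + s` steps into two sites reachable in `s` steps. -/
lemma rch_split (hd : 0 < d) {s t : ℕ} {z : Site d} (h1 : l1 z ≤ s + t)
    (h2 : l1 z % 2 = (s + t) % 2) : ∃ x y : Site d, Rch s x ∧ Rch t y ∧ x + y = z := by
  obtain ⟨q, hq⟩ := rch_of hd (s + t) z h1 h2
  obtain ⟨⟨q1, q2⟩, h3⟩ := (Fin.appendEquiv s t).surjective q
  refine ⟨pos q1 s, pos q2 t, rch_pos _, rch_pos _, ?_⟩
  have h4 : Fin.append q1 q2 = q := h3
  rw [← hq, ← h4, pos_glue_add]

end Pool.Agent.W_7d29a1_V.LipA74
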