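import Pool.Agent.W_7d29a1_V.Rch48
import Pool.Agent.W_7d29a1_V.ConcV16

/-!
The means `aM` at the tilt `h` and at the tilt `0`: the statements on the means at the tilt `0`
imply the same statements uniformly for `‖h‖ ≤ R`.
-/

namespace Pool.Agent.W_7d29a1_V.Tr70

open MeasureTheory ProbabilityTheory Filter Topology Pool.Agent.W_MP_7d29a1_pr
  Pool.Agent.W_7d29a1_h46 Pool.Agent.W_7d29a1_h46u Pool.Agent.W_7d29a1_D2
  Pool.Agent.W_7d29a1_D2.B35 Pool.Agent.W_7d29a1_V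

variable {d : ℕ} {ρ : Measure ℝ} [IsProbabilityMeasure ρ] {β : ℝ}

lemma norm_emb_le (z : Site d) : ‖emb z‖ ≤ (l1 z : ℝ) := by
  refine (TubU_norm (emb z)).trans ?_
  unfold l1
  rw [Nat.cast_sum]
  refine Finset.sum_le_sum fun i _ => ?_
  have h1 : (emb z) i = (z i : ℝ) := rfl
  rw [h1, ← Int.cast_abs, Int.abs_eq_natAbs]
  simp

lemma abs_inner_le {R : ℝ} {h : Vec d} (hh : ‖h‖ ≤ R) (z : Site d) :
    |inner ℝ h (emb z)| ≤ R * (l1 z : ℝ) :=
  (abs_real_inner_le_norm h (emb z)).trans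
    (mul_le_mul hh (norm_emb_le z) (norm_nonneg _) ((norm_nonneg h).trans hh))

lemma inner_add_emb (h : Vec d) (z w : Site d) :
    inner ℝ h (emb (z + w)) = inner ℝ h (emb z) + inner ℝ h (emb w) := by
  rw [Walk_emb_add, inner_add_right]

/-- The mean of the logarithm of the point to point partition function at the tilt `h`. -/
theorem aM_tilt (hρ : EM ρ) (h : Vec d) {s : ℕ} {z : Site d} (hz : Rch s z) :
    aM ρ β h s z = inner ℝ h (emb z) + aM ρ β 0 s z := by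
  unfold aM
  have h1 : ∀ η : Env d, Real.log (PP β h η s z) =
      inner ℝ h (emb z) + Real.log (PP β 0 η s z) := by
    intro η
    have h2 := PP_tilt β 0 h η s z
    rw [zero_add] at h2
    rw [h2, Real.log_mul (Real.exp_pos _).ne' (R48.PP_pos hz).ne', Real.log_exp]
  simp only [h1]
  rw [integral_add (integrable_const _) (ConcV16.expP hρ β 0 s hz).1, integral_const]
  simp

/-- The deviations from the means do not depend on the tilt. -/
theorem good_tilt (hρ : EM ρ) (h : Vec d) {s : ℕ} {z : Site d} (hz : Rch s z) (η : Env d) :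
    Real.log (PP β h η s z) - aM ρ β h s z = Real.log (PP β 0 η s z) - aM ρ β 0 s z := by
  have h2 := PP_tilt β 0 h η s z
  rw [zero_add] at h2
  rw [aM_tilt hρ h hz, h2, Real.log_mul (Real.exp_pos _).ne' (R48.PP_pos hz).ne', Real.log_exp]
  ring

theorem meanLipV_of0 (hd : 0 < d) (hρ : EM ρ) (R : ℝ) (H : MeanLipV d ρ β 0) :
    MeanLipV d ρ β R := by
  intro ε κ hε hκ hκ1
  obtain ⟨C, hC, n₀, hn⟩ := H ε κ hε hκ hκ1
  refine ⟨C + |R| + 1 / κ, by positivity, n₀, fun h hh n t hnn ht z ζ hz hzk hζ k hk hζk hCk => ?_⟩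
  have hR : ‖h‖ ≤ |R| := hh.trans (le_abs_self R)
  have hk0 : (0 : ℝ) ≤ k := by linarith
  have hs : 0 ≤ Real.sqrt t * (n : ℝ) ^ ε := by positivity
  have hCk' : C * k ≤ t := by
    have h1 : C * k ≤ (C + |R| + 1 / κ) * k := by
      have : 0 ≤ (|R| + 1 / κ) * k := by positivity
      nlinarith
    linarith
  have hκk : k ≤ κ * t := by
    have h1 : 1 / κ * k ≤ t := by
      have : 0 ≤ (C + |R|) * k := by positivity
      nlinarith
    have h2 := mul_le_mul_of_nonneg_left h1 hκ.le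
    have h3 : κ * (1 / κ * k) = k := by field_simp
    linarith
  have hzζ : Rch t (z + ζ) := by
    refine R48.rch_shift hd hz ?_ ?_
    · have h1 : ((l1 (z + ζ) : ℕ) : ℝ) ≤ t := by
        have h2 : ((l1 (z + ζ) : ℕ) : ℝ) ≤ l1 z + l1 ζ := by exact_mod_cast R48.l1_add_le z ζ
        nlinarith
      exact_mod_cast h1
    · rwa [add_sub_cancel_left]
  have h0 := hn 0 (by simp) n t hnn ht z ζ hz hzk hζ k hk hζk hCk'
  have h1 := abs_le.1 (abs_inner_le hR ζ)
  have h2 : |R| * (l1 ζ : ℝ) ≤ |R| * k := mul_le_mul_of_nonneg_left hζk (abs_nonneg R)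
  rw [aM_tilt hρ h hz, aM_tilt hρ h hzζ, inner_add_emb]
  have h3 : 0 ≤ (|R| + 1 / κ) * (Real.sqrt t * (n : ℝ) ^ ε) := by positivity
  have h4 : 0 ≤ 1 / κ * k := by positivity
  nlinarith

theorem meanSteepV_of0 (hρ : EM ρ) (R : ℝ) (H : MeanSteepV d ρ β 0) :
    MeanSteepV d ρ β R := by
  intro ε hε
  obtain ⟨C, hC, n₀, hn⟩ := H ε hε
  refine ⟨C + 4 * |R|, by positivity, n₀, fun κ hκ hκ8 h hh n t hnn ht hκt z hz hzk => ?_⟩
  have hR : ‖h‖ ≤ |R| := hh.trans (le_abs_self R)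
  obtain ⟨u, hu, hu1, hu2, hu3⟩ := hn κ hκ hκ8 0 (by simp) n t hnn ht hκt z hz hzk
  refine ⟨u, hu, hu1, hu2, ?_⟩
  have hs : 0 ≤ Real.sqrt t * (n : ℝ) ^ ε := by positivity
  have h1 := abs_le.1 (abs_inner_le hR (u - z))
  have h2 : |R| * (l1 (u - z) : ℝ) ≤ |R| * (4 * κ * t) :=
    mul_le_mul_of_nonneg_left hu2 (abs_nonneg R)
  have h3 : inner ℝ h (emb u) = inner ℝ h (emb z) + inner ℝ h (emb (u - z)) := by
    rw [← inner_add_emb, add_sub_cancel]
  rw [aM_tilt hρ h hz, aM_tilt hρ h hu, h3]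
  have h4 : 0 ≤ 4 * |R| * (Real.sqrt t * (n : ℝ) ^ ε) := by positivity
  nlinarith

end Pool.Agent.W_7d29a1_V.Tr70
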