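import Pool.Agent.W_7d29a1_V.DimC33

/-!
**The exceptional tilts**: a convex Lipschitz function on `ℝ^d` has the upper expansion of order
`p ∈ (1, 2]` outside of a set of Hausdorff dimension at most `d - 2 + p`.
-/

namespace Pool.Agent.W_7d29a1_V.DimP33

open MeasureTheory Filter Topology Set Metric
open Pool.Agent.W_7d29a1_h46 Pool.Agent.W_7d29a1_h46u Pool.Agent.W_7d29a1_D2
open scoped ENNReal NNReal

variable {d : ℕ}

/-- The points without a subgradient at which the upper expansion of order `p` holds. -/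
def Bad (L : Vec d → ℝ) (p : ℝ) : Set (Vec d) :=
  {h | ¬ ∃ v : Vec d, (∀ k, L h + inner ℝ v (k - h) ≤ L k) ∧ UpG L h v p}

/-- At a bad point some second difference is large at arbitrarily small dyadic scales. -/
lemma bad_dyadic (hd : 0 < d) {L : Vec d → ℝ} (hL : ConvexOn ℝ univ L) {p : ℝ} (hp : 0 < p)
    {h : Vec d} (hh : h ∈ Bad L p) (J : ℕ) :
    ∃ j, J ≤ j ∧ h ∈ Ek L ((1 / (2 * d * ((2 ^ j : ℕ) : ℝ))) ^ p) (2 ^ j) := by
  have hd' : (0 : ℝ) < d := by exact_mod_cast hd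
  obtain ⟨v, hv⟩ := exists_sub hL h
  have h1 : ¬ UpG L h v p := fun hU => hh ⟨v, hv, hU⟩
  unfold UpG at h1
  push Not at h1
  have hJ0 : (0 : ℝ) < (1 / 2) ^ J := by positivity
  obtain ⟨r, hr1, hr2⟩ := h1 1 ((1 / 2) ^ J / d) (by positivity)
  have hr0 : 0 < ‖r‖ := by
    rcases (norm_nonneg r).eq_or_lt with h0 | h0
    · exfalso
      have hr : r = 0 := norm_eq_zero.1 h0.symm
      rw [hr] at hr2
      unfold gap at hr2
      simp [Real.zero_rpow hp.ne'] at hr2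
    · exact h0
  have hdr : (d : ℝ) * ‖r‖ ≤ (1 / 2) ^ J := by
    rw [le_div_iff₀ hd'] at hr1
    linarith
  have hJ1 : ((1 : ℝ) / 2) ^ J ≤ 1 := pow_le_one₀ (by norm_num) (by norm_num)
  obtain ⟨j, hj1, hj2⟩ := exists_nat_pow_near_of_lt_one (mul_pos hd' hr0) (hdr.trans hJ1)
    (show (0 : ℝ) < 1 / 2 by norm_num) (by norm_num)
  have hJj : J ≤ j := by
    by_contra hlt
    push Not at hlt
    have : ((1 : ℝ) / 2) ^ J ≤ (1 / 2) ^ (j + 1) :=
      pow_le_pow_of_le_one (by norm_num) (by norm_num) hlt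
    linarith
  have hpw : ((1 : ℝ) / 2) ^ j = 1 / ((2 ^ j : ℕ) : ℝ) := by
    rw [one_div_pow]
    push_cast
    rfl
  refine ⟨j, hJj, r, ?_, ?_⟩
  · rw [← hpw]
    exact hj2
  · have h2 : (1 / (2 * d * ((2 ^ j : ℕ) : ℝ))) ^ p ≤ ‖r‖ ^ p := by
      refine Real.rpow_le_rpow (by positivity) ?_ hp.le
      have h3 : (1 : ℝ) / (2 * d * ((2 ^ j : ℕ) : ℝ)) = (1 / 2) ^ (j + 1) / d := by
        rw [pow_succ, hpw]
        field_simp
      rw [h3, div_le_iff₀ hd']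
      linarith
    have h4 : gap L h v r ≤ sd L r h := by
      have h5 := hv (h - r)
      have e : h - r - h = -r := by abel
      rw [e, inner_neg_right] at h5
      unfold gap sd
      linarith
    linarith

/-- The Hausdorff measure of the bad points. -/
lemma bad_zero (hd : 0 < d) {L : Vec d → ℝ} (hL : ConvexOn ℝ univ L) (hc : Continuous L) {K : ℝ}
    (hK : ∀ x y, |L x - L y| ≤ K * ‖x - y‖) {p : ℝ} (hp : 0 < p) (M : ℕ)
    {s : ℝ} (hs : (d : ℝ) - 2 + p < s) (hs0 : 0 < s) :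
    μH[s] (Bad L p ∩ closedBall (0 : Vec d) M) = 0 := by
  have hd' : (0 : ℝ) < d := by exact_mod_cast hd
  have hd1 : (1 : ℝ) ≤ d := by exact_mod_cast hd
  have hx : (0 : ℝ) < 1 / 2 := by norm_num
  have hcov : ∀ k : ℕ, ∃ P : Finset (Vec d),
      (P.card : ℝ) ≤ Cc d K M p * ((2 ^ k : ℕ) : ℝ) ^ ((d : ℝ) - 2 + p) ∧
      Ek L ((1 / (2 * d * ((2 ^ k : ℕ) : ℝ))) ^ p) (2 ^ k) ∩ closedBall 0 M ⊆
        ⋃ x ∈ P, closedBall x (1 / (d * ((2 ^ k : ℕ) : ℝ))) :=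
    fun k => cover hd hL hc hK M p (by positivity)
  choose P hP1 hP2 using hcov
  set ρ : ℝ := (1 / 2 : ℝ) ^ (s - ((d : ℝ) - 2 + p)) with hρ
  have hρ0 : 0 < ρ := Real.rpow_pos_of_pos hx _
  have hρ1 : ρ < 1 := Real.rpow_lt_one hx.le (by norm_num) (by linarith)
  set C : ℝ := Cc d K M p * (2 : ℝ) ^ s with hC
  have hC0 : 0 ≤ C := mul_nonneg (Cc_nonneg _ _ _ _) (by positivity)
  set T : ∀ J : ℕ, (Σ j : ℕ, {x // x ∈ P (J + j)}) → Set (Vec d) := fun J q =>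
    closedBall q.2.1 (1 / (d * ((2 ^ (J + q.1) : ℕ) : ℝ))) with hT
  have hpw : ∀ j : ℕ, (1 : ℝ) / (d * ((2 ^ j : ℕ) : ℝ)) ≤ (1 / 2) ^ j := by
    intro j
    rw [one_div_pow]
    push_cast
    apply one_div_le_one_div_of_le (by positivity)
    have : (0 : ℝ) < 2 ^ j := by positivity
    nlinarith
  have hdiam : ∀ (J : ℕ) (q : Σ j : ℕ, {x // x ∈ P (J + j)}),
      Metric.ediam (T J q) ≤ ENNReal.ofReal (2 * (1 / 2) ^ (J + q.1)) := by
    intro J q
    refine Metric.ediam_le_of_forall_dist_le fun x hx y hy => ?_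
    have h1 : dist x q.2.1 ≤ 1 / (d * ((2 ^ (J + q.1) : ℕ) : ℝ)) := hx
    have h2 : dist y q.2.1 ≤ 1 / (d * ((2 ^ (J + q.1) : ℕ) : ℝ)) := hy
    have h3 := dist_triangle_right x y q.2.1
    have h4 := hpw (J + q.1)
    linarith
  have hlev : ∀ j : ℕ, ((P j).card : ℝ) * (2 * (1 / 2) ^ j : ℝ) ^ s ≤ C * ρ ^ j := by
    intro j
    have h1 := hP1 j
    have e1 : (2 * (1 / 2) ^ j : ℝ) ^ s = (2 : ℝ) ^ s * ((1 / 2 : ℝ) ^ j) ^ s :=
      Real.mul_rpow (by norm_num) (by positivity)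
    have e2 : (((2 ^ j : ℕ) : ℝ)) ^ ((d : ℝ) - 2 + p) * ((1 / 2 : ℝ) ^ j) ^ s = ρ ^ j := by
      have e3 : (((2 ^ j : ℕ) : ℝ)) = (1 / 2 : ℝ) ^ (-(j : ℝ)) := by
        rw [Real.rpow_neg hx.le, Real.rpow_natCast, one_div_pow]
        push_cast
        rw [one_div, inv_inv]
      rw [e3, hρ, ← Real.rpow_natCast (1 / 2 : ℝ) j, ← Real.rpow_mul hx.le,
        ← Real.rpow_mul hx.le, ← Real.rpow_add hx,
        ← Real.rpow_natCast ((1 / 2 : ℝ) ^ (s - ((d : ℝ) - 2 + p))) j, ← Real.rpow_mul hx.le]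
      congr 1
      ring
    rw [e1]
    calc ((P j).card : ℝ) * ((2 : ℝ) ^ s * ((1 / 2 : ℝ) ^ j) ^ s)
        ≤ (Cc d K M p * ((2 ^ j : ℕ) : ℝ) ^ ((d : ℝ) - 2 + p)) *
          ((2 : ℝ) ^ s * ((1 / 2 : ℝ) ^ j) ^ s) := mul_le_mul_of_nonneg_right h1 (by positivity)
      _ = Cc d K M p * (2 : ℝ) ^ s *
          (((2 ^ j : ℕ) : ℝ) ^ ((d : ℝ) - 2 + p) * ((1 / 2 : ℝ) ^ j) ^ s) := by ring
      _ = C * ρ ^ j := by rw [e2, hC]
  have hle := Measure.hausdorffMeasure_le_liminf_tsum (l := atTop) s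
    (Bad L p ∩ closedBall (0 : Vec d) M)
    (fun J : ℕ => ENNReal.ofReal (2 * (1 / 2 : ℝ) ^ J)) ?_ T ?_ ?_
  · refine le_antisymm (hle.trans ?_) (bot_le)
    have hbound : ∀ J : ℕ, (∑' q : (Σ j : ℕ, {x // x ∈ P (J + j)}),
        Metric.ediam (T J q) ^ s) ≤ ENNReal.ofReal (C * ρ ^ J) * ENNReal.ofReal (1 - ρ)⁻¹ := by
      intro J
      rw [ENNReal.tsum_sigma']
      have h1 : ∀ j : ℕ, (∑' i : {x // x ∈ P (J + j)},
          Metric.ediam (T J ⟨j, i⟩) ^ s) ≤ ENNReal.ofReal (C * ρ ^ J * ρ ^ j) := by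
        intro j
        rw [tsum_fintype]
        have h2 : ∀ i : {x // x ∈ P (J + j)},
            Metric.ediam (T J ⟨j, i⟩) ^ s ≤ ENNReal.ofReal ((2 * (1 / 2 : ℝ) ^ (J + j)) ^ s) := by
          intro i
          rw [← ENNReal.ofReal_rpow_of_pos (by positivity)]
          exact ENNReal.rpow_le_rpow (hdiam J ⟨j, i⟩) hs0.le
        refine (Finset.sum_le_sum fun i _ => h2 i).trans ?_
        rw [Finset.sum_const, Finset.card_univ,
          Fintype.card_coe, nsmul_eq_mul, ← ENNReal.ofReal_natCast,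
          ← ENNReal.ofReal_mul (Nat.cast_nonneg _)]
        refine ENNReal.ofReal_le_ofReal ?_
        have h3 := hlev (J + j)
        rw [pow_add ρ J j, ← mul_assoc] at h3
        exact h3
      refine (ENNReal.tsum_le_tsum h1).trans ?_
      have hKJ : 0 ≤ C * ρ ^ J := mul_nonneg hC0 (pow_nonneg hρ0.le _)
      simp only [ENNReal.ofReal_mul hKJ]
      rw [ENNReal.tsum_mul_left, ← ENNReal.ofReal_tsum_of_nonneg (fun j => pow_nonneg hρ0.le j)
        (summable_geometric_of_lt_one hρ0.le hρ1), tsum_geometric_of_lt_one hρ0.le hρ1]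
    have hlim : Tendsto (fun J : ℕ => ENNReal.ofReal (C * ρ ^ J) * ENNReal.ofReal (1 - ρ)⁻¹)
        atTop (𝓝 0) := by
      have h1 : Tendsto (fun J : ℕ => C * ρ ^ J) atTop (𝓝 0) := by
        have := (tendsto_pow_atTop_nhds_zero_of_lt_one hρ0.le hρ1).const_mul C
        rwa [mul_zero] at this
      have h2 := ENNReal.tendsto_ofReal h1
      rw [ENNReal.ofReal_zero] at h2
      have h3 := ENNReal.Tendsto.mul_const h2 (b := ENNReal.ofReal (1 - ρ)⁻¹)
        (Or.inr ENNReal.ofReal_ne_top)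
      rwa [zero_mul] at h3
    refine (liminf_le_liminf (Eventually.of_forall hbound)).trans ?_
    rw [hlim.liminf_eq]
  · have h1 : Tendsto (fun J : ℕ => 2 * (1 / 2 : ℝ) ^ J) atTop (𝓝 0) := by
      have := (tendsto_pow_atTop_nhds_zero_of_lt_one hx.le
        (show (1 / 2 : ℝ) < 1 by norm_num)).const_mul 2
      rwa [mul_zero] at this
    have h2 := ENNReal.tendsto_ofReal h1
    rwa [ENNReal.ofReal_zero] at h2
  · refine Eventually.of_forall fun J q => (hdiam J q).trans ?_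
    refine ENNReal.ofReal_le_ofReal ?_
    have : (1 / 2 : ℝ) ^ (J + q.1) ≤ (1 / 2) ^ J :=
      pow_le_pow_of_le_one (by norm_num) (by norm_num) (Nat.le_add_right _ _)
    linarith
  · refine Eventually.of_forall fun J => ?_
    rintro h ⟨hE, hM⟩
    obtain ⟨j, hj, hmem⟩ := bad_dyadic hd hL hp hE J
    obtain ⟨j', rfl⟩ := Nat.exists_eq_add_of_le hj
    have h1 := hP2 (J + j') ⟨hmem, hM⟩
    simp only [mem_iUnion, exists_prop] at h1
    obtain ⟨x, hx1, hx2⟩ := h1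
    rw [mem_iUnion]
    exact ⟨⟨j', ⟨x, hx1⟩⟩, hx2⟩

/-- **The exceptional tilts.** A convex Lipschitz function on `ℝ^d` has at every point outside of a
set of Hausdorff dimension at most `d - 2 + p` a subgradient with the upper expansion of order
`p`. -/
theorem dimP33 (hd : 0 < d) {L : Vec d → ℝ} (hL : ConvexOn ℝ univ L) {K : ℝ}
    (hK : ∀ x y, |L x - L y| ≤ K * ‖x - y‖) {p : ℝ} (hp : 1 < p) :
    dimH {h : Vec d | ¬ ∃ v : Vec d, (∀ k, L h + inner ℝ v (k - h) ≤ L k) ∧ UpG L h v p} ≤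
      ENNReal.ofReal ((d : ℝ) - 2 + p) := by
  have hd1 : (1 : ℝ) ≤ d := by exact_mod_cast hd
  have hc : Continuous L := by
    have := hL.continuousOn isOpen_univ
    rwa [← continuousOn_univ]
  change dimH (Bad L p) ≤ _
  have hU : Bad L p = ⋃ M : ℕ, (Bad L p ∩ closedBall (0 : Vec d) M) := by
    rw [← inter_iUnion]
    have : (⋃ M : ℕ, closedBall (0 : Vec d) (M : ℝ)) = univ := by
      rw [eq_univ_iff_forall]
      intro x
      obtain ⟨M, hM⟩ := exists_nat_gt ‖x‖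
      rw [mem_iUnion]
      exact ⟨M, mem_closedBall_zero_iff.2 hM.le⟩
    rw [this, inter_univ]
  rw [hU, dimH_iUnion]
  refine iSup_le fun M => ?_
  refine le_of_forall_gt_imp_ge_of_dense fun a ha => ?_
  obtain ⟨s, hs1, hs2⟩ := ENNReal.lt_iff_exists_nnreal_btwn.1 ha
  have h0 : (0 : ℝ) ≤ (d : ℝ) - 2 + p := by linarith
  have hs : (d : ℝ) - 2 + p < (s : ℝ) := by
    rw [← ENNReal.ofReal_coe_nnreal] at hs1
    exact (ENNReal.ofReal_lt_ofReal_iff_of_nonneg h0).1 hs1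
  refine le_trans ?_ hs2.le
  refine dimH_le_of_hausdorffMeasure_ne_top ?_
  rw [bad_zero hd hL hc hK (by linarith) M hs (by linarith)]
  exact ENNReal.zero_ne_top

end Pool.Agent.W_7d29a1_V.DimP33
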