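import Pool.Agent.W_7d29a1_V.DefsV2
import Pool.Agent.W_7d29a1_h46s.Dec
import Pool.Agent.W_7d29a1_h46u.ConcV
import Pool.Agent.W_7d29a1_h46u.TubV
import Pool.Agent.W_7d29a1_D2.JoinC75

/-!
STORM V, U12. The fluctuations of the free energy are at most the square root of the wandering:
two copies of the free energy at the distance `2 W` are almost independent.
-/

namespace Pool.Agent.W_7d29a1_V

open MeasureTheory ProbabilityTheory Filter Topology Pool.Agent.W_MP_7d29a1_pr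
  Pool.Agent.W_7d29a1_h46 Pool.Agent.W_7d29a1_h46u Pool.Agent.W_7d29a1_D2
  Pool.Agent.W_7d29a1_h46s

variable {d : ℕ} {ρ : Measure ℝ} [IsProbabilityMeasure ρ]

/-- The clipped logarithm of the weight of the tube. -/
noncomputable def YV (β : ℝ) (h v : Vec d) (n : ℕ) (W m M : ℝ) (η : Env d) : ℝ :=
  max (m - M) (min (m + M) (Real.log (ZT β h η (tube d n v W))))

lemma measurable_YV (β : ℝ) (h v : Vec d) (n : ℕ) (W m M : ℝ) :
    Measurable (YV (d := d) β h v n W m M) := by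
  unfold YV
  exact measurable_const.max (measurable_const.min (measurable_ZT β h _).log)

lemma YV_bound (β : ℝ) (h v : Vec d) (n : ℕ) (W m : ℝ) {M : ℝ} (hM : 0 ≤ M) (η : Env d) :
    |YV β h v n W m M η - m| ≤ M := by
  unfold YV
  rw [abs_le]
  constructor
  · have := le_max_left (m - M) (min (m + M) (Real.log (ZT β h η (tube d n v W))))
    linarith
  · have : max (m - M) (min (m + M) (Real.log (ZT β h η (tube d n v W)))) ≤ m + M :=
      max_le (by linarith) (min_le_left _ _)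
    linarith

lemma YV_close (hd : 0 < d) {β : ℝ} {h v : Vec d} {n : ℕ} {W m M : ℝ} {η : Env d}
    (h1 : 1 / 2 ≤ PolT β h η (tube d n v W)) (h2 : |X β h η n - m| ≤ M) :
    |X β h η n - YV β h v n W m M η| ≤ Real.log 2 := by
  have hZ : 0 < Z β h η n := Z_pos hd β h η n
  have hle : ZT β h η (tube d n v W) ≤ Z β h η n := ZT_mono β h η (Set.subset_univ _)
  have hge : Z β h η n / 2 ≤ ZT β h η (tube d n v W) := by
    have h3 := le_ZT_of_PolT hd h1
    have h4 : ZT β h η (Set.univ : Set (Fin n → Step d)) = Z β h η n := rfl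
    rw [h4] at h3
    linarith
  have hW : 0 < ZT β h η (tube d n v W) := by linarith
  have l1 : Real.log (ZT β h η (tube d n v W)) ≤ X β h η n := Real.log_le_log hW hle
  have l2 : X β h η n - Real.log 2 ≤ Real.log (ZT β h η (tube d n v W)) := by
    unfold X
    rw [← Real.log_div hZ.ne' two_ne_zero]
    exact Real.log_le_log (by positivity) hge
  have hlog : 0 ≤ Real.log 2 := Real.log_nonneg (by norm_num)
  rw [abs_le] at h2
  have hmin : min (m + M) (Real.log (ZT β h η (tube d n v W))) =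
      Real.log (ZT β h η (tube d n v W)) := min_eq_right (by linarith [h2.2])
  unfold YV
  rw [hmin, abs_le]
  constructor
  · have : max (m - M) (Real.log (ZT β h η (tube d n v W))) ≤ X β h η n :=
      max_le (by linarith [h2.1]) l1
    linarith
  · have := le_max_right (m - M) (Real.log (ZT β h η (tube d n v W)))
    linarith

lemma YV_dep (β : ℝ) (h v : Vec d) (n : ℕ) (W m M : ℝ) :
    DependsOn (YV (d := d) β h v n W m M) {q : ℕ × Site d | ‖emb q.2 - (q.1 : ℝ) • v‖ ≤ W} := by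
  intro η η' hη
  have h1 := C75.dependsOn_ZT β h (tube d n v W) {q : ℕ × Site d | ‖emb q.2 - (q.1 : ℝ) • v‖ ≤ W}
    (fun s hs i _ hi => hs i hi) hη
  simp only at h1
  unfold YV
  rw [h1]

lemma YV_dep' (β : ℝ) (h v : Vec d) (n : ℕ) (W m M : ℝ) {z : Site d} (hz : 2 * W < ‖emb z‖) :
    DependsOn (fun η : Env d => YV β h v n W m M (sh 0 z η))
      {q : ℕ × Site d | ‖emb q.2 - (q.1 : ℝ) • v‖ ≤ W}ᶜ := by
  intro η η' hη
  refine YV_dep β h v n W m M fun q hq => ?_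
  refine hη (q.1 + 0, q.2 + z) ?_
  rw [Set.mem_compl_iff, Set.mem_ofPred_eq, not_le]
  have hq' : ‖emb q.2 - (q.1 : ℝ) • v‖ ≤ W := hq
  simp only [add_zero]
  rw [Walk_emb_add]
  have e : emb q.2 + emb z - (q.1 : ℝ) • v = emb z - -(emb q.2 - (q.1 : ℝ) • v) := by abel
  rw [e]
  have := norm_sub_norm_le (emb z) (-(emb q.2 - (q.1 : ℝ) • v))
  rw [norm_neg] at this
  linarith

lemma indepFun_dep (S : Set (ℕ × Site d)) {F G : Env d → ℝ} (hF : Measurable F)
    (hG : Measurable G) (dF : DependsOn F S) (dG : DependsOn G Sᶜ) :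
    IndepFun F G (law d ρ) := by
  rw [indepFun_iff_measure_inter_preimage_eq_mul]
  intro s t hs ht
  have key := C75.real_inter (ρ := ρ) S (A := F ⁻¹' s) (B := G ⁻¹' t) (hF hs) (hG ht)
    (fun η η' hη => by
      show (F η ∈ s) = (F η' ∈ s)
      rw [dF hη])
    (fun η η' hη => by
      show (G η ∈ t) = (G η' ∈ t)
      rw [dG hη])
  rw [measureReal_def, measureReal_def, measureReal_def, ← ENNReal.toReal_mul] at key
  exact (ENNReal.toReal_eq_toReal_iff' (measure_ne_top _ _)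
    (ENNReal.mul_ne_top (measure_ne_top _ _) (measure_ne_top _ _))).1 key

lemma norm_src (k : Fin d) (x : ℕ) : ‖emb (src k x)‖ = 2 * (x : ℝ) := by
  have e : emb (src k x) = EuclideanSpace.single k (2 * (x : ℝ)) := by
    ext j
    unfold emb src
    by_cases hj : j = k
    · subst hj
      simp
    · simp [hj]
  rw [e, PiLp.norm_single, Real.norm_eq_abs, abs_of_nonneg (by positivity)]

/-- The numerical bound. -/
lemma numV {q : ℕ} {n D B p C₂ Cp : ℝ} (hn : 1 ≤ n) (hD : 1 ≤ D)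
    (hC2 : 0 ≤ C₂) (hCp : 0 ≤ Cp) (hB : B ≤ C₂ * n ^ (2 * q)) (hp : p = Cp * (n ^ (4 * q))⁻¹) :
    3 ^ q * (2 * ((Real.log 2) ^ q + 2 ^ q * (Real.sqrt B * Real.sqrt p + n ^ q * p)) +
        ((D + 2 * Real.log 2) ^ q + (2 * n) ^ q * p)) ≤
      (3 ^ q * (2 * (1 + 2 ^ q * (Real.sqrt (C₂ * Cp) + Cp)) + (3 ^ q + 2 ^ q * Cp))) *
        D ^ q := by
  have hn0 : 0 < n := by linarith
  have hD0 : 0 < D := by linarith
  have hlog0 : 0 ≤ Real.log 2 := Real.log_nonneg (by norm_num)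
  have hlog1 : Real.log 2 ≤ 1 := by
    have := Real.log_two_lt_d9
    linarith
  have hwq : 1 ≤ D ^ q := one_le_pow₀ hD
  have hp0 : 0 ≤ p := by rw [hp]; positivity
  have e1 : (Real.log 2) ^ q ≤ 1 := pow_le_one₀ hlog0 hlog1
  have hnq : n ^ q * p ≤ Cp := by
    rw [hp]
    have h1 : n ^ q ≤ n ^ (4 * q) := pow_le_pow_right₀ hn (by omega)
    have h2 : 0 < n ^ (4 * q) := by positivity
    calc n ^ q * (Cp * (n ^ (4 * q))⁻¹) = Cp * (n ^ q * (n ^ (4 * q))⁻¹) := by ring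
      _ ≤ Cp * 1 := by
        refine mul_le_mul_of_nonneg_left ?_ hCp
        rw [← div_eq_mul_inv]
        exact div_le_one_of_le₀ h1 h2.le
      _ = Cp := mul_one _
  have e2 : Real.sqrt B * Real.sqrt p ≤ Real.sqrt (C₂ * Cp) := by
    rcases le_or_gt 0 B with hB0 | hB0
    · rw [← Real.sqrt_mul hB0]
      refine Real.sqrt_le_sqrt ?_
      calc B * p ≤ (C₂ * n ^ (2 * q)) * p := mul_le_mul_of_nonneg_right hB hp0
        _ = (C₂ * Cp) * (n ^ (2 * q) * (n ^ (4 * q))⁻¹) := by rw [hp]; ring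
        _ ≤ (C₂ * Cp) * 1 := by
          refine mul_le_mul_of_nonneg_left ?_ (mul_nonneg hC2 hCp)
          rw [← div_eq_mul_inv]
          exact div_le_one_of_le₀ (pow_le_pow_right₀ hn (by omega)) (by positivity)
        _ = C₂ * Cp := mul_one _
    · rw [Real.sqrt_eq_zero_of_nonpos hB0.le, zero_mul]
      exact Real.sqrt_nonneg _
  have e3 : (2 * n) ^ q * p ≤ 2 ^ q * Cp := by
    rw [mul_pow, mul_assoc]
    exact mul_le_mul_of_nonneg_left hnq (by positivity)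
  have e4 : (D + 2 * Real.log 2) ^ q ≤ 3 ^ q * D ^ q := by
    rw [← mul_pow]
    refine pow_le_pow_left₀ (by positivity) ?_ q
    linarith
  have h3 : (0 : ℝ) ≤ 3 ^ q := by positivity
  rw [mul_assoc]
  refine mul_le_mul_of_nonneg_left ?_ h3
  have h2q : (0 : ℝ) ≤ 2 ^ q := by positivity
  have e5 : 2 ^ q * (Real.sqrt B * Real.sqrt p + n ^ q * p) ≤
      2 ^ q * (Real.sqrt (C₂ * Cp) + Cp) := mul_le_mul_of_nonneg_left (by linarith) h2q
  have e6 : 0 ≤ 2 ^ q * (Real.sqrt (C₂ * Cp) + Cp) := by positivity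
  have e7 : 0 ≤ 2 ^ q * Cp := by positivity
  have e8 : (2 * (1 + 2 ^ q * (Real.sqrt (C₂ * Cp) + Cp)) + 2 ^ q * Cp) * 1 ≤
      (2 * (1 + 2 ^ q * (Real.sqrt (C₂ * Cp) + Cp)) + 2 ^ q * Cp) * D ^ q :=
    mul_le_mul_of_nonneg_left hwq (by positivity)
  nlinarith

/-- Markov's inequality with a power. -/
lemma markV {f : Env d → ℝ} (_hf : Measurable f) (hf0 : ∀ η, 0 ≤ f η)
    (hi : Integrable f (law d ρ)) {t B : ℝ} (ht : 0 < t) (hB : ∫ η, f η ∂(law d ρ) ≤ B) :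
    (law d ρ).real {η | t < f η} ≤ B / t := by
  rw [le_div_iff₀ ht, mul_comm]
  have h1 := mul_meas_ge_le_integral_of_nonneg (μ := law d ρ) (ae_of_all _ hf0) hi t
  have h2 : (law d ρ).real {η | t < f η} ≤ (law d ρ).real {η | t ≤ f η} :=
    measureReal_mono fun η (hη : t < f η) => (show t ≤ f η from hη.le)
  have h3 : t * (law d ρ).real {η | t < f η} ≤ t * (law d ρ).real {η | t ≤ f η} :=
    mul_le_mul_of_nonneg_left h2 ht.le
  exact h3.trans (h1.trans hB)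

/-- The core estimate for fixed `n`, radius `W` and source `2 x e_k`. -/
theorem coreV75 (hd : 0 < d) (hρ : EM ρ) (β : ℝ) (h v : Vec d) {n : ℕ} (hn : 1 ≤ n) {W : ℝ}
    (k : Fin d) {x : ℕ} (hx : W < x) (q r : ℕ) {D T M₂ C₁ C₂ : ℝ} (hD : 1 ≤ D)
    (hT : ∫ η, (1 - PolT β h η (tube d n v W)) ∂(law d ρ) ≤ T * ((n : ℝ) ^ (4 * q))⁻¹)
    (hC1 : ∫ η, |X β h η n - A ρ β h n| ^ (8 * q + 2) ∂(law d ρ) ≤ C₁ * (n : ℝ) ^ (4 * q + 1))
    (hC2 : ∫ η, |X β h η n - A ρ β h n| ^ (2 * q) ∂(law d ρ) ≤ C₂ * (n : ℝ) ^ (2 * q))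
    (hC2' : 0 ≤ C₂) (hT0 : 0 ≤ T) (hC1' : 0 ≤ C₁) (hM2 : 0 ≤ M₂)
    (hr : 1 ≤ r)
    (hMo : Mo ρ β h n k r x ≤ M₂ * D ^ (2 * r) * ((n : ℝ) ^ (4 * q))⁻¹) :
    ∫ η, |X β h η n - A ρ β h n| ^ q ∂(law d ρ) ≤
      (3 ^ q * (2 * (1 + 2 ^ q * (Real.sqrt (C₂ * (4 * T + 2 * C₁ + M₂)) +
        (4 * T + 2 * C₁ + M₂))) + (3 ^ q + 2 ^ q * (4 * T + 2 * C₁ + M₂)))) * D ^ q := by
  classical
  have hn1 : (1 : ℝ) ≤ n := by exact_mod_cast hn
  have hn0 : (0 : ℝ) < n := by linarith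
  have hD0 : 0 < D := by linarith
  have hlog0 : 0 ≤ Real.log 2 := Real.log_nonneg (by norm_num)
  set z : Site d := src k x with hz
  set m : ℝ := A ρ β h n with hm
  set N : ℝ := ((n : ℝ) ^ (4 * q))⁻¹ with hN
  have hN0 : 0 < N := by positivity
  set X₀ : Env d → ℝ := fun η => X β h η n with hX0
  set X₁ : Env d → ℝ := fun η => X β h (sh 0 z η) n with hX1
  set Y₀ : Env d → ℝ := YV β h v n W m n with hY0
  set Y₁ : Env d → ℝ := fun η => YV β h v n W m n (sh 0 z η) with hY1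
  have mp := mp_sh (ρ := ρ) 0 z
  have mX0 : Measurable X₀ := measurable_X β h n
  have mX1 : Measurable X₁ := (measurable_X β h n).comp mp.measurable
  have mY0 : Measurable Y₀ := measurable_YV β h v n W m n
  have mY1 : Measurable Y₁ := (measurable_YV β h v n W m n).comp mp.measurable
  have hzn : 2 * W < ‖emb z‖ := by
    rw [hz, norm_src]
    linarith
  have hind : IndepFun Y₀ Y₁ (law d ρ) :=
    indepFun_dep _ mY0 mY1 (YV_dep β h v n W m n) (YV_dep' β h v n W m n hzn)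
  have hid : IdentDistrib Y₀ Y₁ (law d ρ) (law d ρ) := by
    refine ⟨mY0.aemeasurable, mY1.aemeasurable, ?_⟩
    have e : Y₁ = Y₀ ∘ sh 0 z := rfl
    rw [e, ← Measure.map_map mY0 mp.measurable, mp.map_eq]
  obtain ⟨hXi, -⟩ := concU (ρ := ρ) hd hρ β h n
  obtain ⟨_, _, hmom⟩ := momU (ρ := ρ) hd hρ β (2 * q)
  obtain ⟨_, _, hmom8⟩ := momU (ρ := ρ) hd hρ β (8 * q + 2)
  have hMo' : ∫ η, (X₁ η - X₀ η) ^ (2 * r) ∂(law d ρ) ≤
      M₂ * D ^ (2 * r) * ((n : ℝ) ^ (4 * q))⁻¹ := by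
    refine le_trans (le_of_eq ?_) hMo
    unfold Mo
    refine integral_congr_ae (ae_of_all _ fun η => ?_)
    have e0 : sh 0 (src k 0) η = η := by
      have : src k 0 = (0 : Site d) := by
        unfold src
        simp
      rw [this, TubV_sh]
    simp only [hX0, hX1, Us, e0, hz]
  have hMi : Integrable (fun η : Env d => (X₁ η - X₀ η) ^ (2 * r)) (law d ρ) := by
    obtain ⟨_, _, hm2⟩ := momU (ρ := ρ) hd hρ β (2 * r)
    have i0 := (hm2 h n hn).1
    have i1 : Integrable (fun η : Env d => |X₁ η - m| ^ (2 * r)) (law d ρ) :=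
      mp.integrable_comp_of_integrable i0
    refine Integrable.mono' ((i0.add i1).const_mul (2 ^ (2 * r)))
      ((mX1.sub mX0).pow_const _).aestronglyMeasurable (ae_of_all _ fun η => ?_)
    have h1 := dec_two |X₀ η - m| |X₁ η - m| (abs_nonneg _) (abs_nonneg _) (2 * r)
    rw [Real.norm_eq_abs, abs_pow]
    have h2 : |X₁ η - X₀ η| ≤ |X₀ η - m| + |X₁ η - m| := by
      have h3 := abs_sub_le (X₁ η) m (X₀ η)
      rw [abs_sub_comm m (X₀ η)] at h3
      linarith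
    exact (pow_le_pow_left₀ (abs_nonneg _) h2 _).trans h1
  -- the good set
  set P₀ : Set (Env d) := {η | 1 / 2 ≤ PolT β h η (tube d n v W)} with hP0
  set A₀ : Set (Env d) := {η | |X β h η n - m| ≤ n} with hA0
  set F : Set (Env d) := {η | |X₁ η - X₀ η| ≤ D} with hF
  have mP0 : MeasurableSet P₀ := measurableSet_le measurable_const (measurable_PolT β h _)
  have mA0 : MeasurableSet A₀ :=
    measurableSet_le ((measurable_X β h n).sub_const m).abs measurable_const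
  have mF : MeasurableSet F := measurableSet_le (mX1.sub mX0).abs measurable_const
  set G : Set (Env d) := ((P₀ ∩ A₀) ∩ (sh 0 z ⁻¹' (P₀ ∩ A₀))) ∩ F with hG
  have mG : MeasurableSet G :=
    ((mP0.inter mA0).inter (mp.measurable (mP0.inter mA0))).inter mF
  -- probabilities
  have p1 : (law d ρ).real P₀ᶜ ≤ 2 * T * N := by
    have hi : Integrable (fun η : Env d => 1 - PolT β h η (tube d n v W)) (law d ρ) := by
      refine Integrable.of_bound (C := 1)
        (measurable_const.sub (measurable_PolT β h _)).aestronglyMeasurable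
        (ae_of_all _ fun η => ?_)
      have h1 := PolT_nonneg β h η (tube d n v W)
      have h2 := PolT_le_one β h η (tube d n v W)
      rw [Real.norm_eq_abs, abs_of_nonneg (by linarith)]
      linarith
    have h1 := markV (ρ := ρ) (f := fun η : Env d => 1 - PolT β h η (tube d n v W))
      (measurable_const.sub (measurable_PolT β h _))
      (fun η => by have := PolT_le_one β h η (tube d n v W); linarith) hi
      (t := 1 / 2) (by norm_num) hT
    have h2 : P₀ᶜ = {η : Env d | 1 / 2 < 1 - PolT β h η (tube d n v W)} := by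
      ext η
      simp only [hP0, Set.mem_compl_iff, Set.mem_ofPred_eq, not_le]
      constructor <;> intro h <;> linarith
    rw [h2]
    refine h1.trans (le_of_eq ?_)
    ring
  have p2 : (law d ρ).real A₀ᶜ ≤ C₁ * N := by
    have h1 := markV (ρ := ρ) (f := fun η : Env d => |X β h η n - m| ^ (8 * q + 2))
      (((measurable_X β h n).sub_const m).abs.pow_const _) (fun η => by positivity)
      (hmom8 h n hn).1 (t := (n : ℝ) ^ (8 * q + 2)) (by positivity) hC1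
    have h2 : A₀ᶜ ⊆ {η : Env d | (n : ℝ) ^ (8 * q + 2) < |X β h η n - m| ^ (8 * q + 2)} := by
      intro η hη
      simp only [hA0, Set.mem_compl_iff, Set.mem_ofPred_eq, not_le] at hη
      exact pow_lt_pow_left₀ hη hn0.le (by omega)
    refine (measureReal_mono h2).trans (h1.trans ?_)
    rw [hN, mul_div_assoc]
    refine mul_le_mul_of_nonneg_left ?_ hC1'
    rw [div_le_iff₀ (by positivity)]
    have h3 : (n : ℝ) ^ (8 * q + 2) = (n : ℝ) ^ (4 * q) * (n : ℝ) ^ (4 * q + 2) := by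
      rw [← pow_add]
      congr 1
      omega
    rw [h3, ← mul_assoc, inv_mul_cancel₀ (by positivity), one_mul]
    exact pow_le_pow_right₀ hn1 (by omega)
  have p3 : (law d ρ).real Fᶜ ≤ M₂ * N := by
    have hi := hMi
    have h1 := markV (ρ := ρ) (f := fun η : Env d => (X₁ η - X₀ η) ^ (2 * r))
      ((mX1.sub mX0).pow_const _) (fun η => by rw [pow_mul]; positivity)
      hi (t := D ^ (2 * r)) (by positivity) hMo'
    have h2 : Fᶜ ⊆ {η : Env d | D ^ (2 * r) < (X₁ η - X₀ η) ^ (2 * r)} := by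
      intro η hη
      simp only [hF, Set.mem_compl_iff, Set.mem_ofPred_eq, not_le] at hη
      have h3 := pow_lt_pow_left₀ hη hD0.le (show 2 * r ≠ 0 by omega)
      rwa [Even.pow_abs (even_two_mul r)] at h3
    refine (measureReal_mono h2).trans (h1.trans (le_of_eq ?_))
    rw [div_eq_iff (by positivity)]
    ring
  have hP : (law d ρ).real Gᶜ ≤ (4 * T + 2 * C₁ + M₂) * N := by
    have h1 : Gᶜ ⊆ (P₀ᶜ ∪ A₀ᶜ) ∪ (sh 0 z ⁻¹' (P₀ᶜ ∪ A₀ᶜ)) ∪ Fᶜ := by
      intro η hη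
      simp only [hG, Set.mem_compl_iff, Set.mem_inter_iff, Set.mem_preimage, Set.mem_union] at hη ⊢
      tauto
    have h2 : (law d ρ).real (P₀ᶜ ∪ A₀ᶜ) ≤ (2 * T + C₁) * N := by
      refine (measureReal_union_le _ _).trans ?_
      linarith
    have h3 : (law d ρ).real (sh 0 z ⁻¹' (P₀ᶜ ∪ A₀ᶜ)) = (law d ρ).real (P₀ᶜ ∪ A₀ᶜ) := by
      rw [measureReal_def, measureReal_def,
        mp.measure_preimage (mP0.compl.union mA0.compl).nullMeasurableSet]
    refine (measureReal_mono h1).trans ((measureReal_union_le _ _).trans ?_)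
    have h4 := measureReal_union_le (μ := law d ρ) (P₀ᶜ ∪ A₀ᶜ) (sh 0 z ⁻¹' (P₀ᶜ ∪ A₀ᶜ))
    rw [h3] at h4
    linarith
  have hdec := dec (P := law d ρ) mX0 mX1 mY0 mY1 hind hid (m := m) (M := n) (c := Real.log 2)
    (D := D) (B := C₂ * (n : ℝ) ^ (2 * q)) (p := (4 * T + 2 * C₁ + M₂) * N) hn0.le hlog0 hD0.le
    rfl hXi (fun η => ⟨YV_bound β h v n W m hn0.le η, YV_bound β h v n W m hn0.le _⟩) mG
    (fun η hη => by
      obtain ⟨⟨⟨g1, g2⟩, g3, g4⟩, g5⟩ := hη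
      refine ⟨YV_close hd g1 g2, YV_close hd g3 g4, ?_⟩
      rw [abs_sub_comm]
      exact g5) hP q (hmom h n hn).1 hC2
  exact hdec.trans (numV hn1 hD hC2' (by positivity) le_rfl (by rw [hN]))

/-- The core estimate, uniform in the tilt, the length and the radius. -/
theorem tubeCore75 (hd : 0 < d) (hρ : EM ρ) (β R : ℝ) (hS : SpaceV d ρ β R) (ε : ℝ) (q : ℕ)
    (hε : 0 < ε) {T : ℝ} (hT : 0 ≤ T) : ∃ C : ℝ, 0 ≤ C ∧ ∀ h : Vec d, ‖h‖ ≤ R →
      ∀ (v : Vec d) (n : ℕ), 1 ≤ n → ∀ W : ℝ, 1 ≤ W → W ≤ n →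
      ∫ η, (1 - PolT β h η (tube d n v W)) ∂(law d ρ) ≤ T * ((n : ℝ) ^ (4 * q))⁻¹ →
      ∫ η, |X β h η n - A ρ β h n| ^ q ∂(law d ρ) ≤ C * (Real.sqrt W * (n : ℝ) ^ ε) ^ q := by
  set r : ℕ := max 1 ⌈(4 * q : ℝ) / ε⌉₊ with hr
  have hr1 : 1 ≤ r := le_max_left _ _
  have hrε : (4 * q : ℝ) ≤ ε * r := by
    have h1 : (4 * q : ℝ) / ε ≤ r := (Nat.le_ceil _).trans
      (Nat.cast_le.2 (le_max_right 1 ⌈(4 * q : ℝ) / ε⌉₊))
    rw [div_le_iff₀ hε] at h1
    linarith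
  obtain ⟨C₀, hC0⟩ := hS ε hε r
  obtain ⟨C₁, hC1', hC1⟩ := momU (ρ := ρ) hd hρ β (8 * q + 2)
  obtain ⟨C₂, hC2', hC2⟩ := momU (ρ := ρ) hd hρ β (2 * q)
  set M₂ : ℝ := (4 * |C₀|) ^ r with hM2
  have hM20 : 0 ≤ M₂ := by positivity
  refine ⟨3 ^ q * (2 * (1 + 2 ^ q * (Real.sqrt (C₂ * (4 * T + 2 * C₁ + M₂)) +
        (4 * T + 2 * C₁ + M₂))) + (3 ^ q + 2 ^ q * (4 * T + 2 * C₁ + M₂))), by positivity,
    fun h hh v n hn W hW1 hWn hTb => ?_⟩
  have hn1 : (1 : ℝ) ≤ n := by exact_mod_cast hn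
  have hn0 : (0 : ℝ) < n := by linarith
  have hW0 : 0 < W := by linarith
  have hnε : 1 ≤ (n : ℝ) ^ ε := Real.one_le_rpow hn1 hε.le
  have hD : 1 ≤ Real.sqrt W * (n : ℝ) ^ ε := by
    have h1 : 1 ≤ Real.sqrt W := Real.one_le_sqrt.2 hW1
    nlinarith
  have hWc : (⌈W⌉₊ : ℝ) < W + 1 := Nat.ceil_lt_add_one hW0.le
  have hWc' : W ≤ (⌈W⌉₊ : ℝ) := Nat.le_ceil _
  have hx5 : ⌈W⌉₊ + 1 ≤ 5 * n := by
    have h1 : ⌈W⌉₊ ≤ n := Nat.ceil_le.2 hWn
    omega
  refine coreV75 hd hρ β h v hn ⟨0, hd⟩ (x := ⌈W⌉₊ + 1) (by push_cast; linarith) q r (M₂ := M₂)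
    (C₁ := C₁) (C₂ := C₂) (T := T) hD hTb ?_ ?_ hC2' hT hC1' hM20 hr1 ?_
  · refine (hC1 h n hn).2.trans (le_of_eq ?_)
    rw [← Real.rpow_natCast (n : ℝ) (4 * q + 1)]
    congr 2
    push_cast
    ring
  · refine (hC2 h n hn).2.trans (mul_le_mul_of_nonneg_left ?_ hC2')
    rw [← Real.rpow_natCast (n : ℝ) (2 * q)]
    refine Real.rpow_le_rpow_of_exponent_le hn1 ?_
    push_cast
    have : (0 : ℝ) ≤ q := by positivity
    linarith
  · refine (hC0 h hh n hn ⟨0, hd⟩ (⌈W⌉₊ + 1) hx5).trans ?_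
    refine (le_abs_self _).trans ?_
    rw [abs_pow, abs_mul, abs_mul, abs_of_pos (show (0 : ℝ) < (n : ℝ) ^ ε by positivity),
      abs_of_nonneg (show (0 : ℝ) ≤ ((⌈W⌉₊ + 1 : ℕ) : ℝ) + 1 by positivity)]
    have h1 : |C₀| * (((⌈W⌉₊ + 1 : ℕ) : ℝ) + 1) * (n : ℝ) ^ ε ≤
        4 * |C₀| * (Real.sqrt W * (n : ℝ) ^ ε) ^ 2 * ((n : ℝ) ^ ε)⁻¹ := by
      rw [mul_pow, Real.sq_sqrt hW0.le, sq ((n : ℝ) ^ ε)]
      have h2 : 4 * |C₀| * (W * ((n : ℝ) ^ ε * (n : ℝ) ^ ε)) * ((n : ℝ) ^ ε)⁻¹ =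
          |C₀| * (4 * W) * (n : ℝ) ^ ε := by
        have h3 : (n : ℝ) ^ ε ≠ 0 := by positivity
        field_simp
      rw [h2]
      have h4 : ((⌈W⌉₊ + 1 : ℕ) : ℝ) + 1 ≤ 4 * W := by
        push_cast
        linarith
      gcongr
    refine (pow_le_pow_left₀ (by positivity) h1 r).trans ?_
    rw [mul_pow, mul_pow, ← pow_mul, ← hM2]
    refine mul_le_mul_of_nonneg_left ?_ (by positivity)
    rw [inv_pow, ← Real.rpow_natCast ((n : ℝ) ^ ε) r, ← Real.rpow_mul hn0.le]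
    refine inv_anti₀ (by positivity) ?_
    rw [← Real.rpow_natCast (n : ℝ) (4 * q)]
    refine Real.rpow_le_rpow_of_exponent_le hn1 ?_
    push_cast
    exact hrε

/-- **U12.** The fluctuations of the free energy are at most the square root of the wandering. -/
theorem tubeV75 (hd : 0 < d) (hρ : EM ρ) (β R : ℝ) (hS : SpaceV d ρ β R) : TubeV d ρ β R := by
  intro ε q hε
  obtain ⟨C, hC0, hC⟩ := tubeCore75 hd hρ β R hS ε q hε (T := 1) zero_le_one
  refine ⟨4 * q, max 1 C, fun h hh v n hn W hW1 hWn hT => ?_⟩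
  have hn1 : (1 : ℝ) ≤ n := by exact_mod_cast hn
  have hn0 : (0 : ℝ) < n := by linarith
  rcases Nat.eq_zero_or_pos q with hq | hq
  · subst hq
    simp
  · have h1 := hC h hh v n hn W hW1 hWn (by
      rw [one_mul, ← Real.rpow_natCast (n : ℝ) (4 * q), ← Real.rpow_neg hn0.le]
      exact hT)
    refine h1.trans ?_
    rw [mul_assoc (max 1 C), mul_pow (max 1 C)]
    refine mul_le_mul_of_nonneg_right ?_ (by positivity)
    exact (le_max_right 1 C).trans (le_self_pow₀ (le_max_left 1 C) (by omega))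

/-- **U12'.** The fluctuations of the free energy are at most the square root of the wandering. -/
theorem varV75 (hd : 0 < d) (hρ : EM ρ) (β R : ℝ) (hS : SpaceV d ρ β R) : VarV d ρ β R := by
  intro h v hh a x ha ha1 hT hax q
  obtain ⟨CT, hCT⟩ := hT (4 * q)
  obtain ⟨C, hC0, hC⟩ := tubeCore75 hd hρ β R hS (x - a / 2) q (by linarith) (T := |CT|)
    (abs_nonneg _)
  refine ⟨C, fun n hn => ?_⟩
  have hn1 : (1 : ℝ) ≤ n := by exact_mod_cast hn
  have hn0 : (0 : ℝ) < n := by linarith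
  have hW1 : 1 ≤ (n : ℝ) ^ a := Real.one_le_rpow hn1 ha.le
  have hWn : (n : ℝ) ^ a ≤ n := by
    have := Real.rpow_le_rpow_of_exponent_le hn1 ha1.le
    rwa [Real.rpow_one] at this
  have h1 := hC h hh v n hn ((n : ℝ) ^ a) hW1 hWn (by
    refine (hCT n hn).trans ?_
    rw [← Real.rpow_natCast (n : ℝ) (4 * q), ← Real.rpow_neg hn0.le]
    exact mul_le_mul_of_nonneg_right (le_abs_self _) (by positivity))
  refine h1.trans (le_of_eq ?_)
  congr 1
  rw [Real.sqrt_eq_rpow, ← Real.rpow_mul hn0.le, ← Real.rpow_add hn0, ← Real.rpow_natCast,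
    ← Real.rpow_mul hn0.le]
  congr 2
  ring

end Pool.Agent.W_7d29a1_V
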