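import Mathlib

/-!
`2 χ ≤ ν*` in every dimension: the even moments from the costs of the levels (abstract form).
-/

namespace Pool.Agent.W_7d29a1_V.Abs60

open MeasureTheory Filter Topology

/-- Lower powers from a high even power. -/
lemma pow_le_one_add (x : ℝ) {i j : ℕ} (hij : i ≤ 2 * j) : |x| ^ i ≤ 1 + x ^ (2 * j) := by
  have h0 : x ^ (2 * j) = |x| ^ (2 * j) := by
    rw [pow_mul, pow_mul, sq_abs]
  rw [h0]
  rcases le_or_gt |x| 1 with h | h
  · have h1 : |x| ^ i ≤ 1 := pow_le_one₀ (abs_nonneg x) h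
    have h2 : 0 ≤ |x| ^ (2 * j) := by positivity
    linarith
  · have h1 : |x| ^ i ≤ |x| ^ (2 * j) := pow_le_pow_right₀ h.le hij
    linarith

lemma integrable_pow_of {Ω : Type*} [MeasurableSpace Ω] {μ : Measure Ω} [IsProbabilityMeasure μ]
    {B : Ω → ℝ} (hB : Measurable B) {j : ℕ} (iB : Integrable (fun w => B w ^ (2 * j)) μ) {i : ℕ}
    (hij : i ≤ 2 * j) : Integrable (fun w => B w ^ i) μ := by
  refine Integrable.mono' ((integrable_const (1 : ℝ)).add iB) (hB.pow_const i).aestronglyMeasurable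
    (ae_of_all _ fun w => ?_)
  rw [Real.norm_eq_abs, abs_pow]
  exact pow_le_one_add (B w) hij

lemma add_pow_even (x y : ℝ) (hy : 0 ≤ y) (r : ℕ) :
    (|x| + y) ^ (2 * r) ≤ 4 ^ r * (x ^ (2 * r) + y ^ (2 * r)) := by
  have h0 : x ^ (2 * r) = |x| ^ (2 * r) := by
    rw [pow_mul, pow_mul, sq_abs]
  rw [h0]
  have h1 := add_pow_le (abs_nonneg x) hy (2 * r)
  refine h1.trans ?_
  have h2 : (2 : ℝ) ^ (2 * r - 1) ≤ 4 ^ r := by
    have : (4 : ℝ) ^ r = 2 ^ (2 * r) := by rw [pow_mul]; norm_num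
    rw [this]
    exact pow_le_pow_right₀ (by norm_num) (Nat.sub_le _ _)
  exact mul_le_mul_of_nonneg_right h2 (by positivity)

/-- The weight of the levels near `b`. -/
lemma near_int (r : ℕ) (A Γ b : ℝ) (hΓ : 0 ≤ Γ) :
    ∫ a in Set.Ioc (-A) A, a ^ (2 * r) * (if |a - b| < Γ then (1 : ℝ) else 0) ≤
      2 * Γ * (|b| + Γ) ^ (2 * r) := by
  have hm : Measurable fun a : ℝ => (if |a - b| < Γ then (1 : ℝ) else 0) := by
    refine Measurable.ite ?_ measurable_const measurable_const
    exact measurableSet_lt ((measurable_id.sub_const b).abs) measurable_const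
  have h1 : ∀ a : ℝ, a ^ (2 * r) * (if |a - b| < Γ then (1 : ℝ) else 0) ≤
      (|b| + Γ) ^ (2 * r) * (if |a - b| < Γ then (1 : ℝ) else 0) := by
    intro a
    by_cases h : |a - b| < Γ
    · rw [if_pos h]
      have h0 : a ^ (2 * r) = |a| ^ (2 * r) := by
        rw [pow_mul, pow_mul, sq_abs]
      rw [h0, mul_one, mul_one]
      refine pow_le_pow_left₀ (abs_nonneg a) ?_ _
      have h2 : |a| ≤ |a - b| + |b| := by
        have := abs_add_le (a - b) b
        simpa using this
      linarith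
    · rw [if_neg h]
      simp
  have hi : Integrable (fun a : ℝ => (|b| + Γ) ^ (2 * r) * (if |a - b| < Γ then (1 : ℝ) else 0))
      (volume.restrict (Set.Ioc (-A) A)) := by
    refine Integrable.mono' (integrable_const ((|b| + Γ) ^ (2 * r)))
      (hm.const_mul _).aestronglyMeasurable (ae_of_all _ fun a => ?_)
    rw [Real.norm_eq_abs, abs_mul, abs_of_nonneg (by positivity : 0 ≤ (|b| + Γ) ^ (2 * r))]
    have h3 : |(if |a - b| < Γ then (1 : ℝ) else 0)| ≤ 1 := by split_ifs <;> simp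
    have h4 : 0 ≤ (|b| + Γ) ^ (2 * r) := by positivity
    nlinarith
  have hi0 : Integrable (fun a : ℝ => a ^ (2 * r) * (if |a - b| < Γ then (1 : ℝ) else 0))
      (volume.restrict (Set.Ioc (-A) A)) := by
    refine Integrable.mono' hi ?_ (ae_of_all _ fun a => ?_)
    · exact ((measurable_id.pow_const (2 * r)).mul hm).aestronglyMeasurable
    · rw [Real.norm_eq_abs, abs_of_nonneg]
      · exact h1 a
      · have : 0 ≤ a ^ (2 * r) := by rw [pow_mul]; positivity
        split_ifs
        · simpa using this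
        · simp
  calc ∫ a in Set.Ioc (-A) A, a ^ (2 * r) * (if |a - b| < Γ then (1 : ℝ) else 0)
      ≤ ∫ a in Set.Ioc (-A) A, (|b| + Γ) ^ (2 * r) * (if |a - b| < Γ then (1 : ℝ) else 0) :=
        integral_mono hi0 hi h1
    _ = (|b| + Γ) ^ (2 * r) * ∫ a in Set.Ioc (-A) A, (if |a - b| < Γ then (1 : ℝ) else 0) := by
        rw [integral_const_mul]
    _ ≤ (|b| + Γ) ^ (2 * r) * (2 * Γ) := by
        refine mul_le_mul_of_nonneg_left ?_ (by positivity)
        have h5 : (fun a : ℝ => (if |a - b| < Γ then (1 : ℝ) else 0)) =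
            (Set.Ioo (b - Γ) (b + Γ)).indicator fun _ => 1 := by
          funext a
          unfold Set.indicator
          have : |a - b| < Γ ↔ a ∈ Set.Ioo (b - Γ) (b + Γ) := by
            rw [abs_lt, Set.mem_Ioo]
            constructor
            · rintro ⟨h1, h2⟩
              constructor <;> linarith
            · rintro ⟨h1, h2⟩
              constructor <;> linarith
          by_cases h : |a - b| < Γ
          · rw [if_pos h, if_pos (this.1 h)]
          · rw [if_neg h, if_neg (fun h' => h (this.2 h'))]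
        rw [h5, integral_indicator measurableSet_Ioo, integral_const, smul_eq_mul, mul_one,
          Measure.restrict_restrict measurableSet_Ioo, measureReal_restrict_apply_univ]
        calc volume.real (Set.Ioo (b - Γ) (b + Γ) ∩ Set.Ioc (-A) A)
            ≤ volume.real (Set.Ioo (b - Γ) (b + Γ)) :=
              measureReal_mono Set.inter_subset_left (by simp)
          _ = 2 * Γ := by
              rw [Real.volume_real_Ioo_of_le (by linarith)]
              ring
    _ = 2 * Γ * (|b| + Γ) ^ (2 * r) := by ring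

/-- The weight of a set of levels. -/
lemma set_int (r : ℕ) {A V : ℝ} (hA : 0 ≤ A) (hV : 0 ≤ V) {S : Set ℝ} (hS : MeasurableSet S)
    (hSV : volume S ≤ ENNReal.ofReal V) :
    ∫ a in Set.Ioc (-A) A, a ^ (2 * r) * S.indicator (fun _ => (1 : ℝ)) a ≤
      A ^ (2 * r) * V := by
  have h1 : ∫ a in Set.Ioc (-A) A, a ^ (2 * r) * S.indicator (fun _ => (1 : ℝ)) a ≤
      ∫ a in Set.Ioc (-A) A, A ^ (2 * r) * S.indicator (fun _ => (1 : ℝ)) a := by
    have hi : Integrable (fun a => A ^ (2 * r) * S.indicator (fun _ => (1 : ℝ)) a)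
        (volume.restrict (Set.Ioc (-A) A)) :=
      (((integrable_const (1 : ℝ)).indicator hS).const_mul _)
    have hle : ∀ a ∈ Set.Ioc (-A) A, a ^ (2 * r) * S.indicator (fun _ => (1 : ℝ)) a ≤
        A ^ (2 * r) * S.indicator (fun _ => (1 : ℝ)) a := by
      intro a ha
      have h2 : 0 ≤ S.indicator (fun _ => (1 : ℝ)) a := by
        unfold Set.indicator
        split_ifs <;> norm_num
      refine mul_le_mul_of_nonneg_right ?_ h2
      have h0 : a ^ (2 * r) = |a| ^ (2 * r) := by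
        rw [pow_mul, pow_mul, sq_abs]
      rw [h0]
      exact pow_le_pow_left₀ (abs_nonneg a) (abs_le.2 ⟨by linarith [ha.1], ha.2⟩) _
    have hnn : ∀ a : ℝ, 0 ≤ a ^ (2 * r) * S.indicator (fun _ => (1 : ℝ)) a := by
      intro a
      have : 0 ≤ a ^ (2 * r) := by rw [pow_mul]; positivity
      refine mul_nonneg this ?_
      unfold Set.indicator
      split_ifs <;> norm_num
    refine setIntegral_mono_on ?_ hi measurableSet_Ioc hle
    refine Integrable.mono' hi ?_ ?_
    · exact ((measurable_id.pow_const (2 * r)).mul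
        (measurable_const.indicator hS)).aestronglyMeasurable
    · filter_upwards [self_mem_ae_restrict measurableSet_Ioc] with a ha
      rw [Real.norm_eq_abs, abs_of_nonneg (hnn a)]
      exact hle a ha
  refine h1.trans ?_
  rw [integral_const_mul]
  refine mul_le_mul_of_nonneg_left ?_ (by positivity)
  rw [integral_indicator hS, integral_const, smul_eq_mul, mul_one,
    Measure.restrict_restrict hS, measureReal_restrict_apply_univ]
  calc volume.real (S ∩ Set.Ioc (-A) A) ≤ volume.real S :=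
        measureReal_mono Set.inter_subset_left (ne_top_of_le_ne_top ENNReal.ofReal_ne_top hSV)
    _ ≤ V := by
        unfold Measure.real
        exact ENNReal.toReal_le_of_le_ofReal hV hSV

/-- The bound of the cost of the level `a`. -/
noncomputable def G {Ω : Type*} (B B' : Ω → ℝ) (Γ e s : ℝ) (Bad : Set (ℝ × Ω)) (T : Set Ω)
    (a : ℝ) (w : Ω) : ℝ :=
  Γ * (if |a - B w| < Γ then (1 : ℝ) else 0) + (if |a - B' w| < Γ then (1 : ℝ) else 0) + e +
    s * (Bad.indicator (fun _ => (1 : ℝ)) (a, w) + T.indicator (fun _ => (1 : ℝ)) w)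

lemma ite_le_one (P : Prop) [Decidable P] : |(if P then (1 : ℝ) else 0)| ≤ 1 := by
  split_ifs <;> simp

lemma ind_le_one {α : Type*} (S : Set α) (x : α) : |S.indicator (fun _ => (1 : ℝ)) x| ≤ 1 := by
  unfold Set.indicator
  split_ifs <;> simp

lemma G_abs {Ω : Type*} (B B' : Ω → ℝ) {Γ e s : ℝ} (hΓ : 0 ≤ Γ) (he : 0 ≤ e) (hs : 0 ≤ s)
    (Bad : Set (ℝ × Ω)) (T : Set Ω) (a : ℝ) (w : Ω) :
    |G B B' Γ e s Bad T a w| ≤ Γ + 1 + e + 2 * s := by
  unfold G
  have h1 := abs_le.1 (ite_le_one (|a - B w| < Γ))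
  have h2 := abs_le.1 (ite_le_one (|a - B' w| < Γ))
  have h3 := abs_le.1 (ind_le_one Bad (a, w))
  have h4 := abs_le.1 (ind_le_one T w)
  rw [abs_le]
  constructor <;> nlinarith [h1.1, h1.2, h2.1, h2.2, h3.1, h3.2, h4.1, h4.2]

lemma measurable_G {Ω : Type*} [MeasurableSpace Ω] {B B' : Ω → ℝ} (hB : Measurable B)
    (hB' : Measurable B') (Γ e s : ℝ) {Bad : Set (ℝ × Ω)} (hBad : MeasurableSet Bad) {T : Set Ω}
    (hT : MeasurableSet T) : Measurable fun p : ℝ × Ω => G B B' Γ e s Bad T p.1 p.2 := by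
  unfold G
  have m1 : Measurable fun p : ℝ × Ω => (if |p.1 - B p.2| < Γ then (1 : ℝ) else 0) :=
    Measurable.ite (measurableSet_lt ((measurable_fst.sub (hB.comp measurable_snd)).abs)
      measurable_const) measurable_const measurable_const
  have m2 : Measurable fun p : ℝ × Ω => (if |p.1 - B' p.2| < Γ then (1 : ℝ) else 0) :=
    Measurable.ite (measurableSet_lt ((measurable_fst.sub (hB'.comp measurable_snd)).abs)
      measurable_const) measurable_const measurable_const
  have m3 : Measurable fun p : ℝ × Ω => Bad.indicator (fun _ => (1 : ℝ)) (p.1, p.2) :=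
    measurable_const.indicator hBad
  have m4 : Measurable fun p : ℝ × Ω => T.indicator (fun _ => (1 : ℝ)) p.2 :=
    (measurable_const.indicator hT).comp measurable_snd
  exact ((((m1.const_mul Γ).add m2).add_const e).add ((m3.add m4).const_mul s))

/-- The function of the truncated levels. -/
noncomputable def PA (r : ℕ) (A b : ℝ) : ℝ :=
  b ^ (2 * r + 2) / ((2 * r + 2) * (2 * r + 1)) + b * (A ^ (2 * r + 1) / (2 * r + 1)) +
    A ^ (2 * r + 2) / (2 * r + 2)

/-- The even moments from the costs of the levels. -/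
theorem abs60 {Ω : Type*} [MeasurableSpace Ω] (μ : Measure Ω) [IsProbabilityMeasure μ]
    {B B' : Ω → ℝ} (hB : Measurable B) (hB' : Measurable B') (r : ℕ)
    (iB : Integrable (fun w => B w ^ (4 * r + 4)) μ)
    (iB' : Integrable (fun w => B' w ^ (4 * r + 4)) μ) (m1 : ∫ w, B w ∂μ = ∫ w, B' w ∂μ)
    {A Γ e s V : ℝ} (hA : 0 < A) (hΓ : 0 ≤ Γ) (he : 0 ≤ e) (hs : 0 ≤ s) (hV0 : 0 ≤ V)
    {Bad : Set (ℝ × Ω)} (hBad : MeasurableSet Bad)
    (hV : ∀ w, volume {a | (a, w) ∈ Bad} ≤ ENNReal.ofReal V)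
    {T : Set Ω} (hT : MeasurableSet T)
    (hF1 : ∀ b : ℝ, ∫ a in Set.Ioc (-A) A, a ^ (2 * r) * max (b - a) 0 ≤ PA r A b)
    (hF2 : ∀ b : ℝ, PA r A b - 3 * (b ^ (4 * r + 4) / A ^ (2 * r + 2)) ≤
      ∫ a in Set.Ioc (-A) A, a ^ (2 * r) * max (b - a) 0)
    (hD : ∀ a, |a| ≤ A → ∫ w, max (B w - a) 0 ∂μ - ∫ w, max (B' w - a) 0 ∂μ ≤
      ∫ w, G B B' Γ e s Bad T a w ∂μ) :
    ∫ w, B w ^ (2 * r + 2) ∂μ ≤ ∫ w, B' w ^ (2 * r + 2) ∂μ + (2 * r + 2) * (2 * r + 1) *
      (3 * ((∫ w, B w ^ (4 * r + 4) ∂μ) / A ^ (2 * r + 2)) +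
        2 * Γ * (Γ + 1) * (4 ^ r * (∫ w, B w ^ (2 * r) ∂μ + ∫ w, B' w ^ (2 * r) ∂μ +
          Γ ^ (2 * r))) +
        2 * A ^ (2 * r + 1) * e + s * (A ^ (2 * r) * V + 2 * A ^ (2 * r + 1) * μ.real T)) := by
  classical
  have e4 : 4 * r + 4 = 2 * (2 * r + 2) := by ring
  have iB0 := iB
  have iB0' := iB'
  rw [e4] at iB iB'
  have i1 : Integrable B μ := by
    have := integrable_pow_of hB iB (i := 1) (by omega)
    simpa using this
  have i1' : Integrable B' μ := by
    have := integrable_pow_of hB' iB' (i := 1) (by omega)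
    simpa using this
  have i2 := integrable_pow_of hB iB (i := 2 * r + 2) (by omega)
  have i2' := integrable_pow_of hB' iB' (i := 2 * r + 2) (by omega)
  have i3 := integrable_pow_of hB iB (i := 2 * r) (by omega)
  have i3' := integrable_pow_of hB' iB' (i := 2 * r) (by omega)
  set ν : Measure ℝ := volume.restrict (Set.Ioc (-A) A) with hν
  have : IsFiniteMeasure ν := by
    rw [hν]
    exact ⟨by simp⟩
  -- the kernel
  set K : ℝ → Ω → ℝ := fun a w => a ^ (2 * r) * (max (B w - a) 0 - max (B' w - a) 0 -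
    G B B' Γ e s Bad T a w) with hK
  have hKm : Measurable fun p : ℝ × Ω => K p.1 p.2 := by
    rw [hK]
    refine (measurable_fst.pow_const (2 * r)).mul ((Measurable.sub ?_ ?_).sub
      (measurable_G hB hB' Γ e s hBad hT))
    · exact ((hB.comp measurable_snd).sub measurable_fst).max measurable_const
    · exact ((hB'.comp measurable_snd).sub measurable_fst).max measurable_const
  have hKi : Integrable (fun p : ℝ × Ω => K p.1 p.2) (ν.prod μ) := by
    have hd : Integrable (fun p : ℝ × Ω => A ^ (2 * r) * (|B p.2| + |B' p.2| +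
        (2 * A + (Γ + 1 + e + 2 * s)))) (ν.prod μ) := by
      refine Integrable.const_mul ?_ _
      refine Integrable.add (Integrable.add ?_ ?_) (integrable_const _)
      · exact i1.abs.comp_snd ν
      · exact i1'.abs.comp_snd ν
    refine Integrable.mono' hd hKm.aestronglyMeasurable ?_
    have hae : ∀ᵐ p ∂(ν.prod μ), p.1 ∈ Set.Ioc (-A) A := by
      have h1 : ∀ᵐ a ∂ν, a ∈ Set.Ioc (-A) A := self_mem_ae_restrict measurableSet_Ioc
      exact Measure.quasiMeasurePreserving_fst.ae h1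
    filter_upwards [hae] with p hp
    rw [Real.norm_eq_abs]
    have ha : |p.1| ≤ A := abs_le.2 ⟨by linarith [hp.1], hp.2⟩
    have h1 : |p.1 ^ (2 * r)| ≤ A ^ (2 * r) := by
      rw [abs_pow]
      exact pow_le_pow_left₀ (abs_nonneg _) ha _
    have h2 : |max (B p.2 - p.1) 0 - max (B' p.2 - p.1) 0 - G B B' Γ e s Bad T p.1 p.2| ≤
        |B p.2| + |B' p.2| + (2 * A + (Γ + 1 + e + 2 * s)) := by
      have h3 := abs_le.1 (G_abs B B' hΓ he hs Bad T p.1 p.2)
      have h4 : 0 ≤ max (B p.2 - p.1) 0 := le_max_right _ _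
      have h5 : max (B p.2 - p.1) 0 ≤ |B p.2| + A :=
        max_le (by linarith [le_abs_self (B p.2), (abs_le.1 ha).1]) (by positivity)
      have h6 : 0 ≤ max (B' p.2 - p.1) 0 := le_max_right _ _
      have h7 : max (B' p.2 - p.1) 0 ≤ |B' p.2| + A :=
        max_le (by linarith [le_abs_self (B' p.2), (abs_le.1 ha).1]) (by positivity)
      have h8 := abs_nonneg (B p.2)
      have h9 := abs_nonneg (B' p.2)
      rw [abs_le]
      constructor <;> linarith [h3.1, h3.2]
    rw [hK]
    simp only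
    rw [abs_mul]
    exact mul_le_mul h1 h2 (abs_nonneg _) (by positivity)
  -- the integral over the levels is nonpositive
  have hle : ∫ a, ∫ w, K a w ∂μ ∂ν ≤ 0 := by
    refine integral_nonpos_of_ae ?_
    filter_upwards [self_mem_ae_restrict measurableSet_Ioc] with a ha
    have ha' : |a| ≤ A := abs_le.2 ⟨by linarith [ha.1], ha.2⟩
    rw [hK]
    simp only
    rw [integral_const_mul]
    have hp : 0 ≤ a ^ (2 * r) := by rw [pow_mul]; positivity
    have hD' := hD a ha'
    have j1 : Integrable (fun w => max (B w - a) 0) μ := (i1.sub (integrable_const a)).pos_part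
    have j2 : Integrable (fun w => max (B' w - a) 0) μ := (i1'.sub (integrable_const a)).pos_part
    have j3 : Integrable (fun w => G B B' Γ e s Bad T a w) μ := by
      refine Integrable.mono' (integrable_const (Γ + 1 + e + 2 * s)) ?_ (ae_of_all _ fun w => ?_)
      · exact ((measurable_G hB hB' Γ e s hBad hT).comp
          (measurable_const.prodMk measurable_id)).aestronglyMeasurable
      · rw [Real.norm_eq_abs]
        exact G_abs B B' hΓ he hs Bad T a w
    have j4 : Integrable (fun w => max (B w - a) 0 - max (B' w - a) 0) μ := j1.sub j2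
    have h1 : ∫ w, (max (B w - a) 0 - max (B' w - a) 0 - G B B' Γ e s Bad T a w) ∂μ ≤ 0 := by
      rw [integral_sub j4 j3, integral_sub j1 j2]
      linarith
    have h2 : a ^ (2 * r) * ∫ w, (max (B w - a) 0 - max (B' w - a) 0 -
        G B B' Γ e s Bad T a w) ∂μ ≤ 0 := mul_nonpos_of_nonneg_of_nonpos hp h1
    exact h2
  have hsw : ∫ w, ∫ a, K a w ∂ν ∂μ ≤ 0 := by
    rw [← integral_integral_swap hKi]
    exact hle
  -- pointwise lower bound of the inner integral
  set R : Ω → ℝ := fun w => PA r A (B w) - 3 * (B w ^ (4 * r + 4) / A ^ (2 * r + 2)) -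
    PA r A (B' w) - (2 * Γ * (Γ + 1) * (4 ^ r * (B w ^ (2 * r) + B' w ^ (2 * r) + Γ ^ (2 * r))) +
      2 * A ^ (2 * r + 1) * e + s * (A ^ (2 * r) * V + 2 * A ^ (2 * r + 1) *
        T.indicator (fun _ => (1 : ℝ)) w)) with hR
  have hpt : ∀ w, R w ≤ ∫ a, K a w ∂ν := by
    intro w
    have hBm : MeasurableSet {a : ℝ | (a, w) ∈ Bad} :=
      hBad.preimage (measurable_id.prodMk measurable_const)
    have k1 : Integrable (fun a : ℝ => a ^ (2 * r) * max (B w - a) 0) ν := by
      rw [hν]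
      refine Continuous.integrableOn_Ioc ?_
      fun_prop
    have k2 : Integrable (fun a : ℝ => a ^ (2 * r) * max (B' w - a) 0) ν := by
      rw [hν]
      refine Continuous.integrableOn_Ioc ?_
      fun_prop
    have k0 : Integrable (fun a : ℝ => a ^ (2 * r)) ν := by
      rw [hν]
      refine Continuous.integrableOn_Ioc ?_
      fun_prop
    have bd : ∀ {f : ℝ → ℝ}, Measurable f → (∀ a, |f a| ≤ 1) →
        Integrable (fun a : ℝ => a ^ (2 * r) * f a) ν := by
      intro f hf hf1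
      refine Integrable.mono' k0 ((measurable_id.pow_const (2 * r)).mul hf).aestronglyMeasurable
        (ae_of_all _ fun a => ?_)
      have hp : 0 ≤ a ^ (2 * r) := by rw [pow_mul]; positivity
      rw [Real.norm_eq_abs, abs_mul, abs_of_nonneg hp]
      nlinarith [hf1 a]
    have mi : ∀ b : ℝ, Measurable fun a : ℝ => (if |a - b| < Γ then (1 : ℝ) else 0) := fun b =>
      Measurable.ite (measurableSet_lt ((measurable_id.sub_const b).abs) measurable_const)
        measurable_const measurable_const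
    have k3 := bd (mi (B w)) (fun a => ite_le_one _)
    have k4 := bd (mi (B' w)) (fun a => ite_le_one _)
    have k5 : Integrable (fun a : ℝ => a ^ (2 * r) * ({a : ℝ | (a, w) ∈ Bad}).indicator
        (fun _ => (1 : ℝ)) a) ν := bd (measurable_const.indicator hBm) (fun a => ind_le_one _ _)
    have hsum : ∫ a, K a w ∂ν = ∫ a, a ^ (2 * r) * max (B w - a) 0 ∂ν -
        ∫ a, a ^ (2 * r) * max (B' w - a) 0 ∂ν -
        (Γ * ∫ a, a ^ (2 * r) * (if |a - B w| < Γ then (1 : ℝ) else 0) ∂ν +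
          ∫ a, a ^ (2 * r) * (if |a - B' w| < Γ then (1 : ℝ) else 0) ∂ν +
          (e + s * T.indicator (fun _ => (1 : ℝ)) w) * ∫ a, a ^ (2 * r) ∂ν +
          s * ∫ a, a ^ (2 * r) * ({a : ℝ | (a, w) ∈ Bad}).indicator (fun _ => (1 : ℝ)) a ∂ν) := by
      have l1 : Integrable (fun a : ℝ => a ^ (2 * r) * max (B w - a) 0 -
          a ^ (2 * r) * max (B' w - a) 0) ν := k1.sub k2
      have l2 : Integrable (fun a : ℝ => Γ * (a ^ (2 * r) * (if |a - B w| < Γ then (1 : ℝ) else 0)) +
          a ^ (2 * r) * (if |a - B' w| < Γ then (1 : ℝ) else 0)) ν := (k3.const_mul Γ).add k4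
      have l3 : Integrable (fun a : ℝ => (Γ * (a ^ (2 * r) *
          (if |a - B w| < Γ then (1 : ℝ) else 0)) +
          a ^ (2 * r) * (if |a - B' w| < Γ then (1 : ℝ) else 0)) +
          (e + s * T.indicator (fun _ => (1 : ℝ)) w) * a ^ (2 * r)) ν := l2.add (k0.const_mul _)
      have l4 : Integrable (fun a : ℝ => ((Γ * (a ^ (2 * r) *
          (if |a - B w| < Γ then (1 : ℝ) else 0)) +
          a ^ (2 * r) * (if |a - B' w| < Γ then (1 : ℝ) else 0)) +
          (e + s * T.indicator (fun _ => (1 : ℝ)) w) * a ^ (2 * r)) +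
          s * (a ^ (2 * r) * ({a : ℝ | (a, w) ∈ Bad}).indicator (fun _ => (1 : ℝ)) a)) ν :=
        l3.add (k5.const_mul s)
      rw [← integral_const_mul Γ, ← integral_const_mul (e + s * T.indicator (fun _ => (1 : ℝ)) w),
        ← integral_const_mul s, ← integral_sub k1 k2,
        ← integral_add (k3.const_mul Γ) k4,
        ← integral_add l2 (k0.const_mul _),
        ← integral_add l3 (k5.const_mul s),
        ← integral_sub l1 l4]
      refine integral_congr_ae (ae_of_all _ fun a => ?_)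
      rw [hK]
      simp only [G]
      have : Bad.indicator (fun _ => (1 : ℝ)) (a, w) =
          ({a : ℝ | (a, w) ∈ Bad}).indicator (fun _ => (1 : ℝ)) a := rfl
      rw [this]
      ring
    have b1 := hF2 (B w)
    have b2 := hF1 (B' w)
    have b3 := near_int r A Γ (B w) hΓ
    have b4 := near_int r A Γ (B' w) hΓ
    have b5 : ∫ a, a ^ (2 * r) ∂ν ≤ 2 * A ^ (2 * r + 1) := by
      have h1 : ∫ a, a ^ (2 * r) ∂ν ≤ ∫ a, A ^ (2 * r) ∂ν := by
        refine integral_mono_ae k0 (integrable_const _) ?_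
        filter_upwards [self_mem_ae_restrict measurableSet_Ioc] with a ha
        have h0 : a ^ (2 * r) = |a| ^ (2 * r) := by
          rw [pow_mul, pow_mul, sq_abs]
        rw [h0]
        exact pow_le_pow_left₀ (abs_nonneg a) (abs_le.2 ⟨by linarith [ha.1], ha.2⟩) _
      refine h1.trans (le_of_eq ?_)
      rw [integral_const, smul_eq_mul, hν, measureReal_restrict_apply_univ,
        Real.volume_real_Ioc_of_le (by linarith)]
      ring
    have b50 : 0 ≤ ∫ a, a ^ (2 * r) ∂ν := by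
      refine integral_nonneg fun a => ?_
      change 0 ≤ a ^ (2 * r)
      rw [pow_mul]
      positivity
    have b6 := set_int r hA.le hV0 hBm (hV w)
    have b7 := add_pow_even (B w) Γ hΓ r
    have b8 := add_pow_even (B' w) Γ hΓ r
    have t0 : 0 ≤ T.indicator (fun _ => (1 : ℝ)) w := by
      unfold Set.indicator
      split_ifs <;> norm_num
    have p1 : (0 : ℝ) ≤ 4 ^ r := by positivity
    have p2 : 0 ≤ B w ^ (2 * r) := by rw [pow_mul]; positivity
    have p3 : 0 ≤ B' w ^ (2 * r) := by rw [pow_mul]; positivity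
    have p4 : 0 ≤ Γ ^ (2 * r) := by positivity
    rw [hsum, hR]
    simp only
    have c1 : Γ * ∫ a, a ^ (2 * r) * (if |a - B w| < Γ then (1 : ℝ) else 0) ∂ν ≤
        2 * Γ * Γ * (4 ^ r * (B w ^ (2 * r) + Γ ^ (2 * r))) := by
      calc Γ * ∫ a, a ^ (2 * r) * (if |a - B w| < Γ then (1 : ℝ) else 0) ∂ν
          ≤ Γ * (2 * Γ * (|B w| + Γ) ^ (2 * r)) := mul_le_mul_of_nonneg_left b3 hΓ
        _ = 2 * Γ * Γ * (|B w| + Γ) ^ (2 * r) := by ring
        _ ≤ _ := mul_le_mul_of_nonneg_left b7 (by positivity)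
    have c2 : ∫ a, a ^ (2 * r) * (if |a - B' w| < Γ then (1 : ℝ) else 0) ∂ν ≤
        2 * Γ * (4 ^ r * (B' w ^ (2 * r) + Γ ^ (2 * r))) :=
      b4.trans (mul_le_mul_of_nonneg_left b8 (by positivity))
    have c3 : (e + s * T.indicator (fun _ => (1 : ℝ)) w) * ∫ a, a ^ (2 * r) ∂ν ≤
        (e + s * T.indicator (fun _ => (1 : ℝ)) w) * (2 * A ^ (2 * r + 1)) :=
      mul_le_mul_of_nonneg_left b5 (by positivity)
    have c4 : s * ∫ a, a ^ (2 * r) * ({a : ℝ | (a, w) ∈ Bad}).indicator (fun _ => (1 : ℝ)) a ∂ν ≤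
        s * (A ^ (2 * r) * V) := mul_le_mul_of_nonneg_left b6 hs
    have c5 : 2 * Γ * Γ * (4 ^ r * (B w ^ (2 * r) + Γ ^ (2 * r))) +
        2 * Γ * (4 ^ r * (B' w ^ (2 * r) + Γ ^ (2 * r))) ≤
        2 * Γ * (Γ + 1) * (4 ^ r * (B w ^ (2 * r) + B' w ^ (2 * r) + Γ ^ (2 * r))) := by
      have q1 : 0 ≤ 2 * Γ * Γ * (4 ^ r * B' w ^ (2 * r)) := by positivity
      have q2 : 0 ≤ 2 * Γ * (4 ^ r * B w ^ (2 * r)) := by positivity
      nlinarith
    linarith
  -- integrate
  have iT : Integrable (T.indicator fun _ => (1 : ℝ)) μ := (integrable_const 1).indicator hT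
  have iP : ∀ {f : Ω → ℝ}, Integrable f μ → Integrable (fun w => f w ^ (2 * r + 2)) μ →
      Integrable (fun w => PA r A (f w)) μ := by
    intro f hf hf2
    unfold PA
    exact ((hf2.div_const _).add (hf.mul_const _)).add (integrable_const _)
  have sP : ∀ {f : Ω → ℝ}, Integrable f μ → Integrable (fun w => f w ^ (2 * r + 2)) μ →
      ∫ w, PA r A (f w) ∂μ = (∫ w, f w ^ (2 * r + 2) ∂μ) / ((2 * r + 2) * (2 * r + 1)) +
        (∫ w, f w ∂μ) * (A ^ (2 * r + 1) / (2 * r + 1)) + A ^ (2 * r + 2) / (2 * r + 2) := by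
    intro f hf hf2
    unfold PA
    have l1 : Integrable (fun w => f w ^ (2 * r + 2) / ((2 * (r : ℝ) + 2) * (2 * r + 1))) μ :=
      hf2.div_const _
    have l2 : Integrable (fun w => f w * (A ^ (2 * r + 1) / (2 * (r : ℝ) + 1))) μ :=
      hf.mul_const _
    have l3 : Integrable (fun w => f w ^ (2 * r + 2) / ((2 * (r : ℝ) + 2) * (2 * r + 1)) +
        f w * (A ^ (2 * r + 1) / (2 * (r : ℝ) + 1))) μ := l1.add l2
    rw [integral_add l3 (integrable_const _),
      integral_add l1 l2, integral_div, integral_mul_const, integral_const]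
    simp
  have iQ : Integrable (fun w => 2 * Γ * (Γ + 1) * (4 ^ r * (B w ^ (2 * r) + B' w ^ (2 * r) +
      Γ ^ (2 * r))) + 2 * A ^ (2 * r + 1) * e + s * (A ^ (2 * r) * V + 2 * A ^ (2 * r + 1) *
        T.indicator (fun _ => (1 : ℝ)) w)) μ := by
    refine Integrable.add (Integrable.add ?_ (integrable_const _)) ?_
    · exact (((i3.add i3').add (integrable_const _)).const_mul _).const_mul _
    · exact ((integrable_const _).add (iT.const_mul _)).const_mul _
  have sQ : ∫ w, (2 * Γ * (Γ + 1) * (4 ^ r * (B w ^ (2 * r) + B' w ^ (2 * r) +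
      Γ ^ (2 * r))) + 2 * A ^ (2 * r + 1) * e + s * (A ^ (2 * r) * V + 2 * A ^ (2 * r + 1) *
        T.indicator (fun _ => (1 : ℝ)) w)) ∂μ = 2 * Γ * (Γ + 1) * (4 ^ r *
        (∫ w, B w ^ (2 * r) ∂μ + ∫ w, B' w ^ (2 * r) ∂μ + Γ ^ (2 * r))) +
        2 * A ^ (2 * r + 1) * e + s * (A ^ (2 * r) * V + 2 * A ^ (2 * r + 1) * μ.real T) := by
    have q1 : Integrable (fun w => 2 * Γ * (Γ + 1) * (4 ^ r * (B w ^ (2 * r) + B' w ^ (2 * r) +
      Γ ^ (2 * r)))) μ := (((i3.add i3').add (integrable_const _)).const_mul _).const_mul _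
    have q2 : Integrable (fun w => s * (A ^ (2 * r) * V + 2 * A ^ (2 * r + 1) *
        T.indicator (fun _ => (1 : ℝ)) w)) μ :=
      ((integrable_const _).add (iT.const_mul _)).const_mul _
    have q3 : Integrable (fun w => 2 * Γ * (Γ + 1) * (4 ^ r * (B w ^ (2 * r) + B' w ^ (2 * r) +
      Γ ^ (2 * r))) + 2 * A ^ (2 * r + 1) * e) μ := q1.add (integrable_const _)
    have q4 : Integrable (fun w => B w ^ (2 * r) + B' w ^ (2 * r)) μ := i3.add i3'
    have q5 : Integrable (fun w => 2 * A ^ (2 * r + 1) * T.indicator (fun _ => (1 : ℝ)) w) μ :=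
      iT.const_mul _
    have sT : ∫ w, T.indicator (fun _ => (1 : ℝ)) w ∂μ = μ.real T := by
      have := integral_indicator_const (μ := μ) (1 : ℝ) hT
      simpa using this
    rw [integral_add q3 q2, integral_add q1 (integrable_const _),
      integral_const_mul, integral_const_mul, integral_const_mul s,
      integral_add q4 (integrable_const _), integral_add i3 i3',
      integral_add (integrable_const _) q5, integral_const_mul (2 * A ^ (2 * r + 1)) (fun w => T.indicator (fun _ => (1 : ℝ)) w), sT]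
    simp
  have iR : Integrable R μ := by
    rw [hR]
    exact (((iP i1 i2).sub ((iB0.div_const _).const_mul 3)).sub (iP i1' i2')).sub iQ
  have hKw : Integrable (fun w => ∫ a, K a w ∂ν) μ := hKi.integral_prod_right
  have hRle : ∫ w, R w ∂μ ≤ 0 := (integral_mono iR hKw hpt).trans hsw
  have sR : ∫ w, R w ∂μ = (∫ w, B w ^ (2 * r + 2) ∂μ) / ((2 * r + 2) * (2 * r + 1)) -
      (∫ w, B' w ^ (2 * r + 2) ∂μ) / ((2 * r + 2) * (2 * r + 1)) -
      3 * ((∫ w, B w ^ (4 * r + 4) ∂μ) / A ^ (2 * r + 2)) -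
      (2 * Γ * (Γ + 1) * (4 ^ r *
        (∫ w, B w ^ (2 * r) ∂μ + ∫ w, B' w ^ (2 * r) ∂μ + Γ ^ (2 * r))) +
        2 * A ^ (2 * r + 1) * e + s * (A ^ (2 * r) * V + 2 * A ^ (2 * r + 1) * μ.real T)) := by
    have u1 : Integrable (fun w => 3 * (B w ^ (4 * r + 4) / A ^ (2 * r + 2))) μ :=
      (iB0.div_const _).const_mul 3
    have u2 : Integrable (fun w => PA r A (B w) - 3 * (B w ^ (4 * r + 4) / A ^ (2 * r + 2))) μ :=
      (iP i1 i2).sub u1
    have u3 : Integrable (fun w => PA r A (B w) - 3 * (B w ^ (4 * r + 4) / A ^ (2 * r + 2)) -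
      PA r A (B' w)) μ := u2.sub (iP i1' i2')
    rw [hR, integral_sub u3 iQ, integral_sub u2 (iP i1' i2'),
      integral_sub (iP i1 i2) u1, sQ, sP i1 i2, sP i1' i2', m1,
      integral_const_mul, integral_div]
    ring
  rw [sR] at hRle
  have hc : (0 : ℝ) < (2 * r + 2) * (2 * r + 1) := by positivity
  have h1 : (∫ w, B w ^ (2 * r + 2) ∂μ) / ((2 * r + 2) * (2 * r + 1)) ≤
      (∫ w, B' w ^ (2 * r + 2) ∂μ) / ((2 * r + 2) * (2 * r + 1)) +
      (3 * ((∫ w, B w ^ (4 * r + 4) ∂μ) / A ^ (2 * r + 2)) +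
        2 * Γ * (Γ + 1) * (4 ^ r *
        (∫ w, B w ^ (2 * r) ∂μ + ∫ w, B' w ^ (2 * r) ∂μ + Γ ^ (2 * r))) +
        2 * A ^ (2 * r + 1) * e + s * (A ^ (2 * r) * V + 2 * A ^ (2 * r + 1) * μ.real T)) := by
    linarith
  rw [div_le_iff₀ hc] at h1
  refine h1.trans (le_of_eq ?_)
  field_simp

end Pool.Agent.W_7d29a1_V.Abs60
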