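import Pool.Agent.W_7d29a1_V.DefsA70

/-!
Bootstrap at one tilt, part (a): the nonrandom fluctuations with the modulus
`n ^ x + √(n ‖h' - h‖ ^ (p - 1))`.
-/

namespace Pool.Agent.W_7d29a1_V

open MeasureTheory ProbabilityTheory Filter Topology Pool.Agent.W_MP_7d29a1_pr
  Pool.Agent.W_7d29a1_h46 Pool.Agent.W_7d29a1_h46u Pool.Agent.W_7d29a1_D2

/-- The modulus of the fluctuations. -/
noncomputable def md (x t : ℝ) (n : ℕ) : ℝ := (n : ℝ) ^ x + Real.sqrt (n * t)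

namespace Ae7

variable {d : ℕ} {ρ : Measure ℝ} [IsProbabilityMeasure ρ]

lemma md_one_le {x t : ℝ} (hx : 0 ≤ x) {n : ℕ} (hn : 1 ≤ n) : 1 ≤ md x t n := by
  have hn1 : (1 : ℝ) ≤ n := by exact_mod_cast hn
  have h1 : (1 : ℝ) ≤ (n : ℝ) ^ x := Real.one_le_rpow hn1 hx
  have h2 := Real.sqrt_nonneg ((n : ℝ) * t)
  unfold md
  linarith

lemma md_mono_t {x t t' : ℝ} (h : t ≤ t') (n : ℕ) : md x t n ≤ md x t' n := by
  unfold md
  have := Real.sqrt_le_sqrt (mul_le_mul_of_nonneg_left h (Nat.cast_nonneg (α := ℝ) n))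
  linarith

lemma md_mono_n {x t : ℝ} (hx : 0 ≤ x) (ht : 0 ≤ t) {m n : ℕ} (h : m ≤ n) :
    md x t m ≤ md x t n := by
  have hmn : (m : ℝ) ≤ n := by exact_mod_cast h
  unfold md
  have h1 := Real.rpow_le_rpow (Nat.cast_nonneg m) hmn hx
  have h2 := Real.sqrt_le_sqrt (mul_le_mul_of_nonneg_right hmn ht)
  linarith

lemma md_dbl {x t : ℝ} (hx : x ≤ 1 / 2) (k : ℕ) {n : ℕ} (hn : 1 ≤ n) :
    md x t (2 ^ k * n) ≤ ((2 : ℝ) ^ (1 / 2 : ℝ)) ^ k * md x t n := by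
  have hn0 : (0 : ℝ) < n := by exact_mod_cast hn
  have e0 : ((2 : ℝ) ^ (1 / 2 : ℝ)) ^ k = Real.sqrt ((2 : ℝ) ^ k) := by
    rw [Real.sqrt_eq_rpow, ← Real.rpow_natCast, ← Real.rpow_natCast, ← Real.rpow_mul (by norm_num),
      ← Real.rpow_mul (by norm_num), mul_comm]
  have h2k : (1 : ℝ) ≤ (2 : ℝ) ^ k := one_le_pow₀ (by norm_num)
  unfold md
  rw [mul_add]
  refine add_le_add ?_ (le_of_eq ?_)
  · push_cast
    rw [Real.mul_rpow (by positivity) hn0.le]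
    refine mul_le_mul_of_nonneg_right ?_ (Real.rpow_nonneg hn0.le _)
    rw [e0, Real.sqrt_eq_rpow]
    exact Real.rpow_le_rpow_of_exponent_le h2k hx
  · push_cast
    rw [e0, ← Real.sqrt_mul (by positivity)]
    congr 1
    ring

/-- The maximum over a box, for one tilt. -/
theorem maxG (hd : 0 < d) (hρ : EM ρ) {β : ℝ} {g : Vec d} {Q n : ℕ} (hn : 1 ≤ n) {u b : ℝ}
    (hu : 0 < u) (hb : ∫ η, |X β g η n - A ρ β g n| ^ (Q + 1) ∂(law d ρ) ≤ b) :
    Integrable (fun η => (boxF d n).sup' ⟨0, zero_mem_boxF n⟩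
        fun y => |X β g (sh n y η) n - A ρ β g n|) (law d ρ) ∧
      ∫ η, (boxF d n).sup' ⟨0, zero_mem_boxF n⟩
        (fun y => |X β g (sh n y η) n - A ρ β g n|) ∂(law d ρ) ≤
        u + (3 * (n : ℝ)) ^ d * (b / u ^ Q) := by
  obtain ⟨Cm, _, hCm⟩ := momU (ρ := ρ) hd hρ β (Q + 1)
  have hn0 : (0 : ℝ) < n := by exact_mod_cast hn
  have hn1 : (1 : ℝ) ≤ n := by exact_mod_cast hn
  set D : Site d → Env d → ℝ := fun y η => |X β g (sh n y η) n - A ρ β g n| with hD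
  have hDm : ∀ y, Measurable (D y) := by
    intro y
    have h1 : Measurable fun η : Env d => X β g (sh n y η) n :=
      (measurable_X β g n).comp (measurable_sh n y)
    exact (h1.sub measurable_const).norm
  have hPi : ∀ y, Integrable (fun η => D y η ^ (Q + 1)) (law d ρ) := by
    intro y
    exact (mp_sh n y).integrable_comp_of_integrable (hCm g n hn).1
  have hPv : ∀ y, ∫ η, D y η ^ (Q + 1) ∂(law d ρ) ≤ b := by
    intro y
    have h1 : ∫ η, D y η ^ (Q + 1) ∂(law d ρ) =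
        ∫ η, |X β g η n - A ρ β g n| ^ (Q + 1) ∂(law d ρ) := by
      refine integral_sh n y (F := fun η => |X β g η n - A ρ β g n| ^ (Q + 1)) ?_
      exact (((measurable_X β g n).sub measurable_const).norm).pow_const _
    rw [h1]
    exact hb
  have hb0 : 0 ≤ b := le_trans (integral_nonneg fun η => pow_nonneg (abs_nonneg _) _) hb
  have hle : ∀ η : Env d, (boxF d n).sup' ⟨0, zero_mem_boxF n⟩ (fun y => D y η) ≤
      u + ∑ y ∈ boxF d n, D y η ^ (Q + 1) / u ^ Q := by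
    intro η
    refine Finset.sup'_le _ _ fun y hy => ?_
    refine (MaxU_point hu (abs_nonneg _) Q).trans ?_
    have h1 : D y η ^ (Q + 1) / u ^ Q ≤ ∑ y ∈ boxF d n, D y η ^ (Q + 1) / u ^ Q :=
      Finset.single_le_sum (f := fun y => D y η ^ (Q + 1) / u ^ Q)
        (fun y _ => div_nonneg (pow_nonneg (abs_nonneg _) _) (pow_nonneg hu.le _)) hy
    show u + D y η ^ (Q + 1) / u ^ Q ≤ _
    linarith
  have h0 : ∀ η : Env d, 0 ≤ (boxF d n).sup' ⟨0, zero_mem_boxF n⟩ (fun y => D y η) := by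
    intro η
    exact (abs_nonneg _).trans (Finset.le_sup' (fun y => D y η) (zero_mem_boxF n))
  have hSm : Measurable fun η : Env d =>
      (boxF d n).sup' ⟨0, zero_mem_boxF n⟩ (fun y => D y η) := by
    have h1 : Measurable ((boxF d n).sup' ⟨0, zero_mem_boxF n⟩ D) :=
      Finset.measurable_sup' _ fun y _ => hDm y
    have h3 : (fun η : Env d => (boxF d n).sup' ⟨0, zero_mem_boxF n⟩ (fun y => D y η)) =
        (boxF d n).sup' ⟨0, zero_mem_boxF n⟩ D := by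
      funext η
      rw [Finset.sup'_apply]
    rw [h3]
    exact h1
  have hBi : Integrable (fun η => u + ∑ y ∈ boxF d n, D y η ^ (Q + 1) / u ^ Q) (law d ρ) :=
    (integrable_const u).add (integrable_finsetSum _ fun y _ => (hPi y).div_const _)
  have hSi : Integrable (fun η : Env d =>
      (boxF d n).sup' ⟨0, zero_mem_boxF n⟩ (fun y => D y η)) (law d ρ) := by
    refine hBi.mono' hSm.aestronglyMeasurable (Eventually.of_forall fun η => ?_)
    rw [Real.norm_eq_abs, abs_of_nonneg (h0 η)]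
    exact hle η
  refine ⟨hSi, ?_⟩
  have h2 : ∫ η, (boxF d n).sup' ⟨0, zero_mem_boxF n⟩ (fun y => D y η) ∂(law d ρ) ≤
      ∫ η, (u + ∑ y ∈ boxF d n, D y η ^ (Q + 1) / u ^ Q) ∂(law d ρ) :=
    integral_mono hSi hBi hle
  refine h2.trans ?_
  rw [integral_add (integrable_const u)
    (integrable_finsetSum _ fun y _ => (hPi y).div_const _), integral_const,
    integral_finsetSum _ fun y _ => (hPi y).div_const _]
  simp only [integral_div, probReal_univ, one_smul]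
  have h3 : ∑ y ∈ boxF d n, (∫ η, D y η ^ (Q + 1) ∂(law d ρ)) / u ^ Q ≤
      (3 * (n : ℝ)) ^ d * (b / u ^ Q) := by
    refine (Finset.sum_le_card_nsmul _ _ (b / u ^ Q) fun y _ => ?_).trans ?_
    · exact div_le_div_of_nonneg_right (hPv y) (pow_nonneg hu.le _)
    · rw [card_boxF, nsmul_eq_mul]
      refine mul_le_mul_of_nonneg_right ?_ (by positivity)
      push_cast
      exact pow_le_pow_left₀ (by positivity) (by linarith) d
  linarith

/-- Doubling, for one tilt. -/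
theorem doubleG (hd : 0 < d) (hρ : EM ρ) {β : ℝ} {g : Vec d} {Q n : ℕ} (hn : 1 ≤ n) {u b : ℝ}
    (hu : 0 < u) (hb : ∫ η, |X β g η n - A ρ β g n| ^ (Q + 1) ∂(law d ρ) ≤ b) :
    A ρ β g (n + n) ≤ 2 * A ρ β g n + (u + (3 * (n : ℝ)) ^ d * (b / u ^ Q)) := by
  obtain ⟨hi, hv⟩ := maxG hd hρ hn hu hb
  have i1 := (concU (ρ := ρ) hd hρ β g (n + n)).1
  have i2 := (concU (ρ := ρ) hd hρ β g n).1
  have i3 : Integrable (fun η : Env d => A ρ β g n + (boxF d n).sup' ⟨0, zero_mem_boxF n⟩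
      fun y => |X β g (sh n y η) n - A ρ β g n|) (law d ρ) := (integrable_const _).add hi
  have h1 : A ρ β g (n + n) ≤ ∫ η, (X β g η n + (A ρ β g n +
      (boxF d n).sup' ⟨0, zero_mem_boxF n⟩
        fun y => |X β g (sh n y η) n - A ρ β g n|)) ∂(law d ρ) := by
    refine integral_mono i1 (i2.add i3) fun η => ?_
    exact DblU_point hd β g η n (A ρ β g n)
  rw [integral_add i2 i3, integral_add (integrable_const _) hi, integral_const] at h1
  simp only [probReal_univ, one_smul] at h1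
  have h2 : ∫ η, X β g η n ∂(law d ρ) = A ρ β g n := rfl
  rw [h2] at h1
  linarith

/-- Doubling with the modulus. -/
theorem doubleM (hd : 0 < d) (hρ : EM ρ) {β : ℝ} {h : Vec d} {p x : ℝ} (hx : 0 ≤ x)
    (hF : FlM ρ β h p x) {ε : ℝ} (hε : 0 < ε) :
    ∃ r : ℝ, 0 < r ∧ ∃ C : ℝ, 0 ≤ C ∧ ∀ h' : Vec d, ‖h' - h‖ < r → ∀ n : ℕ, 1 ≤ n →
      A ρ β h' (n + n) ≤ 2 * A ρ β h' n + C * ((n : ℝ) ^ ε * md x (‖h' - h‖ ^ (p - 1)) n) := by
  obtain ⟨Q, hQ⟩ := exists_nat_ge ((d : ℝ) / (ε / 2))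
  obtain ⟨r, hr, C, hC⟩ := hF (ε / 2) (by linarith) (Q + 1)
  refine ⟨r, hr, 1 + 3 ^ d * |C|, by positivity, fun h' hh' n hn => ?_⟩
  have hn0 : (0 : ℝ) < n := by exact_mod_cast hn
  have hn1 : (1 : ℝ) ≤ n := by exact_mod_cast hn
  obtain ⟨M, hM⟩ : ∃ M : ℝ, M = md x (‖h' - h‖ ^ (p - 1)) n := ⟨_, rfl⟩
  have hM1 : 1 ≤ M := by
    rw [hM]
    exact md_one_le hx hn
  have hM0 : 0 < M := by linarith
  obtain ⟨y, hy⟩ : ∃ y : ℝ, y = (n : ℝ) ^ (ε / 2) := ⟨_, rfl⟩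
  have hy0 : 0 < y := by
    rw [hy]
    exact Real.rpow_pos_of_pos hn0 _
  have hyy : (n : ℝ) ^ ε = y * y := by
    rw [hy, ← Real.rpow_add hn0]
    congr 1
    ring
  have hb : ∫ η, |X β h' η n - A ρ β h' n| ^ (Q + 1) ∂(law d ρ) ≤ |C| * (y * M) ^ (Q + 1) := by
    refine (hC h' hh' n hn).trans ?_
    have h1 : (n : ℝ) ^ (ε / 2) * ((n : ℝ) ^ x + Real.sqrt (n * ‖h' - h‖ ^ (p - 1))) = y * M := by
      rw [hy, hM]
      rfl
    rw [h1]
    exact mul_le_mul_of_nonneg_right (le_abs_self C) (by positivity)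
  have hu : 0 < y * y * M := by positivity
  have h2 := doubleG hd hρ hn hu hb
  have h3 : (3 * (n : ℝ)) ^ d * (|C| * (y * M) ^ (Q + 1) / (y * y * M) ^ Q) ≤
      3 ^ d * |C| * (y * y * M) := by
    have e1 : |C| * (y * M) ^ (Q + 1) / (y * y * M) ^ Q = |C| * (y * M) / y ^ Q := by
      have e2 : (y * y * M) ^ Q = y ^ Q * (y * M) ^ Q := by
        rw [← mul_pow]
        ring
      rw [e2, pow_succ]
      field_simp
    rw [e1, mul_pow]
    have e3 : (n : ℝ) ^ d ≤ y ^ Q * y := by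
      have e4 : (n : ℝ) ^ d ≤ y ^ Q := by
        rw [hy, ← Real.rpow_natCast, ← Real.rpow_natCast, ← Real.rpow_mul hn0.le]
        refine Real.rpow_le_rpow_of_exponent_le hn1 ?_
        rw [div_le_iff₀ (by linarith)] at hQ
        linarith
      have e5 : 1 ≤ y := by
        rw [hy]
        exact Real.one_le_rpow hn1 (by linarith)
      calc (n : ℝ) ^ d ≤ y ^ Q := e4
        _ ≤ y ^ Q * y := le_mul_of_one_le_right (by positivity) e5
    have e6 : 3 ^ d * (n : ℝ) ^ d * (|C| * (y * M) / y ^ Q) =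
        3 ^ d * |C| * (y * M) * ((n : ℝ) ^ d / y ^ Q) := by ring
    rw [e6]
    have e7 : (n : ℝ) ^ d / y ^ Q ≤ y := by
      rw [div_le_iff₀ (by positivity)]
      linarith
    calc 3 ^ d * |C| * (y * M) * ((n : ℝ) ^ d / y ^ Q) ≤ 3 ^ d * |C| * (y * M) * y :=
          mul_le_mul_of_nonneg_left e7 (by positivity)
      _ = 3 ^ d * |C| * (y * y * M) := by ring
  rw [hyy, ← hM]
  linarith

/-- Abstract doubling iteration. -/
theorem iterM {a : ℕ → ℝ} {K s : ℝ} (n : ℕ)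
    (H : ∀ k : ℕ, a (2 ^ k * n + 2 ^ k * n) ≤ 2 * a (2 ^ k * n) + K * (s * 2) ^ k) (j : ℕ) :
    a (2 ^ j * n) / 2 ^ j ≤ a n + K / 2 * ∑ k ∈ Finset.range j, s ^ k := by
  induction j with
  | zero => simp
  | succ j ih =>
    have h1 := H j
    have e1 : 2 ^ (j + 1) * n = 2 ^ j * n + 2 ^ j * n := by ring
    rw [e1, Finset.sum_range_succ]
    have h2 : (0 : ℝ) < 2 ^ j := by positivity
    rw [mul_pow] at h1
    rw [div_le_iff₀ h2] at ih
    rw [div_le_iff₀ (by positivity), pow_succ]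
    nlinarith [h1, ih]

/-- **(a)** The nonrandom fluctuations with the modulus. -/
theorem rateM (hd : 0 < d) (hρ : EM ρ) {β : ℝ} {h : Vec d} {p x : ℝ} (hx : 0 ≤ x)
    (hx1 : x ≤ 1 / 2) (hF : FlM ρ β h p x) {ε : ℝ} (hε : 0 < ε) (hε1 : ε < 1 / 2) :
    ∃ r : ℝ, 0 < r ∧ ∃ C : ℝ, 0 ≤ C ∧ ∀ h' : Vec d, ‖h' - h‖ < r → ∀ n : ℕ, 1 ≤ n →
      n * lam ρ β h' - A ρ β h' n ≤ C * ((n : ℝ) ^ ε * md x (‖h' - h‖ ^ (p - 1)) n) := by
  obtain ⟨r, hr, C, hC, H⟩ := doubleM hd hρ hx hF hε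
  obtain ⟨s, hs⟩ : ∃ s : ℝ, s = (2 : ℝ) ^ (ε - 1 / 2) := ⟨_, rfl⟩
  have hs0 : 0 < s := by
    rw [hs]
    exact Real.rpow_pos_of_pos two_pos _
  have hs1 : s < 1 := by
    rw [hs]
    exact Real.rpow_lt_one_of_one_lt_of_neg one_lt_two (by linarith)
  refine ⟨r, hr, C / 2 * (1 - s)⁻¹,
    mul_nonneg (by linarith) (inv_nonneg.2 (by linarith)), fun h' hh n hn => ?_⟩
  have hn0 : (0 : ℝ) < n := by exact_mod_cast hn
  obtain ⟨D, hD⟩ : ∃ D : ℝ, D = (n : ℝ) ^ ε * md x (‖h' - h‖ ^ (p - 1)) n := ⟨_, rfl⟩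
  have hD0 : 0 ≤ D := by
    rw [hD]
    exact mul_nonneg (Real.rpow_nonneg hn0.le _) (by linarith [md_one_le (t := ‖h' - h‖ ^ (p - 1)) hx hn])
  have H' : ∀ k : ℕ, A ρ β h' (2 ^ k * n + 2 ^ k * n) ≤ 2 * A ρ β h' (2 ^ k * n) +
      (C * D) * (s * 2) ^ k := by
    intro k
    refine (H h' hh (2 ^ k * n) (Nat.mul_pos (by positivity) hn)).trans ?_
    have h1 : ((2 ^ k * n : ℕ) : ℝ) ^ ε * md x (‖h' - h‖ ^ (p - 1)) (2 ^ k * n) ≤ D * (s * 2) ^ k := by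
      have e1 : ((2 ^ k * n : ℕ) : ℝ) ^ ε = ((2 : ℝ) ^ ε) ^ k * (n : ℝ) ^ ε := by
        push_cast
        rw [Real.mul_rpow (by positivity) hn0.le, ← Real.rpow_natCast, ← Real.rpow_natCast,
          ← Real.rpow_mul (by norm_num), ← Real.rpow_mul (by norm_num), mul_comm (k : ℝ) ε]
      have e2 := md_dbl (t := ‖h' - h‖ ^ (p - 1)) hx1 k hn
      have e3 : s * 2 = (2 : ℝ) ^ ε * (2 : ℝ) ^ (1 / 2 : ℝ) := by
        have e4 : (2 : ℝ) ^ (ε - 1 / 2) * (2 : ℝ) ^ (1 : ℝ) = (2 : ℝ) ^ (ε + 1 / 2) := by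
          rw [← Real.rpow_add two_pos]
          congr 1
          ring
        rw [hs, ← Real.rpow_add two_pos, ← e4, Real.rpow_one]
      rw [e1, e3, mul_pow, hD]
      calc ((2 : ℝ) ^ ε) ^ k * (n : ℝ) ^ ε * md x (‖h' - h‖ ^ (p - 1)) (2 ^ k * n)
          ≤ ((2 : ℝ) ^ ε) ^ k * (n : ℝ) ^ ε *
              (((2 : ℝ) ^ (1 / 2 : ℝ)) ^ k * md x (‖h' - h‖ ^ (p - 1)) n) :=
            mul_le_mul_of_nonneg_left e2 (by positivity)
        _ = _ := by ring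
    have h2 := mul_le_mul_of_nonneg_left h1 hC
    linarith
  have key : ∀ j : ℕ, A ρ β h' (2 ^ j * n) / 2 ^ j ≤
      A ρ β h' n + C / 2 * (1 - s)⁻¹ * D := by
    intro j
    refine (iterM n H' j).trans ?_
    have h1 : ∑ k ∈ Finset.range j, s ^ k ≤ (1 - s)⁻¹ := by
      rw [← tsum_geometric_of_lt_one hs0.le hs1]
      exact (summable_geometric_of_lt_one hs0.le hs1).sum_le_tsum _
        (fun k _ => pow_nonneg hs0.le k)
    have h2 : 0 ≤ C * D / 2 := by positivity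
    have h3 := mul_le_mul_of_nonneg_left h1 h2
    have h4 : C / 2 * (1 - s)⁻¹ * D = C * D / 2 * (1 - s)⁻¹ := by ring
    rw [h4]
    linarith
  have hlim : Tendsto (fun j : ℕ => A ρ β h' (2 ^ j * n) / 2 ^ j) atTop
      (𝓝 (n * lam ρ β h')) := by
    have h1 : Tendsto (fun j : ℕ => 2 ^ j * n) atTop atTop :=
      Filter.Tendsto.atTop_mul_const' hn (tendsto_pow_atTop_atTop_of_one_lt one_lt_two)
    have h2 := ((tendsto_A hd hρ β h').comp h1).const_mul (n : ℝ)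
    refine h2.congr fun j => ?_
    simp only [Function.comp]
    push_cast
    have h3 : (2 : ℝ) ^ j ≠ 0 := by positivity
    field_simp
  have h4 := le_of_tendsto' hlim key
  rw [← hD]
  linarith

/-- Tails from moments, with the modulus. -/
theorem tailM (hd : 0 < d) (hρ : EM ρ) {β : ℝ} {h : Vec d} {p x : ℝ} (hx : 0 ≤ x)
    (hF : FlM ρ β h p x) {ε : ℝ} (hε : 0 < ε) (q : ℕ) :
    ∃ r : ℝ, 0 < r ∧ ∃ C : ℝ, 0 ≤ C ∧ ∀ h' : Vec d, ‖h' - h‖ < r → ∀ (n m : ℕ), 1 ≤ n → m ≤ n →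
      ∀ (t : ℕ) (y : Site d) (u : ℝ), (n : ℝ) ^ ε * md x (‖h' - h‖ ^ (p - 1)) n ≤ u →
        (law d ρ).real {η | u < |X β h' (sh t y η) m - A ρ β h' m|} ≤
          C * (n : ℝ) ^ (-(q : ℝ)) := by
  obtain ⟨Q, hQ⟩ := exists_nat_ge ((q : ℝ) / (ε / 2))
  have hQ' : (q : ℝ) ≤ (ε / 2) * Q := by
    rw [div_le_iff₀ (by linarith)] at hQ
    linarith
  obtain ⟨r, hr, C₀, hC₀⟩ := hF (ε / 2) (by linarith) Q
  obtain ⟨C₁, -, hC₁⟩ := momU (d := d) hd hρ β Q
  refine ⟨r, hr, |C₀|, abs_nonneg _, fun h' hh' n m hn hm t y u hu => ?_⟩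
  have hn1 : (1 : ℝ) ≤ n := by exact_mod_cast hn
  have hn0 : (0 : ℝ) < n := by linarith
  obtain ⟨M, hM⟩ : ∃ M : ℝ, M = md x (‖h' - h‖ ^ (p - 1)) n := ⟨_, rfl⟩
  have hM1 : 1 ≤ M := by
    rw [hM]
    exact md_one_le hx hn
  rw [← hM] at hu
  have hpn : 0 < (n : ℝ) ^ ε := Real.rpow_pos_of_pos hn0 _
  have hu0 : 0 < u := lt_of_lt_of_le (mul_pos hpn (by linarith)) hu
  have hrhs : 0 ≤ |C₀| * (n : ℝ) ^ (-(q : ℝ)) :=
    mul_nonneg (abs_nonneg _) (Real.rpow_nonneg hn0.le _)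
  rcases Nat.eq_zero_or_pos m with hm0 | hm0
  · have h1 : ∀ η : Env d, X β h' η 0 = 0 := by
      intro η
      rw [X, Z_zero, Real.log_one]
    have h2 : A ρ β h' 0 = 0 := by
      unfold A
      simp only [h1]
      exact integral_zero _ _
    have h3 : {η : Env d | u < |X β h' (sh t y η) m - A ρ β h' m|} = ∅ := by
      rw [Set.eq_empty_iff_forall_notMem]
      intro η hη
      have hη' : u < |X β h' (sh t y η) m - A ρ β h' m| := hη
      rw [hm0, h1, h2, sub_zero, abs_zero] at hη'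
      exact absurd hη' (not_lt.2 hu0.le)
    rw [h3, measureReal_empty]
    exact hrhs
  · obtain ⟨hint, -⟩ := hC₁ h' m hm0
    have hmean := hC₀ h' hh' m hm0
    have hmeasY : Measurable fun η : Env d => |X β h' η m - A ρ β h' m| :=
      ((measurable_X β h' m).sub_const _).abs
    have hset : MeasurableSet {η : Env d | u < |X β h' η m - A ρ β h' m|} :=
      measurableSet_lt measurable_const hmeasY
    have hshift : (law d ρ).real
        {η | u < |X β h' (sh t y η) m - A ρ β h' m|} =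
        (law d ρ).real {η | u < |X β h' η m - A ρ β h' m|} := by
      rw [measureReal_def, measureReal_def, ← (mp_sh (ρ := ρ) t y).measure_preimage
        hset.nullMeasurableSet]
      rfl
    rw [hshift]
    have hmk := mul_meas_ge_le_integral_of_nonneg (μ := law d ρ)
      (f := fun η => |X β h' η m - A ρ β h' m| ^ Q)
      (Filter.Eventually.of_forall fun η => pow_nonneg (abs_nonneg _) Q) hint
      (u ^ Q)
    have hsub : (law d ρ).real {η | u < |X β h' η m - A ρ β h' m|} ≤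
        (law d ρ).real {η | u ^ Q ≤ |X β h' η m - A ρ β h' m| ^ Q} := by
      refine measureReal_mono fun η hη => ?_
      have hη' : u < |X β h' η m - A ρ β h' m| := hη
      exact pow_le_pow_left₀ hu0.le hη'.le Q
    have hm1 : (1 : ℝ) ≤ m := by exact_mod_cast hm0
    have hmn : (m : ℝ) ≤ n := by exact_mod_cast hm
    have h5 : C₀ * ((m : ℝ) ^ (ε / 2) * ((m : ℝ) ^ x + Real.sqrt (m * ‖h' - h‖ ^ (p - 1)))) ^ Q ≤
        |C₀| * ((n : ℝ) ^ (ε / 2) * M) ^ Q := by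
      have a1 : (m : ℝ) ^ (ε / 2) ≤ (n : ℝ) ^ (ε / 2) :=
        Real.rpow_le_rpow (by linarith) hmn (by linarith)
      have a2 : (m : ℝ) ^ x + Real.sqrt (m * ‖h' - h‖ ^ (p - 1)) ≤ M := by
        rw [hM]
        exact md_mono_n hx (Real.rpow_nonneg (norm_nonneg _) _) hm
      have a3 : 0 ≤ (m : ℝ) ^ x + Real.sqrt (m * ‖h' - h‖ ^ (p - 1)) :=
        add_nonneg (Real.rpow_nonneg (by linarith) _) (Real.sqrt_nonneg _)
      have a4 : (m : ℝ) ^ (ε / 2) * ((m : ℝ) ^ x + Real.sqrt (m * ‖h' - h‖ ^ (p - 1))) ≤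
          (n : ℝ) ^ (ε / 2) * M := mul_le_mul a1 a2 a3 (Real.rpow_nonneg hn0.le _)
      have a5 : 0 ≤ (m : ℝ) ^ (ε / 2) * ((m : ℝ) ^ x + Real.sqrt (m * ‖h' - h‖ ^ (p - 1))) :=
        mul_nonneg (Real.rpow_nonneg (by linarith) _) a3
      exact mul_le_mul (le_abs_self _) (pow_le_pow_left₀ a5 a4 Q) (pow_nonneg a5 Q)
        (abs_nonneg _)
    have h6 : u ^ Q * (law d ρ).real {η | u < |X β h' η m - A ρ β h' m|} ≤
        |C₀| * ((n : ℝ) ^ (ε / 2) * M) ^ Q :=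
      (mul_le_mul_of_nonneg_left hsub (pow_nonneg hu0.le Q)).trans (hmk.trans (hmean.trans h5))
    have h7 : |C₀| * ((n : ℝ) ^ (ε / 2) * M) ^ Q ≤ u ^ Q * (|C₀| * (n : ℝ) ^ (-(q : ℝ))) := by
      have h8 : ((n : ℝ) ^ (ε / 2) * M) ^ Q ≤ u ^ Q * (n : ℝ) ^ (-(q : ℝ)) := by
        have b1 : ((n : ℝ) ^ ε * M) ^ Q ≤ u ^ Q :=
          pow_le_pow_left₀ (mul_nonneg hpn.le (by linarith)) hu Q
        have b2 : ((n : ℝ) ^ (ε / 2) * M) ^ Q ≤ ((n : ℝ) ^ ε * M) ^ Q * (n : ℝ) ^ (-(q : ℝ)) := by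
          rw [mul_pow, mul_pow, ← Real.rpow_natCast, ← Real.rpow_mul hn0.le,
            ← Real.rpow_natCast ((n : ℝ) ^ ε), ← Real.rpow_mul hn0.le]
          have b3 : (n : ℝ) ^ (ε / 2 * Q) ≤ (n : ℝ) ^ (ε * Q) * (n : ℝ) ^ (-(q : ℝ)) := by
            rw [← Real.rpow_add hn0]
            refine Real.rpow_le_rpow_of_exponent_le hn1 ?_
            linarith
          calc (n : ℝ) ^ (ε / 2 * Q) * M ^ Q
              ≤ ((n : ℝ) ^ (ε * Q) * (n : ℝ) ^ (-(q : ℝ))) * M ^ Q :=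
                mul_le_mul_of_nonneg_right b3 (by positivity)
            _ = _ := by ring
        exact b2.trans (mul_le_mul_of_nonneg_right b1 (Real.rpow_nonneg hn0.le _))
      calc |C₀| * ((n : ℝ) ^ (ε / 2) * M) ^ Q
          ≤ |C₀| * (u ^ Q * (n : ℝ) ^ (-(q : ℝ))) :=
            mul_le_mul_of_nonneg_left h8 (abs_nonneg _)
        _ = u ^ Q * (|C₀| * (n : ℝ) ^ (-(q : ℝ))) := by ring
    exact le_of_mul_le_mul_left (h6.trans h7) (pow_pos hu0 Q)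

end Ae7

end Pool.Agent.W_7d29a1_V
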