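import Pool.Agent.W_7d29a1_V.AeA7
import Pool.Agent.W_7d29a1_h46u.TubW

/-!
Bootstrap at one tilt, part (b): the tubes at the tilts near `h`, with the slope `v` of `h`.
-/

namespace Pool.Agent.W_7d29a1_V

open MeasureTheory ProbabilityTheory Filter Topology Pool.Agent.W_MP_7d29a1_pr
  Pool.Agent.W_7d29a1_h46 Pool.Agent.W_7d29a1_h46u Pool.Agent.W_7d29a1_D2

namespace Ae7

variable {d : ℕ} {ρ : Measure ℝ} [IsProbabilityMeasure ρ]

/-- The probability of the good event. -/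
theorem probM (hd : 0 < d) (hρ : EM ρ) {β : ℝ} {h : Vec d} {p x : ℝ} (hp : 1 ≤ p) (hx : 0 ≤ x)
    (hF : FlM ρ β h p x) {ε : ℝ} (hε : 0 < ε) (q : ℕ) :
    ∃ r : ℝ, 0 < r ∧ ∃ C : ℝ, 0 ≤ C ∧ ∀ (h' : Vec d) (t : ℝ), 0 ≤ t → ‖h' - h‖ + t < r →
      ∀ (n : ℕ) (u : ℝ), 1 ≤ n → (n : ℝ) ^ ε * md x ((‖h' - h‖ + t) ^ (p - 1)) n ≤ u →
      (law d ρ).real {η | ¬ GdU ρ β h' t u n η} ≤ C * (n : ℝ) ^ (-(q : ℝ)) := by
  classical
  obtain ⟨δ, hδ, C₀, hC₀, hT⟩ := tailM hd hρ hx hF hε (q + d + 2)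
  refine ⟨δ, hδ, C₀ * (4 * d + 2 * 3 ^ d), by positivity, fun h' t ht0 ht n u hn hu => ?_⟩
  have hn1 : (1 : ℝ) ≤ n := by exact_mod_cast hn
  have hn0 : (0 : ℝ) < n := by linarith
  obtain ⟨B, hB⟩ : ∃ B : ℝ, B = C₀ * (n : ℝ) ^ (-((q + d + 2 : ℕ) : ℝ)) := ⟨_, rfl⟩
  have hB0 : 0 ≤ B := by
    rw [hB]
    exact mul_nonneg hC₀ (Real.rpow_nonneg hn0.le _)
  have hsh0 : ∀ η : Env d, sh 0 0 η = η := by
    intro η
    funext p
    unfold sh
    rw [add_zero, add_zero]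
  -- the modulus is increasing
  have hmod : ∀ g : Vec d, ‖g - h‖ ≤ ‖h' - h‖ + t →
      (n : ℝ) ^ ε * md x (‖g - h‖ ^ (p - 1)) n ≤ u := by
    intro g hg
    refine le_trans ?_ hu
    refine mul_le_mul_of_nonneg_left ?_ (Real.rpow_nonneg hn0.le _)
    exact md_mono_t (Real.rpow_le_rpow (norm_nonneg _) hg (by linarith)) n
  -- the events
  obtain ⟨S1, hS1⟩ : ∃ S1 : ℕ × Fin d × Bool → Set (Env d), S1 = fun a =>
      {η | u < |X β (h' + (if a.2.2 then t else -t) • ej a.2.1) η a.1 -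
        A ρ β (h' + (if a.2.2 then t else -t) • ej a.2.1) a.1|} := ⟨_, rfl⟩
  obtain ⟨S2, hS2⟩ : ∃ S2 : ℕ × Site d → Set (Env d), S2 = fun a =>
      {η | u < |X β h' (sh a.1 a.2 η) (n - a.1) - A ρ β h' (n - a.1)|} := ⟨_, rfl⟩
  have hej : ∀ j : Fin d, ‖ej j‖ = 1 := by
    intro j
    unfold ej
    simp
  have hdist : ∀ (j : Fin d) (b : Bool),
      ‖h' + (if b then t else -t) • ej j - h‖ ≤ ‖h' - h‖ + t := by
    intro j b
    have e1 : h' + (if b then t else -t) • ej j - h = (h' - h) + (if b then t else -t) • ej j := by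
      abel
    rw [e1]
    refine (norm_add_le _ _).trans (add_le_add le_rfl ?_)
    rw [norm_smul, hej, mul_one, Real.norm_eq_abs]
    split_ifs
    · rw [abs_of_nonneg ht0]
    · rw [abs_neg, abs_of_nonneg ht0]
  have h1 : ∀ a ∈ (Finset.range (n + 1)) ×ˢ (Finset.univ : Finset (Fin d × Bool)),
      (law d ρ).real (S1 a) ≤ B := by
    intro a ha
    have ha1 : a.1 ≤ n := Nat.lt_succ_iff.1 (Finset.mem_range.1 (Finset.mem_product.1 ha).1)
    have h2 := hT (h' + (if a.2.2 then t else -t) • ej a.2.1)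
      ((hdist a.2.1 a.2.2).trans_lt ht) n a.1 hn ha1 0 0 u (hmod _ (hdist a.2.1 a.2.2))
    simp only [hsh0] at h2
    rw [hB, hS1]
    exact h2
  have h2 : ∀ a ∈ (Finset.range (n + 1)) ×ˢ boxF d n, (law d ρ).real (S2 a) ≤ B := by
    intro a ha
    have h3 := hT h' (by linarith) n (n - a.1) hn (Nat.sub_le _ _)
      a.1 a.2 u (hmod _ (by linarith))
    rw [hB, hS2]
    exact h3
  have hsub : {η | ¬ GdU ρ β h' t u n η} ⊆
      (⋃ a ∈ (Finset.range (n + 1)) ×ˢ (Finset.univ : Finset (Fin d × Bool)), S1 a) ∪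
        ⋃ a ∈ (Finset.range (n + 1)) ×ˢ boxF d n, S2 a := by
    intro η hη
    by_contra hcon
    rw [Set.mem_union, not_or, Set.mem_iUnion₂, Set.mem_iUnion₂] at hcon
    obtain ⟨c1, c2⟩ := hcon
    apply hη
    refine ⟨fun i hi j => ⟨?_, ?_⟩, fun i hi y hy => ?_⟩
    · by_contra hc
      refine c1 ⟨(i, j, true), ?_, ?_⟩
      · exact Finset.mem_product.2 ⟨Finset.mem_range.2 (Nat.lt_succ_iff.2 hi),
          Finset.mem_univ _⟩
      · rw [hS1]
        exact not_le.1 hc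
    · by_contra hc
      refine c1 ⟨(i, j, false), ?_, ?_⟩
      · exact Finset.mem_product.2 ⟨Finset.mem_range.2 (Nat.lt_succ_iff.2 hi),
          Finset.mem_univ _⟩
      · rw [hS1]
        exact not_le.1 hc
    · by_contra hc
      refine c2 ⟨(i, y), ?_, ?_⟩
      · exact Finset.mem_product.2 ⟨Finset.mem_range.2 (Nat.lt_succ_iff.2 hi), hy⟩
      · rw [hS2]
        exact not_le.1 hc
  have h3 : (law d ρ).real {η | ¬ GdU ρ β h' t u n η} ≤
      ((n : ℝ) + 1) * (d * 2) * B + ((n : ℝ) + 1) * (2 * n + 1) ^ d * B := by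
    refine (measureReal_mono hsub).trans ((measureReal_union_le _ _).trans (add_le_add ?_ ?_))
    · refine (measureReal_biUnion_finset_le _ _).trans ((Finset.sum_le_sum h1).trans
        (le_of_eq ?_))
      rw [Finset.sum_const, Finset.card_product, Finset.card_range, Finset.card_univ,
        Fintype.card_prod, Fintype.card_fin, Fintype.card_bool, nsmul_eq_mul]
      push_cast
      ring
    · refine (measureReal_biUnion_finset_le _ _).trans ((Finset.sum_le_sum h2).trans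
        (le_of_eq ?_))
      rw [Finset.sum_const, Finset.card_product, Finset.card_range, card_boxF, nsmul_eq_mul]
      push_cast
      ring
  have h4 : (n : ℝ) + 1 ≤ 2 * n := by linarith
  have h5 : (2 * (n : ℝ) + 1) ^ d ≤ 3 ^ d * (n : ℝ) ^ d := by
    rw [← mul_pow]
    exact pow_le_pow_left₀ (by positivity) (by linarith) d
  have h6 : (1 : ℝ) ≤ (n : ℝ) ^ d := one_le_pow₀ hn1
  have h7 : ((n : ℝ) + 1) * (d * 2) * B ≤ (4 * d) * ((n : ℝ) ^ (d + 1) * B) := by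
    have e1 : ((n : ℝ) + 1) * (d * 2) ≤ (2 * n) * (d * 2) :=
      mul_le_mul_of_nonneg_right h4 (by positivity)
    have e2 : (2 * (n : ℝ)) * (d * 2) ≤ (4 * d) * ((n : ℝ) ^ d * n) := by
      have e3 : (n : ℝ) ≤ (n : ℝ) ^ d * n := le_mul_of_one_le_left hn0.le h6
      have e4 := mul_le_mul_of_nonneg_left e3 (show (0 : ℝ) ≤ 4 * d by positivity)
      linarith
    have e5 := mul_le_mul_of_nonneg_right (e1.trans e2) hB0
    rw [pow_succ]
    linarith
  have h8 : ((n : ℝ) + 1) * (2 * n + 1) ^ d * B ≤ (2 * 3 ^ d) * ((n : ℝ) ^ (d + 1) * B) := by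
    have e1 : ((n : ℝ) + 1) * (2 * n + 1) ^ d ≤ (2 * n) * (3 ^ d * (n : ℝ) ^ d) :=
      mul_le_mul h4 h5 (by positivity) (by positivity)
    have e5 := mul_le_mul_of_nonneg_right e1 hB0
    rw [pow_succ]
    linarith
  have h9 : (n : ℝ) ^ (d + 1) * B ≤ C₀ * (n : ℝ) ^ (-(q : ℝ)) := by
    rw [hB]
    have e1 : (n : ℝ) ^ (d + 1) * (n : ℝ) ^ (-((q + d + 2 : ℕ) : ℝ)) ≤
        (n : ℝ) ^ (-(q : ℝ)) := by
      rw [← Real.rpow_natCast, ← Real.rpow_add hn0]
      refine Real.rpow_le_rpow_of_exponent_le hn1 ?_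
      push_cast
      linarith
    calc (n : ℝ) ^ (d + 1) * (C₀ * (n : ℝ) ^ (-((q + d + 2 : ℕ) : ℝ)))
        = C₀ * ((n : ℝ) ^ (d + 1) * (n : ℝ) ^ (-((q + d + 2 : ℕ) : ℝ))) := by ring
      _ ≤ C₀ * (n : ℝ) ^ (-(q : ℝ)) := mul_le_mul_of_nonneg_left e1 hC₀
  have h10 : (4 * (d : ℝ) + 2 * 3 ^ d) * ((n : ℝ) ^ (d + 1) * B) ≤
      (4 * (d : ℝ) + 2 * 3 ^ d) * (C₀ * (n : ℝ) ^ (-(q : ℝ))) :=
    mul_le_mul_of_nonneg_left h9 (by positivity)
  calc (law d ρ).real {η | ¬ GdU ρ β h' t u n η}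
      ≤ ((n : ℝ) + 1) * (d * 2) * B + ((n : ℝ) + 1) * (2 * n + 1) ^ d * B := h3
    _ ≤ (4 * d) * ((n : ℝ) ^ (d + 1) * B) + (2 * 3 ^ d) * ((n : ℝ) ^ (d + 1) * B) :=
        add_le_add h7 h8
    _ = (4 * (d : ℝ) + 2 * 3 ^ d) * ((n : ℝ) ^ (d + 1) * B) := by ring
    _ ≤ (4 * (d : ℝ) + 2 * 3 ^ d) * (C₀ * (n : ℝ) ^ (-(q : ℝ))) := h10
    _ = C₀ * (4 * d + 2 * 3 ^ d) * (n : ℝ) ^ (-(q : ℝ)) := by ring

/-- On the good event, with an upper bound of `lam` at the two tilts `h ± t e_j` only. -/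
theorem tube_goodM (hd : 0 < d) (hρ : EM ρ) {β : ℝ} {h v : Vec d} {E t u R r : ℝ} {n : ℕ}
    {η : Env d} (ht : 0 < t) (hE0 : 0 ≤ E)
    (hE : ∀ j : Fin d, ∀ s : ℝ, |s| = t → lam ρ β (h + s • ej j) ≤ lam ρ β h + v j * s + E)
    (hR : n * lam ρ β h - A ρ β h n ≤ R) (hg : GdU ρ β h t u n η) :
    1 - PolT β h η (tube d n v r) ≤
      2 * d * (n + 1) * Real.exp (n * E + 3 * u + R - t * (r / d)) := by
  have ht2 : 0 < t ^ 2 := by positivity
  have hCE : E / t ^ 2 * t ^ 2 = E := by field_simp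
  refine (one_sub_le hd β h η n v (r := r) ht).trans ?_
  have h1 : ∀ i ∈ Finset.range (n + 1), ∑ j : Fin d,
      (Far β h η n i j v t (r / d) + Far β h η n i j v (-t) (r / d)) ≤
      2 * d * Real.exp (n * E + 3 * u + R - t * (r / d)) := by
    intro i hi
    have hi' : i ≤ n := Nat.lt_succ_iff.1 (Finset.mem_range.1 hi)
    have h2 : ∀ j ∈ (Finset.univ : Finset (Fin d)),
        Far β h η n i j v t (r / d) + Far β h η n i j v (-t) (r / d) ≤
        2 * Real.exp (n * E + 3 * u + R - t * (r / d)) := by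
      intro j _
      have a1 := TubV_far (w := r / d) (C := E / t ^ 2) hd hρ (abs_of_pos ht)
        (div_nonneg hE0 ht2.le) j
        (by rw [hCE]; exact hE j t (abs_of_pos ht)) hR (fun i hi => (hg.side i hi j).1) hg.mid hi'
      have a2 := TubV_far (w := r / d) (C := E / t ^ 2) hd hρ (s := -t)
        (by rw [abs_neg, abs_of_pos ht]) (div_nonneg hE0 ht2.le) j
        (by rw [neg_sq, hCE]; exact hE j (-t) (by rw [abs_neg, abs_of_pos ht])) hR
        (fun i hi => (hg.side i hi j).2) hg.mid hi'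
      rw [hCE] at a1 a2
      linarith
    refine (Finset.sum_le_sum h2).trans ?_
    rw [Finset.sum_const, Finset.card_univ, Fintype.card_fin, nsmul_eq_mul]
    linarith
  refine (Finset.sum_le_sum h1).trans ?_
  rw [Finset.sum_const, Finset.card_range, nsmul_eq_mul]
  push_cast
  linarith

end Ae7

end Pool.Agent.W_7d29a1_V
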