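import Pool.Agent.W_7d29a1_V.FarL70
import Pool.Agent.W_7d29a1_V.AeC7

/-!
Bootstrap on one line of tilts, part (b): the slabs at the tilts `h + t u`.
-/

namespace Pool.Agent.W_7d29a1_V

open MeasureTheory ProbabilityTheory Filter Topology Pool.Agent.W_MP_7d29a1_pr
  Pool.Agent.W_7d29a1_h46 Pool.Agent.W_7d29a1_h46u Pool.Agent.W_7d29a1_D2 Ae7

variable {d : ℕ} {ρ : Measure ℝ} [IsProbabilityMeasure ρ]

/-- **(b)** on the line, from the nonrandom fluctuations and the good events. -/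
theorem tubL_of7 (hd : 0 < d) (hρ : EM ρ) {β : ℝ} {h u : Vec d} {s p x : ℝ} (hp : 1 < p)
    (hs : ∀ r : ℝ, lam ρ β h + s * r ≤ lam ρ β (h + r • u))
    (hU : ∃ C δ : ℝ, 0 < δ ∧ ∀ r : ℝ, |r| ≤ δ →
      lam ρ β (h + r • u) - lam ρ β h - s * r ≤ C * |r| ^ p)
    (hx : 1 / (p + 1) ≤ x) (hx1 : x ≤ 1 / 2)
    (hrate : ∀ ε : ℝ, 0 < ε → ε < 1 / 2 → ∃ r : ℝ, 0 < r ∧ ∃ C : ℝ, 0 ≤ C ∧
      ∀ a : ℝ, |a| < r → ∀ n : ℕ, 1 ≤ n →
        n * lam ρ β (h + a • u) - A ρ β (h + a • u) n ≤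
          C * ((n : ℝ) ^ ε * md x (|a| ^ (p - 1)) n))
    (hprob : ∀ ε : ℝ, 0 < ε → ∀ Q : ℕ, ∃ r : ℝ, 0 < r ∧ ∃ C : ℝ, 0 ≤ C ∧
      ∀ a t : ℝ, 0 ≤ t → |a| + t < r → ∀ (n : ℕ) (w : ℝ), 1 ≤ n →
        (n : ℝ) ^ ε * md x ((|a| + t) ^ (p - 1)) n ≤ w →
        (law d ρ).real {η | ¬ GdL7 ρ β (h + a • u) u t w n η} ≤ C * (n : ℝ) ^ (-(Q : ℝ))) :
    TubL ρ β h u s p x := by
  intro e he Q
  have hx0 : 0 < x := lt_of_lt_of_le (by positivity) hx
  obtain ⟨ε, hε, hεe, hε1⟩ : ∃ ε : ℝ, 0 < ε ∧ 3 * ε ≤ e ∧ ε < 1 / 2 := by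
    refine ⟨min (e / 3) (1 / 4), lt_min (by linarith) (by norm_num), ?_, ?_⟩
    · have := min_le_left (e / 3) (1 / 4)
      linarith
    · have := min_le_right (e / 3) (1 / 4)
      linarith
  obtain ⟨r₁, hr₁, C₁, hC₁, H₁⟩ := hrate ε hε hε1
  obtain ⟨r₂, hr₂, C₂, hC₂, H₂⟩ := hprob ε hε Q
  obtain ⟨C₃, δ, hδ, H₃⟩ := hU
  obtain ⟨S, hS⟩ : ∃ S : ℝ, S = (2 : ℝ) ^ ((p - 1) / 2) := ⟨_, rfl⟩
  have hS0 : 0 < S := by
    rw [hS]
    positivity
  obtain ⟨C', hC'⟩ : ∃ C' : ℝ, C' = |C₃| * 2 ^ p + 3 * (1 + S) + C₁ * (1 + S) := ⟨_, rfl⟩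
  have hC'0 : 0 ≤ C' := by
    rw [hC']
    positivity
  -- large `n`
  have hcast := tendsto_natCast_atTop_atTop (R := ℝ)
  have hsmall : ∀ᶠ n : ℕ in atTop, (n : ℝ) ^ ((x - 1) / p) < min (r₂ / 2) (δ / 2) := by
    have h0 : 0 < (1 - x) / p := div_pos (by linarith) (by linarith)
    have h1 := (tendsto_rpow_neg_atTop h0).comp hcast
    have h2 := h1.eventually (gt_mem_nhds (show (0 : ℝ) < min (r₂ / 2) (δ / 2) from
      lt_min (by linarith) (by linarith)))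
    refine h2.mono fun n hn => ?_
    have e1 : (x - 1) / p = -((1 - x) / p) := by ring
    rw [e1]
    exact hn
  have hbig : ∀ᶠ n : ℕ in atTop, C' ≤ (n : ℝ) ^ (2 * ε) :=
    ((tendsto_rpow_atTop (show 0 < 2 * ε by linarith)).comp hcast).eventually
      (eventually_ge_atTop _)
  obtain ⟨N, hN⟩ := eventually_atTop.1
    ((hsmall.and hbig).and (TubW_asym 1 one_pos C' hC'0 hx0 hε Q))
  refine ⟨min r₁ (min (r₂ / 2) (δ / 2)), lt_min hr₁ (lt_min (by linarith) (by linarith)),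
    max (C₂ + 4) ((N : ℝ) ^ (Q : ℝ)), fun a ha n hn W hW => ?_⟩
  have hh1 : |a| < r₁ := ha.trans_le (min_le_left _ _)
  have hh2 : |a| < min (r₂ / 2) (δ / 2) := ha.trans_le (min_le_right _ _)
  have hn1 : (1 : ℝ) ≤ n := by exact_mod_cast hn
  have hn0 : (0 : ℝ) < n := by linarith
  have hq0 : 0 ≤ (n : ℝ) ^ (-(Q : ℝ)) := Real.rpow_nonneg hn0.le _
  have hint : ∀ η : Env d, 1 - PolT β (h + a • u) η (slb d n u s W) ≤ 1 := fun η => by
    have := PolT_nonneg β (h + a • u) η (slb d n u s W)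
    linarith
  have hint0 : ∀ η : Env d, 0 ≤ 1 - PolT β (h + a • u) η (slb d n u s W) := fun η => by
    have := PolT_le_one β (h + a • u) η (slb d n u s W)
    linarith
  rcases lt_or_ge n N with hnN | hnN
  · -- small n
    have h1 : ∫ η, (1 - PolT β (h + a • u) η (slb d n u s W)) ∂(law d ρ) ≤ 1 := by
      have h2 := integral_mono_of_nonneg (μ := law d ρ) (Eventually.of_forall hint0)
        (integrable_const (1 : ℝ)) (Eventually.of_forall hint)
      refine h2.trans (le_of_eq ?_)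
      simp
    refine h1.trans ?_
    have h3 : 1 ≤ (N : ℝ) ^ (Q : ℝ) * (n : ℝ) ^ (-(Q : ℝ)) := by
      rw [Real.rpow_neg hn0.le, ← div_eq_mul_inv, one_le_div (Real.rpow_pos_of_pos hn0 _)]
      exact Real.rpow_le_rpow hn0.le (by exact_mod_cast hnN.le) (Nat.cast_nonneg Q)
    exact h3.trans (mul_le_mul_of_nonneg_right (le_max_right _ _) hq0)
  · obtain ⟨⟨ht1, hb1⟩, hasym⟩ := hN n hnN
    obtain ⟨t, ht⟩ : ∃ t : ℝ, t = max |a| ((n : ℝ) ^ ((x - 1) / p)) := ⟨_, rfl⟩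
    obtain ⟨A1, A2, A3⟩ := arithM hp hx (abs_nonneg a) hn ht
    have hat : |a| ≤ t := by
      rw [ht]
      exact le_max_left _ _
    have ht0 : 0 < t := by
      have h1 : 0 < (n : ℝ) ^ ((x - 1) / p) := Real.rpow_pos_of_pos hn0 _
      rw [ht]
      exact lt_of_lt_of_le h1 (le_max_right _ _)
    have htl : t < min (r₂ / 2) (δ / 2) := by
      rw [ht]
      exact max_lt hh2 ht1
    have htr : t < r₂ / 2 := htl.trans_le (min_le_left _ _)
    have htδ : t < δ / 2 := htl.trans_le (min_le_right _ _)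
    rw [← hS] at A2
    obtain ⟨T, hT⟩ : ∃ T : ℝ, T = n * t ^ p := ⟨_, rfl⟩
    rw [← hT] at A1 A2 A3
    have hT0 : 0 < T := by
      rw [hT]
      positivity
    have hmdt : ∀ b : ℝ, 0 ≤ b → b ≤ 2 * t → md x (b ^ (p - 1)) n ≤ (1 + S) * T := by
      intro b hb hbt'
      refine (md_mono_t (Real.rpow_le_rpow hb hbt' (by linarith)) n).trans ?_
      unfold md
      linarith
    have hyε : 0 < (n : ℝ) ^ ε := Real.rpow_pos_of_pos hn0 _
    have hyε1 : 1 ≤ (n : ℝ) ^ ε := Real.one_le_rpow hn1 hε.le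
    obtain ⟨w, hw⟩ : ∃ w : ℝ, w = (n : ℝ) ^ ε * ((1 + S) * T) := ⟨_, rfl⟩
    have hbad := H₂ a t ht0.le (by linarith) n w hn (by
      rw [hw]
      exact mul_le_mul_of_nonneg_left (hmdt _ (by positivity) (by linarith)) hyε.le)
    have hR : n * lam ρ β (h + a • u) - A ρ β (h + a • u) n ≤ C₁ * w := by
      refine (H₁ a hh1 n hn).trans (mul_le_mul_of_nonneg_left ?_ hC₁)
      rw [hw]
      exact mul_le_mul_of_nonneg_left (hmdt _ (abs_nonneg _) (by linarith)) hyε.le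
    have hE : ∀ σ : ℝ, |σ| = t →
        lam ρ β (h + a • u + σ • u) ≤ lam ρ β (h + a • u) + s * σ + |C₃| * (2 * t) ^ p := by
      intro σ hσ
      have e1 : |a + σ| ≤ 2 * t := by
        have := abs_add_le a σ
        linarith
      have e2 := H₃ (a + σ) (by linarith)
      have e3 : C₃ * |a + σ| ^ p ≤ |C₃| * (2 * t) ^ p :=
        mul_le_mul (le_abs_self _) (Real.rpow_le_rpow (abs_nonneg _) e1 (by linarith))
          (Real.rpow_nonneg (abs_nonneg _) _) (abs_nonneg _)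
      have e4 : h + (a + σ) • u = h + a • u + σ • u := by
        rw [add_smul]
        abel
      rw [e4] at e2
      have e5 := hs a
      linarith
    have hexp : n * (|C₃| * (2 * t) ^ p) + 3 * w + C₁ * w - t * W ≤
        C' * (n : ℝ) ^ (x + ε) - (n : ℝ) ^ (x + 3 * ε) / ((1 : ℕ) : ℝ) := by
      obtain ⟨y, hy⟩ : ∃ y : ℝ, y = (n : ℝ) ^ ε := ⟨_, rfl⟩
      have f1 : (n : ℝ) ^ (x + ε) = (n : ℝ) ^ x * y := by rw [hy, Real.rpow_add hn0]
      have f2 : (n : ℝ) ^ (x + 3 * ε) = (n : ℝ) ^ x * (n : ℝ) ^ (3 * ε) := Real.rpow_add hn0 _ _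
      have f3 : (n : ℝ) ^ (3 * ε) = y * (n : ℝ) ^ (2 * ε) := by
        rw [hy, ← Real.rpow_add hn0]
        congr 1
        ring
      have f4 : n * (|C₃| * (2 * t) ^ p) = |C₃| * 2 ^ p * T := by
        rw [hT, Real.mul_rpow (by norm_num) ht0.le]
        ring
      have f5 : (n : ℝ) ^ (3 * ε) * T ≤ t * W := by
        have g1 : (n : ℝ) ^ (3 * ε) ≤ (n : ℝ) ^ e := Real.rpow_le_rpow_of_exponent_le hn1 hεe
        have g2 : (n : ℝ) ^ (3 * ε) * T ≤ (n : ℝ) ^ e *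
            (t * (n * |a| ^ (p - 1) + (n : ℝ) ^ aX p x)) :=
          mul_le_mul g1 A3 hT0.le (Real.rpow_nonneg hn0.le _)
        have g3 := mul_le_mul_of_nonneg_left hW ht0.le
        linarith
      have f8 : |C₃| * 2 ^ p * T ≤ |C₃| * 2 ^ p * T * y :=
        le_mul_of_one_le_right (by positivity) (by rw [hy]; exact hyε1)
      have f9 : n * (|C₃| * (2 * t) ^ p) + 3 * w + C₁ * w ≤ C' * y * T := by
        rw [f4, hw, hC', ← hy]
        nlinarith [f8]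
      have f10 : C' * y ≤ (n : ℝ) ^ (3 * ε) := by
        rw [f3]
        have g1 : 0 ≤ y := by
          rw [hy]
          exact hyε.le
        nlinarith [mul_le_mul_of_nonneg_left hb1 g1]
      have f11 : (C' * y - (n : ℝ) ^ (3 * ε)) * T ≤
          (C' * y - (n : ℝ) ^ (3 * ε)) * (n : ℝ) ^ x :=
        mul_le_mul_of_nonpos_left A1 (by linarith)
      rw [f1, f2, Nat.cast_one, div_one]
      linarith
    have hmain := TubW_split (μ := law d ρ)
      (f := fun η => 1 - PolT β (h + a • u) η (slb d n u s W)) hint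
      (G := {η | GdL7 ρ β (h + a • u) u t w n η}) (b := 4 * (n : ℝ) ^ (-(Q : ℝ)))
      (by positivity)
      (fun η hη => by
        have g1 := Li70.slab_goodL (r := W) hd hρ ht0 (by positivity) hE hR hη
        have g2 := (mul_le_mul_of_nonneg_left (Real.exp_le_exp.2 hexp)
          (show (0 : ℝ) ≤ 2 * (n + 1) by positivity))
        have g3 : 2 * ((n : ℝ) + 1) * Real.exp (C' * (n : ℝ) ^ (x + ε) -
            (n : ℝ) ^ (x + 3 * ε) / ((1 : ℕ) : ℝ)) ≤ 4 * (n : ℝ) ^ (-(Q : ℝ)) := by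
          have g4 := hasym
          rw [Nat.cast_one, mul_one, mul_one] at g4
          rw [Nat.cast_one]
          exact g4
        exact (g1.trans g2).trans g3)
      hint0
    have hset : ({η | GdL7 ρ β (h + a • u) u t w n η} : Set (Env d))ᶜ =
        {η | ¬ GdL7 ρ β (h + a • u) u t w n η} := rfl
    rw [hset] at hmain
    refine hmain.trans ?_
    calc (law d ρ).real {η | ¬ GdL7 ρ β (h + a • u) u t w n η} +
          4 * (n : ℝ) ^ (-(Q : ℝ)) ≤ C₂ * (n : ℝ) ^ (-(Q : ℝ)) +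
          4 * (n : ℝ) ^ (-(Q : ℝ)) := add_le_add hbad le_rfl
      _ = (C₂ + 4) * (n : ℝ) ^ (-(Q : ℝ)) := by ring
      _ ≤ _ := mul_le_mul_of_nonneg_right (le_max_left _ _) hq0

end Pool.Agent.W_7d29a1_V
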