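import Pool.Agent.W_7d29a1_V.VMainS53
import Pool.Agent.W_7d29a1_V.Step60
import Pool.Agent.W_7d29a1_V.CostV62
import Pool.Agent.W_7d29a1_V.Far27
import Pool.Agent.W_7d29a1_V.Law2

/-!
`2 χ# ≤ ν*` at every tilt and every velocity, from `NSV` alone.
-/

namespace Pool.Agent.W_7d29a1_V

open MeasureTheory ProbabilityTheory Filter Topology Pool.Agent.W_MP_7d29a1_pr
  Pool.Agent.W_7d29a1_h46 Pool.Agent.W_7d29a1_h46u Pool.Agent.W_7d29a1_D2

variable {d : ℕ} {Ω : Type*} [MeasurableSpace Ω] {μ : Measure Ω} [IsProbabilityMeasure μ]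
  {ρ : Measure ℝ} [IsProbabilityMeasure ρ] {ω : ℕ × Site d → Ω → ℝ}

/-- The spatial fluctuations from the absence of steep places. -/
theorem spaceV_of_ns (hd : 0 < d) (hρ : EM ρ) (β R : ℝ) (hN : NSV d ρ β R) : SpaceV d ρ β R :=
  Space36.spaceV hd hρ β R
    (Step60.stepV hd hρ β R (Law2.lawV β) (CostV62.costV hd β) (Far27.farV hd β) hN) hN

/-- From the absence of steep places. -/
theorem V_main_of_ns (hd : 0 < d) (hω : IID μ ρ ω) (hρ : EM ρ) (β : ℝ)
    (hN : ∀ R : ℝ, NSV d ρ β R) (h v : Vec d) :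
    2 * chiF μ β ω h ≤ nuS μ β ω h v :=
  V_main_of_space hd hω hρ β (fun R => spaceV_of_ns hd hρ β R (hN R)) h v

end Pool.Agent.W_7d29a1_V
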