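import Pool.Agent.W_7d29a1_V.AeS70
import Pool.Agent.W_7d29a1_V.VMainN53

/-!
`ν* ≤ 2 / (p + 1)` and `χ ≤ 1 / (p + 1)` at every tilt with an upper bound of order `p > 1`, from
`NSV` alone.
-/

namespace Pool.Agent.W_7d29a1_V

open MeasureTheory ProbabilityTheory Filter Topology Pool.Agent.W_MP_7d29a1_pr
  Pool.Agent.W_7d29a1_h46 Pool.Agent.W_7d29a1_h46u Pool.Agent.W_7d29a1_D2

variable {d : ℕ} {ρ : Measure ℝ} [IsProbabilityMeasure ρ] {β : ℝ}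
  {Ω : Type*} [MeasurableSpace Ω] {μ : Measure Ω} [IsProbabilityMeasure μ]
  {ω : ℕ × Site d → Ω → ℝ}

/-- From the absence of steep places. -/
theorem AE_main_of_ns (hd : 0 < d) (hω : IID μ ρ ω) (hρ : EM ρ)
    (hN : ∀ R : ℝ, NSV d ρ β R) {h v : Vec d} {p : ℝ} (hp : 1 < p)
    (hsub : ∀ k : Vec d, lam ρ β h + inner ℝ v k ≤ lam ρ β (h + k))
    (hU : UpG (lam ρ β) h v p) :
    nuS μ β ω h v ≤ 2 / (p + 1) ∧ chiF μ β ω h ≤ 1 / (p + 1) :=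
  aeS70 hd hω hρ hp (spaceV_of_ns hd hρ β _ (hN _)) hsub hU

end Pool.Agent.W_7d29a1_V
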