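import Pool.Agent.W_7d29a1_V.DefsV2

/-!
The bad levels have small measure; measurability of the good levels.
-/

namespace Pool.Agent.W_7d29a1_V.BadL80

open MeasureTheory ProbabilityTheory Filter Topology Pool.Agent.W_MP_7d29a1_pr
  Pool.Agent.W_7d29a1_h46 Pool.Agent.W_7d29a1_h46u Pool.Agent.W_7d29a1_D2
  Pool.Agent.W_7d29a1_D2.B35 Pool.Agent.W_7d29a1_V

variable {d : ℕ}

lemma mem_box_of_PP {β : ℝ} {h : Vec d} {η : Env d} {i : ℕ} {y : Site d} (hp : PP β h η i y ≠ 0) :
    y ∈ boxF d i := by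
  classical
  by_contra hy
  apply hp
  unfold PP ZT
  refine Finset.sum_eq_zero fun s _ => ?_
  rw [if_neg]
  intro hs
  have h1 : pos s i = y := hs
  exact hy (h1 ▸ pos_mem_box s i)

lemma box_mono {m n : ℕ} (h : m ≤ n) {y : Site d} (hy : y ∈ boxF d m) : y ∈ boxF d n := by
  rw [mem_boxF] at hy ⊢
  intro j
  exact (hy j).trans (by exact_mod_cast h)

lemma measurable_PP (β : ℝ) (h : Vec d) (i : ℕ) (y : Site d) :
    Measurable fun η : Env d => PP β h η i y := measurable_ZT β h _

/-- The bad levels of two numbers. -/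
lemma bad_pair {P Q g : ℝ} (hP : 0 ≤ P) (hg : 0 < g) :
    volume {a : ℝ | ¬ ((1 + g) * (Real.exp (-a) * Q) ≤ P ∨ (1 + g) * P ≤ Real.exp (-a) * Q)} ≤
      ENNReal.ofReal (2 * g) := by
  have hsub : {a : ℝ | ¬ ((1 + g) * (Real.exp (-a) * Q) ≤ P ∨
      (1 + g) * P ≤ Real.exp (-a) * Q)} ⊆
      Set.Ioo (Real.log (Q / P) - Real.log (1 + g)) (Real.log (Q / P) + Real.log (1 + g)) := by
    intro a ha
    have ha' : ¬ ((1 + g) * (Real.exp (-a) * Q) ≤ P ∨ (1 + g) * P ≤ Real.exp (-a) * Q) := ha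
    rw [not_or, not_le, not_le] at ha'
    obtain ⟨h1, h2⟩ := ha'
    have h3 : 0 < Real.exp (-a) * Q := by
      by_contra hcon
      have h4 := not_lt.1 hcon
      have h5 : (1 + g) * (Real.exp (-a) * Q) ≤ 0 :=
        mul_nonpos_of_nonneg_of_nonpos (by linarith) h4
      linarith
    have hQ : 0 < Q := by
      by_contra hcon
      have h4 := not_lt.1 hcon
      have h5 := mul_nonpos_of_nonneg_of_nonpos (Real.exp_pos (-a)).le h4
      linarith
    have hP' : 0 < P := by
      by_contra hcon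
      have h4 : P = 0 := le_antisymm (not_lt.1 hcon) hP
      rw [h4, mul_zero] at h2
      linarith
    have hg1 : 0 < 1 + g := by linarith
    have e1 : Real.log (Q / P) = Real.log Q - Real.log P := Real.log_div hQ.ne' hP'.ne'
    have l1 := Real.log_lt_log hP' h1
    have l2 := Real.log_lt_log h3 h2
    rw [Real.log_mul hg1.ne' h3.ne', Real.log_mul (Real.exp_pos _).ne' hQ.ne', Real.log_exp] at l1
    rw [Real.log_mul hg1.ne' hP'.ne', Real.log_mul (Real.exp_pos _).ne' hQ.ne', Real.log_exp] at l2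
    rw [Set.mem_Ioo, e1]
    constructor <;> linarith
  refine (measure_mono hsub).trans ?_
  rw [Real.volume_Ioo]
  refine ENNReal.ofReal_le_ofReal ?_
  have h1 : Real.log (1 + g) ≤ g := by
    have := Real.log_le_sub_one_of_pos (show (0 : ℝ) < 1 + g by linarith)
    linarith
  linarith

/-- Only the sites of the box matter. -/
lemma GdL_iff {β : ℝ} {h : Vec d} {n : ℕ} {k : Fin d} {x : ℕ} {g a : ℝ} {η : Env d} :
    GdL β h n k x g a η ↔ ∀ i ∈ Finset.range (n + 1), ∀ y ∈ boxF d n,
      (1 + g) * (Real.exp (-a) * PP β h (sh 0 (src k x) η) i (y - src k x)) ≤ PP β h η i y ∨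
      (1 + g) * PP β h η i y ≤ Real.exp (-a) * PP β h (sh 0 (src k x) η) i (y - src k x) := by
  constructor
  · intro H i hi y _
    exact H i (Nat.lt_succ_iff.1 (Finset.mem_range.1 hi)) y
  · intro H i hi y
    by_cases hy : y ∈ boxF d n
    · exact H i (Finset.mem_range.2 (Nat.lt_succ_iff.2 hi)) y hy
    · right
      have h0 : PP β h η i y = 0 := by
        by_contra hne
        exact hy (box_mono hi (mem_box_of_PP hne))
      rw [h0, mul_zero]
      exact mul_nonneg (Real.exp_pos _).le (PP_nonneg _ _ _ _ _)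

/-- The measure of the bad levels. -/
theorem badL80 (β : ℝ) (h : Vec d) (n : ℕ) (k : Fin d) (x : ℕ) {g : ℝ} (hg : 0 < g) (η : Env d) :
    volume {a : ℝ | ¬ GdL β h n k x g a η} ≤
      ENNReal.ofReal (2 * g * (((n : ℝ) + 1) * (2 * n + 1) ^ d)) := by
  classical
  have hsub : {a : ℝ | ¬ GdL β h n k x g a η} ⊆
      ⋃ p ∈ (Finset.range (n + 1)) ×ˢ boxF d n, {a : ℝ |
        ¬ ((1 + g) * (Real.exp (-a) * PP β h (sh 0 (src k x) η) p.1 (p.2 - src k x)) ≤
            PP β h η p.1 p.2 ∨
          (1 + g) * PP β h η p.1 p.2 ≤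
            Real.exp (-a) * PP β h (sh 0 (src k x) η) p.1 (p.2 - src k x))} := by
    intro a ha
    have ha' : ¬ GdL β h n k x g a η := ha
    rw [GdL_iff] at ha'
    push Not at ha'
    obtain ⟨i, hi, y, hy, h1, h2⟩ := ha'
    rw [Set.mem_iUnion₂]
    refine ⟨(i, y), Finset.mem_product.2 ⟨hi, hy⟩, ?_⟩
    exact not_or.2 ⟨not_le.2 h1, not_le.2 h2⟩
  refine (measure_mono hsub).trans ((measure_biUnion_finset_le _ _).trans
    ((Finset.sum_le_sum fun p _ => bad_pair (PP_nonneg β h η p.1 p.2) hg).trans ?_))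
  rw [Finset.sum_const, Finset.card_product, Finset.card_range, card_boxF, nsmul_eq_mul,
    ← ENNReal.ofReal_natCast, ← ENNReal.ofReal_mul (Nat.cast_nonneg _)]
  refine ENNReal.ofReal_le_ofReal (le_of_eq ?_)
  push_cast
  ring

/-- Real form on a bounded interval. -/
theorem badL80_real (β : ℝ) (h : Vec d) (n : ℕ) (k : Fin d) (x : ℕ) {g : ℝ} (hg : 0 < g)
    (η : Env d) (I : Set ℝ) :
    (volume.real (I ∩ {a : ℝ | ¬ GdL β h n k x g a η})) ≤
      2 * g * (((n : ℝ) + 1) * (2 * n + 1) ^ d) := by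
  have h0 : 0 ≤ 2 * g * (((n : ℝ) + 1) * (2 * n + 1) ^ d) := by positivity
  rw [measureReal_def]
  refine ENNReal.toReal_le_of_le_ofReal h0 ?_
  exact (measure_mono Set.inter_subset_right).trans (badL80 β h n k x hg η)

lemma measurableSet_le_pair {α : Type*} [MeasurableSpace α] {f g : α → ℝ} (hf : Measurable f)
    (hg : Measurable g) : MeasurableSet {w | f w ≤ g w} := measurableSet_le hf hg

/-- Joint measurability in the level and the environment. -/
theorem measurableSet_GdL (β : ℝ) (h : Vec d) (n : ℕ) (k : Fin d) (x : ℕ) (g : ℝ) :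
    MeasurableSet {w : ℝ × Env d | GdL β h n k x g w.1 w.2} := by
  have h1 : {w : ℝ × Env d | GdL β h n k x g w.1 w.2} =
      ⋂ i ∈ Finset.range (n + 1), ⋂ y ∈ boxF d n, ({w : ℝ × Env d |
        (1 + g) * (Real.exp (-w.1) * PP β h (sh 0 (src k x) w.2) i (y - src k x)) ≤
          PP β h w.2 i y} ∪ {w : ℝ × Env d |
        (1 + g) * PP β h w.2 i y ≤
          Real.exp (-w.1) * PP β h (sh 0 (src k x) w.2) i (y - src k x)}) := by
    ext w
    simp only [Set.mem_iInter]
    exact GdL_iff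
  rw [h1]
  refine Finset.measurableSet_biInter _ fun i _ => Finset.measurableSet_biInter _ fun y _ => ?_
  have m1 : Measurable fun w : ℝ × Env d => PP β h w.2 i y :=
    (measurable_PP β h i y).comp measurable_snd
  have m2 : Measurable fun w : ℝ × Env d =>
      Real.exp (-w.1) * PP β h (sh 0 (src k x) w.2) i (y - src k x) :=
    (Real.measurable_exp.comp measurable_fst.neg).mul
      (((measurable_PP β h i (y - src k x)).comp (measurable_sh 0 (src k x))).comp
        measurable_snd)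
  exact (measurableSet_le (m2.const_mul _) m1).union (measurableSet_le (m1.const_mul _) m2)

/-- Measurability in the level. -/
theorem measurableSet_GdL_level (β : ℝ) (h : Vec d) (n : ℕ) (k : Fin d) (x : ℕ) (g : ℝ)
    (η : Env d) : MeasurableSet {a : ℝ | GdL β h n k x g a η} :=
  (measurableSet_GdL β h n k x g).preimage (measurable_id.prodMk measurable_const)

end Pool.Agent.W_7d29a1_V.BadL80
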