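import Pool.Agent.W_7d29a1_V.DefsV2

/-!
The block lemma: a walk which ends inside the cone has two blocks whose displacements nearly
cancel; reachable sites and their splittings.
-/

namespace Pool.Agent.W_7d29a1_V

open Pool.Agent.W_MP_7d29a1_pr Pool.Agent.W_7d29a1_h46 Pool.Agent.W_7d29a1_h46u

variable {d : ℕ}

lemma l1_zero58 : l1 (0 : Site d) = 0 := by simp [l1]

lemma l1_add_le58 (x y : Site d) : l1 (x + y) ≤ l1 x + l1 y := by
  unfold l1
  rw [← Finset.sum_add_distrib]
  exact Finset.sum_le_sum fun i _ => Int.natAbs_add_le _ _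

lemma l1_neg58 (x : Site d) : l1 (-x) = l1 x := by simp [l1]

lemma l1_sub_comm58 (x y : Site d) : l1 (x - y) = l1 (y - x) := by
  rw [← l1_neg58, neg_sub]

lemma l1_eq_zero58 {x : Site d} : l1 x = 0 ↔ x = 0 := by
  unfold l1
  rw [Finset.sum_eq_zero_iff]
  constructor
  · intro h
    funext i
    exact Int.natAbs_eq_zero.1 (h i (Finset.mem_univ i))
  · intro h i _
    rw [h]
    rfl

lemma l1_sum_le58 {ι : Type*} (s : Finset ι) (f : ι → Site d) :
    l1 (∑ i ∈ s, f i) ≤ ∑ i ∈ s, l1 (f i) := by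
  classical
  induction s using Finset.induction_on with
  | empty => simp [l1_zero58]
  | insert a s ha ih =>
    rw [Finset.sum_insert ha, Finset.sum_insert ha]
    exact (l1_add_le58 _ _).trans (Nat.add_le_add_left ih _)

lemma l1_cast58 (x : Site d) : (l1 x : ℝ) = ∑ i, |(x i : ℝ)| := by
  unfold l1
  push_cast
  refine Finset.sum_congr rfl fun i _ => ?_
  rw [Nat.cast_natAbs, Int.cast_abs]

lemma even_l1_58 (x : Site d) : Even (l1 x) ↔ Even (∑ i, x i) := by
  have h1 : Even (((l1 x : ℕ) : ℤ) - ∑ i, x i) := by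
    have h2 : ((l1 x : ℕ) : ℤ) - ∑ i, x i = ∑ i, (|x i| - x i) := by
      rw [Finset.sum_sub_distrib]
      unfold l1
      push_cast
      rfl
    rw [h2, even_iff_two_dvd]
    refine Finset.dvd_sum fun i _ => ?_
    rcases abs_cases (x i) with ⟨h, _⟩ | ⟨h, _⟩
    · rw [h]; simp
    · rw [h]; exact ⟨-x i, by ring⟩
  rw [← Int.even_coe_nat]
  exact Int.even_sub.1 h1

lemma even_l1_add58 (x y : Site d) : Even (l1 (x + y)) ↔ Even (l1 x + l1 y) := by
  have h : ∑ i, (x + y) i = ∑ i, x i + ∑ i, y i := by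
    rw [← Finset.sum_add_distrib]
    rfl
  rw [even_l1_58, h, Int.even_add, Nat.even_add, even_l1_58, even_l1_58]

lemma even_l1_sub58 (x y : Site d) : Even (l1 (x - y)) ↔ Even (l1 x + l1 y) := by
  rw [sub_eq_add_neg, even_l1_add58, l1_neg58]

/-! ### The block lemma -/

/-- Cancellation in one coordinate. -/
lemma l1_cancel58 (x y : Site d) (c : Fin d) {u : ℝ} (hx : u ≤ x c) (hy : (y c : ℝ) ≤ -u)
    (hu : 0 ≤ u) : (l1 (x + y) : ℝ) ≤ l1 x + l1 y - 2 * u := by
  classical
  have h1 : ∀ i : Fin d, |((x + y) i : ℝ)| ≤ |(x i : ℝ)| + |(y i : ℝ)| -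
      (if i = c then 2 * u else 0) := by
    intro i
    have h2 : (((x + y) i : ℤ) : ℝ) = (x i : ℝ) + (y i : ℝ) := by
      rw [Pi.add_apply]
      push_cast
      rfl
    rw [h2]
    by_cases hi : i = c
    · subst hi
      rw [if_pos rfl, abs_of_nonneg (hu.trans hx), abs_of_nonpos (hy.trans (by linarith)),
        abs_le]
      constructor <;> linarith
    · rw [if_neg hi, sub_zero]
      exact abs_add_le _ _
  have h3 := Finset.sum_le_sum fun i (_ : i ∈ Finset.univ) => h1 i
  rw [Finset.sum_sub_distrib, Finset.sum_add_distrib, Finset.sum_ite_eq' Finset.univ c,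
    if_pos (Finset.mem_univ c)] at h3
  rw [l1_cast58, l1_cast58, l1_cast58]
  exact h3

/-- If no two blocks nearly cancel, then the whole walk is nearly extreme. -/
theorem block58 {N : ℕ} (hN : 2 ≤ N) (b : Fin N → Site d) (s : Fin N → ℕ) (k : ℝ) (hk : 0 ≤ k)
    (hb : ∀ i, l1 (b i) ≤ s i)
    (hp : ∀ i j, i ≠ j → (s i : ℝ) + s j - k < l1 (b i + b j)) :
    ∑ i, (s i : ℝ) - (d + 1) * N * k ≤ l1 (∑ i, b i) := by
  classical
  have hb' : ∀ i, (l1 (b i) : ℝ) ≤ s i := fun i => by exact_mod_cast hb i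
  -- no cancellation of size `k / 2`
  have hno : ∀ i j, i ≠ j → ∀ c : Fin d, (k / 2 : ℝ) ≤ b i c → (b j c : ℝ) ≤ -(k / 2) → False := by
    intro i j hij c h1 h2
    have h3 := l1_cancel58 (b i) (b j) c h1 h2 (by linarith)
    have h4 := hp i j hij
    have h5 := hb' i
    have h6 := hb' j
    linarith
  -- each block is nearly extreme
  have hone : ∀ i, (s i : ℝ) - k ≤ l1 (b i) := by
    intro i
    obtain ⟨j, hj⟩ : ∃ j : Fin N, i ≠ j := by
      by_contra hcon
      push Not at hcon
      have h0 := hcon ⟨0, by omega⟩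
      have h1 := hcon ⟨1, by omega⟩
      rw [h0] at h1
      have := congrArg Fin.val h1
      simp at this
    have h4 := hp i j hj
    have h5 := hb' j
    have h6 : (l1 (b i + b j) : ℝ) ≤ l1 (b i) + l1 (b j) := by
      exact_mod_cast l1_add_le58 (b i) (b j)
    linarith
  -- one coordinate
  have hco : ∀ c : Fin d, ∑ i, |(b i c : ℝ)| ≤ |∑ i, (b i c : ℝ)| + N * k := by
    intro c
    have hcard : ∑ _i : Fin N, k = N * k := by
      rw [Finset.sum_const, Finset.card_univ, Fintype.card_fin, nsmul_eq_mul]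
    by_cases hA : ∃ i, (k / 2 : ℝ) ≤ b i c
    · obtain ⟨i, hi⟩ := hA
      have h1 : ∀ j, |(b j c : ℝ)| ≤ b j c + k := by
        intro j
        have h2 : -(k / 2) ≤ (b j c : ℝ) := by
          by_cases hij : i = j
          · subst hij; linarith
          · by_contra hcon
            exact hno i j hij c hi (by linarith)
        rw [abs_le]
        constructor <;> linarith
      have h3 := Finset.sum_le_sum fun j (_ : j ∈ Finset.univ) => h1 j
      rw [Finset.sum_add_distrib, hcard] at h3
      have h4 := le_abs_self (∑ i, (b i c : ℝ))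
      linarith
    · push Not at hA
      have h1 : ∀ j, |(b j c : ℝ)| ≤ -(b j c : ℝ) + k := by
        intro j
        have h2 := hA j
        rw [abs_le]
        constructor <;> linarith
      have h3 := Finset.sum_le_sum fun j (_ : j ∈ Finset.univ) => h1 j
      rw [Finset.sum_add_distrib, hcard, Finset.sum_neg_distrib] at h3
      have h4 := neg_abs_le (∑ i, (b i c : ℝ))
      linarith
  -- all coordinates
  have hall : ∑ i, (l1 (b i) : ℝ) ≤ l1 (∑ i, b i) + d * (N * k) := by
    have h1 : ∑ i, (l1 (b i) : ℝ) = ∑ c, ∑ i, |(b i c : ℝ)| := by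
      rw [Finset.sum_comm]
      exact Finset.sum_congr rfl fun i _ => l1_cast58 (b i)
    have h2 := Finset.sum_le_sum fun c (_ : c ∈ Finset.univ) => hco c
    rw [Finset.sum_add_distrib, Finset.sum_const, Finset.card_univ, Fintype.card_fin,
      nsmul_eq_mul] at h2
    rw [h1, l1_cast58]
    refine h2.trans (le_of_eq ?_)
    congr 1
    refine Finset.sum_congr rfl fun c _ => ?_
    rw [Finset.sum_apply]
    push_cast
    rfl
  have h7 := Finset.sum_le_sum fun i (_ : i ∈ Finset.univ) => hone i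
  rw [Finset.sum_sub_distrib, Finset.sum_const, Finset.card_univ, Fintype.card_fin,
    nsmul_eq_mul] at h7
  have h8 : ((d : ℝ) + 1) * N * k = d * (N * k) + N * k := by ring
  rw [h8]
  linarith

/-- The block lemma in its positive form: two blocks nearly cancel. -/
theorem block_pair58 {N : ℕ} (hN : 2 ≤ N) (b : Fin N → Site d) (s : Fin N → ℕ) (k : ℝ)
    (hk : 0 ≤ k) (hb : ∀ i, l1 (b i) ≤ s i)
    (hz : (l1 (∑ i, b i) : ℝ) < ∑ i, (s i : ℝ) - (d + 1) * N * k) :
    ∃ i j, i < j ∧ (l1 (b i + b j) : ℝ) ≤ (s i : ℝ) + s j - k := by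
  by_contra hcon
  push Not at hcon
  have h := block58 hN b s k hk hb (by
    intro i j hij
    rcases lt_or_gt_of_ne hij with h | h
    · exact hcon i j h
    · have h1 := hcon j i h
      rw [add_comm (b i) (b j)]
      linarith)
  linarith

/-! ### Reachable sites -/

lemma l1_vec58 (e : Step d) : l1 (vec e) = 1 := by
  classical
  unfold l1 vec
  rw [Finset.sum_eq_single e.1]
  · rw [Pi.single_eq_same]
    split_ifs <;> rfl
  · intro i _ hi
    rw [Pi.single_eq_of_ne hi]
    rfl
  · intro h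
    exact absurd (Finset.mem_univ _) h

lemma Rch.add58 {s t : ℕ} {x y : Site d} (hx : Rch s x) (hy : Rch t y) : Rch (s + t) (x + y) := by
  obtain ⟨q, hq⟩ := hx
  obtain ⟨r, hr⟩ := hy
  exact ⟨Fin.append q r, by rw [pos_glue_add, hq, hr]⟩

lemma rch_zero58 : Rch 0 (0 : Site d) := ⟨fun i => i.elim0, by simp [pos]⟩

lemma rch_one58 (e : Step d) : Rch 1 (vec e) := ⟨fun _ => e, by simp [pos]⟩

lemma Rch.split58 {s t : ℕ} {x : Site d} (hx : Rch (s + t) x) :
    ∃ y z, Rch s y ∧ Rch t z ∧ y + z = x := by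
  obtain ⟨q, hq⟩ := hx
  refine ⟨pos (fun i : Fin s => q (Fin.castAdd t i)) s, pos (fun i : Fin t => q (Fin.natAdd s i)) t,
    ⟨_, rfl⟩, ⟨_, rfl⟩, ?_⟩
  rw [← hq, ← pos_glue_add]
  congr 1
  exact Fin.append_castAdd_natAdd

lemma Rch.l1_58 {s : ℕ} {x : Site d} (hx : Rch s x) : l1 x ≤ s ∧ Even (s + l1 x) := by
  induction s generalizing x with
  | zero =>
    obtain ⟨q, hq⟩ := hx
    have h : x = 0 := by rw [← hq]; simp [pos]
    rw [h, l1_zero58]
    exact ⟨le_rfl, by simp⟩
  | succ n ih =>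
    obtain ⟨y, z, hy, hz, hyz⟩ := hx.split58
    obtain ⟨h1, h2⟩ := ih hy
    obtain ⟨q, hq⟩ := hz
    have h3 : z = vec (q 0) := by
      rw [← hq]
      simp [pos]
    have h4 : l1 z = 1 := by rw [h3, l1_vec58]
    rw [← hyz]
    refine ⟨(l1_add_le58 y z).trans (by omega), ?_⟩
    have h5 := even_l1_add58 y z
    rw [h4] at h5
    rw [Nat.even_add, h5]
    rw [Nat.even_add] at h2
    rw [Nat.even_add, Nat.even_add]
    tauto

lemma rch_even58 (hd : 0 < d) (m : ℕ) : Rch (m + m) (0 : Site d) := by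
  induction m with
  | zero => exact rch_zero58
  | succ n ih =>
    have h1 : Rch (1 + 1) (0 : Site d) := by
      have h2 := (rch_one58 ((⟨0, hd⟩, true) : Step d)).add58
        (rch_one58 ((⟨0, hd⟩, false) : Step d))
      have h3 : (vec ((⟨0, hd⟩, true) : Step d) : Site d) + vec ((⟨0, hd⟩, false) : Step d) = 0 := by
        unfold vec
        rw [← Pi.single_add]
        simp
      rwa [h3] at h2
    have h4 := ih.add58 h1
    rw [add_zero] at h4
    have h5 : n + n + (1 + 1) = n + 1 + (n + 1) := by ring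
    rwa [h5] at h4

lemma rch_l1_58 (x : Site d) : Rch (l1 x) x := by
  classical
  induction hn : l1 x generalizing x with
  | zero =>
    rw [l1_eq_zero58] at hn
    rw [hn]
    exact rch_zero58
  | succ n ih =>
    have hx : x ≠ 0 := by
      intro h
      rw [h, l1_zero58] at hn
      omega
    obtain ⟨c, hc⟩ : ∃ c, x c ≠ 0 := by
      by_contra hcon
      push Not at hcon
      exact hx (funext hcon)
    obtain ⟨e, he1, he2⟩ : ∃ e : Step d, e.1 = c ∧ (x c - (if e.2 then 1 else -1)).natAbs + 1 =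
        (x c).natAbs := by
      by_cases hpos : 0 < x c
      · exact ⟨(c, true), rfl, by simp only [if_true]; omega⟩
      · exact ⟨(c, false), rfl, by simp only [Bool.false_eq_true, if_false]; omega⟩
    have h1 : l1 (x - vec e) = n := by
      have h2 : l1 (x - vec e) + 1 = l1 x := by
        unfold l1
        rw [← Finset.add_sum_erase Finset.univ _ (Finset.mem_univ c),
          ← Finset.add_sum_erase Finset.univ (fun i => (x i).natAbs) (Finset.mem_univ c)]
        have h3 : ∀ i ∈ Finset.univ.erase c, ((x - vec e) i).natAbs = (x i).natAbs := by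
          intro i hi
          have hic : i ≠ c := Finset.ne_of_mem_erase hi
          rw [Pi.sub_apply]
          unfold vec
          rw [Pi.single_eq_of_ne (by rw [he1]; exact hic), sub_zero]
        rw [Finset.sum_congr rfl h3]
        have h4 : ((x - vec e) c) = x c - (if e.2 then 1 else -1) := by
          rw [Pi.sub_apply]
          unfold vec
          rw [he1, Pi.single_eq_same]
        rw [h4]
        omega
      omega
    have h5 := (ih (x - vec e) h1).add58 (rch_one58 e)
    rwa [sub_add_cancel] at h5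

theorem rch_iff58 (hd : 0 < d) {s : ℕ} {x : Site d} :
    Rch s x ↔ l1 x ≤ s ∧ Even (s + l1 x) := by
  constructor
  · exact Rch.l1_58
  · rintro ⟨h1, h2⟩
    obtain ⟨m, hm⟩ : ∃ m, s = l1 x + (m + m) := by
      obtain ⟨r, hr⟩ := h2
      exact ⟨r - l1 x, by omega⟩
    have h3 := (rch_l1_58 x).add58 (rch_even58 (d := d) hd m)
    rw [add_zero] at h3
    rwa [hm]

/-- Two blocks with some room can be moved. -/
theorem split58 (hd : 0 < d) {s t : ℕ} {x y ζ : Site d} (hx : Rch s x) (hy : Rch t y)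
    (hζ : Even (l1 ζ)) (h : l1 (x + y) + l1 ζ ≤ s + t) :
    ∃ x' y' : Site d, Rch s x' ∧ Rch t y' ∧ x' + y' = x + y + ζ := by
  have h1 : Rch (s + t) (x + y + ζ) := by
    rw [rch_iff58 hd]
    refine ⟨(l1_add_le58 _ _).trans h, ?_⟩
    have h2 := (hx.add58 hy).l1_58.2
    have h3 := even_l1_add58 (x + y) ζ
    have h4 : Even (s + t) ↔ Even (l1 (x + y)) := Nat.even_add.1 h2
    have h5 : Even (l1 (x + y + ζ)) ↔ Even (l1 (x + y)) := by
      rw [h3, Nat.even_add]
      simp [hζ]
    exact Nat.even_add.2 (h4.trans h5.symm)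
  exact h1.split58

end Pool.Agent.W_7d29a1_V
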