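import Pool.Agent.W_7d29a1_V.Far27

/-!
STORM V (MP_7d29a1_pr), leaf costV: the cost at a good level. (helper27)
-/

set_option autoImplicit false

namespace Pool.Agent.W_7d29a1_V.Cos27

open MeasureTheory ProbabilityTheory Filter Topology Pool.Agent.W_MP_7d29a1_pr
  Pool.Agent.W_7d29a1_h46 Pool.Agent.W_7d29a1_h46u Pool.Agent.W_7d29a1_D2
  Pool.Agent.W_7d29a1_D2.B35 Pool.Agent.W_7d29a1_V Pool.Agent.W_7d29a1_V.R48

open Pool.Agent.W_7d29a1_UD (Lr Fr TT Rel)

open Pool.Agent.W_7d29a1_V.Bri62 (pE WE fr_eq lr_eq lr_add sh_zero)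

open Pool.Agent.W_7d29a1_V.Far27

open scoped ENNReal

variable {d : ℕ}

theorem ofRQ {R Q : ℝ} (hR : 0 ≤ R) (hQ : 0 ≤ Q) :
    1 + ENNReal.ofReal R * ENNReal.ofReal Q = ENNReal.ofReal (1 + R * Q) := by
  rw [ENNReal.ofReal_add zero_le_one (mul_nonneg hR hQ), ENNReal.ofReal_mul hR, ENNReal.ofReal_one]

/-- **COST in real numbers.** -/
theorem cost_real (hd : 0 < d) {β : ℝ} {h : Vec d} {n m : ℕ} {κ C : ℝ} {η : Env d} (hN : NSn β h n m κ C η)
    (hC : 0 < C) (hm : 1 ≤ m) (hκm : 2 ≤ κ * m) (k : Fin d) {x : ℕ} (hx : 2 * m ≤ x) (hx5 : x ≤ 5 * n)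
    (a : ℝ) (ξ : Env d) {g : ℝ} (hg : 0 < g) (hg1 : g ≤ 1) (hG : GdL β h n k x g a η) :
    Za β h n k a x η ≤ (4 / g) * ((1 + (2 * Real.exp (2 * C * m)) * (4 / g)) *
      Za β h n k a (x - 1) (om β h k x a η ξ) +
        2 * (n + 1) * Real.exp (-(κ * m / 2)) * (Real.exp (-a) * Z β h (sh 0 (src k x) η) n)) := by
  classical
  have hm' : (1 : ℝ) ≤ m := by exact_mod_cast hm
  have hQ : (1 : ℝ) ≤ 4 / g := by
    rw [le_div_iff₀ hg]
    linarith
  have hR : (1 : ℝ) ≤ 2 * Real.exp (2 * C * m) := by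
    have : 1 ≤ Real.exp (2 * C * m) := Real.one_le_exp (by positivity)
    linarith
  have h1 := W_7d29a1_UD.cost62 (rel27 β h k x a η ξ) (Q := ENNReal.ofReal (4 / g))
    (R1 := ENNReal.ofReal (2 * Real.exp (2 * C * m))) (ENNReal.one_le_ofReal.2 hQ) (ENNReal.one_le_ofReal.2 hR) n
    (Good95.good95 (lr_eq β h η) hg hg1 hG)
  have h2 := Bad27.badsum27 hd hN hm hκm hx hx5 k (ENNReal.ofReal (Real.exp (-a)))
  have h3 := h1.trans (mul_le_mul_right (add_le_add le_rfl h2) _)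
  rw [src_sub_one k (by omega), za_eq, za_eq, fr_eq] at h3
  have p1 : 0 ≤ 2 * ((n : ℝ) + 1) * Real.exp (-(κ * m / 2)) := by positivity
  have p2 : (0 : ℝ) ≤ 1 + (2 * Real.exp (2 * C * m)) * (4 / g) := by positivity
  have p3 := cZ_nn a β h (sh 0 (src k x) η) n
  have p4 := Za_nn β h n k a (x - 1) (om β h k x a η ξ)
  have e1 := ofRQ (R := 2 * Real.exp (2 * C * m)) (Q := 4 / g) (by positivity) (by positivity)
  have e2 : ENNReal.ofReal (Real.exp (-a)) * ENNReal.ofReal (2 * (n + 1) * Real.exp (-(κ * m / 2))) *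
      ENNReal.ofReal (Z β h (sh 0 (src k x) η) n) =
      ENNReal.ofReal (2 * (n + 1) * Real.exp (-(κ * m / 2)) * (Real.exp (-a) * Z β h (sh 0 (src k x) η) n)) := by
    rw [ENNReal.ofReal_mul p1, ENNReal.ofReal_mul (Real.exp_pos _).le]
    ring
  rw [e1, e2, ← ENNReal.ofReal_mul p2, ← ENNReal.ofReal_add (mul_nonneg p2 p4) (mul_nonneg p1 p3),
    ← ENNReal.ofReal_mul (by positivity)] at h3
  exact (ENNReal.ofReal_le_ofReal_iff (mul_nonneg (by positivity)
    (add_nonneg (mul_nonneg p2 p4) (mul_nonneg p1 p3)))).1 h3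

/-- **U5**. -/
theorem costV (hd : 0 < d) (β : ℝ) : CostV d β := by
  intro δ κ C K hδ hδ1 hκ hκ2 hC hK
  refine ⟨2 * C + 7, by positivity, ?_⟩
  obtain ⟨n₀, hn₀⟩ := eventually_atTop.1 (((ev_mm hδ (2 / κ)).and (ev_mm hδ 1)).and
    (((ev_pow hδ (κ := κ / 2) (by positivity) 32 (K + 1)).and (ev_pow hδ (κ := 1) one_pos 1 K)).and
      (eventually_ge_atTop 1)))
  refine ⟨n₀, fun h n hn k x hx hx5 a η ξ hN hG => ?_⟩
  obtain ⟨⟨hm2, hm1⟩, ⟨hexp, hK1⟩, hn1⟩ := hn₀ n hn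
  set m := mm δ n with hmdef
  have hm : 1 ≤ m := by exact_mod_cast hm1
  have hκm : 2 ≤ κ * m := by
    rw [div_le_iff₀ hκ] at hm2
    linarith
  have hn1' : (1 : ℝ) ≤ n := by exact_mod_cast hn1
  have hn0 : (0 : ℝ) < n := by linarith
  have hg : (0 : ℝ) < (n : ℝ) ^ (-K) := Real.rpow_pos_of_pos hn0 _
  have hg1 : (n : ℝ) ^ (-K) ≤ 1 := Real.rpow_le_one_of_one_le_of_nonpos hn1' (by linarith)
  have hdiv : 4 / (n : ℝ) ^ (-K) = 4 * (n : ℝ) ^ K := by
    rw [Real.rpow_neg hn0.le, div_inv_eq_mul]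
  have h1 := cost_real hd hN hC hm hκm k hx hx5 a ξ hg hg1 hG
  rw [hdiv] at h1
  have pK : (1 : ℝ) ≤ (n : ℝ) ^ K := Real.one_le_rpow hn1' hK.le
  have hZom := Za_pos hd β h n k a (x - 1) (om β h k x a η ξ)
  have hZa := Za_pos hd β h n k a x η
  have hle : Real.exp (-a) * Z β h (sh 0 (src k x) η) n ≤ Za β h n k a x η :=
    le_add_of_nonneg_left (Z_nn β h η n)
  set P := Za β h n k a (x - 1) (om β h k x a η ξ) with hP
  set A := Za β h n k a x η with hA
  have hsmall : 4 * (n : ℝ) ^ K * (2 * (n + 1) * Real.exp (-(κ * m / 2))) ≤ 1 / 2 := by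
    have h2 : 32 * (n : ℝ) ^ (K + 1) * Real.exp (-(κ * m / 2)) ≤ 1 := by
      calc 32 * (n : ℝ) ^ (K + 1) * Real.exp (-(κ * m / 2))
          ≤ Real.exp (κ / 2 * m) * Real.exp (-(κ * m / 2)) := mul_le_mul_of_nonneg_right hexp (Real.exp_pos _).le
        _ = 1 := by
          rw [← Real.exp_add]
          rw [show κ / 2 * (m : ℝ) + -(κ * m / 2) = 0 by ring, Real.exp_zero]
    have h3 : (n : ℝ) ^ (K + 1) = (n : ℝ) ^ K * n := by
      rw [Real.rpow_add hn0, Real.rpow_one]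
    rw [h3] at h2
    have h4 : 4 * (n : ℝ) ^ K * (2 * (n + 1) * Real.exp (-(κ * m / 2))) ≤
        4 * (n : ℝ) ^ K * (2 * (2 * n) * Real.exp (-(κ * m / 2))) := by
      refine mul_le_mul_of_nonneg_left (mul_le_mul_of_nonneg_right ?_ (Real.exp_pos _).le) (by positivity)
      linarith
    linarith
  have h5 : A ≤ 4 * (n : ℝ) ^ K * ((1 + 2 * Real.exp (2 * C * m) * (4 * (n : ℝ) ^ K)) * P) + 1 / 2 * A := by
    refine h1.trans ?_
    rw [mul_add]
    refine add_le_add le_rfl ?_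
    calc 4 * (n : ℝ) ^ K * (2 * (n + 1) * Real.exp (-(κ * m / 2)) * (Real.exp (-a) * Z β h (sh 0 (src k x) η) n))
        = (4 * (n : ℝ) ^ K * (2 * (n + 1) * Real.exp (-(κ * m / 2)))) *
          (Real.exp (-a) * Z β h (sh 0 (src k x) η) n) := by ring
      _ ≤ 1 / 2 * A := mul_le_mul hsmall hle (cZ_nn a β h _ n) (by norm_num)
  have h6 : A ≤ Real.exp ((2 * C + 7) * m) * P := by
    have h7 : A ≤ 2 * (4 * (n : ℝ) ^ K * ((1 + 2 * Real.exp (2 * C * m) * (4 * (n : ℝ) ^ K)) * P)) := by linarith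
    refine h7.trans ?_
    have h8 : 1 ≤ Real.exp (2 * C * m) := Real.one_le_exp (by positivity)
    have h9 : 1 + 2 * Real.exp (2 * C * m) * (4 * (n : ℝ) ^ K) ≤ 9 * Real.exp (2 * C * m) * (n : ℝ) ^ K := by
      have : 1 ≤ Real.exp (2 * C * m) * (n : ℝ) ^ K := one_le_mul_of_one_le_of_one_le h8 pK
      linarith
    rw [one_mul, one_mul] at hK1
    have h10 : (128 : ℝ) ≤ Real.exp (5 * m) := by
      have h11 : Real.exp 5 ≤ Real.exp (5 * m) := Real.exp_le_exp.2 (by nlinarith [hm1])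
      have h12 : (2.7 : ℝ) ≤ Real.exp 1 := by
        have := Real.exp_one_gt_d9
        linarith
      have h13 : Real.exp 5 = Real.exp 1 ^ 5 := by
        rw [← Real.exp_nat_mul]
        norm_num
      have h14 : (2.7 : ℝ) ^ 5 ≤ Real.exp 1 ^ 5 := pow_le_pow_left₀ (by norm_num) h12 5
      have h15 : (128 : ℝ) ≤ (2.7 : ℝ) ^ 5 := by norm_num
      linarith
    calc 2 * (4 * (n : ℝ) ^ K * ((1 + 2 * Real.exp (2 * C * m) * (4 * (n : ℝ) ^ K)) * P))
        ≤ 2 * (4 * (n : ℝ) ^ K * ((9 * Real.exp (2 * C * m) * (n : ℝ) ^ K) * P)) := by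
          refine mul_le_mul_of_nonneg_left (mul_le_mul_of_nonneg_left
            (mul_le_mul_of_nonneg_right h9 hZom.le) (by positivity)) (by norm_num)
      _ = 72 * ((n : ℝ) ^ K * (n : ℝ) ^ K) * Real.exp (2 * C * m) * P := by ring
      _ ≤ 128 * (Real.exp m * Real.exp m) * Real.exp (2 * C * m) * P := by
          refine mul_le_mul_of_nonneg_right (mul_le_mul_of_nonneg_right ?_ (Real.exp_pos _).le) hZom.le
          exact mul_le_mul (by norm_num) (mul_le_mul hK1 hK1 (by positivity) (by positivity)) (by positivity)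
            (by norm_num)
      _ ≤ Real.exp (5 * m) * (Real.exp m * Real.exp m) * Real.exp (2 * C * m) * P := by
          refine mul_le_mul_of_nonneg_right (mul_le_mul_of_nonneg_right
            (mul_le_mul_of_nonneg_right h10 (by positivity)) (Real.exp_pos _).le) hZom.le
      _ = Real.exp ((2 * C + 7) * m) * P := by
          rw [← Real.exp_add, ← Real.exp_add, ← Real.exp_add]
          congr 2
          ring
  have h7 := Real.log_le_log hZa h6
  rw [Real.log_mul (Real.exp_pos _).ne' hZom.ne', Real.log_exp] at h7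
  linarith

end Pool.Agent.W_7d29a1_V.Cos27
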