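import Pool.Agent.W_7d29a1_V.DefsV2

/-!
The bootstrap at one tilt `h` with slope `v` and `lam (h + r) ≤ lam h + ⟨v, r⟩ + C ‖r‖ ^ p`:
definitions and the statements of its steps.
-/

namespace Pool.Agent.W_7d29a1_V

open MeasureTheory ProbabilityTheory Filter Topology Pool.Agent.W_MP_7d29a1_pr
  Pool.Agent.W_7d29a1_h46 Pool.Agent.W_7d29a1_h46u Pool.Agent.W_7d29a1_D2

/-- The moments at the tilts `h'` near `h` are those of a variable of size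
`n ^ x + (n ‖h' - h‖ ^ (p - 1)) ^ (1 / 2)`, up to `n ^ e`. -/
def FlM {d : ℕ} (ρ : Measure ℝ) (β : ℝ) (h : Vec d) (p x : ℝ) : Prop :=
  ∀ e : ℝ, 0 < e → ∀ q : ℕ, ∃ r : ℝ, 0 < r ∧ ∃ C : ℝ, ∀ h' : Vec d, ‖h' - h‖ < r →
    ∀ n : ℕ, 1 ≤ n →
      ∫ η, |X β h' η n - A ρ β h' n| ^ q ∂(law d ρ) ≤
        C * ((n : ℝ) ^ e * ((n : ℝ) ^ x + Real.sqrt (n * ‖h' - h‖ ^ (p - 1)))) ^ q

/-- The exponent of the tube at the tilt `h`. -/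
noncomputable def aX (p x : ℝ) : ℝ := 1 + (x - 1) * (p - 1) / p

/-- The polymer at the tilts `h'` near `h` stays in the tube of radius
`n ^ e (n ‖h' - h‖ ^ (p - 1) + n ^ (1 + (x - 1) (p - 1) / p))` around `i v`. -/
def TubM {d : ℕ} (ρ : Measure ℝ) (β : ℝ) (h v : Vec d) (p x : ℝ) : Prop :=
  ∀ e : ℝ, 0 < e → ∀ Q : ℕ, ∃ r : ℝ, 0 < r ∧ ∃ C : ℝ, ∀ h' : Vec d, ‖h' - h‖ < r →
    ∀ n : ℕ, 1 ≤ n → ∀ W : ℝ,
      (n : ℝ) ^ e * (n * ‖h' - h‖ ^ (p - 1) + (n : ℝ) ^ aX p x) ≤ W →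
        ∫ η, (1 - PolT β h' η (tube d n v W)) ∂(law d ρ) ≤ C * (n : ℝ) ^ (-(Q : ℝ))

end Pool.Agent.W_7d29a1_V
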