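import Pool.Agent.W_7d29a1_V.DimA33

/-!
Second differences of a convex function on `ℝ^d`: averages over balls and the total mass.
-/

namespace Pool.Agent.W_7d29a1_V.DimP33

open MeasureTheory Filter Topology Set Metric
open Pool.Agent.W_7d29a1_h46 Pool.Agent.W_7d29a1_h46u Pool.Agent.W_7d29a1_D2
open scoped ENNReal NNReal

variable {d : ℕ}

lemma sd_cont {L : Vec d → ℝ} (hc : Continuous L) (r : Vec d) : Continuous (sd L r) := by
  unfold sd
  fun_prop

lemma sd_int {L : Vec d → ℝ} (hc : Continuous L) (r x : Vec d) (ρ : ℝ) :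
    IntegrableOn (sd L r) (ball x ρ) := by
  have h1 : IntegrableOn (sd L r) (closedBall x ρ) :=
    (sd_cont hc r).continuousOn.integrableOn_compact (isCompact_closedBall x ρ)
  exact h1.mono_set ball_subset_closedBall

/-- The average over a ball around a point with a dominating direction. -/
lemma avg_le {L : Vec d → ℝ} (hc : Continuous L) {S ρ : ℝ} {h : Vec d} {j : Fin d}
    (hu : ∀ u : Vec d, ‖u‖ < ρ →
      sd L (S • ej j) h ≤ sd L (S • ej j) (h + u) + sd L (S • ej j) (h - u)) :
    (volume (ball h ρ)).toReal * sd L (S • ej j) h ≤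
      2 * ∫ x in ball h ρ, sd L (S • ej j) x := by
  set F := sd L (S • ej j) with hF
  have hFc : Continuous F := sd_cont hc _
  have hmp : MeasurePreserving (fun x : Vec d => (2 : ℝ) • h - x) volume volume :=
    Measure.measurePreserving_sub_left volume ((2 : ℝ) • h)
  have hemb : MeasurableEmbedding (fun x : Vec d => (2 : ℝ) • h - x) :=
    (MeasurableEquiv.subLeft ((2 : ℝ) • h)).measurableEmbedding
  have hpre : (fun x : Vec d => (2 : ℝ) • h - x) ⁻¹' (ball h ρ) = ball h ρ := by
    ext x
    simp only [mem_preimage, mem_ball, dist_eq_norm]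
    have : (2 : ℝ) • h - x - h = -(x - h) := by
      rw [two_smul]; abel
    rw [this, norm_neg]
  have h1 := hmp.setIntegral_preimage_emb hemb F (ball h ρ)
  rw [hpre] at h1
  have hi1 : IntegrableOn F (ball h ρ) := sd_int hc _ _ _
  have hi2 : IntegrableOn (fun x => F ((2 : ℝ) • h - x)) (ball h ρ) := by
    have hcc : Continuous (fun x : Vec d => F ((2 : ℝ) • h - x)) := by fun_prop
    exact (hcc.continuousOn.integrableOn_compact (isCompact_closedBall h ρ)).mono_set
      ball_subset_closedBall
  have h2 : 2 * ∫ x in ball h ρ, F x = ∫ x in ball h ρ, (F x + F ((2 : ℝ) • h - x)) := by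
    rw [integral_add hi1 hi2, h1]
    ring
  rw [h2]
  have h3 : (volume (ball h ρ)).toReal * F h = ∫ _x in ball h ρ, F h := by
    rw [setIntegral_const, smul_eq_mul]
    rfl
  rw [h3]
  refine setIntegral_mono_on (integrableOn_const measure_ball_lt_top.ne) (hi1.add hi2)
    measurableSet_ball fun x hx => ?_
  have h4 := hu (x - h) (by simpa [dist_eq_norm] using hx)
  have e1 : h + (x - h) = x := by abel
  have e2 : h - (x - h) = (2 : ℝ) • h - x := by rw [two_smul]; abel
  rwa [e1, e2] at h4

/-- Telescoping along a line. -/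
lemma tele {L : Vec d → ℝ} {K : ℝ} (hK : ∀ x y, |L x - L y| ≤ K * ‖x - y‖) {S : ℝ} (hS : 0 ≤ S)
    (j : Fin d) (N : ℕ) (y : Vec d) :
    ∑ k ∈ Finset.range N, sd L (S • ej j) (y + ((k : ℝ) * S) • ej j) ≤ 2 * (K * S) := by
  have h1 : ∀ k : ℕ, sd L (S • ej j) (y + ((k : ℝ) * S) • ej j) =
      (L (y + (((k + 1 : ℕ) : ℝ) * S) • ej j) - L (y + (((k + 1 : ℕ) : ℝ) * S) • ej j - S • ej j)) -
      (L (y + ((k : ℝ) * S) • ej j) - L (y + ((k : ℝ) * S) • ej j - S • ej j)) := by
    intro k
    have e1 : y + (((k + 1 : ℕ) : ℝ) * S) • (ej j : Vec d) =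
        y + ((k : ℝ) * S) • ej j + S • ej j := by
      rw [Nat.cast_add, Nat.cast_one, add_mul, one_mul, add_smul]; abel
    have e2 : y + ((k : ℝ) * S) • (ej j : Vec d) + S • ej j - S • ej j =
        y + ((k : ℝ) * S) • ej j := by abel
    rw [e1, e2]
    unfold sd
    ring
  rw [Finset.sum_congr rfl fun k _ => h1 k, Finset.sum_range_sub (fun k : ℕ =>
    L (y + ((k : ℝ) * S) • ej j) - L (y + ((k : ℝ) * S) • ej j - S • ej j))]
  have hn : ‖S • (ej j : Vec d)‖ = S := by
    rw [norm_smul, Real.norm_eq_abs, abs_of_nonneg hS]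
    unfold ej
    simp
  have h2 : ∀ x : Vec d, |L x - L (x - S • ej j)| ≤ K * S := by
    intro x
    have := hK x (x - S • ej j)
    rwa [sub_sub_cancel, hn] at this
  have h3 := abs_le.1 (h2 (y + ((N : ℕ) * S : ℝ) • ej j))
  have h4 := abs_le.1 (h2 (y + (((0 : ℕ) : ℝ) * S) • ej j))
  linarith [h3.2, h4.1]

/-- The total mass of the second differences of step `1 / N`. -/
lemma mass_le {L : Vec d → ℝ} (hL : ConvexOn ℝ univ L) (hc : Continuous L) {K : ℝ}
    (hK : ∀ x y, |L x - L y| ≤ K * ‖x - y‖) (M : ℝ) {N : ℕ} (hN : 0 < N) (j : Fin d) :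
    ∫ x in ball (0 : Vec d) M, sd L ((1 / (N : ℝ)) • ej j) x ≤
      (volume (ball (0 : Vec d) (M + 1))).toReal * (2 * K) / (N : ℝ) ^ 2 := by
  have hN' : (0 : ℝ) < N := by exact_mod_cast hN
  set S : ℝ := 1 / (N : ℝ) with hS
  have hS0 : 0 < S := by positivity
  set F := sd L (S • ej j) with hF
  have hFc : Continuous F := sd_cont hc _
  have hF0 : ∀ x, 0 ≤ F x := fun x => sd_nonneg hL _ _
  have hstep : ∀ k ∈ Finset.range N, ∫ x in ball (0 : Vec d) M, F x ≤
      ∫ y in ball (0 : Vec d) (M + 1), F (y + ((k : ℝ) * S) • ej j) := by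
    intro k hk
    have hkN : (k : ℝ) < N := by exact_mod_cast Finset.mem_range.1 hk
    set c : Vec d := ((k : ℝ) * S) • ej j with hcdef
    have hcn : ‖c‖ ≤ 1 := by
      rw [hcdef, norm_smul, Real.norm_eq_abs, abs_of_nonneg (by positivity)]
      unfold ej
      simp only [EuclideanSpace.norm_single, norm_one, mul_one]
      rw [hS, mul_one_div, div_le_one hN']
      exact hkN.le
    have hmp : MeasurePreserving (fun x : Vec d => x + c) volume volume :=
      measurePreserving_add_right volume c
    have hemb : MeasurableEmbedding (fun x : Vec d => x + c) :=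
      measurableEmbedding_addRight c
    have h1 := hmp.setIntegral_preimage_emb hemb F (ball 0 M)
    rw [← h1]
    refine setIntegral_mono_set ?_ ?_ ?_
    · have hcc : Continuous (fun x : Vec d => F (x + c)) := by fun_prop
      exact (hcc.continuousOn.integrableOn_compact (isCompact_closedBall 0 (M + 1))).mono_set
        ball_subset_closedBall
    · exact Eventually.of_forall fun x => hF0 _
    · refine Eventually.of_forall ?_
      intro x hx
      have hx1 : x + c ∈ ball (0 : Vec d) M := hx
      have hx' : ‖x + c‖ < M := mem_ball_zero_iff.1 hx1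
      have : ‖x‖ < M + 1 := by
        calc ‖x‖ = ‖(x + c) - c‖ := by rw [add_sub_cancel_right]
          _ ≤ ‖x + c‖ + ‖c‖ := norm_sub_le _ _
          _ < M + 1 := by linarith
      exact mem_ball_zero_iff.2 this
  have hsum := Finset.sum_le_sum hstep
  rw [Finset.sum_const, Finset.card_range, nsmul_eq_mul] at hsum
  have hswap : ∑ k ∈ Finset.range N, ∫ y in ball (0 : Vec d) (M + 1),
      F (y + ((k : ℝ) * S) • ej j) =
      ∫ y in ball (0 : Vec d) (M + 1), ∑ k ∈ Finset.range N, F (y + ((k : ℝ) * S) • ej j) := by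
    rw [integral_finset_sum]
    intro k _
    have hcc : Continuous (fun x : Vec d => F (x + ((k : ℝ) * S) • ej j)) := by fun_prop
    exact (hcc.continuousOn.integrableOn_compact (isCompact_closedBall 0 (M + 1))).mono_set
      ball_subset_closedBall
  rw [hswap] at hsum
  have hbd : ∫ y in ball (0 : Vec d) (M + 1), ∑ k ∈ Finset.range N, F (y + ((k : ℝ) * S) • ej j) ≤
      (volume (ball (0 : Vec d) (M + 1))).toReal * (2 * (K * S)) := by
    have h3 : (volume (ball (0 : Vec d) (M + 1))).toReal * (2 * (K * S)) =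
        ∫ _x in ball (0 : Vec d) (M + 1), 2 * (K * S) := by
      rw [setIntegral_const, smul_eq_mul]
      rfl
    rw [h3]
    refine setIntegral_mono_on ?_ (integrableOn_const measure_ball_lt_top.ne)
      measurableSet_ball fun x _ => tele hK hS0.le j N x
    have hcc : Continuous (fun y : Vec d => ∑ k ∈ Finset.range N, F (y + ((k : ℝ) * S) • ej j)) := by
      fun_prop
    exact (hcc.continuousOn.integrableOn_compact (isCompact_closedBall 0 (M + 1))).mono_set
      ball_subset_closedBall
  have h4 := hsum.trans hbd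
  rw [le_div_iff₀ (by positivity)]
  have h5 : S * N = 1 := by rw [hS]; field_simp
  calc (∫ x in ball (0 : Vec d) M, F x) * (N : ℝ) ^ 2
      = (N * ∫ x in ball (0 : Vec d) M, F x) * N := by ring
    _ ≤ ((volume (ball (0 : Vec d) (M + 1))).toReal * (2 * (K * S))) * N :=
        mul_le_mul_of_nonneg_right h4 hN'.le
    _ = (volume (ball (0 : Vec d) (M + 1))).toReal * (2 * K) * (S * N) := by ring
    _ = (volume (ball (0 : Vec d) (M + 1))).toReal * (2 * K) := by rw [h5, mul_one]

end Pool.Agent.W_7d29a1_V.DimP33
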