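import Pool.Agent.W_7d29a1_V.DimB33

/-!
The points with a large second difference at a given scale are covered by few balls.
-/

namespace Pool.Agent.W_7d29a1_V.DimP33

open MeasureTheory Filter Topology Set Metric
open Pool.Agent.W_7d29a1_h46 Pool.Agent.W_7d29a1_h46u Pool.Agent.W_7d29a1_D2
open scoped ENNReal NNReal

variable {d : ℕ}

/-- The points with a second difference at least `A` at the scale `1 / N`. -/
def Ek (L : Vec d → ℝ) (A : ℝ) (N : ℕ) : Set (Vec d) :=
  {h | ∃ r : Vec d, (d : ℝ) * ‖r‖ ≤ 1 / N ∧ A ≤ sd L r h}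

/-- The mass near a point with a large second difference. -/
lemma mass_ge (hd : 0 < d) {L : Vec d → ℝ} (hL : ConvexOn ℝ univ L) (hc : Continuous L) {A : ℝ}
    {N : ℕ} (hN : 0 < N) {h : Vec d} (hA0 : 0 ≤ A) (hh : h ∈ Ek L A N) :
    (volume (ball (0 : Vec d) (1 / (2 * d * N)))).toReal * A ≤
      2 * ∫ x in ball h (1 / (2 * d * N)), ∑ j : Fin d, sd L ((1 / (N : ℝ)) • ej j) x := by
  have hd' : (0 : ℝ) < d := by exact_mod_cast hd
  have hN' : (0 : ℝ) < N := by exact_mod_cast hN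
  set ρ : ℝ := 1 / (2 * d * N) with hρ
  set S : ℝ := 1 / (N : ℝ) with hS
  have hS0 : 0 < S := by positivity
  obtain ⟨j, hj⟩ := exists_dir hd hL hS0 h
  obtain ⟨r, hr, hAr⟩ := hh
  have h1 : A ≤ sd L (S • ej j) h := by
    have h2 := hj r hr
    have h3 : (d : ℝ) * ‖r‖ / S ≤ 1 := by rw [div_le_one hS0]; exact hr
    have h4 := mul_le_mul_of_nonneg_right h3 (sd_nonneg hL (S • ej j) h)
    linarith
  have hu : ∀ u : Vec d, ‖u‖ < ρ →
      sd L (S • ej j) h ≤ sd L (S • ej j) (h + u) + sd L (S • ej j) (h - u) := by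
    intro u hu
    refine pair_le hL ?_
    have h5 : (d : ℝ) * ‖u‖ ≤ S / 2 := by
      have : (d : ℝ) * ‖u‖ ≤ d * ρ := mul_le_mul_of_nonneg_left hu.le hd'.le
      refine this.trans (le_of_eq ?_)
      rw [hρ, hS]
      field_simp
    refine (hj u (by linarith)).trans ?_
    refine mul_le_mul_of_nonneg_right ?_ (sd_nonneg hL _ _)
    rw [div_le_iff₀ hS0]
    linarith
  have h6 := avg_le hc hu
  rw [Measure.addHaar_ball_center] at h6
  have h7 : ∫ x in ball h ρ, sd L (S • ej j) x ≤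
      ∫ x in ball h ρ, ∑ j : Fin d, sd L (S • ej j) x := by
    refine setIntegral_mono (sd_int hc _ _ _) ?_ fun x => ?_
    · exact integrable_finset_sum _ fun j _ => sd_int hc _ _ _
    · exact Finset.single_le_sum (f := fun j => sd L (S • ej j) x)
        (fun j _ => sd_nonneg hL _ _) (Finset.mem_univ j)
  have h8 : (volume (ball (0 : Vec d) ρ)).toReal * A ≤
      (volume (ball (0 : Vec d) ρ)).toReal * sd L (S • ej j) h :=
    mul_le_mul_of_nonneg_left h1 ENNReal.toReal_nonneg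
  linarith

/-- The number of separated points with a large second difference. -/
lemma pack (hd : 0 < d) {L : Vec d → ℝ} (hL : ConvexOn ℝ univ L) (hc : Continuous L) {K : ℝ}
    (hK : ∀ x y, |L x - L y| ≤ K * ‖x - y‖) {M A : ℝ} (hA0 : 0 ≤ A) {N : ℕ}
    (hN : 0 < N) (P : Finset (Vec d)) (hP : ∀ x ∈ P, x ∈ Ek L A N ∧ ‖x‖ ≤ M)
    (hsep : ∀ x ∈ P, ∀ y ∈ P, x ≠ y → 1 / (d * N) ≤ dist x y) :
    (P.card : ℝ) * ((volume (ball (0 : Vec d) (1 / (2 * d * N)))).toReal * A) ≤
      2 * (d * ((volume (ball (0 : Vec d) (M + 2))).toReal * (2 * K) / (N : ℝ) ^ 2)) := by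
  have hd' : (1 : ℝ) ≤ d := by exact_mod_cast hd
  have hN' : (1 : ℝ) ≤ N := by exact_mod_cast hN
  set ρ : ℝ := 1 / (2 * d * N) with hρ
  have hρ0 : 0 < ρ := by positivity
  have hρ1 : ρ ≤ 1 / 2 := by
    rw [hρ]
    apply one_div_le_one_div_of_le (by norm_num)
    nlinarith
  set F : Vec d → ℝ := fun x => ∑ j : Fin d, sd L ((1 / (N : ℝ)) • ej j) x with hF
  have hF0 : ∀ x, 0 ≤ F x := fun x => Finset.sum_nonneg fun j _ => sd_nonneg hL _ _
  have hFc : Continuous F := by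
    rw [hF]
    exact continuous_finset_sum _ fun j _ => sd_cont hc _
  have hFi : ∀ (x : Vec d) (r : ℝ), IntegrableOn F (ball x r) := fun x r =>
    (hFc.continuousOn.integrableOn_compact (isCompact_closedBall x r)).mono_set
      ball_subset_closedBall
  have h1 : ∀ x ∈ P, (volume (ball (0 : Vec d) ρ)).toReal * A ≤ 2 * ∫ y in ball x ρ, F y :=
    fun x hx => mass_ge hd hL hc hN hA0 (hP x hx).1
  have h2 := Finset.sum_le_sum h1
  rw [Finset.sum_const, nsmul_eq_mul, ← Finset.mul_sum] at h2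
  have hdisj : (↑P : Set (Vec d)).Pairwise (Function.onFun Disjoint fun x => ball x ρ) := by
    intro x hx y hy hxy
    refine ball_disjoint_ball ?_
    have h3 := hsep x hx y hy hxy
    refine le_trans (le_of_eq ?_) h3
    rw [hρ]
    field_simp
    norm_num
  have h3 : ∑ x ∈ P, ∫ y in ball x ρ, F y = ∫ y in ⋃ x ∈ P, ball x ρ, F y :=
    (integral_biUnion_finset P (fun _ _ => measurableSet_ball) hdisj fun x _ => hFi x ρ).symm
  have h4 : ∫ y in ⋃ x ∈ P, ball x ρ, F y ≤ ∫ y in ball (0 : Vec d) (M + 1), F y := by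
    refine setIntegral_mono_set (hFi _ _) (Eventually.of_forall fun x => hF0 _)
      (Eventually.of_forall ?_)
    intro y hy
    have hy' : y ∈ ⋃ x ∈ P, ball x ρ := hy
    simp only [mem_iUnion, exists_prop] at hy'
    obtain ⟨x, hx, hyx⟩ := hy'
    have h5 : ‖x‖ ≤ M := (hP x hx).2
    have h6 : ‖y‖ < M + 1 := by
      calc ‖y‖ = ‖x + (y - x)‖ := by rw [add_sub_cancel]
        _ ≤ ‖x‖ + ‖y - x‖ := norm_add_le _ _
        _ < M + 1 := by
          have : ‖y - x‖ < ρ := by simpa [dist_eq_norm] using hyx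
          linarith
    exact mem_ball_zero_iff.2 h6
  have h5 : ∫ y in ball (0 : Vec d) (M + 1), F y ≤
      d * ((volume (ball (0 : Vec d) (M + 2))).toReal * (2 * K) / (N : ℝ) ^ 2) := by
    rw [hF, integral_finset_sum _ fun j _ => sd_int hc _ _ _]
    have h6 : ∀ j ∈ (Finset.univ : Finset (Fin d)),
        ∫ y in ball (0 : Vec d) (M + 1), sd L ((1 / (N : ℝ)) • ej j) y ≤
        (volume (ball (0 : Vec d) (M + 2))).toReal * (2 * K) / (N : ℝ) ^ 2 := by
      intro j _
      have h7 := mass_le hL hc hK (M + 1) hN j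
      have e : M + 1 + 1 = M + 2 := by ring
      rwa [e] at h7
    refine (Finset.sum_le_sum h6).trans (le_of_eq ?_)
    rw [Finset.sum_const, Finset.card_univ, Fintype.card_fin, nsmul_eq_mul]
  rw [h3] at h2
  linarith

/-- The constant of the covering. -/
noncomputable def Cc (d : ℕ) (K M p : ℝ) : ℝ :=
  4 * d * |K| * (volume (ball (0 : Vec d) (M + 2))).toReal * (2 * d : ℝ) ^ ((d : ℝ) + p) /
    (volume (ball (0 : Vec d) 1)).toReal

lemma Cc_nonneg (d : ℕ) (K M p : ℝ) : 0 ≤ Cc d K M p := by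
  unfold Cc
  positivity

/-- The number of separated points with a second difference at least `(1 / (2 d N)) ^ p`. -/
lemma pack_card (hd : 0 < d) {L : Vec d → ℝ} (hL : ConvexOn ℝ univ L) (hc : Continuous L) {K : ℝ}
    (hK : ∀ x y, |L x - L y| ≤ K * ‖x - y‖) {M p : ℝ} {N : ℕ}
    (hN : 0 < N) (P : Finset (Vec d))
    (hP : ∀ x ∈ P, x ∈ Ek L ((1 / (2 * d * N)) ^ p) N ∧ ‖x‖ ≤ M)
    (hsep : ∀ x ∈ P, ∀ y ∈ P, x ≠ y → 1 / (d * N) ≤ dist x y) :
    (P.card : ℝ) ≤ Cc d K M p * (N : ℝ) ^ ((d : ℝ) - 2 + p) := by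
  have hd' : (0 : ℝ) < d := by exact_mod_cast hd
  have hN' : (0 : ℝ) < N := by exact_mod_cast hN
  have hρ0 : (0 : ℝ) < 1 / (2 * d * N) := by positivity
  have h1 := pack hd hL hc hK (Real.rpow_nonneg hρ0.le p) hN P hP hsep
  have hv : (volume (ball (0 : Vec d) (1 / (2 * d * N)))).toReal =
      (1 / (2 * d * N) : ℝ) ^ (d : ℝ) * (volume (ball (0 : Vec d) 1)).toReal := by
    rw [Measure.addHaar_ball_of_pos _ _ hρ0, ENNReal.toReal_mul,
      ENNReal.toReal_ofReal (by positivity), finrank_euclideanSpace, Fintype.card_fin,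
      Real.rpow_natCast]
  have hv1 : 0 < (volume (ball (0 : Vec d) 1)).toReal :=
    ENNReal.toReal_pos (measure_ball_pos _ _ one_pos).ne' measure_ball_lt_top.ne
  rw [hv] at h1
  have hpow : (1 / (2 * d * N) : ℝ) ^ (d : ℝ) * (1 / (2 * d * N) : ℝ) ^ p =
      1 / ((2 * d : ℝ) ^ ((d : ℝ) + p) * (N : ℝ) ^ ((d : ℝ) + p)) := by
    rw [← Real.rpow_add hρ0, Real.div_rpow zero_le_one (by positivity), Real.one_rpow,
      Real.mul_rpow (by positivity) hN'.le]
  have hN2 : (N : ℝ) ^ ((d : ℝ) - 2 + p) = (N : ℝ) ^ ((d : ℝ) + p) / (N : ℝ) ^ 2 := by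
    rw [show (d : ℝ) - 2 + p = (d : ℝ) + p - (2 : ℕ) by push_cast; ring,
      Real.rpow_sub_natCast hN'.ne']
  have h2 : (P.card : ℝ) * ((volume (ball (0 : Vec d) 1)).toReal *
      (1 / ((2 * d : ℝ) ^ ((d : ℝ) + p) * (N : ℝ) ^ ((d : ℝ) + p)))) ≤
      2 * (d * ((volume (ball (0 : Vec d) (M + 2))).toReal * (2 * |K|) / (N : ℝ) ^ 2)) := by
    rw [← hpow]
    have e : (P.card : ℝ) * ((volume (ball (0 : Vec d) 1)).toReal *
        ((1 / (2 * d * N) : ℝ) ^ (d : ℝ) * (1 / (2 * d * N) : ℝ) ^ p)) =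
        (P.card : ℝ) * ((1 / (2 * d * N) : ℝ) ^ (d : ℝ) * (volume (ball (0 : Vec d) 1)).toReal *
          (1 / (2 * d * N) : ℝ) ^ p) := by ring
    rw [e]
    refine h1.trans ?_
    have := le_abs_self K
    gcongr
  have hX : 0 < (2 * d : ℝ) ^ ((d : ℝ) + p) := by positivity
  have hY : 0 < (N : ℝ) ^ ((d : ℝ) + p) := by positivity
  have h3 : (P.card : ℝ) ≤ (2 * (d * ((volume (ball (0 : Vec d) (M + 2))).toReal * (2 * |K|) /
      (N : ℝ) ^ 2))) / ((volume (ball (0 : Vec d) 1)).toReal *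
      (1 / ((2 * d : ℝ) ^ ((d : ℝ) + p) * (N : ℝ) ^ ((d : ℝ) + p)))) := by
    rw [le_div_iff₀ (by positivity)]
    exact h2
  refine h3.trans (le_of_eq ?_)
  rw [hN2]
  unfold Cc
  field_simp
  ring

/-- A finite set of centres. -/
lemma cover (hd : 0 < d) {L : Vec d → ℝ} (hL : ConvexOn ℝ univ L) (hc : Continuous L) {K : ℝ}
    (hK : ∀ x y, |L x - L y| ≤ K * ‖x - y‖) (M p : ℝ) {N : ℕ} (hN : 0 < N) :
    ∃ P : Finset (Vec d), (P.card : ℝ) ≤ Cc d K M p * (N : ℝ) ^ ((d : ℝ) - 2 + p) ∧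
      Ek L ((1 / (2 * d * N)) ^ p) N ∩ closedBall 0 M ⊆ ⋃ x ∈ P, closedBall x (1 / (d * N)) := by
  classical
  by_contra hcon
  push Not at hcon
  have key : ∀ m : ℕ, ∃ P : Finset (Vec d), P.card = m ∧
      (∀ x ∈ P, x ∈ Ek L ((1 / (2 * d * N)) ^ p) N ∧ ‖x‖ ≤ M) ∧
      (∀ x ∈ P, ∀ y ∈ P, x ≠ y → 1 / (d * N) ≤ dist x y) := by
    intro m
    induction m with
    | zero => exact ⟨∅, by simp, by simp, by simp⟩
    | succ m ih =>
      obtain ⟨P, h1, h2, h3⟩ := ih
      have h4 := hcon P (pack_card hd hL hc hK hN P h2 h3)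
      obtain ⟨y, hy1, hy2⟩ := Set.not_subset.1 h4
      simp only [mem_iUnion, mem_closedBall, exists_prop, not_exists, not_and, not_le] at hy2
      have hyP : y ∉ P := by
        intro hy
        have := hy2 y hy
        rw [dist_self] at this
        have h0 : (0 : ℝ) ≤ 1 / (d * N) := by positivity
        linarith
      refine ⟨insert y P, by rw [Finset.card_insert_of_notMem hyP, h1], ?_, ?_⟩
      · intro x hx
        rcases Finset.mem_insert.1 hx with rfl | hx
        · exact ⟨hy1.1, mem_closedBall_zero_iff.1 hy1.2⟩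
        · exact h2 x hx
      · intro x hx z hz hxz
        rcases Finset.mem_insert.1 hx with hx1 | hx1
        · rcases Finset.mem_insert.1 hz with hz1 | hz1
          · exact absurd (hx1.trans hz1.symm) hxz
          · rw [hx1]
            exact (hy2 z hz1).le
        · rcases Finset.mem_insert.1 hz with hz1 | hz1
          · rw [hz1, dist_comm]
            exact (hy2 x hx1).le
          · exact h3 x hx1 z hz1 hxz
  obtain ⟨m, hm⟩ := exists_nat_gt (Cc d K M p * (N : ℝ) ^ ((d : ℝ) - 2 + p))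
  obtain ⟨P, h1, h2, h3⟩ := key m
  have h4 := pack_card hd hL hc hK hN P h2 h3
  rw [h1] at h4
  linarith

end Pool.Agent.W_7d29a1_V.DimP33
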