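import Pool.Agent.W_7d29a1_V.Line70
import Pool.Agent.W_7d29a1_V.DimF33

/-!
**The exceptional tilts on a line**: on every line of tilts the fluctuation exponent is at most
`a / 2` outside of a set of Hausdorff dimension `2 / a - 2`.
-/

namespace Pool.Agent.W_7d29a1_V

open MeasureTheory ProbabilityTheory Filter Topology Set Pool.Agent.W_MP_7d29a1_pr
  Pool.Agent.W_7d29a1_h46 Pool.Agent.W_7d29a1_h46u Pool.Agent.W_7d29a1_D2
open scoped ENNReal NNReal

namespace DimL33

/-- The line as the space of dimension one. -/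
noncomputable def io (r : ℝ) : Vec 1 := EuclideanSpace.single 0 r

lemma io_apply (r : ℝ) : io r 0 = r := by simp [io]

lemma norm_one (x : Vec 1) : ‖x‖ = |x 0| := by
  rw [EuclideanSpace.norm_eq]
  simp [Real.sqrt_sq_eq_abs]

lemma inner_one (v x : Vec 1) : inner ℝ v x = v 0 * x 0 := by
  rw [PiLp.inner_apply]
  simp [mul_comm]

lemma io_iso : Isometry io := by
  refine Isometry.of_dist_eq fun a b => ?_
  rw [dist_eq_norm, norm_one, Real.dist_eq, PiLp.sub_apply, io_apply, io_apply]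

/-- **One variable**: a convex Lipschitz function on the line has an upper bound of order `p` and a
slope outside of a set of dimension `p - 1`. -/
theorem dim_line {f : ℝ → ℝ} (hf : ConvexOn ℝ univ f) {K : ℝ}
    (hK : ∀ x y, |f x - f y| ≤ K * |x - y|) {p : ℝ} (hp : 1 < p) :
    dimH {r : ℝ | ¬ ∃ s : ℝ, (∀ t, f r + s * t ≤ f (r + t)) ∧
      ∃ C δ : ℝ, 0 < δ ∧ ∀ t : ℝ, |t| ≤ δ → f (r + t) - f r - s * t ≤ C * |t| ^ p} ≤
      ENNReal.ofReal (p - 1) := by
  obtain ⟨L, hL⟩ : ∃ L : Vec 1 → ℝ, L = fun x => f (x 0) := ⟨_, rfl⟩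
  have hL1 : ConvexOn ℝ univ L := by
    refine ⟨convex_univ, fun x _ y _ a b ha hb hab => ?_⟩
    have h := hf.2 (mem_univ (x 0)) (mem_univ (y 0)) ha hb hab
    rw [hL]
    simpa using h
  have hL2 : ∀ x y, |L x - L y| ≤ K * ‖x - y‖ := by
    intro x y
    rw [hL, norm_one, PiLp.sub_apply]
    exact hK _ _
  have key := DimP33.dimP33 one_pos hL1 hL2 hp
  have h1 : ((1 : ℕ) : ℝ) - 2 + p = p - 1 := by
    push_cast
    ring
  rw [h1] at key
  refine le_trans ?_ key
  rw [← io_iso.dimH_image]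
  refine dimH_mono ?_
  rintro _ ⟨r, hr, rfl⟩ ⟨v, hv, C, δ, hδ, hU⟩
  refine hr ⟨v 0, fun t => ?_, C, δ, hδ, fun t ht => ?_⟩
  · have h2 := hv (io (r + t))
    rw [hL, inner_one, PiLp.sub_apply] at h2
    simp only [io_apply, add_sub_cancel_left] at h2
    exact h2
  · have h2 := hU (io t) (by rw [norm_one, io_apply]; exact ht)
    rw [gap, hL, inner_one, norm_one] at h2
    simp only [io_apply, PiLp.add_apply] at h2
    exact h2

end DimL33

section
variable {d : ℕ} {Ω : Type*} [MeasurableSpace Ω] {μ : Measure Ω} [IsProbabilityMeasure μ]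
  {ρ : Measure ℝ} [IsProbabilityMeasure ρ] {ω : ℕ × Site d → Ω → ℝ} {β : ℝ}

/-- **The exceptional tilts on a line, every dimension.** -/
theorem line_dim (hd : 0 < d) (hω : IID μ ρ ω) (hρ : EM ρ) {h0 u : Vec d} (hu : u ≠ 0) {a : ℝ}
    (ha : 0 < a) (ha1 : a < 1) :
    dimH {r : ℝ | ¬ chiF μ β ω (h0 + r • u) ≤ a / 2} ≤ ENNReal.ofReal (2 / a - 2) := by
  obtain ⟨p, hp⟩ : ∃ p : ℝ, p = 2 / a - 1 := ⟨_, rfl⟩
  have h2a : 2 < 2 / a := by
    rw [lt_div_iff₀ ha]
    linarith
  have hp1 : 1 < p := by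
    rw [hp]
    linarith
  have hpa : 1 / (p + 1) = a / 2 := by
    rw [hp]
    field_simp
    ring
  obtain ⟨f, hf⟩ : ∃ f : ℝ → ℝ, f = fun r => lam ρ β (h0 + r • u) := ⟨_, rfl⟩
  have hf1 : ConvexOn ℝ univ f := by
    refine ⟨convex_univ, fun x _ y _ a b ha hb hab => ?_⟩
    have h := (lam_convex hd hρ β).2 (mem_univ (h0 + x • u)) (mem_univ (h0 + y • u)) ha hb hab
    rw [hf]
    refine le_trans (le_of_eq ?_) h
    show lam ρ β (h0 + (a • x + b • y) • u) = _
    congr 1
    rw [smul_add, smul_add, smul_smul, smul_smul, add_add_add_comm, ← add_smul, hab, one_smul,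
      ← add_smul, smul_eq_mul, smul_eq_mul]
  have hf2 : ∀ x y, |f x - f y| ≤ ‖u‖ * |x - y| := by
    intro x y
    have h := lam_lip33 hd hρ β (h0 + x • u) (h0 + y • u)
    rw [hf]
    rw [add_sub_add_left_eq_sub, ← sub_smul, norm_smul, Real.norm_eq_abs, one_mul, mul_comm] at h
    exact h
  have key := DimL33.dim_line hf1 hf2 hp1
  have h1 : p - 1 = 2 / a - 2 := by
    rw [hp]
    ring
  rw [h1] at key
  refine le_trans (dimH_mono ?_) key
  intro r hr hr2
  obtain ⟨s, hs, C, δ, hδ, hU⟩ := hr2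
  refine hr ?_
  rw [← hpa]
  have e : ∀ t : ℝ, h0 + r • u + t • u = h0 + (r + t) • u := by
    intro t
    rw [add_smul, add_assoc]
  refine line_pow hd hω hρ hu (s := s) hp1 (fun t => ?_) ⟨C, δ, hδ, fun t ht => ?_⟩
  · rw [e]
    have := hs t
    rw [hf] at this
    exact this
  · rw [e]
    have := hU t ht
    rw [hf] at this
    exact this

end

end Pool.Agent.W_7d29a1_V
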