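import Pool.Agent.W_7d29a1_h46u.LawU

/-!
Two finite measures on the environments which agree on all blocks of rows are equal.
-/

namespace Pool.Agent.W_7d29a1_V.Ext63

open MeasureTheory Pool.Agent.W_MP_7d29a1_pr Pool.Agent.W_7d29a1_h46u

variable {d : ℕ}

/-- The restriction of an environment to the rows `< N`. -/
def rb (N : ℕ) (η : Env d) : {p : ℕ × Site d // p.1 < N} → ℝ := fun p => η p.1

lemma measurable_rb (N : ℕ) : Measurable (rb N : Env d → _) :=
  measurable_pi_lambda _ fun p => measurable_pi_apply _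

theorem ext_rows {μ ν : Measure (Env d)} [IsFiniteMeasure μ]
    (H : ∀ N : ℕ, μ.map (rb N) = ν.map (rb N)) : μ = ν := by
  have hμ : IsProjectiveLimit μ (fun I : Finset (ℕ × Site d) => μ.map I.restrict) := fun I => rfl
  have hν : IsProjectiveLimit ν (fun I : Finset (ℕ × Site d) => μ.map I.restrict) := by
    intro I
    obtain ⟨N, hN⟩ : ∃ N : ℕ, ∀ p ∈ I, p.1 < N :=
      ⟨I.sup Prod.fst + 1, fun p hp => Nat.lt_succ_of_le (Finset.le_sup (f := Prod.fst) hp)⟩
    let g : ({p : ℕ × Site d // p.1 < N} → ℝ) → ((i : I) → ℝ) := fun f i => f ⟨i.1, hN i.1 i.2⟩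
    have hg : Measurable g := measurable_pi_lambda _ fun i => measurable_pi_apply _
    have h1 : (I.restrict : Env d → ((i : I) → ℝ)) = g ∘ rb N := rfl
    change ν.map I.restrict = μ.map I.restrict
    rw [h1, ← Measure.map_map hg (measurable_rb N), ← Measure.map_map hg (measurable_rb N), H N]
  have : ∀ I : Finset (ℕ × Site d), IsFiniteMeasure (μ.map (I.restrict : Env d → ((i : I) → ℝ))) :=
    fun I => inferInstance
  exact hμ.unique hν

/-- The same with events: it is enough that the probabilities of all events of the first `N` rows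
agree. -/
theorem ext_rows' {μ ν : Measure (Env d)} [IsFiniteMeasure μ]
    (H : ∀ (N : ℕ) (s : Set ({p : ℕ × Site d // p.1 < N} → ℝ)), MeasurableSet s →
      μ (rb N ⁻¹' s) = ν (rb N ⁻¹' s)) : μ = ν := by
  refine ext_rows fun N => Measure.ext fun s hs => ?_
  rw [Measure.map_apply (measurable_rb N) hs, Measure.map_apply (measurable_rb N) hs, H N s hs]

end Pool.Agent.W_7d29a1_V.Ext63
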