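import Pool.Agent.W_7d29a1_D2.ChiF80
import Pool.Agent.W_7d29a1_h46.VarL

/-!
The inequality `1 ≤ d ν + 2 χ` at every tilt and every direction.
-/

namespace Pool.Agent.W_7d29a1_V.NP63

open MeasureTheory ProbabilityTheory Filter Pool.Agent.W_MP_7d29a1_pr Pool.Agent.W_7d29a1_h46
  Pool.Agent.W_7d29a1_h46u Pool.Agent.W_7d29a1_D2

variable {d : ℕ} {Ω : Type*} [MeasurableSpace Ω] {μ : Measure Ω} [IsProbabilityMeasure μ]
  {ρ : Measure ℝ} [IsProbabilityMeasure ρ] {ω : ℕ × Site d → Ω → ℝ} {β : ℝ}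

/-- `1 ≤ d ν(h, v) + 2 χ(h)`, with the fluctuation exponent `χ(h)` of the variance. -/
theorem npT (hd : 0 < d) (hω : IID μ ρ ω) (hnc : ∀ c : ℝ, ρ {c} ≠ 1) (hρ : EM ρ) (hβ : 0 < β)
    (h v : Vec d) : 1 ≤ d * nuT μ β ω h v + 2 * chiT μ β ω h := by
  by_contra hcon
  push Not at hcon
  have h0 : 0 ≤ nuT μ β ω h v := Real.sInf_nonneg fun b hb => hb.1.le
  have hd0 : (0 : ℝ) < d := by exact_mod_cast hd
  have h1 : 0 ≤ chiT μ β ω h := Real.sSup_nonneg fun b hb => hb.1.le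
  set δ : ℝ := 1 - (d * nuT μ β ω h v + 2 * chiT μ β ω h) with hδ
  have hδ0 : 0 < δ := by linarith
  set a : ℝ := nuT μ β ω h v + δ / (2 * d) with ha
  have hq : 0 < δ / (2 * d) := by positivity
  have had : a * d = d * nuT μ β ω h v + δ / 2 := by
    rw [ha]
    field_simp
  have h2 := chi_ge (v := v) hd hω hnc hβ hρ (a := a) (by linarith) (by linarith) (by linarith)
  linarith

/-- `1 ≤ d ν(h, v) + 2 χ#(h)`, with the fluctuation exponent `χ#(h)` of all moments. -/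
theorem npV (hd : 0 < d) (hω : IID μ ρ ω) (hnc : ∀ c : ℝ, ρ {c} ≠ 1) (hρ : EM ρ) (hβ : 0 < β)
    (h v : Vec d) : 1 ≤ d * nuT μ β ω h v + 2 * chiF μ β ω h := by
  have h1 := npT hd hω hnc hρ hβ h v
  have h2 := chiT_le_chiF80 (β := β) hd hω hρ h
  linarith

end Pool.Agent.W_7d29a1_V.NP63
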