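import Pool.Agent.W_7d29a1_V.P20d
import Pool.Agent.W_7d29a1_q.NuF
import Pool.Agent.W_7d29a1_q.NuM

/-!
The growth of the free energy at the tilt `0`, in all directions and at all small scales, and the
lower bound of the point to point probabilities.
-/

namespace Pool.Agent.W_7d29a1_V.P20

open MeasureTheory ProbabilityTheory Filter Topology Pool.Agent.W_MP_7d29a1_pr
  Pool.Agent.W_7d29a1_h46 Pool.Agent.W_7d29a1_h46u Pool.Agent.W_7d29a1_D2
  Pool.Agent.W_7d29a1_V Pool.Agent.W_7d29a1_h3 Pool.Agent.W_7d29a1_q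

variable {d : ℕ} {ρ : Measure ℝ} [IsProbabilityMeasure ρ]

lemma axis20 (β t : ℝ) (j j' : Fin d) :
    lam ρ β (t • ej j) = lam ρ β (t • ej j') := by
  obtain ⟨τ, e, h⟩ := tl_act t j j' true true
  have h1 := lam_act (ρ := ρ) (β := β) τ e (tl t j true)
  rw [h] at h1
  simp only [tl, if_true] at h1
  exact h1.symm

lemma neg20 (β t : ℝ) (j : Fin d) :
    lam ρ β ((-t) • ej j) = lam ρ β (t • ej j) := by
  obtain ⟨τ, e, h⟩ := tl_act t j j true false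
  have h1 := lam_act (ρ := ρ) (β := β) τ e (tl t j true)
  rw [h] at h1
  simp only [tl, if_true, Bool.false_eq_true, if_false] at h1
  exact h1

lemma mono20 (hρ : EM ρ) (β : ℝ) {s t : ℝ} (hs : 0 ≤ s) (hst : s ≤ t) (j : Fin d) :
    lam ρ β (s • ej j) ≤ lam ρ β (t • ej j) := by
  rcases eq_or_lt_of_le (hs.trans hst) with ht | ht
  · have h1 : s = t := le_antisymm hst (by linarith)
    rw [h1]
  have h1 := (lam_convex (ρ := ρ) (Fin.pos j) hρ β).2 (Set.mem_univ (0 : Vec d))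
    (Set.mem_univ (t • ej j)) (show (0 : ℝ) ≤ 1 - s / t by
      rw [sub_nonneg, div_le_one ht]
      exact hst) (show (0 : ℝ) ≤ s / t by positivity) (by ring)
  simp only [smul_zero, zero_add, smul_smul, smul_eq_mul] at h1
  rw [div_mul_cancel₀ s ht.ne'] at h1
  have h2 := lam_ge j hρ β (t • ej j)
  have h3 : s / t ≤ 1 := (div_le_one ht).2 hst
  have h4 : 0 ≤ s / t := by positivity
  nlinarith

/-- Every tilt is below the axes. -/
lemma below20 (hρ : EM ρ) (β : ℝ) (r : Vec d) (j : Fin d) :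
    lam ρ β r ≤ lam ρ β (((d : ℝ) * ‖r‖) • ej j) := by
  have hd : (0 : ℝ) < d := by exact_mod_cast Fin.pos j
  have h1 := (lam_convex (ρ := ρ) (Fin.pos j) hρ β).map_sum_le (t := (Finset.univ : Finset (Fin d)))
    (w := fun _ => (1 : ℝ) / d) (p := fun i => ((d : ℝ) * r i) • ej i) (fun i _ => by positivity)
    (by
      rw [Finset.sum_const, Finset.card_univ, Fintype.card_fin, nsmul_eq_mul]
      field_simp) (fun i _ => Set.mem_univ _)
  have h2 : ∑ i : Fin d, (1 / (d : ℝ)) • (((d : ℝ) * r i) • ej i) = r := by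
    have h3 : ∀ i : Fin d, (1 / (d : ℝ)) • (((d : ℝ) * r i) • (ej i : Vec d)) = (r i) • ej i := by
      intro i
      rw [smul_smul]
      congr 1
      field_simp
    rw [Finset.sum_congr rfl fun i _ => h3 i]
    ext k
    rw [WithLp.ofLp_sum, Finset.sum_apply, Finset.sum_eq_single k]
    · simp [ej]
    · intro i _ hik
      simp [ej, Ne.symm hik]
    · intro hk
      exact absurd (Finset.mem_univ k) hk
  rw [h2] at h1
  refine h1.trans ?_
  have h3 : ∀ i ∈ (Finset.univ : Finset (Fin d)), (1 / (d : ℝ)) • lam ρ β (((d : ℝ) * r i) • ej i) ≤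
      1 / (d : ℝ) * lam ρ β (((d : ℝ) * ‖r‖) • ej j) := by
    intro i _
    rw [smul_eq_mul]
    refine mul_le_mul_of_nonneg_left ?_ (by positivity)
    have h4 : |r i| ≤ ‖r‖ := by
      have := PiLp.norm_apply_le r i
      rwa [Real.norm_eq_abs] at this
    have h5 : lam ρ β (((d : ℝ) * r i) • ej i) = lam ρ β (((d : ℝ) * |r i|) • ej i) := by
      rcases abs_cases (r i) with ⟨h6, -⟩ | ⟨h6, -⟩
      · rw [h6]
      · rw [h6, mul_neg, neg20]
    rw [h5, axis20 β _ i j]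
    exact mono20 hρ β (by positivity) (mul_le_mul_of_nonneg_left h4 hd.le) j
  refine (Finset.sum_le_sum h3).trans (le_of_eq ?_)
  rw [Finset.sum_const, Finset.card_univ, Fintype.card_fin, nsmul_eq_mul]
  field_simp

/-- **The power law along the axes, with the exponent `2 d + 1 + ε`.** -/
theorem pl20 (j0 : Fin d) (hnc : ∀ c : ℝ, ρ {c} ≠ 1) (hρ : EM ρ) {β : ℝ} (hβ : 0 < β)
    (hS : SpaceV d ρ β 1) {ε : ℝ} (hε : 0 < ε) :
    ∃ c : ℝ, 0 < c ∧ PL d ρ β (2 * (d : ℝ) + 1 + ε) c := by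
  have hd : 0 < d := Fin.pos j0
  have hd1 : (1 : ℝ) ≤ d := by exact_mod_cast hd
  have hS0 : SpaceV d ρ β (‖(0 : Vec d)‖ + 1) := by
    rw [norm_zero, zero_add]
    exact hS
  obtain ⟨s₀, hs₀, H⟩ := one_scale20 hd hnc hρ hβ (h := 0) (v := 0) hS0 (fun k => by
    rw [inner_zero_left, add_zero, zero_add]
    exact lam_ge j0 hρ β k) hε
  obtain ⟨K, hK⟩ : ∃ K : ℝ, K = 2 * (d : ℝ) + 1 + ε := ⟨_, rfl⟩
  have hK0 : 0 < K := by
    rw [hK]
    linarith
  rw [← hK] at H ⊢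
  obtain ⟨s₁, hs₁⟩ : ∃ s₁ : ℝ, s₁ = min s₀ 1 := ⟨_, rfl⟩
  have hs₁0 : 0 < s₁ := by
    rw [hs₁]
    exact lt_min hs₀ one_pos
  have hs₁1 : s₁ ≤ 1 := by
    rw [hs₁]
    exact min_le_right _ _
  have hs₁2 : s₁ ≤ s₀ := by
    rw [hs₁]
    exact min_le_left _ _
  have key : ∀ s : ℝ, 0 < s → s ≤ s₁ → ∀ j : Fin d,
      lam ρ β (0 : Vec d) + s ^ K ≤ lam ρ β (((d : ℝ) * s) • ej j) := by
    intro s hs hss j
    obtain ⟨r, hr, hg⟩ := H s hs (hss.trans hs₁2)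
    have h1 : gap (lam ρ β) (0 : Vec d) 0 r = lam ρ β r - lam ρ β (0 : Vec d) := by
      unfold gap
      rw [inner_zero_left, zero_add, sub_zero]
    rw [h1] at hg
    have h2 := below20 hρ β r j
    have h3 := mono20 (ρ := ρ) hρ β (s := (d : ℝ) * ‖r‖) (t := (d : ℝ) * s) (by positivity)
      (mul_le_mul_of_nonneg_left hr (by linarith)) j
    linarith
  refine ⟨(s₁ / d) ^ K, by positivity, fun j t ht ht1 => ?_⟩
  -- the scale `s = s₁ t / d`
  have h1 := key (s₁ * t / d) (by positivity) (by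
    rw [div_le_iff₀ (by linarith)]
    nlinarith) j
  have h2 : (s₁ * t / d) ^ K = (s₁ / d) ^ K * t ^ K := by
    rw [← Real.mul_rpow (by positivity) ht.le]
    congr 1
    ring
  rw [h2] at h1
  refine h1.trans ?_
  have h3 : (d : ℝ) * (s₁ * t / d) = s₁ * t := by
    field_simp
  rw [h3]
  exact mono20 hρ β (by positivity) (by nlinarith) j

/-- **The growth of the free energy at the tilt `0`**, in all directions. -/
theorem lam_pow20 (j0 : Fin d) (hnc : ∀ c : ℝ, ρ {c} ≠ 1) (hρ : EM ρ) {β : ℝ} (hβ : 0 < β)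
    (hS : SpaceV d ρ β 1) {ε : ℝ} (hε : 0 < ε) :
    ∃ c : ℝ, 0 < c ∧ ∀ h : Vec d, ‖h‖ ≤ 1 →
      lam ρ β (0 : Vec d) + c * ‖h‖ ^ (2 * (d : ℝ) + 1 + ε) ≤ lam ρ β h := by
  obtain ⟨c, hc, hp⟩ := pl20 j0 hnc hρ hβ hS hε
  exact pow_of_PL j0 hρ β (by positivity) hc hp

/-- **Point to point**: `P_n (S_n = y) ≥ exp (- C δ ^ (1 + 1 / (2 d) - ε) n)` for all reachable `y`
with `|y|_1 ≤ δ n`. -/
theorem point20 (j0 : Fin d) (hnc : ∀ c : ℝ, ρ {c} ≠ 1) (hρ : EM ρ) {β : ℝ} (hβ : 0 < β)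
    (hS : SpaceV d ρ β 1) {ε : ℝ} (hε : 0 < ε) :
    ∃ C δ0 : ℝ, 0 < C ∧ 0 < δ0 ∧ ∀ δ : ℝ, 0 < δ → δ ≤ δ0 → ∀ᵐ η ∂(law d ρ), ∀ᶠ n : ℕ in atTop,
      ∀ y : Site d, adm n y → (ln y : ℝ) ≤ δ * n →
        Real.exp (-(C * δ ^ (1 + 1 / (2 * (d : ℝ)) - ε) * n)) ≤
          Pol β η n {s : Fin n → Step d | pos s n = y} := by
  have hd1 : (1 : ℝ) ≤ d := by exact_mod_cast Fin.pos j0
  obtain ⟨c, hc, hp⟩ := pl20 j0 hnc hρ hβ hS (show 0 < ε by exact hε)
  obtain ⟨C, δ0, hC, hδ0, H⟩ := pol_point_pow j0 hρ (by linarith : 1 < 2 * (d : ℝ) + 1 + ε) hc hp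
  refine ⟨C, min δ0 1, hC, lt_min hδ0 one_pos, fun δ hδ hδδ => ?_⟩
  filter_upwards [H δ hδ (hδδ.trans (min_le_left _ _))] with η hη
  filter_upwards [hη] with n hn y hy hly
  refine le_trans (Real.exp_le_exp.2 ?_) (hn y hy hly)
  have hexp : 1 + 1 / (2 * (d : ℝ)) - ε ≤
      (2 * (d : ℝ) + 1 + ε) / ((2 * (d : ℝ) + 1 + ε) - 1) := by
    have h1 : (2 * (d : ℝ) + 1 + ε) / ((2 * (d : ℝ) + 1 + ε) - 1) = 1 + 1 / (2 * (d : ℝ) + ε) := by
      have h2 : (2 * (d : ℝ) + 1 + ε) - 1 = 2 * (d : ℝ) + ε := by ring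
      have h3 : 2 * (d : ℝ) + ε ≠ 0 := by positivity
      rw [h2]
      field_simp
      ring
    rw [h1]
    have h2 : 1 / (2 * (d : ℝ)) - 1 / (2 * (d : ℝ) + ε) = ε / (2 * (d : ℝ) * (2 * (d : ℝ) + ε)) := by
      field_simp
      ring
    have h3 : ε / (2 * (d : ℝ) * (2 * (d : ℝ) + ε)) ≤ ε := by
      refine div_le_self hε.le ?_
      nlinarith
    linarith
  have h1 : δ ^ ((2 * (d : ℝ) + 1 + ε) / ((2 * (d : ℝ) + 1 + ε) - 1)) ≤
      δ ^ (1 + 1 / (2 * (d : ℝ)) - ε) :=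
    Real.rpow_le_rpow_of_exponent_ge hδ (hδδ.trans (min_le_right _ _)) hexp
  have h2 := mul_le_mul_of_nonneg_right (mul_le_mul_of_nonneg_left h1 hC.le)
    (Nat.cast_nonneg (α := ℝ) n)
  linarith

end Pool.Agent.W_7d29a1_V.P20
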