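import Pool.Agent.W_7d29a1_V.Up46
import Pool.Agent.W_7d29a1_V.LoA46
import Pool.Agent.W_7d29a1_V.P20e

/-!
The growth of the free energy and the scaling exponents in every dimension: the final theorem.
-/

namespace Pool.Agent.W_7d29a1_V

open MeasureTheory ProbabilityTheory Filter Topology Pool.Agent.W_MP_7d29a1_pr
  Pool.Agent.W_7d29a1_h46 Pool.Agent.W_7d29a1_h46u Pool.Agent.W_7d29a1_D2

/-- **The relation between the exponents and the growth of the free energy, in every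
dimension.** -/
theorem finalG {d : ℕ} (hd : 1 ≤ d) {Ω : Type*} [MeasurableSpace Ω] (μ : Measure Ω)
    [IsProbabilityMeasure μ] (ω : ℕ × Site d → Ω → ℝ) (hmeas : ∀ p, Measurable (ω p))
    (hindep : iIndepFun ω μ) (hident : ∀ p q, IdentDistrib (ω p) (ω q) μ μ)
    (hnc : ∀ p, ¬ ∃ c : ℝ, ∀ᵐ x ∂μ, ω p x = c)
    (hexp : ∀ (b : ℝ) p, Integrable (fun x => Real.exp (b * ω p x)) μ) {β : ℝ} (hβ : 0 < β) :
    ∃ L : Vec d → ℝ,
      -- the free energy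
      (∀ h, ∀ᵐ x ∂μ, Tendsto (fun n : ℕ =>
        Real.log (W_7d29a1_q.polMGF β h (fun p => ω p x) n) / n) atTop (𝓝 (L h))) ∧
      -- the exponents
      (nuT μ β ω 0 0 = nu μ β ω) ∧
      (∀ h v : Vec d, nuT μ β ω h v ≤ nuS μ β ω h v ∧ chiT μ β ω h ≤ chiF μ β ω h ∧
        chiF μ β ω h ≤ chiS μ β ω h ∧ chiS μ β ω h ≤ 1 / 2) ∧
      -- every tilt `h`, every direction `v`, every power `p`
      (∀ (h v : Vec d) (p : ℝ), 1 ≤ p →
        (UpG L h v p → p * nuS μ β ω h v ≤ 1 + (p - 1) * chiS μ β ω h) ∧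
        (LoG L h v p → (1 + (p - 1) * chiS μ β ω h) * chiT μ β ω h ≤
          p * nuS μ β ω h v * chiS μ β ω h) ∧
        (LoA L h v p → (1 + (p - 1) * chiS μ β ω h) * chiF μ β ω h ≤
          p * nuS μ β ω h v * chiS μ β ω h)) ∧
      -- the growth exponent is at most `2 d + 1`, at every tilt, every direction, every scale
      (∀ (h v : Vec d) (p : ℝ), 2 * (d : ℝ) + 1 < p → LoA L h v p) ∧
      (∀ h v : Vec d, (1 + 2 * d * chiS μ β ω h) * chiF μ β ω h ≤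
        (2 * d + 1) * nuS μ β ω h v * chiS μ β ω h) ∧
      -- in terms of the growth exponent
      (∀ h v : Vec d, BddAbove {p : ℝ | 1 ≤ p ∧ UpG L h v p} ∧ 1 ≤ gam L h v ∧
        gam L h v ≤ 2 * d + 1 ∧
        gam L h v * nuS μ β ω h v ≤ 1 + (gam L h v - 1) * chiS μ β ω h ∧
        (1 + (gam L h v - 1) * chiS μ β ω h) * chiT μ β ω h ≤
          gam L h v * nuS μ β ω h v * chiS μ β ω h ∧
        (chiT μ β ω h = chiS μ β ω h → 0 < chiS μ β ω h →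
          gam L h v * nuS μ β ω h v = 1 + (gam L h v - 1) * chiS μ β ω h ∧
          (chiS μ β ω h = 2 * nuS μ β ω h v - 1 ↔ gam L h v = 2))) ∧
      -- almost every direction
      (∀ᵐ v : Vec d, ∀ h : Vec d,
        (1 + chiS μ β ω h) * chiF μ β ω h ≤ 2 * nuS μ β ω h v * chiS μ β ω h) ∧
      -- the tilt `0`: the free energy and the point to point probabilities
      (∀ ε : ℝ, 0 < ε → ∃ c : ℝ, 0 < c ∧ ∀ h : Vec d, ‖h‖ ≤ 1 →
        c * ‖h‖ ^ (2 * (d : ℝ) + 1 + ε) ≤ L h) ∧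
      (∀ ε : ℝ, 0 < ε → ∃ C δ0 : ℝ, 0 < C ∧ 0 < δ0 ∧ ∀ δ : ℝ, 0 < δ → δ ≤ δ0 →
        ∀ᵐ x ∂μ, ∀ᶠ n : ℕ in atTop, ∀ y : Site d, l1 y ≤ n → Even (l1 y + n) →
          (l1 y : ℝ) ≤ δ * n → Real.exp (-(C * δ ^ (1 + 1 / (2 * (d : ℝ)) - ε) * n)) ≤
            Pol β (fun p => ω p x) n {s : Fin n → Step d | pos s n = y}) ∧
      -- a dense set of tilts
      (∀ U : Set (Vec d), IsOpen U → U.Nonempty → ∃ h ∈ U, ∃ v : Vec d,
        (∀ k, L h + inner ℝ v k ≤ L (h + k)) ∧ UpG L h v 2 ∧ LoG L h v 2 ∧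
        2 * nuS μ β ω h v - 1 ≤ chiS μ β ω h ∧
        (1 + chiS μ β ω h) * chiT μ β ω h ≤ 2 * nuS μ β ω h v * chiS μ β ω h ∧
        (chiT μ β ω h = chiS μ β ω h → 0 < chiS μ β ω h →
          chiT μ β ω h = 2 * nuS μ β ω h v - 1)) ∧
      -- generic tilts
      (∃ G : Set (Vec d), IsGδ G ∧ Dense G ∧ ∀ h ∈ G, chiF μ β ω h = chiS μ β ω h) := by
  have hd0 : 0 < d := hd
  set p0 : ℕ × Site d := (0, 0) with hp0
  set ρ : Measure ℝ := μ.map (ω p0) with hρdef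
  have : IsProbabilityMeasure ρ := Measure.isProbabilityMeasure_map (hmeas p0).aemeasurable
  have hω : IID μ ρ ω := ⟨hmeas, hindep, fun p => (hident p p0).map_eq⟩
  have hnc' : ∀ c : ℝ, ρ {c} ≠ 1 := by
    intro c hc
    apply hnc p0
    refine ⟨c, ?_⟩
    rw [hρdef, Measure.map_apply (hmeas p0) (measurableSet_singleton c)] at hc
    have h1 : MeasurableSet (ω p0 ⁻¹' {c}) := hmeas p0 (measurableSet_singleton c)
    exact (prob_compl_eq_zero_iff h1).2 hc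
  have hρ : EM ρ := by
    intro b
    rw [hρdef, integrable_map_measure (by fun_prop) (hmeas p0).aemeasurable]
    exact hexp b p0
  have hmp := mp_env hω
  have tr : ∀ {P : (ℕ × Site d → ℝ) → Prop}, (∀ᵐ η ∂(law d ρ), P η) →
      ∀ᵐ x ∂μ, P (fun p => ω p x) := fun hP => hmp.quasiMeasurePreserving.ae hP
  set b0 : ℝ := lam ρ β (0 : Vec d) with hb0
  have hTF := fun h : Vec d => chiT_le_chiF80 (μ := μ) (ω := ω) (β := β) hd0 hω hρ h
  have hFS := fun h : Vec d => expA34_F_le_S (μ := μ) (ω := ω) (β := β) hd0 hω hρ h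
  have hSh := fun h : Vec d => chiS_le_half (μ := μ) (ω := ω) (β := β) hd0 hω hρ h
  have hconv : ConvexOn ℝ Set.univ (lam ρ β : Vec d → ℝ) := lam_convex hd0 hρ β
  have hUp : ∀ (h v : Vec d) (p : ℝ), 1 ≤ p → UpG (lam ρ β) h v p →
      p * nuS μ β ω h v ≤ 1 + (p - 1) * chiS μ β ω h := fun h v p hp hU =>
    nuS_le_pow hd0 hω hρ hp hU
  have hLo : ∀ (h v : Vec d) (p : ℝ), 1 ≤ p → LoG (lam ρ β) h v p →
      (1 + (p - 1) * chiS μ β ω h) * chiT μ β ω h ≤ p * nuS μ β ω h v * chiS μ β ω h :=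
    fun h v p hp hL => K67.expL67 hd0 hω hρ
      (fun a x ha hx hx1 hF hT => S16.core16 hd0 hρ ha hx hx1 hF hT) hp hL
  have hLa : ∀ (h v : Vec d) (p : ℝ), 1 ≤ p → LoA (lam ρ β) h v p →
      (1 + (p - 1) * chiS μ β ω h) * chiF μ β ω h ≤ p * nuS μ β ω h v * chiS μ β ω h :=
    fun h v p hp hL => expA34 hd0 hω hρ
      (fun a x ha hx hx1 hF hT => S16.core16 hd0 hρ ha hx hx1 hF hT) hp hL
  have hbdd := fun h v : Vec d => bdd_gam46 (μ := μ) (ω := ω) hd0 hω hnc' hρ hβ h v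
  have htwo : (2 - 1 : ℝ) = 1 := by norm_num
  refine ⟨fun h => lam ρ β h - b0, fun h => ?_, W_7d29a1_h46.nuT_zero μ β ω, fun h v =>
    ⟨nuT_le_nuS hd0 hω h v, hTF h, hFS h, hSh h⟩, fun h v p hp => ?_, fun h v p hp => ?_,
    fun h v => ?_, fun h v => ?_, ?_, fun ε hε => ?_, fun ε hε => ?_, ?_, ?_⟩
  · filter_upwards [tr (W_7d29a1_h3.ae_X hd0 hρ β h), tr (W_7d29a1_h3.ae_X hd0 hρ β (0 : Vec d))]
      with x hx1 hx2
    refine (hx1.sub hx2).congr fun n => ?_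
    rw [mgf46 hd0, sub_div]
  · rw [UpG_sub, LoG_sub, LoA_sub]
    exact ⟨hUp h v p hp, hLo h v p hp, hLa h v p hp⟩
  · rw [LoA_sub]
    exact loA46 hd0 hnc' hρ hβ h v hp
  · have hdn : (0 : ℝ) ≤ d := Nat.cast_nonneg d
    have h2 : ∀ p : ℝ, 2 * (d : ℝ) + 1 < p → (1 + (p - 1) * chiS μ β ω h) * chiF μ β ω h ≤
        p * nuS μ β ω h v * chiS μ β ω h := fun p hp =>
      hLa h v p (by linarith) (loA46 hd0 hnc' hρ hβ h v hp)
    have hcont : Tendsto (fun p : ℝ => p * nuS μ β ω h v * chiS μ β ω h -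
        (1 + (p - 1) * chiS μ β ω h) * chiF μ β ω h) (𝓝[>] (2 * (d : ℝ) + 1))
        (𝓝 ((2 * (d : ℝ) + 1) * nuS μ β ω h v * chiS μ β ω h -
          (1 + ((2 * (d : ℝ) + 1) - 1) * chiS μ β ω h) * chiF μ β ω h)) := by
      have : Continuous fun p : ℝ => p * nuS μ β ω h v * chiS μ β ω h -
        (1 + (p - 1) * chiS μ β ω h) * chiF μ β ω h := by fun_prop
      exact (this.tendsto (2 * (d : ℝ) + 1)).mono_left nhdsWithin_le_nhds
    have h3 := ge_of_tendsto hcont (b := 0) (by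
      filter_upwards [self_mem_nhdsWithin] with p hp
      have := h2 p hp
      linarith)
    rw [add_sub_cancel_right] at h3
    linarith
  · simp only [UpG_sub, gam_sub]
    obtain ⟨g1, g2, g3, g4⟩ := (gam2 (lip46 hd0 hρ β)
      (chiT_nonneg46 (μ := μ) (ω := ω) (β := β) h) ((hTF h).trans (hFS h)) (hSh h) (hUp h v)
      (hLo h v)).1 ⟨2 * (d : ℝ) + 1, hbdd h v⟩
    exact ⟨⟨2 * (d : ℝ) + 1, hbdd h v⟩, g1, csSup_le (one46 hd0 hρ β h v) (hbdd h v), g2, g3, g4⟩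
  · exact ae_dir hd0 hρ (fun h v hL => hLa h v 2 (by norm_num) hL)
      (fun h v h1 k => sub40 hd0 hω hρ h1 k) hFS hSh
  · obtain ⟨c, hc, H⟩ := P20.lam_pow20 (d := d) ⟨0, hd0⟩ hnc' hρ hβ (spaceV46 hd0 hρ β 1) hε
    refine ⟨c, hc, fun h hh => ?_⟩
    have := H h hh
    show _ ≤ lam ρ β h - b0
    linarith
  · obtain ⟨C, δ0, hC, hδ0, H⟩ := P20.point20 (d := d) ⟨0, hd0⟩ hnc' hρ hβ
      (spaceV46 hd0 hρ β 1) hε
    refine ⟨C, δ0, hC, hδ0, fun δ h1 h2 => ?_⟩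
    filter_upwards [tr (H δ h1 h2)] with x hx
    filter_upwards [hx] with n hn y hy1 hy2 hy3
    exact hn y ⟨hy1, Nat.even_iff.1 hy2⟩ hy3
  · intro U hU hne
    obtain ⟨h, hhU, v, hv1, hv2, hv3⟩ := k2_20 hconv
      (fun U hU hne v c => W_7d29a1_v.not_affine hρ hnc' hβ hd0 hU hne v c) U hU hne
    have e1 := hUp h v 2 (by norm_num) hv1
    have e2 := hLo h v 2 (by norm_num) hv2
    rw [htwo, one_mul] at e1 e2
    have e1' : 2 * nuS μ β ω h v - 1 ≤ chiS μ β ω h := by linarith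
    refine ⟨h, hhU, v, fun k => ?_, (UpG_sub _ _ _ _).2 hv1, (LoG_sub _ _ _ _).2 hv2, e1', e2,
      fun hE h0 => two46 e1' e2 hE h0⟩
    have := hv3 k
    unfold gap at this
    show lam ρ β h - b0 + inner ℝ v k ≤ lam ρ β (h + k) - b0
    linarith
  · exact chiF_dense21 hd0 hω hρ β

end Pool.Agent.W_7d29a1_V
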