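import Pool.Agent.W_7d29a1_V.ConcV16
import Pool.Agent.W_7d29a1_V.Rch48

/-!
Inserting a pair of opposite steps: `aM (t + 2) u` is at least `aM t u` plus the logarithm of the
number of places divided by the largest number of such pairs in a walk.
-/

namespace Pool.Agent.W_7d29a1_V.Ins16

open MeasureTheory ProbabilityTheory Filter Topology Pool.Agent.W_MP_7d29a1_pr
  Pool.Agent.W_7d29a1_h46 Pool.Agent.W_7d29a1_h46u Pool.Agent.W_7d29a1_D2
  Pool.Agent.W_7d29a1_D2.B35 Pool.Agent.W_7d29a1_V Pool.Agent.W_7d29a1_V.ConcV16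
  Pool.Agent.W_7d29a1_V.R48

variable {d : ℕ} {ρ : Measure ℝ} [IsProbabilityMeasure ρ]

/-- The rows `p + 1`, `p + 2` are removed. -/
def del {d : ℕ} (p : ℕ) (η : Env d) : Env d := fun q => η (if q.1 ≤ p then q.1 else q.1 + 2, q.2)

lemma mp_del (p : ℕ) : MeasurePreserving (del p : Env d → Env d) (law d ρ) (law d ρ) := by
  refine LawU_reindex (f := fun q : ℕ × Site d => (if q.1 ≤ p then q.1 else q.1 + 2, q.2)) ?_
  rintro ⟨i, y⟩ ⟨j, z⟩ h
  simp only [Prod.mk.injEq] at h
  refine Prod.ext ?_ h.2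
  have h1 := h.1
  show i = j
  split_ifs at h1 <;> omega

lemma wgt_rows {n : ℕ} (β : ℝ) (h : Vec d) {η η' : Env d} (s : Fin n → Step d)
    (H : ∀ q : ℕ × Site d, 1 ≤ q.1 → q.1 ≤ n → η q = η' q) : wgt β h η s = wgt β h η' s := by
  have h1 : energy η s = energy η' s := by
    unfold energy
    refine Finset.sum_congr rfl fun i _ => H _ ?_ ?_
    · exact Nat.le_add_left 1 i
    · exact i.2
  unfold wgt
  rw [h1]

lemma wgt_del {p r : ℕ} (β : ℝ) (h : Vec d) (η : Env d) (s₁ : Fin p → Step d)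
    (s₂ : Fin r → Step d) : wgt β h (del p η) (Fin.append s₁ s₂) =
      wgt β h η s₁ * wgt β h (sh (p + 2) (pos s₁ p) η) s₂ := by
  rw [wgt_glue]
  congr 1
  · refine wgt_rows β h s₁ fun q _ hq => ?_
    unfold del
    rw [if_pos hq]
  · refine wgt_rows β h s₂ fun q hq _ => ?_
    unfold del sh
    have h1 : ¬ q.1 + p ≤ p := by omega
    simp only [if_neg h1, add_assoc]

lemma pos_two {a a' : Step d} (haa : vec a + vec a' = 0) : pos ![a, a'] 2 = (0 : Site d) := by
  rw [← haa]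
  simp [pos, Fin.sum_univ_two]

lemma pos_two_one (a a' : Step d) : pos ![a, a'] 1 = vec a := by
  simp [pos]

lemma emb_zero : emb (0 : Site d) = 0 := by
  ext j
  simp [emb]

lemma wgt_two (β : ℝ) (h : Vec d) (η : Env d) (p : ℕ) (x : Site d) {a a' : Step d}
    (haa : vec a + vec a' = 0) : wgt β h (sh p x η) ![a, a'] =
      Real.exp (β * (η (p + 1, x + vec a) + η (p + 2, x))) := by
  unfold wgt
  rw [pos_two haa, emb_zero, inner_zero_right, zero_add]
  congr 2
  unfold energy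
  rw [Fin.sum_univ_two]
  have e1 : ((0 : Fin 2) : ℕ) + 1 = 1 := rfl
  have e2 : ((1 : Fin 2) : ℕ) + 1 = 2 := rfl
  rw [e1, e2, pos_two haa, pos_two_one]
  unfold sh
  simp only [zero_add]
  rw [add_comm 1 p, add_comm 2 p, add_comm (vec a) x]

lemma wgt_ins {p r : ℕ} (β : ℝ) (h : Vec d) (η : Env d) (s₁ : Fin p → Step d)
    (s₂ : Fin r → Step d) {a a' : Step d} (haa : vec a + vec a' = 0) :
    wgt β h η (Fin.append (Fin.append s₁ ![a, a']) s₂) =
      wgt β h (del p η) (Fin.append s₁ s₂) *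
        Real.exp (β * (η (p + 1, pos s₁ p + vec a) + η (p + 2, pos s₁ p))) := by
  rw [wgt_glue, wgt_glue, wgt_two β h η p _ haa, wgt_del, pos_glue_add, pos_two haa, add_zero]
  ring

lemma pos_ins {p r : ℕ} (s₁ : Fin p → Step d) (s₂ : Fin r → Step d) {a a' : Step d}
    (haa : vec a + vec a' = 0) :
    pos (Fin.append (Fin.append s₁ ![a, a']) s₂) (p + 2 + r) = pos s₁ p + pos s₂ r := by
  rw [pos_glue_add, pos_glue_add, pos_two haa, add_zero]

/-- A walk with its length rewritten. -/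
def cs {d m n : ℕ} (h : m = n) (s : Fin m → Step d) : Fin n → Step d :=
  fun i => s (Fin.cast h.symm i)

lemma cast_sum {m n : ℕ} (h : m = n) (G : (Fin n → Step d) → ℝ) :
    ∑ s : Fin n → Step d, G s = ∑ s : Fin m → Step d, G (cs h s) := by
  subst h
  rfl

lemma cast_pos {m n : ℕ} (h : m = n) (s : Fin m → Step d) (k : ℕ) :
    pos (cs h s) k = pos s k := by
  subst h
  rfl

lemma cast_wgt {m n : ℕ} (h : m = n) (β : ℝ) (h' : Vec d) (η : Env d) (s : Fin m → Step d) :
    wgt β h' η (cs h s) = wgt β h' η s := by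
  subst h
  rfl

/-! ### Counting the places -/

/-- The places of the pair `a, a'`. -/
def Pl {n : ℕ} (a a' : Step d) (s : Fin (n + 1) → Step d) : Finset (Fin n) :=
  Finset.univ.filter fun p => s p.castSucc = a ∧ s p.succ = a'

lemma count16 {n : ℕ} (s : Fin (n + 1) → Step d) {a a' : Step d} (haa : vec a + vec a' = 0)
    (hne : a ≠ a') : l1 (pos s (n + 1)) + 2 * (Pl a a' s).card ≤ n + 1 := by
  classical
  set P := Pl a a' s with hP
  set A : Finset (Fin (n + 1)) := P.image Fin.castSucc with hA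
  set B : Finset (Fin (n + 1)) := P.image Fin.succ with hB
  have hAc : A.card = P.card := Finset.card_image_of_injective _ (Fin.castSucc_injective n)
  have hBc : B.card = P.card := Finset.card_image_of_injective _ (Fin.succ_injective n)
  have hAs : ∀ j ∈ A, s j = a := by
    intro j hj
    obtain ⟨p, hp, rfl⟩ := Finset.mem_image.1 hj
    exact (Finset.mem_filter.1 hp).2.1
  have hBs : ∀ j ∈ B, s j = a' := by
    intro j hj
    obtain ⟨p, hp, rfl⟩ := Finset.mem_image.1 hj
    exact (Finset.mem_filter.1 hp).2.2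
  have hdis : Disjoint A B := by
    rw [Finset.disjoint_left]
    intro j h1 h2
    exact hne ((hAs j h1).symm.trans (hBs j h2))
  set J : Finset (Fin (n + 1)) := (A ∪ B)ᶜ with hJ
  have hJc : J.card + 2 * P.card = n + 1 := by
    have h1 : (A ∪ B).card + J.card = n + 1 := by
      have h0 := Finset.card_add_card_compl (A ∪ B)
      rw [Fintype.card_fin] at h0
      exact h0
    have h2 : (A ∪ B).card = A.card + B.card := Finset.card_union_of_disjoint hdis
    omega
  have hpos : pos s (n + 1) = ∑ j ∈ J, vec (s j) := by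
    have h1 : pos s (n + 1) = ∑ j, vec (s j) := by
      unfold pos
      exact Finset.sum_congr rfl fun j _ => if_pos j.2
    rw [h1, ← Finset.sum_add_sum_compl (A ∪ B), Finset.sum_union hdis,
      Finset.sum_congr rfl fun j hj => by rw [hAs j hj],
      Finset.sum_congr (s₁ := B) rfl fun j hj => by rw [hBs j hj], Finset.sum_const,
      Finset.sum_const, hAc, hBc, ← smul_add, haa, smul_zero, zero_add]
  have h2 : l1 (∑ j ∈ J, vec (s j)) ≤ ∑ j ∈ J, l1 (vec (s j)) :=
    Finset.le_sum_of_subadditive l1 (le_of_eq l1_zero) l1_add_le J _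
  rw [← hpos] at h2
  have h3 : ∑ j ∈ J, l1 (vec (s j)) = J.card := by
    rw [Finset.sum_congr rfl fun j _ => l1_vec (s j), Finset.sum_const, smul_eq_mul, mul_one]
  rw [h3] at h2
  omega

open Classical in
/-- The walks of length `t + 2` to `u` with the pair `a, a'` at the place `p`. -/
noncomputable def Tp {d : ℕ} (t : ℕ) (u : Site d) (a a' : Step d) (p : Fin (t + 1)) :
    Finset (Fin (t + 2) → Step d) :=
  Finset.univ.filter fun s => pos s (t + 2) = u ∧ s p.castSucc = a ∧ s p.succ = a'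

lemma sum_Tp (β : ℝ) (h : Vec d) (η : Env d) (t : ℕ) (u : Site d) {a a' : Step d}
    (haa : vec a + vec a' = 0) (hne : a ≠ a') :
    ∑ p : Fin (t + 1), ∑ s ∈ Tp t u a a' p, wgt β h η s ≤
      (((t : ℝ) + 2 - l1 u) / 2) * PP β h η (t + 2) u := by
  classical
  rw [PP_eq, Finset.mul_sum]
  have h1 : ∑ p : Fin (t + 1), ∑ s ∈ Tp t u a a' p, wgt β h η s =
      ∑ s ∈ Wk (t + 2) u, ((Pl a a' s).card : ℝ) * wgt β h η s := by
    unfold Tp Wk
    simp only [Finset.sum_filter]
    rw [Finset.sum_comm]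
    refine Finset.sum_congr rfl fun s _ => ?_
    by_cases hs : pos s (t + 2) = u
    · rw [if_pos hs, Finset.card_eq_sum_ones, Nat.cast_sum, Finset.sum_mul]
      unfold Pl
      rw [Finset.sum_filter]
      refine Finset.sum_congr rfl fun p _ => ?_
      by_cases hp : s p.castSucc = a ∧ s p.succ = a'
      · rw [if_pos ⟨hs, hp⟩, if_pos hp, Nat.cast_one, one_mul]
      · rw [if_neg fun h => hp h.2, if_neg hp]
    · rw [if_neg hs]
      exact Finset.sum_eq_zero fun p _ => if_neg fun h => hs h.1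
  rw [h1]
  refine Finset.sum_le_sum fun s hs => mul_le_mul_of_nonneg_right ?_ (wgt_pos _ _ _ _).le
  have h2 := count16 s haa hne
  have h3 : pos s (t + 1 + 1) = u := (Finset.mem_filter.1 hs).2
  rw [h3] at h2
  have h4 : (l1 u : ℝ) + 2 * ((Pl a a' s).card : ℝ) ≤ (t : ℝ) + 1 + 1 := by exact_mod_cast h2
  linarith

/-! ### One place -/

/-- The energy of the two inserted steps. -/
def zet {d : ℕ} (p : ℕ) (a : Step d) (η : Env d) (x : Site d) : ℝ :=
  η (p + 1, x + vec a) + η (p + 2, x)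

open Classical in
/-- The walks of length `p`, `r` to `u`. -/
noncomputable def W2 {d : ℕ} (p r : ℕ) (u : Site d) :
    Finset ((Fin p → Step d) × (Fin r → Step d)) :=
  Finset.univ.filter fun w => pos w.1 p + pos w.2 r = u

lemma PP_W2 (β : ℝ) (h : Vec d) (η : Env d) (p r : ℕ) (u : Site d) :
    PP β h η (p + r) u = ∑ w ∈ W2 p r u, wgt β h η (Fin.append w.1 w.2) := by
  classical
  unfold PP ZT W2
  rw [sum_glue, Finset.sum_filter, Fintype.sum_prod_type]
  refine Finset.sum_congr rfl fun s _ => Finset.sum_congr rfl fun q _ => ?_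
  have h1 : pos (Fin.append s q) (p + r) = pos s p + pos q r := pos_glue_add s q r
  by_cases h2 : pos s p + pos q r = u
  · rw [if_pos (show Fin.append s q ∈ {s : Fin (p + r) → Step d | pos s (p + r) = u} from
      h1.trans h2), if_pos h2]
  · rw [if_neg (show ¬ Fin.append s q ∈ {s : Fin (p + r) → Step d | pos s (p + r) = u} from
      fun h3 => h2 (h1.symm.trans h3)), if_neg h2]

lemma Tp_W2 (β : ℝ) (h : Vec d) (η : Env d) (p r : ℕ) (u : Site d) {a a' : Step d}
    (haa : vec a + vec a' = 0) (hp : p < p + r + 1) :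
    ∑ s ∈ Tp (p + r) u a a' ⟨p, hp⟩, wgt β h η s =
      ∑ w ∈ W2 p r u, wgt β h (del p η) (Fin.append w.1 w.2) *
        Real.exp (β * zet p a η (pos w.1 p)) := by
  classical
  have hc : p + 2 + r = p + r + 2 := by omega
  have v1 : ∀ (s : Fin p → Step d) (c : Fin 2 → Step d) (q : Fin r → Step d),
      cs hc (Fin.append (Fin.append s c) q) (Fin.castSucc ⟨p, hp⟩) = c 0 := by
    intro s c q
    unfold cs
    have e : Fin.cast hc.symm (Fin.castSucc ⟨p, hp⟩) = Fin.castAdd r (Fin.natAdd p (0 : Fin 2)) :=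
      Fin.ext (by simp)
    rw [e, Fin.append_left, Fin.append_right]
  have v2 : ∀ (s : Fin p → Step d) (c : Fin 2 → Step d) (q : Fin r → Step d),
      cs hc (Fin.append (Fin.append s c) q) (Fin.succ ⟨p, hp⟩) = c 1 := by
    intro s c q
    unfold cs
    have e : Fin.cast hc.symm (Fin.succ ⟨p, hp⟩) = Fin.castAdd r (Fin.natAdd p (1 : Fin 2)) :=
      Fin.ext (by simp)
    rw [e, Fin.append_left, Fin.append_right]
  unfold Tp W2
  rw [Finset.sum_filter, cast_sum hc, sum_glue, Finset.sum_filter, Fintype.sum_prod_type,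
    sum_glue]
  refine Finset.sum_congr rfl fun s _ => ?_
  rw [Finset.sum_comm]
  refine Finset.sum_congr rfl fun q _ => ?_
  have hk : p + r + 2 = p + 2 + r := hc.symm
  rw [Finset.sum_eq_single (![a, a'] : Fin 2 → Step d)]
  · rw [cast_pos, cast_wgt, v1, v2, hk, pos_ins s q haa, wgt_ins β h η s q haa]
    by_cases h2 : pos s p + pos q r = u
    · rw [if_pos ⟨h2, rfl, rfl⟩, if_pos h2]
      rfl
    · rw [if_neg fun h3 => h2 h3.1, if_neg h2]
  · intro c _ hcne
    rw [v1, v2]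
    refine if_neg fun h3 => hcne ?_
    funext i
    fin_cases i
    · exact h3.2.1
    · exact h3.2.2
  · intro h3
    exact absurd (Finset.mem_univ _) h3

/-! ### Jensen -/

lemma log_jensen {ι : Type*} (I : Finset ι) (b z : ι → ℝ) (hb : ∀ i ∈ I, 0 < b i)
    (hI : I.Nonempty) : Real.log (∑ i ∈ I, b i) + ∑ i ∈ I, (b i / ∑ j ∈ I, b j) * z i ≤
      Real.log (∑ i ∈ I, b i * Real.exp (z i)) := by
  obtain ⟨B, hB⟩ : ∃ B : ℝ, B = ∑ i ∈ I, b i := ⟨_, rfl⟩
  have hB0 : 0 < B := by
    rw [hB]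
    exact Finset.sum_pos hb hI
  rw [← hB]
  have h1 : Real.exp (∑ i ∈ I, (b i / B) • z i) ≤ ∑ i ∈ I, (b i / B) • Real.exp (z i) := by
    refine convexOn_exp.map_sum_le (fun i hi => div_nonneg (hb i hi).le hB0.le) ?_
      (fun _ _ => trivial)
    rw [← Finset.sum_div, ← hB, div_self hB0.ne']
  simp only [smul_eq_mul] at h1
  have h2 : ∑ i ∈ I, (b i / B) * Real.exp (z i) = (∑ i ∈ I, b i * Real.exp (z i)) / B := by
    rw [Finset.sum_div]
    exact Finset.sum_congr rfl fun i _ => by ring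
  rw [h2] at h1
  have h3 : 0 < ∑ i ∈ I, b i * Real.exp (z i) :=
    Finset.sum_pos (fun i hi => mul_pos (hb i hi) (Real.exp_pos _)) hI
  have h4 := Real.log_le_log (Real.exp_pos _) h1
  rw [Real.log_exp, Real.log_div h3.ne' hB0.ne'] at h4
  linarith

/-! ### Expectations -/

/-- The logarithm of the partition function of a finite nonempty set of walks is integrable. -/
lemma int_log (hρ : EM ρ) (β : ℝ) (h : Vec d) (n : ℕ) {T : Finset (Fin n → Step d)}
    (hT : T.Nonempty) : Integrable (fun η => Real.log (∑ s ∈ T, wgt β h η s)) (law d ρ) := by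
  have hmp := mp_rows (d := d) (ρ := ρ) n
  have hFm := ZrT_meas (d := d) β h n T
  obtain ⟨h1, -⟩ := conc_pi n (fun ξ : Fin n → Site d → ℝ => Real.log (ZrT β h n T ξ)) hFm
    (fun i => row_boundT hρ β h n hT i)
  exact hmp.integrable_comp_of_integrable h1

lemma emb_zet (p : ℕ) (a : Step d) (x : Site d) :
    Measurable (fun η : Env d => zet p a η x) :=
  (measurable_pi_apply _).add (measurable_pi_apply _)

omit [IsProbabilityMeasure ρ] in
lemma int_id (hρ : EM ρ) : Integrable (fun t : ℝ => t) ρ := by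
  have h1 : Integrable (fun t : ℝ => Real.exp (1 * t) + Real.exp (-1 * t)) ρ :=
    (hρ 1).add (hρ (-1))
  refine h1.mono' measurable_id.aestronglyMeasurable (Filter.Eventually.of_forall fun t => ?_)
  rw [Real.norm_eq_abs]
  have h2 := Real.add_one_le_exp t
  have h3 := Real.add_one_le_exp (-t)
  rw [one_mul, neg_one_mul]
  rcases abs_cases t with ⟨h4, _⟩ | ⟨h4, _⟩ <;> rw [h4]
  · linarith [Real.exp_pos (-t)]
  · linarith [Real.exp_pos t]

lemma int_site (hρ : EM ρ) (q : ℕ × Site d) : Integrable (fun η : Env d => η q) (law d ρ) ∧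
    ∫ η : Env d, η q ∂(law d ρ) = ∫ t, t ∂ρ := by
  have hp : MeasurePreserving (Function.eval q) (law d ρ) ρ :=
    measurePreserving_eval_infinitePi (fun _ : ℕ × Site d => ρ) q
  have hid := int_id hρ
  refine ⟨(hp.integrable_comp hid.aestronglyMeasurable).2 hid, ?_⟩
  have h1 := integral_map (μ := law d ρ) hp.measurable.aemeasurable
    (f := fun t : ℝ => t) (by rw [hp.map_eq]; exact hid.aestronglyMeasurable)
  rw [hp.map_eq] at h1
  exact h1.symm

lemma int_zet (hρ : EM ρ) (p : ℕ) (a : Step d) (x : Site d) :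
    Integrable (fun η : Env d => zet p a η x) (law d ρ) ∧
      ∫ η, zet p a η x ∂(law d ρ) = 2 * ∫ t, t ∂ρ := by
  obtain ⟨i1, e1⟩ := int_site (d := d) hρ (p + 1, x + vec a)
  obtain ⟨i2, e2⟩ := int_site (d := d) hρ (p + 2, x)
  refine ⟨i1.add i2, ?_⟩
  unfold zet
  rw [integral_add i1 i2, e1, e2]
  ring

/-- The share of one walk, as a function of the environment without the two rows. -/
noncomputable def shr {d : ℕ} (β : ℝ) (h : Vec d) (p r : ℕ) (u : Site d)
    (w : (Fin p → Step d) × (Fin r → Step d)) (η : Env d) : ℝ :=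
  wgt β h (del p η) (Fin.append w.1 w.2) /
    ∑ w' ∈ W2 p r u, wgt β h (del p η) (Fin.append w'.1 w'.2)

lemma shr_nonneg (β : ℝ) (h : Vec d) (p r : ℕ) (u : Site d)
    (w : (Fin p → Step d) × (Fin r → Step d)) (η : Env d) : 0 ≤ shr β h p r u w η :=
  div_nonneg (wgt_pos _ _ _ _).le (Finset.sum_nonneg fun _ _ => (wgt_pos _ _ _ _).le)

lemma shr_le (β : ℝ) (h : Vec d) (p r : ℕ) (u : Site d)
    {w : (Fin p → Step d) × (Fin r → Step d)} (hw : w ∈ W2 p r u) (η : Env d) :
    shr β h p r u w η ≤ 1 := by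
  refine div_le_one_of_le₀ ?_ (Finset.sum_nonneg fun _ _ => (wgt_pos _ _ _ _).le)
  exact Finset.single_le_sum
    (f := fun w : (Fin p → Step d) × (Fin r → Step d) =>
      wgt β h (del p η) (Fin.append w.1 w.2)) (fun _ _ => (wgt_pos _ _ _ _).le) hw

lemma shr_sum (β : ℝ) (h : Vec d) (p r : ℕ) (u : Site d) (hW : (W2 (d := d) p r u).Nonempty)
    (η : Env d) : ∑ w ∈ W2 p r u, shr β h p r u w η = 1 := by
  unfold shr
  rw [← Finset.sum_div]
  exact div_self (Finset.sum_pos (fun _ _ => wgt_pos _ _ _ _) hW).ne'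

lemma meas_del (p : ℕ) : Measurable (del p : Env d → Env d) :=
  measurable_pi_iff.2 fun _ => measurable_pi_apply _

lemma meas_shr (β : ℝ) (h : Vec d) (p r : ℕ) (u : Site d)
    (w : (Fin p → Step d) × (Fin r → Step d)) : Measurable (shr β h p r u w) :=
  ((measurable_wgt β h _).comp (meas_del p)).div
    (Finset.measurable_sum _ fun _ _ => (measurable_wgt β h _).comp (meas_del p))

lemma dep_shr (β : ℝ) (h : Vec d) (p r : ℕ) (u : Site d)
    (w : (Fin p → Step d) × (Fin r → Step d)) :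
    DependsOn (shr β h p r u w) {q : ℕ × Site d | ¬ (q.1 = p + 1 ∨ q.1 = p + 2)} := by
  intro η η' H
  have h1 : del p η = del p η' := by
    funext q
    unfold del
    apply H
    show ¬ ((if q.1 ≤ p then q.1 else q.1 + 2) = p + 1 ∨
      (if q.1 ≤ p then q.1 else q.1 + 2) = p + 2)
    split_ifs <;> omega
  unfold shr
  rw [h1]

lemma dep_zet (p : ℕ) (a : Step d) (x : Site d) : DependsOn (fun η : Env d => zet p a η x)
    {q : ℕ × Site d | ¬ (q.1 = p + 1 ∨ q.1 = p + 2)}ᶜ := by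
  intro η η' H
  have h1 : η (p + 1, x + vec a) = η' (p + 1, x + vec a) := H (p + 1, x + vec a) (by simp)
  have h2 : η (p + 2, x) = η' (p + 2, x) := H (p + 2, x) (by simp)
  show η (p + 1, x + vec a) + η (p + 2, x) = η' (p + 1, x + vec a) + η' (p + 2, x)
  rw [h1, h2]

/-- The expectation of the inserted energies. -/
lemma int_ins (hρ : EM ρ) (β : ℝ) (h : Vec d) (p r : ℕ) (u : Site d) (a : Step d)
    (hW : (W2 (d := d) p r u).Nonempty) :
    Integrable (fun η => ∑ w ∈ W2 p r u, shr β h p r u w η * (β * zet p a η (pos w.1 p)))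
      (law d ρ) ∧
    ∫ η, ∑ w ∈ W2 p r u, shr β h p r u w η * (β * zet p a η (pos w.1 p)) ∂(law d ρ) =
      2 * β * ∫ t, t ∂ρ := by
  have hI : ∀ w ∈ W2 (d := d) p r u,
      Integrable (fun η => shr β h p r u w η * (β * zet p a η (pos w.1 p))) (law d ρ) := by
    intro w hw
    have h1 : Integrable (fun η => β * zet p a η (pos w.1 p)) (law d ρ) :=
      (int_zet hρ p a (pos w.1 p)).1.const_mul β
    refine h1.bdd_mul (c := 1) (meas_shr β h p r u w).aestronglyMeasurable
      (Filter.Eventually.of_forall fun η => ?_)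
    rw [Real.norm_eq_abs, abs_of_nonneg (shr_nonneg β h p r u w η)]
    exact shr_le β h p r u hw η
  have hS : ∀ w ∈ W2 (d := d) p r u, Integrable (shr β h p r u w) (law d ρ) := by
    intro w hw
    refine (integrable_const (1 : ℝ)).mono' (meas_shr β h p r u w).aestronglyMeasurable
      (Filter.Eventually.of_forall fun η => ?_)
    rw [Real.norm_eq_abs, abs_of_nonneg (shr_nonneg β h p r u w η)]
    exact shr_le β h p r u hw η
  refine ⟨integrable_finsetSum _ hI, ?_⟩
  rw [integral_finsetSum _ hI]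
  have h2 : ∀ w ∈ W2 (d := d) p r u,
      ∫ η, shr β h p r u w η * (β * zet p a η (pos w.1 p)) ∂(law d ρ) =
        (∫ η, shr β h p r u w η ∂(law d ρ)) * (2 * β * ∫ t, t ∂ρ) := by
    intro w _
    have h3 := integral_indep (ρ := ρ) {q : ℕ × Site d | ¬ (q.1 = p + 1 ∨ q.1 = p + 2)}
      (F := shr β h p r u w) (G := fun η => β * zet p a η (pos w.1 p))
      (meas_shr β h p r u w) ((emb_zet p a _).const_mul β) (dep_shr β h p r u w) (by
        intro η η' H
        have := dep_zet p a (pos w.1 p) H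
        simp only at this ⊢
        rw [this])
    rw [h3, integral_const_mul, (int_zet hρ p a (pos w.1 p)).2]
    ring
  rw [Finset.sum_congr rfl h2, ← Finset.sum_mul, ← integral_finsetSum _ hS]
  simp only [shr_sum β h p r u hW]
  simp

/-- **One place.** -/
lemma one_place (hρ : EM ρ) (β : ℝ) (h : Vec d) (t : ℕ) {u : Site d} (hu : Rch t u)
    {a a' : Step d} (haa : vec a + vec a' = 0) (p : Fin (t + 1)) :
    (Tp t u a a' p).Nonempty ∧ aM ρ β h t u + 2 * β * ∫ t, t ∂ρ ≤
      ∫ η, Real.log (∑ s ∈ Tp t u a a' p, wgt β h η s) ∂(law d ρ) := by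
  classical
  obtain ⟨p, hp⟩ := p
  obtain ⟨r, rfl⟩ : ∃ r, t = p + r := ⟨t - p, by omega⟩
  have hW : (W2 (d := d) p r u).Nonempty := by
    obtain ⟨q, hq⟩ := hu
    obtain ⟨⟨s₁, s₂⟩, rfl⟩ := (Fin.appendEquiv p r).surjective q
    refine ⟨(s₁, s₂), Finset.mem_filter.2 ⟨Finset.mem_univ _, ?_⟩⟩
    have h1 : pos (Fin.append s₁ s₂) (p + r) = u := hq
    rw [pos_glue_add] at h1
    exact h1
  have hT : (Tp (p + r) u a a' ⟨p, hp⟩).Nonempty := by
    by_contra hcon
    rw [Finset.not_nonempty_iff_eq_empty] at hcon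
    have h1 := Tp_W2 (0 : ℝ) (0 : Vec d) (0 : Env d) p r u haa hp
    rw [hcon, Finset.sum_empty] at h1
    have h2 : 0 < ∑ w ∈ W2 (d := d) p r u, wgt (0 : ℝ) (0 : Vec d) (del p (0 : Env d))
        (Fin.append w.1 w.2) * Real.exp (0 * zet p a 0 (pos w.1 p)) :=
      Finset.sum_pos (fun _ _ => mul_pos (wgt_pos _ _ _ _) (Real.exp_pos _)) hW
    linarith
  refine ⟨hT, ?_⟩
  obtain ⟨i1, e1⟩ := int_ins hρ β h p r u a hW
  have hmp := mp_del (d := d) (ρ := ρ) p
  obtain ⟨i2, -⟩ := expP hρ β h (p + r) hu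
  have i3 : Integrable (fun η => Real.log (PP β h (del p η) (p + r) u)) (law d ρ) :=
    hmp.integrable_comp_of_integrable i2
  have e3 : ∫ η, Real.log (PP β h (del p η) (p + r) u) ∂(law d ρ) = aM ρ β h (p + r) u :=
    LawU_integral hmp (F := fun η => Real.log (PP β h η (p + r) u)) i2.aestronglyMeasurable
  have h1 : ∫ η, (Real.log (PP β h (del p η) (p + r) u) +
      ∑ w ∈ W2 p r u, shr β h p r u w η * (β * zet p a η (pos w.1 p))) ∂(law d ρ) ≤
      ∫ η, Real.log (∑ s ∈ Tp (p + r) u a a' ⟨p, hp⟩, wgt β h η s) ∂(law d ρ) := by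
    refine integral_mono (i3.add i1) (int_log hρ β h _ hT) fun η => ?_
    have h2 := log_jensen (W2 p r u) (fun w => wgt β h (del p η) (Fin.append w.1 w.2))
      (fun w => β * zet p a η (pos w.1 p)) (fun _ _ => wgt_pos _ _ _ _) hW
    rw [← PP_W2] at h2
    change Real.log (PP β h (del p η) (p + r) u) +
      ∑ w ∈ W2 p r u, shr β h p r u w η * (β * zet p a η (pos w.1 p)) ≤
      Real.log (∑ s ∈ Tp (p + r) u a a' ⟨p, hp⟩, wgt β h η s)
    rw [Tp_W2 β h η p r u haa hp]
    unfold shr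
    rw [← PP_W2]
    exact h2
  rw [integral_add i3 i1, e3, e1] at h1
  exact h1

/-- **One insertion.** -/
theorem ins16 (hd : 0 < d) (hρ : EM ρ) (β : ℝ) (h : Vec d) (t : ℕ) {u : Site d} (hu : Rch t u) :
    aM ρ β h t u + Real.log (((t : ℝ) + 1) / (((t : ℝ) + 2 - l1 u) / 2)) + 2 * β * ∫ t, t ∂ρ ≤
      aM ρ β h (t + 2) u := by
  classical
  set a : Step d := (⟨0, hd⟩, true) with ha
  set a' : Step d := (⟨0, hd⟩, false) with ha'
  have haa : vec a + vec a' = 0 := by
    unfold vec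
    rw [ha, ha', ← Pi.single_add]
    simp
  have hne : a ≠ a' := by
    rw [ha, ha']
    simp
  have hu2 : Rch (t + 2) u := by
    have := rch_add_two hd (k := 1) hu
    simpa using this
  have hl : (l1 u : ℝ) ≤ t := by
    exact_mod_cast ((rch_iff hd).1 hu).1
  have hM : 0 < ((t : ℝ) + 2 - l1 u) / 2 := by linarith
  have ht : (0 : ℝ) < (t : ℝ) + 1 := by positivity
  have hone := fun p : Fin (t + 1) => one_place hρ β h t hu haa p
  obtain ⟨i1, -⟩ := expP hρ β h (t + 2) hu2
  have hpt : ∀ η : Env d, Real.log ((t : ℝ) + 1) +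
      ∑ p : Fin (t + 1), (1 / ((t : ℝ) + 1)) * Real.log (∑ s ∈ Tp t u a a' p, wgt β h η s) ≤
      Real.log (((t : ℝ) + 2 - l1 u) / 2) + Real.log (PP β h η (t + 2) u) := by
    intro η
    have hF : ∀ p : Fin (t + 1), 0 < ∑ s ∈ Tp t u a a' p, wgt β h η s := fun p =>
      Finset.sum_pos (fun _ _ => wgt_pos _ _ _ _) (hone p).1
    have h1 := log_jensen (Finset.univ : Finset (Fin (t + 1))) (fun _ => (1 : ℝ))
      (fun p => Real.log (∑ s ∈ Tp t u a a' p, wgt β h η s)) (fun _ _ => one_pos)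
      Finset.univ_nonempty
    have h2 : ∑ _i : Fin (t + 1), (1 : ℝ) = (t : ℝ) + 1 := by
      rw [Finset.sum_const, Finset.card_univ, Fintype.card_fin, nsmul_eq_mul, mul_one]
      push_cast
      ring
    rw [h2] at h1
    have h3 : ∀ p : Fin (t + 1), (1 : ℝ) * Real.exp (Real.log (∑ s ∈ Tp t u a a' p,
        wgt β h η s)) = ∑ s ∈ Tp t u a a' p, wgt β h η s := fun p => by
      rw [one_mul, Real.exp_log (hF p)]
    simp only [h3] at h1
    have hPP : 0 < PP β h η (t + 2) u := by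
      rw [ConcV16.PP_eq]
      exact Finset.sum_pos (fun _ _ => wgt_pos _ _ _ _) (Wk_ne hu2)
    rw [← Real.log_mul hM.ne' hPP.ne']
    refine h1.trans (Real.log_le_log ?_ (sum_Tp β h η t u haa hne))
    exact Finset.sum_pos (fun p _ => hF p) Finset.univ_nonempty
  have i2 : ∀ p : Fin (t + 1), Integrable (fun η => (1 / ((t : ℝ) + 1)) *
      Real.log (∑ s ∈ Tp t u a a' p, wgt β h η s)) (law d ρ) := fun p =>
    (int_log hρ β h _ (hone p).1).const_mul _
  have h4 : ∫ η, (Real.log ((t : ℝ) + 1) +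
      ∑ p : Fin (t + 1), (1 / ((t : ℝ) + 1)) * Real.log (∑ s ∈ Tp t u a a' p, wgt β h η s))
        ∂(law d ρ) ≤ ∫ η, (Real.log (((t : ℝ) + 2 - l1 u) / 2) +
          Real.log (PP β h η (t + 2) u)) ∂(law d ρ) :=
    integral_mono ((integrable_const _).add (integrable_finsetSum Finset.univ
      fun p _ => i2 p)) ((integrable_const _).add i1) hpt
  rw [integral_add (integrable_const _) (integrable_finsetSum Finset.univ fun p _ => i2 p),
    integral_add (integrable_const _) i1, integral_finsetSum _ fun p _ => i2 p] at h4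
  simp only [integral_const, probReal_univ, one_smul, integral_const_mul] at h4
  have h5 : ∑ p : Fin (t + 1), (1 / ((t : ℝ) + 1)) * (aM ρ β h t u + 2 * β * ∫ t, t ∂ρ) ≤
      ∑ p : Fin (t + 1), (1 / ((t : ℝ) + 1)) *
        ∫ η, Real.log (∑ s ∈ Tp t u a a' p, wgt β h η s) ∂(law d ρ) :=
    Finset.sum_le_sum fun p _ => mul_le_mul_of_nonneg_left (hone p).2 (by positivity)
  rw [Finset.sum_const, Finset.card_univ, Fintype.card_fin, nsmul_eq_mul, ← mul_assoc] at h5
  have h6 : (((t + 1 : ℕ) : ℝ)) * (1 / ((t : ℝ) + 1)) = 1 := by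
    push_cast
    field_simp
  rw [h6, one_mul] at h5
  rw [Real.log_div ht.ne' hM.ne']
  have h7 : ∫ η, Real.log (PP β h η (t + 2) u) ∂(law d ρ) = aM ρ β h (t + 2) u := rfl
  rw [h7] at h4
  linarith

/-- Iterated insertions: every factor is at least `1` and at least `2 (t₀ + 1) / (t - |u|)`. -/
theorem insk (hd : 0 < d) (hρ : EM ρ) (β : ℝ) (h : Vec d) (t₀ : ℕ) {u : Site d}
    (hu : Rch t₀ u) (k : ℕ) {G : ℝ} (hG : ∀ j < k, G ≤ Real.log (((t₀ : ℝ) + 2 * j + 1) /
      (((t₀ : ℝ) + 2 * j + 2 - l1 u) / 2))) :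
    aM ρ β h t₀ u + k * G + k * (2 * β * ∫ t, t ∂ρ) ≤ aM ρ β h (t₀ + 2 * k) u := by
  induction k with
  | zero => simp
  | succ k ih =>
    have h1 := ih fun j hj => hG j (by omega)
    have h2 := ins16 hd hρ β h (t₀ + 2 * k) (rch_add_two hd (k := k) hu)
    have h3 := hG k (by omega)
    have e1 : t₀ + 2 * (k + 1) = t₀ + 2 * k + 2 := by ring
    rw [e1]
    push_cast at h2 ⊢
    linarith

/-- **The gain of the insertions** (the hypothesis `hB` of `steep31`). -/
theorem hB16 (hd : 0 < d) (hρ : EM ρ) (β R : ℝ) : ∃ C : ℝ, 0 < C ∧ ∀ h : Vec d, ‖h‖ ≤ R →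
    ∀ t k l : ℕ, 2 ≤ l → k * l ≤ t → ∀ u : Site d, Rch (t - 2 * k) u →
      aM ρ β h (t - 2 * k) u + k * Real.log ((l : ℝ) - 1) - ((t : ℝ) - l1 u) * Real.log 2
        - C * k ≤ aM ρ β h t u := by
  refine ⟨|2 * β * ∫ t, t ∂ρ| + 1, by positivity, fun h _ t k l hl hkl u hu => ?_⟩
  have h2k : 2 * k ≤ t := by nlinarith
  obtain ⟨t₀, rfl⟩ : ∃ t₀, t = t₀ + 2 * k := ⟨t - 2 * k, by omega⟩
  rw [Nat.add_sub_cancel] at hu ⊢
  have hl1 : l1 u ≤ t₀ := ((rch_iff hd).1 hu).1
  have hl1' : (l1 u : ℝ) ≤ t₀ := by exact_mod_cast hl1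
  have hlog2 : 0 < Real.log 2 := Real.log_pos (by norm_num)
  rcases Nat.eq_zero_or_pos k with rfl | hk
  · simp only [mul_zero, add_zero, Nat.cast_zero, zero_mul, sub_zero]
    have : 0 ≤ ((t₀ : ℝ) - l1 u) * Real.log 2 := mul_nonneg (by linarith) hlog2.le
    linarith
  have hk0 : (0 : ℝ) < k := by exact_mod_cast hk
  have hk1 : (1 : ℝ) ≤ k := by exact_mod_cast hk
  set D : ℝ := (t₀ : ℝ) + 2 * k - l1 u with hD
  have hD2 : 2 * (k : ℝ) ≤ D := by linarith
  have hD0 : 0 < D := by linarith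
  have hc := neg_abs_le (2 * β * ∫ t, t ∂ρ)
  have hck : k * -|2 * β * ∫ t, t ∂ρ| ≤ k * (2 * β * ∫ t, t ∂ρ) :=
    mul_le_mul_of_nonneg_left hc hk0.le
  -- the factors
  have hfac : ∀ j < k, 1 ≤ ((t₀ : ℝ) + 2 * j + 1) / (((t₀ : ℝ) + 2 * j + 2 - l1 u) / 2) ∧
      2 * ((t₀ : ℝ) + 1) / D ≤ ((t₀ : ℝ) + 2 * j + 1) / (((t₀ : ℝ) + 2 * j + 2 - l1 u) / 2) := by
    intro j hj
    have hj0 : (0 : ℝ) ≤ j := Nat.cast_nonneg j
    have hjk : (j : ℝ) + 1 ≤ k := by exact_mod_cast hj
    have hl0 : (0 : ℝ) ≤ l1 u := Nat.cast_nonneg _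
    have hpos : 0 < ((t₀ : ℝ) + 2 * j + 2 - l1 u) / 2 := by linarith
    constructor
    · rw [le_div_iff₀ hpos]
      linarith
    · rw [div_le_div_iff₀ hD0 hpos]
      have h1 : 2 * (((t₀ : ℝ) + 2 * j + 2 - l1 u) / 2) ≤ D := by
        rw [hD]
        linarith
      have h2 : ((t₀ : ℝ) + 1) * (2 * (((t₀ : ℝ) + 2 * j + 2 - l1 u) / 2)) ≤
          ((t₀ : ℝ) + 2 * j + 1) * D :=
        mul_le_mul (by linarith) h1 (by linarith) (by positivity)
      linarith
  rcases Nat.lt_or_ge l 3 with hl3 | hl3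
  · have hl2 : l = 2 := by omega
    have h1 := insk hd hρ β h t₀ hu k (G := 0) fun j hj => Real.log_nonneg (hfac j hj).1
    subst hl2
    have e1 : Real.log (((2 : ℕ) : ℝ) - 1) = 0 := by
      norm_num
    rw [e1]
    have h2 : 0 ≤ D * Real.log 2 := mul_nonneg hD0.le hlog2.le
    push_cast
    rw [← hD]
    linarith
  · have hlr : (3 : ℝ) ≤ l := by exact_mod_cast hl3
    have ht0 : (0 : ℝ) < 2 * ((t₀ : ℝ) + 1) / D := by positivity
    have h1 := insk hd hρ β h t₀ hu k (G := Real.log (2 * ((t₀ : ℝ) + 1) / D)) fun j hj =>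
      Real.log_le_log ht0 (hfac j hj).2
    have hkl' : (k : ℝ) * l ≤ t₀ + 2 * k := by exact_mod_cast hkl
    have h2 : (k : ℝ) * ((l : ℝ) - 1) / D ≤ 2 * ((t₀ : ℝ) + 1) / D := by
      refine div_le_div_of_nonneg_right ?_ hD0.le
      nlinarith
    have h3 : 0 < (k : ℝ) * ((l : ℝ) - 1) / D := by
      have : (0 : ℝ) < (l : ℝ) - 1 := by linarith
      positivity
    have h4 := Real.log_le_log h3 h2
    have h5 : Real.log ((k : ℝ) * ((l : ℝ) - 1) / D) =
        Real.log ((l : ℝ) - 1) - Real.log (D / k) := by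
      have : (0 : ℝ) < (l : ℝ) - 1 := by linarith
      rw [Real.log_div (by positivity) hD0.ne', Real.log_mul hk0.ne' this.ne',
        Real.log_div hD0.ne' hk0.ne']
      ring
    have h6 : Real.log (D / k) ≤ (D / k) * Real.log 2 := by
      -- `log y ≤ y log 2` for `y ≥ 2`
      have hy : 2 ≤ D / k := by
        rw [le_div_iff₀ hk0]
        exact hD2
      have hy0 : 0 < D / k := by linarith
      have h7 : Real.log (D / k) = Real.log (D / k / 2) + Real.log 2 := by
        rw [Real.log_div hy0.ne' two_ne_zero]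
        ring
      have h8 : Real.log (D / k / 2) ≤ D / k / 2 - 1 := Real.log_le_sub_one_of_pos (by linarith)
      have h9 : (1 : ℝ) / 2 < Real.log 2 := by
        have := Real.log_two_gt_d9
        linarith
      rw [h7]
      nlinarith
    have h7 : k * Real.log (D / k) ≤ D * Real.log 2 := by
      have := mul_le_mul_of_nonneg_left h6 hk0.le
      have e2 : (k : ℝ) * (D / k * Real.log 2) = D * Real.log 2 := by
        field_simp
      rw [e2] at this
      exact this
    have h8 : k * (Real.log ((l : ℝ) - 1) - Real.log (D / k)) ≤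
        k * Real.log (2 * ((t₀ : ℝ) + 1) / D) := by
      rw [← h5]
      exact mul_le_mul_of_nonneg_left h4 hk0.le
    push_cast
    rw [← hD]
    nlinarith

end Pool.Agent.W_7d29a1_V.Ins16
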