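import Pool.Agent.W_7d29a1_V.DefsV2

/-!
The new environment has the law of the environment, in every dimension (U2).
-/

namespace Pool.Agent.W_7d29a1_V.Law20

open MeasureTheory ProbabilityTheory Filter Topology Pool.Agent.W_MP_7d29a1_pr
  Pool.Agent.W_7d29a1_h46 Pool.Agent.W_7d29a1_h46u Pool.Agent.W_7d29a1_D2
  Pool.Agent.W_7d29a1_D2.B35 Pool.Agent.W_7d29a1_V

open Classical in
/-- Switching between measure preserving maps along a label which they do not change. -/
theorem mp_switch {Ω ι : Type*} [Countable ι] [MeasurableSpace Ω] {P : Measure Ω} {k : Ω → ι}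
    (hk : ∀ j, MeasurableSet (k ⁻¹' {j})) {T : ι → Ω → Ω} (hT : ∀ j, MeasurePreserving (T j) P P)
    (hkT : ∀ j ω, k (T j ω) = k ω) : MeasurePreserving (fun ω => T (k ω) ω) P P := by
  have e1 : ∀ A : Set Ω, (fun ω => T (k ω) ω) ⁻¹' A = ⋃ j : ι, T j ⁻¹' (k ⁻¹' {j} ∩ A) := by
    intro A
    ext ω
    simp only [Set.mem_preimage, Set.mem_iUnion, Set.mem_inter_iff, Set.mem_singleton_iff, hkT]
    constructor
    · intro h
      exact ⟨k ω, rfl, h⟩
    · rintro ⟨j, hj1, hj2⟩
      rwa [hj1]
  have hm : Measurable (fun ω => T (k ω) ω) := by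
    intro A hA
    rw [e1]
    exact MeasurableSet.iUnion fun j => (hT j).measurable ((hk j).inter hA)
  refine ⟨hm, ?_⟩
  ext A hA
  rw [Measure.map_apply hm hA]
  have hj : ∀ j : ι, MeasurableSet (k ⁻¹' {j} ∩ A) := fun j => (hk j).inter hA
  have e2 : A = ⋃ j : ι, (k ⁻¹' {j} ∩ A) := by
    ext ω
    simp only [Set.mem_preimage, Set.mem_iUnion, Set.mem_inter_iff, Set.mem_singleton_iff]
    exact ⟨fun h => ⟨k ω, rfl, h⟩, fun ⟨_, _, h⟩ => h⟩
  have d2 : Pairwise (Function.onFun Disjoint fun j : ι => k ⁻¹' {j} ∩ A) := by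
    intro i j hij
    refine Set.disjoint_left.2 fun ω h1 h2 => hij ?_
    have h3 : k ω = i := h1.1
    have h4 : k ω = j := h2.1
    rw [← h3, ← h4]
  have d1 : Pairwise (Function.onFun Disjoint fun j : ι => T j ⁻¹' (k ⁻¹' {j} ∩ A)) := by
    intro i j hij
    refine Set.disjoint_left.2 fun ω h1 h2 => hij ?_
    have h3 : k (T i ω) = i := h1.1
    have h4 : k (T j ω) = j := h2.1
    rw [hkT] at h3 h4
    rw [← h3, ← h4]
  rw [e1, measure_iUnion d1 fun j => (hT j).measurable (hj j)]
  conv_rhs => rw [e2, measure_iUnion d2 hj]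
  exact tsum_congr fun j => (hT j).measure_preimage (hj j).nullMeasurableSet

variable {d : ℕ} {ρ : Measure ℝ} [IsProbabilityMeasure ρ]

/-- Space-time points. -/
abbrev Pt (d : ℕ) := ℕ × Site d

lemma meas_elim : Measurable (fun (w : Env d × Env d) (p : Pt d ⊕ Pt d) =>
    Sum.elim w.1 w.2 p) := by
  refine measurable_pi_iff.2 fun p => ?_
  cases p with
  | inl p => exact (measurable_pi_apply p).comp measurable_fst
  | inr p => exact (measurable_pi_apply p).comp measurable_snd

lemma map_elim : ((law d ρ).prod (law d ρ)).map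
    (fun (w : Env d × Env d) (p : Pt d ⊕ Pt d) => Sum.elim w.1 w.2 p)
      = Measure.infinitePi fun _ : Pt d ⊕ Pt d => ρ := by
  classical
  unfold law
  apply Measure.eq_infinitePi
  intro s t ht
  rw [Measure.map_apply meas_elim (.pi s.countable_toSet fun i _ => ht i)]
  have h1 : (fun (w : Env d × Env d) (p : Pt d ⊕ Pt d) => Sum.elim w.1 w.2 p) ⁻¹'
      (Set.pi (s : Set _) t) = (Set.pi (s.toLeft : Set _) fun p => t (Sum.inl p)) ×ˢ
        (Set.pi (s.toRight : Set _) fun p => t (Sum.inr p)) := by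
    ext w
    simp only [Set.mem_preimage, Set.mem_pi, Finset.mem_coe, Set.mem_prod, Finset.mem_toLeft,
      Finset.mem_toRight]
    constructor
    · intro h
      exact ⟨fun p hp => h _ hp, fun p hp => h _ hp⟩
    · rintro ⟨h, h'⟩ p hp
      cases p with
      | inl p => exact h p hp
      | inr p => exact h' p hp
  rw [h1, Measure.prod_prod, Measure.infinitePi_pi _ (fun i _ => ht _),
    Measure.infinitePi_pi _ (fun i _ => ht _)]
  conv_rhs => rw [← Finset.toLeft_disjSum_toRight (u := s)]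
  rw [Finset.prod_disjSum]

/-- Reindexing two environments together. -/
theorem mp_re {τ : Pt d ⊕ Pt d → Pt d ⊕ Pt d} (hτ : Function.Injective τ) :
    MeasurePreserving (fun w : Env d × Env d =>
      ((fun p => Sum.elim w.1 w.2 (τ (Sum.inl p)) : Env d),
        (fun p => Sum.elim w.1 w.2 (τ (Sum.inr p)) : Env d)))
      ((law d ρ).prod (law d ρ)) ((law d ρ).prod (law d ρ)) := by
  have hE : MeasurePreserving (fun (w : Env d × Env d) (p : Pt d ⊕ Pt d) => Sum.elim w.1 w.2 p)
      ((law d ρ).prod (law d ρ)) (Measure.infinitePi fun _ : Pt d ⊕ Pt d => ρ) :=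
    ⟨meas_elim, map_elim⟩
  have hR : MeasurePreserving (fun (u : Pt d ⊕ Pt d → ℝ) q => u (τ q))
      (Measure.infinitePi fun _ : Pt d ⊕ Pt d => ρ)
      (Measure.infinitePi fun _ : Pt d ⊕ Pt d => ρ) :=
    ⟨by fun_prop, Measure.map_infinitePi_infinitePi_of_inj (P := fun _ : Pt d ⊕ Pt d => ρ) hτ⟩
  have hm : Measurable (fun u : Pt d ⊕ Pt d → ℝ =>
      ((fun p => u (Sum.inl p) : Env d), (fun p => u (Sum.inr p) : Env d))) := by fun_prop
  have hS : MeasurePreserving (fun u : Pt d ⊕ Pt d → ℝ =>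
      ((fun p => u (Sum.inl p) : Env d), (fun p => u (Sum.inr p) : Env d)))
      (Measure.infinitePi fun _ : Pt d ⊕ Pt d => ρ) ((law d ρ).prod (law d ρ)) := by
    refine ⟨hm, ?_⟩
    rw [← map_elim, Measure.map_map hm meas_elim]
    exact Measure.map_id
  exact hS.comp (hR.comp hE)

open Classical in
/-- The sites from which the second environment of a row is read: no exits of `L`. -/
noncomputable def ph (k : Fin d) (L : Finset (Site d)) (y : Site d) : Site d :=
  if (4 : ℤ) • y ∉ L ∧ (4 : ℤ) • y + src k 1 ∈ L then (4 : ℤ) • y + src k 1 else (4 : ℤ) • y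

lemma src_apply (k : Fin d) (x : ℕ) (j : Fin d) : src k x j = if j = k then 2 * (x : ℤ) else 0 := by
  unfold src
  rw [Pi.single_apply]

lemma ph_inj (k : Fin d) (L : Finset (Site d)) : Function.Injective (ph k L) := by
  intro y y' h
  funext j
  have h1 := congrFun h j
  unfold ph at h1
  have h2 := src_apply k 1 j
  split_ifs at h1 h2 <;> simp only [Pi.add_apply, Pi.smul_apply, smul_eq_mul] at h1 <;> omega

lemma ph_exit (k : Fin d) (L : Finset (Site d)) (y : Site d) :
    ¬ (ph k L y ∉ L ∧ ph k L y + src k 1 ∈ L) := by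
  unfold ph
  split_ifs with h
  · exact fun h1 => h1.1 h.2
  · exact h

open Classical in
/-- The index map of the row `t` with the left set `L`. -/
noncomputable def sg (k : Fin d) (L : Finset (Site d)) (t : ℕ) : Pt d ⊕ Pt d → Pt d ⊕ Pt d
  | Sum.inl p => if p.1 = t then (if p.2 ∉ L then (if p.2 + src k 1 ∉ L then
      Sum.inl (p.1, p.2 + src k 1) else Sum.inr p) else Sum.inl p) else Sum.inl p
  | Sum.inr p => if p.1 = t then Sum.inr (p.1, ph k L p.2) else Sum.inr p

lemma sg_inj (k : Fin d) (L : Finset (Site d)) (t : ℕ) : Function.Injective (sg k L t) := by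
  rintro (⟨a, y⟩ | ⟨a, y⟩) (⟨b, z⟩ | ⟨b, z⟩) h
  · simp only [sg] at h
    split_ifs at h with h1 h2 h3 h4 h5 h6 <;>
      simp only [Sum.inl.injEq, Sum.inr.injEq, Prod.mk.injEq] at h ⊢ <;>
      first
        | exact ⟨h.1, add_right_cancel h.2⟩
        | exact h
        | (exfalso; obtain ⟨h8, h9⟩ := h; simp_all)
  · simp only [sg] at h
    have hz := ph_exit k L z
    split_ifs at h <;> simp only [Sum.inr.injEq, Prod.mk.injEq, reduceCtorEq] at h ⊢ <;>
      (obtain ⟨h8, h9⟩ := h; simp_all)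
  · simp only [sg] at h
    have hz := ph_exit k L y
    split_ifs at h <;> simp only [Sum.inr.injEq, Prod.mk.injEq, reduceCtorEq] at h ⊢ <;>
      (obtain ⟨h8, h9⟩ := h; simp_all)
  · simp only [sg] at h
    split_ifs at h with h1 h2 h3 <;> simp only [Sum.inr.injEq, Prod.mk.injEq] at h ⊢
    · exact ⟨h.1, ph_inj k L h.2⟩
    · exact absurd (h.1 ▸ h1) h2
    · exact absurd (h.1 ▸ h3) h1
    · exact h

/-- The change of the row `t`. -/
noncomputable def rowT (k : Fin d) (L : Finset (Site d)) (t : ℕ) (x : Env d × Env d) :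
    Env d × Env d :=
  ((fun p => Sum.elim x.1 x.2 (sg k L t (Sum.inl p)) : Env d),
    (fun p => Sum.elim x.1 x.2 (sg k L t (Sum.inr p)) : Env d))

lemma rowT_ne {k : Fin d} {L : Finset (Site d)} {t : ℕ} {x : Env d × Env d} {p : Pt d}
    (h : p.1 ≠ t) : (rowT k L t x).1 p = x.1 p ∧ (rowT k L t x).2 p = x.2 p := by
  simp [rowT, sg, h]

open Classical in
/-- The new environment for a given family of left sets. -/
noncomputable def omG (k : Fin d) (Q : ℕ → Finset (Site d)) (η ξ : Env d) : Env d := fun p =>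
  if p.2 ∉ Q p.1 then (if p.2 + src k 1 ∉ Q p.1 then η (p.1, p.2 + src k 1) else ξ p) else η p

lemma rowT_eq {k : Fin d} {Q : ℕ → Finset (Site d)} {t : ℕ} {x : Env d × Env d} {p : Pt d}
    (h : p.1 = t) : (rowT k (Q t) t x).1 p = omG k Q x.1 x.2 p := by
  subst h
  unfold rowT omG sg
  dsimp only
  split_ifs <;> simp_all

/-- The left sets depend on the earlier rows only. -/
def Pred (Q : Env d → ℕ → Finset (Site d)) : Prop :=
  ∀ (t : ℕ) (η η' : Env d), (∀ p : Pt d, p.1 < t → η p = η' p) → Q η t = Q η' t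

lemma mp_row {k : Fin d} {Q : Env d → ℕ → Finset (Site d)}
    (hQ : ∀ t j, MeasurableSet {η | Q η t = j}) (hP : Pred Q) (t : ℕ) :
    MeasurePreserving (fun x : Env d × Env d => rowT k (Q x.1 t) t x)
      ((law d ρ).prod (law d ρ)) ((law d ρ).prod (law d ρ)) := by
  refine mp_switch (k := fun x : Env d × Env d => Q x.1 t) (T := fun j => rowT k j t)
    (fun j => ?_) (fun j => mp_re (sg_inj k j t)) fun j x => ?_
  · exact measurable_fst (hQ t j)
  · exact hP t _ _ fun p hp => (rowT_ne (by omega)).1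

/-- The change of the rows `N - 1, ..., 0`. -/
noncomputable def rows (k : Fin d) (Q : Env d → ℕ → Finset (Site d)) :
    ℕ → Env d × Env d → Env d × Env d
  | 0, x => x
  | N + 1, x => rows k Q N (rowT k (Q x.1 N) N x)

lemma mp_rows {k : Fin d} {Q : Env d → ℕ → Finset (Site d)}
    (hQ : ∀ t j, MeasurableSet {η | Q η t = j}) (hP : Pred Q) (N : ℕ) :
    MeasurePreserving (rows k Q N) ((law d ρ).prod (law d ρ)) ((law d ρ).prod (law d ρ)) := by
  induction N with
  | zero => exact MeasurePreserving.id _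
  | succ N ih => exact ih.comp (mp_row hQ hP N)

lemma rows_spec {k : Fin d} {Q : Env d → ℕ → Finset (Site d)} (hP : Pred Q) (N : ℕ) :
    ∀ x : Env d × Env d, (∀ p : Pt d, N ≤ p.1 → (rows k Q N x).1 p = x.1 p) ∧
      ∀ p : Pt d, p.1 < N → (rows k Q N x).1 p = omG k (Q x.1) x.1 x.2 p := by
  induction N with
  | zero => exact fun x => ⟨fun p _ => rfl, fun p h => absurd h (by omega)⟩
  | succ N ih =>
    intro x
    obtain ⟨ih1, ih2⟩ := ih (rowT k (Q x.1 N) N x)
    refine ⟨fun p hp => ?_, fun p hp => ?_⟩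
    · exact (ih1 p (by omega)).trans (rowT_ne (by omega)).1
    · rcases Nat.lt_succ_iff_lt_or_eq.1 hp with h | h
      · refine (ih2 p h).trans ?_
        have e0 : Q (rowT k (Q x.1 N) N x).1 p.1 = Q x.1 p.1 :=
          hP _ _ _ fun q hq => (rowT_ne (by omega)).1
        have e1 : ∀ y : Site d, (rowT k (Q x.1 N) N x).1 (p.1, y) = x.1 (p.1, y) := fun y =>
          (rowT_ne (by simp only [ne_eq]; omega)).1
        have e2 : ∀ y : Site d, (rowT k (Q x.1 N) N x).2 (p.1, y) = x.2 (p.1, y) := fun y =>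
          (rowT_ne (by simp only [ne_eq]; omega)).2
        unfold omG
        rw [e0, e1, show (rowT k (Q x.1 N) N x).2 p = x.2 p from e2 p.2,
          show (rowT k (Q x.1 N) N x).1 p = x.1 p from e1 p.2]
      · exact (ih1 p (by omega)).trans (rowT_eq (Q := Q x.1) h)

theorem mp_omG {k : Fin d} {Q : Env d → ℕ → Finset (Site d)}
    (hQ : ∀ t j, MeasurableSet {η | Q η t = j}) (hP : Pred Q) :
    MeasurePreserving (fun x : Env d × Env d => omG k (Q x.1) x.1 x.2)
      ((law d ρ).prod (law d ρ)) (law d ρ) := by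
  have hm : Measurable (fun x : Env d × Env d => omG k (Q x.1) x.1 x.2) := by
    refine measurable_pi_iff.2 fun p => ?_
    have h1 : (fun x : Env d × Env d => omG k (Q x.1) x.1 x.2 p) =
        fun x => (rows k Q (p.1 + 1) x).1 p :=
      funext fun x => ((rows_spec hP (p.1 + 1) x).2 p (Nat.lt_succ_self _)).symm
    rw [h1]
    exact (measurable_pi_apply p).comp (measurable_fst.comp
      (mp_rows (ρ := Measure.dirac 0) hQ hP (p.1 + 1)).measurable)
  refine ⟨hm, ?_⟩
  have hl : law d ρ = Measure.infinitePi fun _ : Pt d => ρ := rfl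
  conv_rhs => rw [hl]
  refine Measure.eq_infinitePi (μ := fun _ : Pt d => ρ) ?_
  intro s t ht
  have hpi : MeasurableSet (Set.pi (s : Set (Pt d)) t) :=
    MeasurableSet.pi s.countable_toSet fun i _ => ht i
  rw [Measure.map_apply hm hpi]
  obtain ⟨b, hb⟩ : ∃ b : ℕ, ∀ p ∈ s, p.1 < b := by
    refine ⟨(s.sup fun p => p.1) + 1, fun p hp => ?_⟩
    have := Finset.le_sup (f := fun p : Pt d => p.1) hp
    omega
  have e1 : (fun x : Env d × Env d => omG k (Q x.1) x.1 x.2) ⁻¹' (Set.pi (s : Set (Pt d)) t) =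
      (fun x : Env d × Env d => (rows k Q b x).1) ⁻¹' (Set.pi (s : Set (Pt d)) t) := by
    ext x
    simp only [Set.mem_preimage, Set.mem_pi, Finset.mem_coe]
    refine forall₂_congr fun p hp => ?_
    rw [(rows_spec hP b x).2 p (hb p hp)]
  have hf : MeasurePreserving (fun x : Env d × Env d => (rows k Q b x).1)
      ((law d ρ).prod (law d ρ)) (law d ρ) :=
    (measurePreserving_fst (μ := law d ρ) (ν := law d ρ)).comp (mp_rows hQ hP b)
  rw [e1, hf.measure_preimage hpi.nullMeasurableSet, hl, Measure.infinitePi_pi _ fun i _ => ht i]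

/-! ### The left sets of the two sources -/

/-- The change of the last row. -/
noncomputable def fac (β : ℝ) (t : ℕ) (u v : ℝ) : ℝ := if t = 0 then 1 else Real.exp (β * (v - u))

lemma fac_pos (β : ℝ) (t : ℕ) (u v : ℝ) : 0 < fac β t u v := by
  unfold fac
  split_ifs
  · exact one_pos
  · exact Real.exp_pos _

lemma energy_congr {η η' : Env d} {t : ℕ} (h : ∀ p : Pt d, p.1 < t → η p = η' p)
    (s : Fin t → Step d) : energy η' s =
      energy η s + if t = 0 then 0 else η' (t, pos s t) - η (t, pos s t) := by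
  cases t with
  | zero => simp [energy]
  | succ t =>
    rw [if_neg (Nat.succ_ne_zero t)]
    unfold energy
    rw [Fin.sum_univ_castSucc, Fin.sum_univ_castSucc]
    have h1 : ∀ i : Fin t, η' ((i.castSucc : Fin (t + 1)) + 1, pos s ((i.castSucc : Fin (t + 1)) + 1)) =
        η ((i.castSucc : Fin (t + 1)) + 1, pos s ((i.castSucc : Fin (t + 1)) + 1)) := fun i =>
      (h _ (by simp)).symm
    rw [Finset.sum_congr rfl fun i _ => h1 i]
    simp only [Fin.val_last]
    ring

lemma PP_congr (β : ℝ) (h : Vec d) {η η' : Env d} {t : ℕ}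
    (hη : ∀ p : Pt d, p.1 < t → η p = η' p) (y : Site d) :
    PP β h η' t y = fac β t (η (t, y)) (η' (t, y)) * PP β h η t y := by
  classical
  unfold PP ZT
  rw [Finset.mul_sum]
  refine Finset.sum_congr rfl fun s _ => ?_
  by_cases hs : s ∈ {s : Fin t → Step d | pos s t = y}
  · rw [if_pos hs, if_pos hs]
    have h1 : pos s t = y := hs
    unfold wgt fac
    rw [energy_congr hη s, h1]
    split_ifs
    · rw [add_zero, one_mul]
    · rw [← Real.exp_add]
      congr 1
      ring
  · rw [if_neg hs, if_neg hs, mul_zero]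

lemma rt_congr (β : ℝ) (h : Vec d) (k : Fin d) (x : ℕ) (a : ℝ) {η η' : Env d} {t : ℕ}
    (hη : ∀ p : Pt d, p.1 < t → η p = η' p) (y : Site d) :
    rt β h k x a η' (t, y) ↔ rt β h k x a η (t, y) := by
  unfold rt
  dsimp only
  have h1 : ∀ p : Pt d, p.1 < t → sh 0 (src k x) η p = sh 0 (src k x) η' p := fun p hp =>
    hη (p.1 + 0, p.2 + src k x) (by simpa using hp)
  have e : ∀ ζ : Env d, sh 0 (src k x) ζ (t, y - src k x) = ζ (t, y) := by
    intro ζ
    unfold sh
    simp
  rw [PP_congr β h hη y, PP_congr β h h1 (y - src k x), e, e]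
  have hf := fac_pos β t (η (t, y)) (η' (t, y))
  rw [mul_left_comm, mul_le_mul_iff_right₀ hf]

open Classical in
/-- The left sites of the row `t`. -/
noncomputable def lf (β : ℝ) (h : Vec d) (k : Fin d) (x : ℕ) (a : ℝ) (η : Env d) (t : ℕ) :
    Finset (Site d) := (boxF d t).filter fun y => ¬ rt β h k x a η (t, y)

lemma PP_out {β : ℝ} {h : Vec d} {η : Env d} {t : ℕ} {y : Site d} (hy : y ∉ boxF d t) :
    PP β h η t y = 0 := by
  classical
  unfold PP ZT
  refine Finset.sum_eq_zero fun s _ => if_neg ?_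
  intro h1
  have h2 : pos s t = y := h1
  exact hy (h2 ▸ pos_mem_box s t)

lemma rt_out {β : ℝ} {h : Vec d} {k : Fin d} {x : ℕ} {a : ℝ} {η : Env d} {t : ℕ} {y : Site d}
    (hy : y ∉ boxF d t) : rt β h k x a η (t, y) := by
  unfold rt
  dsimp only
  rw [PP_out hy]
  exact mul_nonneg (Real.exp_pos _).le (PP_nonneg _ _ _ _ _)

lemma mem_lf {β : ℝ} {h : Vec d} {k : Fin d} {x : ℕ} {a : ℝ} {η : Env d} {t : ℕ} {y : Site d} :
    y ∉ lf β h k x a η t ↔ rt β h k x a η (t, y) := by
  classical
  unfold lf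
  rw [Finset.mem_filter, not_and_not_right]
  constructor
  · intro h1
    by_contra h2
    exact h2 (rt_out fun h3 => h2 (h1 h3))
  · exact fun h1 _ => h1

lemma om_eq (β : ℝ) (h : Vec d) (k : Fin d) (x : ℕ) (a : ℝ) (η ξ : Env d) :
    om β h k x a η ξ = omG k (lf β h k x a η) η ξ := by
  classical
  funext p
  unfold om omG
  simp only [mem_lf]

lemma pred_lf (β : ℝ) (h : Vec d) (k : Fin d) (x : ℕ) (a : ℝ) : Pred (lf β h k x a) := by
  intro t η η' hη
  ext y
  exact not_iff_not.1 (mem_lf.trans ((rt_congr β h k x a hη y).symm.trans mem_lf.symm))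

lemma meas_rt (β : ℝ) (h : Vec d) (k : Fin d) (x : ℕ) (a : ℝ) (p : Pt d) :
    MeasurableSet {η : Env d | rt β h k x a η p} := by
  unfold rt
  refine measurableSet_le ?_ (Measurable.const_mul ?_ _)
  · exact measurable_ZT β h _
  · exact (measurable_ZT β h _).comp (measurable_sh 0 (src k x))

lemma meas_lf (β : ℝ) (h : Vec d) (k : Fin d) (x : ℕ) (a : ℝ) (t : ℕ) (j : Finset (Site d)) :
    MeasurableSet {η : Env d | lf β h k x a η t = j} := by
  classical
  have h1 : {η : Env d | lf β h k x a η t = j} =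
      ⋂ y : Site d, {η : Env d | rt β h k x a η (t, y) ↔ y ∉ j} := by
    ext η
    simp only [Set.mem_ofPred_eq, Set.mem_iInter]
    constructor
    · rintro rfl y
      exact mem_lf.symm
    · intro h2
      ext y
      exact not_iff_not.1 (mem_lf.trans (h2 y))
  rw [h1]
  refine MeasurableSet.iInter fun y => ?_
  by_cases hy : y ∈ j
  · simp only [hy, not_true_eq_false, iff_false]
    exact (meas_rt β h k x a (t, y)).compl
  · simp only [hy, not_false_eq_true, iff_true]
    exact meas_rt β h k x a (t, y)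

/-- **U2**: the new environment has the law of the environment. -/
theorem lawV (β : ℝ) : LawV d ρ β := by
  intro h k x a
  have h1 : (fun w : Env d × Env d => om β h k x a w.1 w.2) =
      fun w : Env d × Env d => omG k (lf β h k x a w.1) w.1 w.2 :=
    funext fun w => om_eq β h k x a w.1 w.2
  rw [h1]
  exact mp_omG (fun t j => meas_lf β h k x a t j) (pred_lf β h k x a)

end Pool.Agent.W_7d29a1_V.Law20
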