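import Pool.Agent.W_7d29a1_V.DefsV2

/-!
Bad levels: their measure and their measurability.
-/

namespace Pool.Agent.W_7d29a1_V.Lev14

open MeasureTheory ProbabilityTheory Filter Topology Pool.Agent.W_MP_7d29a1_pr
  Pool.Agent.W_7d29a1_h46 Pool.Agent.W_7d29a1_h46u Pool.Agent.W_7d29a1_D2
  Pool.Agent.W_7d29a1_D2.B35 Pool.Agent.W_7d29a1_V

variable {d : ℕ}

/-- Outside the box there is no mass. -/
lemma PP_zero14 (β : ℝ) (h : Vec d) (η : Env d) {i n : ℕ} (hin : i ≤ n) {y : Site d}
    (hy : y ∉ boxF d n) : PP β h η i y = 0 := by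
  classical
  unfold PP ZT
  refine Finset.sum_eq_zero fun s _ => if_neg ?_
  intro hs
  apply hy
  have h1 : pos s i = y := hs
  rw [← h1]
  have h2 := pos_mem_box s i
  rw [mem_boxF] at h2 ⊢
  intro j
  have h3 := h2 j
  have h4 : (i : ℤ) ≤ n := by exact_mod_cast hin
  exact h3.trans h4

/-- The bad levels at one site. -/
lemma site14 (β : ℝ) (h : Vec d) (k : Fin d) (x : ℕ) {g : ℝ} (hg : 0 < g) (a : ℝ) (η : Env d)
    (i : ℕ) (y : Site d)
    (hbad : ¬ ((1 + g) * (Real.exp (-a) * PP β h (sh 0 (src k x) η) i (y - src k x)) ≤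
        PP β h η i y ∨
      (1 + g) * PP β h η i y ≤
        Real.exp (-a) * PP β h (sh 0 (src k x) η) i (y - src k x))) :
    PP β h η i y ≠ 0 ∧
      a ∈ Set.Icc (Real.log (PP β h (sh 0 (src k x) η) i (y - src k x)) -
          Real.log (PP β h η i y) - g)
        (Real.log (PP β h (sh 0 (src k x) η) i (y - src k x)) -
          Real.log (PP β h η i y) + g) := by
  set P := PP β h η i y with hP
  set Q := PP β h (sh 0 (src k x) η) i (y - src k x) with hQ
  have hP0 : 0 ≤ P := PP_nonneg _ _ _ _ _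
  have hQ0 : 0 ≤ Q := PP_nonneg _ _ _ _ _
  push Not at hbad
  obtain ⟨h1, h2⟩ := hbad
  have hE : 0 < Real.exp (-a) := Real.exp_pos _
  have hP1 : 0 < P := by
    rcases hP0.lt_or_eq with h3 | h3
    · exact h3
    · exfalso
      rw [← h3, mul_zero] at h2
      exact absurd h2 (not_lt.2 (mul_nonneg hE.le hQ0))
  have hQ1 : 0 < Q := by
    rcases hQ0.lt_or_eq with h3 | h3
    · exact h3
    · exfalso
      rw [← h3, mul_zero, mul_zero] at h1
      exact absurd h1 (not_lt.2 hP0)
  have hl : Real.log (1 + g) ≤ g := by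
    have h3 := Real.log_le_sub_one_of_pos (show 0 < 1 + g by linarith)
    linarith
  have h3 := Real.log_lt_log hP1 h1
  rw [Real.log_mul (by positivity) (by positivity), Real.log_mul hE.ne' hQ1.ne',
    Real.log_exp] at h3
  have h4 := Real.log_lt_log (mul_pos hE hQ1) h2
  rw [Real.log_mul hE.ne' hQ1.ne', Real.log_exp, Real.log_mul (by positivity) hP1.ne'] at h4
  refine ⟨hP1.ne', ?_⟩
  constructor <;> linarith

/-- The set of the bad levels is small. -/
theorem badlev14 (β : ℝ) (h : Vec d) (n : ℕ) (k : Fin d) (x : ℕ) {g : ℝ} (hg : 0 < g)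
    (η : Env d) :
    volume {a : ℝ | ¬ GdL β h n k x g a η} ≤
      ENNReal.ofReal (2 * g * ((n + 1) * (2 * n + 1) ^ d)) := by
  classical
  set I : ℕ × Site d → Set ℝ := fun p =>
    Set.Icc (Real.log (PP β h (sh 0 (src k x) η) p.1 (p.2 - src k x)) -
        Real.log (PP β h η p.1 p.2) - g)
      (Real.log (PP β h (sh 0 (src k x) η) p.1 (p.2 - src k x)) -
        Real.log (PP β h η p.1 p.2) + g) with hI
  have hsub : {a : ℝ | ¬ GdL β h n k x g a η} ⊆
      ⋃ p ∈ (Finset.range (n + 1)) ×ˢ boxF d n, I p := by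
    intro a ha
    have h1 : ¬ GdL β h n k x g a η := ha
    unfold GdL at h1
    push Not at h1
    obtain ⟨i, hi, y, h2, h3⟩ := h1
    have h4 := site14 β h k x hg a η i y (by
      push Not
      exact ⟨h2, h3⟩)
    have hy : y ∈ boxF d n := by
      by_contra hy
      exact h4.1 (PP_zero14 β h η hi hy)
    rw [Set.mem_iUnion₂]
    exact ⟨(i, y), Finset.mem_product.2 ⟨Finset.mem_range.2 (by omega), hy⟩, h4.2⟩
  have hcard : ((Finset.range (n + 1)) ×ˢ boxF d n).card = (n + 1) * (2 * n + 1) ^ d := by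
    rw [Finset.card_product, Finset.card_range]
    have h1 := card_boxF d n
    rw [h1]
  calc volume {a : ℝ | ¬ GdL β h n k x g a η}
      ≤ volume (⋃ p ∈ (Finset.range (n + 1)) ×ˢ boxF d n, I p) := measure_mono hsub
    _ ≤ ∑ p ∈ (Finset.range (n + 1)) ×ˢ boxF d n, volume (I p) :=
        measure_biUnion_finset_le _ _
    _ = ∑ _p ∈ (Finset.range (n + 1)) ×ˢ boxF d n, ENNReal.ofReal (2 * g) := by
        refine Finset.sum_congr rfl fun p _ => ?_
        rw [hI]
        simp only [Real.volume_Icc]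
        congr 1
        ring
    _ = ENNReal.ofReal (2 * g * ((n + 1) * (2 * n + 1) ^ d)) := by
        rw [Finset.sum_const, hcard, nsmul_eq_mul, ← ENNReal.ofReal_natCast,
          ← ENNReal.ofReal_mul (by positivity)]
        congr 1
        push_cast
        ring

lemma measurable_PP14 (β : ℝ) (h : Vec d) (i : ℕ) (y : Site d) :
    Measurable fun η : Env d => PP β h η i y := measurable_ZT β h _

lemma measurable_sh14 (t : ℕ) (y : Site d) : Measurable fun η : Env d => sh t y η := by
  unfold sh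
  exact measurable_pi_lambda _ fun p => measurable_pi_apply _

/-- The good levels form a measurable set. -/
theorem measurableSet_GdL14 (β : ℝ) (h : Vec d) (n : ℕ) (k : Fin d) (x : ℕ) (g : ℝ) :
    MeasurableSet {w : ℝ × Env d | GdL β h n k x g w.1 w.2} := by
  have hP : ∀ (i : ℕ) (y : Site d), Measurable fun w : ℝ × Env d => PP β h w.2 i y :=
    fun i y => (measurable_PP14 β h i y).comp measurable_snd
  have hQ : ∀ (i : ℕ) (y : Site d), Measurable fun w : ℝ × Env d =>
      Real.exp (-w.1) * PP β h (sh 0 (src k x) w.2) i y := fun i y =>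
    (Real.measurable_exp.comp measurable_fst.neg).mul
      (((measurable_PP14 β h i y).comp (measurable_sh14 0 (src k x))).comp measurable_snd)
  have heq : {w : ℝ × Env d | GdL β h n k x g w.1 w.2} =
      ⋂ i : ℕ, ⋂ (_ : i ≤ n), ⋂ y : Site d,
        ({w : ℝ × Env d | (1 + g) * (Real.exp (-w.1) *
            PP β h (sh 0 (src k x) w.2) i (y - src k x)) ≤ PP β h w.2 i y} ∪
          {w : ℝ × Env d | (1 + g) * PP β h w.2 i y ≤
            Real.exp (-w.1) * PP β h (sh 0 (src k x) w.2) i (y - src k x)}) := by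
    ext w
    simp only [Set.mem_iInter, Set.mem_union, Set.mem_ofPred_eq]
    rfl
  rw [heq]
  refine MeasurableSet.iInter fun i => MeasurableSet.iInter fun _ =>
    MeasurableSet.iInter fun y => ?_
  exact (measurableSet_le ((hQ i (y - src k x)).const_mul _) (hP i y)).union
    (measurableSet_le ((hP i y).const_mul _) (hQ i (y - src k x)))

/-- The bad levels form a measurable set. -/
theorem measurableSet_bad14 (β : ℝ) (h : Vec d) (n : ℕ) (k : Fin d) (x : ℕ) (g : ℝ) :
    MeasurableSet {w : ℝ × Env d | ¬ GdL β h n k x g w.1 w.2} :=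
  (measurableSet_GdL14 β h n k x g).compl

/-- The section at a fixed level. -/
theorem measurableSet_badlevel14 (β : ℝ) (h : Vec d) (n : ℕ) (k : Fin d) (x : ℕ) (g a : ℝ) :
    MeasurableSet {η : Env d | ¬ GdL β h n k x g a η} :=
  measurable_prodMk_left (measurableSet_bad14 β h n k x g)

/-- The section at a fixed environment. -/
theorem measurableSet_badenv14 (β : ℝ) (h : Vec d) (n : ℕ) (k : Fin d) (x : ℕ) (g : ℝ)
    (η : Env d) : MeasurableSet {a : ℝ | ¬ GdL β h n k x g a η} :=
  measurable_prodMk_right (measurableSet_bad14 β h n k x g)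

/-- The mixture is jointly measurable. -/
theorem measurable_Za14 (β : ℝ) (h : Vec d) (n : ℕ) (k : Fin d) (x : ℕ) :
    Measurable fun w : ℝ × Env d => Za β h n k w.1 x w.2 := by
  unfold Za
  exact ((measurable_Z β h n).comp measurable_snd).add
    ((Real.measurable_exp.comp measurable_fst.neg).mul
      (((measurable_Z β h n).comp (measurable_sh14 0 (src k x))).comp measurable_snd))

/-- The bad levels weighted over the environments and over `a`. -/
theorem fubini14 {ρ : Measure ℝ} [IsProbabilityMeasure ρ] (β : ℝ) (h : Vec d) (n : ℕ)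
    (k : Fin d) (x : ℕ) {g : ℝ} (hg : 0 < g) :
    ∫⁻ a, (law d ρ) {η | ¬ GdL β h n k x g a η} ≤
      ENNReal.ofReal (2 * g * ((n + 1) * (2 * n + 1) ^ d)) := by
  have hm := measurableSet_bad14 β h n k x g
  have h1 : ∫⁻ a, (law d ρ) {η | ¬ GdL β h n k x g a η} =
      (volume.prod (law d ρ)) {w : ℝ × Env d | ¬ GdL β h n k x g w.1 w.2} := by
    rw [Measure.prod_apply hm]
    rfl
  rw [h1, Measure.prod_apply_symm hm]
  calc ∫⁻ η, volume ((fun a => (a, η)) ⁻¹' {w : ℝ × Env d | ¬ GdL β h n k x g w.1 w.2})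
        ∂(law d ρ)
      ≤ ∫⁻ _η, ENNReal.ofReal (2 * g * ((n + 1) * (2 * n + 1) ^ d)) ∂(law d ρ) :=
        lintegral_mono fun η => badlev14 β h n k x hg η
    _ = _ := by rw [lintegral_const, measure_univ, mul_one]

end Pool.Agent.W_7d29a1_V.Lev14
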