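import Pool.Agent.W_7d29a1_V.Lev14

/-!
The bad levels with the weight `a ^ (2 r)`.
-/

namespace Pool.Agent.W_7d29a1_V.LevB14

open MeasureTheory ProbabilityTheory Filter Topology Pool.Agent.W_MP_7d29a1_pr
  Pool.Agent.W_7d29a1_h46 Pool.Agent.W_7d29a1_h46u Pool.Agent.W_7d29a1_D2
  Pool.Agent.W_7d29a1_D2.B35 Pool.Agent.W_7d29a1_V Pool.Agent.W_7d29a1_V.Lev14

variable {d : ℕ}

/-- The probability of a bad level is measurable. -/
lemma measurable_prob14 {ρ : Measure ℝ} [IsProbabilityMeasure ρ] (β : ℝ) (h : Vec d) (n : ℕ)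
    (k : Fin d) (x : ℕ) (g : ℝ) :
    Measurable fun a : ℝ => (law d ρ).real {η | ¬ GdL β h n k x g a η} := by
  have h1 := measurable_measure_prodMk_left (ν := law d ρ) (measurableSet_bad14 β h n k x g)
  exact h1.ennreal_toReal

/-- Everything is interval integrable. -/
lemma intervalIntegrable14 {ρ : Measure ℝ} [IsProbabilityMeasure ρ] (β : ℝ) (h : Vec d) (n : ℕ)
    (k : Fin d) (x : ℕ) (g : ℝ) (r : ℕ) (A B : ℝ) :
    IntervalIntegrable (fun a : ℝ => a ^ (2 * r) *
      (law d ρ).real {η | ¬ GdL β h n k x g a η}) volume A B := by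
  have h1 : IntervalIntegrable (fun a : ℝ => a ^ (2 * r)) volume A B :=
    (continuous_pow (2 * r)).intervalIntegrable A B
  rw [intervalIntegrable_iff] at h1 ⊢
  refine h1.mul_bdd (c := 1) (measurable_prob14 β h n k x g).aestronglyMeasurable ?_
  filter_upwards with a
  rw [Real.norm_eq_abs, abs_of_nonneg measureReal_nonneg]
  exact measureReal_le_one

/-- The bad levels with the weight `a ^ (2 r)`. -/
theorem weight14 {ρ : Measure ℝ} [IsProbabilityMeasure ρ] (β : ℝ) (h : Vec d) (n : ℕ)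
    (k : Fin d) (x : ℕ) {g : ℝ} (hg : 0 < g) (r : ℕ) {A : ℝ} (hA : 0 ≤ A) :
    ∫ a in (-A)..A, a ^ (2 * r) * (law d ρ).real {η | ¬ GdL β h n k x g a η} ≤
      A ^ (2 * r) * (2 * g * ((n + 1) * (2 * n + 1) ^ d)) := by
  have hAA : -A ≤ A := by linarith
  have i0 := intervalIntegrable14 (ρ := ρ) β h n k x g 0 (-A) A
  simp only [mul_zero, pow_zero, one_mul] at i0
  have h1 : ∫ a in (-A)..A, a ^ (2 * r) * (law d ρ).real {η | ¬ GdL β h n k x g a η} ≤
      ∫ a in (-A)..A, A ^ (2 * r) * (law d ρ).real {η | ¬ GdL β h n k x g a η} := by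
    refine intervalIntegral.integral_mono_on hAA (intervalIntegrable14 β h n k x g r _ _)
      (i0.const_mul _) fun a ha => ?_
    refine mul_le_mul_of_nonneg_right ?_ measureReal_nonneg
    rw [pow_mul, pow_mul]
    refine pow_le_pow_left₀ (sq_nonneg a) ?_ r
    exact sq_le_sq' ha.1 ha.2
  refine h1.trans ?_
  rw [intervalIntegral.integral_const_mul]
  refine mul_le_mul_of_nonneg_left ?_ (pow_nonneg hA _)
  rw [intervalIntegral.integral_of_le hAA,
    integral_eq_lintegral_of_nonneg_ae (by filter_upwards with a using measureReal_nonneg)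
      (measurable_prob14 β h n k x g).aestronglyMeasurable]
  refine ENNReal.toReal_le_of_le_ofReal (by positivity) ?_
  calc ∫⁻ a in Set.Ioc (-A) A, ENNReal.ofReal ((law d ρ).real {η | ¬ GdL β h n k x g a η})
      ≤ ∫⁻ a, ENNReal.ofReal ((law d ρ).real {η | ¬ GdL β h n k x g a η}) :=
        setLIntegral_le_lintegral _ _
    _ = ∫⁻ a, (law d ρ) {η | ¬ GdL β h n k x g a η} := by
        refine lintegral_congr fun a => ?_
        exact ofReal_measureReal
    _ ≤ _ := fubini14 β h n k x hg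

end Pool.Agent.W_7d29a1_V.LevB14
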