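import Mathlib

/-!
A convex function of one real variable has an upper parabola at almost every point.
-/

namespace Pool.Agent.W_7d29a1_V.LinAe80

open MeasureTheory Filter Topology Set

/-- The right derivative is a subgradient. -/
theorem sub_right {f : ℝ → ℝ} (hf : ConvexOn ℝ Set.univ f) (x r : ℝ) :
    f x + derivWithin f (Ioi x) x * r ≤ f (x + r) := by
  have hx : x ∈ interior (Set.univ : Set ℝ) := by simp
  rcases lt_trichotomy r 0 with hr | hr | hr
  · have h1 := hf.slope_le_leftDeriv_of_mem_interior (mem_univ (x + r)) hx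
      (show x + r < x by linarith)
    have h2 := h1.trans (hf.leftDeriv_le_rightDeriv_of_mem_interior hx)
    rw [slope_def_field, div_le_iff₀ (by linarith)] at h2
    have e1 : x - (x + r) = -r := by ring
    rw [e1] at h2
    linarith
  · rw [hr]
    simp
  · have h1 := hf.rightDeriv_le_slope_of_mem_interior hx (mem_univ (x + r))
      (show x < x + r by linarith)
    rw [slope_def_field, le_div_iff₀ (by linarith)] at h1
    have e1 : x + r - x = r := by ring
    rw [e1] at h1
    linarith

/-- The right derivative is monotone. -/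
theorem mono_right {f : ℝ → ℝ} (hf : ConvexOn ℝ Set.univ f) :
    Monotone fun x => derivWithin f (Ioi x) x := by
  intro x y hxy
  exact hf.monotoneOn_rightDeriv (by simp) (by simp) hxy

/-- A convex function has an upper parabola at almost every point. -/
theorem ae_par80 {f : ℝ → ℝ} (hf : ConvexOn ℝ Set.univ f) :
    ∀ᵐ x : ℝ, ∃ s C δ : ℝ, 0 < δ ∧ (∀ r : ℝ, f x + s * r ≤ f (x + r)) ∧
      ∀ r : ℝ, |r| ≤ δ → f (x + r) - f x - s * r ≤ C * |r| ^ (2 : ℝ) := by
  filter_upwards [(mono_right hf).ae_differentiableAt] with x hx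
  obtain ⟨C, hC⟩ := hx.isBigO_sub.bound
  rw [Metric.eventually_nhds_iff] at hC
  obtain ⟨δ, hδ, H⟩ := hC
  refine ⟨derivWithin f (Ioi x) x, C, δ / 2, by linarith, sub_right hf x, fun r hr => ?_⟩
  have h1 := H (show dist (x + r) x < δ by
    rw [Real.dist_eq]
    have e1 : x + r - x = r := by ring
    rw [e1]
    linarith)
  have e1 : x + r - x = r := by ring
  rw [e1, Real.norm_eq_abs, Real.norm_eq_abs] at h1
  have h2 := sub_right hf (x + r) (-r)
  have e2 : x + r + -r = x := by ring
  rw [e2] at h2
  have h3 : (derivWithin f (Ioi (x + r)) (x + r) - derivWithin f (Ioi x) x) * r ≤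
      C * |r| * |r| := by
    refine (le_abs_self _).trans ?_
    rw [abs_mul]
    exact mul_le_mul_of_nonneg_right h1 (abs_nonneg r)
  rw [Real.rpow_two]
  nlinarith

end Pool.Agent.W_7d29a1_V.LinAe80
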