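import Pool.Agent.W_7d29a1_V.LinAe80
import Pool.Agent.W_7d29a1_V.DefsL70

/-!
The free energy has an upper parabola at almost every tilt of every line.
-/

namespace Pool.Agent.W_7d29a1_V.LinAe80

open MeasureTheory ProbabilityTheory Filter Topology Pool.Agent.W_MP_7d29a1_pr
  Pool.Agent.W_7d29a1_h46 Pool.Agent.W_7d29a1_h46u Pool.Agent.W_7d29a1_D2

variable {d : ℕ} {ρ : Measure ℝ} [IsProbabilityMeasure ρ]

/-- The free energy on a line is convex. -/
theorem conv_line80 (hd : 0 < d) (hρ : EM ρ) (β : ℝ) (h0 u : Vec d) :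
    ConvexOn ℝ Set.univ fun r : ℝ => lam ρ β (h0 + r • u) := by
  refine ⟨convex_univ, fun x _ y _ a b ha hb hab => ?_⟩
  have h1 := (lam_convex (ρ := ρ) hd hρ β).2 (Set.mem_univ (h0 + x • u))
    (Set.mem_univ (h0 + y • u)) ha hb hab
  have h2 : a • (h0 + x • u) + b • (h0 + y • u) = h0 + (a • x + b • y) • u := by
    have e1 : h0 = (a + b) • h0 := by rw [hab, one_smul]
    nth_rewrite 3 [e1]
    simp only [smul_eq_mul]
    module
  simp only at h1 ⊢
  rw [h2] at h1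
  exact h1

/-- The free energy has an upper parabola at almost every tilt of every line. -/
theorem ae_line80 (hd : 0 < d) (hρ : EM ρ) (β : ℝ) (h0 u : Vec d) :
    ∀ᵐ r : ℝ, ∃ s : ℝ, (∀ t : ℝ, lam ρ β (h0 + r • u) + s * t ≤ lam ρ β (h0 + r • u + t • u)) ∧
      ∃ C δ : ℝ, 0 < δ ∧ ∀ t : ℝ, |t| ≤ δ →
        lam ρ β (h0 + r • u + t • u) - lam ρ β (h0 + r • u) - s * t ≤ C * |t| ^ (2 : ℝ) := by
  filter_upwards [ae_par80 (conv_line80 (ρ := ρ) hd hρ β h0 u)] with r hr
  obtain ⟨s, C, δ, hδ, H1, H2⟩ := hr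
  have e1 : ∀ t : ℝ, h0 + (r + t) • u = h0 + r • u + t • u := fun t => by module
  refine ⟨s, fun t => ?_, C, δ, hδ, fun t ht => ?_⟩
  · have := H1 t
    rw [e1] at this
    exact this
  · have := H2 t ht
    rw [e1] at this
    exact this

end Pool.Agent.W_7d29a1_V.LinAe80
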