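import Pool.Agent.W_7d29a1_V.DefsL70
import Pool.Agent.W_7d29a1_h46.Peano

/-!
Almost every tilt of a line: the quadratic upper bound of the free energy along the line.
-/

namespace Pool.Agent.W_7d29a1_V

open MeasureTheory ProbabilityTheory Filter Topology Pool.Agent.W_MP_7d29a1_pr
  Pool.Agent.W_7d29a1_h46 Pool.Agent.W_7d29a1_h46u Pool.Agent.W_7d29a1_D2

namespace LineAE96

/-- The slope of a second order upper bound is a slope of support. -/
lemma sub_of_expd {f : ℝ → ℝ} (hf : ConvexOn ℝ Set.univ f) {x v : ℝ} (hE : Expd f 1 x v) (r : ℝ) :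
    f x + v * r ≤ f (x + r) := by
  obtain ⟨C, hC⟩ := hE
  have hs : ∀ y, f x + PeanoG f x * (y - x) ≤ f y := fun y => Peano_sub hf x y
  have key : PeanoG f x = v := by
    by_contra hne
    obtain ⟨D, hD⟩ : ∃ D : ℝ, D = |C| + 1 := ⟨_, rfl⟩
    have hD0 : 0 < D := by
      rw [hD]
      positivity
    have hg : 0 < |PeanoG f x - v| := abs_pos.2 (sub_ne_zero.2 hne)
    -- the size and the sign of the step
    obtain ⟨t, ht⟩ : ∃ t : ℝ, t = min 1 (|PeanoG f x - v| / (2 * D)) := ⟨_, rfl⟩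
    have ht0 : 0 < t := by
      rw [ht]
      exact lt_min one_pos (by positivity)
    have ht1 : t ≤ 1 := by
      rw [ht]
      exact min_le_left _ _
    have ht2 : t * (2 * D) ≤ |PeanoG f x - v| := by
      have h1 : t ≤ |PeanoG f x - v| / (2 * D) := by
        rw [ht]
        exact min_le_right _ _
      rwa [le_div_iff₀ (by positivity)] at h1
    have h2 : ∀ y : ℝ, |y| = t → (PeanoG f x - v) * y ≤ D * t ^ 2 := by
      intro y hy
      have h3 := hC y (by rw [hy]; exact ht1)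
      have h4 := hs (x + y)
      rw [add_sub_cancel_left] at h4
      rw [hy] at h3
      have h5 : t ^ (1 + (1 : ℝ)) = t ^ 2 := by
        rw [← Real.rpow_natCast]
        norm_num
      rw [h5] at h3
      have h6 : C * t ^ 2 ≤ D * t ^ 2 := by
        refine mul_le_mul_of_nonneg_right ?_ (sq_nonneg t)
        rw [hD]
        linarith [le_abs_self C]
      linarith
    have h3 : |PeanoG f x - v| * t ≤ D * t ^ 2 := by
      rcases le_total 0 (PeanoG f x - v) with h4 | h4
      · rw [abs_of_nonneg h4]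
        exact h2 t (abs_of_pos ht0)
      · rw [abs_of_nonpos h4]
        have := h2 (-t) (by rw [abs_neg, abs_of_pos ht0])
        linarith
    have h4 : t * (2 * D) * t ≤ D * t ^ 2 := (mul_le_mul_of_nonneg_right ht2 ht0.le).trans h3
    have h5 : 0 < D * t ^ 2 := by positivity
    nlinarith
  have h1 := hs (x + r)
  rw [add_sub_cancel_left, key] at h1
  exact h1

/-- Upper parabolas at almost every point. -/
theorem parab_ae {f : ℝ → ℝ} (hf : ConvexOn ℝ Set.univ f) :
    ∀ᵐ x : ℝ, ∃ s : ℝ, (∀ r : ℝ, f x + s * r ≤ f (x + r)) ∧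
      ∃ C δ : ℝ, 0 < δ ∧ ∀ r : ℝ, |r| ≤ δ → f (x + r) - f x - s * r ≤ C * |r| ^ (2 : ℝ) := by
  filter_upwards [ae_expd hf] with x hx
  obtain ⟨v, hv⟩ := hx
  refine ⟨v, sub_of_expd hf hv, ?_⟩
  obtain ⟨C, hC⟩ := hv
  refine ⟨C, 1, one_pos, fun r hr => ?_⟩
  have h1 := hC r hr
  have h2 : (1 : ℝ) + 1 = 2 := by norm_num
  rw [h2] at h1
  linarith

end LineAE96

open LineAE96

variable {d : ℕ} {ρ : Measure ℝ} [IsProbabilityMeasure ρ] {β : ℝ}

/-- Almost every tilt of every line, from the bound at the tilts with an upper parabola. -/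
theorem line_ae_of {L : Vec d → ℝ} (hL : ConvexOn ℝ Set.univ L) {E : Vec d → ℝ} {h0 u : Vec d}
    (H : ∀ (h : Vec d) (s : ℝ), (∀ r : ℝ, L h + s * r ≤ L (h + r • u)) →
      (∃ C δ : ℝ, 0 < δ ∧ ∀ r : ℝ, |r| ≤ δ → L (h + r • u) - L h - s * r ≤ C * |r| ^ (2 : ℝ)) →
      E h ≤ 1 / (2 + 1)) :
    ∀ᵐ r : ℝ, E (h0 + r • u) ≤ 1 / 3 := by
  have hf : ConvexOn ℝ Set.univ fun r : ℝ => L (h0 + r • u) := by
    refine ⟨convex_univ, fun a _ b _ x y hx hy hxy => ?_⟩
    have h1 := hL.2 (Set.mem_univ (h0 + a • u)) (Set.mem_univ (h0 + b • u)) hx hy hxy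
    have h2 : h0 + (x • a + y • b) • u = x • (h0 + a • u) + y • (h0 + b • u) := by
      have h3 : h0 = (x + y) • h0 := by rw [hxy, one_smul]
      nth_rewrite 1 [h3]
      simp only [smul_eq_mul]
      module
    simp only
    rw [h2]
    exact h1
  filter_upwards [parab_ae hf] with x hx
  obtain ⟨s, hs, hU⟩ := hx
  have e1 : ∀ r : ℝ, h0 + (x + r) • u = h0 + x • u + r • u := by
    intro r
    rw [add_smul, add_assoc]
  simp only [e1] at hs hU
  have h1 := H (h0 + x • u) s hs hU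
  have h2 : (1 : ℝ) / (2 + 1) = 1 / 3 := by norm_num
  rwa [h2] at h1

end Pool.Agent.W_7d29a1_V
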