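import Pool.Agent.W_7d29a1_V.Main46
import Pool.Agent.W_7d29a1_V.FixL70
import Pool.Agent.W_7d29a1_V.FarL70
import Pool.Agent.W_7d29a1_V.SlbL96
import Pool.Agent.W_7d29a1_V.BooL80
import Pool.Agent.W_7d29a1_V.AeLT7
import Pool.Agent.W_7d29a1_V.LineAE96

/-!
The fluctuations on one line of tilts: `χ ≤ 1 / (p + 1)` from an upper bound of order `p` of the
free energy on one line through `h`, and `χ ≤ 1 / 3` at almost every tilt of every line.
-/

namespace Pool.Agent.W_7d29a1_V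

open MeasureTheory ProbabilityTheory Filter Topology Pool.Agent.W_MP_7d29a1_pr
  Pool.Agent.W_7d29a1_h46 Pool.Agent.W_7d29a1_h46u Pool.Agent.W_7d29a1_D2

variable {d : ℕ} {ρ : Measure ℝ} [IsProbabilityMeasure ρ] {β : ℝ}
  {Ω : Type*} [MeasurableSpace Ω] {μ : Measure Ω} [IsProbabilityMeasure μ]
  {ω : ℕ × Site d → Ω → ℝ}

/-- The case of a direction with a coordinate of absolute value at least `1`. -/
theorem line_pow1 (hd : 0 < d) (hω : IID μ ρ ω) (hρ : EM ρ) {h u : Vec d} {k : Fin d}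
    (hk : 1 ≤ |u k|) {s p : ℝ} (hp : 1 < p)
    (hs : ∀ r : ℝ, lam ρ β h + s * r ≤ lam ρ β (h + r • u))
    (hU : ∃ C δ : ℝ, 0 < δ ∧ ∀ r : ℝ, |r| ≤ δ →
      lam ρ β (h + r • u) - lam ρ β h - s * r ≤ C * |r| ^ p) :
    chiF μ β ω h ≤ 1 / (p + 1) :=
  chi_le_line (s := s) (u := u) hd hω hρ hp (BooL80.flL_half80 hd hρ β h u p)
    (fun x hx _ hT => BooL80.flL_step80 hd hρ
      (slbV96 hd hρ β _ hk (spaceV46 hd hρ β (‖h‖ + 1))) hp (le_trans (by positivity) hx) hT)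
    (fun x hx hx1 hF => tubL7 hd hρ hp hs hU hx hx1 hF)

/-- **The fluctuations at a tilt with an upper bound of order `p > 1` of the free energy on one
line through it.** -/
theorem line_pow (hd : 0 < d) (hω : IID μ ρ ω) (hρ : EM ρ) {h u : Vec d} (hu : u ≠ 0)
    {s p : ℝ} (hp : 1 < p)
    (hs : ∀ r : ℝ, lam ρ β h + s * r ≤ lam ρ β (h + r • u))
    (hU : ∃ C δ : ℝ, 0 < δ ∧ ∀ r : ℝ, |r| ≤ δ →
      lam ρ β (h + r • u) - lam ρ β h - s * r ≤ C * |r| ^ p) :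
    chiF μ β ω h ≤ 1 / (p + 1) := by
  obtain ⟨k, hk⟩ := exists_norm_coord hu
  have hk0 : 0 < |u k| := abs_pos.2 hk
  obtain ⟨h1, h2⟩ := line_scale (inv_pos.2 hk0) hs hU
  refine line_pow1 (k := k) (u := |u k|⁻¹ • u) hd hω hρ ?_ hp h1 h2
  rw [PiLp.smul_apply, smul_eq_mul, abs_mul, abs_inv, abs_abs, inv_mul_cancel₀ hk0.ne']

/-- **On every line of tilts `χ ≤ 1 / 3` almost everywhere.** -/
theorem line_ae (hd : 0 < d) (hω : IID μ ρ ω) (hρ : EM ρ) {h0 u : Vec d} (hu : u ≠ 0) :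
    ∀ᵐ r : ℝ, chiF μ β ω (h0 + r • u) ≤ 1 / 3 :=
  line_ae_of (lam_convex hd hρ β) (fun _ _ hs hU => line_pow hd hω hρ hu one_lt_two hs hU)

end Pool.Agent.W_7d29a1_V
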