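import Pool.Agent.W_7d29a1_V.LipB74

/-!
Chains of blocks: masses of the walks through given space time points.
-/

namespace Pool.Agent.W_7d29a1_V.LipC74

open MeasureTheory ProbabilityTheory Filter Topology Pool.Agent.W_MP_7d29a1_pr
  Pool.Agent.W_7d29a1_h46 Pool.Agent.W_7d29a1_h46u Pool.Agent.W_7d29a1_D2
  Pool.Agent.W_7d29a1_D2.B35 Pool.Agent.W_7d29a1_V Pool.Agent.W_7d29a1_V.LipA74
  Pool.Agent.W_7d29a1_V.LipB74

variable {d : ℕ}

lemma sh_sh (t t' : ℕ) (x x' : Site d) (η : Env d) :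
    sh t x (sh t' x' η) = sh (t' + t) (x' + x) η := by
  funext p
  unfold sh
  simp only
  rw [show p.1 + t + t' = p.1 + (t' + t) by ring, show p.2 + x + x' = p.2 + (x' + x) by abel]

lemma sh_zero (η : Env d) : sh 0 0 η = η := TubV_sh η

lemma PP_pos (β : ℝ) (h : Vec d) (η : Env d) {m : ℕ} {z : Site d} (hz : Rch m z) :
    0 < PP β h η m z := by
  obtain ⟨q, hq⟩ := hz
  exact ZT_pos β h η ⟨q, hq⟩

lemma PP_zero (β : ℝ) (h : Vec d) (η : Env d) : PP β h η 0 0 = 1 := by
  rw [← Z_zero β h η]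
  unfold PP Z
  congr 1
  ext s
  simp only [Set.mem_univ, iff_true]
  change pos s 0 = 0
  exact pos_zero' s

/-- Splitting at a given place. -/
lemma split (β : ℝ) (h : Vec d) (η : Env d) {i k : ℕ} (S : Set (Fin (i + k) → Step d)) (x : Site d)
    (S' : Set (Fin k → Step d))
    (hS : ∀ (s : Fin i → Step d) (q : Fin k → Step d), Fin.append s q ∈ S → pos s i = x ∧ q ∈ S') :
    ZT β h η S ≤ PP β h η i x * ZT β h (sh i x η) S' := by
  classical
  unfold PP ZT
  rw [Finset.sum_mul_sum, sum_glue]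
  refine Finset.sum_le_sum fun s _ => Finset.sum_le_sum fun q _ => ?_
  by_cases hs : Fin.append s q ∈ S
  · obtain ⟨h1, h2⟩ := hS s q hs
    rw [if_pos hs, if_pos (show s ∈ {s : Fin i → Step d | pos s i = x} from h1), if_pos h2,
      wgt_glue, h1]
  · rw [if_neg hs]
    refine mul_nonneg ?_ ?_
    · split_ifs
      · exact (wgt_pos _ _ _ _).le
      · exact le_rfl
    · split_ifs
      · exact (wgt_pos _ _ _ _).le
      · exact le_rfl

/-- The total length. -/
def len : List (ℕ × Site d) → ℕ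
  | [] => 0
  | p :: L => p.1 + len L

/-- The total displacement. -/
def dsp : List (ℕ × Site d) → Site d
  | [] => 0
  | p :: L => p.2 + dsp L

/-- The product of the masses of the blocks. -/
noncomputable def ch (β : ℝ) (h : Vec d) : Env d → List (ℕ × Site d) → ℝ
  | _, [] => 1
  | η, p :: L => PP β h η p.1 p.2 * ch β h (sh p.1 p.2 η) L

/-- The walk `q` passes through the points of the chain which starts at `(j, w)`. -/
def thru {t : ℕ} (q : Fin t → Step d) : ℕ → Site d → List (ℕ × Site d) → Prop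
  | _, _, [] => True
  | j, w, p :: L => pos q (j + p.1) = w + p.2 ∧ thru q (j + p.1) (w + p.2) L

/-- The sum of the means. -/
noncomputable def sa (ρ : Measure ℝ) (β : ℝ) (h : Vec d) : List (ℕ × Site d) → ℝ
  | [] => 0
  | p :: L => aM ρ β h p.1 p.2 + sa ρ β h L

lemma ch_pos (β : ℝ) (h : Vec d) : ∀ (L : List (ℕ × Site d)) (η : Env d),
    (∀ p ∈ L, Rch p.1 p.2) → 0 < ch β h η L
  | [], _, _ => one_pos
  | p :: L, η, hL => mul_pos (PP_pos β h η (hL p (List.mem_cons_self ..)))
      (ch_pos β h L _ fun p hp => hL p (List.mem_cons_of_mem _ hp))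

lemma ch_le (β : ℝ) (h : Vec d) : ∀ (L : List (ℕ × Site d)) (η : Env d),
    ch β h η L ≤ PP β h η (len L) (dsp L)
  | [], η => (PP_zero β h η).symm.le
  | p :: L, η => by
    have h1 := ch_le β h L (sh p.1 p.2 η)
    exact (mul_le_mul_of_nonneg_left h1 (PP_nonneg β h η p.1 p.2)).trans
      (PP_chain β h η p.1 (len L) p.2 (dsp L))

lemma thru_append {i k : ℕ} (s : Fin i → Step d) (q : Fin k → Step d) :
    ∀ (L : List (ℕ × Site d)) (j : ℕ) (w : Site d),
      thru (Fin.append s q) (i + j) (pos s i + w) L → thru q j w L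
  | [], _, _, _ => trivial
  | p :: L, j, w, hq => by
    obtain ⟨h1, h2⟩ := hq
    rw [add_assoc, add_assoc] at h1 h2
    rw [pos_glue_add] at h1
    exact ⟨add_left_cancel h1, thru_append s q L (j + p.1) (w + p.2) h2⟩

lemma ZT_le_ch (β : ℝ) (h : Vec d) : ∀ (L : List (ℕ × Site d)) (η : Env d)
    (S : Set (Fin (len L) → Step d)), (∀ q ∈ S, thru q 0 0 L) → ZT β h η S ≤ ch β h η L
  | [], η, S, _ => by
    have h1 : ZT β h η S ≤ Z β h η 0 := ZT_mono β h η (Set.subset_univ _)
    rwa [Z_zero] at h1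
  | p :: L, η, S, hS => by
    refine (split β h η (i := p.1) (k := len L) S p.2 {q | thru q 0 0 L} ?_).trans ?_
    · intro s q hq
      obtain ⟨h1, h2⟩ := hS _ hq
      rw [zero_add, zero_add] at h1 h2
      have h3 : pos (Fin.append s q : Fin (p.1 + len L) → Step d) p.1 = p.2 := h1
      have h4 : thru (Fin.append s q : Fin (p.1 + len L) → Step d) p.1 p.2 L := h2
      rw [pos_glue_le s q le_rfl] at h3
      refine ⟨h3, thru_append s q L 0 0 ?_⟩
      rw [add_zero, add_zero, h3]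
      exact h4
    · exact mul_le_mul_of_nonneg_left (ZT_le_ch β h L _ _ fun q hq => hq) (PP_nonneg β h η _ _)

/-- On a good environment the mass of a chain is given by the means. -/
lemma ch_log {ρ : Measure ℝ} {β : ℝ} {h : Vec d} {n : ℕ} {ε : ℝ} {η : Env d}
    (hG : GoodV ρ β h n ε η) {T : ℝ} : ∀ (L : List (ℕ × Site d)), (∀ p ∈ L, Rch p.1 p.2) →
      (∀ p ∈ L, (p.1 : ℝ) ≤ T) → ∀ (j : ℕ) (w : Site d), l1 w ≤ j → j + len L ≤ n →
        |Real.log (ch β h (sh j w η) L) - sa ρ β h L| ≤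
          (L.length : ℝ) * (Real.sqrt T * (n : ℝ) ^ ε)
  | [], _, _, j, w, _, _ => by
    unfold ch sa
    simp
  | p :: L, hL, hT, j, w, hw, hj => by
    have hp : Rch p.1 p.2 := hL p (List.mem_cons_self ..)
    have hlen : len (p :: L) = p.1 + len L := rfl
    rw [hlen] at hj
    have h1 := hG j p.1 (by omega) w (mem_box_of_l1 (by nlinarith)) p.2 hp
    have h2 := ch_log hG L (fun p hp => hL p (List.mem_cons_of_mem _ hp))
      (fun p hp => hT p (List.mem_cons_of_mem _ hp)) (j + p.1) (w + p.2)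
      ((l1_add_le _ _).trans (Nat.add_le_add hw (rch_l1 hp).1)) (by omega)
    have h3 : Real.log (ch β h (sh j w η) (p :: L)) = Real.log (PP β h (sh j w η) p.1 p.2) +
        Real.log (ch β h (sh (j + p.1) (w + p.2) η) L) := by
      change Real.log (PP β h (sh j w η) p.1 p.2 * ch β h (sh p.1 p.2 (sh j w η)) L) = _
      rw [sh_sh, Real.log_mul (PP_pos β h _ hp).ne'
        (ch_pos β h L _ fun p hp => hL p (List.mem_cons_of_mem _ hp)).ne']
    have h4 : sa ρ β h (p :: L) = aM ρ β h p.1 p.2 + sa ρ β h L := rfl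
    have h5 : Real.sqrt p.1 * (n : ℝ) ^ ε ≤ Real.sqrt T * (n : ℝ) ^ ε :=
      mul_le_mul_of_nonneg_right (Real.sqrt_le_sqrt (hT p (List.mem_cons_self ..)))
        (Real.rpow_nonneg (Nat.cast_nonneg n) ε)
    rw [h3, h4, List.length_cons]
    push_cast
    have h6 : Real.log (PP β h (sh j w η) p.1 p.2) +
        Real.log (ch β h (sh (j + p.1) (w + p.2) η) L) - (aM ρ β h p.1 p.2 + sa ρ β h L) =
        (Real.log (PP β h (sh j w η) p.1 p.2) - aM ρ β h p.1 p.2) +
        (Real.log (ch β h (sh (j + p.1) (w + p.2) η) L) - sa ρ β h L) := by ring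
    rw [h6]
    refine (abs_add_le _ _).trans ?_
    linarith

/-- A union bound with a maximum. -/
lemma exists_class (β : ℝ) (h : Vec d) (η : Env d) {t : ℕ} (S : Set (Fin t → Step d)) {ι : Type*}
    (P : Finset ι) (Sp : ι → Set (Fin t → Step d)) (hS : ∀ q ∈ S, ∃ p ∈ P, q ∈ Sp p)
    (hne : S.Nonempty) : ∃ p ∈ P, ZT β h η S ≤ (P.card : ℝ) * ZT β h η (Sp p) := by
  classical
  have h1 : ZT β h η S ≤ ∑ p ∈ P, ZT β h η (Sp p) := by
    unfold ZT
    rw [Finset.sum_comm]
    refine Finset.sum_le_sum fun q _ => ?_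
    by_cases hq : q ∈ S
    · obtain ⟨p, hp, hqp⟩ := hS q hq
      rw [if_pos hq]
      have h2 : (if q ∈ Sp p then wgt β h η q else 0) ≤
          ∑ p ∈ P, (if q ∈ Sp p then wgt β h η q else 0) :=
        Finset.single_le_sum (f := fun p => if q ∈ Sp p then wgt β h η q else 0) (fun p _ => by
          change (0 : ℝ) ≤ if q ∈ Sp p then wgt β h η q else 0
          split_ifs
          · exact (wgt_pos _ _ _ _).le
          · exact le_rfl) hp
      rwa [if_pos hqp] at h2
    · rw [if_neg hq]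
      refine Finset.sum_nonneg fun p _ => ?_
      split_ifs
      · exact (wgt_pos _ _ _ _).le
      · exact le_rfl
  obtain ⟨q, hq⟩ := hne
  obtain ⟨p, hp, _⟩ := hS q hq
  obtain ⟨p₀, hp₀, hmax⟩ := P.exists_max_image (fun p => ZT β h η (Sp p)) ⟨p, hp⟩
  refine ⟨p₀, hp₀, h1.trans ?_⟩
  have h2 := Finset.sum_le_card_nsmul P (fun p => ZT β h η (Sp p)) _ hmax
  rwa [nsmul_eq_mul] at h2

end Pool.Agent.W_7d29a1_V.LipC74
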