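import Pool.Agent.W_7d29a1_D2.TrF53
import Pool.Agent.W_7d29a1_h46.VarL

/-!
Lower bounds for the wandering exponents at every tilt, from `2 χ ≤ ν`.
-/

namespace Pool.Agent.W_7d29a1_V.Low76

open MeasureTheory ProbabilityTheory Filter Topology Pool.Agent.W_MP_7d29a1_pr
  Pool.Agent.W_7d29a1_h46 Pool.Agent.W_7d29a1_h46u Pool.Agent.W_7d29a1_D2

variable {d : ℕ} {Ω : Type*} [MeasurableSpace Ω] {μ : Measure Ω} [IsProbabilityMeasure μ]
  {ρ : Measure ℝ} [IsProbabilityMeasure ρ] {ω : ℕ × Site d → Ω → ℝ} {β : ℝ}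

/-- If `2 χ ≤ ν` (all moments, strong exponent) then `1 ≤ ν + d ν_T`. -/
theorem nu_sum (hd : 0 < d) (hω : IID μ ρ ω) (hnc : ∀ c : ℝ, ρ {c} ≠ 1) (hβ : 0 < β)
    (hρ : EM ρ) {h v : Vec d} (hV : 2 * chiF μ β ω h ≤ nuS μ β ω h v) :
    1 ≤ nuS μ β ω h v + d * nuT μ β ω h v := by
  have hd1 : (1 : ℝ) ≤ d := by exact_mod_cast hd
  have hd0 : (0 : ℝ) < d := by linarith
  have hT0 : 0 ≤ nuT μ β ω h v := Real.sInf_nonneg fun _ hx => hx.1.le
  have hS0 : 0 ≤ nuS μ β ω h v := hT0.trans (nuT_le_nuS hd hω h v)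
  by_contra hcon
  rw [not_le] at hcon
  set t : ℝ := nuT μ β ω h v with ht
  set s : ℝ := nuS μ β ω h v with hs
  have hgap : 0 < 1 - s - d * t := by linarith
  set a : ℝ := t + (1 - s - d * t) / (2 * d) with ha
  have hat : t < a := by
    have : 0 < (1 - s - d * t) / (2 * d) := by positivity
    linarith
  have had : a * d = d * t + (1 - s - d * t) / 2 := by
    rw [ha]
    field_simp
  have h1 : (1 - a * d) / 2 ≤ chiT μ β ω h :=
    chi_ge hd hω hnc hβ hρ (lt_of_le_of_lt hT0 hat) (by rw [had]; linarith) (v := v)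
      (by rw [← ht]; exact hat)
  have h2 := chiT_le_chiF hd hω hρ h (β := β)
  have h3 : 1 - a * d ≤ s := by linarith
  rw [had] at h3
  linarith

/-- If `2 χ ≤ ν` then `1 / (d + 1) ≤ ν`. -/
theorem nu_ge (hd : 0 < d) (hω : IID μ ρ ω) (hnc : ∀ c : ℝ, ρ {c} ≠ 1) (hβ : 0 < β)
    (hρ : EM ρ) {h v : Vec d} (hV : 2 * chiF μ β ω h ≤ nuS μ β ω h v) :
    1 / ((d : ℝ) + 1) ≤ nuS μ β ω h v := by
  have h1 := nu_sum hd hω hnc hβ hρ hV
  have h2 := nuT_le_nuS hd hω h v (β := β)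
  have hd0 : (0 : ℝ) ≤ d := by positivity
  have h3 : (d : ℝ) * nuT μ β ω h v ≤ d * nuS μ β ω h v := mul_le_mul_of_nonneg_left h2 hd0
  rw [div_le_iff₀ (by positivity)]
  linarith

/-- The same for the exponents of the problem: if `2 χ ≤ ν` then `1 / (d + 1) ≤ ν`. -/
theorem nuT_ge (hd : 0 < d) (hω : IID μ ρ ω) (hnc : ∀ c : ℝ, ρ {c} ≠ 1) (hβ : 0 < β)
    (hρ : EM ρ) {h v : Vec d} (hV : 2 * chiT μ β ω h ≤ nuT μ β ω h v) :
    1 / ((d : ℝ) + 1) ≤ nuT μ β ω h v := by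
  have hd1 : (1 : ℝ) ≤ d := by exact_mod_cast hd
  have hd0 : (0 : ℝ) < d := by linarith
  have hT0 : 0 ≤ nuT μ β ω h v := Real.sInf_nonneg fun _ hx => hx.1.le
  set t : ℝ := nuT μ β ω h v with ht
  rw [div_le_iff₀ (by positivity)]
  by_contra hcon
  rw [not_le] at hcon
  have hgap : 0 < 1 - t - d * t := by linarith
  set a : ℝ := t + (1 - t - d * t) / (2 * d) with ha
  have hat : t < a := by
    have : 0 < (1 - t - d * t) / (2 * d) := by positivity
    linarith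
  have had : a * d = d * t + (1 - t - d * t) / 2 := by
    rw [ha]
    field_simp
  have h1 : (1 - a * d) / 2 ≤ chiT μ β ω h :=
    chi_ge hd hω hnc hβ hρ (lt_of_le_of_lt hT0 hat) (by rw [had]; linarith) (v := v)
      (by rw [← ht]; exact hat)
  have h3 : 1 - a * d ≤ t := by linarith
  rw [had] at h3
  linarith

end Pool.Agent.W_7d29a1_V.Low76
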