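import Pool.Agent.W_7d29a1_V.NsA26
import Pool.Agent.W_7d29a1_V.Rch48

/-!
STORM V, leaf nsV: the wiring of the deterministic half.
-/

set_option autoImplicit false

namespace Pool.Agent.W_7d29a1_V.Ns26

open MeasureTheory ProbabilityTheory Filter Topology Pool.Agent.W_MP_7d29a1_pr
  Pool.Agent.W_7d29a1_h46 Pool.Agent.W_7d29a1_h46u Pool.Agent.W_7d29a1_D2
  Pool.Agent.W_7d29a1_D2.B35 Pool.Agent.W_7d29a1_V

variable {d : ℕ}

lemma rc_iff (hd : 0 < d) {t : ℕ} {z : Site d} : NsA26.Rc t z ↔ Rch t z := by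
  rw [R48.rch_iff hd, Nat.even_iff]
  unfold NsA26.Rc
  constructor
  · rintro ⟨h1, h2⟩
    exact ⟨h1, by omega⟩
  · rintro ⟨h1, h2⟩
    exact ⟨h1, by omega⟩

lemma sum_boxF (hd : 0 < d) {β : ℝ} {h : Vec d} {η : Env d} {t : ℕ} (P : Site d → Prop)
    [DecidablePred P] (G : Site d → ℝ) :
    ∑ z ∈ (boxF d t).filter P, PP β h η t z * G z =
      ∑ z ∈ (NsA26.Dz d t).filter P, PP β h η t z * G z := by
  symm
  refine Finset.sum_subset ?_ ?_
  · intro z hz
    rw [Finset.mem_filter, NsA26.mem_Dz, rc_iff hd] at hz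
    rw [Finset.mem_filter]
    exact ⟨R48.rch_mem hz.1, hz.2⟩
  · intro z hz hz'
    rw [Finset.mem_filter] at hz
    rw [Finset.mem_filter, NsA26.mem_Dz, rc_iff hd] at hz'
    rw [R48.PP_eq_zero fun hr => hz' ⟨hr, hz.2⟩, zero_mul]

lemma Z_dec (hd : 0 < d) (β : ℝ) (h : Vec d) (η : Env d) {n j t : ℕ} (w : Site d)
    (hj : j + t ≤ n) :
    Z β h (sh j w η) (n - j) =
      ∑ z ∈ NsA26.Dz d t, PP β h (sh j w η) t z * Z β h (sh (j + t) (w + z) η) (n - (j + t)) := by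
  have e : n - j = t + (n - (j + t)) := by omega
  rw [e, R48.Z_add_PP]
  have e1 : ∑ x ∈ boxF d t, PP β h (sh j w η) t x * Z β h (sh t x (sh j w η)) (n - (j + t)) =
      ∑ x ∈ (boxF d t).filter (fun _ => True),
        PP β h (sh j w η) t x * Z β h (sh (j + t) (w + x) η) (n - (j + t)) := by
    rw [Finset.filter_true]
    exact Finset.sum_congr rfl fun x _ => by rw [R48.sh_sh]
  rw [e1, sum_boxF hd, Finset.filter_true]

/-- A good environment gives the data of the recursion. -/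
lemma gd_of (hd : 0 < d) {ρ : Measure ℝ} {β : ℝ} {h : Vec d} {n : ℕ} {ε C0 : ℝ} {η : Env d}
    (hn : 21 ≤ n) (hε : 0 ≤ ε) (hC0 : 0 ≤ C0) (hG : GoodV ρ β h n ε η)
    (hab : ∀ (s : ℕ) (z : Site d), Rch s z → |aM ρ β h s z| ≤ C0 * s) :
    NsA26.GD d n (20 * n) (fun j t w z => PP β h (sh j w η) t z)
      (fun j w => Z β h (sh j w η) (n - j)) (aM ρ β h) C0 ((n : ℝ) ^ ε) where
  E1 := Real.one_le_rpow (by exact_mod_cast (by omega : 1 ≤ n)) hε
  C00 := hC0
  Tpos := fun j t w z hz => R48.PP_pos ((rc_iff hd).1 hz)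
  Fpos := fun j w => Z_pos hd β h _ _
  Fn := fun w => by
    simp only [Nat.sub_self]
    exact Z_zero β h _
  dec := fun j t w hj => Z_dec hd β h η w hj
  good := fun j t w z hj hw hz => by
    rw [mul_comm]
    refine hG j t hj w ?_ z ((rc_iff hd).1 hz)
    rw [mem_boxF]
    intro i
    have h1 := hw i
    have h2 : 20 * n + j ≤ n ^ 2 := by
      have : j ≤ n := by omega
      nlinarith
    have h3 : (w i).natAbs ≤ n ^ 2 := h1.trans h2
    rw [Int.abs_eq_natAbs]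
    exact_mod_cast h3
  abd := fun t z _ hz => hab t z ((rc_iff hd).1 hz)

/-- U10: no steep places, with overwhelming probability. -/
theorem nsV26 (hd : 0 < d) {ρ : Measure ℝ} [IsProbabilityMeasure ρ] (β R : ℝ)
    (hC : ConcV d ρ β R) (hA : MeanLipV d ρ β R) (hB : MeanSteepV d ρ β R) : NSV d ρ β R := by
  intro δ hδ0 hδ1
  have hε0 : 0 < δ / 8 := by positivity
  obtain ⟨⟨C1, hC1⟩, hC2⟩ := hC
  have hA' : ∀ kap : ℝ, ∃ (C : ℝ) (N : ℕ), 0 ≤ C ∧ (0 < kap → kap < 1 / 8 →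
      ∀ h : Vec d, ‖h‖ ≤ R → ∀ n : ℕ, N ≤ n →
        NsA26.LemA n (aM ρ β h) ((n : ℝ) ^ (δ / 8)) kap C) := by
    intro kap
    by_cases hk : 0 < kap ∧ kap < 1 / 8
    · obtain ⟨C, hC0, N, hN⟩ := hA (δ / 8) kap hε0 hk.1 (by linarith [hk.2])
      refine ⟨C, N, hC0.le, fun _ _ h hh n hn t ht z ζ hz hl he k hk1 hlk hCk => ?_⟩
      exact hN h hh n t hn ht z ζ ((rc_iff hd).1 hz) hl he k hk1 hlk hCk
    · exact ⟨0, 0, le_rfl, fun h1 h2 => absurd ⟨h1, h2⟩ hk⟩
  choose CA N0 hCA hAA using hA'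
  obtain ⟨CB, hCB, NB, hBB⟩ := hB (δ / 8) hε0
  obtain ⟨κ, C, hκ0, hκ1, hC0, n1, hmain⟩ :=
    NsA26.nsA' (d := d) hd (C0 := max C1 0) (CB := CB) (CA := CA) (le_max_right _ _) hCB.le hCA
      hδ0 hδ1 N0
  refine ⟨κ, C, hκ0, hκ1, hC0, ?_⟩
  intro q
  obtain ⟨C', hC'⟩ := hC2 (δ / 8) q hε0
  set N : ℕ := max (max n1 21) NB with hN
  refine ⟨max C' 0 + (N : ℝ) ^ q, ?_⟩
  intro h hh n hn
  have hn0 : (0 : ℝ) < n := by exact_mod_cast hn
  have hpow : 0 < (n : ℝ) ^ (-(q : ℝ)) := by positivity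
  by_cases hnN : N ≤ n
  · have h1 : n1 ≤ n := ((le_max_left _ _).trans (le_max_left _ _)).trans hnN
    have h2 : 21 ≤ n := ((le_max_right _ _).trans (le_max_left _ _)).trans hnN
    have h3 : NB ≤ n := (le_max_right _ _).trans hnN
    have hsub : {η : Env d | ¬ NSn β h n (mm δ n) κ C η} ⊆ {η | ¬ GoodV ρ β h n (δ / 8) η} := by
      intro η hη hG
      refine hη ?_
      have hgd := gd_of hd (C0 := max C1 0) h2 hε0.le (le_max_right _ _) hG
        (fun s z hz => (hC1 h hh s z hz).trans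
          (mul_le_mul_of_nonneg_right (le_max_left _ _) (Nat.cast_nonneg s)))
      obtain ⟨he, hl, hp⟩ := hmain n h1 (20 * n) _ _ _ hgd
        (fun kap k1 k2 k3 => hAA kap k1 k2 h hh n k3)
        (fun kap k1 k2 t ht z hz hzl hkt => by
          obtain ⟨u, hu1, -, hu3, hu4⟩ := hBB kap k1 k2 h hh n t h3 ht hkt z
            ((rc_iff hd).1 hz) hzl
          exact ⟨u, (rc_iff hd).2 hu1, hu3, hu4⟩)
      have hbx : ∀ (j : ℕ) (w : Site d), w ∈ boxF d (20 * n) → NsA26.Bx (20 * n) j w := by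
        intro j w hw i
        rw [mem_boxF] at hw
        have h4 := hw i
        rw [Int.abs_eq_natAbs] at h4
        have h5 : (w i).natAbs ≤ 20 * n := by exact_mod_cast h4
        omega
      refine ⟨?_, ?_, ?_⟩
      · intro j hj w hw
        have h4 := he j w hj (hbx j w hw)
        rw [sum_boxF hd (β := β) (h := h) (η := sh j w η) (t := mm δ n)
          (fun z => (1 - κ) * (mm δ n : ℝ) < (l1 z : ℝ))
          (fun z => Z β h (sh (j + mm δ n) (w + z) η) (n - (j + mm δ n)))]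
        exact h4
      · intro j s hs hj w hw z hz
        exact hl j s w z hs hj (hbx j w hw) ((rc_iff hd).2 hz)
      · intro j hj w hw w' hw' hev
        exact hp j w w' hj (hbx j w hw) (hbx j w' hw') hev
    have h4 : (law d ρ).real {η : Env d | ¬ NSn β h n (mm δ n) κ C η} ≤
        (law d ρ).real {η | ¬ GoodV ρ β h n (δ / 8) η} := measureReal_mono hsub
    refine (h4.trans (hC' h hh n hn)).trans ?_
    refine mul_le_mul_of_nonneg_right ?_ hpow.le
    have h5 : (0 : ℝ) ≤ (N : ℝ) ^ q := by positivity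
    linarith [le_max_left C' 0]
  · have h1 : (law d ρ).real {η : Env d | ¬ NSn β h n (mm δ n) κ C η} ≤ 1 :=
      measureReal_le_one
    refine h1.trans ?_
    have h2 : (n : ℝ) ≤ N := by
      have : n ≤ N := by omega
      exact_mod_cast this
    have h3 : (n : ℝ) ^ q ≤ (N : ℝ) ^ q := pow_le_pow_left₀ hn0.le h2 q
    have h4 : (n : ℝ) ^ q * (n : ℝ) ^ (-(q : ℝ)) = 1 := by
      rw [← Real.rpow_natCast, ← Real.rpow_add hn0, add_neg_cancel, Real.rpow_zero]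
    calc (1 : ℝ) = (n : ℝ) ^ q * (n : ℝ) ^ (-(q : ℝ)) := h4.symm
      _ ≤ (N : ℝ) ^ q * (n : ℝ) ^ (-(q : ℝ)) := mul_le_mul_of_nonneg_right h3 hpow.le
      _ ≤ (max C' 0 + (N : ℝ) ^ q) * (n : ℝ) ^ (-(q : ℝ)) :=
        mul_le_mul_of_nonneg_right (by linarith [le_max_right C' 0]) hpow.le

end Pool.Agent.W_7d29a1_V.Ns26
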