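import Pool.Agent.W_7d29a1_V.DefsV2

/-!
MP_7d29a1_pr, STORM V, leaf nsV (helper26): the deterministic half of the recursion of scales.
Model free: `T j t w z` is the mass of the paths from `(j, w)` to `(j + t, w + z)`, `F j w` the mass of
the paths from `(j, w)` to the row `n`.
-/

set_option autoImplicit false

namespace Pool.Agent.W_7d29a1_V.NsA26

open Finset Pool.Agent.W_MP_7d29a1_pr Pool.Agent.W_7d29a1_V

/-- The displacement `z` is reachable in `t` steps. -/
def Rc {d : ℕ} (t : ℕ) (z : Site d) : Prop := l1 z ≤ t ∧ l1 z % 2 = t % 2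

/-- The box of the row `j`. -/
def Bx {d : ℕ} (M j : ℕ) (w : Site d) : Prop := ∀ c, (w c).natAbs ≤ M + j

open Classical in
/-- The reachable displacements. -/
noncomputable def Dz (d t : ℕ) : Finset (Site d) :=
  (Fintype.piFinset fun _ : Fin d => Finset.Icc (-(t : ℤ)) t).filter (Rc t)

section basic

variable {d : ℕ}

lemma l1_zero : l1 (0 : Site d) = 0 := by simp [l1]

lemma l1_neg (z : Site d) : l1 (-z) = l1 z := by simp [l1]

lemma l1_sub_comm (x y : Site d) : l1 (x - y) = l1 (y - x) := by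
  rw [← l1_neg, neg_sub]

lemma l1_add_le (x y : Site d) : l1 (x + y) ≤ l1 x + l1 y := by
  unfold l1
  rw [← Finset.sum_add_distrib]
  exact Finset.sum_le_sum fun c _ => Int.natAbs_add_le _ _

lemma natAbs_le_l1 (z : Site d) (c : Fin d) : (z c).natAbs ≤ l1 z :=
  Finset.single_le_sum (f := fun c => (z c).natAbs) (fun _ _ => Nat.zero_le _) (Finset.mem_univ c)

lemma even_l1 (z : Site d) : Even (l1 z) ↔ Even (∑ c, z c) := by
  unfold l1
  classical
  refine Finset.induction_on (Finset.univ : Finset (Fin d)) ?_ ?_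
  · simp
  · intro c s hc ih
    rw [Finset.sum_insert hc, Finset.sum_insert hc, Nat.even_add, Int.even_add, ih,
      Int.natAbs_even]

lemma even_l1_add (x y : Site d) : Even (l1 (x + y)) ↔ (Even (l1 x) ↔ Even (l1 y)) := by
  rw [even_l1, even_l1, even_l1, ← Int.even_add]
  simp only [Pi.add_apply, Finset.sum_add_distrib]

lemma even_l1_sub (x y : Site d) : Even (l1 (x - y)) ↔ (Even (l1 x) ↔ Even (l1 y)) := by
  rw [sub_eq_add_neg, even_l1_add, l1_neg]

lemma mod_two_iff {a b : ℕ} : a % 2 = b % 2 ↔ (Even a ↔ Even b) := by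
  rw [Nat.even_iff, Nat.even_iff]
  omega

/-- Two reachable displacements have an even difference. -/
lemma Rc.even_sub {t : ℕ} {x y : Site d} (hx : Rc t x) (hy : Rc t y) : Even (l1 (x - y)) := by
  rw [even_l1_sub, ← mod_two_iff, hx.2, hy.2]

lemma Rc.add {t : ℕ} {z ζ : Site d} (hz : Rc t z) (hζ : Even (l1 ζ)) (h : l1 z + l1 ζ ≤ t) :
    Rc t (z + ζ) := by
  refine ⟨(l1_add_le z ζ).trans h, ?_⟩
  rw [← hz.2, mod_two_iff, even_l1_add]
  simp [hζ]

open Classical in
lemma mem_Dz {t : ℕ} {z : Site d} : z ∈ Dz d t ↔ Rc t z := by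
  unfold Dz
  rw [Finset.mem_filter]
  refine ⟨fun h => h.2, fun h => ⟨?_, h⟩⟩
  rw [Fintype.mem_piFinset]
  intro c
  rw [Finset.mem_Icc]
  have := (natAbs_le_l1 z c).trans h.1
  omega

open Classical in
lemma card_Dz_le (t : ℕ) : (Dz d t).card ≤ (2 * t + 1) ^ d := by
  unfold Dz
  refine (Finset.card_filter_le _ _).trans ?_
  rw [Fintype.card_piFinset]
  simp only [Int.card_Icc, Finset.prod_const, Finset.card_univ, Fintype.card_fin]
  refine Nat.pow_le_pow_left ?_ d
  omega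

lemma Bx.add {M j t : ℕ} {w z : Site d} (hw : Bx M j w) (hz : l1 z ≤ t) : Bx M (j + t) (w + z) := by
  intro c
  have h1 := hw c
  have h2 := (natAbs_le_l1 z c).trans hz
  have h3 : ((w + z) c).natAbs ≤ (w c).natAbs + (z c).natAbs := Int.natAbs_add_le _ _
  omega

/-- There is a reachable displacement. -/
lemma exists_Rc (hd : 0 < d) (t : ℕ) : ∃ z : Site d, Rc t z := by
  refine ⟨Pi.single ⟨0, hd⟩ (t : ℤ), ?_⟩
  have h : l1 (Pi.single ⟨0, hd⟩ (t : ℤ) : Site d) = t := by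
    unfold l1
    rw [Finset.sum_eq_single (⟨0, hd⟩ : Fin d)]
    · simp
    · intro b _ hb
      simp [Pi.single_eq_of_ne hb]
    · intro h
      exact absurd (Finset.mem_univ _) h
  exact ⟨h.le, by rw [h]⟩

end basic

/-- The data on the good event. -/
structure GD (d n M : ℕ) (T : ℕ → ℕ → Site d → Site d → ℝ) (F : ℕ → Site d → ℝ)
    (a : ℕ → Site d → ℝ) (C0 E : ℝ) : Prop where
  E1 : 1 ≤ E
  C00 : 0 ≤ C0
  Tpos : ∀ j t w z, Rc t z → 0 < T j t w z
  Fpos : ∀ j w, 0 < F j w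
  Fn : ∀ w, F n w = 1
  dec : ∀ j t w, j + t ≤ n → F j w = ∑ z ∈ Dz d t, T j t w z * F (j + t) (w + z)
  good : ∀ j t w z, j + t ≤ n → Bx M j w → Rc t z →
    |Real.log (T j t w z) - a t z| ≤ E * Real.sqrt t
  abd : ∀ t z, t ≤ n → Rc t z → |a t z| ≤ C0 * t

/-- Lemma A. -/
def LemA {d : ℕ} (n : ℕ) (a : ℕ → Site d → ℝ) (E kap CA : ℝ) : Prop :=
  ∀ t ≤ n, ∀ z ζ : Site d, Rc t z → (l1 z : ℝ) ≤ (1 - kap) * t → Even (l1 ζ) →
    ∀ k : ℝ, 1 ≤ k → (l1 ζ : ℝ) ≤ k → CA * k ≤ t →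
      a t z - CA * k - CA * (Real.sqrt t * E) ≤ a t (z + ζ)

/-- Lemma B. -/
def LemB {d : ℕ} (n : ℕ) (a : ℕ → Site d → ℝ) (E kap CB : ℝ) : Prop :=
  ∀ t ≤ n, ∀ z : Site d, Rc t z → (1 - kap) * t ≤ (l1 z : ℝ) → 1 ≤ kap * t →
    ∃ u : Site d, Rc t u ∧ (l1 (u - z) : ℝ) ≤ 4 * kap * t ∧
      a t z + kap * t * (Real.log (1 / kap) - CB) - CB * (Real.sqrt t * E) ≤ a t u

/-- Lipschitz at the scale `k0`. -/
def Lip {d : ℕ} (M j : ℕ) (f : Site d → ℝ) (l k0 : ℝ) : Prop :=
  ∀ w w' : Site d, Bx M j w → Bx M j w' → Even (l1 (w - w')) →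
    |f w - f w'| ≤ l * max (l1 (w - w') : ℝ) k0

lemma Lip.mono {d : ℕ} {M j : ℕ} {f : Site d → ℝ} {l k0 l' k0' : ℝ} (h : Lip M j f l k0)
    (hl0 : 0 ≤ l) (hl : l ≤ l') (hk : k0 ≤ k0') : Lip M j f l' k0' := fun w w' hw hw' he =>
  (h w w' hw hw' he).trans (by
    have h1 : max (l1 (w - w') : ℝ) k0 ≤ max (l1 (w - w') : ℝ) k0' := max_le_max le_rfl hk
    have h2 : (0 : ℝ) ≤ max (l1 (w - w') : ℝ) k0 := (Nat.cast_nonneg _).trans (le_max_left _ _)
    exact mul_le_mul hl h1 h2 (hl0.trans hl))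

section main

variable {d n M : ℕ} {T : ℕ → ℕ → Site d → Site d → ℝ} {F : ℕ → Site d → ℝ}
  {a : ℕ → Site d → ℝ} {C0 E : ℝ}

lemma GD.T_le (h : GD d n M T F a C0 E) {j t : ℕ} {w z : Site d} (hj : j + t ≤ n)
    (hw : Bx M j w) (hz : Rc t z) : T j t w z ≤ Real.exp (a t z + E * Real.sqrt t) := by
  rw [← Real.exp_log (h.Tpos j t w z hz)]
  refine Real.exp_le_exp.2 ?_
  have := (abs_le.1 (h.good j t w z hj hw hz)).2
  linarith

lemma GD.T_ge (h : GD d n M T F a C0 E) {j t : ℕ} {w z : Site d} (hj : j + t ≤ n)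
    (hw : Bx M j w) (hz : Rc t z) : Real.exp (a t z - E * Real.sqrt t) ≤ T j t w z := by
  rw [← Real.exp_log (h.Tpos j t w z hz)]
  refine Real.exp_le_exp.2 ?_
  have := (abs_le.1 (h.good j t w z hj hw hz)).1
  linarith

lemma GD.term_le (h : GD d n M T F a C0 E) {j t : ℕ} {w z : Site d} (hj : j + t ≤ n)
    (hz : Rc t z) : T j t w z * F (j + t) (w + z) ≤ F j w := by
  rw [h.dec j t w hj]
  exact Finset.single_le_sum (f := fun z => T j t w z * F (j + t) (w + z))
    (fun x hx => mul_nonneg (h.Tpos j t w x (mem_Dz.1 hx)).le (h.Fpos _ _).le) (mem_Dz.2 hz)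

/-- One extreme end point. -/
lemma c1_term (h : GD d n M T F a C0 E) {kap CB l k0 : ℝ} (hB : LemB n a E kap CB) {j t : ℕ}
    (hj : j + t ≤ n) (hl : 0 ≤ l) (hL : Lip M (j + t) (fun y => Real.log (F (j + t) y)) l k0)
    (ht : 1 ≤ kap * t) (hk : k0 ≤ kap * t) {w z : Site d} (hw : Bx M j w) (hz : Rc t z)
    (hext : (1 - kap) * t ≤ (l1 z : ℝ)) :
    T j t w z * F (j + t) (w + z) ≤
      Real.exp (-(kap * t * (Real.log (1 / kap) - CB - 4 * l) - (CB + 2) * E * Real.sqrt t)) *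
        F j w := by
  obtain ⟨u, hu, hu1, hu2⟩ := hB t (by omega) z hz hext ht
  have h1 := h.T_le hj hw hz
  have h2 := h.T_ge hj hw hu
  have hwz : Bx M (j + t) (w + z) := hw.add hz.1
  have hwu : Bx M (j + t) (w + u) := hw.add hu.1
  have hev : Even (l1 ((w + z) - (w + u))) := by
    have e : (w + z) - (w + u) = z - u := by abel
    rw [e]
    exact hz.even_sub hu
  have h3 := hL (w + z) (w + u) hwz hwu hev
  have e1 : (w + z) - (w + u) = z - u := by abel
  rw [e1, l1_sub_comm] at h3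
  have h4 : max (l1 (u - z) : ℝ) k0 ≤ 4 * (kap * t) :=
    max_le (by linarith) (by linarith)
  have h5 : Real.log (F (j + t) (w + z)) ≤ Real.log (F (j + t) (w + u)) + l * (4 * (kap * t)) := by
    have h6 := (abs_le.1 h3).2
    have h7 := mul_le_mul_of_nonneg_left h4 hl
    linarith
  have h6 : F (j + t) (w + z) ≤ F (j + t) (w + u) * Real.exp (l * (4 * (kap * t))) := by
    have e2 := Real.exp_le_exp.2 h5
    rwa [Real.exp_log (h.Fpos _ _), Real.exp_add, Real.exp_log (h.Fpos _ _)] at e2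
  have h7 : T j t w z ≤ T j t w u * Real.exp (a t z - a t u + 2 * (E * Real.sqrt t)) := by
    calc T j t w z ≤ Real.exp (a t z + E * Real.sqrt t) := h1
      _ = Real.exp (a t u - E * Real.sqrt t) *
          Real.exp (a t z - a t u + 2 * (E * Real.sqrt t)) := by
        rw [← Real.exp_add]
        congr 1
        ring
      _ ≤ _ := mul_le_mul_of_nonneg_right h2 (Real.exp_pos _).le
  have hTz := (h.Tpos j t w z hz).le
  have hTu := (h.Tpos j t w u hu).le
  calc T j t w z * F (j + t) (w + z)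
      ≤ (T j t w u * Real.exp (a t z - a t u + 2 * (E * Real.sqrt t))) *
        (F (j + t) (w + u) * Real.exp (l * (4 * (kap * t)))) :=
        mul_le_mul h7 h6 (h.Fpos _ _).le (mul_nonneg hTu (Real.exp_pos _).le)
    _ = Real.exp (a t z - a t u + 2 * (E * Real.sqrt t) + l * (4 * (kap * t))) *
        (T j t w u * F (j + t) (w + u)) := by
      rw [Real.exp_add (a t z - a t u + 2 * (E * Real.sqrt t)) (l * (4 * (kap * t)))]
      ring
    _ ≤ Real.exp (-(kap * t * (Real.log (1 / kap) - CB - 4 * l) -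
          (CB + 2) * E * Real.sqrt t)) * F j w := by
      refine mul_le_mul (Real.exp_le_exp.2 ?_) (h.term_le hj hu)
        (mul_nonneg hTu (h.Fpos _ _).le) (Real.exp_pos _).le
      have e3 : kap * t * (Real.log (1 / kap) - CB - 4 * l) =
        kap * t * (Real.log (1 / kap) - CB) - l * (4 * (kap * t)) := by ring
      have e4 : (CB + 2) * E * Real.sqrt t = CB * (Real.sqrt t * E) + 2 * (E * Real.sqrt t) := by
        ring
      rw [e3, e4]
      linarith

open Classical in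
/-- (C1): the extreme end points have a small mass. -/
theorem c1 (h : GD d n M T F a C0 E) {kap CB l k0 : ℝ} (hB : LemB n a E kap CB) {j t : ℕ}
    (hj : j + t ≤ n) (hl : 0 ≤ l) (hL : Lip M (j + t) (fun y => Real.log (F (j + t) y)) l k0)
    (ht : 1 ≤ kap * t) (hk : k0 ≤ kap * t)
    (hnum : d * Real.log (2 * t + 1) + kap * t / 2 ≤
      kap * t * (Real.log (1 / kap) - CB - 4 * l) - (CB + 2) * E * Real.sqrt t)
    {w : Site d} (hw : Bx M j w) :
    ∑ z ∈ (Dz d t).filter (fun z => (1 - kap) * t ≤ (l1 z : ℝ)), T j t w z * F (j + t) (w + z) ≤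
      Real.exp (-(kap * t / 2)) * F j w := by
  set G : ℝ := kap * t * (Real.log (1 / kap) - CB - 4 * l) - (CB + 2) * E * Real.sqrt t with hG
  have h1 : ∀ z ∈ (Dz d t).filter (fun z => (1 - kap) * t ≤ (l1 z : ℝ)),
      T j t w z * F (j + t) (w + z) ≤ Real.exp (-G) * F j w := by
    intro z hz
    rw [Finset.mem_filter, mem_Dz] at hz
    exact c1_term h hB hj hl hL ht hk hw hz.1 hz.2
  refine (Finset.sum_le_card_nsmul _ _ _ h1).trans ?_
  rw [nsmul_eq_mul, ← mul_assoc]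
  refine mul_le_mul_of_nonneg_right ?_ (h.Fpos _ _).le
  have h2 : (((Dz d t).filter (fun z => (1 - kap) * t ≤ (l1 z : ℝ))).card : ℝ) ≤
      Real.exp (d * Real.log (2 * t + 1)) := by
    have h3 : ((Dz d t).filter (fun z => (1 - kap) * t ≤ (l1 z : ℝ))).card ≤ (2 * t + 1) ^ d :=
      (Finset.card_filter_le _ _).trans (card_Dz_le t)
    have h4 : (0 : ℝ) < 2 * t + 1 := by positivity
    calc (((Dz d t).filter (fun z => (1 - kap) * t ≤ (l1 z : ℝ))).card : ℝ)
        ≤ (((2 * t + 1) ^ d : ℕ) : ℝ) := by exact_mod_cast h3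
      _ = (2 * t + 1 : ℝ) ^ d := by push_cast; ring
      _ = Real.exp (d * Real.log (2 * t + 1)) := by
        rw [← Real.rpow_natCast, Real.rpow_def_of_pos h4, mul_comm]
  calc (((Dz d t).filter (fun z => (1 - kap) * t ≤ (l1 z : ℝ))).card : ℝ) * Real.exp (-G)
      ≤ Real.exp (d * Real.log (2 * t + 1)) * Real.exp (-G) :=
        mul_le_mul_of_nonneg_right h2 (Real.exp_pos _).le
    _ = Real.exp (d * Real.log (2 * t + 1) - G) := by
      rw [← Real.exp_add]
      congr 1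
    _ ≤ Real.exp (-(kap * t / 2)) := Real.exp_le_exp.2 (by linarith)

open Classical in
/-- (C2) for two near points. -/
theorem c2_near (h : GD d n M T F a C0 E) {kap CA K : ℝ} (hA : LemA n a E kap CA) {j t : ℕ}
    (hj : j + t ≤ n) {w w' : Site d} (hw : Bx M j w) (hw' : Bx M j w')
    (hext : ∑ z ∈ (Dz d t).filter (fun z => (1 - kap) * t ≤ (l1 z : ℝ)),
      T j t w z * F (j + t) (w + z) ≤ 1 / 2 * F j w)
    (he : Even (l1 (w - w'))) (hK1 : 1 ≤ K) (hlK : (l1 (w - w') : ℝ) ≤ K) (hk1 : K ≤ kap * t)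
    (hk2 : CA * K ≤ t) :
    Real.log (F j w) ≤ Real.log (F j w') + CA * K + (CA + 2) * E * Real.sqrt t +
      Real.log 2 := by
  set D : ℝ := CA * K + (CA + 2) * E * Real.sqrt t with hD
  -- the middle part
  have hsplit := h.dec j t w hj
  rw [← Finset.sum_filter_add_sum_filter_not (Dz d t) (fun z => (1 - kap) * t ≤ (l1 z : ℝ))]
    at hsplit
  have hmid : 1 / 2 * F j w ≤
      ∑ z ∈ (Dz d t).filter (fun z => ¬ ((1 - kap) * t ≤ (l1 z : ℝ))),
        T j t w z * F (j + t) (w + z) := by linarith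
  have hcone : ∀ z : Site d, (l1 z : ℝ) < (1 - kap) * t → l1 z + l1 (w - w') ≤ t := by
    intro z hz
    have h1 : (l1 z : ℝ) + (l1 (w - w') : ℝ) ≤ t := by
      have e : (1 - kap) * (t : ℝ) = t - kap * t := by ring
      rw [e] at hz
      linarith
    exact_mod_cast h1
  have hterm : ∀ z ∈ (Dz d t).filter (fun z => ¬ ((1 - kap) * t ≤ (l1 z : ℝ))),
      T j t w z * F (j + t) (w + z) ≤
        Real.exp D * (T j t w' (z + (w - w')) * F (j + t) (w' + (z + (w - w')))) := by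
    intro z hz
    rw [Finset.mem_filter, mem_Dz, not_le] at hz
    have hz1 : Rc t (z + (w - w')) := hz.1.add he (hcone z hz.2)
    have h2 := hA t (by omega) z (w - w') hz.1 hz.2.le he K hK1 hlK hk2
    have h3 := h.T_le hj hw hz.1
    have h4 := h.T_ge hj hw' hz1
    have e1 : w' + (z + (w - w')) = w + z := by abel
    rw [e1, ← mul_assoc]
    refine mul_le_mul_of_nonneg_right ?_ (h.Fpos _ _).le
    calc T j t w z ≤ Real.exp (a t z + E * Real.sqrt t) := h3
      _ ≤ Real.exp (D + (a t (z + (w - w')) - E * Real.sqrt t)) := by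
        refine Real.exp_le_exp.2 ?_
        have e2 : (CA + 2) * E * Real.sqrt t =
          CA * (Real.sqrt t * E) + 2 * (E * Real.sqrt t) := by ring
        rw [hD, e2]
        linarith
      _ = Real.exp D * Real.exp (a t (z + (w - w')) - E * Real.sqrt t) := Real.exp_add _ _
      _ ≤ Real.exp D * T j t w' (z + (w - w')) :=
        mul_le_mul_of_nonneg_left h4 (Real.exp_pos _).le
  have hsum : ∑ z ∈ (Dz d t).filter (fun z => ¬ ((1 - kap) * t ≤ (l1 z : ℝ))),
      T j t w' (z + (w - w')) * F (j + t) (w' + (z + (w - w'))) ≤ F j w' := by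
    rw [h.dec j t w' hj]
    rw [← Finset.sum_image (s := (Dz d t).filter (fun z => ¬ ((1 - kap) * t ≤ (l1 z : ℝ))))
      (g := fun z => z + (w - w')) (f := fun x => T j t w' x * F (j + t) (w' + x))
      (fun x _ y _ hxy => add_right_cancel hxy)]
    refine Finset.sum_le_sum_of_subset_of_nonneg ?_ fun x hx _ =>
      mul_nonneg (h.Tpos j t w' x (mem_Dz.1 hx)).le (h.Fpos _ _).le
    intro x hx
    rw [Finset.mem_image] at hx
    obtain ⟨z, hz, rfl⟩ := hx
    rw [Finset.mem_filter, mem_Dz, not_le] at hz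
    exact mem_Dz.2 (hz.1.add he (hcone z hz.2))
  have hfin : F j w ≤ 2 * (Real.exp D * F j w') := by
    have h1 : 1 / 2 * F j w ≤ Real.exp D * F j w' := by
      refine hmid.trans ((Finset.sum_le_sum hterm).trans ?_)
      rw [← Finset.mul_sum]
      exact mul_le_mul_of_nonneg_left hsum (Real.exp_pos _).le
    linarith
  have hlog := Real.log_le_log (h.Fpos j w) hfin
  rw [Real.log_mul two_ne_zero (mul_ne_zero (Real.exp_pos _).ne' (h.Fpos _ _).ne'),
    Real.log_mul (Real.exp_pos _).ne' (h.Fpos _ _).ne', Real.log_exp] at hlog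
  rw [hD] at hlog
  linarith

end main

section chain

variable {d : ℕ}

lemma l1_update (z : Site d) (c : Fin d) (v : ℤ) :
    l1 (Function.update z c v) + (z c).natAbs = l1 z + v.natAbs := by
  unfold l1
  rw [← Finset.add_sum_erase Finset.univ (fun i => (Function.update z c v i).natAbs)
      (Finset.mem_univ c),
    ← Finset.add_sum_erase Finset.univ (fun i => (z i).natAbs) (Finset.mem_univ c)]
  have h1 : ∑ x ∈ Finset.univ.erase c, (Function.update z c v x).natAbs =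
      ∑ x ∈ Finset.univ.erase c, (z x).natAbs := by
    refine Finset.sum_congr rfl fun x hx => ?_
    rw [Function.update_of_ne (Finset.ne_of_mem_erase hx)]
  rw [h1]
  simp only [Function.update_self]
  omega

lemma exists_between (w w' : Site d) (s : ℕ) (hs : s ≤ l1 (w - w')) :
    ∃ x : Site d, l1 (w - x) ≤ s ∧ l1 (x - w') + s = l1 (w - w') ∧
      ∀ c, (x c).natAbs ≤ max (w c).natAbs (w' c).natAbs := by
  induction s with
  | zero => exact ⟨w, by rw [sub_self, l1_zero], by omega, fun c => le_max_left _ _⟩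
  | succ s ih =>
    obtain ⟨x, h1, h2, h3⟩ := ih (by omega)
    have h4 : ∃ c, (x - w') c ≠ 0 := by
      by_contra hcon
      push Not at hcon
      have h5 : l1 (x - w') = 0 := by
        unfold l1
        exact Finset.sum_eq_zero fun c _ => by rw [hcon c]; rfl
      omega
    obtain ⟨c, hc⟩ := h4
    have hc' : x c - w' c ≠ 0 := hc
    obtain ⟨σ, hσ1, hσ2, hσ3⟩ : ∃ σ : ℤ, (x c + σ - w' c).natAbs + 1 = (x c - w' c).natAbs ∧
        σ.natAbs = 1 ∧ (x c + σ).natAbs ≤ max (x c).natAbs (w' c).natAbs := by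
      rcases lt_or_gt_of_ne hc' with hlt | hgt
      · exact ⟨1, by omega, by omega, by omega⟩
      · exact ⟨-1, by omega, by omega, by omega⟩
    refine ⟨Function.update x c (x c + σ), ?_, ?_, ?_⟩
    · have e : w - Function.update x c (x c + σ) =
          Function.update (w - x) c (w c - (x c + σ)) := by
        funext i
        by_cases hi : i = c
        · subst hi
          simp
        · simp [Function.update_of_ne hi]
      have h5 := l1_update (w - x) c (w c - (x c + σ))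
      rw [e]
      have h6 : (w c - (x c + σ)).natAbs ≤ ((w - x) c).natAbs + 1 := by
        have e3 : (w - x) c = w c - x c := rfl
        rw [e3]
        omega
      omega
    · have e : Function.update x c (x c + σ) - w' =
          Function.update (x - w') c (x c + σ - w' c) := by
        funext i
        by_cases hi : i = c
        · subst hi
          simp
        · simp [Function.update_of_ne hi]
      have h5 := l1_update (x - w') c (x c + σ - w' c)
      rw [e]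
      have e3 : (x - w') c = x c - w' c := rfl
      rw [e3] at h5
      omega
    · intro i
      by_cases hi : i = c
      · subst hi
        rw [Function.update_self]
        refine hσ3.trans (max_le (h3 i) (le_max_right _ _))
      · rw [Function.update_of_ne hi]
        exact h3 i

/-- The chain of intermediate points. -/
lemma chain {M j : ℕ} {f : Site d → ℝ} {s : ℕ} (hs2 : 2 ≤ s) (hse : Even s) {Δ : ℝ} (hΔ : 0 ≤ Δ)
    (hstep : ∀ w w' : Site d, Bx M j w → Bx M j w' → Even (l1 (w - w')) → l1 (w - w') ≤ s →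
      f w ≤ f w' + Δ) :
    ∀ (L : ℕ) (w w' : Site d), l1 (w - w') = L → Bx M j w → Bx M j w' → Even (l1 (w - w')) →
      f w ≤ f w' + ((L : ℝ) / s + 1) * Δ := by
  intro L
  induction L using Nat.strong_induction_on with
  | _ L ih =>
    intro w w' hL hw hw' he
    have hs0 : (0 : ℝ) < s := by
      have : 0 < s := by omega
      exact_mod_cast this
    by_cases hLs : L ≤ s
    · have h1 := hstep w w' hw hw' he (by omega)
      have h2 : (0 : ℝ) ≤ (L : ℝ) / s * Δ := by positivity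
      have e : ((L : ℝ) / s + 1) * Δ = (L : ℝ) / s * Δ + Δ := by ring
      rw [e]
      linarith
    · obtain ⟨x, h1, h2, h3⟩ := exists_between w w' s (by omega)
      have h4 : l1 (w - w') ≤ l1 (w - x) + l1 (x - w') := by
        have e : w - w' = (w - x) + (x - w') := by abel
        calc l1 (w - w') = l1 ((w - x) + (x - w')) := by rw [← e]
          _ ≤ _ := l1_add_le _ _
      have h5 : l1 (w - x) = s := by omega
      have hx : Bx M j x := fun c => (h3 c).trans (max_le (hw c) (hw' c))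
      have h6 := hstep w x hw hx (by rw [h5]; exact hse) h1
      have h7 : l1 (x - w') = L - s := by omega
      have h8 : Even (l1 (x - w')) := by
        have : l1 (x - w') + s = l1 (w - w') := h2
        rw [← this, Nat.even_add] at he
        exact he.2 hse
      have h9 := ih (L - s) (by omega) x w' h7 hx hw' h8
      have e : (((L - s : ℕ) : ℝ) / s + 1) * Δ + Δ = ((L : ℝ) / s + 1) * Δ := by
        rw [Nat.cast_sub (by omega)]
        field_simp
        ring
      linarith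

end chain

section step

variable {d n M : ℕ} {T : ℕ → ℕ → Site d → Site d → ℝ} {F : ℕ → Site d → ℝ}
  {a : ℕ → Site d → ℝ} {C0 E : ℝ}

lemma log_le_sqrt (t : ℕ) : Real.log (2 * t + 1) ≤ 4 * Real.sqrt t := by
  have h0 : (0 : ℝ) ≤ t := Nat.cast_nonneg t
  have h1 : (0 : ℝ) < 2 * t + 1 := by positivity
  have h2 : Real.sqrt (2 * t + 1) ≤ 1 + 2 * Real.sqrt t := by
    rw [Real.sqrt_le_left (by positivity)]
    have h3 := Real.sq_sqrt h0
    nlinarith [Real.sqrt_nonneg (t : ℝ)]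
  have h3 : Real.log (Real.sqrt (2 * t + 1)) ≤ Real.sqrt (2 * t + 1) - 1 :=
    Real.log_le_sub_one_of_pos (Real.sqrt_pos.2 h1)
  rw [Real.log_sqrt h1.le] at h3
  linarith

/-- The constant of the scales. -/
noncomputable def Qc (d : ℕ) (CB kap CA : ℝ) : ℝ :=
  max ((CB + 2 + 4 * d) / kap) (2 / min kap (1 / (CA + 1)))

open Classical in
/-- One step of the recursion. -/
theorem propC (h : GD d n M T F a C0 E) {kap CA CB l k0 : ℝ} (hA : LemA n a E kap CA)
    (hB : LemB n a E kap CB) (hCA : 0 ≤ CA) (hCB : 0 ≤ CB) (hl : 0 ≤ l) (hkap : 0 < kap)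
    (hkap1 : kap ≤ 1) (hlog : CB + 4 * l + 3 ≤ Real.log (1 / kap)) {j t : ℕ} (hj : j + t ≤ n)
    (hQ : Qc d CB kap CA * E ≤ Real.sqrt t)
    (hL : Lip M (j + t) (fun y => Real.log (F (j + t) y)) l k0) (hk : k0 ≤ kap * t) :
    (∀ w, Bx M j w →
      ∑ z ∈ (Dz d t).filter (fun z => (1 - kap) * t ≤ (l1 z : ℝ)),
        T j t w z * F (j + t) (w + z) ≤ Real.exp (-(kap * t / 2)) * F j w) ∧
    Lip M j (fun y => Real.log (F j y)) (3 * (2 * CA + 3)) (E * Real.sqrt t) := by
  have hE := h.E1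
  set S : ℝ := Real.sqrt t with hS
  have hSS : S * S = t := Real.mul_self_sqrt (Nat.cast_nonneg t)
  have hS0 : 0 ≤ S := Real.sqrt_nonneg _
  set θ : ℝ := min kap (1 / (CA + 1)) with hθ
  have hθ0 : 0 < θ := lt_min hkap (by positivity)
  have hθk : θ ≤ kap := min_le_left _ _
  have hθ1 : θ ≤ 1 := hθk.trans hkap1
  have hθA : CA * θ ≤ 1 := by
    have h1 : θ ≤ 1 / (CA + 1) := min_le_right _ _
    have h2 : θ * (CA + 1) ≤ 1 := by
      rwa [le_div_iff₀ (by positivity)] at h1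
    nlinarith
  have hQ1 : (CB + 2 + 4 * d) / kap * E ≤ S :=
    (mul_le_mul_of_nonneg_right (le_max_left _ _) (by linarith)).trans hQ
  have hQ2 : 2 / θ * E ≤ S :=
    (mul_le_mul_of_nonneg_right (le_max_right _ _) (by linarith)).trans hQ
  have hQ1' : (CB + 2 + 4 * d) * E ≤ kap * S := by
    have e : (CB + 2 + 4 * (d : ℝ)) * E = kap * ((CB + 2 + 4 * d) / kap * E) := by
      field_simp
    rw [e]
    exact mul_le_mul_of_nonneg_left hQ1 hkap.le
  have hQ2' : 2 * E ≤ θ * S := by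
    have e : 2 * E = θ * (2 / θ * E) := by
      field_simp
    rw [e]
    exact mul_le_mul_of_nonneg_left hQ2 hθ0.le
  have hS2 : 2 ≤ S := by nlinarith
  have hθt : 2 * (E * S) ≤ θ * t := by
    rw [← hSS]
    nlinarith
  have hES : 1 ≤ E * S := by nlinarith
  have hθt4 : 4 ≤ θ * t := by nlinarith
  have hkt : θ * t ≤ kap * t := mul_le_mul_of_nonneg_right hθk (Nat.cast_nonneg t)
  have hkt1 : 1 ≤ kap * t := by linarith
  have hnum : d * Real.log (2 * t + 1) + kap * t / 2 ≤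
      kap * t * (Real.log (1 / kap) - CB - 4 * l) - (CB + 2) * E * Real.sqrt t := by
    have h1 : (d : ℝ) * Real.log (2 * t + 1) ≤ d * (4 * S) :=
      mul_le_mul_of_nonneg_left (log_le_sqrt t) (Nat.cast_nonneg d)
    have h2 : (d : ℝ) * (4 * S) ≤ 4 * d * E * S := by
      have h3 : (0 : ℝ) ≤ (d : ℝ) * S := mul_nonneg (Nat.cast_nonneg d) hS0
      nlinarith
    have h3 : (CB + 2 + 4 * d) * E * S ≤ kap * t := by
      have h4 := mul_le_mul_of_nonneg_right hQ1' hS0
      have e : kap * S * S = kap * t := by rw [mul_assoc, hSS]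
      rwa [e] at h4
    have h4 : kap * t * 3 ≤ kap * t * (Real.log (1 / kap) - CB - 4 * l) :=
      mul_le_mul_of_nonneg_left (by linarith) (by linarith)
    have e : (CB + 2 + 4 * (d : ℝ)) * E * S = (CB + 2) * E * S + 4 * d * E * S := by ring
    rw [e] at h3
    rw [← hS]
    linarith
  have hext : ∀ w, Bx M j w →
      ∑ z ∈ (Dz d t).filter (fun z => (1 - kap) * t ≤ (l1 z : ℝ)),
        T j t w z * F (j + t) (w + z) ≤ Real.exp (-(kap * t / 2)) * F j w := fun w hw =>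
    c1 h hB hj hl hL hkt1 hk hnum hw
  refine ⟨hext, ?_⟩
  have hexp2 : Real.exp (-(kap * t / 2)) ≤ 1 / 2 := by
    have h1 : Real.exp (-(kap * t / 2)) ≤ Real.exp (-2) := Real.exp_le_exp.2 (by linarith)
    have h2 : (2 : ℝ) + 1 ≤ Real.exp 2 := Real.add_one_le_exp 2
    rw [Real.exp_neg] at h1
    have h3 : (Real.exp 2)⁻¹ ≤ (2 : ℝ)⁻¹ := inv_anti₀ (by norm_num) (by linarith)
    rw [Real.exp_neg 2] at h1
    rw [Real.exp_neg]
    linarith
  have hlog2 : Real.log 2 ≤ 1 := by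
    have := Real.log_two_lt_d9
    linarith
  have hnear : ∀ K : ℝ, 1 ≤ K → K ≤ θ * t → ∀ w w', Bx M j w → Bx M j w' →
      Even (l1 (w - w')) → (l1 (w - w') : ℝ) ≤ K →
      Real.log (F j w) ≤ Real.log (F j w') + (CA * K + (CA + 2) * (E * S) + 1) := by
    intro K hK1 hK w w' hw hw' he hlK
    have h2 : CA * K ≤ t := by
      have h3 : CA * K ≤ CA * (θ * t) := mul_le_mul_of_nonneg_left hK hCA
      have h4 : CA * θ * t ≤ 1 * t := mul_le_mul_of_nonneg_right hθA (Nat.cast_nonneg t)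
      rw [mul_assoc] at h4
      linarith
    have h1 := c2_near h hA hj hw hw'
      ((hext w hw).trans (mul_le_mul_of_nonneg_right hexp2 (h.Fpos _ _).le)) he hK1 hlK
      (hK.trans hkt) h2
    rw [← hS] at h1
    have e : (CA + 2) * E * S = (CA + 2) * (E * S) := by ring
    rw [e] at h1
    linarith
  -- one sided bound
  have hone : ∀ w w' : Site d, Bx M j w → Bx M j w' → Even (l1 (w - w')) →
      Real.log (F j w) ≤ Real.log (F j w') +
        3 * (2 * CA + 3) * max (l1 (w - w') : ℝ) (E * S) := by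
    intro w w' hw hw' he
    set D : ℝ := max (l1 (w - w') : ℝ) (E * S) with hD
    have hD1 : E * S ≤ D := le_max_right _ _
    have hDl : (l1 (w - w') : ℝ) ≤ D := le_max_left _ _
    rcases le_or_gt D (θ * t) with hDs | hDb
    · have h1 := hnear D (by linarith) hDs w w' hw hw' he hDl
      have h2 : (CA + 2) * (E * S) ≤ (CA + 2) * D := mul_le_mul_of_nonneg_left hD1 (by linarith)
      have h3 : 0 ≤ CA * D := mul_nonneg hCA (by linarith)
      nlinarith
    · have hDeq : D = (l1 (w - w') : ℝ) := by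
        rcases max_choice (l1 (w - w') : ℝ) (E * S) with h1 | h1
        · rw [hD, h1]
        · exfalso
          rw [← hD] at h1
          linarith
      set r : ℕ := ⌊θ * t / 2⌋₊ with hr
      have hr1 : (r : ℝ) ≤ θ * t / 2 := Nat.floor_le (by positivity)
      have hr2 : θ * t / 2 < r + 1 := Nat.lt_floor_add_one _
      have hr3 : 2 ≤ 2 * r := by
        have : 1 ≤ r := Nat.one_le_iff_ne_zero.2 fun h0 => by
          rw [h0] at hr2
          push_cast at hr2
          linarith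
        omega
      have h1 := chain (M := M) (j := j) (f := fun y => Real.log (F j y)) (s := 2 * r) hr3
        (even_two_mul r) (Δ := (2 * CA + 3) * (θ * t)) (by positivity)
        (fun x y hx hy hxy hxs => by
          have h2 := hnear (θ * t) (by linarith) le_rfl x y hx hy hxy (by
            have h3 : (l1 (x - y) : ℝ) ≤ ((2 * r : ℕ) : ℝ) := by exact_mod_cast hxs
            push_cast at h3
            linarith)
          have h3 : (CA + 2) * (E * S) ≤ (CA + 2) * (θ * t) :=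
            mul_le_mul_of_nonneg_left (by linarith) (by linarith)
          nlinarith)
        (l1 (w - w')) w w' rfl hw hw' he
      refine h1.trans ?_
      have h2 : ((l1 (w - w') : ℝ) / ((2 * r : ℕ) : ℝ) + 1) * ((2 * CA + 3) * (θ * t)) ≤
          3 * (2 * CA + 3) * D := by
        rw [hDeq]
        have hr0 : (0 : ℝ) < ((2 * r : ℕ) : ℝ) := by
          have : 0 < 2 * r := by omega
          exact_mod_cast this
        have h3 : θ * t ≤ 2 * ((2 * r : ℕ) : ℝ) := by
          push_cast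
          linarith
        have h4 : (l1 (w - w') : ℝ) / ((2 * r : ℕ) : ℝ) * (θ * t) ≤ 2 * (l1 (w - w') : ℝ) := by
          rw [div_mul_eq_mul_div, div_le_iff₀ hr0]
          have h5 : (0 : ℝ) ≤ (l1 (w - w') : ℝ) := Nat.cast_nonneg _
          nlinarith
        have h5 : θ * t ≤ (l1 (w - w') : ℝ) := by
          rw [← hDeq]
          exact hDb.le
        have h6 : ((l1 (w - w') : ℝ) / ((2 * r : ℕ) : ℝ) + 1) * (θ * t) ≤
            3 * (l1 (w - w') : ℝ) := by
          rw [add_mul, one_mul]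
          linarith
        calc ((l1 (w - w') : ℝ) / ((2 * r : ℕ) : ℝ) + 1) * ((2 * CA + 3) * (θ * t))
            = (2 * CA + 3) * (((l1 (w - w') : ℝ) / ((2 * r : ℕ) : ℝ) + 1) * (θ * t)) := by ring
          _ ≤ (2 * CA + 3) * (3 * (l1 (w - w') : ℝ)) :=
            mul_le_mul_of_nonneg_left h6 (by linarith)
          _ = 3 * (2 * CA + 3) * (l1 (w - w') : ℝ) := by ring
      linarith
  intro w w' hw hw' he
  simp only
  rw [abs_le]
  have h1 := hone w w' hw hw' he
  have h2 := hone w' w hw' hw (by rwa [l1_sub_comm])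
  rw [l1_sub_comm] at h2
  constructor <;> linarith

/-- The trivial bound. -/
lemma triv (h : GD d n M T F a C0 E) (hd : 0 < d) {j t : ℕ} (hj : j + t = n) {w : Site d}
    (hw : Bx M j w) :
    |Real.log (F j w)| ≤ 4 * d * Real.sqrt t + C0 * t + E * Real.sqrt t := by
  have hdec := h.dec j t w hj.le
  rw [hj] at hdec
  have hdec' : F j w = ∑ z ∈ Dz d t, T j t w z := by
    rw [hdec]
    exact Finset.sum_congr rfl fun z _ => by rw [h.Fn, mul_one]
  have hd0 : (0 : ℝ) ≤ 4 * d * Real.sqrt t := by positivity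
  rw [abs_le]
  constructor
  · obtain ⟨z, hz⟩ := exists_Rc hd t
    have h1 : T j t w z ≤ F j w := by
      rw [hdec']
      exact Finset.single_le_sum (f := fun z => T j t w z)
        (fun x hx => (h.Tpos j t w x (mem_Dz.1 hx)).le) (mem_Dz.2 hz)
    have h2 := Real.log_le_log (h.Tpos j t w z hz) h1
    have h3 := (abs_le.1 (h.good j t w z hj.le hw hz)).1
    have h4 := (abs_le.1 (h.abd t z (by omega) hz)).1
    linarith
  · have h1 : F j w ≤ Real.exp (d * Real.log (2 * t + 1)) *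
        Real.exp (C0 * t + E * Real.sqrt t) := by
      rw [hdec']
      have h2 : ∀ z ∈ Dz d t, T j t w z ≤ Real.exp (C0 * t + E * Real.sqrt t) := by
        intro z hz
        have hz' := mem_Dz.1 hz
        refine (h.T_le hj.le hw hz').trans (Real.exp_le_exp.2 ?_)
        have h4 := (abs_le.1 (h.abd t z (by omega) hz')).2
        linarith
      refine (Finset.sum_le_card_nsmul _ _ _ h2).trans ?_
      rw [nsmul_eq_mul]
      refine mul_le_mul_of_nonneg_right ?_ (Real.exp_pos _).le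
      have h3 : (0 : ℝ) < 2 * t + 1 := by positivity
      calc ((Dz d t).card : ℝ) ≤ (((2 * t + 1) ^ d : ℕ) : ℝ) := by exact_mod_cast card_Dz_le t
        _ = (2 * t + 1 : ℝ) ^ d := by push_cast; ring
        _ = Real.exp (d * Real.log (2 * t + 1)) := by
          rw [← Real.rpow_natCast, Real.rpow_def_of_pos h3, mul_comm]
    have h2 := Real.log_le_log (h.Fpos j w) h1
    rw [← Real.exp_add, Real.log_exp] at h2
    have h3 : (d : ℝ) * Real.log (2 * t + 1) ≤ d * (4 * Real.sqrt t) :=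
      mul_le_mul_of_nonneg_left (log_le_sqrt t) (Nat.cast_nonneg d)
    linarith

end step

section recur

variable {d : ℕ} {C0 CB : ℝ} {CA : ℝ → ℝ} {N0 : ℝ → ℕ}

/-- The hypothesis of the recursion at the level `i`. -/
def Rec (d : ℕ) (C0 CB : ℝ) (CA : ℝ → ℝ) (N0 : ℝ → ℕ) (i : ℕ) : Prop :=
  ∃ (K l : ℝ) (N : ℕ), 1 ≤ K ∧ 0 ≤ l ∧ ∀ (n M : ℕ) (T : ℕ → ℕ → Site d → Site d → ℝ)
    (F : ℕ → Site d → ℝ) (a : ℕ → Site d → ℝ) (E : ℝ), 1 ≤ n → N ≤ n → GD d n M T F a C0 E →
    (∀ kap : ℝ, 0 < kap → kap < 1 / 8 → N0 kap ≤ n → LemA n a E kap (CA kap)) →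
    (∀ kap : ℝ, 0 < kap → kap < 1 / 8 → LemB n a E kap CB) →
    ∀ j ≤ n, Lip M j (fun y => Real.log (F j y)) l (K * E ^ 2 * (n : ℝ) ^ ((1 / 2 : ℝ) ^ i))

lemma lip_of_bd {M j : ℕ} {f : Site d → ℝ} {B k0 : ℝ} (hB : 0 ≤ B)
    (h : ∀ w, Bx M j w → |f w| ≤ B * k0) : Lip M j f (2 * B) k0 := by
  intro w w' hw hw' _
  have h1 := h w hw
  have h2 := h w' hw'
  have h3 : |f w - f w'| ≤ |f w| + |f w'| := abs_sub _ _
  have h4 : B * k0 ≤ B * max (l1 (w - w') : ℝ) k0 :=
    mul_le_mul_of_nonneg_left (le_max_right _ _) hB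
  linarith

lemma rec_zero (hd : 0 < d) (hC0 : 0 ≤ C0) : Rec d C0 CB CA N0 0 := by
  refine ⟨1, 2 * (4 * d + C0 + 1), 0, le_rfl, by positivity, ?_⟩
  intro n M T F a E hn _ h _ _ j hj
  rw [pow_zero, Real.rpow_one]
  refine lip_of_bd (by positivity) fun w hw => ?_
  obtain ⟨t, ht⟩ := Nat.exists_eq_add_of_le hj
  have h1 := triv h hd ht.symm hw
  have hn1 : (1 : ℝ) ≤ n := by exact_mod_cast hn
  have htn : (t : ℝ) ≤ n := by
    have : t ≤ n := by omega
    exact_mod_cast this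
  have hs : Real.sqrt t ≤ n := by
    rw [Real.sqrt_le_left (by linarith)]
    nlinarith
  have hE := h.E1
  have hE2 : 1 ≤ E ^ 2 := by nlinarith
  have hEE : E ≤ E ^ 2 := by nlinarith
  have hs0 : 0 ≤ Real.sqrt t := Real.sqrt_nonneg _
  have hn2 : (n : ℝ) ≤ E ^ 2 * n := by nlinarith
  have g1 : 4 * (d : ℝ) * Real.sqrt t ≤ 4 * d * (E ^ 2 * n) :=
    mul_le_mul_of_nonneg_left (hs.trans hn2) (by positivity)
  have g2 : C0 * t ≤ C0 * (E ^ 2 * n) := mul_le_mul_of_nonneg_left (htn.trans hn2) hC0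
  have g3 : E * Real.sqrt t ≤ E ^ 2 * n := mul_le_mul hEE hs hs0 (by positivity)
  have e : (4 * (d : ℝ) + C0 + 1) * (1 * E ^ 2 * n) =
      4 * d * (E ^ 2 * n) + C0 * (E ^ 2 * n) + E ^ 2 * n := by ring
  rw [e]
  linarith

lemma exp_neg_lt {x : ℝ} (hx : 3 ≤ x) : Real.exp (-x) < 1 / 8 := by
  have h1 : Real.exp (-x) ≤ Real.exp (-3) := Real.exp_le_exp.2 (by linarith)
  have h2 : (2 : ℝ) < Real.exp 1 := by
    have := Real.exp_one_gt_d9
    linarith
  have h3 : (8 : ℝ) < Real.exp 3 := by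
    have e : Real.exp 3 = Real.exp 1 ^ 3 := by
      rw [← Real.exp_nat_mul]
      norm_num
    rw [e]
    have h4 : (2 : ℝ) ^ 3 < Real.exp 1 ^ 3 := pow_lt_pow_left₀ h2 (by norm_num) (by norm_num)
    linarith
  rw [Real.exp_neg 3] at h1
  have h4 : (Real.exp 3)⁻¹ < (8 : ℝ)⁻¹ := inv_strictAnti₀ (by norm_num) h3
  linarith

lemma two_le_Qc {kap CAk : ℝ} (hk : 0 < kap) (hk1 : kap ≤ 1) (hCA : 0 ≤ CAk) :
    2 ≤ Qc d CB kap CAk := by
  refine le_trans ?_ (le_max_right _ _)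
  have h0 : 0 < min kap (1 / (CAk + 1)) := lt_min hk (by positivity)
  have h1 : min kap (1 / (CAk + 1)) ≤ 1 := (min_le_left _ _).trans hk1
  rw [le_div_iff₀ h0]
  linarith

lemma rec_succ (hd : 0 < d) (hC0 : 0 ≤ C0) (hCB : 0 ≤ CB) (hCA : ∀ kap, 0 ≤ CA kap) {i : ℕ}
    (hi : Rec d C0 CB CA N0 i) : Rec d C0 CB CA N0 (i + 1) := by
  obtain ⟨K, l, N, hK1, hl, hrec⟩ := hi
  set kap : ℝ := Real.exp (-(CB + 4 * l + 3)) with hkap
  have hkap0 : 0 < kap := Real.exp_pos _
  have hkap8 : kap < 1 / 8 := exp_neg_lt (by linarith)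
  have hlog : CB + 4 * l + 3 ≤ Real.log (1 / kap) := by
    rw [hkap, one_div, ← Real.exp_neg, Real.log_exp]
    linarith
  set Q : ℝ := Qc d CB kap (CA kap) with hQ
  have hQ2 : 2 ≤ Q := two_le_Qc hkap0 (by linarith) (hCA _)
  set B : ℝ := 4 * d * Q + C0 * Q ^ 2 + Q with hB
  have hB0 : 0 ≤ B := by positivity
  set K' : ℝ := K / kap + Q ^ 2 + 1 with hK'
  have hKk : 0 ≤ K / kap := by positivity
  have hK'1 : 1 ≤ K' := by nlinarith
  set l' : ℝ := max (3 * (2 * CA kap + 3)) (2 * B) with hl'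
  have hl'0 : 0 ≤ l' := le_trans (by positivity) (le_max_right _ _)
  refine ⟨K', l', max N (N0 kap), hK'1, hl'0, ?_⟩
  intro n M T F a E hn hN h hA hB' j hj
  have hN1 : N ≤ n := (le_max_left _ _).trans hN
  have hN2 : N0 kap ≤ n := (le_max_right _ _).trans hN
  have hE := h.E1
  set α : ℝ := (1 / 2 : ℝ) ^ i with hα
  have hα0 : 0 ≤ α := by positivity
  have hn1 : (1 : ℝ) ≤ n := by exact_mod_cast hn
  have hnα : 1 ≤ (n : ℝ) ^ α := Real.one_le_rpow hn1 hα0
  have hE2 : 1 ≤ E ^ 2 := by nlinarith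
  set Y : ℝ := E ^ 2 * (n : ℝ) ^ α with hY
  have hY1 : 1 ≤ Y := by nlinarith
  have hYE : E ^ 2 ≤ Y := by nlinarith
  set t : ℕ := ⌈K * Y / kap + Q ^ 2 * E ^ 2⌉₊ with ht
  have ht1 : K * Y / kap + Q ^ 2 * E ^ 2 ≤ t := Nat.le_ceil _
  have ht2 : (t : ℝ) < K * Y / kap + Q ^ 2 * E ^ 2 + 1 := Nat.ceil_lt_add_one (by positivity)
  have hKY : 0 ≤ K * Y / kap := by positivity
  have ht3 : (t : ℝ) ≤ K' * Y := by
    have h1 : Q ^ 2 * E ^ 2 ≤ Q ^ 2 * Y := mul_le_mul_of_nonneg_left hYE (by positivity)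
    have e : K' * Y = K * Y / kap + Q ^ 2 * Y + Y := by
      rw [hK']
      ring
    rw [e]
    linarith
  have hQt : Q * E ≤ Real.sqrt t := by
    refine Real.le_sqrt_of_sq_le ?_
    have e : (Q * E) ^ 2 = Q ^ 2 * E ^ 2 := by ring
    rw [e]
    linarith
  have hkt : K * E ^ 2 * (n : ℝ) ^ α ≤ kap * t := by
    have h1 : kap * (K * Y / kap) ≤ kap * t :=
      mul_le_mul_of_nonneg_left (by nlinarith [sq_nonneg (Q * E)]) hkap0.le
    have e : kap * (K * Y / kap) = K * E ^ 2 * (n : ℝ) ^ α := by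
      rw [hY]
      field_simp
    rwa [e] at h1
  have hEt : E ≤ Real.sqrt t := by nlinarith
  -- the estimate at the scale `E √t`
  have hmain : Lip M j (fun y => Real.log (F j y)) l' (E * Real.sqrt t) := by
    by_cases hjt : j + t ≤ n
    · have h1 := (propC h (hA kap hkap0 hkap8 hN2) (hB' kap hkap0 hkap8) (hCA _) hCB hl hkap0
        (by linarith) hlog hjt hQt (hrec n M T F a E hn hN1 h hA hB' (j + t) hjt) hkt).2
      exact h1.mono (by have := hCA kap; positivity) (le_max_left _ _) le_rfl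
    · obtain ⟨t', ht'⟩ := Nat.exists_eq_add_of_le hj
      have htt : t' ≤ t := by omega
      have hst : Real.sqrt t' ≤ Real.sqrt t := Real.sqrt_le_sqrt (by exact_mod_cast htt)
      by_cases hQt' : Q * E ≤ Real.sqrt t'
      · have hL0 : Lip M (j + t') (fun y => Real.log (F (j + t') y)) l 0 := by
          rw [← ht']
          intro w w' _ _ _
          simp only [h.Fn, Real.log_one, sub_self, abs_zero]
          exact mul_nonneg hl (le_max_right _ _)
        have h1 := (propC h (hA kap hkap0 hkap8 hN2) (hB' kap hkap0 hkap8) (hCA _) hCB hl hkap0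
          (by linarith) hlog ht'.ge hQt' hL0 (by positivity)).2
        exact h1.mono (by have := hCA kap; positivity) (le_max_left _ _)
          (mul_le_mul_of_nonneg_left hst (by linarith))
      · push Not at hQt'
        have h1 : Lip M j (fun y => Real.log (F j y)) (2 * B) (E ^ 2) := by
          refine lip_of_bd hB0 fun w hw => ?_
          have h2 := triv h hd ht'.symm hw
          have hs0 : 0 ≤ Real.sqrt t' := Real.sqrt_nonneg _
          have hss : Real.sqrt t' ^ 2 = t' := Real.sq_sqrt (Nat.cast_nonneg t')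
          have g0 : Real.sqrt t' ≤ Q * E ^ 2 := by nlinarith
          have g1 : 4 * (d : ℝ) * Real.sqrt t' ≤ 4 * d * (Q * E ^ 2) :=
            mul_le_mul_of_nonneg_left g0 (by positivity)
          have g2' : (t' : ℝ) ≤ Q ^ 2 * E ^ 2 := by
            rw [← hss]
            have e : Q ^ 2 * E ^ 2 = (Q * E) ^ 2 := by ring
            rw [e]
            exact pow_le_pow_left₀ hs0 hQt'.le 2
          have g2 : C0 * t' ≤ C0 * (Q ^ 2 * E ^ 2) := mul_le_mul_of_nonneg_left g2' hC0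
          have g3 : E * Real.sqrt t' ≤ E * (Q * E) :=
            mul_le_mul_of_nonneg_left hQt'.le (by linarith)
          have e : B * E ^ 2 = 4 * d * (Q * E ^ 2) + C0 * (Q ^ 2 * E ^ 2) + E * (Q * E) := by
            rw [hB]
            ring
          rw [e]
          linarith
        refine h1.mono (by positivity) (le_max_right _ _) ?_
        nlinarith
  refine hmain.mono hl'0 le_rfl ?_
  have hpow : ((n : ℝ) ^ ((1 / 2 : ℝ) ^ (i + 1))) ^ 2 = (n : ℝ) ^ α := by
    rw [← Real.rpow_natCast, ← Real.rpow_mul (by linarith)]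
    congr 1
    rw [hα, pow_succ]
    push_cast
    ring
  have hpos : 0 ≤ (n : ℝ) ^ ((1 / 2 : ℝ) ^ (i + 1)) := by positivity
  have hsq : Real.sqrt t ≤ K' * E * (n : ℝ) ^ ((1 / 2 : ℝ) ^ (i + 1)) := by
    rw [Real.sqrt_le_left (by positivity)]
    have e : (K' * E * (n : ℝ) ^ ((1 / 2 : ℝ) ^ (i + 1))) ^ 2 = K' * (K' * Y) := by
      rw [mul_pow, mul_pow, hpow, hY]
      ring
    rw [e]
    have h1 : 0 ≤ K' * Y := by positivity
    nlinarith
  calc E * Real.sqrt t ≤ E * (K' * E * (n : ℝ) ^ ((1 / 2 : ℝ) ^ (i + 1))) :=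
        mul_le_mul_of_nonneg_left hsq (by linarith)
    _ = K' * E ^ 2 * (n : ℝ) ^ ((1 / 2 : ℝ) ^ (i + 1)) := by ring

theorem rec_all (hd : 0 < d) (hC0 : 0 ≤ C0) (hCB : 0 ≤ CB) (hCA : ∀ kap, 0 ≤ CA kap) (i : ℕ) :
    Rec d C0 CB CA N0 i := by
  induction i with
  | zero => exact rec_zero hd hC0
  | succ i ih => exact rec_succ hd hC0 hCB hCA ih

end recur

open Classical in
/-- The deterministic half of the leaf nsV, Lemma A being known for `N0 kap ≤ n` only. -/
theorem nsA' {d : ℕ} (hd : 0 < d) {C0 CB : ℝ} {CA : ℝ → ℝ} (hC0 : 0 ≤ C0) (hCB : 0 ≤ CB)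
    (hCA : ∀ kap, 0 ≤ CA kap) {δ : ℝ} (hδ0 : 0 < δ) (hδ1 : δ < 1) (N0 : ℝ → ℕ) :
    ∃ κ C : ℝ, 0 < κ ∧ κ < 1 / 2 ∧ 0 < C ∧ ∃ n1 : ℕ, ∀ n : ℕ, n1 ≤ n →
      ∀ (M : ℕ) (T : ℕ → ℕ → Site d → Site d → ℝ) (F : ℕ → Site d → ℝ) (a : ℕ → Site d → ℝ),
      GD d n M T F a C0 ((n : ℝ) ^ (δ / 8)) →
      (∀ kap : ℝ, 0 < kap → kap < 1 / 8 → N0 kap ≤ n →
        LemA n a ((n : ℝ) ^ (δ / 8)) kap (CA kap)) →
      (∀ kap : ℝ, 0 < kap → kap < 1 / 8 → LemB n a ((n : ℝ) ^ (δ / 8)) kap CB) →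
      (∀ (j : ℕ) (w : Site d), j + mm δ n ≤ n → Bx M j w →
        ∑ z ∈ (Dz d (mm δ n)).filter (fun z => (1 - κ) * (mm δ n : ℝ) < (l1 z : ℝ)),
          T j (mm δ n) w z * F (j + mm δ n) (w + z) ≤
            Real.exp (-(κ * (mm δ n : ℝ) / 2)) * F j w) ∧
      (∀ (j s : ℕ) (w z : Site d), s ≤ mm δ n → j + s ≤ n → Bx M j w → Rc s z →
        Real.exp (-(C * (mm δ n : ℝ))) ≤ T j s w z ∧ T j s w z ≤ Real.exp (C * (mm δ n : ℝ))) ∧
      (∀ (j : ℕ) (w w' : Site d), j ≤ n → Bx M j w → Bx M j w' → Even (l1 (w - w')) →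
        Real.log (F j w) ≤ Real.log (F j w') +
          C * ((l1 (w - w') : ℝ) + (mm δ n : ℝ))) := by
  set ε : ℝ := δ / 8 with hε
  have hε0 : 0 < ε := by positivity
  obtain ⟨i, hi⟩ : ∃ i : ℕ, (1 / 2 : ℝ) ^ i < ε :=
    exists_pow_lt_of_lt_one hε0 (by norm_num)
  obtain ⟨K, l, N, hK1, hl, hrec⟩ := rec_all (CA := CA) (N0 := N0) hd hC0 hCB hCA i
  set κ : ℝ := Real.exp (-(CB + 4 * l + 3)) with hκ
  have hκ0 : 0 < κ := Real.exp_pos _
  have hκ8 : κ < 1 / 8 := exp_neg_lt (by linarith)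
  have hlog : CB + 4 * l + 3 ≤ Real.log (1 / κ) := by
    rw [hκ, one_div, ← Real.exp_neg, Real.log_exp]
    linarith
  set Q : ℝ := Qc d CB κ (CA κ) with hQ
  have hQ2 : 2 ≤ Q := two_le_Qc hκ0 (by linarith) (hCA _)
  -- large n
  have hev : ∀ᶠ n : ℕ in Filter.atTop, max (K / κ) (Q ^ 2) ≤ (n : ℝ) ^ ε :=
    ((tendsto_rpow_atTop hε0).comp tendsto_natCast_atTop_atTop).eventually_ge_atTop _
  obtain ⟨n1, hn1⟩ := Filter.eventually_atTop.1 hev
  refine ⟨κ, l + C0 + 1, hκ0, by linarith, by linarith, max (max n1 1) (max N (N0 κ)), ?_⟩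
  intro n hn' M T F a h hA hB
  have hn : max n1 1 ≤ n := (le_max_left _ _).trans hn'
  have hN : max N (N0 κ) ≤ n := (le_max_right _ _).trans hn'
  have hN1 : N ≤ n := (le_max_left _ _).trans hN
  have hN2 : N0 κ ≤ n := (le_max_right _ _).trans hN
  have hnn : n1 ≤ n := (le_max_left _ _).trans hn
  have hn0 : 1 ≤ n := (le_max_right _ _).trans hn
  have hnr : (1 : ℝ) ≤ n := by exact_mod_cast hn0
  have hbig := hn1 n hnn
  have hbK : K / κ ≤ (n : ℝ) ^ ε := (le_max_left _ _).trans hbig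
  have hbQ : Q ^ 2 ≤ (n : ℝ) ^ ε := (le_max_right _ _).trans hbig
  set E : ℝ := (n : ℝ) ^ ε with hE
  have hE1 : 1 ≤ E := h.E1
  set m : ℕ := mm δ n with hm
  have hm1 : (n : ℝ) ^ δ ≤ m := Nat.le_ceil _
  have hE4 : E ^ 4 ≤ (n : ℝ) ^ δ := by
    rw [hE, ← Real.rpow_natCast, ← Real.rpow_mul (by linarith)]
    refine Real.rpow_le_rpow_of_exponent_le hnr ?_
    rw [hε]
    push_cast
    linarith
  have hm4 : E ^ 4 ≤ m := hE4.trans hm1
  have hni : (n : ℝ) ^ ((1 / 2 : ℝ) ^ i) ≤ E :=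
    Real.rpow_le_rpow_of_exponent_le hnr hi.le
  have hk0 : K * E ^ 2 * (n : ℝ) ^ ((1 / 2 : ℝ) ^ i) ≤ κ * m := by
    have h1 : K * E ^ 2 * (n : ℝ) ^ ((1 / 2 : ℝ) ^ i) ≤ K * E ^ 2 * E :=
      mul_le_mul_of_nonneg_left hni (by positivity)
    have h2 : K ≤ κ * E := by
      rw [div_le_iff₀ hκ0] at hbK
      linarith
    have h3 : K * E ^ 3 ≤ κ * E * E ^ 3 := mul_le_mul_of_nonneg_right h2 (by positivity)
    have h4 : κ * E ^ 4 ≤ κ * m := mul_le_mul_of_nonneg_left hm4 hκ0.le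
    have e1 : K * E ^ 2 * E = K * E ^ 3 := by ring
    have e2 : κ * E * E ^ 3 = κ * E ^ 4 := by ring
    linarith
  have hQm : Q * E ≤ Real.sqrt m := by
    refine Real.le_sqrt_of_sq_le ?_
    have h1 : Q ^ 2 * E ^ 2 ≤ E * E ^ 2 := mul_le_mul_of_nonneg_right hbQ (by positivity)
    have h2 : E * E ^ 2 ≤ E ^ 4 := by
      have e : E ^ 4 = E * (E * E ^ 2) := by ring
      rw [e]
      have h3 : 0 ≤ E * E ^ 2 := by positivity
      nlinarith
    have e : (Q * E) ^ 2 = Q ^ 2 * E ^ 2 := by ring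
    rw [e]
    linarith
  have hEm : E ≤ Real.sqrt m := by nlinarith
  have hm0 : (0 : ℝ) ≤ m := Nat.cast_nonneg m
  have hLip := hrec n M T F a E hn0 hN1 h hA hB
  refine ⟨?_, ?_, ?_⟩
  · intro j w hj hw
    have h1 := (propC h (hA κ hκ0 hκ8 hN2) (hB κ hκ0 hκ8) (hCA _) hCB hl hκ0 (by linarith) hlog hj
      hQm (hLip (j + m) hj) hk0).1 w hw
    refine le_trans (Finset.sum_le_sum_of_subset_of_nonneg ?_ ?_) h1
    · intro z hz
      rw [Finset.mem_filter] at hz ⊢
      exact ⟨hz.1, hz.2.le⟩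
    · intro z hz _
      rw [Finset.mem_filter, mem_Dz] at hz
      exact mul_nonneg (h.Tpos j m w z hz.1).le (h.Fpos _ _).le
  · intro j s w z hs hj hw hz
    have hsm : (s : ℝ) ≤ m := by exact_mod_cast hs
    have h1 := h.abd s z (by omega) hz
    have h2 : E * Real.sqrt s ≤ m := by
      have h3 : Real.sqrt s ≤ Real.sqrt m := Real.sqrt_le_sqrt hsm
      calc E * Real.sqrt s ≤ Real.sqrt m * Real.sqrt m :=
            mul_le_mul hEm h3 (Real.sqrt_nonneg _) (Real.sqrt_nonneg _)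
        _ = m := Real.mul_self_sqrt hm0
    have h3 : C0 * s ≤ C0 * m := mul_le_mul_of_nonneg_left hsm hC0
    have h4 : 0 ≤ l * (m : ℝ) := mul_nonneg hl hm0
    have h5 := abs_le.1 h1
    have e : (l + C0 + 1) * (m : ℝ) = l * m + C0 * m + m := by ring
    constructor
    · refine le_trans (Real.exp_le_exp.2 ?_) (h.T_ge hj hw hz)
      rw [e]
      linarith [h5.1]
    · refine (h.T_le hj hw hz).trans (Real.exp_le_exp.2 ?_)
      rw [e]
      linarith [h5.2]
  · intro j w w' hj hw hw' he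
    have h1 := (abs_le.1 (hLip j hj w w' hw hw' he)).2
    have h2 : K * E ^ 2 * (n : ℝ) ^ ((1 / 2 : ℝ) ^ i) ≤ m := by
      refine hk0.trans ?_
      nlinarith
    have h3 : max (l1 (w - w') : ℝ) (K * E ^ 2 * (n : ℝ) ^ ((1 / 2 : ℝ) ^ i)) ≤
        (l1 (w - w') : ℝ) + m :=
      max_le (by linarith) (by linarith [Nat.cast_nonneg (α := ℝ) (l1 (w - w'))])
    have h4 := mul_le_mul_of_nonneg_left h3 hl
    have h5 : l * ((l1 (w - w') : ℝ) + m) ≤ (l + C0 + 1) * ((l1 (w - w') : ℝ) + m) := by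
      have h6 : (0 : ℝ) ≤ (l1 (w - w') : ℝ) + m := by positivity
      exact mul_le_mul_of_nonneg_right (by linarith) h6
    simp only at h1
    linarith

open Classical in
/-- The deterministic half of the leaf nsV. -/
theorem nsA {d : ℕ} (hd : 0 < d) {C0 CB : ℝ} {CA : ℝ → ℝ} (hC0 : 0 ≤ C0) (hCB : 0 ≤ CB)
    (hCA : ∀ kap, 0 ≤ CA kap) {δ : ℝ} (hδ0 : 0 < δ) (hδ1 : δ < 1) :
    ∃ κ C : ℝ, 0 < κ ∧ κ < 1 / 2 ∧ 0 < C ∧ ∃ n1 : ℕ, ∀ n : ℕ, n1 ≤ n →
      ∀ (M : ℕ) (T : ℕ → ℕ → Site d → Site d → ℝ) (F : ℕ → Site d → ℝ) (a : ℕ → Site d → ℝ),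
      GD d n M T F a C0 ((n : ℝ) ^ (δ / 8)) →
      (∀ kap : ℝ, 0 < kap → kap < 1 / 8 → LemA n a ((n : ℝ) ^ (δ / 8)) kap (CA kap)) →
      (∀ kap : ℝ, 0 < kap → kap < 1 / 8 → LemB n a ((n : ℝ) ^ (δ / 8)) kap CB) →
      (∀ (j : ℕ) (w : Site d), j + mm δ n ≤ n → Bx M j w →
        ∑ z ∈ (Dz d (mm δ n)).filter (fun z => (1 - κ) * (mm δ n : ℝ) < (l1 z : ℝ)),
          T j (mm δ n) w z * F (j + mm δ n) (w + z) ≤
            Real.exp (-(κ * (mm δ n : ℝ) / 2)) * F j w) ∧
      (∀ (j s : ℕ) (w z : Site d), s ≤ mm δ n → j + s ≤ n → Bx M j w → Rc s z →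
        Real.exp (-(C * (mm δ n : ℝ))) ≤ T j s w z ∧ T j s w z ≤ Real.exp (C * (mm δ n : ℝ))) ∧
      (∀ (j : ℕ) (w w' : Site d), j ≤ n → Bx M j w → Bx M j w' → Even (l1 (w - w')) →
        Real.log (F j w) ≤ Real.log (F j w') +
          C * ((l1 (w - w') : ℝ) + (mm δ n : ℝ))) := by
  obtain ⟨κ, C, h1, h2, h3, n1, h4⟩ := nsA' (CA := CA) hd hC0 hCB hCA hδ0 hδ1 (fun _ => 0)
  exact ⟨κ, C, h1, h2, h3, n1, fun n hn M T F a h hA hB =>
    h4 n hn M T F a h (fun kap k1 k2 _ => hA kap k1 k2) hB⟩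

end Pool.Agent.W_7d29a1_V.NsA26
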