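import Pool.Agent.W_7d29a1_V.Ns26
import Pool.Agent.W_7d29a1_V.ConcV16
import Pool.Agent.W_7d29a1_V.MeanLip74
import Pool.Agent.W_7d29a1_V.MeanSteep16

/-!
STORM V, leaf nsV, without hypotheses.
-/

set_option autoImplicit false

namespace Pool.Agent.W_7d29a1_V.Ns26

open MeasureTheory ProbabilityTheory Filter Topology Pool.Agent.W_MP_7d29a1_pr
  Pool.Agent.W_7d29a1_h46 Pool.Agent.W_7d29a1_h46u Pool.Agent.W_7d29a1_D2
  Pool.Agent.W_7d29a1_D2.B35 Pool.Agent.W_7d29a1_V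

/-- U10: no steep places. -/
theorem nsV {d : ℕ} (hd : 0 < d) {ρ : Measure ℝ} [IsProbabilityMeasure ρ] (hρ : EM ρ) (β R : ℝ) :
    NSV d ρ β R :=
  nsV26 hd β R (ConcV16.concV hd hρ β R) (MeanLip74.meanLipV hd β R (ConcV16.concV hd hρ β R))
    (Pool.Agent.W_7d29a1_V.meanSteepV hd hρ β R)

end Pool.Agent.W_7d29a1_V.Ns26
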