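import Pool.Agent.W_7d29a1_V.AeB7

/-!
The bootstrap at one scale, part (a): families of tilts with moduli, nonrandom fluctuations and
tails. All constants are uniform over the family.
-/

namespace Pool.Agent.W_7d29a1_V.P20

open MeasureTheory ProbabilityTheory Filter Topology Pool.Agent.W_MP_7d29a1_pr
  Pool.Agent.W_7d29a1_h46 Pool.Agent.W_7d29a1_h46u Pool.Agent.W_7d29a1_D2
  Pool.Agent.W_7d29a1_V Pool.Agent.W_7d29a1_V.Ae7

variable {d : ℕ} {ρ : Measure ℝ} [IsProbabilityMeasure ρ]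

/-- Regular moduli. -/
structure Reg (M : ℕ → ℝ) : Prop where
  one : ∀ n : ℕ, 1 ≤ n → 1 ≤ M n
  mono : ∀ m n : ℕ, m ≤ n → M m ≤ M n
  dbl : ∀ k n : ℕ, 1 ≤ n → M (2 ^ k * n) ≤ ((2 : ℝ) ^ (1 / 2 : ℝ)) ^ k * M n

/-- The moments of the tilts of the family are those of variables of the size of the modulus, up
to `n ^ e`. -/
def FlS {d : ℕ} (ρ : Measure ℝ) (β : ℝ) (F : Set (Vec d × (ℕ → ℝ))) : Prop :=
  ∀ e : ℝ, 0 < e → ∀ q : ℕ, ∃ C : ℝ, ∀ (g : Vec d) (M : ℕ → ℝ), (g, M) ∈ F → ∀ n : ℕ, 1 ≤ n →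
    ∫ η, |X β g η n - A ρ β g n| ^ q ∂(law d ρ) ≤ C * ((n : ℝ) ^ e * M n) ^ q

/-- Doubling with the modulus. -/
theorem doubleF (hd : 0 < d) (hρ : EM ρ) {β : ℝ} {F : Set (Vec d × (ℕ → ℝ))}
    (hR : ∀ g M, (g, M) ∈ F → Reg M) (hF : FlS ρ β F) {ε : ℝ} (hε : 0 < ε) :
    ∃ C : ℝ, 0 ≤ C ∧ ∀ (g : Vec d) (M : ℕ → ℝ), (g, M) ∈ F → ∀ n : ℕ, 1 ≤ n →
      A ρ β g (n + n) ≤ 2 * A ρ β g n + C * ((n : ℝ) ^ ε * M n) := by
  obtain ⟨Q, hQ⟩ := exists_nat_ge ((d : ℝ) / (ε / 2))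
  obtain ⟨C, hC⟩ := hF (ε / 2) (by linarith) (Q + 1)
  refine ⟨1 + 3 ^ d * |C|, by positivity, fun g M' hgM n hn => ?_⟩
  have hn0 : (0 : ℝ) < n := by exact_mod_cast hn
  have hn1 : (1 : ℝ) ≤ n := by exact_mod_cast hn
  obtain ⟨M, hM⟩ : ∃ M : ℝ, M = M' n := ⟨_, rfl⟩
  have hM1 : 1 ≤ M := by
    rw [hM]
    exact (hR g M' hgM).one n hn
  have hM0 : 0 < M := by linarith
  obtain ⟨y, hy⟩ : ∃ y : ℝ, y = (n : ℝ) ^ (ε / 2) := ⟨_, rfl⟩
  have hy0 : 0 < y := by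
    rw [hy]
    exact Real.rpow_pos_of_pos hn0 _
  have hyy : (n : ℝ) ^ ε = y * y := by
    rw [hy, ← Real.rpow_add hn0]
    congr 1
    ring
  have hb : ∫ η, |X β g η n - A ρ β g n| ^ (Q + 1) ∂(law d ρ) ≤ |C| * (y * M) ^ (Q + 1) := by
    refine (hC g M' hgM n hn).trans ?_
    rw [← hy, ← hM]
    exact mul_le_mul_of_nonneg_right (le_abs_self C) (by positivity)
  have hu : 0 < y * y * M := by positivity
  have h2 := doubleG hd hρ hn hu hb
  have h3 : (3 * (n : ℝ)) ^ d * (|C| * (y * M) ^ (Q + 1) / (y * y * M) ^ Q) ≤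
      3 ^ d * |C| * (y * y * M) := by
    have e1 : |C| * (y * M) ^ (Q + 1) / (y * y * M) ^ Q = |C| * (y * M) / y ^ Q := by
      have e2 : (y * y * M) ^ Q = y ^ Q * (y * M) ^ Q := by
        rw [← mul_pow]
        ring
      rw [e2, pow_succ]
      field_simp
    rw [e1, mul_pow]
    have e3 : (n : ℝ) ^ d ≤ y ^ Q * y := by
      have e4 : (n : ℝ) ^ d ≤ y ^ Q := by
        rw [hy, ← Real.rpow_natCast, ← Real.rpow_natCast, ← Real.rpow_mul hn0.le]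
        refine Real.rpow_le_rpow_of_exponent_le hn1 ?_
        rw [div_le_iff₀ (by linarith)] at hQ
        linarith
      have e5 : 1 ≤ y := by
        rw [hy]
        exact Real.one_le_rpow hn1 (by linarith)
      calc (n : ℝ) ^ d ≤ y ^ Q := e4
        _ ≤ y ^ Q * y := le_mul_of_one_le_right (by positivity) e5
    have e6 : 3 ^ d * (n : ℝ) ^ d * (|C| * (y * M) / y ^ Q) =
        3 ^ d * |C| * (y * M) * ((n : ℝ) ^ d / y ^ Q) := by ring
    rw [e6]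
    have e7 : (n : ℝ) ^ d / y ^ Q ≤ y := by
      rw [div_le_iff₀ (by positivity)]
      linarith
    calc 3 ^ d * |C| * (y * M) * ((n : ℝ) ^ d / y ^ Q) ≤ 3 ^ d * |C| * (y * M) * y :=
          mul_le_mul_of_nonneg_left e7 (by positivity)
      _ = 3 ^ d * |C| * (y * y * M) := by ring
  rw [hyy, ← hM]
  linarith

/-- The nonrandom fluctuations with the modulus. -/
theorem rateF (hd : 0 < d) (hρ : EM ρ) {β : ℝ} {F : Set (Vec d × (ℕ → ℝ))}
    (hR : ∀ g M, (g, M) ∈ F → Reg M) (hF : FlS ρ β F) {ε : ℝ} (hε : 0 < ε) (hε1 : ε < 1 / 2) :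
    ∃ C : ℝ, 0 ≤ C ∧ ∀ (g : Vec d) (M : ℕ → ℝ), (g, M) ∈ F → ∀ n : ℕ, 1 ≤ n →
      n * lam ρ β g - A ρ β g n ≤ C * ((n : ℝ) ^ ε * M n) := by
  obtain ⟨C, hC, H⟩ := doubleF hd hρ hR hF hε
  obtain ⟨s, hs⟩ : ∃ s : ℝ, s = (2 : ℝ) ^ (ε - 1 / 2) := ⟨_, rfl⟩
  have hs0 : 0 < s := by
    rw [hs]
    exact Real.rpow_pos_of_pos two_pos _
  have hs1 : s < 1 := by
    rw [hs]
    exact Real.rpow_lt_one_of_one_lt_of_neg one_lt_two (by linarith)
  refine ⟨C / 2 * (1 - s)⁻¹,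
    mul_nonneg (by linarith) (inv_nonneg.2 (by linarith)), fun g M hgM n hn => ?_⟩
  have hM := hR g M hgM
  have hn0 : (0 : ℝ) < n := by exact_mod_cast hn
  obtain ⟨D, hD⟩ : ∃ D : ℝ, D = (n : ℝ) ^ ε * M n := ⟨_, rfl⟩
  have hD0 : 0 ≤ D := by
    rw [hD]
    exact mul_nonneg (Real.rpow_nonneg hn0.le _) (by linarith [hM.one n hn])
  have H' : ∀ k : ℕ, A ρ β g (2 ^ k * n + 2 ^ k * n) ≤ 2 * A ρ β g (2 ^ k * n) +
      (C * D) * (s * 2) ^ k := by
    intro k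
    refine (H g M hgM (2 ^ k * n) (Nat.mul_pos (by positivity) hn)).trans ?_
    have h1 : ((2 ^ k * n : ℕ) : ℝ) ^ ε * M (2 ^ k * n) ≤ D * (s * 2) ^ k := by
      have e1 : ((2 ^ k * n : ℕ) : ℝ) ^ ε = ((2 : ℝ) ^ ε) ^ k * (n : ℝ) ^ ε := by
        push_cast
        rw [Real.mul_rpow (by positivity) hn0.le, ← Real.rpow_natCast, ← Real.rpow_natCast,
          ← Real.rpow_mul (by norm_num), ← Real.rpow_mul (by norm_num), mul_comm (k : ℝ) ε]
      have e2 := hM.dbl k n hn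
      have e3 : s * 2 = (2 : ℝ) ^ ε * (2 : ℝ) ^ (1 / 2 : ℝ) := by
        have e4 : (2 : ℝ) ^ (ε - 1 / 2) * (2 : ℝ) ^ (1 : ℝ) = (2 : ℝ) ^ (ε + 1 / 2) := by
          rw [← Real.rpow_add two_pos]
          congr 1
          ring
        rw [hs, ← Real.rpow_add two_pos, ← e4, Real.rpow_one]
      rw [e1, e3, mul_pow, hD]
      calc ((2 : ℝ) ^ ε) ^ k * (n : ℝ) ^ ε * M (2 ^ k * n)
          ≤ ((2 : ℝ) ^ ε) ^ k * (n : ℝ) ^ ε *
              (((2 : ℝ) ^ (1 / 2 : ℝ)) ^ k * M n) :=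
            mul_le_mul_of_nonneg_left e2 (by positivity)
        _ = _ := by ring
    have h2 := mul_le_mul_of_nonneg_left h1 hC
    linarith
  have key : ∀ j : ℕ, A ρ β g (2 ^ j * n) / 2 ^ j ≤
      A ρ β g n + C / 2 * (1 - s)⁻¹ * D := by
    intro j
    refine (iterM n H' j).trans ?_
    have h1 : ∑ k ∈ Finset.range j, s ^ k ≤ (1 - s)⁻¹ := by
      rw [← tsum_geometric_of_lt_one hs0.le hs1]
      exact (summable_geometric_of_lt_one hs0.le hs1).sum_le_tsum _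
        (fun k _ => pow_nonneg hs0.le k)
    have h2 : 0 ≤ C * D / 2 := by positivity
    have h3 := mul_le_mul_of_nonneg_left h1 h2
    have h4 : C / 2 * (1 - s)⁻¹ * D = C * D / 2 * (1 - s)⁻¹ := by ring
    rw [h4]
    linarith
  have hlim : Tendsto (fun j : ℕ => A ρ β g (2 ^ j * n) / 2 ^ j) atTop
      (𝓝 (n * lam ρ β g)) := by
    have h1 : Tendsto (fun j : ℕ => 2 ^ j * n) atTop atTop :=
      Filter.Tendsto.atTop_mul_const' hn (tendsto_pow_atTop_atTop_of_one_lt one_lt_two)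
    have h2 := ((tendsto_A hd hρ β g).comp h1).const_mul (n : ℝ)
    refine h2.congr fun j => ?_
    simp only [Function.comp]
    push_cast
    have h3 : (2 : ℝ) ^ j ≠ 0 := by positivity
    field_simp
  have h4 := le_of_tendsto' hlim key
  rw [← hD]
  linarith

/-- Tails from moments, with the modulus. -/
theorem tailF (hd : 0 < d) (hρ : EM ρ) {β : ℝ} {F : Set (Vec d × (ℕ → ℝ))}
    (hR : ∀ g M, (g, M) ∈ F → Reg M) (hF : FlS ρ β F) {ε : ℝ} (hε : 0 < ε) (q : ℕ) :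
    ∃ C : ℝ, 0 ≤ C ∧ ∀ (g : Vec d) (M : ℕ → ℝ), (g, M) ∈ F → ∀ (n m : ℕ), 1 ≤ n → m ≤ n →
      ∀ (t : ℕ) (y : Site d) (u : ℝ), (n : ℝ) ^ ε * M n ≤ u →
        (law d ρ).real {η | u < |X β g (sh t y η) m - A ρ β g m|} ≤
          C * (n : ℝ) ^ (-(q : ℝ)) := by
  obtain ⟨Q, hQ⟩ := exists_nat_ge ((q : ℝ) / (ε / 2))
  have hQ' : (q : ℝ) ≤ (ε / 2) * Q := by
    rw [div_le_iff₀ (by linarith)] at hQ
    linarith
  obtain ⟨C₀, hC₀⟩ := hF (ε / 2) (by linarith) Q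
  obtain ⟨C₁, -, hC₁⟩ := momU (d := d) hd hρ β Q
  refine ⟨|C₀|, abs_nonneg _, fun g M' hgM n m hn hm t y u hu => ?_⟩
  have hMr := hR g M' hgM
  have hn1 : (1 : ℝ) ≤ n := by exact_mod_cast hn
  have hn0 : (0 : ℝ) < n := by linarith
  obtain ⟨M, hM⟩ : ∃ M : ℝ, M = M' n := ⟨_, rfl⟩
  have hM1 : 1 ≤ M := by
    rw [hM]
    exact hMr.one n hn
  rw [← hM] at hu
  have hpn : 0 < (n : ℝ) ^ ε := Real.rpow_pos_of_pos hn0 _
  have hu0 : 0 < u := lt_of_lt_of_le (mul_pos hpn (by linarith)) hu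
  have hrhs : 0 ≤ |C₀| * (n : ℝ) ^ (-(q : ℝ)) :=
    mul_nonneg (abs_nonneg _) (Real.rpow_nonneg hn0.le _)
  rcases Nat.eq_zero_or_pos m with hm0 | hm0
  · have h1 : ∀ η : Env d, X β g η 0 = 0 := by
      intro η
      rw [X, Z_zero, Real.log_one]
    have h2 : A ρ β g 0 = 0 := by
      unfold A
      simp only [h1]
      exact integral_zero _ _
    have h3 : {η : Env d | u < |X β g (sh t y η) m - A ρ β g m|} = ∅ := by
      rw [Set.eq_empty_iff_forall_notMem]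
      intro η hη
      have hη' : u < |X β g (sh t y η) m - A ρ β g m| := hη
      rw [hm0, h1, h2, sub_zero, abs_zero] at hη'
      exact absurd hη' (not_lt.2 hu0.le)
    rw [h3, measureReal_empty]
    exact hrhs
  · obtain ⟨hint, -⟩ := hC₁ g m hm0
    have hmean := hC₀ g M' hgM m hm0
    have hmeasY : Measurable fun η : Env d => |X β g η m - A ρ β g m| :=
      ((measurable_X β g m).sub_const _).abs
    have hset : MeasurableSet {η : Env d | u < |X β g η m - A ρ β g m|} :=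
      measurableSet_lt measurable_const hmeasY
    have hshift : (law d ρ).real
        {η | u < |X β g (sh t y η) m - A ρ β g m|} =
        (law d ρ).real {η | u < |X β g η m - A ρ β g m|} := by
      rw [measureReal_def, measureReal_def, ← (mp_sh (ρ := ρ) t y).measure_preimage
        hset.nullMeasurableSet]
      rfl
    rw [hshift]
    have hmk := mul_meas_ge_le_integral_of_nonneg (μ := law d ρ)
      (f := fun η => |X β g η m - A ρ β g m| ^ Q)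
      (Filter.Eventually.of_forall fun η => pow_nonneg (abs_nonneg _) Q) hint
      (u ^ Q)
    have hsub : (law d ρ).real {η | u < |X β g η m - A ρ β g m|} ≤
        (law d ρ).real {η | u ^ Q ≤ |X β g η m - A ρ β g m| ^ Q} := by
      refine measureReal_mono fun η hη => ?_
      have hη' : u < |X β g η m - A ρ β g m| := hη
      exact pow_le_pow_left₀ hu0.le hη'.le Q
    have hm1 : (1 : ℝ) ≤ m := by exact_mod_cast hm0
    have hmn : (m : ℝ) ≤ n := by exact_mod_cast hm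
    have h5 : C₀ * ((m : ℝ) ^ (ε / 2) * M' m) ^ Q ≤
        |C₀| * ((n : ℝ) ^ (ε / 2) * M) ^ Q := by
      have a1 : (m : ℝ) ^ (ε / 2) ≤ (n : ℝ) ^ (ε / 2) :=
        Real.rpow_le_rpow (by linarith) hmn (by linarith)
      have a2 : M' m ≤ M := by
        rw [hM]
        exact hMr.mono m n hm
      have a3 : 0 ≤ M' m := by linarith [hMr.one m hm0]
      have a4 : (m : ℝ) ^ (ε / 2) * M' m ≤
          (n : ℝ) ^ (ε / 2) * M := mul_le_mul a1 a2 a3 (Real.rpow_nonneg hn0.le _)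
      have a5 : 0 ≤ (m : ℝ) ^ (ε / 2) * M' m :=
        mul_nonneg (Real.rpow_nonneg (by linarith) _) a3
      exact mul_le_mul (le_abs_self _) (pow_le_pow_left₀ a5 a4 Q) (pow_nonneg a5 Q)
        (abs_nonneg _)
    have h6 : u ^ Q * (law d ρ).real {η | u < |X β g η m - A ρ β g m|} ≤
        |C₀| * ((n : ℝ) ^ (ε / 2) * M) ^ Q :=
      (mul_le_mul_of_nonneg_left hsub (pow_nonneg hu0.le Q)).trans (hmk.trans (hmean.trans h5))
    have h7 : |C₀| * ((n : ℝ) ^ (ε / 2) * M) ^ Q ≤ u ^ Q * (|C₀| * (n : ℝ) ^ (-(q : ℝ))) := by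
      have h8 : ((n : ℝ) ^ (ε / 2) * M) ^ Q ≤ u ^ Q * (n : ℝ) ^ (-(q : ℝ)) := by
        have b1 : ((n : ℝ) ^ ε * M) ^ Q ≤ u ^ Q :=
          pow_le_pow_left₀ (mul_nonneg hpn.le (by linarith)) hu Q
        have b2 : ((n : ℝ) ^ (ε / 2) * M) ^ Q ≤ ((n : ℝ) ^ ε * M) ^ Q * (n : ℝ) ^ (-(q : ℝ)) := by
          rw [mul_pow, mul_pow, ← Real.rpow_natCast, ← Real.rpow_mul hn0.le,
            ← Real.rpow_natCast ((n : ℝ) ^ ε), ← Real.rpow_mul hn0.le]
          have b3 : (n : ℝ) ^ (ε / 2 * Q) ≤ (n : ℝ) ^ (ε * Q) * (n : ℝ) ^ (-(q : ℝ)) := by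
            rw [← Real.rpow_add hn0]
            refine Real.rpow_le_rpow_of_exponent_le hn1 ?_
            linarith
          calc (n : ℝ) ^ (ε / 2 * Q) * M ^ Q
              ≤ ((n : ℝ) ^ (ε * Q) * (n : ℝ) ^ (-(q : ℝ))) * M ^ Q :=
                mul_le_mul_of_nonneg_right b3 (by positivity)
            _ = _ := by ring
        exact b2.trans (mul_le_mul_of_nonneg_right b1 (Real.rpow_nonneg hn0.le _))
      calc |C₀| * ((n : ℝ) ^ (ε / 2) * M) ^ Q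
          ≤ |C₀| * (u ^ Q * (n : ℝ) ^ (-(q : ℝ))) :=
            mul_le_mul_of_nonneg_left h8 (abs_nonneg _)
        _ = u ^ Q * (|C₀| * (n : ℝ) ^ (-(q : ℝ))) := by ring
    exact le_of_mul_le_mul_left (h6.trans h7) (pow_pos hu0 Q)

end Pool.Agent.W_7d29a1_V.P20
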