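import Pool.Agent.W_7d29a1_V.P20a

/-!
The bootstrap at one scale, part (b): tubes.
-/

namespace Pool.Agent.W_7d29a1_V.P20

open MeasureTheory ProbabilityTheory Filter Topology Pool.Agent.W_MP_7d29a1_pr
  Pool.Agent.W_7d29a1_h46 Pool.Agent.W_7d29a1_h46u Pool.Agent.W_7d29a1_D2
  Pool.Agent.W_7d29a1_V Pool.Agent.W_7d29a1_V.Ae7

variable {d : ℕ} {ρ : Measure ℝ} [IsProbabilityMeasure ρ]

/-- The probability of the good event. -/
theorem probF (hd : 0 < d) (hρ : EM ρ) {β : ℝ} {F : Set (Vec d × (ℕ → ℝ))}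
    (hR : ∀ g M, (g, M) ∈ F → Reg M) (hF : FlS ρ β F) {ε : ℝ} (hε : 0 < ε) (q : ℕ) :
    ∃ C : ℝ, 0 ≤ C ∧ ∀ (g : Vec d) (M : ℕ → ℝ) (t : ℝ), (g, M) ∈ F →
      (∀ (j : Fin d) (b : Bool), (g + (if b then t else -t) • ej j, M) ∈ F) →
      ∀ (n : ℕ) (u : ℝ), 1 ≤ n → (n : ℝ) ^ ε * M n ≤ u →
      (law d ρ).real {η | ¬ GdU ρ β g t u n η} ≤ C * (n : ℝ) ^ (-(q : ℝ)) := by
  classical
  obtain ⟨C₀, hC₀, hT⟩ := tailF hd hρ hR hF hε (q + d + 2)
  refine ⟨C₀ * (4 * d + 2 * 3 ^ d), by positivity, fun g M t hgM hnb n u hn hu => ?_⟩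
  have hn1 : (1 : ℝ) ≤ n := by exact_mod_cast hn
  have hn0 : (0 : ℝ) < n := by linarith
  obtain ⟨B, hB⟩ : ∃ B : ℝ, B = C₀ * (n : ℝ) ^ (-((q + d + 2 : ℕ) : ℝ)) := ⟨_, rfl⟩
  have hB0 : 0 ≤ B := by
    rw [hB]
    exact mul_nonneg hC₀ (Real.rpow_nonneg hn0.le _)
  have hsh0 : ∀ η : Env d, sh 0 0 η = η := by
    intro η
    funext p
    unfold sh
    rw [add_zero, add_zero]
  -- the events
  obtain ⟨S1, hS1⟩ : ∃ S1 : ℕ × Fin d × Bool → Set (Env d), S1 = fun a =>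
      {η | u < |X β (g + (if a.2.2 then t else -t) • ej a.2.1) η a.1 -
        A ρ β (g + (if a.2.2 then t else -t) • ej a.2.1) a.1|} := ⟨_, rfl⟩
  obtain ⟨S2, hS2⟩ : ∃ S2 : ℕ × Site d → Set (Env d), S2 = fun a =>
      {η | u < |X β g (sh a.1 a.2 η) (n - a.1) - A ρ β g (n - a.1)|} := ⟨_, rfl⟩
  have h1 : ∀ a ∈ (Finset.range (n + 1)) ×ˢ (Finset.univ : Finset (Fin d × Bool)),
      (law d ρ).real (S1 a) ≤ B := by
    intro a ha
    have ha1 : a.1 ≤ n := Nat.lt_succ_iff.1 (Finset.mem_range.1 (Finset.mem_product.1 ha).1)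
    have h2 := hT (g + (if a.2.2 then t else -t) • ej a.2.1) M (hnb a.2.1 a.2.2) n a.1 hn ha1
      0 0 u hu
    simp only [hsh0] at h2
    rw [hB, hS1]
    exact h2
  have h2 : ∀ a ∈ (Finset.range (n + 1)) ×ˢ boxF d n, (law d ρ).real (S2 a) ≤ B := by
    intro a ha
    have h3 := hT g M hgM n (n - a.1) hn (Nat.sub_le _ _) a.1 a.2 u hu
    rw [hB, hS2]
    exact h3
  have hsub : {η | ¬ GdU ρ β g t u n η} ⊆
      (⋃ a ∈ (Finset.range (n + 1)) ×ˢ (Finset.univ : Finset (Fin d × Bool)), S1 a) ∪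
        ⋃ a ∈ (Finset.range (n + 1)) ×ˢ boxF d n, S2 a := by
    intro η hη
    by_contra hcon
    rw [Set.mem_union, not_or, Set.mem_iUnion₂, Set.mem_iUnion₂] at hcon
    obtain ⟨c1, c2⟩ := hcon
    apply hη
    refine ⟨fun i hi j => ⟨?_, ?_⟩, fun i hi y hy => ?_⟩
    · by_contra hc
      refine c1 ⟨(i, j, true), ?_, ?_⟩
      · exact Finset.mem_product.2 ⟨Finset.mem_range.2 (Nat.lt_succ_iff.2 hi),
          Finset.mem_univ _⟩
      · rw [hS1]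
        exact not_le.1 hc
    · by_contra hc
      refine c1 ⟨(i, j, false), ?_, ?_⟩
      · exact Finset.mem_product.2 ⟨Finset.mem_range.2 (Nat.lt_succ_iff.2 hi),
          Finset.mem_univ _⟩
      · rw [hS1]
        exact not_le.1 hc
    · by_contra hc
      refine c2 ⟨(i, y), ?_, ?_⟩
      · exact Finset.mem_product.2 ⟨Finset.mem_range.2 (Nat.lt_succ_iff.2 hi), hy⟩
      · rw [hS2]
        exact not_le.1 hc
  have h3 : (law d ρ).real {η | ¬ GdU ρ β g t u n η} ≤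
      ((n : ℝ) + 1) * (d * 2) * B + ((n : ℝ) + 1) * (2 * n + 1) ^ d * B := by
    refine (measureReal_mono hsub).trans ((measureReal_union_le _ _).trans (add_le_add ?_ ?_))
    · refine (measureReal_biUnion_finset_le _ _).trans ((Finset.sum_le_sum h1).trans
        (le_of_eq ?_))
      rw [Finset.sum_const, Finset.card_product, Finset.card_range, Finset.card_univ,
        Fintype.card_prod, Fintype.card_fin, Fintype.card_bool, nsmul_eq_mul]
      push_cast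
      ring
    · refine (measureReal_biUnion_finset_le _ _).trans ((Finset.sum_le_sum h2).trans
        (le_of_eq ?_))
      rw [Finset.sum_const, Finset.card_product, Finset.card_range, card_boxF, nsmul_eq_mul]
      push_cast
      ring
  have h4 : (n : ℝ) + 1 ≤ 2 * n := by linarith
  have h5 : (2 * (n : ℝ) + 1) ^ d ≤ 3 ^ d * (n : ℝ) ^ d := by
    rw [← mul_pow]
    exact pow_le_pow_left₀ (by positivity) (by linarith) d
  have h6 : (1 : ℝ) ≤ (n : ℝ) ^ d := one_le_pow₀ hn1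
  have h7 : ((n : ℝ) + 1) * (d * 2) * B ≤ (4 * d) * ((n : ℝ) ^ (d + 1) * B) := by
    have e1 : ((n : ℝ) + 1) * (d * 2) ≤ (2 * n) * (d * 2) :=
      mul_le_mul_of_nonneg_right h4 (by positivity)
    have e2 : (2 * (n : ℝ)) * (d * 2) ≤ (4 * d) * ((n : ℝ) ^ d * n) := by
      have e3 : (n : ℝ) ≤ (n : ℝ) ^ d * n := le_mul_of_one_le_left hn0.le h6
      have e4 := mul_le_mul_of_nonneg_left e3 (show (0 : ℝ) ≤ 4 * d by positivity)
      linarith
    have e5 := mul_le_mul_of_nonneg_right (e1.trans e2) hB0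
    rw [pow_succ]
    linarith
  have h8 : ((n : ℝ) + 1) * (2 * n + 1) ^ d * B ≤ (2 * 3 ^ d) * ((n : ℝ) ^ (d + 1) * B) := by
    have e1 : ((n : ℝ) + 1) * (2 * n + 1) ^ d ≤ (2 * n) * (3 ^ d * (n : ℝ) ^ d) :=
      mul_le_mul h4 h5 (by positivity) (by positivity)
    have e5 := mul_le_mul_of_nonneg_right e1 hB0
    rw [pow_succ]
    linarith
  have h9 : (n : ℝ) ^ (d + 1) * B ≤ C₀ * (n : ℝ) ^ (-(q : ℝ)) := by
    rw [hB]
    have e1 : (n : ℝ) ^ (d + 1) * (n : ℝ) ^ (-((q + d + 2 : ℕ) : ℝ)) ≤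
        (n : ℝ) ^ (-(q : ℝ)) := by
      rw [← Real.rpow_natCast, ← Real.rpow_add hn0]
      refine Real.rpow_le_rpow_of_exponent_le hn1 ?_
      push_cast
      linarith
    calc (n : ℝ) ^ (d + 1) * (C₀ * (n : ℝ) ^ (-((q + d + 2 : ℕ) : ℝ)))
        = C₀ * ((n : ℝ) ^ (d + 1) * (n : ℝ) ^ (-((q + d + 2 : ℕ) : ℝ))) := by ring
      _ ≤ C₀ * (n : ℝ) ^ (-(q : ℝ)) := mul_le_mul_of_nonneg_left e1 hC₀
  have h10 : (4 * (d : ℝ) + 2 * 3 ^ d) * ((n : ℝ) ^ (d + 1) * B) ≤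
      (4 * (d : ℝ) + 2 * 3 ^ d) * (C₀ * (n : ℝ) ^ (-(q : ℝ))) :=
    mul_le_mul_of_nonneg_left h9 (by positivity)
  calc (law d ρ).real {η | ¬ GdU ρ β g t u n η}
      ≤ ((n : ℝ) + 1) * (d * 2) * B + ((n : ℝ) + 1) * (2 * n + 1) ^ d * B := h3
    _ ≤ (4 * d) * ((n : ℝ) ^ (d + 1) * B) + (2 * 3 ^ d) * ((n : ℝ) ^ (d + 1) * B) :=
        add_le_add h7 h8
    _ = (4 * (d : ℝ) + 2 * 3 ^ d) * ((n : ℝ) ^ (d + 1) * B) := by ring
    _ ≤ (4 * (d : ℝ) + 2 * 3 ^ d) * (C₀ * (n : ℝ) ^ (-(q : ℝ))) := h10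
    _ = C₀ * (4 * d + 2 * 3 ^ d) * (n : ℝ) ^ (-(q : ℝ)) := by ring

/-- **Tubes**: the upper bound `G` of the increments of `lam` at the distance `t`, slope `v`. -/
theorem tubF (hd : 0 < d) (hρ : EM ρ) {β : ℝ} {F : Set (Vec d × (ℕ → ℝ))}
    (hR : ∀ g M, (g, M) ∈ F → Reg M) (hF : FlS ρ β F) {x : ℝ} (hx : 0 < x)
    (hMx : ∀ g M, (g, M) ∈ F → ∀ n : ℕ, 1 ≤ n → (n : ℝ) ^ x ≤ M n) {v : Vec d} {e : ℝ}
    (he : 0 < e) (Q : ℕ) : ∃ C : ℝ, ∀ (g : Vec d) (M : ℕ → ℝ) (t G : ℝ), 0 < t → 0 ≤ G →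
      (g, M) ∈ F → (∀ (j : Fin d) (b : Bool), (g + (if b then t else -t) • ej j, M) ∈ F) →
      (∀ j : Fin d, ∀ s : ℝ, |s| = t → lam ρ β (g + s • ej j) ≤ lam ρ β g + v j * s + G) →
      ∀ n : ℕ, 1 ≤ n → ∀ W : ℝ, (n : ℝ) ^ e * (n * G + M n) ≤ t * W →
        ∫ η, (1 - PolT β g η (tube d n v W)) ∂(law d ρ) ≤ C * (n : ℝ) ^ (-(Q : ℝ)) := by
  have hd0 : (0 : ℝ) < d := by exact_mod_cast hd
  obtain ⟨ε, hε, hεe, hε1⟩ : ∃ ε : ℝ, 0 < ε ∧ 3 * ε ≤ e ∧ ε < 1 / 2 := by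
    refine ⟨min (e / 3) (1 / 4), lt_min (by linarith) (by norm_num), ?_, ?_⟩
    · have := min_le_left (e / 3) (1 / 4)
      linarith
    · have := min_le_right (e / 3) (1 / 4)
      linarith
  obtain ⟨C₁, hC₁, H₁⟩ := rateF hd hρ hR hF hε hε1
  obtain ⟨C₂, hC₂, H₂⟩ := probF hd hρ hR hF hε Q
  obtain ⟨C', hC'⟩ : ∃ C' : ℝ, C' = 4 + C₁ := ⟨_, rfl⟩
  have hC'0 : 0 ≤ C' := by
    rw [hC']
    positivity
  -- large `n`
  have hcast := tendsto_natCast_atTop_atTop (R := ℝ)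
  have hbig : ∀ᶠ n : ℕ in atTop, (d : ℝ) * C' ≤ (n : ℝ) ^ (2 * ε) :=
    ((tendsto_rpow_atTop (show 0 < 2 * ε by linarith)).comp hcast).eventually
      (eventually_ge_atTop _)
  obtain ⟨N, hN⟩ := eventually_atTop.1 (hbig.and (TubW_asym d hd C' hC'0 hx hε Q))
  refine ⟨max (C₂ + 4 * d) ((N : ℝ) ^ (Q : ℝ)), fun g M t G ht hG hgM hnb hE n hn W hW => ?_⟩
  have hn1 : (1 : ℝ) ≤ n := by exact_mod_cast hn
  have hn0 : (0 : ℝ) < n := by linarith
  have hq0 : 0 ≤ (n : ℝ) ^ (-(Q : ℝ)) := Real.rpow_nonneg hn0.le _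
  have hint : ∀ η : Env d, 1 - PolT β g η (tube d n v W) ≤ 1 := fun η => by
    have := PolT_nonneg β g η (tube d n v W)
    linarith
  have hint0 : ∀ η : Env d, 0 ≤ 1 - PolT β g η (tube d n v W) := fun η => by
    have := PolT_le_one β g η (tube d n v W)
    linarith
  rcases lt_or_ge n N with hnN | hnN
  · -- small n
    have h1 : ∫ η, (1 - PolT β g η (tube d n v W)) ∂(law d ρ) ≤ 1 := by
      have h2 := integral_mono_of_nonneg (μ := law d ρ) (Eventually.of_forall hint0)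
        (integrable_const (1 : ℝ)) (Eventually.of_forall hint)
      refine h2.trans (le_of_eq ?_)
      simp
    refine h1.trans ?_
    have h3 : 1 ≤ (N : ℝ) ^ (Q : ℝ) * (n : ℝ) ^ (-(Q : ℝ)) := by
      rw [Real.rpow_neg hn0.le, ← div_eq_mul_inv, one_le_div (Real.rpow_pos_of_pos hn0 _)]
      exact Real.rpow_le_rpow hn0.le (by exact_mod_cast hnN.le) (Nat.cast_nonneg Q)
    exact h3.trans (mul_le_mul_of_nonneg_right (le_max_right _ _) hq0)
  · obtain ⟨hb1, hasym⟩ := hN n hnN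
    obtain ⟨T, hT⟩ : ∃ T : ℝ, T = n * G + M n := ⟨_, rfl⟩
    have hnG : 0 ≤ (n : ℝ) * G := mul_nonneg hn0.le hG
    have A1 : (n : ℝ) ^ x ≤ T := by
      rw [hT]
      linarith [hMx g M hgM n hn]
    have hT0 : 0 < T := lt_of_lt_of_le (Real.rpow_pos_of_pos hn0 _) A1
    have hMT : M n ≤ T := by
      rw [hT]
      linarith
    have hyε : 0 < (n : ℝ) ^ ε := Real.rpow_pos_of_pos hn0 _
    have hyε1 : 1 ≤ (n : ℝ) ^ ε := Real.one_le_rpow hn1 hε.le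
    obtain ⟨u, hu⟩ : ∃ u : ℝ, u = (n : ℝ) ^ ε * T := ⟨_, rfl⟩
    have hMu : (n : ℝ) ^ ε * M n ≤ u := by
      rw [hu]
      exact mul_le_mul_of_nonneg_left hMT hyε.le
    have hbad := H₂ g M t hgM hnb n u hn hMu
    have hR' : n * lam ρ β g - A ρ β g n ≤ C₁ * u :=
      (H₁ g M hgM n hn).trans (mul_le_mul_of_nonneg_left hMu hC₁)
    have hexp : n * G + 3 * u + C₁ * u - t * (W / d) ≤
        C' * (n : ℝ) ^ (x + ε) - (n : ℝ) ^ (x + 3 * ε) / d := by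
      obtain ⟨y, hy⟩ : ∃ y : ℝ, y = (n : ℝ) ^ ε := ⟨_, rfl⟩
      have f1 : (n : ℝ) ^ (x + ε) = (n : ℝ) ^ x * y := by rw [hy, Real.rpow_add hn0]
      have f2 : (n : ℝ) ^ (x + 3 * ε) = (n : ℝ) ^ x * (n : ℝ) ^ (3 * ε) := Real.rpow_add hn0 _ _
      have f3 : (n : ℝ) ^ (3 * ε) = y * (n : ℝ) ^ (2 * ε) := by
        rw [hy, ← Real.rpow_add hn0]
        congr 1
        ring
      have f5 : (n : ℝ) ^ (3 * ε) * T ≤ t * W := by
        have g1 : (n : ℝ) ^ (3 * ε) ≤ (n : ℝ) ^ e := Real.rpow_le_rpow_of_exponent_le hn1 hεe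
        rw [← hT] at hW
        exact (mul_le_mul_of_nonneg_right g1 hT0.le).trans hW
      have f6 : t * (W / d) = t * W / d := by ring
      have f7 : (n : ℝ) ^ (3 * ε) * T / d ≤ t * W / d :=
        div_le_div_of_nonneg_right f5 hd0.le
      have f8 : n * G ≤ T * y := by
        have g1 : n * G ≤ T := by
          rw [hT]
          have := Real.rpow_nonneg hn0.le x
          linarith [hMx g M hgM n hn]
        exact g1.trans (le_mul_of_one_le_right hT0.le (by rw [hy]; exact hyε1))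
      have f9 : n * G + 3 * u + C₁ * u ≤ C' * y * T := by
        rw [hu, hC', ← hy]
        nlinarith [f8]
      have f10 : C' * y ≤ (n : ℝ) ^ (3 * ε) / d := by
        rw [le_div_iff₀ hd0, f3]
        have g1 : 0 ≤ y := by
          rw [hy]
          exact hyε.le
        nlinarith [mul_le_mul_of_nonneg_left hb1 g1]
      have f11 : (C' * y - (n : ℝ) ^ (3 * ε) / d) * T ≤
          (C' * y - (n : ℝ) ^ (3 * ε) / d) * (n : ℝ) ^ x :=
        mul_le_mul_of_nonpos_left A1 (by linarith)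
      rw [f1, f2, f6]
      have f12 : (n : ℝ) ^ (3 * ε) * T / d = (n : ℝ) ^ (3 * ε) / d * T := by ring
      have f13 : (n : ℝ) ^ x * (n : ℝ) ^ (3 * ε) / d = (n : ℝ) ^ (3 * ε) / d * (n : ℝ) ^ x := by
        ring
      rw [f12] at f7
      rw [f13]
      linarith
    have hmain := TubW_split (μ := law d ρ)
      (f := fun η => 1 - PolT β g η (tube d n v W)) hint
      (G := {η | GdU ρ β g t u n η}) (b := 4 * d * (n : ℝ) ^ (-(Q : ℝ)))
      (by positivity)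
      (fun η hη => (tube_goodM hd hρ ht hG hE hR' hη).trans
        ((mul_le_mul_of_nonneg_left (Real.exp_le_exp.2 hexp) (by positivity)).trans hasym))
      hint0
    have hset : ({η | GdU ρ β g t u n η} : Set (Env d))ᶜ =
        {η | ¬ GdU ρ β g t u n η} := rfl
    rw [hset] at hmain
    refine hmain.trans ?_
    calc (law d ρ).real {η | ¬ GdU ρ β g t u n η} +
          4 * d * (n : ℝ) ^ (-(Q : ℝ)) ≤ C₂ * (n : ℝ) ^ (-(Q : ℝ)) +
          4 * d * (n : ℝ) ^ (-(Q : ℝ)) := add_le_add hbad le_rfl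
      _ = (C₂ + 4 * d) * (n : ℝ) ^ (-(Q : ℝ)) := by ring
      _ ≤ _ := mul_le_mul_of_nonneg_right (le_max_left _ _) hq0

end Pool.Agent.W_7d29a1_V.P20
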