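import Pool.Agent.W_7d29a1_V.P20b

/-!
The bootstrap at one scale, part (c): one step, the families, the iteration.
-/

namespace Pool.Agent.W_7d29a1_V.P20

open MeasureTheory ProbabilityTheory Filter Topology Pool.Agent.W_MP_7d29a1_pr
  Pool.Agent.W_7d29a1_h46 Pool.Agent.W_7d29a1_h46u Pool.Agent.W_7d29a1_D2
  Pool.Agent.W_7d29a1_V Pool.Agent.W_7d29a1_V.Ae7

variable {d : ℕ} {ρ : Measure ℝ} [IsProbabilityMeasure ρ]

/-- One step: from the moduli `M` of the tilts `g`, `g ± t e_j` to the modulus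
`((n G + M n) / t) ^ (1 / 2)`. -/
theorem stepF (hd : 0 < d) (hρ : EM ρ) {β R : ℝ} (hV : TubeV d ρ β R)
    {F F' : Set (Vec d × (ℕ → ℝ))} (hR : ∀ g M, (g, M) ∈ F → Reg M) (hF : FlS ρ β F) {x : ℝ}
    (hx : 0 < x) (hMx : ∀ g M, (g, M) ∈ F → ∀ n : ℕ, 1 ≤ n → (n : ℝ) ^ x ≤ M n) {v : Vec d}
    {c : ℝ} (hc : 1 ≤ c) (hF' : ∀ g M', (g, M') ∈ F' → ‖g‖ ≤ R ∧ (∀ n : ℕ, 1 ≤ n → 1 ≤ M' n) ∧
      ∃ (M : ℕ → ℝ) (t G : ℝ), 0 < t ∧ 0 ≤ G ∧ (g, M) ∈ F ∧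
        (∀ (j : Fin d) (b : Bool), (g + (if b then t else -t) • ej j, M) ∈ F) ∧
        (∀ j : Fin d, ∀ s : ℝ, |s| = t → lam ρ β (g + s • ej j) ≤ lam ρ β g + v j * s + G) ∧
        ∀ n : ℕ, 1 ≤ n → n * G + M n ≤ c * t * (M' n) ^ 2) : FlS ρ β F' := by
  intro e he q
  obtain ⟨Q, C₂, H₂⟩ := hV (e / 4) q (by linarith)
  obtain ⟨C₁, H₁⟩ := tubF hd hρ hR hF hx hMx (v := v) (show 0 < e / 2 by linarith) (Q + 1)
  obtain ⟨C₀, hC₀, H₀⟩ := momU (d := d) hd hρ β q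
  obtain ⟨N, hN⟩ := exists_nat_ge (max C₁ 1)
  have hNC : C₁ ≤ N := (le_max_left _ _).trans hN
  have hN1 : (1 : ℝ) ≤ N := (le_max_right _ _).trans hN
  have hN0 : (0 : ℝ) < N := by linarith
  have hsc : 1 ≤ Real.sqrt c := Real.one_le_sqrt.2 hc
  obtain ⟨C, hC⟩ : ∃ C : ℝ, C = C₀ * ((N : ℝ) ^ (1 / 2 : ℝ)) ^ q + (|C₂| * Real.sqrt c) ^ q +
      C₀ * Real.sqrt c ^ q := ⟨_, rfl⟩
  have hC2 : 0 ≤ (|C₂| * Real.sqrt c) ^ q := by positivity
  have hCN : 0 ≤ C₀ * ((N : ℝ) ^ (1 / 2 : ℝ)) ^ q := by positivity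
  have hCc : 0 ≤ C₀ * Real.sqrt c ^ q := by positivity
  refine ⟨C, fun g M' hg n hn => ?_⟩
  obtain ⟨hgR, hM1', M, t, G, ht, hG, hgM, hnb, hE, hMM⟩ := hF' g M' hg
  have hn1 : (1 : ℝ) ≤ n := by exact_mod_cast hn
  have hn0 : (0 : ℝ) < n := by linarith
  have hne : 1 ≤ (n : ℝ) ^ e := Real.one_le_rpow hn1 he.le
  obtain ⟨B, hB⟩ : ∃ B : ℝ, B = M' n := ⟨_, rfl⟩
  have hB1 : 1 ≤ B := by
    rw [hB]
    exact hM1' n hn
  have hB0 : 0 ≤ B := by linarith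
  rw [← hB]
  -- the crude bound
  have hcr : ∫ η, |X β g η n - A ρ β g n| ^ q ∂(law d ρ) ≤
      C₀ * ((n : ℝ) ^ (1 / 2 : ℝ)) ^ q := by
    refine ((H₀ g n hn).2).trans (le_of_eq ?_)
    rw [Real.rpow_mul hn0.le, Real.rpow_natCast]
  rcases le_or_gt n N with hnN | hnN
  · -- small `n`
    have h1 : (n : ℝ) ^ (1 / 2 : ℝ) ≤ (N : ℝ) ^ (1 / 2 : ℝ) :=
      Real.rpow_le_rpow hn0.le (by exact_mod_cast hnN) (by norm_num)
    have h2 : ((n : ℝ) ^ (1 / 2 : ℝ)) ^ q ≤ ((N : ℝ) ^ (1 / 2 : ℝ)) ^ q :=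
      pow_le_pow_left₀ (Real.rpow_nonneg hn0.le _) h1 q
    have h3 : 1 ≤ ((n : ℝ) ^ e * B) ^ q := one_le_pow₀ (by nlinarith)
    have h4 : C₀ * ((N : ℝ) ^ (1 / 2 : ℝ)) ^ q ≤ C := by
      rw [hC]
      linarith
    have h5 : 0 ≤ C := hCN.trans h4
    calc ∫ η, |X β g η n - A ρ β g n| ^ q ∂(law d ρ)
        ≤ C₀ * ((n : ℝ) ^ (1 / 2 : ℝ)) ^ q := hcr
      _ ≤ C₀ * ((N : ℝ) ^ (1 / 2 : ℝ)) ^ q := mul_le_mul_of_nonneg_left h2 hC₀
      _ ≤ C := h4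
      _ ≤ C * ((n : ℝ) ^ e * B) ^ q := le_mul_of_one_le_right h5 h3
  · obtain ⟨W, hW⟩ : ∃ W : ℝ, W = c * ((n : ℝ) ^ (e / 2) * B ^ 2) := ⟨_, rfl⟩
    have he2 : 1 ≤ (n : ℝ) ^ (e / 2) := Real.one_le_rpow hn1 (by linarith)
    have hBB : 1 ≤ B ^ 2 := one_le_pow₀ hB1
    have hW1 : 1 ≤ W := by
      rw [hW]
      have h1 : 1 ≤ (n : ℝ) ^ (e / 2) * B ^ 2 := by nlinarith
      nlinarith
    have hsq : Real.sqrt W = Real.sqrt c * ((n : ℝ) ^ (e / 4) * B) := by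
      have e1 : Real.sqrt ((n : ℝ) ^ (e / 2)) = (n : ℝ) ^ (e / 4) := by
        rw [Real.sqrt_eq_rpow, ← Real.rpow_mul hn0.le]
        congr 1
        ring
      rw [hW, Real.sqrt_mul (by linarith), Real.sqrt_mul (by linarith), e1, Real.sqrt_sq hB0]
    have hxe : (n : ℝ) ^ (e / 4) * B ≤ (n : ℝ) ^ e * B :=
      mul_le_mul_of_nonneg_right (Real.rpow_le_rpow_of_exponent_le hn1 (by linarith)) hB0
    rcases le_or_gt W n with hWn | hWn
    · have h0 : (n : ℝ) ^ (e / 2) * (n * G + M n) ≤ t * W := by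
        have h1 := mul_le_mul_of_nonneg_left (hMM n hn) (show 0 ≤ (n : ℝ) ^ (e / 2) by linarith)
        rw [← hB] at h1
        rw [hW]
        calc (n : ℝ) ^ (e / 2) * (n * G + M n) ≤ (n : ℝ) ^ (e / 2) * (c * t * B ^ 2) := h1
          _ = _ := by ring
      have h1 := H₁ g M t G ht hG hgM hnb hE n hn W h0
      have h2 : C₁ * (n : ℝ) ^ (-((Q + 1 : ℕ) : ℝ)) ≤ (n : ℝ) ^ (-(Q : ℝ)) := by
        have h3 : C₁ ≤ n := hNC.trans (by exact_mod_cast hnN.le)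
        have h4 : (n : ℝ) * (n : ℝ) ^ (-((Q + 1 : ℕ) : ℝ)) = (n : ℝ) ^ (-(Q : ℝ)) := by
          nth_rewrite 1 [← Real.rpow_one (n : ℝ)]
          rw [← Real.rpow_add hn0]
          congr 1
          push_cast
          ring
        rw [← h4]
        exact mul_le_mul_of_nonneg_right h3 (Real.rpow_nonneg hn0.le _)
      have h5 := H₂ g hgR v n hn W hW1 hWn (h1.trans h2)
      refine h5.trans ?_
      have hK : Real.sqrt W * (n : ℝ) ^ (e / 4) ≤ Real.sqrt c * ((n : ℝ) ^ e * B) := by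
        rw [hsq]
        have h7 : (n : ℝ) ^ (e / 4) * B * (n : ℝ) ^ (e / 4) ≤ (n : ℝ) ^ e * B := by
          calc (n : ℝ) ^ (e / 4) * B * (n : ℝ) ^ (e / 4)
              = ((n : ℝ) ^ (e / 4) * (n : ℝ) ^ (e / 4)) * B := by ring
            _ ≤ (n : ℝ) ^ e * B := by
                refine mul_le_mul_of_nonneg_right ?_ hB0
                rw [← Real.rpow_add hn0]
                exact Real.rpow_le_rpow_of_exponent_le hn1 (by linarith)
        have h8 := mul_le_mul_of_nonneg_left h7 (Real.sqrt_nonneg c)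
        calc Real.sqrt c * ((n : ℝ) ^ (e / 4) * B) * (n : ℝ) ^ (e / 4)
            = Real.sqrt c * ((n : ℝ) ^ (e / 4) * B * (n : ℝ) ^ (e / 4)) := by ring
          _ ≤ _ := h8
      have hnn : 0 ≤ Real.sqrt W * (n : ℝ) ^ (e / 4) :=
        mul_nonneg (Real.sqrt_nonneg _) (Real.rpow_nonneg hn0.le _)
      have h9 : |C₂ * Real.sqrt W * (n : ℝ) ^ (e / 4)| ≤
          |C₂| * Real.sqrt c * ((n : ℝ) ^ e * B) := by
        rw [mul_assoc, abs_mul, abs_of_nonneg hnn]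
        have := mul_le_mul_of_nonneg_left hK (abs_nonneg C₂)
        linarith
      have h8 : (C₂ * Real.sqrt W * (n : ℝ) ^ (e / 4)) ^ q ≤
          (|C₂| * Real.sqrt c * ((n : ℝ) ^ e * B)) ^ q := by
        refine (le_abs_self _).trans ?_
        rw [abs_pow]
        exact pow_le_pow_left₀ (abs_nonneg _) h9 q
      refine h8.trans ?_
      rw [mul_pow (|C₂| * Real.sqrt c)]
      refine mul_le_mul_of_nonneg_right ?_ (by positivity)
      rw [hC]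
      linarith
    · -- wide tube: the crude bound
      have h1 : (n : ℝ) ^ (1 / 2 : ℝ) ≤ Real.sqrt c * ((n : ℝ) ^ e * B) := by
        rw [← Real.sqrt_eq_rpow]
        refine (Real.sqrt_le_sqrt hWn.le).trans ?_
        rw [hsq]
        exact mul_le_mul_of_nonneg_left hxe (Real.sqrt_nonneg c)
      have h2 : ((n : ℝ) ^ (1 / 2 : ℝ)) ^ q ≤ (Real.sqrt c * ((n : ℝ) ^ e * B)) ^ q :=
        pow_le_pow_left₀ (Real.rpow_nonneg hn0.le _) h1 q
      have h3 : C₀ * Real.sqrt c ^ q ≤ C := by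
        rw [hC]
        linarith
      calc ∫ η, |X β g η n - A ρ β g n| ^ q ∂(law d ρ)
          ≤ C₀ * ((n : ℝ) ^ (1 / 2 : ℝ)) ^ q := hcr
        _ ≤ C₀ * (Real.sqrt c * ((n : ℝ) ^ e * B)) ^ q := mul_le_mul_of_nonneg_left h2 hC₀
        _ = C₀ * Real.sqrt c ^ q * ((n : ℝ) ^ e * B) ^ q := by
            rw [mul_pow]
            ring
        _ ≤ C * ((n : ℝ) ^ e * B) ^ q := mul_le_mul_of_nonneg_right h3 (by positivity)

/-! ### The families -/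

/-- The modulus at the scale `s` with the bound `G` of the increments. -/
noncomputable def md20 (x y s G : ℝ) (n : ℕ) : ℝ :=
  (n : ℝ) ^ x * s ^ (-y) + Real.sqrt (n * (G / s)) + 1 / s

lemma md20_reg {x y s G : ℝ} (hx : 0 ≤ x) (hx1 : x ≤ 1 / 2) (hs : 0 < s) (hs1 : s ≤ 1)
    (hG : 0 ≤ G) : Reg (md20 x y s G) := by
  have hsy : 0 < s ^ (-y) := Real.rpow_pos_of_pos hs _
  have hs2 : 1 ≤ 1 / s := by rwa [le_div_iff₀ hs, one_mul]
  have hGs : 0 ≤ G / s := div_nonneg hG hs.le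
  refine ⟨fun n hn => ?_, fun m n hmn => ?_, fun k n hn => ?_⟩
  · have h1 : 0 ≤ (n : ℝ) ^ x * s ^ (-y) := mul_nonneg (Real.rpow_nonneg (Nat.cast_nonneg n) _) hsy.le
    have h2 := Real.sqrt_nonneg ((n : ℝ) * (G / s))
    unfold md20
    linarith
  · have hmn' : (m : ℝ) ≤ n := by exact_mod_cast hmn
    have h1 := mul_le_mul_of_nonneg_right (Real.rpow_le_rpow (Nat.cast_nonneg m) hmn' hx) hsy.le
    have h2 := Real.sqrt_le_sqrt (mul_le_mul_of_nonneg_right hmn' hGs)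
    unfold md20
    linarith
  · have hn0 : (0 : ℝ) < n := by exact_mod_cast hn
    have e0 : ((2 : ℝ) ^ (1 / 2 : ℝ)) ^ k = Real.sqrt ((2 : ℝ) ^ k) := by
      rw [Real.sqrt_eq_rpow, ← Real.rpow_natCast, ← Real.rpow_natCast,
        ← Real.rpow_mul (by norm_num), ← Real.rpow_mul (by norm_num), mul_comm]
    have h2k : (1 : ℝ) ≤ (2 : ℝ) ^ k := one_le_pow₀ (by norm_num)
    unfold md20
    rw [mul_add, mul_add]
    refine add_le_add (add_le_add ?_ (le_of_eq ?_)) ?_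
    · push_cast
      rw [Real.mul_rpow (by positivity) hn0.le, mul_assoc]
      refine mul_le_mul_of_nonneg_right ?_ (mul_nonneg (Real.rpow_nonneg hn0.le _) hsy.le)
      rw [e0, Real.sqrt_eq_rpow]
      exact Real.rpow_le_rpow_of_exponent_le h2k hx1
    · push_cast
      rw [e0, ← Real.sqrt_mul (by positivity)]
      congr 1
      ring
    · refine le_mul_of_one_le_left (by linarith) ?_
      rw [e0]
      exact Real.one_le_sqrt.2 h2k

lemma md20_ge {x y s G : ℝ} (hy : 0 ≤ y) (hs : 0 < s) (hs1 : s ≤ 1) (n : ℕ) :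
    (n : ℝ) ^ x ≤ md20 x y s G n := by
  have h1 : 1 ≤ s ^ (-y) := Real.one_le_rpow_of_pos_of_le_one_of_nonpos hs hs1 (by linarith)
  have h2 : (n : ℝ) ^ x ≤ (n : ℝ) ^ x * s ^ (-y) :=
    le_mul_of_one_le_right (Real.rpow_nonneg (Nat.cast_nonneg n) _) h1
  have h3 := Real.sqrt_nonneg ((n : ℝ) * (G / s))
  have h4 : 0 < 1 / s := by positivity
  unfold md20
  linarith

/-- The inequality of the step. -/
lemma md20_step {x y s G : ℝ} (hs : 0 < s) (hG : 0 ≤ G) (n : ℕ) :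
    n * G + md20 x y s G n ≤ s * (md20 (x / 2) ((1 + y) / 2) s G n) ^ 2 := by
  have hn0 : (0 : ℝ) ≤ n := Nat.cast_nonneg n
  obtain ⟨a, ha⟩ : ∃ a : ℝ, a = (n : ℝ) ^ (x / 2) * s ^ (-((1 + y) / 2)) := ⟨_, rfl⟩
  obtain ⟨b, hb⟩ : ∃ b : ℝ, b = Real.sqrt (n * (G / s)) := ⟨_, rfl⟩
  have ha0 : 0 ≤ a := by
    rw [ha]
    exact mul_nonneg (Real.rpow_nonneg hn0 _) (Real.rpow_nonneg hs.le _)
  have hb0 : 0 ≤ b := by
    rw [hb]
    exact Real.sqrt_nonneg _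
  have haa : s * a ^ 2 = (n : ℝ) ^ x * s ^ (-y) := by
    rw [ha, mul_pow, ← Real.rpow_natCast, ← Real.rpow_natCast, ← Real.rpow_mul hn0,
      ← Real.rpow_mul hs.le]
    have e1 : x / 2 * ((2 : ℕ) : ℝ) = x := by
      push_cast
      ring
    have e2 : s * s ^ (-((1 + y) / 2) * ((2 : ℕ) : ℝ)) = s ^ (-y) := by
      have e3 : s ^ (1 + -((1 + y) / 2) * ((2 : ℕ) : ℝ)) =
          s ^ (1 : ℝ) * s ^ (-((1 + y) / 2) * ((2 : ℕ) : ℝ)) := Real.rpow_add hs _ _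
      rw [Real.rpow_one] at e3
      rw [← e3]
      congr 1
      push_cast
      ring
    rw [e1]
    calc s * ((n : ℝ) ^ x * s ^ (-((1 + y) / 2) * ((2 : ℕ) : ℝ)))
        = (n : ℝ) ^ x * (s * s ^ (-((1 + y) / 2) * ((2 : ℕ) : ℝ))) := by ring
      _ = _ := by rw [e2]
  have hbb : s * b ^ 2 = n * G := by
    rw [hb, Real.sq_sqrt (mul_nonneg hn0 (div_nonneg hG hs.le))]
    field_simp
  have hmd : md20 (x / 2) ((1 + y) / 2) s G n = a + b + 1 / s := by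
    rw [ha, hb]
    rfl
  have hmd' : md20 x y s G n = s * a ^ 2 + b + 1 / s := by
    rw [haa, hb]
    rfl
  rw [hmd, hmd']
  have h1 : s * (a + b + 1 / s) ^ 2 = s * a ^ 2 + s * b ^ 2 + 1 / s + 2 * s * a * b + 2 * a +
      2 * b := by
    field_simp
    ring
  rw [h1, hbb]
  have h2 : 0 ≤ 2 * s * a * b := by positivity
  linarith

/-- The tilts at distance at most `s / 2 ^ k` from `h`, with the modulus after `k` steps. -/
def Fam {d : ℕ} (ρ : Measure ℝ) (β : ℝ) (h v : Vec d) (k : ℕ) : Set (Vec d × (ℕ → ℝ)) :=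
  {p | ∃ s G : ℝ, 0 < s ∧ s ≤ 1 ∧ 0 ≤ G ∧ (∀ r : Vec d, ‖r‖ ≤ s → gap (lam ρ β) h v r ≤ G) ∧
    ‖p.1 - h‖ ≤ s / 2 ^ k ∧ p.2 = md20 ((1 / 2) ^ (k + 1)) (1 - (1 / 2) ^ k) s G}

lemma xk_pos (k : ℕ) : (0 : ℝ) < (1 / 2) ^ (k + 1) := by positivity

lemma xk_le (k : ℕ) : ((1 : ℝ) / 2) ^ (k + 1) ≤ 1 / 2 := by
  rw [pow_succ]
  have : ((1 : ℝ) / 2) ^ k ≤ 1 := pow_le_one₀ (by norm_num) (by norm_num)
  linarith

lemma yk_nonneg (k : ℕ) : (0 : ℝ) ≤ 1 - (1 / 2) ^ k := by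
  have : ((1 : ℝ) / 2) ^ k ≤ 1 := pow_le_one₀ (by norm_num) (by norm_num)
  linarith

lemma fam_reg {β : ℝ} {h v : Vec d} {k : ℕ} (g : Vec d) (M : ℕ → ℝ)
    (hg : (g, M) ∈ Fam ρ β h v k) : Reg M := by
  obtain ⟨s, G, hs, hs1, hG, -, -, hM⟩ := hg
  have hM' : M = md20 ((1 / 2) ^ (k + 1)) (1 - (1 / 2) ^ k) s G := hM
  rw [hM']
  exact md20_reg (xk_pos k).le (xk_le k) hs hs1 hG

lemma fam_ge {β : ℝ} {h v : Vec d} {k : ℕ} (g : Vec d) (M : ℕ → ℝ)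
    (hg : (g, M) ∈ Fam ρ β h v k) (n : ℕ) (_ : 1 ≤ n) : (n : ℝ) ^ (((1 : ℝ) / 2) ^ (k + 1)) ≤ M n := by
  obtain ⟨s, G, hs, hs1, hG, -, -, hM⟩ := hg
  have hM' : M = md20 ((1 / 2) ^ (k + 1)) (1 - (1 / 2) ^ k) s G := hM
  rw [hM']
  exact md20_ge (yk_nonneg k) hs hs1 n

lemma norm_ej (j : Fin d) : ‖ej j‖ = 1 := by
  unfold ej
  simp

/-- The neighbours of the tilts. -/
lemma fam_nb {β : ℝ} {h v : Vec d} {k : ℕ} {s G : ℝ} (hs : 0 < s) (hs1 : s ≤ 1) (hG : 0 ≤ G)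
    (hgap : ∀ r : Vec d, ‖r‖ ≤ s → gap (lam ρ β) h v r ≤ G) {g : Vec d}
    (hg : ‖g - h‖ ≤ s / 2 ^ (k + 1)) {r : Vec d} (hr : ‖r‖ ≤ s / 2 ^ (k + 1)) :
    (g + r, md20 ((1 / 2) ^ (k + 1)) (1 - (1 / 2) ^ k) s G) ∈ Fam ρ β h v k := by
  refine ⟨s, G, hs, hs1, hG, hgap, ?_, rfl⟩
  have e1 : g + r - h = (g - h) + r := by abel
  have e2 : s / 2 ^ (k + 1) + s / 2 ^ (k + 1) = s / 2 ^ k := by
    rw [pow_succ]
    field_simp
    ring
  change ‖g + r - h‖ ≤ s / 2 ^ k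
  rw [e1, ← e2]
  exact (norm_add_le _ _).trans (add_le_add hg hr)

/-- The upper bound of `lam` at the neighbours. -/
lemma fam_up {β : ℝ} {h v : Vec d} {s G : ℝ}
    (hv : ∀ k : Vec d, lam ρ β h + inner ℝ v k ≤ lam ρ β (h + k))
    (hgap : ∀ r : Vec d, ‖r‖ ≤ s → gap (lam ρ β) h v r ≤ G) {g : Vec d} {t : ℝ}
    (hg : ‖g - h‖ + t ≤ s) (j : Fin d) (a : ℝ) (ha : |a| = t) :
    lam ρ β (g + a • ej j) ≤ lam ρ β g + v j * a + G := by
  have e1 : ‖(g - h) + a • ej j‖ ≤ s := by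
    refine (norm_add_le _ _).trans ?_
    rw [norm_smul, norm_ej, mul_one, Real.norm_eq_abs, ha]
    exact hg
  have e2 := hgap ((g - h) + a • ej j) e1
  have e4 : gap (lam ρ β) h v ((g - h) + a • ej j) =
      lam ρ β (g + a • ej j) - lam ρ β h - (inner ℝ v (g - h) + v j * a) := by
    unfold gap
    have f1 : h + ((g - h) + a • ej j) = g + a • ej j := by abel
    have f2 : inner ℝ v ((g - h) + a • ej j) = inner ℝ v (g - h) + v j * a := by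
      rw [inner_add_right, real_inner_smul_right]
      unfold ej
      rw [EuclideanSpace.inner_single_right]
      simp
      ring
    rw [f1, f2]
  have e5 := hv (g - h)
  have e6 : h + (g - h) = g := by abel
  rw [e6] at e5
  rw [e4] at e2
  linarith

/-- **The iteration.** -/
theorem flS_fam (hd : 0 < d) (hρ : EM ρ) {β : ℝ} {h v : Vec d}
    (hV : TubeV d ρ β (‖h‖ + 1))
    (hv : ∀ k : Vec d, lam ρ β h + inner ℝ v k ≤ lam ρ β (h + k)) (k : ℕ) :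
    FlS ρ β (Fam ρ β h v k) := by
  induction k with
  | zero =>
    intro e he q
    obtain ⟨C, hC, H⟩ := momU (d := d) hd hρ β q
    refine ⟨C, fun g M hg n hn => ((H g n hn).2).trans ?_⟩
    have hn1 : (1 : ℝ) ≤ n := by exact_mod_cast hn
    have hn0 : (0 : ℝ) < n := by linarith
    refine mul_le_mul_of_nonneg_left ?_ hC
    rw [Real.rpow_mul hn0.le, Real.rpow_natCast]
    refine pow_le_pow_left₀ (Real.rpow_nonneg hn0.le _) ?_ q
    have h1 := fam_ge g M hg n hn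
    have h2 : ((1 : ℝ) / 2) ^ (0 + 1) = 1 / 2 := by norm_num
    rw [h2] at h1
    have h3 : 1 ≤ (n : ℝ) ^ e := Real.one_le_rpow hn1 he.le
    have h4 : 0 ≤ M n := (Real.rpow_nonneg hn0.le _).trans h1
    nlinarith
  | succ k ih =>
    refine stepF hd hρ hV (F := Fam ρ β h v k) (fun g M hg => fam_reg g M hg) ih (xk_pos k)
      (fun g M hg n hn => fam_ge g M hg n hn) (v := v) (c := 2 ^ (k + 1))
      (one_le_pow₀ (by norm_num)) fun g M' hg => ?_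
    have hreg := fam_reg g M' hg
    obtain ⟨s, G, hs, hs1, hG, hgap, hgh, hM⟩ := hg
    have hM' : M' = md20 ((1 / 2) ^ (k + 1 + 1)) (1 - (1 / 2) ^ (k + 1)) s G := hM
    have hgh' : ‖g - h‖ ≤ s / 2 ^ (k + 1) := hgh
    have h2k : (1 : ℝ) ≤ 2 ^ (k + 1) := one_le_pow₀ (by norm_num)
    have h2k2 : (2 : ℝ) ≤ 2 ^ (k + 1) := by
      rw [pow_succ]
      have : (1 : ℝ) ≤ 2 ^ k := one_le_pow₀ (by norm_num)
      linarith
    have hts : s / 2 ^ (k + 1) ≤ s / 2 := div_le_div_of_nonneg_left hs.le two_pos h2k2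
    have ht : 0 < s / 2 ^ (k + 1) := by positivity
    refine ⟨?_, hreg.one, md20 ((1 / 2) ^ (k + 1)) (1 - (1 / 2) ^ k) s G, s / 2 ^ (k + 1), G, ht,
      hG, ?_, fun j b => ?_, fun j a ha => ?_, fun n hn => ?_⟩
    · have h1 : ‖g‖ ≤ ‖g - h‖ + ‖h‖ := by
        have := norm_add_le (g - h) h
        rwa [sub_add_cancel] at this
      linarith
    · have h1 := fam_nb (ρ := ρ) (β := β) (v := v) (k := k) hs hs1 hG hgap hgh' (r := 0)
        (by rw [norm_zero]; exact ht.le)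
      rwa [add_zero] at h1
    · refine fam_nb hs hs1 hG hgap hgh' ?_
      rw [norm_smul, norm_ej, mul_one, Real.norm_eq_abs]
      split_ifs
      · rw [abs_of_pos ht]
      · rw [abs_neg, abs_of_pos ht]
    · exact fam_up hv hgap (by linarith) j a ha
    · have h1 := md20_step (x := (1 / 2) ^ (k + 1)) (y := 1 - (1 / 2) ^ k) hs hG n
      have e1 : ((1 : ℝ) / 2) ^ (k + 1) / 2 = (1 / 2) ^ (k + 1 + 1) := by
        rw [pow_succ ((1 : ℝ) / 2) (k + 1)]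
        ring
      have e2 : (1 + (1 - ((1 : ℝ) / 2) ^ k)) / 2 = 1 - (1 / 2) ^ (k + 1) := by
        rw [pow_succ]
        ring
      rw [e1, e2, ← hM'] at h1
      have e3 : (2 : ℝ) ^ (k + 1) * (s / 2 ^ (k + 1)) = s := by
        field_simp
      rw [e3]
      exact h1

/-- **The tubes at the tilt `h` after `k` steps**, with constants independent of the scale. -/
theorem tub_fam (hd : 0 < d) (hρ : EM ρ) {β : ℝ} {h v : Vec d}
    (hV : TubeV d ρ β (‖h‖ + 1))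
    (hv : ∀ k : Vec d, lam ρ β h + inner ℝ v k ≤ lam ρ β (h + k)) (k : ℕ) {e : ℝ} (he : 0 < e)
    (Q : ℕ) : ∃ C : ℝ, ∀ s G : ℝ, 0 < s → s ≤ 1 → 0 ≤ G →
      (∀ r : Vec d, ‖r‖ ≤ s → gap (lam ρ β) h v r ≤ G) → ∀ n : ℕ, 1 ≤ n → ∀ W : ℝ,
        (n : ℝ) ^ e * (n * G + md20 ((1 / 2) ^ (k + 1)) (1 - (1 / 2) ^ k) s G n) ≤
          s / 2 ^ (k + 1) * W →
        ∫ η, (1 - PolT β h η (tube d n v W)) ∂(law d ρ) ≤ C * (n : ℝ) ^ (-(Q : ℝ)) := by
  obtain ⟨C, H⟩ := tubF hd hρ (fun g M hg => fam_reg g M hg) (flS_fam hd hρ hV hv k) (xk_pos k)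
    (fun g M hg n hn => fam_ge g M hg n hn) (v := v) he Q
  refine ⟨C, fun s G hs hs1 hG hgap n hn W hW => ?_⟩
  have h2k2 : (2 : ℝ) ≤ 2 ^ (k + 1) := by
    rw [pow_succ]
    have : (1 : ℝ) ≤ 2 ^ k := one_le_pow₀ (by norm_num)
    linarith
  have ht : 0 < s / 2 ^ (k + 1) := by positivity
  have hts : s / 2 ^ (k + 1) ≤ s / 2 := div_le_div_of_nonneg_left hs.le two_pos h2k2
  have hh : ‖h - h‖ ≤ s / 2 ^ (k + 1) := by
    rw [sub_self, norm_zero]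
    exact ht.le
  refine H h _ (s / 2 ^ (k + 1)) G ht hG ?_ (fun j b => ?_) (fun j a ha => ?_) n hn W hW
  · have h1 := fam_nb (ρ := ρ) (β := β) (v := v) (k := k) hs hs1 hG hgap hh (r := 0)
      (by rw [norm_zero]; exact ht.le)
    rwa [add_zero] at h1
  · refine fam_nb hs hs1 hG hgap hh ?_
    rw [norm_smul, norm_ej, mul_one, Real.norm_eq_abs]
    split_ifs
    · rw [abs_of_pos ht]
    · rw [abs_neg, abs_of_pos ht]
  · refine fam_up hv hgap ?_ j a ha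
    rw [sub_self, norm_zero]
    linarith

end Pool.Agent.W_7d29a1_V.P20
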