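import Pool.Agent.W_7d29a1_V.P20c
import Pool.Agent.W_7d29a1_V.NuLow34
import Pool.Agent.W_7d29a1_V.Tube67

/-!
The growth of the free energy at every tilt and every small scale: some increment at distance at
most `s` is at least `s ^ (2 d + 1 + ε)`.
-/

namespace Pool.Agent.W_7d29a1_V.P20

open MeasureTheory ProbabilityTheory Filter Topology Pool.Agent.W_MP_7d29a1_pr
  Pool.Agent.W_7d29a1_h46 Pool.Agent.W_7d29a1_h46u Pool.Agent.W_7d29a1_D2
  Pool.Agent.W_7d29a1_V Pool.Agent.W_7d29a1_V.Ae7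

variable {d : ℕ} {ρ : Measure ℝ} [IsProbabilityMeasure ρ]

/-- **One scale**: a typical tube of length `n` has radius at least about `n ^ (1 / (d + 1))`. -/
theorem low20 (hd : 0 < d) (hnc : ∀ c : ℝ, ρ {c} ≠ 1) (hρ : EM ρ) {β : ℝ} (hβ : 0 < β) {h : Vec d}
    (hS : SpaceV d ρ β ‖h‖) {e : ℝ} (he : 0 < e) : ∃ δ : ℝ, 0 < δ ∧ ∃ c : ℝ, 0 < c ∧
      ∀ (v : Vec d) (n : ℕ), 1 ≤ n → ∀ W : ℝ, 1 ≤ W → W ≤ n →
        ∫ η, (1 - PolT β h η (tube d n v W)) ∂(law d ρ) ≤ δ →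
          c * (n : ℝ) ^ (1 - e) ≤ W ^ (d + 1) := by
  obtain ⟨ε₀, hε₀, c, hc, hf⟩ := fluct ρ hnc β hβ (hρ β)
  have hf' : FluctAt ρ β ε₀ c := hf
  obtain ⟨κ, hκ⟩ : ∃ κ : ℝ, κ = min (ε₀ / 3) (1 / 2) := ⟨_, rfl⟩
  have hκ0 : 0 < κ := by
    rw [hκ]
    exact lt_min (by positivity) (by norm_num)
  have hκ1 : κ ≤ 1 / 2 := by
    rw [hκ]
    exact min_le_right _ _
  have hκ2 : 3 * κ ≤ ε₀ := by
    have h1 : κ ≤ ε₀ / 3 := by
      rw [hκ]
      exact min_le_left _ _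
    linarith
  obtain ⟨C, hC⟩ := hS e he 1
  obtain ⟨C', hC'⟩ : ∃ C' : ℝ, C' = max C 1 := ⟨_, rfl⟩
  have hC'1 : 1 ≤ C' := by
    rw [hC']
    exact le_max_right _ _
  have hC'C : C ≤ C' := by
    rw [hC']
    exact le_max_left _ _
  obtain ⟨K, hK⟩ : ∃ K : ℝ, K = Real.sqrt (3 * C' / κ) + 1 := ⟨_, rfl⟩
  have hK0 : 0 < K := by
    rw [hK]
    have := Real.sqrt_nonneg (3 * C' / κ)
    linarith
  refine ⟨κ ^ 2, by positivity, c ^ 2 / (4 * K ^ 2 * 3 ^ d), by positivity,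
    fun v n hn W hW1 hWn hT => ?_⟩
  have hn1 : (1 : ℝ) ≤ n := by exact_mod_cast hn
  have hn0 : (0 : ℝ) < n := by linarith
  have hW0 : 0 < W := by linarith
  obtain ⟨x, hx⟩ : ∃ x : ℕ, x = ⌊W⌋₊ + 1 := ⟨_, rfl⟩
  have hxW : W < x := by
    rw [hx]
    exact_mod_cast Nat.lt_floor_add_one W
  have hxW2 : (x : ℝ) ≤ W + 1 := by
    rw [hx]
    push_cast
    linarith [Nat.floor_le hW0.le]
  have hx5 : x ≤ 5 * n := by
    have h1 : (x : ℝ) ≤ ((5 * n : ℕ) : ℝ) := by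
      push_cast
      linarith
    exact_mod_cast h1
  have hne0 : 0 < (n : ℝ) ^ e := Real.rpow_pos_of_pos hn0 _
  have hne1 : 1 ≤ (n : ℝ) ^ e := Real.one_le_rpow hn1 he.le
  have hx0 : (0 : ℝ) < (x : ℝ) + 1 := by positivity
  obtain ⟨s, hs⟩ : ∃ s : ℝ, s = Real.sqrt (C' * ((x : ℝ) + 1) * (n : ℝ) ^ e / κ) := ⟨_, rfl⟩
  have hs2 : s ^ 2 = C' * ((x : ℝ) + 1) * (n : ℝ) ^ e / κ := by
    rw [hs]
    exact Real.sq_sqrt (by positivity)
  have hs0 : 0 < s := by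
    rw [hs]
    exact Real.sqrt_pos.2 (by positivity)
  -- Chebyshev
  have hQ : (law d ρ).real {η | s < |Us β h n ⟨0, hd⟩ x η - Us β h n ⟨0, hd⟩ 0 η|} ≤ κ := by
    refine (NuLow34.us_cheb hd hρ β h hn ⟨0, hd⟩ x hs0).trans ?_
    have h1 := hC h le_rfl n hn ⟨0, hd⟩ x hx5
    rw [pow_one] at h1
    rw [hs2, div_le_iff₀ (by positivity)]
    have h2 : κ * (C' * ((x : ℝ) + 1) * (n : ℝ) ^ e / κ) = C' * ((x : ℝ) + 1) * (n : ℝ) ^ e := by
      field_simp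
    rw [h2]
    refine h1.trans ?_
    have h3 : 0 ≤ ((x : ℝ) + 1) * (n : ℝ) ^ e := by positivity
    nlinarith
  -- Markov
  have hPm : Measurable fun η : Env d => PolT β h η (tube d n v W) := measurable_PolT β h _
  have hPi : Integrable (fun η : Env d => 1 - PolT β h η (tube d n v W)) (law d ρ) := by
    refine Integrable.of_bound (measurable_const.sub hPm).aestronglyMeasurable 1
      (Eventually.of_forall fun η => ?_)
    rw [Real.norm_eq_abs, abs_le]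
    have h1 := PolT_nonneg β h η (tube d n v W)
    have h2 := PolT_le_one β h η (tube d n v W)
    constructor <;> linarith
  have hP : (law d ρ).real {η | ¬ (1 - κ ≤ PolT β h η (tube d n v W))} ≤ κ := by
    have h1 := mul_meas_ge_le_integral_of_nonneg (μ := law d ρ)
      (f := fun η => 1 - PolT β h η (tube d n v W))
      (Eventually.of_forall fun η => by
        have := PolT_le_one β h η (tube d n v W)
        simp only [Pi.zero_apply]
        linarith) hPi κ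
    have h2 : (law d ρ).real {η | ¬ (1 - κ ≤ PolT β h η (tube d n v W))} ≤
        (law d ρ).real {η | κ ≤ 1 - PolT β h η (tube d n v W)} := by
      refine measureReal_mono fun η hη => ?_
      have hη' : ¬ (1 - κ ≤ PolT β h η (tube d n v W)) := hη
      rw [not_le] at hη'
      show κ ≤ 1 - PolT β h η (tube d n v W)
      linarith
    have h3 : κ * (law d ρ).real {η | ¬ (1 - κ ≤ PolT β h η (tube d n v W))} ≤ κ * κ := by
      have h4 := (mul_le_mul_of_nonneg_left h2 hκ0.le).trans (h1.trans hT)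
      rwa [sq] at h4
    exact le_of_mul_le_mul_left h3 hκ0
  have key := NuLow34.core34 hd hf' hW0 hκ1 hκ2 h v ⟨0, hd⟩ hxW hP hQ
  -- the numbers
  have hWn0 : 0 < W * (n : ℝ) ^ e := by positivity
  have hWn1 : 1 ≤ W * (n : ℝ) ^ e := by nlinarith
  have h1 : s + Real.log 2 ≤ K * Real.sqrt (W * (n : ℝ) ^ e) := by
    have a1 : s ≤ Real.sqrt (3 * C' / κ) * Real.sqrt (W * (n : ℝ) ^ e) := by
      rw [hs, ← Real.sqrt_mul (by positivity)]
      refine Real.sqrt_le_sqrt ?_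
      have a2 : C' * ((x : ℝ) + 1) * (n : ℝ) ^ e ≤ C' * (3 * W) * (n : ℝ) ^ e :=
        mul_le_mul_of_nonneg_right (mul_le_mul_of_nonneg_left (by linarith) (by linarith))
          hne0.le
      calc C' * ((x : ℝ) + 1) * (n : ℝ) ^ e / κ ≤ C' * (3 * W) * (n : ℝ) ^ e / κ :=
            div_le_div_of_nonneg_right a2 hκ0.le
        _ = 3 * C' / κ * (W * (n : ℝ) ^ e) := by ring
    have a3 : Real.log 2 ≤ Real.sqrt (W * (n : ℝ) ^ e) := by
      have a4 : Real.log 2 ≤ 1 := by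
        have := Real.log_two_lt_d9
        linarith
      exact a4.trans (Real.one_le_sqrt.2 hWn1)
    rw [hK]
    linarith
  have h2 : Real.sqrt (n * (2 * W + 1) ^ d) ≤ Real.sqrt (n * (3 ^ d * W ^ d)) := by
    refine Real.sqrt_le_sqrt (mul_le_mul_of_nonneg_left ?_ hn0.le)
    rw [← mul_pow]
    exact pow_le_pow_left₀ (by positivity) (by linarith) d
  have h3 : c * n ≤ 2 * (K * Real.sqrt (W * (n : ℝ) ^ e)) * Real.sqrt (n * (3 ^ d * W ^ d)) := by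
    refine key.trans ?_
    refine mul_le_mul (by linarith) h2 (Real.sqrt_nonneg _) (by positivity)
  have h4 : (c * n) ^ 2 ≤ 4 * K ^ 2 * (W * (n : ℝ) ^ e) * (n * (3 ^ d * W ^ d)) := by
    have a1 := pow_le_pow_left₀ (by positivity) h3 2
    refine a1.trans (le_of_eq ?_)
    have a2 := Real.sq_sqrt hWn0.le
    have a3 := Real.sq_sqrt (show 0 ≤ (n : ℝ) * (3 ^ d * W ^ d) by positivity)
    calc (2 * (K * Real.sqrt (W * (n : ℝ) ^ e)) * Real.sqrt (n * (3 ^ d * W ^ d))) ^ 2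
        = 4 * K ^ 2 * (Real.sqrt (W * (n : ℝ) ^ e)) ^ 2 *
            (Real.sqrt (n * (3 ^ d * W ^ d))) ^ 2 := by ring
      _ = _ := by rw [a2, a3]
  have h5 : (n : ℝ) ^ (1 - e) * (n : ℝ) ^ e = n := by
    rw [← Real.rpow_add hn0]
    simp
  have h6 : c ^ 2 * (n : ℝ) ^ (1 - e) ≤ 4 * K ^ 2 * 3 ^ d * W ^ (d + 1) := by
    have a1 : 0 < (n : ℝ) ^ e * n := by positivity
    have a2 : (c ^ 2 * (n : ℝ) ^ (1 - e)) * ((n : ℝ) ^ e * n) ≤
        (4 * K ^ 2 * 3 ^ d * W ^ (d + 1)) * ((n : ℝ) ^ e * n) := by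
      calc (c ^ 2 * (n : ℝ) ^ (1 - e)) * ((n : ℝ) ^ e * n)
          = c ^ 2 * ((n : ℝ) ^ (1 - e) * (n : ℝ) ^ e) * n := by ring
        _ = (c * n) ^ 2 := by
            rw [h5]
            ring
        _ ≤ 4 * K ^ 2 * (W * (n : ℝ) ^ e) * (n * (3 ^ d * W ^ d)) := h4
        _ = _ := by
            rw [pow_succ]
            ring
    exact le_of_mul_le_mul_right a2 a1
  rw [div_mul_eq_mul_div, div_le_iff₀ (by positivity)]
  linarith

/-- The real inequalities at the scale `s = 1 / u`. -/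
lemma num20 {θ a p u : ℝ} (hθ : 0 < θ) (ha : 0 < a) (ha1 : a ≤ 1) (hp : θ ≤ p + 1) (hu : 1 ≤ u)
    {n : ℕ} (hn : u ^ θ ≤ n) (hn2 : (n : ℝ) ≤ 2 * u ^ θ) {x y : ℝ} (hx : 0 < x) (hxa : x ≤ a)
    (hy1 : y ≤ 1) :
    (n : ℝ) ^ a * (n * (1 / u) ^ p + md20 x y (1 / u) ((1 / u) ^ p) n) ≤
      1 / u * (14 * u ^ (2 + 2 * (θ * a))) := by
  have hu0 : 0 < u := by linarith
  have hn0 : (0 : ℝ) < n := lt_of_lt_of_le (Real.rpow_pos_of_pos hu0 _) hn
  have hG : (1 / u) ^ p = u ^ (-p) := by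
    rw [one_div, Real.inv_rpow hu0.le, Real.rpow_neg hu0.le]
  have hsy : (1 / u) ^ (-y) = u ^ y := by
    rw [one_div, Real.inv_rpow hu0.le, Real.rpow_neg hu0.le, inv_inv]
  have pw : ∀ z : ℝ, 0 < z → z ≤ a → (n : ℝ) ^ z ≤ 2 * u ^ (θ * a) := by
    intro z hz hza
    have h1 : (n : ℝ) ^ z ≤ (2 * u ^ θ) ^ z := Real.rpow_le_rpow hn0.le hn2 hz.le
    have h2 : (2 * u ^ θ) ^ z = (2 : ℝ) ^ z * u ^ (θ * z) := by
      rw [Real.mul_rpow (by norm_num) (Real.rpow_nonneg hu0.le _), ← Real.rpow_mul hu0.le]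
    have h3 : (2 : ℝ) ^ z ≤ 2 := by
      calc (2 : ℝ) ^ z ≤ (2 : ℝ) ^ (1 : ℝ) :=
            Real.rpow_le_rpow_of_exponent_le (by norm_num) (by linarith)
        _ = 2 := Real.rpow_one 2
    have h4 : u ^ (θ * z) ≤ u ^ (θ * a) :=
      Real.rpow_le_rpow_of_exponent_le hu (mul_le_mul_of_nonneg_left hza hθ.le)
    rw [h2] at h1
    exact h1.trans (mul_le_mul h3 h4 (Real.rpow_nonneg hu0.le _) (by norm_num))
  have hA0 : 1 ≤ u ^ (θ * a) := Real.one_le_rpow hu (by positivity)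
  -- the term `n G`
  have t1 : n * u ^ (-p) ≤ 2 * u := by
    have h1 : (n : ℝ) * u ^ (-p) ≤ 2 * u ^ θ * u ^ (-p) :=
      mul_le_mul_of_nonneg_right hn2 (Real.rpow_nonneg hu0.le _)
    have h2 : u ^ θ * u ^ (-p) ≤ u := by
      rw [← Real.rpow_add hu0]
      calc u ^ (θ + -p) ≤ u ^ (1 : ℝ) := Real.rpow_le_rpow_of_exponent_le hu (by linarith)
        _ = u := Real.rpow_one u
    nlinarith
  have t2 : Real.sqrt (n * (u ^ (-p) / (1 / u))) ≤ 2 * u := by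
    have h1 : (n : ℝ) * (u ^ (-p) / (1 / u)) ≤ (2 * u) ^ 2 := by
      have h2 : (n : ℝ) * (u ^ (-p) / (1 / u)) = n * u ^ (-p) * u := by
        field_simp
      rw [h2]
      nlinarith
    calc Real.sqrt (n * (u ^ (-p) / (1 / u))) ≤ Real.sqrt ((2 * u) ^ 2) := Real.sqrt_le_sqrt h1
      _ = 2 * u := Real.sqrt_sq (by positivity)
  have t3 : (n : ℝ) ^ x * u ^ y ≤ 2 * u ^ (θ * a) * u := by
    have h1 : u ^ y ≤ u := by
      calc u ^ y ≤ u ^ (1 : ℝ) := Real.rpow_le_rpow_of_exponent_le hu hy1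
        _ = u := Real.rpow_one u
    exact mul_le_mul (pw x hx hxa) h1 (Real.rpow_nonneg hu0.le _) (by positivity)
  have t4 : n * (1 / u) ^ p + md20 x y (1 / u) ((1 / u) ^ p) n ≤ 7 * (u ^ (θ * a) * u) := by
    unfold md20
    rw [hG, hsy, one_div_one_div]
    have h1 : u ≤ u ^ (θ * a) * u := le_mul_of_one_le_left hu0.le hA0
    linarith
  have t5 : 0 ≤ n * (1 / u) ^ p + md20 x y (1 / u) ((1 / u) ^ p) n := by
    have h1 : 0 ≤ (1 / u) ^ p := Real.rpow_nonneg (by positivity) _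
    have h2 : 0 ≤ md20 x y (1 / u) ((1 / u) ^ p) n := by
      unfold md20
      have := Real.sqrt_nonneg ((n : ℝ) * ((1 / u) ^ p / (1 / u)))
      positivity
    positivity
  have t6 := mul_le_mul (pw a ha le_rfl) t4 t5 (by positivity)
  refine t6.trans (le_of_eq ?_)
  have h1 : u ^ (2 + 2 * (θ * a)) = u ^ 2 * (u ^ (θ * a) * u ^ (θ * a)) := by
    rw [Real.rpow_add hu0, two_mul, Real.rpow_add hu0]
    norm_num
  rw [h1]
  field_simp
  ring

/-- **THEOREM P.** At every tilt, for every subgradient and at every small scale `s`, some increment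
of the free energy at distance at most `s` is at least `s ^ (2 d + 1 + ε)`. -/
theorem one_scale20 (hd : 0 < d) (hnc : ∀ c : ℝ, ρ {c} ≠ 1) (hρ : EM ρ) {β : ℝ} (hβ : 0 < β)
    {h v : Vec d} (hS : SpaceV d ρ β (‖h‖ + 1))
    (hv : ∀ k : Vec d, lam ρ β h + inner ℝ v k ≤ lam ρ β (h + k)) {ε : ℝ} (hε : 0 < ε) :
    ∃ s₀ : ℝ, 0 < s₀ ∧ ∀ s : ℝ, 0 < s → s ≤ s₀ →
      ∃ r : Vec d, ‖r‖ ≤ s ∧ s ^ (2 * (d : ℝ) + 1 + ε) ≤ gap (lam ρ β) h v r := by
  have hd1 : (1 : ℝ) ≤ d := by exact_mod_cast hd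
  have hS' : SpaceV d ρ β ‖h‖ := fun e he p => by
    obtain ⟨C, hC⟩ := hS e he p
    exact ⟨C, fun h' hh' => hC h' (hh'.trans (by linarith))⟩
  obtain ⟨θ, hθ⟩ : ∃ θ : ℝ, θ = 2 * ((d : ℝ) + 1) + ε / 2 := ⟨_, rfl⟩
  have hθ4 : 4 ≤ θ := by
    rw [hθ]
    linarith
  have hθ0 : 0 < θ := by linarith
  obtain ⟨a, ha⟩ : ∃ a : ℝ, a = min (1 / 16) (ε / (4 * θ * (2 * d + 3))) := ⟨_, rfl⟩
  have ha0 : 0 < a := by
    rw [ha]
    exact lt_min (by norm_num) (by positivity)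
  have ha16 : a ≤ 1 / 16 := by
    rw [ha]
    exact min_le_left _ _
  have haε : a * (4 * θ * (2 * d + 3)) ≤ ε := by
    have h1 : a ≤ ε / (4 * θ * (2 * d + 3)) := by
      rw [ha]
      exact min_le_right _ _
    rwa [le_div_iff₀ (by positivity)] at h1
  obtain ⟨k, hk⟩ : ∃ k : ℕ, ((1 : ℝ) / 2) ^ (k + 1) ≤ a := by
    obtain ⟨k, hk⟩ := exists_pow_lt_of_lt_one ha0 (show (1 : ℝ) / 2 < 1 by norm_num)
    refine ⟨k, ?_⟩
    rw [pow_succ]
    have : (0 : ℝ) < (1 / 2) ^ k := by positivity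
    linarith
  obtain ⟨δ, hδ, c, hc, hlow⟩ := low20 hd hnc hρ hβ hS' ha0
  obtain ⟨C, hC⟩ := tub_fam hd hρ (tubeV hd hρ β _ hS) hv k ha0 1
  obtain ⟨K, hK⟩ : ∃ K : ℝ, K = 14 * 2 ^ (k + 1) := ⟨_, rfl⟩
  have hK1 : 1 ≤ K := by
    rw [hK]
    have : (1 : ℝ) ≤ 2 ^ (k + 1) := one_le_pow₀ (by norm_num)
    linarith
  -- large `u`
  have ev1 : ∀ᶠ u : ℝ in atTop, K ≤ u ^ (1 : ℝ) :=
    (tendsto_rpow_atTop one_pos).eventually (eventually_ge_atTop _)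
  have ev2 : ∀ᶠ u : ℝ in atTop, |C| / δ ≤ u ^ (1 : ℝ) :=
    (tendsto_rpow_atTop one_pos).eventually (eventually_ge_atTop _)
  have ev3 : ∀ᶠ u : ℝ in atTop, K ^ (d + 1) / c < u ^ (ε / 4) :=
    (tendsto_rpow_atTop (by positivity)).eventually (eventually_gt_atTop _)
  obtain ⟨u₀, hu₀⟩ := eventually_atTop.1 ((ev1.and ev2).and ev3)
  refine ⟨1 / max u₀ 1, by positivity, fun s hs hss => ?_⟩
  obtain ⟨u, hu⟩ : ∃ u : ℝ, u = 1 / s := ⟨_, rfl⟩
  have hsu : s = 1 / u := by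
    rw [hu, one_div_one_div]
  have hu1 : max u₀ 1 ≤ u := by
    rw [hu, le_div_iff₀ hs]
    rw [le_div_iff₀ (by positivity)] at hss
    linarith
  have hu2 : 1 ≤ u := (le_max_right _ _).trans hu1
  have hu0 : 0 < u := by linarith
  obtain ⟨⟨e1, e2⟩, e3⟩ := hu₀ u ((le_max_left _ _).trans hu1)
  rw [Real.rpow_one] at e1 e2
  have hs1 : s ≤ 1 := by
    rw [hsu, div_le_one hu0]
    exact hu2
  by_contra hcon
  push Not at hcon
  obtain ⟨G, hG⟩ : ∃ G : ℝ, G = s ^ (2 * (d : ℝ) + 1 + ε) := ⟨_, rfl⟩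
  have hG0 : 0 ≤ G := by
    rw [hG]
    exact Real.rpow_nonneg hs.le _
  have hgap : ∀ r : Vec d, ‖r‖ ≤ s → gap (lam ρ β) h v r ≤ G := fun r hr => by
    rw [hG]
    exact (hcon r hr).le
  obtain ⟨n, hn⟩ : ∃ n : ℕ, n = ⌈u ^ θ⌉₊ := ⟨_, rfl⟩
  have huθ1 : 1 ≤ u ^ θ := Real.one_le_rpow hu2 hθ0.le
  have hnu : u ^ θ ≤ n := by
    rw [hn]
    exact Nat.le_ceil _
  have hnu2 : (n : ℝ) ≤ 2 * u ^ θ := by
    rw [hn]
    have := Nat.ceil_lt_add_one (show 0 ≤ u ^ θ by linarith)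
    linarith
  have hn1 : 1 ≤ n := by
    have h1 : (1 : ℝ) ≤ n := huθ1.trans hnu
    exact_mod_cast h1
  have hn0 : (0 : ℝ) < n := by exact_mod_cast hn1
  obtain ⟨W, hW⟩ : ∃ W : ℝ, W = K * u ^ (2 + 2 * (θ * a)) := ⟨_, rfl⟩
  have hW1 : 1 ≤ W := by
    rw [hW]
    have h1 : 1 ≤ u ^ (2 + 2 * (θ * a)) := Real.one_le_rpow hu2 (by positivity)
    nlinarith
  have hWn : W ≤ n := by
    refine le_trans ?_ hnu
    rw [hW]
    calc K * u ^ (2 + 2 * (θ * a)) ≤ u ^ (1 : ℝ) * u ^ (2 + 2 * (θ * a)) := by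
          rw [Real.rpow_one]
          exact mul_le_mul_of_nonneg_right e1 (Real.rpow_nonneg hu0.le _)
      _ = u ^ (1 + (2 + 2 * (θ * a))) := (Real.rpow_add hu0 _ _).symm
      _ ≤ u ^ θ := by
          refine Real.rpow_le_rpow_of_exponent_le hu2 ?_
          nlinarith
  have hyk : (1 : ℝ) - (1 / 2) ^ k ≤ 1 := by
    have : (0 : ℝ) < (1 / 2) ^ k := by positivity
    linarith
  have hnum := num20 (θ := θ) (a := a) (p := 2 * (d : ℝ) + 1 + ε) (u := u) hθ0 ha0 (by linarith)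
    (by rw [hθ]; linarith) hu2 hnu hnu2 (x := (1 / 2) ^ (k + 1)) (y := 1 - (1 / 2) ^ k)
    (by positivity) hk hyk
  rw [← hsu, ← hG] at hnum
  have htube := hC s G hs hs1 hG0 hgap n hn1 W (by
    refine hnum.trans (le_of_eq ?_)
    rw [hW, hK]
    field_simp)
  have hδn : C * (n : ℝ) ^ (-((1 : ℕ) : ℝ)) ≤ δ := by
    have h1 : |C| ≤ δ * n := by
      have h2 : |C| / δ ≤ n := by
        refine e2.trans (le_trans ?_ hnu)
        calc u = u ^ (1 : ℝ) := (Real.rpow_one u).symm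
          _ ≤ u ^ θ := Real.rpow_le_rpow_of_exponent_le hu2 (by linarith)
      rw [div_le_iff₀ hδ] at h2
      linarith
    have h3 : (n : ℝ) ^ (-((1 : ℕ) : ℝ)) = 1 / n := by
      rw [Real.rpow_neg hn0.le]
      simp
    rw [h3, mul_one_div, div_le_iff₀ hn0]
    exact (le_abs_self C).trans h1
  have hfin := hlow v n hn1 W hW1 hWn (htube.trans hδn)
  -- contradiction
  have f1 : u ^ (θ * (1 - a)) ≤ (n : ℝ) ^ (1 - a) := by
    rw [Real.rpow_mul hu0.le]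
    exact Real.rpow_le_rpow (Real.rpow_nonneg hu0.le _) hnu (by linarith)
  have f2 : W ^ (d + 1) = K ^ (d + 1) * u ^ ((2 + 2 * (θ * a)) * ((d : ℝ) + 1)) := by
    rw [hW, mul_pow, ← Real.rpow_natCast (u ^ (2 + 2 * (θ * a))), ← Real.rpow_mul hu0.le]
    push_cast
    rfl
  have f3 : u ^ (ε / 4) * u ^ ((2 + 2 * (θ * a)) * ((d : ℝ) + 1)) ≤ u ^ (θ * (1 - a)) := by
    rw [← Real.rpow_add hu0]
    refine Real.rpow_le_rpow_of_exponent_le hu2 ?_
    have h1 : θ * (1 - a) - (2 + 2 * (θ * a)) * ((d : ℝ) + 1) =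
        (θ - 2 * ((d : ℝ) + 1)) - θ * a * (2 * d + 3) := by ring
    have h2 : θ - 2 * ((d : ℝ) + 1) = ε / 2 := by
      rw [hθ]
      ring
    have h3 : θ * a * (2 * d + 3) ≤ ε / 4 := by linarith
    linarith
  have f4 : c * (u ^ (ε / 4) * u ^ ((2 + 2 * (θ * a)) * ((d : ℝ) + 1))) ≤
      K ^ (d + 1) * u ^ ((2 + 2 * (θ * a)) * ((d : ℝ) + 1)) := by
    rw [← f2]
    exact (mul_le_mul_of_nonneg_left (f3.trans f1) hc.le).trans hfin
  have f5 : c * u ^ (ε / 4) ≤ K ^ (d + 1) := by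
    have h1 : 0 < u ^ ((2 + 2 * (θ * a)) * ((d : ℝ) + 1)) := Real.rpow_pos_of_pos hu0 _
    refine le_of_mul_le_mul_right ?_ h1
    linarith
  rw [div_lt_iff₀ hc] at e3
  linarith

end Pool.Agent.W_7d29a1_V.P20
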