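import Pool.Agent.W_7d29a1_V.DefsV2

/-!
Reachable sites, splitting of sites, and the two blocks with cancellation.
-/

namespace Pool.Agent.W_7d29a1_V

open Pool.Agent.W_MP_7d29a1_pr

variable {d : ℕ}

theorem l1_cast94 (z : Site d) : (l1 z : ℝ) = ∑ i, |(z i : ℝ)| := by
  unfold l1
  push_cast
  refine Finset.sum_congr rfl fun i _ => ?_
  rw [← Int.cast_abs, Nat.cast_natAbs]

theorem l1_zero94 : l1 (0 : Site d) = 0 := by simp [l1]

theorem l1_eq_zero94 {z : Site d} (h : l1 z = 0) : z = 0 := by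
  unfold l1 at h
  funext i
  have := (Finset.sum_eq_zero_iff.1 h) i (Finset.mem_univ i)
  exact Int.natAbs_eq_zero.1 this

theorem l1_neg94 (z : Site d) : l1 (-z) = l1 z := by simp [l1]

theorem l1_sub_comm94 (z w : Site d) : l1 (z - w) = l1 (w - z) := by
  rw [← l1_neg94 (w - z), neg_sub]

theorem l1_add_le94 (z w : Site d) : l1 (z + w) ≤ l1 z + l1 w := by
  unfold l1
  rw [← Finset.sum_add_distrib]
  exact Finset.sum_le_sum fun i _ => Int.natAbs_add_le _ _

theorem l1_sub_le94 (z w : Site d) : l1 (z - w) ≤ l1 z + l1 w := by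
  rw [sub_eq_add_neg, ← l1_neg94 w]
  exact l1_add_le94 _ _

theorem l1_vec94 (e : Step d) : l1 (vec e) = 1 := by
  unfold l1 vec
  rw [Finset.sum_eq_single e.1]
  · rcases e.2 <;> simp
  · intro i _ hi
    simp [Pi.single_eq_of_ne hi]
  · simp

/-- The parity of the norm is the parity of the sum of the coordinates. -/
theorem even_l1_94 (z : Site d) : Even (l1 z) ↔ Even (∑ i, z i) := by
  unfold l1
  have h : ∀ s : Finset (Fin d), Even (∑ i ∈ s, (z i).natAbs) ↔ Even (∑ i ∈ s, z i) := by
    intro s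
    induction s using Finset.induction_on with
    | empty => simp
    | insert a s ha ih =>
      rw [Finset.sum_insert ha, Finset.sum_insert ha, Nat.even_add, Int.even_add, ih,
        Int.natAbs_even]
  exact h _

theorem even_add94 (z w : Site d) : Even (l1 (z + w)) ↔ (Even (l1 z) ↔ Even (l1 w)) := by
  rw [even_l1_94, even_l1_94, even_l1_94, ← Int.even_add]
  simp [Finset.sum_add_distrib]

theorem even_sub94 (z w : Site d) : Even (l1 (z - w)) ↔ (Even (l1 z) ↔ Even (l1 w)) := by
  rw [sub_eq_add_neg, even_add94, l1_neg94]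

theorem pos_full94 {s : ℕ} (q : Fin s → Step d) : pos q s = ∑ j, vec (q j) := by
  unfold pos
  exact Finset.sum_congr rfl fun j _ => by simp [j.2]

theorem rch_def94 {s : ℕ} {z : Site d} : Rch s z ↔ ∃ q : Fin s → Step d, ∑ j, vec (q j) = z := by
  unfold Rch
  simp only [pos_full94]

theorem rch_zero94 : Rch 0 (0 : Site d) := rch_def94.2 ⟨Fin.elim0, by simp⟩

theorem rch_add94 {s t : ℕ} {z w : Site d} (h : Rch s z) (h' : Rch t w) : Rch (s + t) (z + w) := by
  obtain ⟨q, rfl⟩ := rch_def94.1 h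
  obtain ⟨r, rfl⟩ := rch_def94.1 h'
  refine rch_def94.2 ⟨Fin.append q r, ?_⟩
  rw [Fin.sum_univ_add]
  simp

/-- Splitting of a path. -/
theorem rch_split94 {s t : ℕ} {z : Site d} (h : Rch (s + t) z) :
    ∃ b b' : Site d, Rch s b ∧ Rch t b' ∧ b + b' = z := by
  obtain ⟨q, rfl⟩ := rch_def94.1 h
  refine ⟨∑ j : Fin s, vec (q (Fin.castAdd t j)), ∑ j : Fin t, vec (q (Fin.natAdd s j)),
    rch_def94.2 ⟨fun j => q (Fin.castAdd t j), rfl⟩, rch_def94.2 ⟨fun j => q (Fin.natAdd s j), rfl⟩,
    ?_⟩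
  rw [Fin.sum_univ_add]

theorem rch_one94 (e : Step d) : Rch 1 (vec e) := rch_def94.2 ⟨fun _ => e, by simp⟩

theorem rch_succ94 {s : ℕ} {z : Site d} {e : Step d} (h : Rch s (z - vec e)) : Rch (s + 1) z := by
  have := rch_add94 h (rch_one94 e)
  rwa [sub_add_cancel] at this

theorem rch_neg94 {s : ℕ} {z : Site d} (h : Rch s z) : Rch s (-z) := by
  obtain ⟨q, rfl⟩ := rch_def94.1 h
  refine rch_def94.2 ⟨fun j => ((q j).1, !(q j).2), ?_⟩
  rw [← Finset.sum_neg_distrib]
  refine Finset.sum_congr rfl fun j _ => ?_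
  unfold vec
  rw [← Pi.single_neg]
  congr 1
  cases hq : (q j).2 <;> simp [hq]

theorem rch_le94 {s : ℕ} {z : Site d} (h : Rch s z) : l1 z ≤ s := by
  induction s generalizing z with
  | zero =>
    obtain ⟨q, rfl⟩ := rch_def94.1 h
    simp [l1]
  | succ s ih =>
    obtain ⟨b, b', hb, hb', rfl⟩ := rch_split94 h
    obtain ⟨q, rfl⟩ := rch_def94.1 hb'
    refine (l1_add_le94 _ _).trans (Nat.add_le_add (ih hb) ?_)
    simp [l1_vec94]

theorem rch_even94 {s : ℕ} {z : Site d} (h : Rch s z) : Even (l1 z + s) := by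
  induction s generalizing z with
  | zero =>
    obtain ⟨q, rfl⟩ := rch_def94.1 h
    simp [l1]
  | succ s ih =>
    obtain ⟨b, b', hb, hb', rfl⟩ := rch_split94 h
    obtain ⟨q, rfl⟩ := rch_def94.1 hb'
    have h1 := ih hb
    have h2 : l1 (∑ j : Fin 1, vec (q j)) = 1 := by simp [l1_vec94]
    have h3 := even_add94 b (∑ j : Fin 1, vec (q j))
    rw [h2] at h3
    rw [Nat.even_add] at h1 ⊢
    rw [h3, h1, Nat.even_add_one]
    simp [Nat.even_add_one]

/-- Reachable sites: norm at most `s`, right parity. -/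
theorem rch_iff94 (hd : 0 < d) {s : ℕ} {z : Site d} : Rch s z ↔ l1 z ≤ s ∧ Even (l1 z + s) := by
  refine ⟨fun h => ⟨rch_le94 h, rch_even94 h⟩, ?_⟩
  induction s generalizing z with
  | zero =>
    rintro ⟨h, -⟩
    rw [l1_eq_zero94 (Nat.le_zero.1 h)]
    exact rch_zero94
  | succ s ih =>
    rintro ⟨h, he⟩
    by_cases hz : z = 0
    · subst hz
      rw [l1_zero94, zero_add] at he
      have hs : 1 ≤ s := by
        rcases Nat.eq_zero_or_pos s with h0 | h0
        · subst h0
          exact absurd he (by decide)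
        · exact h0
      refine rch_succ94 (e := (⟨0, hd⟩, true)) (ih ⟨?_, ?_⟩)
      · rw [zero_sub, l1_neg94, l1_vec94]
        exact hs
      · rw [zero_sub, l1_neg94, l1_vec94, add_comm]
        exact he
    · obtain ⟨i, hi⟩ : ∃ i, z i ≠ 0 := by
        by_contra hcon
        push Not at hcon
        exact hz (funext hcon)
      have key : l1 (z - vec (i, decide (0 < z i))) + 1 = l1 z := by
        unfold l1 vec
        rw [← Finset.add_sum_erase _ _ (Finset.mem_univ i),
          ← Finset.add_sum_erase _ (fun i => (z i).natAbs) (Finset.mem_univ i)]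
        have h2 : ∀ j ∈ Finset.univ.erase i,
            ((z - Pi.single i (if decide (0 < z i) = true then (1 : ℤ) else -1) : Site d) j).natAbs =
              (z j).natAbs := by
          intro j hj
          rw [Pi.sub_apply, Pi.single_eq_of_ne (Finset.ne_of_mem_erase hj), sub_zero]
        rw [Finset.sum_congr rfl h2, Pi.sub_apply, Pi.single_eq_same]
        simp only [decide_eq_true_eq]
        split_ifs with h3
        · omega
        · omega
      refine rch_succ94 (e := (i, decide (0 < z i))) (ih ⟨by omega, ?_⟩)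
      have h4 : l1 (z - vec (i, decide (0 < z i))) + 1 + (s + 1) =
          l1 (z - vec (i, decide (0 < z i))) + s + 2 := by ring
      rw [← key, h4] at he
      exact (Nat.even_add.1 he).2 (by decide)

/-- Splitting of an even site of norm at most `2 s` into two reachable ones. -/
theorem split94 (hd : 0 < d) {s : ℕ} {z : Site d} (hz : l1 z ≤ 2 * s) (he : Even (l1 z)) :
    ∃ b b' : Site d, Rch s b ∧ Rch s b' ∧ b + b' = z := by
  refine rch_split94 ((rch_iff94 hd).2 ⟨by omega, ?_⟩)
  exact he.add ⟨s, rfl⟩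

/-- Two blocks with cancellation. -/
theorem pigeon94 (hd : 0 < d) {q s : ℕ} (hq : 1 ≤ q) (hs : 1 ≤ s) (b : Fin q → Site d)
    (hb : ∀ j, l1 (b j) ≤ s) {κ : ℝ} (hκ : 0 < κ)
    (hz : (l1 (∑ j, b j) : ℝ) ≤ (1 - κ) * (q * s)) (hq2 : 2 ≤ q) :
    ∃ j j' : Fin q, j ≠ j' ∧ (l1 (b j + b j') : ℝ) ≤ 2 * s - κ * s / (2 * d) := by
  by_contra hcon
  push Not at hcon
  have hd' : (1 : ℝ) ≤ d := by exact_mod_cast hd
  have hq' : (1 : ℝ) ≤ q := by exact_mod_cast hq
  have hs' : (1 : ℝ) ≤ s := by exact_mod_cast hs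
  set θ : ℝ := κ * s / (2 * d) with hθ
  have hθs : θ ≤ κ * s / 2 := by
    rw [hθ]
    exact div_le_div_of_nonneg_left (by positivity) (by norm_num) (by linarith)
  set A : ℝ := (κ * s - θ) / (2 * d) with hA
  have hκs : 0 < κ * s := by positivity
  have hA0 : 0 < A := by
    rw [hA]
    apply div_pos <;> linarith
  -- every block is long
  have hlong : ∀ j, (s : ℝ) - θ < l1 (b j) := by
    intro j
    obtain ⟨j', hj'⟩ : ∃ j' : Fin q, j ≠ j' := by
      have : Nontrivial (Fin q) := Fin.nontrivial_iff_two_le.2 hq2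
      obtain ⟨j', h⟩ := exists_ne j
      exact ⟨j', h.symm⟩
    have h1 := hcon j j' hj'
    have h2 : (l1 (b j + b j') : ℝ) ≤ l1 (b j) + l1 (b j') := by
      exact_mod_cast l1_add_le94 _ _
    have h3 : (l1 (b j') : ℝ) ≤ s := by exact_mod_cast hb j'
    linarith
  -- a coordinate with both signs
  obtain ⟨c, j, j', hj, hj'⟩ : ∃ (c : Fin d) (j j' : Fin q), A ≤ (b j c : ℝ) ∧
      A ≤ -(b j' c : ℝ) := by
    by_contra hno
    push Not at hno
    have hcoord : ∀ c : Fin d, ∑ j, |(b j c : ℝ)| - |∑ j, (b j c : ℝ)| ≤ 2 * q * A := by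
      intro c
      by_cases h1 : ∃ j, A ≤ (b j c : ℝ)
      · obtain ⟨j, hj⟩ := h1
        have h2 : ∀ j', -(b j' c : ℝ) ≤ A := fun j' => (hno c j j' hj).le
        have h3 : ∑ j, |(b j c : ℝ)| - ∑ j, (b j c : ℝ) ≤ ∑ _j : Fin q, 2 * A := by
          rw [← Finset.sum_sub_distrib]
          refine Finset.sum_le_sum fun j' _ => ?_
          rcases abs_cases (b j' c : ℝ) with h | h <;> linarith [h2 j']
        have h4 := le_abs_self (∑ j, (b j c : ℝ))
        simp only [Finset.sum_const, Finset.card_univ, Fintype.card_fin, nsmul_eq_mul] at h3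
        linarith
      · push Not at h1
        have h3 : ∑ j, |(b j c : ℝ)| + ∑ j, (b j c : ℝ) ≤ ∑ _j : Fin q, 2 * A := by
          rw [← Finset.sum_add_distrib]
          refine Finset.sum_le_sum fun j' _ => ?_
          rcases abs_cases (b j' c : ℝ) with h | h <;> linarith [(h1 j').le]
        have h4 := neg_abs_le (∑ j, (b j c : ℝ))
        simp only [Finset.sum_const, Finset.card_univ, Fintype.card_fin, nsmul_eq_mul] at h3
        linarith
    have h5 : ∑ j, (l1 (b j) : ℝ) - l1 (∑ j, b j) ≤ 2 * d * q * A := by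
      have h6 : ∑ j, (l1 (b j) : ℝ) = ∑ c, ∑ j, |(b j c : ℝ)| := by
        simp only [l1_cast94]
        exact Finset.sum_comm
      have h7 : (l1 (∑ j, b j) : ℝ) = ∑ c, |∑ j, (b j c : ℝ)| := by
        rw [l1_cast94]
        refine Finset.sum_congr rfl fun c _ => ?_
        rw [Finset.sum_apply]
        push_cast
        rfl
      rw [h6, h7, ← Finset.sum_sub_distrib]
      refine (Finset.sum_le_sum fun c _ => hcoord c).trans ?_
      simp only [Finset.sum_const, Finset.card_univ, Fintype.card_fin, nsmul_eq_mul]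
      apply le_of_eq
      ring
    have h8 : (q : ℝ) * (s - θ) < ∑ j, (l1 (b j) : ℝ) := by
      have : ∑ _j : Fin q, ((s : ℝ) - θ) < ∑ j, (l1 (b j) : ℝ) := by
        have : Nonempty (Fin q) := ⟨⟨0, by omega⟩⟩
        exact Finset.sum_lt_sum_of_nonempty Finset.univ_nonempty fun j _ => hlong j
      simp only [Finset.sum_const, Finset.card_univ, Fintype.card_fin, nsmul_eq_mul] at this
      exact this
    have h9 : 2 * (d : ℝ) * q * A = q * (κ * s - θ) := by
      rw [hA]
      field_simp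
    nlinarith
  have hne : j ≠ j' := by
    rintro rfl
    linarith
  have h1 := hcon j j' hne
  -- the cancellation in the coordinate `c`
  have h2 : (l1 (b j + b j') : ℝ) ≤ l1 (b j) + l1 (b j') - 2 * A := by
    rw [l1_cast94, l1_cast94, l1_cast94, ← Finset.sum_add_distrib,
      ← Finset.add_sum_erase _ _ (Finset.mem_univ c),
      ← Finset.add_sum_erase _ (fun i => |(b j i : ℝ)| + |(b j' i : ℝ)|) (Finset.mem_univ c)]
    have h3 : ∑ i ∈ Finset.univ.erase c, |((b j + b j') i : ℝ)| ≤
        ∑ i ∈ Finset.univ.erase c, (|(b j i : ℝ)| + |(b j' i : ℝ)|) := by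
      refine Finset.sum_le_sum fun i _ => ?_
      rw [Pi.add_apply]
      push_cast
      exact abs_add_le _ _
    have h4 : |((b j + b j') c : ℝ)| ≤ |(b j c : ℝ)| + |(b j' c : ℝ)| - 2 * A := by
      rw [Pi.add_apply]
      push_cast
      rw [abs_of_nonneg (a := (b j c : ℝ)) (by linarith),
        abs_of_nonpos (a := (b j' c : ℝ)) (by linarith)]
      rcases abs_cases ((b j c : ℝ) + (b j' c : ℝ)) with h | h <;> linarith
    linarith
  have h3 : (l1 (b j) : ℝ) ≤ s := by exact_mod_cast hb j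
  have h4 : (l1 (b j') : ℝ) ≤ s := by exact_mod_cast hb j'
  have h5 : θ ≤ 2 * A := by
    have h6 : 2 * A = (κ * s - θ) / d := by
      rw [hA]
      field_simp
    rw [h6, le_div_iff₀ (by linarith)]
    have h7 : θ * d = κ * s / 2 := by
      rw [hθ]
      field_simp
    rw [h7]
    linarith
  linarith

end Pool.Agent.W_7d29a1_V
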