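import Pool.Agent.W_7d29a1_V.DefsV2
import Pool.Agent.W_7d29a1_h46u.ConcV

/-!
The spatial fluctuations are at most diffusive: induction over the moments and over the source.
-/

namespace Pool.Agent.W_7d29a1_V.Space30

open MeasureTheory ProbabilityTheory Filter Topology Pool.Agent.W_MP_7d29a1_pr
  Pool.Agent.W_7d29a1_h46 Pool.Agent.W_7d29a1_h46u Pool.Agent.W_7d29a1_D2
  Pool.Agent.W_7d29a1_D2.B35 Pool.Agent.W_7d29a1_V

variable {d : ℕ} {ρ : Measure ℝ} [IsProbabilityMeasure ρ]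

private lemma add_pow_le30 (q : ℕ) {u v : ℝ} (hu : 0 ≤ u) (hv : 0 ≤ v) :
    (u + v) ^ q ≤ 2 ^ q * (u ^ q + v ^ q) := by
  rcases le_total u v with h | h
  · calc (u + v) ^ q ≤ (2 * v) ^ q := pow_le_pow_left₀ (by linarith) (by linarith) q
      _ = 2 ^ q * v ^ q := mul_pow _ _ _
      _ ≤ _ := mul_le_mul_of_nonneg_left (le_add_of_nonneg_left (pow_nonneg hu q)) (by positivity)
  · calc (u + v) ^ q ≤ (2 * u) ^ q := pow_le_pow_left₀ (by linarith) (by linarith) q
      _ = 2 ^ q * u ^ q := mul_pow _ _ _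
      _ ≤ _ := mul_le_mul_of_nonneg_left (le_add_of_nonneg_right (pow_nonneg hv q)) (by positivity)

lemma measurable_Us30 (β : ℝ) (h : Vec d) (n : ℕ) (k : Fin d) (x : ℕ) :
    Measurable fun η : Env d => Us β h n k x η :=
  (measurable_X β h n).comp (measurable_sh 0 (src k x))

/-- The crude moments of the difference of the two sources, uniform in the tilt. -/
theorem crude30 (hd : 0 < d) (hρ : EM ρ) (β : ℝ) (q : ℕ) :
    ∃ C : ℝ, 0 ≤ C ∧ ∀ (h : Vec d) (n : ℕ), 1 ≤ n → ∀ (k : Fin d) (x : ℕ),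
      Integrable (fun η => |Us β h n k x η - Us β h n k 0 η| ^ q) (law d ρ) ∧
      ∫ η, |Us β h n k x η - Us β h n k 0 η| ^ q ∂(law d ρ) ≤ C * (n : ℝ) ^ q := by
  obtain ⟨C, hC0, hC⟩ := momU (d := d) hd hρ β q
  refine ⟨2 ^ q * (C + C), by positivity, fun h n hn k x => ?_⟩
  have hn1 : (1 : ℝ) ≤ n := by exact_mod_cast hn
  obtain ⟨i0, b0⟩ := hC h n hn
  have hm : Measurable fun η : Env d => |X β h η n - A ρ β h n| ^ q :=
    (((measurable_X β h n).sub_const _).abs).pow_const q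
  have hi : ∀ y : ℕ, Integrable (fun η => |Us β h n k y η - A ρ β h n| ^ q) (law d ρ) :=
    fun y => (mp_sh 0 (src k y)).integrable_comp_of_integrable i0
  have he : ∀ y : ℕ, ∫ η, |Us β h n k y η - A ρ β h n| ^ q ∂(law d ρ) ≤ C * (n : ℝ) ^ q := by
    intro y
    have h1 : ∫ η, |Us β h n k y η - A ρ β h n| ^ q ∂(law d ρ) =
        ∫ η, |X β h η n - A ρ β h n| ^ q ∂(law d ρ) := integral_sh 0 (src k y) hm
    rw [h1]
    refine b0.trans (mul_le_mul_of_nonneg_left ?_ hC0)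
    rw [← Real.rpow_natCast]
    refine Real.rpow_le_rpow_of_exponent_le hn1 ?_
    have : (0 : ℝ) ≤ q := Nat.cast_nonneg q
    linarith
  have hp : ∀ η : Env d, |Us β h n k x η - Us β h n k 0 η| ^ q ≤
      2 ^ q * (|Us β h n k x η - A ρ β h n| ^ q + |Us β h n k 0 η - A ρ β h n| ^ q) := by
    intro η
    refine (pow_le_pow_left₀ (abs_nonneg _) ?_ q).trans
      (add_pow_le30 q (abs_nonneg _) (abs_nonneg _))
    have h1 : Us β h n k x η - Us β h n k 0 η =
        (Us β h n k x η - A ρ β h n) - (Us β h n k 0 η - A ρ β h n) := by ring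
    rw [h1]
    exact abs_sub _ _
  have hI : Integrable (fun η => 2 ^ q * (|Us β h n k x η - A ρ β h n| ^ q +
      |Us β h n k 0 η - A ρ β h n| ^ q)) (law d ρ) := ((hi x).add (hi 0)).const_mul _
  have hint : Integrable (fun η => |Us β h n k x η - Us β h n k 0 η| ^ q) (law d ρ) := by
    refine hI.mono' ?_ (Filter.Eventually.of_forall fun η => ?_)
    · exact ((((measurable_Us30 β h n k x).sub (measurable_Us30 β h n k 0)).abs).pow_const
        q).aestronglyMeasurable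
    · rw [Real.norm_eq_abs, abs_of_nonneg (by positivity)]
      exact hp η
  refine ⟨hint, ?_⟩
  refine (integral_mono hint hI hp).trans ?_
  rw [integral_const_mul, integral_add (hi x) (hi 0)]
  have h2 := add_le_add (he x) (he 0)
  calc (2 : ℝ) ^ q * (∫ η, |Us β h n k x η - A ρ β h n| ^ q ∂(law d ρ) +
        ∫ η, |Us β h n k 0 η - A ρ β h n| ^ q ∂(law d ρ)) ≤
      2 ^ q * (C * (n : ℝ) ^ q + C * (n : ℝ) ^ q) :=
        mul_le_mul_of_nonneg_left h2 (by positivity)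
    _ = _ := by ring

/-- The even moments exist and have the crude size. -/
theorem crudeMo30 (hd : 0 < d) (hρ : EM ρ) (β : ℝ) (p : ℕ) :
    ∃ C : ℝ, 0 ≤ C ∧ ∀ (h : Vec d) (n : ℕ), 1 ≤ n → ∀ (k : Fin d) (x : ℕ),
      Integrable (fun η => (Us β h n k x η - Us β h n k 0 η) ^ (2 * p)) (law d ρ) ∧
      Mo ρ β h n k p x ≤ C * (n : ℝ) ^ (2 * p) := by
  obtain ⟨C, hC0, hC⟩ := crude30 (d := d) hd hρ β (2 * p)
  refine ⟨C, hC0, fun h n hn k x => ?_⟩
  obtain ⟨i1, b1⟩ := hC h n hn k x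
  have he : (fun η : Env d => |Us β h n k x η - Us β h n k 0 η| ^ (2 * p)) =
      fun η => (Us β h n k x η - Us β h n k 0 η) ^ (2 * p) := by
    funext η
    exact (even_two_mul p).pow_abs _
  rw [he] at i1
  refine ⟨i1, ?_⟩
  unfold Mo
  rw [← he]
  exact b1

lemma src_zero30 (k : Fin d) : src k 0 = 0 := by
  unfold src
  simp

lemma l1_src30 (k : Fin d) (x : ℕ) : l1 (src k x) = 2 * x := by
  unfold l1 src
  rw [Finset.sum_eq_single k]
  · rw [Pi.single_eq_same]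
    omega
  · intro b _ hb
    rw [Pi.single_eq_of_ne hb]
    rfl
  · intro h
    exact absurd (Finset.mem_univ k) h

lemma l1_neg30 (z : Site d) : l1 (-z) = l1 z := by
  unfold l1
  refine Finset.sum_congr rfl fun i _ => ?_
  rw [Pi.neg_apply, Int.natAbs_neg]

lemma src_mem30 (k : Fin d) {x n : ℕ} (h : x ≤ 5 * n) : src k x ∈ boxF d (20 * n) := by
  unfold boxF
  rw [Fintype.mem_piFinset]
  intro i
  rw [Finset.mem_Icc]
  by_cases hi : i = k
  · subst hi
    unfold src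
    rw [Pi.single_eq_same]
    push_cast
    omega
  · unfold src
    rw [Pi.single_eq_of_ne hi]
    push_cast
    omega

/-- Near the origin: the two sources differ by the Lipschitz bound of the good event. -/
theorem start30 (hd : 0 < d) (hρ : EM ρ) {β R : ℝ} (hN : NSV d ρ β R) {δ : ℝ} (hδ : 0 < δ)
    (hδ1 : δ < 1) (p : ℕ) :
    ∃ S : ℝ, 0 ≤ S ∧ ∀ h : Vec d, ‖h‖ ≤ R → ∀ n : ℕ, 1 ≤ n → ∀ (k : Fin d) (x : ℕ),
      x ≤ 5 * n → x < 2 * mm δ n → Mo ρ β h n k p x ≤ S * (mm δ n : ℝ) ^ (2 * p) := by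
  obtain ⟨κ, C, hκ, hκ1, hC, hq⟩ := hN δ hδ hδ1
  obtain ⟨C', hC'⟩ := hq (4 * p)
  obtain ⟨D, hD0, hD⟩ := crudeMo30 (d := d) hd hρ β (2 * p)
  refine ⟨(5 * C) ^ (2 * p) + (D + |C'|), by positivity, fun h hh n hn k x hx hxm => ?_⟩
  have hn0 : (0 : ℝ) < n := by exact_mod_cast hn
  set m : ℕ := mm δ n with hm
  have hm1 : 1 ≤ m := by
    rw [hm]
    unfold mm
    exact Nat.one_le_ceil_iff.2 (Real.rpow_pos_of_pos hn0 δ)
  have hm1' : (1 : ℝ) ≤ m := by exact_mod_cast hm1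
  set B : Env d → ℝ := fun η => Us β h n k x η - Us β h n k 0 η with hB
  have hBm : Measurable B := (measurable_Us30 β h n k x).sub (measurable_Us30 β h n k 0)
  set E : Set (Env d) := {η | 5 * C * m < |B η|} with hE
  have hEm : MeasurableSet E := measurableSet_lt measurable_const hBm.abs
  have hsub : E ⊆ {η | ¬ NSn β h n m κ C η} := by
    intro η hη hns
    have h1 := hns.lip 0 (Nat.zero_le n) (src k x) (src_mem30 k hx) (src k 0)
      (src_mem30 k (Nat.zero_le _)) (by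
        rw [src_zero30, sub_zero, l1_src30]
        exact even_two_mul x)
    have h2 := hns.lip 0 (Nat.zero_le n) (src k 0) (src_mem30 k (Nat.zero_le _)) (src k x)
      (src_mem30 k hx) (by
        rw [src_zero30, zero_sub, l1_neg30, l1_src30]
        exact even_two_mul x)
    rw [Nat.sub_zero] at h1 h2
    have e1 : l1 (src k x - src k 0) = 2 * x := by rw [src_zero30, sub_zero, l1_src30]
    have e2 : l1 (src k 0 - src k x) = 2 * x := by
      rw [src_zero30, zero_sub, l1_neg30, l1_src30]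
    rw [e1] at h1
    rw [e2] at h2
    have hxm' : (x : ℝ) ≤ 2 * m := by exact_mod_cast hxm.le
    have h3 : C * (((2 * x : ℕ) : ℝ) + m) ≤ 5 * C * m := by
      push_cast
      have := mul_le_mul_of_nonneg_left hxm' hC.le
      nlinarith
    have h4 : |B η| ≤ 5 * C * m := by
      rw [abs_le]
      refine ⟨?_, ?_⟩
      · have : Us β h n k 0 η ≤ Us β h n k x η + C * (((2 * x : ℕ) : ℝ) + m) := h2
        change -(5 * C * m) ≤ Us β h n k x η - Us β h n k 0 η
        linarith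
      · have : Us β h n k x η ≤ Us β h n k 0 η + C * (((2 * x : ℕ) : ℝ) + m) := h1
        change Us β h n k x η - Us β h n k 0 η ≤ 5 * C * m
        linarith
    exact absurd hη (not_lt.2 h4)
  have hPE : (law d ρ).real E ≤ |C'| * (n : ℝ) ^ (-((4 * p : ℕ) : ℝ)) := by
    refine (measureReal_mono hsub (measure_ne_top _ _)).trans ((hC' h hh n hn).trans ?_)
    exact mul_le_mul_of_nonneg_right (le_abs_self _) (Real.rpow_nonneg hn0.le _)
  obtain ⟨iD, bD⟩ := hD h n hn k x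
  have hpt : ∀ η : Env d, B η ^ (2 * p) ≤ (5 * C * m) ^ (2 * p) +
      (((n : ℝ) ^ (4 * p))⁻¹ * B η ^ (2 * (2 * p)) +
        (n : ℝ) ^ (4 * p) * E.indicator (fun _ => (1 : ℝ)) η) := by
    intro η
    have hnp : (0 : ℝ) < (n : ℝ) ^ (4 * p) := pow_pos hn0 _
    have hB4 : 0 ≤ B η ^ (2 * (2 * p)) := (even_two_mul (2 * p)).pow_nonneg _
    by_cases hη : η ∈ E
    · rw [Set.indicator_of_mem hη]
      have h1 : B η ^ (2 * (2 * p)) = (B η ^ (2 * p)) ^ 2 := by
        rw [← pow_mul]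
        congr 1
        ring
      have h2 : B η ^ (2 * p) ≤ ((n : ℝ) ^ (4 * p))⁻¹ * (B η ^ (2 * p)) ^ 2 +
          (n : ℝ) ^ (4 * p) * 1 := by
        have h3 : 0 ≤ ((n : ℝ) ^ (4 * p))⁻¹ * (B η ^ (2 * p) - (n : ℝ) ^ (4 * p)) ^ 2 := by
          positivity
        have h4 : ((n : ℝ) ^ (4 * p))⁻¹ * (B η ^ (2 * p) - (n : ℝ) ^ (4 * p)) ^ 2 =
            ((n : ℝ) ^ (4 * p))⁻¹ * (B η ^ (2 * p)) ^ 2 - 2 * B η ^ (2 * p) +
              (n : ℝ) ^ (4 * p) := by
          field_simp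
          ring
        have h5 : 0 ≤ B η ^ (2 * p) := (even_two_mul p).pow_nonneg _
        rw [h4] at h3
        linarith
      rw [h1]
      have h6 : 0 ≤ (5 * C * (m : ℝ)) ^ (2 * p) := (even_two_mul p).pow_nonneg _
      linarith
    · rw [Set.indicator_of_notMem hη]
      have h1 : |B η| ≤ 5 * C * m := not_lt.1 hη
      have h2 : B η ^ (2 * p) ≤ (5 * C * m) ^ (2 * p) := by
        rw [← (even_two_mul p).pow_abs (B η)]
        exact pow_le_pow_left₀ (abs_nonneg _) h1 _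
      have h3 : 0 ≤ ((n : ℝ) ^ (4 * p))⁻¹ * B η ^ (2 * (2 * p)) := by positivity
      linarith
  have iI : Integrable (fun η => E.indicator (fun _ => (1 : ℝ)) η) (law d ρ) :=
    (integrable_const (1 : ℝ)).indicator hEm
  have iR : Integrable (fun η => (5 * C * m) ^ (2 * p) +
      (((n : ℝ) ^ (4 * p))⁻¹ * B η ^ (2 * (2 * p)) +
        (n : ℝ) ^ (4 * p) * E.indicator (fun _ => (1 : ℝ)) η)) (law d ρ) :=
    (integrable_const _).add ((iD.const_mul _).add (iI.const_mul _))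
  obtain ⟨_, hCp⟩ := crudeMo30 (d := d) hd hρ β p
  have iB : Integrable (fun η => B η ^ (2 * p)) (law d ρ) := (hCp.2 h n hn k x).1
  have hmain : Mo ρ β h n k p x ≤ (5 * C * m) ^ (2 * p) +
      (((n : ℝ) ^ (4 * p))⁻¹ * Mo ρ β h n k (2 * p) x + (n : ℝ) ^ (4 * p) * (law d ρ).real E) := by
    have h1 : Mo ρ β h n k p x ≤ _ := integral_mono iB iR hpt
    refine h1.trans (le_of_eq ?_)
    have j1 : Integrable (fun η => ((n : ℝ) ^ (4 * p))⁻¹ * B η ^ (2 * (2 * p))) (law d ρ) :=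
      Integrable.const_mul (f := fun η => B η ^ (2 * (2 * p))) iD _
    have j2 : Integrable (fun η => (n : ℝ) ^ (4 * p) * E.indicator (fun _ => (1 : ℝ)) η)
        (law d ρ) := iI.const_mul _
    have j3 : Integrable (fun η => ((n : ℝ) ^ (4 * p))⁻¹ * B η ^ (2 * (2 * p)) +
        (n : ℝ) ^ (4 * p) * E.indicator (fun _ => (1 : ℝ)) η) (law d ρ) := j1.add j2
    rw [integral_add (integrable_const _) j3, integral_add j1 j2, integral_const_mul,
      integral_const_mul, integral_indicator_const _ hEm, integral_const]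
    simp only [smul_eq_mul, mul_one, probReal_univ, one_mul]
    rfl
  have hnp : (0 : ℝ) < (n : ℝ) ^ (4 * p) := pow_pos hn0 _
  have k1 : ((n : ℝ) ^ (4 * p))⁻¹ * Mo ρ β h n k (2 * p) x ≤ D := by
    have h1 : ((n : ℝ) ^ (4 * p))⁻¹ * Mo ρ β h n k (2 * p) x ≤
        ((n : ℝ) ^ (4 * p))⁻¹ * (D * (n : ℝ) ^ (2 * (2 * p))) :=
      mul_le_mul_of_nonneg_left bD (inv_nonneg.2 hnp.le)
    refine h1.trans (le_of_eq ?_)
    rw [show 2 * (2 * p) = 4 * p by ring]
    field_simp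
  have k2 : (n : ℝ) ^ (4 * p) * (law d ρ).real E ≤ |C'| := by
    have h1 := mul_le_mul_of_nonneg_left hPE hnp.le
    refine h1.trans (le_of_eq ?_)
    rw [Real.rpow_neg hn0.le, Real.rpow_natCast]
    field_simp
  have k3 : (1 : ℝ) ≤ (m : ℝ) ^ (2 * p) := one_le_pow₀ hm1'
  have k4 : D + |C'| ≤ (D + |C'|) * (m : ℝ) ^ (2 * p) :=
    le_mul_of_one_le_right (by positivity) k3
  rw [mul_pow] at hmain
  calc Mo ρ β h n k p x ≤ (5 * C) ^ (2 * p) * (m : ℝ) ^ (2 * p) + (D + |C'|) := by linarith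
    _ ≤ (5 * C) ^ (2 * p) * (m : ℝ) ^ (2 * p) + (D + |C'|) * (m : ℝ) ^ (2 * p) := by linarith
    _ = _ := by ring

lemma Mo_zero30 (β : ℝ) (h : Vec d) (n : ℕ) (k : Fin d) (x : ℕ) : Mo ρ β h n k 0 x = 1 := by
  unfold Mo
  simp

/-- The induction step. -/
private lemma step30 (hd : 0 < d) (hρ : EM ρ) {β R : ℝ} (hS : StepV d ρ β R) (hN : NSV d ρ β R)
    {ε : ℝ} (hε : 0 < ε) (p : ℕ)
    (ih : ∃ K : ℝ, 1 ≤ K ∧ ∀ h : Vec d, ‖h‖ ≤ R → ∀ n : ℕ, 1 ≤ n → ∀ (k : Fin d) (x : ℕ),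
      x ≤ 5 * n → Mo ρ β h n k p x ≤ (K * ((x : ℝ) + 1) * (n : ℝ) ^ ε) ^ p) :
    ∃ K : ℝ, 1 ≤ K ∧ ∀ h : Vec d, ‖h‖ ≤ R → ∀ n : ℕ, 1 ≤ n → ∀ (k : Fin d) (x : ℕ),
      x ≤ 5 * n → Mo ρ β h n k (p + 1) x ≤ (K * ((x : ℝ) + 1) * (n : ℝ) ^ ε) ^ (p + 1) := by
  obtain ⟨K, hK1, hK⟩ := ih
  set δ : ℝ := min (ε / 2) (1 / 2) with hδdef
  have hδ : 0 < δ := lt_min (by linarith) (by norm_num)
  have hδ1 : δ < 1 := lt_of_le_of_lt (min_le_right _ _) (by norm_num)
  have hδε : δ ≤ ε / 2 := min_le_left _ _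
  obtain ⟨C, n₀, hst⟩ := hS δ hδ hδ1 (p + 1) (by omega)
  obtain ⟨S, hS0, hs⟩ := start30 hd hρ hN hδ hδ1 (p + 1)
  obtain ⟨Cc, hCc0, hcr⟩ := crudeMo30 (d := d) hd hρ β (p + 1)
  set S' : ℝ := S * 4 ^ (p + 1) with hS'
  set D : ℝ := 4 * |C| * (2 * K ^ p + 4 ^ p) with hD
  have hS'0 : 0 ≤ S' := by positivity
  have hD0 : 0 ≤ D := by positivity
  refine ⟨1 + S' + D + Cc * (n₀ : ℝ) ^ (2 * (p + 1)), ?_, fun h hh n hn k x hx => ?_⟩
  · have : 0 ≤ Cc * (n₀ : ℝ) ^ (2 * (p + 1)) := by positivity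
    linarith
  have hn0 : (0 : ℝ) < n := by exact_mod_cast hn
  have hn1 : (1 : ℝ) ≤ n := by exact_mod_cast hn
  set T : ℝ := (n : ℝ) ^ ε with hT
  have hT1 : 1 ≤ T := Real.one_le_rpow hn1 hε.le
  set L : ℝ := 1 + S' + D + Cc * (n₀ : ℝ) ^ (2 * (p + 1)) with hL
  have hL1 : 1 ≤ L := by
    have : 0 ≤ Cc * (n₀ : ℝ) ^ (2 * (p + 1)) := by positivity
    linarith
  have hx0 : (0 : ℝ) ≤ x := Nat.cast_nonneg x
  have hbase : 1 ≤ ((x : ℝ) + 1) * T := by nlinarith
  have hfin : ∀ M : ℝ, M ≤ L * ((((x : ℝ) + 1) * T) ^ (p + 1)) →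
      M ≤ (L * ((x : ℝ) + 1) * T) ^ (p + 1) := by
    intro M hM
    refine hM.trans ?_
    rw [mul_assoc L, mul_pow L]
    have hL2 : L ≤ L ^ (p + 1) := le_self_pow₀ hL1 (Nat.succ_ne_zero p)
    have hT0 : 0 ≤ (((x : ℝ) + 1) * T) ^ (p + 1) := pow_nonneg (zero_le_one.trans hbase) _
    exact mul_le_mul_of_nonneg_right hL2 hT0
  by_cases hnn : n₀ ≤ n
  · set m : ℕ := mm δ n with hm
    have hm1 : 1 ≤ m := by
      rw [hm]
      unfold mm
      exact Nat.one_le_ceil_iff.2 (Real.rpow_pos_of_pos hn0 δ)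
    have hm2 : (m : ℝ) ≤ 2 * (n : ℝ) ^ δ := by
      have h1 : (m : ℝ) < (n : ℝ) ^ δ + 1 := Nat.ceil_lt_add_one (Real.rpow_nonneg hn0.le δ)
      have h2 : (1 : ℝ) ≤ (n : ℝ) ^ δ := Real.one_le_rpow hn1 hδ.le
      linarith
    have hm0 : (0 : ℝ) ≤ m := Nat.cast_nonneg m
    have hmT : (m : ℝ) ^ 2 ≤ 4 * T := by
      have h1 : (m : ℝ) ^ 2 ≤ (2 * (n : ℝ) ^ δ) ^ 2 := pow_le_pow_left₀ hm0 hm2 2
      have h2 : ((n : ℝ) ^ δ) ^ 2 ≤ T := by
        rw [← Real.rpow_natCast, ← Real.rpow_mul hn0.le, hT]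
        refine Real.rpow_le_rpow_of_exponent_le hn1 ?_
        push_cast
        linarith
      calc (m : ℝ) ^ 2 ≤ (2 * (n : ℝ) ^ δ) ^ 2 := h1
        _ = 4 * ((n : ℝ) ^ δ) ^ 2 := by ring
        _ ≤ 4 * T := by linarith
    have hmq : ∀ q : ℕ, (m : ℝ) ^ (2 * q) ≤ 4 ^ q * T ^ q := by
      intro q
      rw [pow_mul, ← mul_pow]
      exact pow_le_pow_left₀ (by positivity) hmT q
    -- induction over the source
    have hind : ∀ y : ℕ, y ≤ 5 * n → Mo ρ β h n k (p + 1) y ≤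
        (S' + D * (y * ((y : ℝ) + 1) ^ p)) * T ^ (p + 1) := by
      intro y
      induction y with
      | zero =>
        intro hy
        have h1 := hs h hh n hn k 0 hy (by omega)
        refine h1.trans ?_
        have h2 := mul_le_mul_of_nonneg_left (hmq (p + 1)) hS0
        refine h2.trans (le_of_eq ?_)
        rw [hS']
        push_cast
        ring
      | succ y ihy =>
        intro hy
        have hy0 : (0 : ℝ) ≤ y := Nat.cast_nonneg y
        by_cases hlt : y + 1 < 2 * m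
        · have h1 := hs h hh n hn k (y + 1) hy hlt
          have h2 := mul_le_mul_of_nonneg_left (hmq (p + 1)) hS0
          refine h1.trans (h2.trans ?_)
          have h3 : S * (4 ^ (p + 1) * T ^ (p + 1)) = S' * T ^ (p + 1) := by
            rw [hS']
            ring
          rw [h3]
          refine mul_le_mul_of_nonneg_right ?_ (by positivity)
          have : 0 ≤ D * (((y + 1 : ℕ) : ℝ) * (((y + 1 : ℕ) : ℝ) + 1) ^ p) := by positivity
          linarith
        · have h1 := hst h hh n hnn k (y + 1) (not_lt.1 hlt) hy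
          rw [Nat.add_sub_cancel, Nat.add_sub_cancel] at h1
          have h2 := ihy (by omega)
          have h3 := hK h hh n hn k (y + 1) hy
          have h4 := hK h hh n hn k y (by omega)
          have hY : (((y + 1 : ℕ) : ℝ) + 1) = (y : ℝ) + 2 := by
            push_cast
            ring
          rw [hY] at h3
          have h5 : (K * ((y : ℝ) + 1) * T) ^ p ≤ K ^ p * ((y : ℝ) + 2) ^ p * T ^ p := by
            rw [mul_pow, mul_pow]
            gcongr
            linarith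
          have h6 : (K * ((y : ℝ) + 2) * T) ^ p = K ^ p * ((y : ℝ) + 2) ^ p * T ^ p := by
            rw [mul_pow, mul_pow]
          have hone : (1 : ℝ) ≤ ((y : ℝ) + 2) ^ p := one_le_pow₀ (by linarith)
          have h7 : (m : ℝ) ^ (2 * p) ≤ 4 ^ p * ((y : ℝ) + 2) ^ p * T ^ p := by
            refine (hmq p).trans ?_
            have : 4 ^ p * T ^ p * 1 ≤ 4 ^ p * T ^ p * ((y : ℝ) + 2) ^ p :=
              mul_le_mul_of_nonneg_left hone (by positivity)
            calc (4 : ℝ) ^ p * T ^ p ≤ 4 ^ p * T ^ p * ((y : ℝ) + 2) ^ p := by linarith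
              _ = _ := by ring
          have hsum : Mo ρ β h n k p (y + 1) + Mo ρ β h n k p y + (m : ℝ) ^ (2 * p) ≤
              (2 * K ^ p + 4 ^ p) * ((y : ℝ) + 2) ^ p * T ^ p := by
            rw [h6] at h3
            have := h4.trans h5
            calc Mo ρ β h n k p (y + 1) + Mo ρ β h n k p y + (m : ℝ) ^ (2 * p) ≤
                K ^ p * ((y : ℝ) + 2) ^ p * T ^ p + K ^ p * ((y : ℝ) + 2) ^ p * T ^ p +
                  4 ^ p * ((y : ℝ) + 2) ^ p * T ^ p := by linarith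
              _ = _ := by ring
          have hsum0 : 0 ≤ Mo ρ β h n k p (y + 1) + Mo ρ β h n k p y + (m : ℝ) ^ (2 * p) := by
            have a1 : 0 ≤ Mo ρ β h n k p (y + 1) :=
              integral_nonneg fun η => (even_two_mul p).pow_nonneg _
            have a2 : 0 ≤ Mo ρ β h n k p y :=
              integral_nonneg fun η => (even_two_mul p).pow_nonneg _
            positivity
          have h8 : C * (m : ℝ) ^ 2 *
              (Mo ρ β h n k p (y + 1) + Mo ρ β h n k p y + (m : ℝ) ^ (2 * p)) ≤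
              D * ((y : ℝ) + 2) ^ p * T ^ (p + 1) := by
            calc C * (m : ℝ) ^ 2 *
                (Mo ρ β h n k p (y + 1) + Mo ρ β h n k p y + (m : ℝ) ^ (2 * p)) ≤
                |C| * (4 * T) *
                (Mo ρ β h n k p (y + 1) + Mo ρ β h n k p y + (m : ℝ) ^ (2 * p)) := by
                  refine mul_le_mul_of_nonneg_right ?_ hsum0
                  exact mul_le_mul (le_abs_self C) hmT (by positivity) (abs_nonneg C)
              _ ≤ |C| * (4 * T) * ((2 * K ^ p + 4 ^ p) * ((y : ℝ) + 2) ^ p * T ^ p) :=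
                  mul_le_mul_of_nonneg_left hsum (by positivity)
              _ = _ := by
                  rw [hD]
                  ring
          have h9 : (y : ℝ) * ((y : ℝ) + 1) ^ p ≤ y * ((y : ℝ) + 2) ^ p := by
            refine mul_le_mul_of_nonneg_left ?_ hy0
            exact pow_le_pow_left₀ (by linarith) (by linarith) p
          refine h1.trans ?_
          have h10 : (S' + D * (y * ((y : ℝ) + 1) ^ p)) * T ^ (p + 1) ≤
              (S' + D * (y * ((y : ℝ) + 2) ^ p)) * T ^ (p + 1) := by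
            refine mul_le_mul_of_nonneg_right ?_ (by positivity)
            have := mul_le_mul_of_nonneg_left h9 hD0
            linarith
          calc Mo ρ β h n k (p + 1) y + C * (m : ℝ) ^ 2 *
                (Mo ρ β h n k p (y + 1) + Mo ρ β h n k p y + (m : ℝ) ^ (2 * p)) ≤
              (S' + D * (y * ((y : ℝ) + 2) ^ p)) * T ^ (p + 1) +
                D * ((y : ℝ) + 2) ^ p * T ^ (p + 1) := add_le_add (h2.trans h10) h8
            _ = (S' + D * (((y + 1 : ℕ) : ℝ) * (((y + 1 : ℕ) : ℝ) + 1) ^ p)) * T ^ (p + 1) := by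
                rw [hY]
                push_cast
                ring
    refine hfin _ ((hind x hx).trans ?_)
    have h1 : S' + D * (x * ((x : ℝ) + 1) ^ p) ≤ L * ((x : ℝ) + 1) ^ (p + 1) := by
      have a1 : (1 : ℝ) ≤ ((x : ℝ) + 1) ^ (p + 1) := one_le_pow₀ (by linarith)
      have a2 : (x : ℝ) * ((x : ℝ) + 1) ^ p ≤ ((x : ℝ) + 1) ^ (p + 1) := by
        rw [pow_succ']
        exact mul_le_mul_of_nonneg_right (by linarith) (by positivity)
      have a3 : S' ≤ S' * ((x : ℝ) + 1) ^ (p + 1) := le_mul_of_one_le_right hS'0 a1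
      have a4 := mul_le_mul_of_nonneg_left a2 hD0
      have a5 : (S' + D) * ((x : ℝ) + 1) ^ (p + 1) ≤ L * ((x : ℝ) + 1) ^ (p + 1) := by
        refine mul_le_mul_of_nonneg_right ?_ (by positivity)
        have : 0 ≤ Cc * (n₀ : ℝ) ^ (2 * (p + 1)) := by positivity
        linarith
      linarith
    calc (S' + D * (x * ((x : ℝ) + 1) ^ p)) * T ^ (p + 1) ≤
        L * ((x : ℝ) + 1) ^ (p + 1) * T ^ (p + 1) :=
          mul_le_mul_of_nonneg_right h1 (by positivity)
      _ = _ := by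
          rw [mul_pow, mul_assoc]
  · have hlt : (n : ℝ) ≤ n₀ := by exact_mod_cast (not_le.1 hnn).le
    refine hfin _ (((hcr h n hn k x).2).trans ?_)
    have h1 : Cc * (n : ℝ) ^ (2 * (p + 1)) ≤ Cc * (n₀ : ℝ) ^ (2 * (p + 1)) :=
      mul_le_mul_of_nonneg_left (pow_le_pow_left₀ hn0.le hlt _) hCc0
    have h2 : Cc * (n₀ : ℝ) ^ (2 * (p + 1)) ≤ L := by linarith
    have h3 : L ≤ L * ((((x : ℝ) + 1) * T) ^ (p + 1)) :=
      le_mul_of_one_le_right (by linarith) (one_le_pow₀ hbase)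
    exact h1.trans (h2.trans h3)

/-- The spatial fluctuations are at most diffusive. -/
theorem spaceV (hd : 0 < d) (hρ : EM ρ) (β R : ℝ) (hS : StepV d ρ β R) (hN : NSV d ρ β R) :
    SpaceV d ρ β R := by
  have key : ∀ ε : ℝ, 0 < ε → ∀ p : ℕ, ∃ K : ℝ, 1 ≤ K ∧ ∀ h : Vec d, ‖h‖ ≤ R → ∀ n : ℕ, 1 ≤ n →
      ∀ (k : Fin d) (x : ℕ), x ≤ 5 * n →
        Mo ρ β h n k p x ≤ (K * ((x : ℝ) + 1) * (n : ℝ) ^ ε) ^ p := by
    intro ε hε p
    induction p with
    | zero =>
      refine ⟨1, le_rfl, fun h _ n _ k x _ => ?_⟩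
      rw [Mo_zero30, pow_zero]
    | succ p ih => exact step30 hd hρ hS hN hε p ih
  intro ε hε p
  obtain ⟨K, _, hK⟩ := key ε hε p
  exact ⟨K, hK⟩

end Pool.Agent.W_7d29a1_V.Space30
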