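import Pool.Agent.W_7d29a1_V.Abs60
import Pool.Agent.W_7d29a1_V.Lev14
import Pool.Agent.W_7d29a1_V.Space36

/-!
`2 χ ≤ ν*` in every dimension: one step of the source, one level.
-/

namespace Pool.Agent.W_7d29a1_V.Step60

open MeasureTheory ProbabilityTheory Filter Topology Pool.Agent.W_MP_7d29a1_pr
  Pool.Agent.W_7d29a1_h46 Pool.Agent.W_7d29a1_h46u Pool.Agent.W_7d29a1_D2
  Pool.Agent.W_7d29a1_D2.B35 Pool.Agent.W_7d29a1_V Pool.Agent.W_7d29a1_V.Abs60

variable {d : ℕ} {ρ : Measure ℝ} [IsProbabilityMeasure ρ]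

lemma sh_src0 (k : Fin d) (η : Env d) : sh 0 (src k 0) η = η := by
  funext p
  simp [sh, src]

lemma Us_zero (β : ℝ) (h : Vec d) (n : ℕ) (k : Fin d) (η : Env d) :
    Us β h n k 0 η = X β h η n := by
  unfold Us
  rw [sh_src0]

lemma logZa (hd : 0 < d) (β : ℝ) (h : Vec d) (n : ℕ) (k : Fin d) (a : ℝ) (x : ℕ) (η : Env d) :
    Real.log (Za β h n k a x η) = Us β h n k 0 η +
      Real.log (1 + Real.exp (Us β h n k x η - Us β h n k 0 η - a)) := by
  have h1 : Z β h η n = Real.exp (Us β h n k 0 η) := by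
    rw [Us_zero]
    unfold X
    rw [Real.exp_log (Z_pos hd β h η n)]
  have h2 : Z β h (sh 0 (src k x) η) n = Real.exp (Us β h n k x η) := by
    unfold Us X
    rw [Real.exp_log (Z_pos hd β h _ n)]
  have h3 : Za β h n k a x η = Real.exp (Us β h n k 0 η) *
      (1 + Real.exp (Us β h n k x η - Us β h n k 0 η - a)) := by
    unfold Za
    rw [h1, h2, mul_add, mul_one, ← Real.exp_add, ← Real.exp_add]
    congr 2
    ring
  rw [h3, Real.log_mul (Real.exp_pos _).ne' (by positivity), Real.log_exp]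

lemma l_lower (t : ℝ) : max t 0 ≤ Real.log (1 + Real.exp t) := by
  have h0 := Real.exp_pos t
  refine max_le ?_ (Real.log_nonneg (by linarith))
  rw [Real.le_log_iff_exp_le (by positivity)]
  linarith

lemma l_upper (t Γ : ℝ) : Real.log (1 + Real.exp t) ≤
    max t 0 + ((if |t| < Γ then (1 : ℝ) else 0) + Real.exp (-Γ)) := by
  have key : ∀ u : ℝ, 0 ≤ u → Real.log (1 + Real.exp (-u)) ≤
      (if u < Γ then (1 : ℝ) else 0) + Real.exp (-Γ) := by
    intro u hu
    have h1 : Real.log (1 + Real.exp (-u)) ≤ Real.exp (-u) := by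
      have := Real.log_le_sub_one_of_pos (show (0 : ℝ) < 1 + Real.exp (-u) by positivity)
      linarith
    refine h1.trans ?_
    by_cases hu' : u < Γ
    · rw [if_pos hu']
      have h2 : Real.exp (-u) ≤ 1 := Real.exp_le_one_iff.2 (by linarith)
      have h3 := Real.exp_pos (-Γ)
      linarith
    · rw [if_neg hu', zero_add]
      exact Real.exp_le_exp.2 (by linarith [not_lt.1 hu'])
  rcases le_total t 0 with ht | ht
  · have h1 := key (-t) (by linarith)
    rw [neg_neg] at h1
    rw [max_eq_right ht, abs_of_nonpos ht, zero_add]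
    exact h1
  · have h1 := key t ht
    rw [max_eq_left ht, abs_of_nonneg ht]
    have h2 : (1 : ℝ) + Real.exp t = Real.exp t * (1 + Real.exp (-t)) := by
      rw [mul_add, mul_one, ← Real.exp_add, add_neg_cancel, Real.exp_zero]
      ring
    rw [h2, Real.log_mul (Real.exp_pos _).ne' (by positivity), Real.log_exp]
    linarith

/-- The set of bad levels. -/
def BadS (β : ℝ) (h : Vec d) (n : ℕ) (k : Fin d) (x : ℕ) (g : ℝ) : Set (ℝ × Env d) :=
  {w | ¬ GdL β h n k x g w.1 w.2}

/-- One level. -/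
theorem level (hd : 0 < d) (hρ : EM ρ) (β : ℝ) (h : Vec d) (n : ℕ) (m0 : ℝ) (k : Fin d)
    (x : ℕ) (a : ℝ)
    (hL : MeasurePreserving (fun w : Env d × Env d => om β h k x a w.1 w.2)
      ((law d ρ).prod (law d ρ)) (law d ρ))
    {Γ e1 s M g : ℝ} (hΓ : 0 ≤ Γ) (he1 : 0 ≤ e1) (hs : 0 < s) {T : Set (Env d)}
    (hT : MeasurableSet T)
    (i2 : Integrable (fun η => (Real.log (Za β h n k a x η) - m0) ^ 2) (law d ρ))
    (i2' : Integrable (fun η => (Real.log (Za β h n k a (x - 1) η) - m0) ^ 2) (law d ρ))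
    (hM : ∫ η, (Real.log (Za β h n k a x η) - m0) ^ 2 ∂(law d ρ) +
      ∫ η, (Real.log (Za β h n k a (x - 1) η) - m0) ^ 2 ∂(law d ρ) ≤ 2 * M)
    (hc : ∀ η ξ : Env d, η ∉ T → GdL β h n k x g a η →
      Real.log (Za β h n k a x η) ≤ Real.log (Za β h n k a (x - 1) (om β h k x a η ξ)) +
        (Γ * (if |a - (Us β h n k x η - Us β h n k 0 η)| < Γ then (1 : ℝ) else 0) + e1)) :
    ∫ η, max (Us β h n k x η - Us β h n k 0 η - a) 0 ∂(law d ρ) -
      ∫ η, max (Us β h n k (x - 1) η - Us β h n k 0 η - a) 0 ∂(law d ρ) ≤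
      ∫ η, G (fun η => Us β h n k x η - Us β h n k 0 η)
        (fun η => Us β h n k (x - 1) η - Us β h n k 0 η) Γ (e1 + Real.exp (-Γ) + M / s) s
        (BadS β h n k x g) T a η ∂(law d ρ) := by
  classical
  set μ := law d ρ with hμ
  set B : Env d → ℝ := fun η => Us β h n k x η - Us β h n k 0 η with hB
  set B' : Env d → ℝ := fun η => Us β h n k (x - 1) η - Us β h n k 0 η with hB'
  have hBm : Measurable B := (Space36.meas_Us β h n k x).sub (Space36.meas_Us β h n k 0)
  have hBm' : Measurable B' := (Space36.meas_Us β h n k (x - 1)).sub (Space36.meas_Us β h n k 0)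
  have hU : ∀ y : ℕ, Integrable (fun η => Us β h n k y η) μ := by
    intro y
    exact (mp_sh 0 (src k y)).integrable_comp_of_integrable (concU hd hρ β h n).1
  have iU := hU 0
  have iB : Integrable B μ := (hU x).sub iU
  have iB' : Integrable B' μ := (hU (x - 1)).sub iU
  have hZm : ∀ y : ℕ, Measurable fun η : Env d => Real.log (Za β h n k a y η) := by
    intro y
    have h1 := (Lev14.measurable_Za14 β h n k y).comp
      (measurable_const.prodMk measurable_id : Measurable fun η : Env d => (a, η))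
    exact Real.measurable_log.comp h1
  -- integrability of the logarithms
  have iLg : ∀ y : ℕ, Integrable (fun η => Real.log (Za β h n k a y η)) μ := by
    intro y
    have hd1 : Integrable (fun η => |Us β h n k 0 η| + |Us β h n k y η - Us β h n k 0 η - a| + 2)
        μ := (iU.abs.add (((hU y).sub iU).sub (integrable_const a)).abs).add (integrable_const 2)
    refine Integrable.mono' hd1 (hZm y).aestronglyMeasurable (ae_of_all _ fun η => ?_)
    rw [Real.norm_eq_abs, logZa hd]
    have h1 := l_lower (Us β h n k y η - Us β h n k 0 η - a)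
    have h2 := l_upper (Us β h n k y η - Us β h n k 0 η - a) 0
    have h3 : ¬ |Us β h n k y η - Us β h n k 0 η - a| < 0 := not_lt.2 (abs_nonneg _)
    rw [if_neg h3, neg_zero, Real.exp_zero] at h2
    have h4 : 0 ≤ max (Us β h n k y η - Us β h n k 0 η - a) 0 := le_max_right _ _
    have h5 : max (Us β h n k y η - Us β h n k 0 η - a) 0 ≤
        |Us β h n k y η - Us β h n k 0 η - a| := max_le (le_abs_self _) (abs_nonneg _)
    have h6 := neg_abs_le (Us β h n k 0 η)
    have h7 := le_abs_self (Us β h n k 0 η)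
    rw [abs_le]
    constructor <;> linarith
  have iL := iLg x
  have iL' := iLg (x - 1)
  -- indicators
  have mBad : MeasurableSet (BadS β h n k x g) := Lev14.measurableSet_bad14 β h n k x g
  have mi : ∀ {b : Env d → ℝ}, Measurable b →
      Measurable fun η => (if |a - b η| < Γ then (1 : ℝ) else 0) := fun hb =>
    Measurable.ite (measurableSet_lt ((measurable_const.sub hb).abs) measurable_const)
      measurable_const measurable_const
  have bdd : ∀ {f : Env d → ℝ}, Measurable f → (∀ η, |f η| ≤ 1) → Integrable f μ := by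
    intro f hf hf1
    exact Integrable.mono' (integrable_const 1) hf.aestronglyMeasurable (ae_of_all _ hf1)
  have j1 : Integrable (fun η => (if |a - B η| < Γ then (1 : ℝ) else 0)) μ :=
    bdd (mi hBm) (fun η => ite_le_one _)
  have j2 : Integrable (fun η => (if |a - B' η| < Γ then (1 : ℝ) else 0)) μ :=
    bdd (mi hBm') (fun η => ite_le_one _)
  have j3 : Integrable (fun η => (BadS β h n k x g).indicator (fun _ => (1 : ℝ)) (a, η)) μ :=
    bdd ((measurable_const.indicator mBad).comp (measurable_const.prodMk measurable_id))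
      (fun η => ind_le_one _ _)
  have j4 : Integrable (fun η => T.indicator (fun _ => (1 : ℝ)) η) μ :=
    bdd (measurable_const.indicator hT) (fun η => ind_le_one _ _)
  set g0 : Env d → ℝ := fun η => Γ * (if |a - B η| < Γ then (1 : ℝ) else 0) + e1 +
    s * ((BadS β h n k x g).indicator (fun _ => (1 : ℝ)) (a, η) +
      T.indicator (fun _ => (1 : ℝ)) η) with hg0
  have ig0 : Integrable g0 μ :=
    ((j1.const_mul Γ).add (integrable_const e1)).add ((j3.add j4).const_mul s)
  -- the two sides
  have mm1 : Integrable (fun η => max (B η - a) 0) μ := (iB.sub (integrable_const a)).pos_part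
  have mm2 : Integrable (fun η => max (B' η - a) 0) μ := (iB'.sub (integrable_const a)).pos_part
  have s1 : ∫ η, max (B η - a) 0 ∂μ ≤ ∫ η, Real.log (Za β h n k a x η) ∂μ -
      ∫ η, Us β h n k 0 η ∂μ := by
    rw [← integral_sub iL iU]
    refine integral_mono mm1 (iL.sub iU) fun η => ?_
    change max (B η - a) 0 ≤ Real.log (Za β h n k a x η) - Us β h n k 0 η
    rw [logZa hd]
    have := l_lower (B η - a)
    rw [hB] at this ⊢
    simp only at this ⊢
    linarith
  have s2 : ∫ η, Real.log (Za β h n k a (x - 1) η) ∂μ - ∫ η, Us β h n k 0 η ∂μ ≤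
      ∫ η, max (B' η - a) 0 ∂μ + (∫ η, (if |a - B' η| < Γ then (1 : ℝ) else 0) ∂μ +
        Real.exp (-Γ)) := by
    have h1 : ∫ η, ((if |a - B' η| < Γ then (1 : ℝ) else 0) + Real.exp (-Γ)) ∂μ =
        ∫ η, (if |a - B' η| < Γ then (1 : ℝ) else 0) ∂μ + Real.exp (-Γ) := by
      rw [integral_add j2 (integrable_const _)]
      simp
    have h2 : Integrable (fun η => ((if |a - B' η| < Γ then (1 : ℝ) else 0) + Real.exp (-Γ))) μ :=
      j2.add (integrable_const _)
    rw [← integral_sub iL' iU, ← h1, ← integral_add mm2 h2]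
    refine integral_mono (iL'.sub iU) (mm2.add h2) fun η => ?_
    change Real.log (Za β h n k a (x - 1) η) - Us β h n k 0 η ≤ max (B' η - a) 0 +
      ((if |a - B' η| < Γ then (1 : ℝ) else 0) + Real.exp (-Γ))
    rw [logZa hd, abs_sub_comm a (B' η)]
    have := l_upper (B' η - a) Γ
    rw [hB'] at this ⊢
    simp only at this ⊢
    linarith
  -- the cost
  set P2 := μ.prod μ with hP2
  have hfst : MeasurePreserving (fun w : Env d × Env d => w.1) P2 μ := measurePreserving_fst
  have t1 : ∫ w, Real.log (Za β h n k a x w.1) ∂P2 = ∫ η, Real.log (Za β h n k a x η) ∂μ :=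
    LawU_integral hfst (F := fun η => Real.log (Za β h n k a x η)) (hZm x).aestronglyMeasurable
  have t2 : ∫ w, Real.log (Za β h n k a (x - 1) (om β h k x a w.1 w.2)) ∂P2 =
      ∫ η, Real.log (Za β h n k a (x - 1) η) ∂μ :=
    LawU_integral hL (F := fun η => Real.log (Za β h n k a (x - 1) η))
      (hZm (x - 1)).aestronglyMeasurable
  have t3 : ∫ w, g0 w.1 ∂P2 = ∫ η, g0 η ∂μ :=
    LawU_integral hfst (F := g0) ig0.aestronglyMeasurable
  have t4 : ∫ w, (Real.log (Za β h n k a x w.1) - m0) ^ 2 ∂P2 =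
      ∫ η, (Real.log (Za β h n k a x η) - m0) ^ 2 ∂μ :=
    LawU_integral hfst (F := fun η => (Real.log (Za β h n k a x η) - m0) ^ 2)
      i2.aestronglyMeasurable
  have t5 : ∫ w, (Real.log (Za β h n k a (x - 1) (om β h k x a w.1 w.2)) - m0) ^ 2 ∂P2 =
      ∫ η, (Real.log (Za β h n k a (x - 1) η) - m0) ^ 2 ∂μ :=
    LawU_integral hL (F := fun η => (Real.log (Za β h n k a (x - 1) η) - m0) ^ 2)
      i2'.aestronglyMeasurable
  have u1 : Integrable (fun w : Env d × Env d => Real.log (Za β h n k a x w.1)) P2 :=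
    hfst.integrable_comp_of_integrable iL
  have u2 : Integrable (fun w : Env d × Env d =>
      Real.log (Za β h n k a (x - 1) (om β h k x a w.1 w.2))) P2 :=
    hL.integrable_comp_of_integrable iL'
  have u3 : Integrable (fun w : Env d × Env d => g0 w.1) P2 :=
    hfst.integrable_comp_of_integrable ig0
  have u4 : Integrable (fun w : Env d × Env d =>
      (Real.log (Za β h n k a x w.1) - m0) ^ 2) P2 :=
    hfst.integrable_comp_of_integrable i2
  have u5 : Integrable (fun w : Env d × Env d =>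
      (Real.log (Za β h n k a (x - 1) (om β h k x a w.1 w.2)) - m0) ^ 2) P2 :=
    hL.integrable_comp_of_integrable i2'
  have hpt : ∀ w : Env d × Env d, Real.log (Za β h n k a x w.1) -
      Real.log (Za β h n k a (x - 1) (om β h k x a w.1 w.2)) ≤ g0 w.1 +
      (1 / (2 * s)) * ((Real.log (Za β h n k a x w.1) - m0) ^ 2 +
        (Real.log (Za β h n k a (x - 1) (om β h k x a w.1 w.2)) - m0) ^ 2) := by
    rintro ⟨η, ξ⟩
    simp only
    set L1 := Real.log (Za β h n k a x η)
    set L2 := Real.log (Za β h n k a (x - 1) (om β h k x a η ξ))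
    have hq : 0 ≤ (1 / (2 * s)) * ((L1 - m0) ^ 2 + (L2 - m0) ^ 2) := by positivity
    have hb0 : 0 ≤ (BadS β h n k x g).indicator (fun _ => (1 : ℝ)) (a, η) := by
      unfold Set.indicator
      split_ifs <;> norm_num
    have ht0 : 0 ≤ T.indicator (fun _ => (1 : ℝ)) η := by
      unfold Set.indicator
      split_ifs <;> norm_num
    have hi0 : 0 ≤ Γ * (if |a - B η| < Γ then (1 : ℝ) else 0) := by
      refine mul_nonneg hΓ ?_
      split_ifs <;> norm_num
    have hamgm : L1 - L2 ≤ s + (1 / (2 * s)) * ((L1 - m0) ^ 2 + (L2 - m0) ^ 2) := by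
      have h1 : (1 / (2 * s)) * ((L1 - m0) ^ 2 + (L2 - m0) ^ 2) =
          ((L1 - m0) ^ 2 + (L2 - m0) ^ 2) / (2 * s) := by ring
      rw [h1, ← sub_le_iff_le_add', le_div_iff₀ (by positivity)]
      nlinarith [sq_nonneg ((L1 - m0) - s), sq_nonneg ((L2 - m0) + s)]
    by_cases hη : η ∈ T
    · have h1 : T.indicator (fun _ => (1 : ℝ)) η = 1 := Set.indicator_of_mem hη _
      rw [hg0]
      simp only
      rw [h1]
      nlinarith
    · by_cases hGd : GdL β h n k x g a η
      · have h1 := hc η ξ hη hGd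
        have h2 : 0 ≤ s * ((BadS β h n k x g).indicator (fun _ => (1 : ℝ)) (a, η) +
          T.indicator (fun _ => (1 : ℝ)) η) := by positivity
        rw [hg0]
        simp only
        linarith
      · have h1 : (BadS β h n k x g).indicator (fun _ => (1 : ℝ)) (a, η) = 1 :=
          Set.indicator_of_mem (show (a, η) ∈ BadS β h n k x g from hGd) _
        rw [hg0]
        simp only
        rw [h1]
        nlinarith
  have hcost : ∫ η, Real.log (Za β h n k a x η) ∂μ - ∫ η, Real.log (Za β h n k a (x - 1) η) ∂μ ≤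
      ∫ η, g0 η ∂μ + M / s := by
    rw [← t1, ← t2, ← integral_sub u1 u2]
    have v1 : Integrable (fun w : Env d × Env d => (1 / (2 * s)) *
      ((Real.log (Za β h n k a x w.1) - m0) ^ 2 +
        (Real.log (Za β h n k a (x - 1) (om β h k x a w.1 w.2)) - m0) ^ 2)) P2 :=
      (u4.add u5).const_mul _
    refine (integral_mono (u1.sub u2) (u3.add v1) hpt).trans ?_
    simp only [Pi.add_apply]
    rw [integral_add u3 v1, integral_const_mul, integral_add u4 u5, t3, t4, t5]
    have h1 : (1 / (2 * s)) * (∫ η, (Real.log (Za β h n k a x η) - m0) ^ 2 ∂μ +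
        ∫ η, (Real.log (Za β h n k a (x - 1) η) - m0) ^ 2 ∂μ) ≤
        (1 / (2 * s)) * (2 * M) := mul_le_mul_of_nonneg_left hM (by positivity)
    have h2 : (1 / (2 * s)) * (2 * M) = M / s := by
      field_simp
    linarith
  have hG : ∫ η, G B B' Γ (e1 + Real.exp (-Γ) + M / s) s (BadS β h n k x g) T a η ∂μ =
      ∫ η, g0 η ∂μ + ∫ η, (if |a - B' η| < Γ then (1 : ℝ) else 0) ∂μ +
        (Real.exp (-Γ) + M / s) := by
    have h1 : ∫ _η : Env d, (Real.exp (-Γ) + M / s) ∂μ = Real.exp (-Γ) + M / s := by simp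
    have h2 : Integrable (fun η => g0 η + (if |a - B' η| < Γ then (1 : ℝ) else 0)) μ :=
      ig0.add j2
    have h3 : ∫ η, G B B' Γ (e1 + Real.exp (-Γ) + M / s) s (BadS β h n k x g) T a η ∂μ =
        ∫ η, ((g0 η + (if |a - B' η| < Γ then (1 : ℝ) else 0)) + (Real.exp (-Γ) + M / s)) ∂μ := by
      refine integral_congr_ae (ae_of_all _ fun η => ?_)
      simp only [G, hg0]
      ring
    rw [h3, integral_add h2 (integrable_const _), integral_add ig0 j2, h1]
  rw [hG]
  linarith

end Pool.Agent.W_7d29a1_V.Step60
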