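import Pool.Agent.W_7d29a1_V.DefsV2
import Pool.Agent.W_7d29a1_D2.TrF53

/-!
`2 χ# ≤ ν*` at every tilt and every velocity, from the statement `VarV`.
-/

namespace Pool.Agent.W_7d29a1_V

open MeasureTheory ProbabilityTheory Filter Topology Pool.Agent.W_MP_7d29a1_pr
  Pool.Agent.W_7d29a1_h46 Pool.Agent.W_7d29a1_h46u Pool.Agent.W_7d29a1_D2

variable {d : ℕ} {Ω : Type*} [MeasurableSpace Ω] {μ : Measure Ω} [IsProbabilityMeasure μ]
  {ρ : Measure ℝ} [IsProbabilityMeasure ρ] {ω : ℕ × Site d → Ω → ℝ}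

/-- `2 χ# ≤ ν*` at every tilt and every velocity, in every dimension. -/
theorem V_main_of (hd : 0 < d) (hω : IID μ ρ ω) (hρ : EM ρ) (β : ℝ)
    (hV : ∀ R : ℝ, VarV d ρ β R) (h v : Vec d) :
    2 * chiF μ β ω h ≤ nuS μ β ω h v := by
  refine le_csInf ⟨2, StrB_two_mem hd ω β h v⟩ fun a ha => ?_
  obtain ⟨ha0, hT⟩ := (mem_nuSetS hω h v a).1 ha
  rcases lt_or_ge a 1 with ha1 | ha1
  · have h1 : chiF μ β ω h ≤ a / 2 := by
      refine le_of_forall_gt_imp_ge_of_dense fun x hx => ?_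
      have hx0 : 0 < x := by linarith
      exact csInf_le (bddBelow_chiSetF h) ((mem_chiSetF hd hω hρ h x).2
        ⟨hx0, hV ‖h‖ h v le_rfl a x ha0 ha1 hT (by linarith)⟩)
    linarith
  · have h1 := chiF_le_half (β := β) hd hω hρ h
    linarith

end Pool.Agent.W_7d29a1_V
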