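import Pool.Agent.W_7d29a1_V.VMainN53
import Pool.Agent.W_7d29a1_V.NsV26

/-!
`2 χ# ≤ ν*` at every tilt and every velocity, in every dimension.
-/

namespace Pool.Agent.W_7d29a1_V

open MeasureTheory ProbabilityTheory Filter Topology Pool.Agent.W_MP_7d29a1_pr
  Pool.Agent.W_7d29a1_h46 Pool.Agent.W_7d29a1_h46u Pool.Agent.W_7d29a1_D2

variable {d : ℕ} {Ω : Type*} [MeasurableSpace Ω] {μ : Measure Ω} [IsProbabilityMeasure μ]
  {ρ : Measure ℝ} [IsProbabilityMeasure ρ] {ω : ℕ × Site d → Ω → ℝ}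

/-- The spatial fluctuations are at most diffusive. -/
theorem spaceV_all53 (hd : 0 < d) (hρ : EM ρ) (β R : ℝ) : SpaceV d ρ β R :=
  spaceV_of_ns hd hρ β R (Ns26.nsV hd hρ β R)

/-- `2 χ# ≤ ν*` at every tilt and every velocity, in every dimension. -/
theorem V_main (hd : 0 < d) (hω : IID μ ρ ω) (hρ : EM ρ) (β : ℝ) (h v : Vec d) :
    2 * chiF μ β ω h ≤ nuS μ β ω h v :=
  V_main_of_ns hd hω hρ β (fun R => Ns26.nsV hd hρ β R) h v

end Pool.Agent.W_7d29a1_V
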