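import Pool.Agent.W_7d29a1_V.VMain53
import Pool.Agent.W_7d29a1_V.VarV75
import Pool.Agent.W_7d29a1_V.Space36

/-!
`2 χ# ≤ ν*` at every tilt and every velocity, from `StepV` and `NSV`.
-/

namespace Pool.Agent.W_7d29a1_V

open MeasureTheory ProbabilityTheory Filter Topology Pool.Agent.W_MP_7d29a1_pr
  Pool.Agent.W_7d29a1_h46 Pool.Agent.W_7d29a1_h46u Pool.Agent.W_7d29a1_D2

variable {d : ℕ} {Ω : Type*} [MeasurableSpace Ω] {μ : Measure Ω} [IsProbabilityMeasure μ]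
  {ρ : Measure ℝ} [IsProbabilityMeasure ρ] {ω : ℕ × Site d → Ω → ℝ}

/-- From the spatial fluctuations. -/
theorem V_main_of_space (hd : 0 < d) (hω : IID μ ρ ω) (hρ : EM ρ) (β : ℝ)
    (hS : ∀ R : ℝ, SpaceV d ρ β R) (h v : Vec d) :
    2 * chiF μ β ω h ≤ nuS μ β ω h v :=
  V_main_of hd hω hρ β (fun R => varV75 hd hρ β R (hS R)) h v

/-- From one step of the source and the absence of steep places. -/
theorem V_main_of_step (hd : 0 < d) (hω : IID μ ρ ω) (hρ : EM ρ) (β : ℝ)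
    (hSt : ∀ R : ℝ, StepV d ρ β R) (hN : ∀ R : ℝ, NSV d ρ β R) (h v : Vec d) :
    2 * chiF μ β ω h ≤ nuS μ β ω h v :=
  V_main_of_space hd hω hρ β (fun R => Space36.spaceV hd hρ β R (hSt R) (hN R)) h v

end Pool.Agent.W_7d29a1_V
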