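import Pool.Agent.W_7d29a1_V.DefsV2

/-!
`VarV` from `TubeV`: the tube of radius `n ^ a`.
-/

namespace Pool.Agent.W_7d29a1_V

open MeasureTheory ProbabilityTheory Filter Topology Pool.Agent.W_MP_7d29a1_pr
  Pool.Agent.W_7d29a1_h46 Pool.Agent.W_7d29a1_h46u Pool.Agent.W_7d29a1_D2

variable {d : ℕ} {ρ : Measure ℝ} {β R : ℝ}

/-- `VarV` is the case `W = n ^ a` of `TubeV`. -/
theorem varV_of_tubeV (hT : TubeV d ρ β R) : VarV d ρ β R := by
  intro h v hh a x ha0 ha1 hTb hax q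
  have hε : 0 < x - a / 2 := by linarith
  obtain ⟨Q, C, hC⟩ := hT (x - a / 2) q hε
  obtain ⟨C₁, hC₁⟩ := hTb (Q + 1)
  set F : ℕ → ℝ := fun n => ∫ η, |X β h η n - A ρ β h n| ^ q ∂(law d ρ) with hF
  have hF0 : ∀ n, 0 ≤ F n := fun n => integral_nonneg fun η => pow_nonneg (abs_nonneg _) _
  set N : ℕ := ⌈C₁⌉₊ with hN
  have hx0 : 0 < x := by linarith
  refine ⟨|C ^ q| + ∑ n ∈ Finset.range (N + 1), F n, fun n hn => ?_⟩
  have hn1 : (1 : ℝ) ≤ n := by exact_mod_cast hn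
  have hn0 : (0 : ℝ) < n := by linarith
  have hp1 : (1 : ℝ) ≤ (n : ℝ) ^ (x * q) := Real.one_le_rpow hn1 (by positivity)
  have hS0 : 0 ≤ ∑ n ∈ Finset.range (N + 1), F n := Finset.sum_nonneg fun n _ => hF0 n
  have hA0 : 0 ≤ |C ^ q| := abs_nonneg _
  rcases lt_or_ge n (N + 1) with hnN | hnN
  · have h1 : F n ≤ ∑ n ∈ Finset.range (N + 1), F n :=
      Finset.single_le_sum (f := F) (fun i _ => hF0 i) (Finset.mem_range.2 hnN)
    calc F n ≤ (|C ^ q| + ∑ n ∈ Finset.range (N + 1), F n) * 1 := by linarith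
      _ ≤ (|C ^ q| + ∑ n ∈ Finset.range (N + 1), F n) * (n : ℝ) ^ (x * q) :=
        mul_le_mul_of_nonneg_left hp1 (by positivity)
  · have hnC : C₁ ≤ n := by
      have h1 : (N : ℝ) ≤ n := by exact_mod_cast (Nat.le_succ N).trans hnN
      exact (Nat.le_ceil C₁).trans h1
    have hW1 : (1 : ℝ) ≤ (n : ℝ) ^ a := Real.one_le_rpow hn1 ha0.le
    have hWn : (n : ℝ) ^ a ≤ n := by
      calc (n : ℝ) ^ a ≤ (n : ℝ) ^ (1 : ℝ) := Real.rpow_le_rpow_of_exponent_le hn1 ha1.le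
        _ = n := Real.rpow_one _
    have hsm : ∫ η, (1 - PolT β h η (tube d n v ((n : ℝ) ^ a))) ∂(law d ρ) ≤
        (n : ℝ) ^ (-(Q : ℝ)) := by
      refine (hC₁ n hn).trans ?_
      have h1 : (n : ℝ) ^ (-(((Q + 1 : ℕ)) : ℝ)) = (n : ℝ) ^ (-(Q : ℝ)) * (n : ℝ)⁻¹ := by
        rw [← Real.rpow_neg_one, ← Real.rpow_add hn0]
        congr 1
        push_cast
        ring
      rw [h1]
      have h2 : 0 ≤ (n : ℝ) ^ (-(Q : ℝ)) := Real.rpow_nonneg hn0.le _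
      have h3 : C₁ * (n : ℝ)⁻¹ ≤ 1 := by
        rw [← div_eq_mul_inv, div_le_one hn0]
        exact hnC
      nlinarith
    have h1 := hC h hh v n hn ((n : ℝ) ^ a) hW1 hWn hsm
    have h2 : (C * Real.sqrt ((n : ℝ) ^ a) * (n : ℝ) ^ (x - a / 2)) ^ q =
        C ^ q * (n : ℝ) ^ (x * q) := by
      have h3 : Real.sqrt ((n : ℝ) ^ a) = (n : ℝ) ^ (a / 2) := by
        rw [Real.sqrt_eq_rpow, ← Real.rpow_mul hn0.le]
        congr 1
        ring
      rw [h3, mul_assoc, ← Real.rpow_add hn0, mul_pow, ← Real.rpow_natCast ((n : ℝ) ^ _) q,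
        ← Real.rpow_mul hn0.le]
      congr 2
      ring
    rw [h2] at h1
    have h4 : C ^ q * (n : ℝ) ^ (x * q) ≤ |C ^ q| * (n : ℝ) ^ (x * q) :=
      mul_le_mul_of_nonneg_right (le_abs_self _) (by positivity)
    have h5 : 0 ≤ (∑ n ∈ Finset.range (N + 1), F n) * (n : ℝ) ^ (x * q) := by positivity
    calc F n ≤ C ^ q * (n : ℝ) ^ (x * q) := h1
      _ ≤ |C ^ q| * (n : ℝ) ^ (x * q) := h4
      _ ≤ (|C ^ q| + ∑ n ∈ Finset.range (N + 1), F n) * (n : ℝ) ^ (x * q) := by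
        rw [add_mul]
        linarith

end Pool.Agent.W_7d29a1_V
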