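import Pool.Agent.W_7d29a1_V.DefsV2

/-!
Words of free steps and insertions: the states, linearity, positivity, and the point to point
partition function as a word of free steps.
-/

namespace Pool.Agent.W_7d29a1_V.WordA99

open MeasureTheory ProbabilityTheory Filter Topology Pool.Agent.W_MP_7d29a1_pr
  Pool.Agent.W_7d29a1_h46 Pool.Agent.W_7d29a1_h46u Pool.Agent.W_7d29a1_D2
  Pool.Agent.W_7d29a1_D2.B35 Pool.Agent.W_7d29a1_V

variable {d : ℕ}

/-- The weight of one step, arriving at `y`. -/
noncomputable def w1 (β : ℝ) (h : Vec d) (η : Env d) (s : Step d) (y : Site d) : ℝ :=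
  Real.exp (inner ℝ h (emb (vec s)) + β * η (1, y))

lemma w1_pos (β : ℝ) (h : Vec d) (η : Env d) (s : Step d) (y : Site d) : 0 < w1 β h η s y :=
  Real.exp_pos _

/-- One free step. -/
noncomputable def stp (β : ℝ) (h : Vec d) (η : Env d) (c : Site d → ℝ) (y : Site d) : ℝ :=
  ∑ s : Step d, c (y - vec s) * w1 β h η s y

/-- One insertion of the vector `e` and its opposite. -/
noncomputable def insr (β : ℝ) (e : Site d) (η : Env d) (c : Site d → ℝ) (y : Site d) : ℝ :=
  c y * Real.exp (β * (η (1, y + e) + η (2, y)))

/-- The state after a word of free steps (`false`) and insertions (`true`). -/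
noncomputable def St (β : ℝ) (h : Vec d) (e : Site d) :
    List Bool → Env d → (Site d → ℝ) → Site d → ℝ
  | [], _, c => c
  | false :: W, η, c => St β h e W (sh 1 0 η) (stp β h η c)
  | true :: W, η, c => St β h e W (sh 2 0 η) (insr β e η c)

variable (β : ℝ) (h : Vec d) (e : Site d)

lemma stp_add (η : Env d) (c c' : Site d → ℝ) :
    stp β h η (c + c') = stp β h η c + stp β h η c' := by
  funext y
  simp only [stp, Pi.add_apply, add_mul, Finset.sum_add_distrib]

lemma stp_smul (η : Env d) (a : ℝ) (c : Site d → ℝ) :
    stp β h η (a • c) = a • stp β h η c := by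
  funext y
  simp only [stp, Pi.smul_apply, smul_eq_mul, mul_assoc, Finset.mul_sum]

lemma insr_add (η : Env d) (c c' : Site d → ℝ) :
    insr β e η (c + c') = insr β e η c + insr β e η c' := by
  funext y
  simp only [insr, Pi.add_apply, add_mul]

lemma insr_smul (η : Env d) (a : ℝ) (c : Site d → ℝ) :
    insr β e η (a • c) = a • insr β e η c := by
  funext y
  simp only [insr, Pi.smul_apply, smul_eq_mul, mul_assoc]

lemma St_add (W : List Bool) : ∀ (η : Env d) (c c' : Site d → ℝ),
    St β h e W η (c + c') = St β h e W η c + St β h e W η c' := by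
  induction W with
  | nil => intro η c c'; rfl
  | cons b W ih =>
    intro η c c'
    cases b with
    | false => simp only [St]; rw [stp_add, ih]
    | true => simp only [St]; rw [insr_add, ih]

lemma St_smul (W : List Bool) : ∀ (η : Env d) (a : ℝ) (c : Site d → ℝ),
    St β h e W η (a • c) = a • St β h e W η c := by
  induction W with
  | nil => intro η a c; rfl
  | cons b W ih =>
    intro η a c
    cases b with
    | false => simp only [St]; rw [stp_smul, ih]
    | true => simp only [St]; rw [insr_smul, ih]

lemma St_zero' (W : List Bool) (η : Env d) : St β h e W η 0 = 0 := by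
  have := St_smul β h e W η 0 0
  rwa [zero_smul, zero_smul] at this

lemma St_sum (W : List Bool) (η : Env d) {ι : Type*} (s : Finset ι) (c : ι → Site d → ℝ) :
    St β h e W η (∑ i ∈ s, c i) = ∑ i ∈ s, St β h e W η (c i) := by
  classical
  induction s using Finset.induction_on with
  | empty => rw [Finset.sum_empty, Finset.sum_empty, St_zero']
  | insert i s hi ih => rw [Finset.sum_insert hi, Finset.sum_insert hi, St_add, ih]

lemma stp_nonneg (η : Env d) {c : Site d → ℝ} (hc : ∀ y, 0 ≤ c y) (y : Site d) :
    0 ≤ stp β h η c y :=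
  Finset.sum_nonneg fun s _ => mul_nonneg (hc _) (w1_pos β h η s y).le

lemma insr_nonneg (η : Env d) {c : Site d → ℝ} (hc : ∀ y, 0 ≤ c y) (y : Site d) :
    0 ≤ insr β e η c y := mul_nonneg (hc _) (Real.exp_pos _).le

lemma St_nonneg (W : List Bool) : ∀ (η : Env d) {c : Site d → ℝ} (_ : ∀ y, 0 ≤ c y) (y : Site d),
    0 ≤ St β h e W η c y := by
  induction W with
  | nil => intro η c hc y; exact hc y
  | cons b W ih =>
    intro η c hc y
    cases b with
    | false => exact ih _ (stp_nonneg β h η hc) y
    | true => exact ih _ (insr_nonneg β e η hc) y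

lemma St_mono (W : List Bool) (η : Env d) {c c' : Site d → ℝ} (hc : ∀ y, c y ≤ c' y) (y : Site d) :
    St β h e W η c y ≤ St β h e W η c' y := by
  have h1 : c' = c + (c' - c) := by abel
  rw [h1, St_add, Pi.add_apply]
  have := St_nonneg β h e W η (c := c' - c) (fun y => sub_nonneg.2 (hc y)) y
  linarith

lemma stp_congr {η η' : Env d} (hη : ∀ y, η (1, y) = η' (1, y)) (c : Site d → ℝ) :
    stp β h η c = stp β h η' c := by
  funext y
  simp only [stp, w1, hη]

lemma St_congr (W : List Bool) : ∀ {η η' : Env d} (_ : ∀ i y, η (i + 1, y) = η' (i + 1, y))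
    (c : Site d → ℝ), St β h e W η c = St β h e W η' c := by
  induction W with
  | nil => intro η η' _ c; rfl
  | cons b W ih =>
    intro η η' hη c
    cases b with
    | false =>
      simp only [St]
      rw [stp_congr β h (fun y => hη 0 y)]
      exact ih (fun i y => hη (i + 1) (y + 0)) _
    | true =>
      simp only [St]
      have h1 : insr β e η c = insr β e η' c := by
        funext y
        simp only [insr]
        rw [show η (1, y + e) = η' (1, y + e) from hη 0 _, show η (2, y) = η' (2, y) from hη 1 _]
      rw [h1]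
      exact ih (fun i y => hη (i + 2) (y + 0)) _

/-- The word vanishes with the support. -/
lemma St_pos (W : List Bool) : ∀ (η η' : Env d) {c c' : Site d → ℝ} (_ : ∀ y, 0 ≤ c y)
    (_ : ∀ y, 0 ≤ c' y) (_ : ∀ y, 0 < c' y → 0 < c y) (z : Site d),
    0 < St β h e (List.replicate (W.count false) false) η' c' z → 0 < St β h e W η c z := by
  induction W with
  | nil => intro η η' c c' _ _ h3 z hz; exact h3 z hz
  | cons b W ih =>
    intro η η' c c' h1 h2 h3 z hz
    cases b with
    | false =>
      rw [List.count_cons_self, List.replicate_succ] at hz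
      refine ih _ _ (stp_nonneg β h η h1) (stp_nonneg β h η' h2) (fun y hy => ?_) z hz
      obtain ⟨s, -, hs⟩ := Finset.exists_lt_of_sum_lt (s := Finset.univ) (f := fun _ : Step d => (0 : ℝ))
        (g := fun s => c' (y - vec s) * w1 β h η' s y) (by rw [Finset.sum_const_zero]; exact hy)
      have h4 : 0 < c' (y - vec s) := pos_of_mul_pos_left hs (w1_pos β h η' s y).le
      exact Finset.sum_pos' (fun s _ => mul_nonneg (h1 _) (w1_pos β h η s y).le)
        ⟨s, Finset.mem_univ _, mul_pos (h3 _ h4) (w1_pos β h η s y)⟩
    | true =>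
      rw [List.count_cons_of_ne (by decide)] at hz
      exact ih _ _ (insr_nonneg β e η h1) h2 (fun y hy => mul_pos (h3 y hy) (Real.exp_pos _)) z hz

/-- Two states with the same support vanish together. -/
lemma St_zero (W : List Bool) : ∀ (η : Env d) {c c' : Site d → ℝ} (_ : ∀ y, 0 ≤ c y)
    (_ : ∀ y, c y = 0 → c' y = 0) (z : Site d), St β h e W η c z = 0 →
    St β h e W η c' z = 0 := by
  induction W with
  | nil => intro η c c' _ h3 z hz; exact h3 z hz
  | cons b W ih =>
    intro η c c' h1 h3 z hz
    cases b with
    | false =>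
      refine ih _ (stp_nonneg β h η h1) (fun y hy => ?_) z hz
      have h4 := (Finset.sum_eq_zero_iff_of_nonneg
        (fun s _ => mul_nonneg (h1 _) (w1_pos β h η s y).le)).1 hy
      refine Finset.sum_eq_zero fun s hs => ?_
      have h5 := (mul_eq_zero.1 (h4 s hs)).resolve_right (w1_pos β h η s y).ne'
      rw [h3 _ h5, zero_mul]
    | true =>
      refine ih _ (insr_nonneg β e η h1) (fun y hy => ?_) z hz
      have h5 := (mul_eq_zero.1 hy).resolve_right (Real.exp_pos _).ne'
      change c' y * _ = 0
      rw [h3 _ h5, zero_mul]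

/-- One free step from a point. -/
lemma stp_single (η : Env d) (x : Site d) :
    stp β h η (Pi.single x 1) =
      ∑ s : Step d, w1 β h η s (x + vec s) • (Pi.single (x + vec s) 1 : Site d → ℝ) := by
  classical
  funext y
  rw [Finset.sum_apply]
  refine Finset.sum_congr rfl fun s _ => ?_
  rw [Pi.smul_apply, smul_eq_mul]
  by_cases hy : y = x + vec s
  · subst hy
    rw [add_sub_cancel_right, Pi.single_eq_same, Pi.single_eq_same, one_mul, mul_one]
  · rw [Pi.single_eq_of_ne hy, Pi.single_eq_of_ne (fun h => hy (by rw [← h]; abel)), zero_mul,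
      mul_zero]

/-- One insertion at a point. -/
lemma insr_single (η : Env d) (x : Site d) :
    insr β e η (Pi.single x 1) =
      Real.exp (β * (η (1, x + e) + η (2, x))) • (Pi.single x 1 : Site d → ℝ) := by
  classical
  funext y
  rw [Pi.smul_apply, smul_eq_mul]
  by_cases hy : y = x
  · subst hy
    rw [insr, Pi.single_eq_same, one_mul, mul_one]
  · rw [insr, Pi.single_eq_of_ne hy, zero_mul, mul_zero]

/-- The word from the point `x` to the point `z`. -/
noncomputable def K (z : Site d) (W : List Bool) (η : Env d) (x : Site d) : ℝ :=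
  St β h e W η (Pi.single x 1) z

lemma K_nonneg (z : Site d) (W : List Bool) (η : Env d) (x : Site d) :
    0 ≤ K β h e z W η x := by
  classical
  refine St_nonneg β h e W η (fun y => ?_) z
  by_cases hy : y = x
  · subst hy; rw [Pi.single_eq_same]; exact zero_le_one
  · rw [Pi.single_eq_of_ne hy]

lemma K_false (z : Site d) (W : List Bool) (η : Env d) (x : Site d) :
    K β h e z (false :: W) η x =
      ∑ s : Step d, w1 β h η s (x + vec s) * K β h e z W (sh 1 0 η) (x + vec s) := by
  simp only [K, St]
  rw [stp_single, St_sum, Finset.sum_apply]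
  refine Finset.sum_congr rfl fun s _ => ?_
  rw [St_smul, Pi.smul_apply, smul_eq_mul]

lemma K_true (z : Site d) (W : List Bool) (η : Env d) (x : Site d) :
    K β h e z (true :: W) η x =
      Real.exp (β * (η (1, x + e) + η (2, x))) * K β h e z W (sh 2 0 η) x := by
  simp only [K, St]
  rw [insr_single, St_smul, Pi.smul_apply, smul_eq_mul]

lemma PP_zero (η : Env d) (z : Site d) : PP β h η 0 z = (Pi.single 0 1 : Site d → ℝ) z := by
  classical
  unfold PP ZT
  rw [Fintype.sum_unique]
  have h1 : ∀ s : Fin 0 → Step d, pos s 0 = 0 := fun s => by simp [pos]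
  by_cases hz : z = 0
  · subst hz
    rw [if_pos (show (default : Fin 0 → Step d) ∈ {s : Fin 0 → Step d | pos s 0 = 0} from h1 _),
      Pi.single_eq_same]
    have h2 : emb (pos (default : Fin 0 → Step d) 0) = (0 : Vec d) := by
      rw [h1]; ext j; simp [emb]
    rw [wgt, h2, inner_zero_right, energy]
    simp
  · rw [Pi.single_eq_of_ne hz, if_neg]
    intro h3
    have h3 : pos (default : Fin 0 → Step d) 0 = z := h3
    exact hz (by rw [← h3, h1])

/-- The first step decomposition. -/
lemma PP_succ (η : Env d) (t : ℕ) (z : Site d) :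
    PP β h η (t + 1) z =
      ∑ s : Step d, w1 β h η s (vec s) * PP β h (sh 1 (vec s) η) t (z - vec s) := by
  classical
  rw [add_comm t 1]
  unfold PP ZT
  rw [sum_glue]
  rw [← (Equiv.funUnique (Fin 1) (Step d)).symm.sum_comp]
  refine Finset.sum_congr rfl fun s _ => ?_
  have h1 : pos ((Equiv.funUnique (Fin 1) (Step d)).symm s) 1 = vec s := by
    simp [pos]
  have h2 : wgt β h η ((Equiv.funUnique (Fin 1) (Step d)).symm s) = w1 β h η s (vec s) := by
    rw [wgt, h1, w1, energy]
    simp only [Finset.univ_unique, Fin.default_eq_zero, Finset.sum_singleton]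
    rw [show ((0 : Fin 1) : ℕ) + 1 = 1 from rfl, h1]
  rw [Finset.mul_sum]
  refine Finset.sum_congr rfl fun q _ => ?_
  by_cases hq : pos q t = z - vec s
  · rw [if_pos (show q ∈ {q : Fin t → Step d | pos q t = z - vec s} from hq), if_pos, wgt_glue, h1,
      h2]
    change pos (Fin.append _ q) (1 + t) = z
    rw [pos_glue_add, h1, hq]
    abel
  · rw [if_neg (show q ∉ {q : Fin t → Step d | pos q t = z - vec s} from hq), mul_zero, if_neg]
    intro h3
    have h3 : pos (Fin.append ((Equiv.funUnique (Fin 1) (Step d)).symm s) q) (1 + t) = z := h3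
    rw [pos_glue_add, h1] at h3
    exact hq (by rw [← h3]; abel)

lemma PP_eq_K (z : Site d) : ∀ (t : ℕ) (η : Env d) (x : Site d),
    K β h e z (List.replicate t false) η x = PP β h (sh 0 x η) t (z - x) := by
  classical
  intro t
  induction t with
  | zero =>
    intro η x
    rw [PP_zero]
    change (Pi.single x 1 : Site d → ℝ) z = (Pi.single 0 1 : Site d → ℝ) (z - x)
    by_cases hz : z = x
    · subst hz; rw [sub_self, Pi.single_eq_same, Pi.single_eq_same]
    · rw [Pi.single_eq_of_ne hz, Pi.single_eq_of_ne (sub_ne_zero.2 hz)]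
  | succ t ih =>
    intro η x
    rw [List.replicate_succ, K_false, PP_succ]
    refine Finset.sum_congr rfl fun s _ => ?_
    rw [ih]
    congr 1
    · unfold w1 sh
      simp only
      rw [add_comm (vec s) x]
    · have h1 : sh 0 (x + vec s) (sh 1 0 η) = sh 1 (vec s) (sh 0 x η) := by
        funext p
        unfold sh
        simp only
        congr 1
        ext
        · simp
        · simp only [Pi.add_apply, Pi.zero_apply]
          ring
      rw [h1]
      congr 1
      abel

lemma PP_eq_K0 (z : Site d) (t : ℕ) (η : Env d) :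
    K β h e z (List.replicate t false) η 0 = PP β h η t z := by
  rw [PP_eq_K, sub_zero]
  congr 1
  funext p
  unfold sh
  simp

end Pool.Agent.W_7d29a1_V.WordA99
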