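import Pool.Agent.W_7d29a1_V.WordA99

/-!
Words of free steps and insertions: the sum over all words of length `t` ending at `z` is at most
`2 ^ (t - |z|)` times the point to point partition function.
-/

namespace Pool.Agent.W_7d29a1_V.WordB99

open MeasureTheory ProbabilityTheory Filter Topology Pool.Agent.W_MP_7d29a1_pr
  Pool.Agent.W_7d29a1_h46 Pool.Agent.W_7d29a1_h46u Pool.Agent.W_7d29a1_D2
  Pool.Agent.W_7d29a1_D2.B35 Pool.Agent.W_7d29a1_V Pool.Agent.W_7d29a1_V.WordA99

variable {d : ℕ}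

lemma l1_add_le (a b : Site d) : l1 (a + b) ≤ l1 a + l1 b := by
  unfold l1
  rw [← Finset.sum_add_distrib]
  exact Finset.sum_le_sum fun i _ => Int.natAbs_add_le _ _

lemma l1_vec (s : Step d) : l1 (vec s) = 1 := by
  classical
  unfold l1 vec
  rw [Finset.sum_eq_single s.1]
  · rw [Pi.single_eq_same]
    split_ifs <;> rfl
  · intro i _ hi
    rw [Pi.single_eq_of_ne hi]
    rfl
  · intro h
    exact absurd (Finset.mem_univ _) h

lemma l1_step (z x : Site d) (s : Step d) : l1 (z - x) ≤ l1 (z - (x + vec s)) + 1 := by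
  have h1 : z - x = (z - (x + vec s)) + vec s := by abel
  rw [h1]
  exact (l1_add_le _ _).trans (by rw [l1_vec])

lemma vec_neg (i : Fin d) : vec (i, false) = -vec (i, true) := by
  unfold vec
  simp [Pi.single_neg]

lemma emb_neg' (x : Site d) : emb (-x) = -emb x := by
  ext j
  simp [emb]

/-- The two steps of an insertion as free steps. -/
lemma ins_eq (β : ℝ) (h : Vec d) (i : Fin d) (η : Env d) (x : Site d) :
    Real.exp (β * (η (1, x + vec (i, true)) + η (2, x))) =
      w1 β h η (i, true) (x + vec (i, true)) * w1 β h (sh 1 0 η) (i, false) x := by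
  rw [w1, w1, ← Real.exp_add, vec_neg, emb_neg', inner_neg_right]
  congr 1
  unfold sh
  simp only [add_zero]
  ring

variable (β : ℝ) (h : Vec d) (i₀ : Fin d)

/-- The sum over all words of total length `t`, from `x` to `z`. -/
noncomputable def g (z : Site d) : ℕ → Env d → Site d → ℝ
  | 0, _, x => (Pi.single x 1 : Site d → ℝ) z
  | 1, η, x => ∑ s : Step d, w1 β h η s (x + vec s) *
      (Pi.single (x + vec s) 1 : Site d → ℝ) z
  | t + 2, η, x => ∑ s : Step d, w1 β h η s (x + vec s) * g z (t + 1) (sh 1 0 η) (x + vec s) +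
      Real.exp (β * (η (1, x + vec (i₀, true)) + η (2, x))) * g z t (sh 2 0 η) x

lemma single_nonneg' (x z : Site d) : 0 ≤ (Pi.single x 1 : Site d → ℝ) z := by
  classical
  by_cases hz : z = x
  · subst hz; rw [Pi.single_eq_same]; exact zero_le_one
  · rw [Pi.single_eq_of_ne hz]

lemma g_nonneg (z : Site d) : ∀ (t : ℕ) (η : Env d) (x : Site d), 0 ≤ g β h i₀ z t η x
  | 0, _, x => single_nonneg' x z
  | 1, η, x => Finset.sum_nonneg fun s _ => mul_nonneg (w1_pos β h η s _).le (single_nonneg' _ z)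
  | t + 2, η, x => add_nonneg
      (Finset.sum_nonneg fun s _ => mul_nonneg (w1_pos β h η s _).le (g_nonneg z (t + 1) _ _))
      (mul_nonneg (Real.exp_pos _).le (g_nonneg z t _ _))

lemma g_one (z : Site d) (η : Env d) (x : Site d) : g β h i₀ z 1 η x =
    ∑ s : Step d, w1 β h η s (x + vec s) * g β h i₀ z 0 (sh 1 0 η) (x + vec s) := rfl

lemma g_two (z : Site d) (t : ℕ) (η : Env d) (x : Site d) : g β h i₀ z (t + 2) η x =
    ∑ s : Step d, w1 β h η s (x + vec s) * g β h i₀ z (t + 1) (sh 1 0 η) (x + vec s) +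
      Real.exp (β * (η (1, x + vec (i₀, true)) + η (2, x))) * g β h i₀ z t (sh 2 0 η) x := rfl

lemma g_false (z : Site d) (t : ℕ) (η : Env d) (x : Site d) :
    ∑ s : Step d, w1 β h η s (x + vec s) * g β h i₀ z t (sh 1 0 η) (x + vec s) ≤
      g β h i₀ z (t + 1) η x := by
  cases t with
  | zero => exact (g_one β h i₀ z η x).ge
  | succ t =>
    rw [g_two]
    exact le_add_of_nonneg_right (mul_nonneg (Real.exp_pos _).le (g_nonneg β h i₀ z t _ _))

lemma g_true (z : Site d) (t : ℕ) (η : Env d) (x : Site d) :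
    Real.exp (β * (η (1, x + vec (i₀, true)) + η (2, x))) * g β h i₀ z t (sh 2 0 η) x ≤
      g β h i₀ z (t + 2) η x := by
  rw [g_two]
  exact le_add_of_nonneg_left
    (Finset.sum_nonneg fun s _ => mul_nonneg (w1_pos β h η s _).le (g_nonneg β h i₀ z _ _ _))

/-- The factor. -/
noncomputable def E (z : Site d) (t : ℕ) (x : Site d) : ℝ :=
  Real.exp (((t : ℝ) - l1 (z - x)) * Real.log 2)

lemma E_pos (z : Site d) (t : ℕ) (x : Site d) : 0 < E z t x := Real.exp_pos _

lemma E_step (z : Site d) (t : ℕ) (x : Site d) (s : Step d) :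
    E z t (x + vec s) ≤ E z (t + 1) x := by
  unfold E
  apply Real.exp_le_exp.2
  apply mul_le_mul_of_nonneg_right _ (Real.log_nonneg one_le_two)
  have h1 : (l1 (z - x) : ℝ) ≤ l1 (z - (x + vec s)) + 1 := by exact_mod_cast l1_step z x s
  push_cast
  linarith

lemma E_two (z : Site d) (t : ℕ) (x : Site d) : 2 * E z t x ≤ E z (t + 2) x := by
  have h1 : E z (t + 2) x = 4 * E z t x := by
    unfold E
    have h2 : (((t + 2 : ℕ) : ℝ) - l1 (z - x)) * Real.log 2 =
        Real.log 4 + ((t : ℝ) - l1 (z - x)) * Real.log 2 := by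
      have h3 : Real.log 4 = 2 * Real.log 2 := by
        rw [show (4 : ℝ) = 2 ^ 2 by norm_num, Real.log_pow]
        norm_num
      rw [h3]
      push_cast
      ring
    rw [h2, Real.exp_add, Real.exp_log (by norm_num)]
  rw [h1]
  have := E_pos z t x
  linarith

/-- The free walks. -/
noncomputable def P (z : Site d) (t : ℕ) (η : Env d) (x : Site d) : ℝ :=
  K β h (vec (i₀, true)) z (List.replicate t false) η x

lemma P_nonneg (z : Site d) (t : ℕ) (η : Env d) (x : Site d) : 0 ≤ P β h i₀ z t η x :=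
  K_nonneg _ _ _ _ _ _ _

lemma P_succ (z : Site d) (t : ℕ) (η : Env d) (x : Site d) :
    P β h i₀ z (t + 1) η x =
      ∑ s : Step d, w1 β h η s (x + vec s) * P β h i₀ z t (sh 1 0 η) (x + vec s) := by
  rw [P, List.replicate_succ, K_false]
  rfl

lemma P_zero (z : Site d) (η : Env d) (x : Site d) :
    P β h i₀ z 0 η x = (Pi.single x 1 : Site d → ℝ) z := rfl

/-- The contribution of a first step. -/
lemma A_zero (z : Site d) (η : Env d) (x : Site d) :
    g β h i₀ z 0 η x ≤ E z 0 x * P β h i₀ z 0 η x := by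
  classical
  rw [P_zero, g]
  by_cases hz : z = x
  · subst hz
    rw [Pi.single_eq_same, mul_one, E, sub_self]
    have h1 : l1 (0 : Site d) = 0 := by simp [l1]
    rw [h1]
    simp
  · rw [Pi.single_eq_of_ne hz, mul_zero]

/-- From the bounds of the contributions of the first steps to the two bounds. -/
lemma comb (z : Site d) (t : ℕ) (η : Env d) (x : Site d) (J : ℝ)
    (hg : g β h i₀ z (t + 1) η x =
      ∑ s : Step d, w1 β h η s (x + vec s) * g β h i₀ z t (sh 1 0 η) (x + vec s) + J)
    (hA : ∀ s : Step d, s ≠ (i₀, true) → g β h i₀ z t (sh 1 0 η) (x + vec s) ≤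
      E z (t + 1) x * P β h i₀ z t (sh 1 0 η) (x + vec s))
    (hB : w1 β h η (i₀, true) (x + vec (i₀, true)) *
        g β h i₀ z t (sh 1 0 η) (x + vec (i₀, true)) + J ≤
      E z (t + 1) x * (w1 β h η (i₀, true) (x + vec (i₀, true)) *
        P β h i₀ z t (sh 1 0 η) (x + vec (i₀, true)))) :
    g β h i₀ z (t + 1) η x ≤ E z (t + 1) x * P β h i₀ z (t + 1) η x ∧
    g β h i₀ z (t + 1) η x - w1 β h η (i₀, false) (x + vec (i₀, false)) *
        g β h i₀ z t (sh 1 0 η) (x + vec (i₀, false)) ≤
      E z (t + 1) x * (P β h i₀ z (t + 1) η x - w1 β h η (i₀, false) (x + vec (i₀, false)) *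
        P β h i₀ z t (sh 1 0 η) (x + vec (i₀, false))) := by
  classical
  set G : Step d → ℝ := fun s => w1 β h η s (x + vec s) *
    g β h i₀ z t (sh 1 0 η) (x + vec s) with hG
  set Q : Step d → ℝ := fun s => w1 β h η s (x + vec s) *
    P β h i₀ z t (sh 1 0 η) (x + vec s) with hQ
  have hE := E_pos z (t + 1) x
  have h1 : ∀ s : Step d, s ≠ (i₀, true) → G s ≤ E z (t + 1) x * Q s := by
    intro s hs
    have := mul_le_mul_of_nonneg_left (hA s hs) (w1_pos β h η s (x + vec s)).le
    calc G s ≤ w1 β h η s (x + vec s) * (E z (t + 1) x *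
          P β h i₀ z t (sh 1 0 η) (x + vec s)) := this
      _ = E z (t + 1) x * Q s := by rw [hQ]; ring
  have hne : ((i₀, false) : Step d) ≠ (i₀, true) := by simp
  have h2 : ∑ s : Step d, G s = G (i₀, true) + (G (i₀, false) +
      ∑ s ∈ (Finset.univ.erase (i₀, true)).erase (i₀, false), G s) := by
    rw [Finset.add_sum_erase _ _ (Finset.mem_erase.2 ⟨hne, Finset.mem_univ _⟩),
      Finset.add_sum_erase _ _ (Finset.mem_univ _)]
  have h3 : ∑ s : Step d, Q s = Q (i₀, true) + (Q (i₀, false) +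
      ∑ s ∈ (Finset.univ.erase (i₀, true)).erase (i₀, false), Q s) := by
    rw [Finset.add_sum_erase _ _ (Finset.mem_erase.2 ⟨hne, Finset.mem_univ _⟩),
      Finset.add_sum_erase _ _ (Finset.mem_univ _)]
  have h4 : ∑ s ∈ (Finset.univ.erase (i₀, true)).erase (i₀, false), G s ≤
      E z (t + 1) x * ∑ s ∈ (Finset.univ.erase (i₀, true)).erase (i₀, false), Q s := by
    rw [Finset.mul_sum]
    refine Finset.sum_le_sum fun s hs => h1 s ?_
    exact Finset.ne_of_mem_erase (Finset.mem_of_mem_erase hs)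
  have h5 := h1 _ hne
  have h6 : P β h i₀ z (t + 1) η x = ∑ s : Step d, Q s := P_succ β h i₀ z t η x
  have h7 : G (i₀, true) + J ≤ E z (t + 1) x * Q (i₀, true) := hB
  have h8 : g β h i₀ z (t + 1) η x = ∑ s : Step d, G s + J := hg
  change _ ∧ g β h i₀ z (t + 1) η x - G (i₀, false) ≤
    E z (t + 1) x * (P β h i₀ z (t + 1) η x - Q (i₀, false))
  rw [h8, h6, h2, h3]
  constructor
  · nlinarith [h4, h5, h7]
  · nlinarith [h4, h5, h7]

lemma P_sub (z : Site d) (t : ℕ) (η : Env d) (x : Site d) (s : Step d) :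
    0 ≤ P β h i₀ z (t + 1) η x - w1 β h η s (x + vec s) *
      P β h i₀ z t (sh 1 0 η) (x + vec s) := by
  rw [P_succ, sub_nonneg]
  exact Finset.single_le_sum (f := fun s => w1 β h η s (x + vec s) *
      P β h i₀ z t (sh 1 0 η) (x + vec s))
    (fun s _ => mul_nonneg (w1_pos β h η s _).le (P_nonneg β h i₀ z t _ _)) (Finset.mem_univ s)

theorem main (z : Site d) : ∀ t : ℕ,
    (∀ η x, g β h i₀ z t η x ≤ E z t x * P β h i₀ z t η x) ∧
    (∀ η x, g β h i₀ z (t + 1) η x ≤ E z (t + 1) x * P β h i₀ z (t + 1) η x) ∧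
    (∀ η x, g β h i₀ z (t + 1) η x - w1 β h η (i₀, false) (x + vec (i₀, false)) *
        g β h i₀ z t (sh 1 0 η) (x + vec (i₀, false)) ≤
      E z (t + 1) x * (P β h i₀ z (t + 1) η x - w1 β h η (i₀, false) (x + vec (i₀, false)) *
        P β h i₀ z t (sh 1 0 η) (x + vec (i₀, false)))) := by
  intro t
  induction t with
  | zero =>
    have h0 : ∀ η x, g β h i₀ z 0 η x ≤ E z 0 x * P β h i₀ z 0 η x := A_zero β h i₀ z
    have h1 : ∀ (η : Env d) (x : Site d) (s : Step d), g β h i₀ z 0 (sh 1 0 η) (x + vec s) ≤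
        E z (0 + 1) x * P β h i₀ z 0 (sh 1 0 η) (x + vec s) := fun η x s =>
      (h0 _ _).trans (mul_le_mul_of_nonneg_right (E_step z 0 x s) (P_nonneg β h i₀ z _ _ _))
    have h2 := fun η x => comb β h i₀ z 0 η x 0 (by rw [add_zero]; rfl) (fun s _ => h1 η x s) (by
      rw [add_zero]
      have := mul_le_mul_of_nonneg_left (h1 η x (i₀, true))
        (w1_pos β h η (i₀, true) (x + vec (i₀, true))).le
      linarith)
    exact ⟨h0, fun η x => (h2 η x).1, fun η x => (h2 η x).2⟩
  | succ t ih =>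
    obtain ⟨iA, iA', iB⟩ := ih
    have h1 : ∀ (η : Env d) (x : Site d) (s : Step d),
        g β h i₀ z (t + 1) (sh 1 0 η) (x + vec s) ≤
        E z (t + 1 + 1) x * P β h i₀ z (t + 1) (sh 1 0 η) (x + vec s) := fun η x s =>
      (iA' _ _).trans (mul_le_mul_of_nonneg_right (E_step z (t + 1) x s) (P_nonneg β h i₀ z _ _ _))
    have h2 := fun η x => comb β h i₀ z (t + 1) η x
      (Real.exp (β * (η (1, x + vec (i₀, true)) + η (2, x))) * g β h i₀ z t (sh 2 0 η) x)
      (g_two β h i₀ z t η x) (fun s _ => h1 η x s) (by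
      rw [ins_eq β h]
      have hb := iB (sh 1 0 η) (x + vec (i₀, true))
      have hx : x + vec (i₀, true) + vec (i₀, false) = x := by rw [vec_neg]; abel
      have hs : sh 1 0 (sh 1 0 η) = sh 2 0 η := by
        funext p
        unfold sh
        simp only [add_zero, add_assoc, Nat.reduceAdd]
      rw [hx, hs] at hb
      have ha := iA (sh 2 0 η) x
      have hp := P_sub β h i₀ z t (sh 1 0 η) (x + vec (i₀, true)) (i₀, false)
      rw [hx, hs] at hp
      have hE1 := E_step z (t + 1) x (i₀, true)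
      have hE2 := E_two z t x
      have hw := w1_pos β h η (i₀, true) (x + vec (i₀, true))
      have hw' := w1_pos β h (sh 1 0 η) (i₀, false) x
      have hP := P_nonneg β h i₀ z t (sh 2 0 η) x
      set w := w1 β h η (i₀, true) (x + vec (i₀, true))
      set w' := w1 β h (sh 1 0 η) (i₀, false) x
      set G1 := g β h i₀ z (t + 1) (sh 1 0 η) (x + vec (i₀, true))
      set G0 := g β h i₀ z t (sh 2 0 η) x
      set P1 := P β h i₀ z (t + 1) (sh 1 0 η) (x + vec (i₀, true))
      set P0 := P β h i₀ z t (sh 2 0 η) x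
      have e1 : G1 + w' * G0 ≤ E z (t + 1 + 1) x * P1 := by
        have e2 : G1 - w' * G0 ≤ E z (t + 1 + 1) x * (P1 - w' * P0) :=
          hb.trans (mul_le_mul_of_nonneg_right hE1 hp)
        have e3 : 2 * (w' * G0) ≤ E z (t + 1 + 1) x * (w' * P0) := by
          have e4 : w' * G0 ≤ w' * (E z t x * P0) := mul_le_mul_of_nonneg_left ha hw'.le
          have e5 : (2 * E z t x) * (w' * P0) ≤ E z (t + 2) x * (w' * P0) :=
            mul_le_mul_of_nonneg_right hE2 (mul_nonneg hw'.le hP)
          have e6 : E z (t + 2) x = E z (t + 1 + 1) x := rfl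
          rw [← e6]
          linarith
        linarith
      have e7 := mul_le_mul_of_nonneg_left e1 hw.le
      linarith)
    exact ⟨iA', fun η x => (h2 η x).1, fun η x => (h2 η x).2⟩

/-- The words with `n` free steps and `k` insertions. -/
def wds : ℕ → ℕ → Finset (List Bool)
  | 0, 0 => {[]}
  | n + 1, 0 => (wds n 0).image (List.cons false)
  | 0, k + 1 => (wds 0 k).image (List.cons true)
  | n + 1, k + 1 => (wds n (k + 1)).image (List.cons false) ∪
      (wds (n + 1) k).image (List.cons true)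

lemma wds_disj (A B : Finset (List Bool)) :
    Disjoint (A.image (List.cons false)) (B.image (List.cons true)) := by
  rw [Finset.disjoint_left]
  intro W h1 h2
  obtain ⟨a, -, ha⟩ := Finset.mem_image.1 h1
  obtain ⟨b, -, hb⟩ := Finset.mem_image.1 h2
  rw [← hb] at ha
  simp at ha

lemma sum_cons (A : Finset (List Bool)) (b : Bool) (F : List Bool → ℝ) :
    ∑ W ∈ A.image (List.cons b), F W = ∑ W ∈ A, F (b :: W) :=
  Finset.sum_image fun x _ y _ hxy => by simpa using hxy

lemma card_cons (A : Finset (List Bool)) (b : Bool) :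
    (A.image (List.cons b)).card = A.card :=
  Finset.card_image_of_injective _ (List.cons_injective)

lemma wds_card : ∀ n k : ℕ, (wds n k).card = (n + k).choose k
  | 0, 0 => by simp [wds]
  | n + 1, 0 => by
    rw [wds, card_cons, wds_card n 0]
    simp
  | 0, k + 1 => by
    rw [wds, card_cons, wds_card 0 k]
    simp
  | n + 1, k + 1 => by
    rw [wds, Finset.card_union_of_disjoint (wds_disj _ _), card_cons, card_cons,
      wds_card n (k + 1), wds_card (n + 1) k]
    rw [show n + 1 + (k + 1) = (n + 1 + k) + 1 by ring, Nat.choose_succ_succ, add_comm]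
    congr 2
    ring

lemma wds_count : ∀ n k : ℕ, ∀ W ∈ wds n k, W.count false = n ∧ W.count true = k
  | 0, 0 => by
    intro W hW
    rw [wds, Finset.mem_singleton] at hW
    subst hW
    simp
  | n + 1, 0 => by
    intro W hW
    rw [wds] at hW
    obtain ⟨V, hV, rfl⟩ := Finset.mem_image.1 hW
    have := wds_count n 0 V hV
    simp [this.1, this.2]
  | 0, k + 1 => by
    intro W hW
    rw [wds] at hW
    obtain ⟨V, hV, rfl⟩ := Finset.mem_image.1 hW
    have := wds_count 0 k V hV
    simp [this.1, this.2]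
  | n + 1, k + 1 => by
    intro W hW
    rw [wds] at hW
    rcases Finset.mem_union.1 hW with hW | hW
    · obtain ⟨V, hV, rfl⟩ := Finset.mem_image.1 hW
      have := wds_count n (k + 1) V hV
      simp [this.1, this.2]
    · obtain ⟨V, hV, rfl⟩ := Finset.mem_image.1 hW
      have := wds_count (n + 1) k V hV
      simp [this.1, this.2]

/-- The sum over the words with a given number of insertions. -/
lemma sum_false (A : Finset (List Bool)) (z : Site d) (η : Env d) (x : Site d) (t : ℕ)
    (hA : ∀ η x, ∑ W ∈ A, K β h (vec (i₀, true)) z W η x ≤ g β h i₀ z t η x) :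
    ∑ W ∈ A.image (List.cons false), K β h (vec (i₀, true)) z W η x ≤
      ∑ s : Step d, w1 β h η s (x + vec s) * g β h i₀ z t (sh 1 0 η) (x + vec s) := by
  rw [sum_cons]
  simp only [K_false]
  rw [Finset.sum_comm]
  refine Finset.sum_le_sum fun s _ => ?_
  rw [← Finset.mul_sum]
  exact mul_le_mul_of_nonneg_left (hA _ _) (w1_pos β h η s _).le

lemma sum_true (A : Finset (List Bool)) (z : Site d) (η : Env d) (x : Site d) (t : ℕ)
    (hA : ∀ η x, ∑ W ∈ A, K β h (vec (i₀, true)) z W η x ≤ g β h i₀ z t η x) :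
    ∑ W ∈ A.image (List.cons true), K β h (vec (i₀, true)) z W η x ≤
      Real.exp (β * (η (1, x + vec (i₀, true)) + η (2, x))) * g β h i₀ z t (sh 2 0 η) x := by
  rw [sum_cons]
  simp only [K_true]
  rw [← Finset.mul_sum]
  exact mul_le_mul_of_nonneg_left (hA _ _) (Real.exp_pos _).le

lemma sum_le_g (z : Site d) : ∀ (n k : ℕ) (η : Env d) (x : Site d),
    ∑ W ∈ wds n k, K β h (vec (i₀, true)) z W η x ≤ g β h i₀ z (n + 2 * k) η x
  | 0, 0, η, x => by
    rw [wds, Finset.sum_singleton]
    exact le_rfl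
  | n + 1, 0, η, x => by
    rw [wds]
    exact (sum_false β h i₀ _ z η x (n + 2 * 0) (fun η x => sum_le_g z n 0 η x)).trans
      (g_false β h i₀ z _ η x)
  | 0, k + 1, η, x => by
    rw [wds]
    exact (sum_true β h i₀ _ z η x (0 + 2 * k) (fun η x => sum_le_g z 0 k η x)).trans
      (g_true β h i₀ z _ η x)
  | n + 1, k + 1, η, x => by
    rw [wds, Finset.sum_union (wds_disj _ _)]
    have h1 := sum_false β h i₀ _ z η x (n + 2 * (k + 1)) (fun η x => sum_le_g z n (k + 1) η x)
    have h2 := sum_true β h i₀ _ z η x (n + 1 + 2 * k) (fun η x => sum_le_g z (n + 1) k η x)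
    have h3 : n + 1 + 2 * (k + 1) = (n + 1 + 2 * k) + 2 := by ring
    have h4 : n + 2 * (k + 1) = (n + 1 + 2 * k) + 1 := by ring
    rw [h3, g_two, ← h4]
    exact add_le_add h1 h2

/-- TASK 1: the sum over the words with `k` insertions. -/
theorem sum_le_PP (z : Site d) (n k : ℕ) (η : Env d) :
    ∑ W ∈ wds n k, K β h (vec (i₀, true)) z W η 0 ≤
      Real.exp ((((n + 2 * k : ℕ) : ℝ) - l1 z) * Real.log 2) * PP β h η (n + 2 * k) z := by
  have h1 := sum_le_g β h i₀ z n k η 0
  have h2 := (main β h i₀ z (n + 2 * k)).1 η 0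
  rw [P, PP_eq_K0, E, sub_zero] at h2
  exact h1.trans h2

end Pool.Agent.W_7d29a1_V.WordB99
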