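import Pool.Agent.W_7d29a1_V.WordA99
import Pool.Agent.W_7d29a1_h46u.LawU

/-!
Words of free steps and insertions: each insertion costs at most a constant in the mean of the
logarithm.
-/

namespace Pool.Agent.W_7d29a1_V.WordC99

open MeasureTheory ProbabilityTheory Filter Topology Pool.Agent.W_MP_7d29a1_pr
  Pool.Agent.W_7d29a1_h46 Pool.Agent.W_7d29a1_h46u Pool.Agent.W_7d29a1_D2
  Pool.Agent.W_7d29a1_D2.B35 Pool.Agent.W_7d29a1_V Pool.Agent.W_7d29a1_V.WordA99

variable {d : ℕ} {ρ : Measure ℝ}

/-- Functions which vanish or are bounded above and below by exponentials of finitely many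
sites. -/
def Mild (F : Env d → ℝ) : Prop := Measurable F ∧ ((∀ η, F η = 0) ∨
  ∃ (A : ℝ) (P : Finset (ℕ × Site d)), 0 ≤ A ∧ ∀ η : Env d,
    Real.exp (-(A + A * ∑ p ∈ P, |η p|)) ≤ F η ∧ F η ≤ Real.exp (A + A * ∑ p ∈ P, |η p|))

lemma Mild.const {a : ℝ} (ha : 0 ≤ a) : Mild (fun _ : Env d => a) := by
  refine ⟨measurable_const, ?_⟩
  rcases ha.eq_or_lt with h | h
  · exact Or.inl fun _ => h.symm
  · refine Or.inr ⟨|Real.log a|, ∅, abs_nonneg _, fun η => ?_⟩
    rw [Finset.sum_empty, mul_zero, add_zero]
    have h1 := Real.exp_log h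
    constructor
    · calc Real.exp (-|Real.log a|) ≤ Real.exp (Real.log a) :=
          Real.exp_le_exp.2 (neg_abs_le _)
        _ = a := h1
    · calc a = Real.exp (Real.log a) := h1.symm
        _ ≤ _ := Real.exp_le_exp.2 (le_abs_self _)

lemma sum_le_of_sub {P Q : Finset (ℕ × Site d)} (hPQ : P ⊆ Q) (η : Env d) :
    ∑ p ∈ P, |η p| ≤ ∑ p ∈ Q, |η p| :=
  Finset.sum_le_sum_of_subset_of_nonneg hPQ fun _ _ _ => abs_nonneg _

lemma Mild.mul_exp {F : Env d → ℝ} (hF : Mild F) (a b : ℝ) (q : ℕ × Site d) :
    Mild (fun η => F η * Real.exp (a + b * η q)) := by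
  classical
  have hm : Measurable fun η : Env d => Real.exp (a + b * η q) := by
    have h00 : Measurable fun η : Env d => η q := measurable_pi_apply q
    have h0 : Measurable fun η : Env d => a + b * η q :=
      measurable_const.add (h00.const_mul b)
    exact h0.exp
  refine ⟨hF.1.mul hm, ?_⟩
  rcases hF.2 with h | ⟨A, P, hA, h⟩
  · exact Or.inl fun η => by simp only [h η, zero_mul]
  · refine Or.inr ⟨A + |a| + |b|, insert q P, by positivity, fun η => ?_⟩
    have h1 : ∑ p ∈ P, |η p| ≤ ∑ p ∈ insert q P, |η p| :=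
      sum_le_of_sub (Finset.subset_insert _ _) η
    have h2 : |η q| ≤ ∑ p ∈ insert q P, |η p| :=
      Finset.single_le_sum (f := fun p => |η p|) (fun _ _ => abs_nonneg _)
        (Finset.mem_insert_self _ _)
    have h0 : 0 ≤ ∑ p ∈ P, |η p| := Finset.sum_nonneg fun _ _ => abs_nonneg _
    set S := ∑ p ∈ insert q P, |η p|
    set S' := ∑ p ∈ P, |η p|
    have h3 : |b * η q| ≤ |b| * S := by
      rw [abs_mul]; exact mul_le_mul_of_nonneg_left h2 (abs_nonneg _)
    have h4 : |a + b * η q| ≤ |a| + |b| * S := (abs_add_le _ _).trans (by linarith)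
    have h5 : A * S' ≤ A * S := mul_le_mul_of_nonneg_left h1 hA
    have h6 : A + A * S' + |a + b * η q| ≤
        (A + |a| + |b|) + (A + |a| + |b|) * S := by
      have h7 : 0 ≤ |a| * S := mul_nonneg (abs_nonneg _) (h0.trans h1)
      have h8 : 0 ≤ |b| := abs_nonneg _
      nlinarith
    constructor
    · calc Real.exp (-((A + |a| + |b|) + (A + |a| + |b|) * S))
          ≤ Real.exp (-(A + A * S') + (a + b * η q)) := by
            apply Real.exp_le_exp.2
            have := neg_abs_le (a + b * η q)
            linarith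
        _ = Real.exp (-(A + A * S')) * Real.exp (a + b * η q) := Real.exp_add _ _
        _ ≤ _ := mul_le_mul_of_nonneg_right (h η).1 (Real.exp_pos _).le
    · calc F η * Real.exp (a + b * η q)
          ≤ Real.exp (A + A * S') * Real.exp (a + b * η q) :=
            mul_le_mul_of_nonneg_right (h η).2 (Real.exp_pos _).le
        _ = Real.exp (A + A * S' + (a + b * η q)) := (Real.exp_add _ _).symm
        _ ≤ _ := by
            apply Real.exp_le_exp.2
            have := le_abs_self (a + b * η q)
            linarith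

lemma Mild.nonneg {F : Env d → ℝ} (hF : Mild F) (η : Env d) : 0 ≤ F η := by
  rcases hF.2 with h | ⟨A, P, hA, h⟩
  · exact (h η).ge
  · exact (Real.exp_pos _).le.trans (h η).1

lemma Mild.add {F G : Env d → ℝ} (hF : Mild F) (hG : Mild G) :
    Mild (fun η => F η + G η) := by
  classical
  refine ⟨hF.1.add hG.1, ?_⟩
  rcases hF.2 with h | ⟨A, P, hA, h⟩
  · rcases hG.2 with h' | ⟨B, Q, hB, h'⟩
    · exact Or.inl fun η => by simp only [h η, h' η, add_zero]
    · exact Or.inr ⟨B, Q, hB, fun η => by simp only [h η, zero_add]; exact h' η⟩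
  · rcases hG.2 with h' | ⟨B, Q, hB, h'⟩
    · exact Or.inr ⟨A, P, hA, fun η => by simp only [h' η, add_zero]; exact h η⟩
    · refine Or.inr ⟨A + B + Real.log 2, P ∪ Q, ?_, fun η => ?_⟩
      · have := Real.log_nonneg (one_le_two (α := ℝ))
        linarith
      · have hl := Real.log_nonneg (one_le_two (α := ℝ))
        have h1 : ∑ p ∈ P, |η p| ≤ ∑ p ∈ P ∪ Q, |η p| :=
          sum_le_of_sub Finset.subset_union_left η
        have h2 : ∑ p ∈ Q, |η p| ≤ ∑ p ∈ P ∪ Q, |η p| :=
          sum_le_of_sub Finset.subset_union_right η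
        have h0 : 0 ≤ ∑ p ∈ P, |η p| := Finset.sum_nonneg fun _ _ => abs_nonneg _
        set S := ∑ p ∈ P ∪ Q, |η p|
        have h3 : A * ∑ p ∈ P, |η p| ≤ A * S := mul_le_mul_of_nonneg_left h1 hA
        have h4 : B * ∑ p ∈ Q, |η p| ≤ B * S := mul_le_mul_of_nonneg_left h2 hB
        have h5 : 0 ≤ S := h0.trans h1
        have h6 : 0 ≤ A * S := mul_nonneg hA h5
        have h7 : 0 ≤ B * S := mul_nonneg hB h5
        have h8 : 0 ≤ Real.log 2 * S := mul_nonneg hl h5
        constructor
        · calc Real.exp (-((A + B + Real.log 2) + (A + B + Real.log 2) * S))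
              ≤ Real.exp (-(A + A * ∑ p ∈ P, |η p|)) := by
                apply Real.exp_le_exp.2
                nlinarith
            _ ≤ F η := (h η).1
            _ ≤ F η + G η := le_add_of_nonneg_right (hG.nonneg η)
        · have h9 : Real.exp ((A + B + Real.log 2) + (A + B + Real.log 2) * S) =
              2 * Real.exp ((A + B) + (A + B + Real.log 2) * S) := by
            rw [show (A + B + Real.log 2) + (A + B + Real.log 2) * S =
              Real.log 2 + ((A + B) + (A + B + Real.log 2) * S) by ring, Real.exp_add,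
              Real.exp_log two_pos]
          rw [h9, two_mul]
          refine add_le_add ((h η).2.trans (Real.exp_le_exp.2 ?_))
            ((h' η).2.trans (Real.exp_le_exp.2 ?_)) <;> nlinarith

lemma Mild.sum {ι : Type*} (s : Finset ι) {F : ι → Env d → ℝ} (hF : ∀ i, Mild (F i)) :
    Mild (fun η => ∑ i ∈ s, F i η) := by
  classical
  induction s using Finset.induction_on with
  | empty => simpa using Mild.const (d := d) le_rfl
  | insert i s hi ih =>
    simp only [Finset.sum_insert hi]
    exact (hF i).add ih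

variable (β : ℝ) (h : Vec d) (e : Site d)

lemma Mild.stp (j : ℕ) {c : Env d → Site d → ℝ} (hc : ∀ y, Mild (fun η => c η y)) (y : Site d) :
    Mild (fun η => stp β h (sh j 0 η) (c η) y) :=
  Mild.sum _ fun s => (hc (y - vec s)).mul_exp _ β (1 + j, y + 0)

lemma Mild.insr (j : ℕ) {c : Env d → Site d → ℝ} (hc : ∀ y, Mild (fun η => c η y)) (y : Site d) :
    Mild (fun η => insr β e (sh j 0 η) (c η) y) := by
  have h1 := ((hc y).mul_exp 0 β (1 + j, y + e + 0)).mul_exp 0 β (2 + j, y + 0)
  have h2 : (fun η : Env d => WordA99.insr β e (sh j 0 η) (c η) y) = fun η =>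
      c η y * Real.exp (0 + β * η (1 + j, y + e + 0)) * Real.exp (0 + β * η (2 + j, y + 0)) := by
    funext η
    rw [mul_assoc, ← Real.exp_add, WordA99.insr]
    unfold sh
    congr 2
    ring
  rw [h2]
  exact h1

lemma sh_sh0 (i j : ℕ) (η : Env d) : sh i 0 (sh j 0 η) = sh (j + i) 0 η := by
  funext p
  unfold sh
  simp only [add_zero]
  congr 2
  ring

lemma Mild.St (z : Site d) (W : List Bool) : ∀ (j : ℕ) {c : Env d → Site d → ℝ}
    (_ : ∀ y, Mild (fun η => c η y)), Mild (fun η => St β h e W (sh j 0 η) (c η) z) := by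
  induction W with
  | nil => intro j c hc; exact hc z
  | cons b W ih =>
    intro j c hc
    cases b with
    | false =>
      have h1 := ih (j + 1) (c := fun η => WordA99.stp β h (sh j 0 η) (c η))
        (fun y => Mild.stp β h j hc y)
      simp only [WordA99.St, sh_sh0]
      exact h1
    | true =>
      have h1 := ih (j + 2) (c := fun η => WordA99.insr β e (sh j 0 η) (c η))
        (fun y => Mild.insr β e j hc y)
      simp only [WordA99.St, sh_sh0]
      exact h1

lemma sh_zero (η : Env d) : sh 0 0 η = η := by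
  funext p
  unfold sh
  simp

lemma Mild.St0 (z : Site d) (W : List Bool) {c : Site d → ℝ} (hc : ∀ y, 0 ≤ c y) :
    Mild (fun η => WordA99.St β h e W η c z) := by
  have h1 := Mild.St β h e z W 0 (c := fun _ => c) (fun y => Mild.const (hc y))
  simp only [sh_zero] at h1
  exact h1

lemma id_int (hρ : EM ρ) : Integrable (fun t : ℝ => t) ρ := by
  have h1 : Integrable (fun t : ℝ => Real.exp (1 * t) + Real.exp (-1 * t)) ρ :=
    (hρ 1).add (hρ (-1))
  refine h1.mono' measurable_id.aestronglyMeasurable (Filter.Eventually.of_forall fun t => ?_)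
  rw [Real.norm_eq_abs]
  have h2 := Real.add_one_le_exp t
  have h3 := Real.add_one_le_exp (-t)
  rw [one_mul, neg_one_mul]
  rcases abs_cases t with ⟨h4, _⟩ | ⟨h4, _⟩ <;> rw [h4]
  · linarith [Real.exp_pos (-t)]
  · linarith [Real.exp_pos t]

variable [IsProbabilityMeasure ρ]

lemma eval_mp (p : ℕ × Site d) : MeasurePreserving (fun η : Env d => η p) (law d ρ) ρ :=
  measurePreserving_eval_infinitePi (fun _ => ρ) p

lemma eval_int (hρ : EM ρ) (p : ℕ × Site d) :
    Integrable (fun η : Env d => η p) (law d ρ) ∧ ∫ η, (η : Env d) p ∂(law d ρ) = ∫ t, t ∂ρ := by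
  have h1 : Integrable ((fun t : ℝ => t) ∘ fun η : Env d => η p) (law d ρ) :=
    (eval_mp p).integrable_comp_of_integrable (id_int hρ)
  refine ⟨h1, ?_⟩
  have h2 := LawU_integral (eval_mp (d := d) (ρ := ρ) p) (F := fun t : ℝ => t)
    (id_int hρ).aestronglyMeasurable
  exact h2

lemma Mild.int (hρ : EM ρ) {F : Env d → ℝ} (hF : Mild F) :
    Integrable (fun η => Real.log (F η)) (law d ρ) := by
  rcases hF.2 with h | ⟨A, P, hA, h⟩
  · simp only [h, Real.log_zero]
    exact integrable_zero _ _ _
  · have h1 : Integrable (fun η : Env d => A + A * ∑ p ∈ P, |η p|) (law d ρ) :=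
      (integrable_const _).add ((integrable_finset_sum _ fun p _ =>
        (eval_int hρ p).1.abs).const_mul A)
    refine h1.mono' (Real.measurable_log.comp hF.1).aestronglyMeasurable
      (Filter.Eventually.of_forall fun η => ?_)
    have h2 : 0 < F η := (Real.exp_pos _).trans_le (h η).1
    rw [Real.norm_eq_abs, abs_le]
    constructor
    · rw [Real.le_log_iff_exp_le h2]
      exact (h η).1
    · rw [Real.log_le_iff_le_exp h2]
      exact (h η).2

/-- The rows up to `j` from the first environment, the others from the second one. -/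
def mix (j : ℕ) (w : Env d × Env d) : Env d := fun p =>
  if p.1 ≤ j then w.1 p else w.2 (p.1 - j, p.2)

lemma mix_mp (j : ℕ) : MeasurePreserving (mix j) ((law d ρ).prod (law d ρ)) (law d ρ) := by
  classical
  have hσ : Function.Injective (fun p : ℕ × Site d =>
      if p.1 ≤ j then (Sum.inl p : (ℕ × Site d) ⊕ (ℕ × Site d)) else Sum.inr (p.1 - j, p.2)) := by
    intro p q hpq
    simp only at hpq
    split_ifs at hpq with h1 h2 h2
    · exact Sum.inl.inj hpq
    · have := Sum.inr.inj hpq
      simp only [Prod.mk.injEq] at this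
      exact Prod.ext (by omega) this.2
  have h1 := LawU_elim (ρ := ρ) hσ
  have h2 : (mix j : Env d × Env d → Env d) = fun w : ((ℕ × Site d) → ℝ) × ((ℕ × Site d) → ℝ) =>
      fun p => Sum.elim w.1 w.2 (if p.1 ≤ j then (Sum.inl p : (ℕ × Site d) ⊕ (ℕ × Site d))
        else Sum.inr (p.1 - j, p.2)) := by
    funext w p
    unfold mix
    split_ifs <;> rfl
  rw [h2]
  exact h1

lemma mix_row (j : ℕ) (w : Env d × Env d) {i : ℕ} (hi : i ≤ j) (y : Site d) :
    mix j w (i, y) = w.1 (i, y) := if_pos hi

lemma mix_tail (j : ℕ) (w : Env d × Env d) (i : ℕ) (y : Site d) :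
    sh j 0 (mix j w) (i + 1, y) = w.2 (i + 1, y) := by
  unfold sh mix
  simp only
  rw [if_neg (by omega)]
  simp

lemma St_mix_false (W : List Bool) (c : Site d → ℝ) (w : Env d × Env d) :
    WordA99.St β h e (false :: W) (mix 1 w) c = WordA99.St β h e W w.2 (stp β h w.1 c) := by
  simp only [WordA99.St]
  rw [stp_congr β h (fun y => mix_row 1 w le_rfl y)]
  exact St_congr β h e W (fun i y => mix_tail 1 w i y) _

lemma St_mix_true (W : List Bool) (c : Site d → ℝ) (w : Env d × Env d) :
    WordA99.St β h e (true :: W) (mix 2 w) c = WordA99.St β h e W w.2 (insr β e w.1 c) := by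
  simp only [WordA99.St]
  have h1 : insr β e (mix 2 w) c = insr β e w.1 c := by
    funext y
    rw [insr, insr, mix_row 2 w (by norm_num), mix_row 2 w le_rfl]
  rw [h1]
  exact St_congr β h e W (fun i y => mix_tail 2 w i y) _

lemma false_int (hρ : EM ρ) (z : Site d) (W : List Bool) {c : Site d → ℝ} (hc : ∀ y, 0 ≤ c y) :
    Integrable (fun η => ∫ ξ, Real.log (WordA99.St β h e W ξ (stp β h η c) z) ∂(law d ρ))
      (law d ρ) ∧
    ∫ η, Real.log (WordA99.St β h e (false :: W) η c z) ∂(law d ρ) =
      ∫ η, ∫ ξ, Real.log (WordA99.St β h e W ξ (stp β h η c) z) ∂(law d ρ) ∂(law d ρ) := by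
  have h1 := (Mild.St0 β h e z (false :: W) hc).int hρ
  have h2 : Integrable (fun w : Env d × Env d =>
      Real.log (WordA99.St β h e W w.2 (stp β h w.1 c) z)) ((law d ρ).prod (law d ρ)) := by
    have h3 := (mix_mp (d := d) (ρ := ρ) 1).integrable_comp_of_integrable h1
    refine h3.congr (Filter.Eventually.of_forall fun w => ?_)
    simp only [Function.comp]
    rw [St_mix_false]
  refine ⟨h2.integral_prod_left, ?_⟩
  rw [← LawU_integral (mix_mp (d := d) (ρ := ρ) 1) h1.aestronglyMeasurable]
  simp only [St_mix_false]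
  exact integral_prod _ h2

lemma true_int (hρ : EM ρ) (z : Site d) (W : List Bool) {c : Site d → ℝ} (hc : ∀ y, 0 ≤ c y) :
    Integrable (fun w : Env d × Env d =>
      Real.log (WordA99.St β h e W w.2 (insr β e w.1 c) z)) ((law d ρ).prod (law d ρ)) ∧
    ∫ η, Real.log (WordA99.St β h e (true :: W) η c z) ∂(law d ρ) =
      ∫ ξ, ∫ η, Real.log (WordA99.St β h e W ξ (insr β e η c) z) ∂(law d ρ) ∂(law d ρ) := by
  have h1 := (Mild.St0 β h e z (true :: W) hc).int hρ
  have h2 : Integrable (fun w : Env d × Env d =>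
      Real.log (WordA99.St β h e W w.2 (insr β e w.1 c) z)) ((law d ρ).prod (law d ρ)) := by
    have h3 := (mix_mp (d := d) (ρ := ρ) 2).integrable_comp_of_integrable h1
    refine h3.congr (Filter.Eventually.of_forall fun w => ?_)
    simp only [Function.comp]
    rw [St_mix_true]
  refine ⟨h2, ?_⟩
  rw [← LawU_integral (mix_mp (d := d) (ρ := ρ) 2) h1.aestronglyMeasurable]
  simp only [St_mix_true]
  exact integral_prod_symm _ h2

/-- The mean of a linear functional. -/
lemma St_integral (z : Site d) (W : List Bool) : ∀ (ξ : Env d) {F : Env d → Site d → ℝ}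
    (_ : ∀ y, Integrable (fun η => F η y) (law d ρ)),
    Integrable (fun η => WordA99.St β h e W ξ (F η) z) (law d ρ) ∧
    ∫ η, WordA99.St β h e W ξ (F η) z ∂(law d ρ) =
      WordA99.St β h e W ξ (fun y => ∫ η, F η y ∂(law d ρ)) z := by
  induction W with
  | nil => intro ξ F hF; exact ⟨hF z, rfl⟩
  | cons b W ih =>
    intro ξ F hF
    cases b with
    | false =>
      have h1 : ∀ y, Integrable (fun η => stp β h ξ (F η) y) (law d ρ) := fun y =>
        integrable_finset_sum _ fun s _ => (hF _).mul_const _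
      obtain ⟨i1, i2⟩ := ih (sh 1 0 ξ) (F := fun η => stp β h ξ (F η)) h1
      refine ⟨i1, ?_⟩
      simp only [WordA99.St]
      rw [i2]
      congr 1
      funext y
      unfold stp
      rw [integral_finset_sum _ fun s _ => (hF _).mul_const _]
      refine Finset.sum_congr rfl fun s _ => ?_
      rw [integral_mul_const]
    | true =>
      have h1 : ∀ y, Integrable (fun η => insr β e ξ (F η) y) (law d ρ) := fun y =>
        (hF _).mul_const _
      obtain ⟨i1, i2⟩ := ih (sh 2 0 ξ) (F := fun η => insr β e ξ (F η)) h1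
      refine ⟨i1, ?_⟩
      simp only [WordA99.St]
      rw [i2]
      congr 1
      funext y
      unfold insr
      rw [integral_mul_const]

/-- Jensen for one insertion, at a fixed environment after the insertion. -/
lemma ins_fixed (hρ : EM ρ) (z : Site d) (W : List Bool) {c : Site d → ℝ} (hc : ∀ y, 0 ≤ c y)
    (ξ : Env d) (hi : Integrable (fun η =>
      Real.log (WordA99.St β h e W ξ (insr β e η c) z)) (law d ρ)) :
    Real.log (WordA99.St β h e W ξ c z) - |2 * β * ∫ t, t ∂ρ| ≤
      ∫ η, Real.log (WordA99.St β h e W ξ (insr β e η c) z) ∂(law d ρ) := by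
  set Λ : (Site d → ℝ) → ℝ := fun c' => WordA99.St β h e W ξ c' z with hΛ
  change Real.log (Λ c) - _ ≤ ∫ η, Real.log (Λ (insr β e η c)) ∂(law d ρ)
  have hΛ0 : 0 ≤ Λ c := St_nonneg β h e W ξ hc z
  rcases hΛ0.eq_or_lt with h0 | h0
  · have h1 : ∀ η : Env d, Λ (insr β e η c) = 0 := fun η =>
      St_zero β h e W ξ hc (fun y hy => by rw [insr, hy, zero_mul]) z h0.symm
    simp only [h1, ← h0, Real.log_zero, integral_zero]
    have := abs_nonneg (2 * β * ∫ t, t ∂ρ)
    linarith
  · set L : Env d → Site d → ℝ := fun η y => β * (η (1, y + e) + η (2, y)) with hL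
    have hLi : ∀ y, Integrable (fun η => L η y) (law d ρ) := fun y =>
      ((eval_int hρ (1, y + e)).1.add (eval_int hρ (2, y)).1).const_mul β
    have hLm : ∀ y, ∫ η, L η y ∂(law d ρ) = 2 * β * ∫ t, t ∂ρ := by
      intro y
      simp only [hL]
      rw [integral_const_mul, integral_add (eval_int hρ (1, y + e)).1 (eval_int hρ (2, y)).1,
        (eval_int hρ (1, y + e)).2, (eval_int hρ (2, y)).2]
      ring
    have hF := St_integral β h e (ρ := ρ) z W ξ (F := fun η y => c y * L η y)
      (fun y => (hLi y).const_mul _)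
    obtain ⟨f1, f2⟩ := hF
    have f3 : (fun y => ∫ η, c y * L η y ∂(law d ρ)) = (2 * β * ∫ t, t ∂ρ) • c := by
      funext y
      rw [integral_const_mul, hLm, Pi.smul_apply, smul_eq_mul, mul_comm]
    rw [f3, St_smul, Pi.smul_apply, smul_eq_mul] at f2
    have h1 : ∀ η : Env d, Real.log (Λ c) + Λ (fun y => c y * L η y) / Λ c ≤
        Real.log (Λ (insr β e η c)) := by
      intro η
      set m := Λ (fun y => c y * L η y) / Λ c with hm
      have h2 : Real.exp m • ((1 - m) • c + fun y => c y * L η y) ≤ insr β e η c := by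
        intro y
        simp only [Pi.smul_apply, Pi.add_apply, smul_eq_mul, insr]
        have h3 := Real.add_one_le_exp (L η y - m)
        have h4 : Real.exp (L η y) = Real.exp m * Real.exp (L η y - m) := by
          rw [← Real.exp_add]; congr 1; ring
        have h5 : Real.exp m * (L η y - m + 1) ≤ Real.exp (L η y) := by
          rw [h4]; exact mul_le_mul_of_nonneg_left h3 (Real.exp_pos _).le
        have h6 := mul_le_mul_of_nonneg_left h5 (hc y)
        calc Real.exp m * ((1 - m) * c y + c y * L η y) =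
            c y * (Real.exp m * (L η y - m + 1)) := by ring
          _ ≤ c y * Real.exp (L η y) := h6
      have h7 : Real.exp m * Λ c ≤ Λ (insr β e η c) := by
        have h8 := St_mono β h e W ξ (fun y => h2 y) z
        rw [St_smul, St_add, St_smul] at h8
        simp only [Pi.smul_apply, Pi.add_apply, smul_eq_mul] at h8
        have h9 : Λ (fun y => c y * L η y) = m * Λ c := by
          rw [hm, div_mul_cancel₀ _ h0.ne']
        change Real.exp m * ((1 - m) * Λ c + Λ (fun y => c y * L η y)) ≤ Λ (insr β e η c) at h8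
        rw [h9] at h8
        calc Real.exp m * Λ c = Real.exp m * ((1 - m) * Λ c + m * Λ c) := by ring
          _ ≤ _ := h8
      have h10 : 0 < Real.exp m * Λ c := mul_pos (Real.exp_pos _) h0
      calc Real.log (Λ c) + m = Real.log (Real.exp m * Λ c) := by
            rw [Real.log_mul (Real.exp_pos _).ne' h0.ne', Real.log_exp]; ring
        _ ≤ _ := Real.log_le_log h10 h7
    have h11 : Integrable (fun η => Real.log (Λ c) + Λ (fun y => c y * L η y) / Λ c) (law d ρ) :=
      (integrable_const _).add (f1.div_const _)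
    have h12 := integral_mono h11 hi h1
    have h13 : ∫ η, (Real.log (Λ c) + Λ (fun y => c y * L η y) / Λ c) ∂(law d ρ) =
        Real.log (Λ c) + 2 * β * ∫ t, t ∂ρ := by
      rw [integral_add (integrable_const _) (f1.div_const _), integral_const, integral_div]
      have f4 : ∫ η, Λ (fun y => c y * L η y) ∂(law d ρ) = (2 * β * ∫ t, t ∂ρ) * Λ c := f2
      rw [f4, mul_div_cancel_right₀ _ h0.ne']
      simp
    rw [h13] at h12
    have := neg_abs_le (2 * β * ∫ t, t ∂ρ)
    exact le_trans (by linarith) h12

/-- TASK 2: each insertion costs at most a constant. -/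
theorem cost (hρ : EM ρ) (z : Site d) (W : List Bool) : ∀ {c : Site d → ℝ} (_ : ∀ y, 0 ≤ c y),
    ∫ η, Real.log (WordA99.St β h e (List.replicate (W.count false) false) η c z) ∂(law d ρ) -
        (W.count true) * |2 * β * ∫ t, t ∂ρ| ≤
      ∫ η, Real.log (WordA99.St β h e W η c z) ∂(law d ρ) := by
  induction W with
  | nil => intro c hc; simp
  | cons b W ih =>
    intro c hc
    cases b with
    | false =>
      rw [List.count_cons_self, List.count_cons_of_ne (by decide), List.replicate_succ]
      obtain ⟨i1, i2⟩ := false_int β h e hρ z (List.replicate (W.count false) false) hc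
      obtain ⟨j1, j2⟩ := false_int β h e hρ z W hc
      rw [i2, j2]
      have h1 : ∫ η, (∫ ξ, Real.log (WordA99.St β h e (List.replicate (W.count false) false) ξ
          (stp β h η c) z) ∂(law d ρ) - (W.count true) * |2 * β * ∫ t, t ∂ρ|) ∂(law d ρ) ≤
          ∫ η, ∫ ξ, Real.log (WordA99.St β h e W ξ (stp β h η c) z) ∂(law d ρ) ∂(law d ρ) :=
        integral_mono (i1.sub (integrable_const _)) j1 fun η => ih (stp_nonneg β h η hc)
      rw [integral_sub i1 (integrable_const _), integral_const] at h1
      simpa using h1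
    | true =>
      rw [List.count_cons_self, List.count_cons_of_ne (by decide)]
      obtain ⟨i1, i2⟩ := true_int β h e hρ z W hc
      rw [i2]
      have h1 := (Mild.St0 β h e z W hc).int hρ
      have h2 : ∫ ξ, (Real.log (WordA99.St β h e W ξ c z) - |2 * β * ∫ t, t ∂ρ|) ∂(law d ρ) ≤
          ∫ ξ, ∫ η, Real.log (WordA99.St β h e W ξ (insr β e η c) z) ∂(law d ρ) ∂(law d ρ) := by
        refine integral_mono_ae (h1.sub (integrable_const _)) i1.integral_prod_right ?_
        filter_upwards [i1.prod_left_ae] with ξ hξ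
        exact ins_fixed β h e hρ z W hc ξ hξ
      rw [integral_sub h1 (integrable_const _), integral_const] at h2
      have h3 := ih hc
      have h4 : (law d ρ).real Set.univ = 1 := by simp
      rw [h4, one_smul] at h2
      push_cast
      linarith

end Pool.Agent.W_7d29a1_V.WordC99
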