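import Pool.Agent.W_7d29a1_V.WordB99
import Pool.Agent.W_7d29a1_V.WordC99
import Pool.Agent.W_7d29a1_V.Rch48

/-!
The gain of `k` insertions in the means of the point to point partition functions.
-/

namespace Pool.Agent.W_7d29a1_V.WordD99

open MeasureTheory ProbabilityTheory Filter Topology Pool.Agent.W_MP_7d29a1_pr
  Pool.Agent.W_7d29a1_h46 Pool.Agent.W_7d29a1_h46u Pool.Agent.W_7d29a1_D2
  Pool.Agent.W_7d29a1_D2.B35 Pool.Agent.W_7d29a1_V Pool.Agent.W_7d29a1_V.WordA99
  Pool.Agent.W_7d29a1_V.WordB99 Pool.Agent.W_7d29a1_V.WordC99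

variable {d : ℕ} {ρ : Measure ℝ}

/-- The number of words. -/
lemma card_lower (n k l : ℕ) (hl : 2 ≤ l) (hk : k * l ≤ n + 2 * k) :
    (((l : ℝ) - 1) / 2) ^ k ≤ ((wds n k).card : ℝ) := by
  rw [wds_card]
  have hN : (1 : ℝ) ≤ ((n + k).choose k : ℝ) := by
    exact_mod_cast Nat.choose_pos (Nat.le_add_left k n)
  have hl' : (2 : ℝ) ≤ l := by exact_mod_cast hl
  rcases Nat.eq_zero_or_pos k with h0 | h0
  · subst h0
    simp
  rcases le_or_gt l 3 with h3 | h3
  · have h3' : (l : ℝ) ≤ 3 := by exact_mod_cast h3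
    exact (pow_le_one₀ (by linarith) (by linarith)).trans hN
  · have h3' : (3 : ℝ) < l := by exact_mod_cast h3
    have hk' : (k : ℝ) * l ≤ n + 2 * k := by exact_mod_cast hk
    have hkp : (0 : ℝ) < k := by exact_mod_cast h0
    have h4 : (((n + k + 1 - k : ℕ) : ℝ)) ^ k / (k.factorial : ℝ) ≤ ((n + k).choose k : ℝ) :=
      Nat.pow_le_choose k (n + k)
    have h5 : n + k + 1 - k = n + 1 := by omega
    rw [h5] at h4
    have h6 : (k.factorial : ℝ) ≤ (k : ℝ) ^ k := by exact_mod_cast Nat.factorial_le_pow k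
    have h7 : (0 : ℝ) < (k.factorial : ℝ) := by exact_mod_cast Nat.factorial_pos k
    have h8 : (((l : ℝ) - 1) / 2 * k) ^ k ≤ ((n + 1 : ℕ) : ℝ) ^ k := by
      apply pow_le_pow_left₀ (mul_nonneg (by linarith) hkp.le)
      push_cast
      nlinarith [mul_pos hkp (sub_pos.2 h3')]
    calc (((l : ℝ) - 1) / 2) ^ k = (((l : ℝ) - 1) / 2 * k) ^ k / (k : ℝ) ^ k := by
          rw [mul_pow, mul_div_cancel_right₀ _ (pow_pos hkp k).ne']
      _ ≤ ((n + 1 : ℕ) : ℝ) ^ k / (k : ℝ) ^ k :=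
          div_le_div_of_nonneg_right h8 (pow_pos hkp k).le
      _ ≤ ((n + 1 : ℕ) : ℝ) ^ k / (k.factorial : ℝ) :=
          div_le_div_of_nonneg_left (by positivity) h7 h6
      _ ≤ _ := h4

/-- The start at the origin. -/
noncomputable def c0 : Site d → ℝ := Pi.single 0 1

lemma c0_nonneg (y : Site d) : 0 ≤ c0 y := single_nonneg' 0 y

lemma aM_eq (β : ℝ) (h : Vec d) (e z : Site d) (t : ℕ) :
    aM ρ β h t z = ∫ η, Real.log (St β h e (List.replicate t false) η c0 z) ∂(law d ρ) := by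
  unfold aM
  refine integral_congr_ae (Filter.Eventually.of_forall fun η => ?_)
  simp only
  rw [← PP_eq_K0 β h e z t η]
  rfl

/-- The words are positive. -/
lemma K_pos (β : ℝ) (h : Vec d) (e : Site d) {z : Site d} {n : ℕ} (hz : Rch n z) (η : Env d)
    (W : List Bool) (hW : W.count false = n) : 0 < K β h e z W η 0 := by
  refine St_pos β h e W η η (c := c0) (c' := c0) c0_nonneg c0_nonneg (fun _ hy => hy) z ?_
  rw [hW]
  have h1 := PP_eq_K0 β h e z n η
  have h2 : 0 < PP β h η n z := Pool.Agent.W_7d29a1_V.R48.PP_pos hz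
  rw [← h1] at h2
  exact h2

variable [IsProbabilityMeasure ρ]

/-- The gain of `k` insertions in the mean. -/
lemma gain (hd : 0 < d) (hρ : EM ρ) (β : ℝ) (h : Vec d) (n k : ℕ) {z : Site d} (hz : Rch n z) :
    aM ρ β h n z + Real.log ((wds n k).card : ℝ) -
        (((n + 2 * k : ℕ) : ℝ) - l1 z) * Real.log 2 - k * |2 * β * ∫ t, t ∂ρ| ≤
      aM ρ β h (n + 2 * k) z := by
  classical
  set i₀ : Fin d := ⟨0, hd⟩
  set e : Site d := vec (i₀, true) with he
  set N : ℝ := ((wds n k).card : ℝ) with hN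
  have hN1 : (0 : ℝ) < N := by
    rw [hN, wds_card]
    exact_mod_cast Nat.choose_pos (Nat.le_add_left k n)
  have hKi : ∀ W : List Bool, Integrable (fun η => Real.log (K β h e z W η 0)) (law d ρ) :=
    fun W => (Mild.St0 β h e z W (c := c0) c0_nonneg).int hρ
  have hPi : Integrable (fun η => Real.log (PP β h η (n + 2 * k) z)) (law d ρ) := by
    have := hKi (List.replicate (n + 2 * k) false)
    simpa only [PP_eq_K0] using this
  -- pointwise
  have h1 : ∀ η : Env d, ∑ W ∈ wds n k, N⁻¹ * Real.log (K β h e z W η 0) + (Real.log N -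
      (((n + 2 * k : ℕ) : ℝ) - l1 z) * Real.log 2) ≤ Real.log (PP β h η (n + 2 * k) z) := by
    intro η
    have hpos : ∀ W ∈ wds n k, 0 < K β h e z W η 0 := fun W hW =>
      K_pos β h e hz η W (wds_count n k W hW).1
    have h2 := (strictConcaveOn_log_Ioi.concaveOn).le_map_sum (t := wds n k)
      (w := fun _ => N⁻¹) (p := fun W => K β h e z W η 0) (fun _ _ => (inv_pos.2 hN1).le)
      (by rw [Finset.sum_const, nsmul_eq_mul, ← hN, mul_inv_cancel₀ hN1.ne'])
      (fun W hW => hpos W hW)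
    simp only [smul_eq_mul] at h2
    have hne : (wds n k).Nonempty := by
      rw [← Finset.card_pos, wds_card]
      exact Nat.choose_pos (Nat.le_add_left k n)
    have hS : 0 < ∑ W ∈ wds n k, K β h e z W η 0 := Finset.sum_pos hpos hne
    rw [← Finset.mul_sum (f := fun W => K β h e z W η 0), Real.log_mul (inv_pos.2 hN1).ne' hS.ne',
      Real.log_inv] at h2
    have h3 := sum_le_PP β h i₀ z n k η
    have h4 : 0 < PP β h η (n + 2 * k) z := by
      have h5 := hS.trans_le h3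
      exact pos_of_mul_pos_right h5 (Real.exp_pos _).le
    have h6 := Real.log_le_log hS h3
    rw [Real.log_mul (Real.exp_pos _).ne' h4.ne', Real.log_exp] at h6
    linarith
  have h2 : ∫ η, (∑ W ∈ wds n k, N⁻¹ * Real.log (K β h e z W η 0) + (Real.log N -
      (((n + 2 * k : ℕ) : ℝ) - l1 z) * Real.log 2)) ∂(law d ρ) ≤ aM ρ β h (n + 2 * k) z :=
    integral_mono ((integrable_finset_sum _ fun W _ => (hKi W).const_mul _).add
      (integrable_const _)) hPi h1
  rw [integral_add (integrable_finset_sum _ fun W _ => (hKi W).const_mul _) (integrable_const _),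
    integral_finset_sum _ (fun W _ => (hKi W).const_mul _), integral_const] at h2
  have h3 : ∀ W ∈ wds n k, N⁻¹ * (aM ρ β h n z - k * |2 * β * ∫ t, t ∂ρ|) ≤
      ∫ η, N⁻¹ * Real.log (K β h e z W η 0) ∂(law d ρ) := by
    intro W hW
    rw [integral_const_mul]
    apply mul_le_mul_of_nonneg_left _ (inv_pos.2 hN1).le
    have h4 := cost β h e (ρ := ρ) hρ z W (c := c0) c0_nonneg
    rw [(wds_count n k W hW).1, (wds_count n k W hW).2, ← aM_eq] at h4
    exact h4
  have h5 := Finset.sum_le_sum h3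
  rw [Finset.sum_const, nsmul_eq_mul, ← hN, ← mul_assoc, mul_inv_cancel₀ hN1.ne', one_mul] at h5
  have h6 : (law d ρ).real Set.univ = 1 := by simp
  rw [h6, one_smul] at h2
  linarith

/-- The gain of `k` insertions. -/
theorem hB99 (hd : 0 < d) (hρ : EM ρ) (β R : ℝ) :
    ∃ C : ℝ, 0 < C ∧ ∀ h : Vec d, ‖h‖ ≤ R → ∀ t k l : ℕ, 2 ≤ l → k * l ≤ t →
      ∀ u : Site d, Rch (t - 2 * k) u →
        aM ρ β h (t - 2 * k) u + k * Real.log ((l : ℝ) - 1) -
          ((t : ℝ) - l1 u) * Real.log 2 - C * k ≤ aM ρ β h t u := by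
  have hl2 : 0 < Real.log 2 := Real.log_pos one_lt_two
  refine ⟨|2 * β * ∫ t, t ∂ρ| + Real.log 2, add_pos_of_nonneg_of_pos (abs_nonneg _) hl2,
    fun h _ t k l hl hkl u hu => ?_⟩
  have h0 : 2 * k ≤ t := by nlinarith
  obtain ⟨n, rfl⟩ := Nat.exists_eq_add_of_le' h0
  rw [Nat.add_sub_cancel] at hu ⊢
  have h1 := gain hd hρ β h n k hu
  have h2 := card_lower n k l hl hkl
  have hl' : (2 : ℝ) ≤ l := by exact_mod_cast hl
  have h3 : (0 : ℝ) < ((l : ℝ) - 1) / 2 := by linarith
  have h4 := Real.log_le_log (pow_pos h3 k) h2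
  rw [Real.log_pow, Real.log_div (by linarith) two_ne_zero] at h4
  linarith

end Pool.Agent.W_7d29a1_V.WordD99
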